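import Pool.Agent.Lens.TwistDatum

/-!
# Block A2: duality for the object `C` of a twist datum

For every object `Y` of the thick closure of the interval the pairing
`Hom (C, Y) × Hom (Y, C⟦3⟧) → k`, `(f, g) ↦ tr (f ≫ g)` is perfect.
-/

open CategoryTheory CategoryTheory.Limits CategoryTheory.Pretriangulated ZeroObject

set_option linter.unusedSectionVars false
set_option linter.unusedVariables false

namespace Lens

universe w v u

section A2

variable {k : Type w} [Field k] {T : Type u} [Category.{v} T] [Preadditive T] [Linear k T]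

/-- A functional which vanishes on the kernel of a linear map factors through it. -/
theorem exists_factor {V W : Type*} [AddCommGroup V] [Module k V] [AddCommGroup W] [Module k W]
    (L : V →ₗ[k] W) (φ : V →ₗ[k] k) (h : ∀ x, L x = 0 → φ x = 0) :
    ∃ ψ : W →ₗ[k] k, ∀ x, φ x = ψ (L x) := by
  have h1 : φ ∈ (LinearMap.ker L).dualAnnihilator := by
    rw [Submodule.mem_dualAnnihilator]
    intro x hx
    exact h x hx
  rw [← LinearMap.range_dualMap_eq_dualAnnihilator_ker] at h1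
  obtain ⟨ψ, hψ⟩ := h1
  refine ⟨ψ, fun x => ?_⟩
  rw [← hψ]
  rfl

/-- injectivity part of the duality (abstract form) -/
def InjTo {C S : T} (tr : (C ⟶ S) →ₗ[k] k) (Y : T) : Prop :=
  ∀ f : C ⟶ Y, (∀ g : Y ⟶ S, tr (f ≫ g) = 0) → f = 0

/-- surjectivity part of the duality (abstract form) -/
def SurTo {C S : T} (tr : (C ⟶ S) →ₗ[k] k) (Y : T) : Prop :=
  ∀ φ : (Y ⟶ S) →ₗ[k] k, ∃ f : C ⟶ Y, ∀ g, φ g = tr (f ≫ g)

section abstract

variable {C S : T} {tr : (C ⟶ S) →ₗ[k] k}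

theorem InjTo.retract {X Y : T} (i : X ⟶ Y) (r : Y ⟶ X) (hir : i ≫ r = 𝟙 X)
    (h : InjTo tr Y) : InjTo tr X := by
  intro f hf
  have h1 : f ≫ i = 0 := h (f ≫ i) fun g => by
    rw [Category.assoc]
    exact hf _
  rw [← Category.comp_id f, ← hir, ← Category.assoc, h1, zero_comp]

theorem SurTo.retract {X Y : T} (i : X ⟶ Y) (r : Y ⟶ X) (hir : i ≫ r = 𝟙 X)
    (h : SurTo tr Y) : SurTo tr X := by
  intro φ
  obtain ⟨f, hf⟩ := h (φ.comp (Linear.leftComp k S i))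
  refine ⟨f ≫ r, fun g => ?_⟩
  have h1 := hf (r ≫ g)
  rw [LinearMap.comp_apply] at h1
  change φ (i ≫ r ≫ g) = _ at h1
  rw [reassoc_of% hir] at h1
  rw [h1, Category.assoc]

theorem injTo_of_exact {W X Y Z : T} (w : W ⟶ X) (u : X ⟶ Y) (v : Y ⟶ Z)
    (hwu : w ≫ u = 0) (hY : ∀ f : C ⟶ Y, f ≫ v = 0 → ∃ h : C ⟶ X, f = h ≫ u)
    (hX : ∀ g : X ⟶ S, w ≫ g = 0 → ∃ g' : Y ⟶ S, g = u ≫ g')
    (hW : SurTo tr W) (iX : InjTo tr X) (iZ : InjTo tr Z) : InjTo tr Y := by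
  intro f hf
  have h1 : f ≫ v = 0 := iZ _ fun g => by
    rw [Category.assoc]
    exact hf _
  obtain ⟨h, rfl⟩ := hY f h1
  obtain ⟨ψ, hψ⟩ := exists_factor (Linear.leftComp k S w) (tr.comp (Linear.leftComp k S h))
    (by
      intro g hg
      obtain ⟨g', rfl⟩ := hX g hg
      rw [LinearMap.comp_apply]
      change tr (h ≫ u ≫ g') = 0
      have := hf g'
      rwa [Category.assoc] at this)
  obtain ⟨h', hh'⟩ := hW ψ
  have h2 : h - h' ≫ w = 0 := iX _ fun g => by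
    have h3 := hψ g
    rw [LinearMap.comp_apply] at h3
    change tr (h ≫ g) = ψ (w ≫ g) at h3
    rw [Preadditive.sub_comp, map_sub, h3, hh' (w ≫ g), Category.assoc, sub_self]
  rw [sub_eq_zero.mp h2, Category.assoc, hwu, comp_zero]

theorem surTo_of_exact {X Y Z W : T} (u : X ⟶ Y) (v : Y ⟶ Z) (w : Z ⟶ W)
    (hvw : v ≫ w = 0) (hZ : ∀ f : C ⟶ Z, f ≫ w = 0 → ∃ h : C ⟶ Y, f = h ≫ v)
    (hY : ∀ g : Y ⟶ S, u ≫ g = 0 → ∃ g' : Z ⟶ S, g = v ≫ g')
    (sX : SurTo tr X) (sZ : SurTo tr Z) (iW : InjTo tr W) : SurTo tr Y := by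
  intro φ
  obtain ⟨fZ, hfZ⟩ := sZ (φ.comp (Linear.leftComp k S v))
  have h1 : fZ ≫ w = 0 := iW _ fun g => by
    have h2 := hfZ (w ≫ g)
    rw [LinearMap.comp_apply] at h2
    change φ (v ≫ w ≫ g) = _ at h2
    rw [reassoc_of% hvw, zero_comp, map_zero] at h2
    rw [Category.assoc, ← h2]
  obtain ⟨fY, rfl⟩ := hZ fZ h1
  obtain ⟨ψ, hψ⟩ := exists_factor (Linear.leftComp k S u) (φ - tr.comp (Linear.leftComp k S fY))
    (by
      intro g hg
      obtain ⟨g', rfl⟩ := hY g hg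
      have h2 := hfZ g'
      rw [LinearMap.comp_apply] at h2
      change φ (v ≫ g') = _ at h2
      rw [LinearMap.sub_apply, LinearMap.comp_apply]
      change φ (v ≫ g') - tr (fY ≫ v ≫ g') = 0
      rw [h2, Category.assoc, sub_self])
  obtain ⟨fX, hfX⟩ := sX ψ
  refine ⟨fY + fX ≫ u, fun g => ?_⟩
  have h3 := hψ g
  rw [LinearMap.sub_apply, LinearMap.comp_apply] at h3
  change φ g - tr (fY ≫ g) = ψ (u ≫ g) at h3
  rw [hfX, sub_eq_iff_eq_add] at h3
  rw [Preadditive.add_comp, map_add, h3, Category.assoc, add_comm]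

theorem injTo_of_src {Y : T} (h : ∀ f : C ⟶ Y, f = 0) : InjTo tr Y := fun f _ => h f

theorem surTo_of_tgt {Y : T} (h : ∀ g : Y ⟶ S, g = 0) : SurTo tr Y := fun φ =>
  ⟨0, fun g => by rw [h g, map_zero, comp_zero, map_zero]⟩

end abstract

variable [HasZeroObject T] [HasShift T ℤ] [∀ n : ℤ, (shiftFunctor T n).Additive]

/-- the duality for all shifts -/
def DualAll {C S : T} (tr : (C ⟶ S) →ₗ[k] k) (Y : T) : Prop :=
  ∀ m : ℤ, InjTo tr (Y⟦m⟧) ∧ SurTo tr (Y⟦m⟧)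

section

variable {C S : T} {tr : (C ⟶ S) →ₗ[k] k}

theorem DualAll.retract {X Y : T} (i : X ⟶ Y) (r : Y ⟶ X) (hir : i ≫ r = 𝟙 X)
    (h : DualAll tr Y) : DualAll tr X := by
  intro m
  have h1 : i⟦m⟧' ≫ r⟦m⟧' = 𝟙 (X⟦m⟧) := by
    rw [← Functor.map_comp, hir, CategoryTheory.Functor.map_id]
  exact ⟨(h m).1.retract _ _ h1, (h m).2.retract _ _ h1⟩

theorem DualAll.iso {X Y : T} (e : X ≅ Y) (h : DualAll tr Y) : DualAll tr X :=
  h.retract e.hom e.inv e.hom_inv_id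

theorem DualAll.shift {Y : T} (h : DualAll tr Y) (a : ℤ) : DualAll tr (Y⟦a⟧) := by
  intro m
  have e : (Y⟦a⟧)⟦m⟧ ≅ Y⟦a + m⟧ := ((shiftFunctorAdd' T a m (a + m) rfl).app Y).symm
  exact ⟨(h (a + m)).1.retract _ _ e.hom_inv_id, (h (a + m)).2.retract _ _ e.hom_inv_id⟩

theorem DualAll.self {Y : T} (h : DualAll tr Y) : InjTo tr Y ∧ SurTo tr Y := by
  have e : Y ≅ Y⟦(0 : ℤ)⟧ := ((shiftFunctorZero T ℤ).app Y).symm
  exact ⟨(h 0).1.retract _ _ e.hom_inv_id, (h 0).2.retract _ _ e.hom_inv_id⟩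

variable [Pretriangulated T]

theorem dual_of_triangle (Δ : Triangle T) (hΔ : Δ ∈ distTriang T) (h₁ : DualAll tr Δ.obj₁)
    (h₃ : DualAll tr Δ.obj₃) : InjTo tr Δ.obj₂ ∧ SurTo tr Δ.obj₂ := by
  refine ⟨?_, ?_⟩
  · have hI := inv_rot_of_distTriang _ hΔ
    exact injTo_of_exact Δ.invRotate.mor₁ Δ.mor₁ Δ.mor₂ (comp_distTriang_mor_zero₁₂ _ hI)
      (fun f hf => Triangle.coyoneda_exact₂ Δ hΔ f hf)
      (fun g hg => Triangle.yoneda_exact₂ _ hI g hg) (h₃ (-1)).2 h₁.self.1 h₃.self.1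
  · exact surTo_of_exact Δ.mor₁ Δ.mor₂ Δ.mor₃ (comp_distTriang_mor_zero₂₃ _ hΔ)
      (fun f hf => Triangle.coyoneda_exact₃ Δ hΔ f hf)
      (fun g hg => Triangle.yoneda_exact₂ _ hΔ g hg) h₁.self.2 h₃.self.2 (h₁ 1).1

theorem DualAll.triangle (Δ : Triangle T) (hΔ : Δ ∈ distTriang T) (h₁ : DualAll tr Δ.obj₁)
    (h₃ : DualAll tr Δ.obj₃) : DualAll tr Δ.obj₂ := fun m =>
  dual_of_triangle _ (Triangle.shift_distinguished Δ hΔ m) (h₁.shift m) (h₃.shift m)

variable (tr) in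
theorem dualAll_isTriangulated : ObjectProperty.IsTriangulated (DualAll tr : ObjectProperty T) := by
  have : ObjectProperty.IsClosedUnderIsomorphisms (DualAll tr : ObjectProperty T) :=
    ⟨fun e h => h.iso e.symm⟩
  have : ObjectProperty.ContainsZero (DualAll tr : ObjectProperty T) := by
    refine ⟨0, isZero_zero T, fun m => ?_⟩
    have h0 : IsZero ((0 : T)⟦m⟧) := (shiftFunctor T m).map_isZero (isZero_zero T)
    exact ⟨injTo_of_src fun f => h0.eq_of_tgt _ _, surTo_of_tgt fun g => h0.eq_of_src _ _⟩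
  have : ObjectProperty.IsStableUnderShift (DualAll tr : ObjectProperty T) ℤ :=
    ⟨fun a => ⟨fun Y h => h.shift a⟩⟩
  have : ObjectProperty.IsTriangulatedClosed₂ (DualAll tr : ObjectProperty T) :=
    ObjectProperty.IsTriangulatedClosed₂.mk' fun Δ hΔ h₁ h₃ => DualAll.triangle Δ hΔ h₁ h₃
  exact {}

variable (tr) in
theorem dualAll_retracts :
    ObjectProperty.IsStableUnderRetracts (DualAll tr : ObjectProperty T) :=
  ⟨fun h hY => hY.retract h.i h.r h.retract⟩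

end

section

variable [∀ n : ℤ, (shiftFunctor T n).Linear k]

/-- maps between shifts, reduced to a shift of the target -/
theorem shift_hom_zero {X Y : T} (m n : ℤ) (h : ∀ f : X ⟶ Y⟦n - m⟧, f = 0) (g : X⟦m⟧ ⟶ Y⟦n⟧) :
    g = 0 := by
  let e := (shiftFunctorAdd' T (n - m) m n (by lia)).app Y
  obtain ⟨g', hg'⟩ := (shiftFunctor T m).map_surjective (g ≫ e.hom)
  rw [← cancel_mono e.hom, ← hg', h g', zero_comp, Functor.map_zero]

end

variable [∀ n : ℤ, (shiftFunctor T n).Linear k] [Pretriangulated T]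

theorem TwistDatum.dualAll_term {n : ℕ} {E : Fin n → T} (D : TwistDatum k E) (i : Fin n)
    (hi : D.I i) : DualAll D.tr (E i) := by
  intro m
  by_cases hm : m = 3
  · subst hm
    refine ⟨fun f hf => ?_, fun φ => ?_⟩
    · obtain ⟨c, rfl⟩ := D.hb i hi f
      have h1 := hf ((D.a i)⟦(3 : ℤ)⟧')
      rw [Linear.smul_comp, map_smul, smul_eq_mul] at h1
      rw [(mul_eq_zero.mp h1).resolve_right (D.hab i hi), zero_smul]
    · refine ⟨(φ ((D.a i)⟦(3 : ℤ)⟧') / D.tr (D.b i ≫ (D.a i)⟦(3 : ℤ)⟧')) • D.b i, fun g => ?_⟩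
      obtain ⟨g', rfl⟩ := (shiftFunctor T (3 : ℤ)).map_surjective g
      obtain ⟨c, rfl⟩ := D.ha i hi g'
      rw [Functor.map_smul, map_smul, Linear.smul_comp, map_smul, Linear.comp_smul, map_smul,
        smul_eq_mul, smul_eq_mul, smul_eq_mul]
      have h0 := D.hab i hi
      field_simp
  · exact ⟨injTo_of_src (D.hb' i hi m hm), surTo_of_tgt fun g =>
      shift_hom_zero m 3 (D.ha' i hi (3 - m) (by lia)) g⟩

theorem TwistDatum.dualAll {n : ℕ} {E : Fin n → T} (D : TwistDatum k E) {Y : T}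
    (hY : D.Thick Y) : DualAll D.tr Y :=
  hY _ (dualAll_isTriangulated _) (dualAll_retracts _) fun i hi => D.dualAll_term i hi

/-- BLOCK A2 (duality), injectivity. -/
theorem TwistDatum.dual_inj {n : ℕ} {E : Fin n → T} (D : TwistDatum k E)
    (hE : IsExceptionalSeq k E) {Y : T} (hY : D.Thick Y) (f : D.C ⟶ Y)
    (hf : ∀ g : Y ⟶ D.C⟦(3 : ℤ)⟧, D.tr (f ≫ g) = 0) : f = 0 :=
  (D.dualAll hY).self.1 f hf

/-- BLOCK A2 (duality), surjectivity. -/
theorem TwistDatum.dual_surj {n : ℕ} {E : Fin n → T} (D : TwistDatum k E)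
    (hE : IsExceptionalSeq k E) {Y : T} (hY : D.Thick Y)
    (φ : (Y ⟶ D.C⟦(3 : ℤ)⟧) →ₗ[k] k) :
    ∃ f : D.C ⟶ Y, ∀ g, φ g = D.tr (f ≫ g) :=
  (D.dualAll hY).self.2 φ

/-- BLOCK A2: consequence, `Hom (C, C⟦m⟧) = 0` for `m ≠ 0, 3`. -/
theorem TwistDatum.hom_zero {n : ℕ} {E : Fin n → T} (D : TwistDatum k E)
    (hE : IsExceptionalSeq k E) (m : ℤ) (h0 : m ≠ 0) (h3 : m ≠ 3) (f : D.C ⟶ D.C⟦m⟧) :
    f = 0 := by
  by_cases hneg : m < 0
  · exact D.hom_neg m hneg f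
  by_cases h1 : m = 1
  · subst h1
    exact D.hom_one f
  · refine (D.dualAll D.mem m).1 f fun g => ?_
    have hg : g = 0 := by
      refine shift_hom_zero m 3 (fun f' => ?_) g
      by_cases h2 : m = 2
      · subst h2
        exact D.hom_one f'
      · exact D.hom_neg _ (by lia) f'
    rw [hg, comp_zero, map_zero]

/-- BLOCK A2: consequence, `tr` is injective on `Hom (C, C⟦3⟧)`. -/
theorem TwistDatum.tr_inj {n : ℕ} {E : Fin n → T} (D : TwistDatum k E)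
    (hE : IsExceptionalSeq k E) (f : D.C ⟶ D.C⟦(3 : ℤ)⟧) (hf : D.tr f = 0) : f = 0 := by
  refine (D.dualAll D.mem 3).1 f fun g => ?_
  obtain ⟨g', rfl⟩ := (shiftFunctor T (3 : ℤ)).map_surjective g
  obtain ⟨c, rfl⟩ := D.end_C g'
  rw [Functor.map_smul, CategoryTheory.Functor.map_id, Linear.comp_smul, Category.comp_id,
    map_smul, hf, smul_zero]

end A2

end Lens
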