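import Mathlib

open CategoryTheory CategoryTheory.Limits CategoryTheory.Pretriangulated

namespace Pool.Agent.Lens

universe v u

variable {T : Type u} [Category.{v} T] [HasZeroObject T] [HasShift T ℤ] [Preadditive T]
  [∀ n : ℤ, (shiftFunctor T n).Additive] [Pretriangulated T]

section exact

variable (Δ : Triangle T) (hΔ : Δ ∈ distTriang T)
include hΔ

theorem cov₂ {Y : T} {n : ℤ} (α : Y ⟶ Δ.obj₂⟦n⟧) (h : α ≫ Δ.mor₂⟦n⟧' = 0) :
    ∃ β : Y ⟶ Δ.obj₁⟦n⟧, β ≫ Δ.mor₁⟦n⟧' = α := by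
  obtain ⟨β, hβ⟩ : ∃ β : Y ⟶ Δ.obj₁⟦n⟧, α = β ≫ (n.negOnePow • Δ.mor₁⟦n⟧') :=
    Triangle.coyoneda_exact₂ _ (Triangle.shift_distinguished Δ hΔ n) (X := Y) α
    (by
      change α ≫ (n.negOnePow • Δ.mor₂⟦n⟧') = 0
      rw [Linear.comp_units_smul, h, smul_zero])
  refine ⟨n.negOnePow • β, ?_⟩
  rw [hβ, Linear.comp_units_smul, Linear.units_smul_comp]

theorem cov₃ {Y : T} {n : ℤ} (α : Y ⟶ Δ.obj₃⟦n⟧) (h : α ≫ Δ.mor₃⟦n⟧' = 0) :
    ∃ β : Y ⟶ Δ.obj₂⟦n⟧, β ≫ Δ.mor₂⟦n⟧' = α := by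
  obtain ⟨β, hβ⟩ : ∃ β : Y ⟶ Δ.obj₂⟦n⟧, α = β ≫ (n.negOnePow • Δ.mor₂⟦n⟧') :=
    Triangle.coyoneda_exact₃ _ (Triangle.shift_distinguished Δ hΔ n) (X := Y) α
    (by
      change α ≫ (n.negOnePow • (Δ.mor₃⟦n⟧' ≫ (shiftFunctorComm T 1 n).hom.app Δ.obj₁)) = 0
      rw [Linear.comp_units_smul, reassoc_of% h, zero_comp, smul_zero])
  refine ⟨n.negOnePow • β, ?_⟩
  rw [hβ, Linear.comp_units_smul, Linear.units_smul_comp]

theorem cov₁ {Y : T} {n : ℤ} (α : Y ⟶ Δ.obj₁⟦(1 : ℤ)⟧⟦n⟧) (h : α ≫ Δ.mor₁⟦(1 : ℤ)⟧'⟦n⟧' = 0) :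
    ∃ β : Y ⟶ Δ.obj₃⟦n⟧, β ≫ Δ.mor₃⟦n⟧' = α := by
  have := cov₂ _ (rot_of_distTriang _ (rot_of_distTriang _ hΔ)) (Y := Y) (n := n) α (by
    change α ≫ (-Δ.mor₁⟦(1:ℤ)⟧')⟦n⟧' = 0
    rw [Functor.map_neg, Preadditive.comp_neg, h, neg_zero])
  exact this

/-- contravariant, at the first vertex -/
theorem con₁ {Y : T} (α : Δ.obj₁ ⟶ Y) (h : Δ.mor₃ ≫ α⟦(1 : ℤ)⟧' = 0) :
    ∃ β : Δ.obj₂ ⟶ Y, Δ.mor₁ ≫ β = α := by
  obtain ⟨β, hβ⟩ := Triangle.yoneda_exact₂ _ (rot_of_distTriang _ (rot_of_distTriang _ hΔ))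
    (α⟦(1 : ℤ)⟧') h
  change α⟦(1 : ℤ)⟧' = (-Δ.mor₁⟦(1 : ℤ)⟧') ≫ β at hβ
  change Δ.obj₂⟦(1 : ℤ)⟧ ⟶ Y⟦(1 : ℤ)⟧ at β
  obtain ⟨γ, rfl⟩ := (shiftFunctor T (1 : ℤ)).map_surjective β
  refine ⟨-γ, (shiftFunctor T (1 : ℤ)).map_injective ?_⟩
  rw [hβ]
  simp

end exact

/-- all shifted homs vanish -/
def HZ (X Y : T) : Prop := ∀ (n : ℤ) (f : X ⟶ Y⟦n⟧), f = 0

/-- thick triangulated classes of objects -/
structure Thk (P : T → Prop) : Prop where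
  zero : ∀ X : T, IsZero X → P X
  iso : ∀ {X Y : T}, (X ≅ Y) → P X → P Y
  shift : ∀ (X : T) (n : ℤ), P X → P (X⟦n⟧)
  cone : ∀ Δ : Triangle T, Δ ∈ distTriang T → P Δ.obj₁ → P Δ.obj₂ → P Δ.obj₃
  retract : ∀ {X Y : T} (i : X ⟶ Y) (r : Y ⟶ X), i ≫ r = 𝟙 X → P Y → P X

namespace Thk

variable {P : T → Prop} (hP : Thk P)
include hP

theorem unshift (X : T) (n : ℤ) (h : P (X⟦n⟧)) : P X :=
  hP.iso (shiftShiftNeg X n) (hP.shift _ (-n) h)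

theorem cone₁ (Δ : Triangle T) (hΔ : Δ ∈ distTriang T) (h₂ : P Δ.obj₂) (h₃ : P Δ.obj₃) :
    P Δ.obj₁ :=
  hP.unshift _ 1 (hP.cone _ (rot_of_distTriang _ hΔ) h₂ h₃)

theorem cone₂ (Δ : Triangle T) (hΔ : Δ ∈ distTriang T) (h₁ : P Δ.obj₁) (h₃ : P Δ.obj₃) :
    P Δ.obj₂ :=
  hP.unshift _ 1 (hP.cone _ (rot_of_distTriang _ (rot_of_distTriang _ hΔ)) h₃
    (hP.shift _ 1 h₁))

theorem and {Q : T → Prop} (hQ : Thk Q) : Thk (fun X => P X ∧ Q X) where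
  zero X h := ⟨hP.zero X h, hQ.zero X h⟩
  iso e h := ⟨hP.iso e h.1, hQ.iso e h.2⟩
  shift X n h := ⟨hP.shift X n h.1, hQ.shift X n h.2⟩
  cone Δ hΔ h₁ h₂ := ⟨hP.cone Δ hΔ h₁.1 h₂.1, hQ.cone Δ hΔ h₁.2 h₂.2⟩
  retract i r h hY := ⟨hP.retract i r h hY.1, hQ.retract i r h hY.2⟩

end Thk

/-- the smallest thick class containing `s` -/
def InThick (s : Set T) (X : T) : Prop := ∀ P : T → Prop, Thk P → (∀ Y ∈ s, P Y) → P X

theorem inThick_thk (s : Set T) : Thk (InThick s) where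
  zero X h P hP _ := hP.zero X h
  iso e h _ hP hs := hP.iso e (h _ hP hs)
  shift X n h P hP hs := hP.shift X n (h P hP hs)
  cone Δ hΔ h₁ h₂ P hP hs := hP.cone Δ hΔ (h₁ P hP hs) (h₂ P hP hs)
  retract i r h hY P hP hs := hP.retract i r h (hY P hP hs)

theorem inThick_of_mem {s : Set T} {X : T} (h : X ∈ s) : InThick s X := fun _ _ hs => hs X h

/-! ### vanishing of all shifted homs is a thick condition in both variables -/

theorem HZ.of_iso_right {X Y Y' : T} (h : HZ X Y) (e : Y ≅ Y') : HZ X Y' := by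
  intro n f
  have := h n (f ≫ (e.inv)⟦n⟧')
  rw [← cancel_mono (e.inv⟦n⟧'), this, zero_comp]

theorem HZ.shift_right {X Y : T} (h : HZ X Y) (m : ℤ) : HZ X (Y⟦m⟧) := by
  intro n f
  have := h (m + n) (f ≫ (shiftFunctorAdd' T m n (m + n) rfl).inv.app Y)
  rw [← cancel_mono ((shiftFunctorAdd' T m n (m + n) rfl).inv.app Y), this, zero_comp]

theorem HZ.zero₀ {X Y : T} (h : HZ X Y) (f : X ⟶ Y) : f = 0 := by
  have := h 0 (f ≫ (shiftFunctorZero T ℤ).inv.app Y)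
  rw [← cancel_mono ((shiftFunctorZero T ℤ).inv.app Y)]
  erw [this, zero_comp]

theorem HZ.shift_left {X Y : T} (h : HZ X Y) (m : ℤ) : HZ (X⟦m⟧) Y := by
  intro n f
  -- `f ≫ iso⁻¹ : X⟦m⟧ ⟶ Y⟦n - m⟧⟦m⟧`
  let e := (shiftFunctorAdd' T (n - m) m n (by lia)).app Y
  obtain ⟨g, hg⟩ := (shiftFunctor T m).map_surjective (f ≫ e.hom)
  have hg0 : g = 0 := h _ g
  rw [← cancel_mono e.hom, ← hg, hg0]
  simp

theorem HZ.thk_right (X : T) : Thk (HZ X) where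
  zero Y hY n f := by
    have : IsZero (Y⟦n⟧) := (shiftFunctor T n).map_isZero hY
    exact this.eq_of_tgt _ _
  iso e h := h.of_iso_right e
  shift Y n h := h.shift_right n
  cone Δ hΔ h₁ h₂ n f := by
    obtain ⟨g, hg⟩ := cov₃ Δ hΔ f (h₁.shift_right 1 n _)
    rw [← hg, h₂ n g, zero_comp]
  retract {Y Z} i r h hY n f := by
    have : f ≫ i⟦n⟧' = 0 := hY n _
    have h2 : f = (f ≫ i⟦n⟧') ≫ r⟦n⟧' := by
      rw [Category.assoc, ← Functor.map_comp, h, CategoryTheory.Functor.map_id, Category.comp_id]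
    rw [h2, this, zero_comp]

theorem HZ.thk_left (Y : T) : Thk (fun X => HZ X Y) where
  zero X hX n f := hX.eq_of_src _ _
  iso e h n f := by
    have := h n (e.hom ≫ f)
    rw [← cancel_epi e.hom, this, comp_zero]
  shift X n h := h.shift_left n
  cone Δ hΔ h₁ h₂ n f := by
    obtain ⟨g, hg⟩ := Triangle.yoneda_exact₃ Δ hΔ f (h₂ n _)
    rw [hg, h₁.shift_left 1 n g, comp_zero]
  retract {X Z} i r h hZ n f := by
    have : r ≫ f = 0 := hZ n _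
    have h2 : f = i ≫ (r ≫ f) := by rw [← Category.assoc, h, Category.id_comp]
    rw [h2, this, comp_zero]

theorem HZ.of_inThick_right {X : T} {s : Set T} (h : ∀ Y ∈ s, HZ X Y) {Z : T}
    (hZ : InThick s Z) : HZ X Z := hZ _ (HZ.thk_right X) h

theorem HZ.of_inThick_left {Y : T} {s : Set T} (h : ∀ X ∈ s, HZ X Y) {Z : T}
    (hZ : InThick s Z) : HZ Z Y := hZ _ (HZ.thk_left Y) h

theorem HZ.isZero {X : T} (h : HZ X X) : IsZero X := by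
  rw [IsZero.iff_id_eq_zero]
  exact h.zero₀ _

/-! ### the twist -/

variable {k : Type*} [Field k] [Linear k T]

variable (k) in
/-- exceptional object: `End = k`, no other graded endomorphisms -/
structure ExcObj (X : T) : Prop where
  ne : 𝟙 X ≠ 0
  hom : ∀ f : X ⟶ X, ∃ c : k, f = c • 𝟙 X
  van : ∀ n : ℤ, n ≠ 0 → ∀ f : X ⟶ X⟦n⟧, f = 0

variable (k) in
/-- the object `S` is spherical of dimension `d` (only what is used) -/
structure Sph (S : T) (d : ℤ) : Prop where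
  hom : ∀ f : S ⟶ S, ∃ c : k, f = c • 𝟙 S
  top : ∀ f g : S ⟶ S⟦d⟧, g ≠ 0 → ∃ c : k, f = c • g
  van : ∀ n : ℤ, n ≠ 0 → n ≠ d → ∀ f : S ⟶ S⟦n⟧, f = 0

variable (k) in
/-- `b` and `a` span all the shifted homs between `S` and `X`, and `b ≫ a ≠ 0` -/
structure Tw (S : T) (d : ℤ) {X : T} (b : S ⟶ X) (a : X ⟶ S⟦d⟧) : Prop where
  hb : ∀ f : S ⟶ X, ∃ c : k, f = c • b
  hb' : ∀ n : ℤ, n ≠ 0 → ∀ f : S ⟶ X⟦n⟧, f = 0
  ha : ∀ f : X ⟶ S⟦d⟧, ∃ c : k, f = c • a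
  ha' : ∀ n : ℤ, n ≠ d → ∀ f : X ⟶ S⟦n⟧, f = 0
  ab : b ≫ a ≠ 0

theorem Tw.ne {S : T} {d : ℤ} {X : T} {b : S ⟶ X} {a : X ⟶ S⟦d⟧} (h : Tw k S d b a) : b ≠ 0 := by
  rintro rfl
  exact h.ab zero_comp

section

variable {S : T} {d : ℤ} {X : T} {b : S ⟶ X} {a : X ⟶ S⟦d⟧} (hX : Tw k S d b a)
  {F : T} {p : X ⟶ F} {q : F ⟶ S⟦(1 : ℤ)⟧} (hΔ : Triangle.mk b p q ∈ distTriang T)
  {X' : T} {b' : S ⟶ X'} {a' : X' ⟶ S⟦d⟧} (hX' : Tw k S d b' a')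

include hX hΔ in
/-- a map `S ⟶ F⟦m⟧` killed by `q` is zero -/
theorem tw_c0 {m : ℤ} (f : S ⟶ F⟦m⟧) (hf : f ≫ q⟦m⟧' = 0) : f = 0 := by
  obtain ⟨e, he⟩ := cov₃ _ hΔ (Y := S) (n := m) f hf
  change S ⟶ X⟦m⟧ at e
  change e ≫ p⟦m⟧' = f at he
  by_cases hm : m = 0
  · subst hm
    obtain ⟨c, hc⟩ := hX.hb (e ≫ (shiftFunctorZero T ℤ).hom.app X)
    have h1 : e = (c • b) ≫ (shiftFunctorZero T ℤ).inv.app X := by
      rw [← hc]; simp
    have h2 : (shiftFunctorZero T ℤ).inv.app X ≫ p⟦(0:ℤ)⟧' =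
        p ≫ (shiftFunctorZero T ℤ).inv.app F :=
      ((shiftFunctorZero T ℤ).inv.naturality p).symm
    have h3 : b ≫ p = 0 := comp_distTriang_mor_zero₁₂ _ hΔ
    rw [← he, h1, Category.assoc, h2, Linear.smul_comp, reassoc_of% h3, zero_comp, smul_zero]
  · rw [← he, hX.hb' m hm e, zero_comp]

include hX hΔ hX' in
/-- a map `X' ⟶ F⟦n⟧` killed by `b'` factors through `X⟦n⟧` -/
theorem tw_inj {n : ℤ} (g : X' ⟶ F⟦n⟧) (hg : b' ≫ g = 0) : ∃ e : X' ⟶ X⟦n⟧, e ≫ p⟦n⟧' = g := by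
  have key : g ≫ q⟦n⟧' = 0 := by
    let ι := (shiftFunctorAdd' T 1 n (1 + n) rfl).inv.app S
    rw [← cancel_mono ι, zero_comp]
    by_cases hd : 1 + n = d
    · subst hd
      obtain ⟨c, hc⟩ := hX'.ha ((g ≫ q⟦n⟧') ≫ ι)
      have h0 : b' ≫ ((g ≫ q⟦n⟧') ≫ ι) = 0 := by
        simp only [Category.assoc]
        rw [reassoc_of% hg, zero_comp]
      rw [hc, Linear.comp_smul] at h0
      have hc0 : c = 0 := (smul_eq_zero.mp h0).resolve_right hX'.ab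
      rw [hc, hc0, zero_smul]
    · exact hX'.ha' _ hd _
  exact cov₃ _ hΔ (Y := X') (n := n) g key

include hX hΔ hX' in
/-- every map `S ⟶ F⟦m⟧` factors through `b'` -/
theorem tw_surj (hS : Sph k S d) (hv : ∀ f : X' ⟶ X⟦d⟧, f = 0) {m : ℤ} (f : S ⟶ F⟦m⟧) :
    ∃ g : X' ⟶ F⟦m⟧, b' ≫ g = f := by
  let ι := (shiftFunctorAdd' T 1 m (1 + m) rfl).inv.app S
  by_cases hd : 1 + m = d
  · subst hd
    obtain ⟨c, hc⟩ := hS.top (f ≫ q⟦m⟧' ≫ ι) (b' ≫ a') hX'.ab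
    obtain ⟨γ, hγ⟩ := cov₁ _ hΔ (Y := X') (n := m)
      (a' ≫ (shiftFunctorAdd' T 1 m (1 + m) rfl).hom.app S) (by
        change (a' ≫ (shiftFunctorAdd' T 1 m (1 + m) rfl).hom.app S) ≫ b⟦(1 : ℤ)⟧'⟦m⟧' = 0
        have := hv ((a' ≫ (shiftFunctorAdd' T 1 m (1 + m) rfl).hom.app S) ≫ b⟦(1 : ℤ)⟧'⟦m⟧' ≫
          (shiftFunctorAdd' T 1 m (1 + m) rfl).inv.app X)
        rw [← cancel_mono ((shiftFunctorAdd' T 1 m (1 + m) rfl).inv.app X), zero_comp]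
        simpa using this)
    change X' ⟶ F⟦m⟧ at γ
    replace hγ : γ ≫ q⟦m⟧' = a' ≫ (shiftFunctorAdd' T 1 m (1 + m) rfl).hom.app S := hγ
    refine ⟨c • γ, ?_⟩
    rw [← sub_eq_zero, ← neg_eq_zero, neg_sub]
    refine tw_c0 hX hΔ _ ?_
    rw [Preadditive.sub_comp, Linear.comp_smul, Linear.smul_comp, Category.assoc, hγ]
    rw [← cancel_mono ι, zero_comp, Preadditive.sub_comp, Category.assoc, hc, Linear.smul_comp,
      Category.assoc, Category.assoc]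
    have h1 : (shiftFunctorAdd' T 1 m (1 + m) rfl).hom.app S ≫ ι = 𝟙 _ :=
      Iso.hom_inv_id_app _ _
    rw [h1, Category.comp_id, sub_self]
  · refine ⟨0, ?_⟩
    rw [comp_zero]
    symm
    refine tw_c0 hX hΔ _ ?_
    by_cases h0 : 1 + m = 0
    · obtain rfl : m = -1 := by lia
      let ψ := (shiftFunctorCompIsoId T (1 : ℤ) (-1) (by simp))
      obtain ⟨c, hc⟩ := hS.hom ((f ≫ q⟦(-1 : ℤ)⟧') ≫ ψ.hom.app S)
      have h1 : (f ≫ q⟦(-1 : ℤ)⟧') ≫ b⟦(1 : ℤ)⟧'⟦(-1 : ℤ)⟧' = 0 := by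
        rw [Category.assoc, ← Functor.map_comp]
        have : q ≫ b⟦(1 : ℤ)⟧' = 0 := comp_distTriang_mor_zero₃₁ _ hΔ
        rw [this, Functor.map_zero, comp_zero]
      have h2 : b⟦(1 : ℤ)⟧'⟦(-1 : ℤ)⟧' ≫ ψ.hom.app X = ψ.hom.app S ≫ b := ψ.hom.naturality b
      have h3 : c • b = 0 := by
        have : ((f ≫ q⟦(-1 : ℤ)⟧') ≫ ψ.hom.app S) ≫ b = 0 := by
          rw [Category.assoc, ← h2, ← Category.assoc, h1, zero_comp]
        rwa [hc, Linear.smul_comp, Category.id_comp] at this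
      have hc0 : c = 0 := (smul_eq_zero.mp h3).resolve_right hX.ne
      rw [← cancel_mono (ψ.hom.app S), hc, hc0, zero_smul, zero_comp]
    · rw [← cancel_mono ι, zero_comp]
      exact hS.van _ h0 hd _

variable {F' : T} {p' : X' ⟶ F'} {q' : F' ⟶ S⟦(1 : ℤ)⟧} (hΔ' : Triangle.mk b' p' q' ∈ distTriang T)

include hX hΔ hX' hΔ' in
/-- a map `F' ⟶ F⟦n⟧` killed by `p'` is zero -/
theorem tw_p (hS : Sph k S d) (hv : ∀ f : X' ⟶ X⟦d⟧, f = 0) {n : ℤ} (f : F' ⟶ F⟦n⟧)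
    (hf : p' ≫ f = 0) : f = 0 := by
  obtain ⟨f', hf'⟩ := Triangle.yoneda_exact₃ _ hΔ' f hf
  change S⟦(1 : ℤ)⟧ ⟶ F⟦n⟧ at f'
  change f = q' ≫ f' at hf'
  let κ := (shiftFunctorAdd' T (n - 1) 1 n (by lia)).app F
  obtain ⟨f'', hf''⟩ := (shiftFunctor T (1 : ℤ)).map_surjective (f' ≫ κ.hom)
  obtain ⟨g, hg⟩ := tw_surj hX hΔ hX' hS hv f''
  have h0 : q' ≫ b'⟦(1 : ℤ)⟧' = 0 := comp_distTriang_mor_zero₃₁ _ hΔ'
  rw [← cancel_mono κ.hom, zero_comp, hf', Category.assoc, ← hf'', ← hg, Functor.map_comp,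
    reassoc_of% h0, zero_comp]

include hX hΔ hX' hΔ' in
/-- semiorthogonality is preserved -/
theorem tw_orth (hS : Sph k S d) (hv : HZ X' X) : HZ F' F := by
  intro n f
  refine tw_p hX hΔ hX' hΔ' hS (hv d) f ?_
  have h0 : b' ≫ p' = 0 := comp_distTriang_mor_zero₁₂ _ hΔ'
  obtain ⟨e, he⟩ := tw_inj hX hΔ hX' (p' ≫ f) (by rw [reassoc_of% h0, zero_comp])
  rw [← he, hv n e, zero_comp]

end

section

variable {S : T} {d : ℤ} {X : T} {b : S ⟶ X} {a : X ⟶ S⟦d⟧} (hX : Tw k S d b a)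
  {F : T} {p : X ⟶ F} {q : F ⟶ S⟦(1 : ℤ)⟧} (hΔ : Triangle.mk b p q ∈ distTriang T)

include hX hΔ in
/-- the twisted object is exceptional -/
theorem tw_exc (hS : Sph k S d) (hd : d ≠ 0) (hE : ExcObj k X) : ExcObj k F := by
  have h0 : b ≫ p = 0 := comp_distTriang_mor_zero₁₂ _ hΔ
  have hv : ∀ f : X ⟶ X⟦d⟧, f = 0 := hE.van d hd
  refine ⟨?_, ?_, ?_⟩
  · intro h
    have hp : p = 0 := by rw [← Category.comp_id p, h, comp_zero]
    obtain ⟨s, hs⟩ := Triangle.coyoneda_exact₂ _ hΔ (𝟙 X) (by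
      change 𝟙 X ≫ p = 0
      rw [hp, comp_zero])
    change X ⟶ S at s
    change 𝟙 X = s ≫ b at hs
    have hs0 : s = 0 := by
      have := hX.ha' 0 (Ne.symm hd) (s ≫ (shiftFunctorZero T ℤ).inv.app S)
      rw [← cancel_mono ((shiftFunctorZero T ℤ).inv.app S)]
      erw [this, zero_comp]
    exact hE.ne (by rw [hs, hs0, zero_comp])
  · intro f
    let z := (shiftFunctorZero T ℤ).inv.app F
    obtain ⟨e, he⟩ := tw_inj hX hΔ hX (n := 0) (p ≫ f ≫ z) (by rw [reassoc_of% h0, zero_comp])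
    obtain ⟨c, hc⟩ := hE.hom (e ≫ (shiftFunctorZero T ℤ).hom.app X)
    have h1 : e = (c • 𝟙 X) ≫ (shiftFunctorZero T ℤ).inv.app X := by
      rw [← hc]; simp
    have h2 : (shiftFunctorZero T ℤ).inv.app X ≫ p⟦(0:ℤ)⟧' =
        p ≫ (shiftFunctorZero T ℤ).inv.app F :=
      ((shiftFunctorZero T ℤ).inv.naturality p).symm
    refine ⟨c, ?_⟩
    have h3 : (f - c • 𝟙 F) ≫ z = 0 := by
      refine tw_p hX hΔ hX hΔ hS hv (n := 0) _ ?_
      rw [Preadditive.sub_comp, Preadditive.comp_sub, ← he, h1, Category.assoc, h2,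
        Linear.smul_comp, Linear.smul_comp, Linear.comp_smul]
      simp [z]
    rw [← sub_eq_zero, ← cancel_mono z, zero_comp]
    exact h3
  · intro n hn f
    refine tw_p hX hΔ hX hΔ hS hv f ?_
    obtain ⟨e, he⟩ := tw_inj hX hΔ hX (p ≫ f) (by rw [reassoc_of% h0, zero_comp])
    rw [← he, hE.van n hn e, zero_comp]

end

/-! ### exceptional sequences and the twisted sequence -/

variable (k) in
/-- exceptional sequences, indexed by any linear order -/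
structure ExcSeq {ι : Type*} [LinearOrder ι] (E : ι → T) : Prop where
  exc : ∀ i, ExcObj k (E i)
  orth : ∀ i j, i < j → HZ (E j) (E i)

/-- the terms generate the category -/
def Compl {ι : Type*} (E : ι → T) : Prop := ∀ X : T, InThick (Set.range E) X

/-- the twisted sequence is exceptional -/
theorem ExcSeq.twist {ι : Type*} [LinearOrder ι] {E : ι → T} (hE : ExcSeq k E)
    {I : Set ι} (hI : I.OrdConnected) {S : T} {d : ℤ} (hS : Sph k S d) (hd : d ≠ 0)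
    (hSI : InThick (E '' I) S) (b : ∀ i, S ⟶ E i) (a : ∀ i, E i ⟶ S⟦d⟧)
    (hT : ∀ i ∈ I, Tw k S d (b i) (a i)) {F : ι → T}
    (hF : ∀ i ∈ I, ∃ (p : E i ⟶ F i) (q : F i ⟶ S⟦(1 : ℤ)⟧), Triangle.mk (b i) p q ∈ distTriang T)
    (hF' : ∀ i ∉ I, F i = E i) : ExcSeq k F := by
  have hFI : ∀ i ∈ I, InThick (E '' I) (F i) := by
    intro i hi
    obtain ⟨p, q, h⟩ := hF i hi
    exact (inThick_thk _).cone _ h hSI (inThick_of_mem ⟨i, hi, rfl⟩)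
  refine ⟨?_, ?_⟩
  · intro i
    by_cases hi : i ∈ I
    · obtain ⟨p, q, h⟩ := hF i hi
      exact tw_exc (hT i hi) h hS hd (hE.exc i)
    · rw [hF' i hi]
      exact hE.exc i
  · intro i j hij
    by_cases hi : i ∈ I
    · by_cases hj : j ∈ I
      · obtain ⟨p, q, h⟩ := hF i hi
        obtain ⟨p', q', h'⟩ := hF j hj
        exact tw_orth (hT i hi) h (hT j hj) h' hS (hE.orth i j hij)
      · rw [hF' j hj]
        refine HZ.of_inThick_right ?_ (hFI i hi)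
        rintro _ ⟨i', hi', rfl⟩
        refine hE.orth i' j ?_
        by_contra hlt
        exact hj (hI.out hi hi' ⟨hij.le, not_lt.mp hlt⟩)
    · rw [hF' i hi]
      by_cases hj : j ∈ I
      · refine HZ.of_inThick_left ?_ (hFI j hj)
        rintro _ ⟨i', hi', rfl⟩
        refine hE.orth i i' ?_
        by_contra hlt
        exact hi (hI.out hi' hj ⟨not_lt.mp hlt, hij.le⟩)
      · rw [hF' j hj]
        exact hE.orth i j hij

/-- completeness of the twisted sequence, once `S` is generated by the twisted terms -/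
theorem Compl.twist {ι : Type*} {E : ι → T} (hE : Compl E) {I : Set ι} {S : T}
    (b : ∀ i, S ⟶ E i) {F : ι → T}
    (hF : ∀ i ∈ I, ∃ (p : E i ⟶ F i) (q : F i ⟶ S⟦(1 : ℤ)⟧), Triangle.mk (b i) p q ∈ distTriang T)
    (hF' : ∀ i ∉ I, F i = E i) (hSF : InThick (F '' I) S) : Compl F := by
  have hS : InThick (Set.range F) S := fun P hP h =>
    hSF P hP (fun Y hY => h Y (Set.image_subset_range _ _ hY))
  intro X
  refine fun P hP h => hE X P hP ?_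
  rintro _ ⟨i, rfl⟩
  by_cases hi : i ∈ I
  · obtain ⟨p, q, h'⟩ := hF i hi
    exact hP.cone₂ _ h' (hS P hP h) (h _ ⟨i, rfl⟩)
  · rw [← hF' i hi]
    exact h _ ⟨i, rfl⟩

end Pool.Agent.Lens
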