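import Pool.Agent.Lens.TwistDatum
import Pool.Agent.Lens.TwistA
import Pool.Agent.Lens.A2

/-!
# Block A3: the twisted sequence is exceptional
-/

open CategoryTheory CategoryTheory.Limits CategoryTheory.Pretriangulated
open Pool.Agent.Lens

namespace Lens

universe w v u

section thk

variable {T : Type u} [Category.{v} T] [Preadditive T]
  [HasZeroObject T] [HasShift T ℤ] [∀ n : ℤ, (shiftFunctor T n).Additive] [Pretriangulated T]

/-- thick classes are triangulated object properties -/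
theorem thk_isTriangulated {P : T → Prop} (hP : Thk P) :
    ObjectProperty.IsTriangulated (C := T) P := by
  have h0 : ObjectProperty.IsClosedUnderIsomorphisms (C := T) P := ⟨fun e h => hP.iso e h⟩
  have h1 : ObjectProperty.ContainsZero (C := T) P :=
    ⟨HasZeroObject.zero' (C := T).1, isZero_zero T, hP.zero _ (isZero_zero T)⟩
  have h2 : ObjectProperty.IsStableUnderShift (C := T) P ℤ :=
    ⟨fun n => ⟨fun X h => hP.shift X n h⟩⟩
  have h3 : ObjectProperty.IsTriangulatedClosed₂ (C := T) P :=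
    ObjectProperty.IsTriangulatedClosed₂.mk' (fun Δ hΔ h₁ h₃ => hP.cone₂ Δ hΔ h₁ h₃)
  exact { }

theorem thk_isStableUnderRetracts {P : T → Prop} (hP : Thk P) :
    ObjectProperty.IsStableUnderRetracts (C := T) P :=
  ⟨fun r h => hP.retract r.i r.r r.retract h⟩

theorem thk_of_isTriangulated (P : ObjectProperty T) (h : P.IsTriangulated)
    (h' : P.IsStableUnderRetracts) : Thk P where
  zero _ hX := P.prop_of_iso hX.isoZero.symm P.prop_zero
  iso e hX := P.prop_of_iso e hX
  shift X n hX := P.le_shift n X hX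
  cone Δ hΔ h₁ h₂ := P.ext_of_isTriangulatedClosed₃ Δ hΔ h₁ h₂
  retract i r hir hY := P.prop_of_retract ⟨i, r, hir⟩ hY

end thk

section shift

variable {k : Type w} [Field k] {T : Type u} [Category.{v} T] [Preadditive T] [Linear k T]
  [HasZeroObject T] [HasShift T ℤ] [∀ n : ℤ, (shiftFunctor T n).Additive]
  [∀ n : ℤ, (shiftFunctor T n).Linear k] [Pretriangulated T]

/-- shifts of exceptional objects -/
theorem excObj_shift {X : T} (h : ExcObj k X) (m : ℤ) : ExcObj k (X⟦m⟧) where
  ne h0 := h.ne ((shiftFunctor T m).map_injective (by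
    rw [CategoryTheory.Functor.map_id, Functor.map_zero]; exact h0))
  hom f := by
    obtain ⟨g, rfl⟩ := (shiftFunctor T m).map_surjective f
    obtain ⟨c, rfl⟩ := h.hom g
    exact ⟨c, by rw [Functor.map_smul, CategoryTheory.Functor.map_id]⟩
  van n hn f := by
    let e := shiftComm X m n
    obtain ⟨g, hg⟩ := (shiftFunctor T m).map_surjective (f ≫ e.hom)
    rw [← cancel_mono e.hom, ← hg, h.van n hn g]
    simp

theorem excObj_iso {X Y : T} (e : X ≅ Y) (h : ExcObj k X) : ExcObj k Y where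
  ne h0 := h.ne (by rw [← e.hom_inv_id, ← Category.comp_id e.hom, h0]; simp)
  hom f := by
    obtain ⟨c, hc⟩ := h.hom (e.hom ≫ f ≫ e.inv)
    refine ⟨c, ?_⟩
    rw [← cancel_epi e.hom, ← cancel_mono e.inv, Category.assoc, hc]
    simp
  van n hn f := by
    have := h.van n hn (e.hom ≫ f ≫ e.inv⟦n⟧')
    rw [← cancel_epi e.hom, ← cancel_mono (e.inv⟦n⟧'), Category.assoc, this]
    simp

theorem excObj_unshift {X : T} {m : ℤ} (h : ExcObj k (X⟦m⟧)) : ExcObj k X :=
  excObj_iso (shiftShiftNeg X m) (excObj_shift h (-m))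

theorem isExceptional_iff {X : T} : IsExceptional k X ↔ ExcObj k X :=
  ⟨fun h => ⟨h.id_ne, h.end_eq, h.shift_zero⟩, fun h => ⟨h.hom, h.ne, h.van⟩⟩

theorem hz_unshift {X Y : T} {m m' : ℤ} (h : HZ (X⟦m⟧) (Y⟦m'⟧)) : HZ X Y :=
  (HZ.thk_right X).unshift _ m' ((HZ.thk_left _).unshift _ m h)

end shift

section

variable {k : Type w} [Field k] {T : Type u} [Category.{v} T] [Preadditive T] [Linear k T]
  [HasZeroObject T] [HasShift T ℤ] [∀ n : ℤ, (shiftFunctor T n).Additive]
  [∀ n : ℤ, (shiftFunctor T n).Linear k] [Pretriangulated T] [IsTriangulated T]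
  {n : ℕ} {E : Fin n → T} (D : TwistDatum k E)

theorem TwistDatum.mem' {P : T → Prop} (hP : Thk P) (h : ∀ i, D.I i → P (E i)) : P D.C :=
  D.mem P (thk_isTriangulated hP) (thk_isStableUnderRetracts hP) h

/-- `C` is spherical -/
theorem TwistDatum.sph (hE : IsExceptionalSeq k E) : Sph k D.C 3 where
  hom := D.end_C
  top f g hg := by
    have h0 : D.tr g ≠ 0 := fun h => hg (D.tr_inj hE g h)
    refine ⟨D.tr f / D.tr g, ?_⟩
    rw [← sub_eq_zero]
    refine D.tr_inj hE _ ?_
    rw [map_sub, map_smul, smul_eq_mul, div_mul_cancel₀ _ h0, sub_self]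
  van m h0 h3 f := D.hom_zero hE m h0 h3 f

/-- the normalised data at a term of the interval -/
theorem TwistDatum.tw (i : Fin n) (hi : D.I i) :
    Tw k D.C 3 (X := (E i)⟦(3 : ℤ)⟧) (D.b i) ((D.a i)⟦(3 : ℤ)⟧') where
  hb := D.hb i hi
  hb' m hm f := by
    have := D.hb' i hi (3 + m) (by lia) (f ≫ (shiftFunctorAdd' T 3 m (3 + m) rfl).inv.app (E i))
    rw [← cancel_mono ((shiftFunctorAdd' T 3 m (3 + m) rfl).inv.app (E i)), this, zero_comp]
  ha f := by
    obtain ⟨g, rfl⟩ := (shiftFunctor T (3 : ℤ)).map_surjective f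
    obtain ⟨c, rfl⟩ := D.ha i hi g
    exact ⟨c, by rw [Functor.map_smul]⟩
  ha' m hm f := by
    let e := (shiftFunctorAdd' T (m - 3) 3 m (by lia)).app D.C
    obtain ⟨g, hg⟩ := (shiftFunctor T (3 : ℤ)).map_surjective (f ≫ e.hom)
    rw [← cancel_mono e.hom, ← hg, D.ha' i hi _ (by lia) g]
    simp
  ab h := D.hab i hi (by rw [h, map_zero])

/-- the rotated triangle -/
theorem TwistDatum.IsTwist.tri' {E' : Fin n → T} (h : D.IsTwist E') (i : Fin n) (hi : D.I i) :
    ∃ (p : (E i)⟦(3 : ℤ)⟧ ⟶ (E' i)⟦(1 : ℤ)⟧) (q : (E' i)⟦(1 : ℤ)⟧ ⟶ D.C⟦(1 : ℤ)⟧),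
      Triangle.mk (D.b i) p q ∈ distTriang T := by
  obtain ⟨u, w, h⟩ := h.tri i hi
  exact ⟨w, -u⟦(1 : ℤ)⟧', rot_of_distTriang _ h⟩

/-- BLOCK A3. -/
theorem TwistDatum.twist_exceptional (hE : IsExceptionalSeq k E) (E' : Fin n → T)
    (h : D.IsTwist E') : IsExceptionalSeq k E' := by
  have hS := D.sph hE
  have hmem : ∀ {P : T → Prop}, Thk P → (∀ i, D.I i → P (E i)) → ∀ j, D.I j → P (E' j) := by
    intro P hP hI j hj
    obtain ⟨u, w, h⟩ := h.tri j hj
    exact hP.cone₁ _ h (D.mem' hP hI) (hP.shift _ _ (hI j hj))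
  refine ⟨?_, ?_⟩
  · intro i
    by_cases hi : D.I i
    · obtain ⟨p, q, h'⟩ := h.tri' D i hi
      have := tw_exc (D.tw i hi) h' hS (by norm_num) (excObj_shift
        (isExceptional_iff.mp (hE.exc i)) 3)
      exact isExceptional_iff.mpr (excObj_unshift this)
    · rw [h.out i hi]
      exact hE.exc i
  · intro i j hij
    change HZ (E' j) (E' i)
    have hor : ∀ i j, i < j → HZ (E j) (E i) := hE.semi
    by_cases hi : D.I i
    · by_cases hj : D.I j
      · obtain ⟨p, q, h'⟩ := h.tri' D i hi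
        obtain ⟨p', q', h''⟩ := h.tri' D j hj
        exact hz_unshift (tw_orth (D.tw i hi) h' (D.tw j hj) h'' hS
          (((hor i j hij).shift_left 3).shift_right 3))
      · rw [h.out j hj]
        refine hmem (HZ.thk_right (E j)) ?_ i hi
        intro i' hi'
        refine hor i' j ?_
        rcases D.int j hj with h1 | h1
        · exact absurd (h1 i hi) (not_lt.mpr hij.le)
        · exact h1 i' hi'
    · rw [h.out i hi]
      by_cases hj : D.I j
      · refine hmem (HZ.thk_left (E i)) ?_ j hj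
        intro i' hi'
        refine hor i i' ?_
        rcases D.int i hi with h1 | h1
        · exact h1 i' hi'
        · exact absurd (h1 j hj) (not_lt.mpr hij.le)
      · rw [h.out j hj]
        exact hor i j hij

end

end Lens
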