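import Pool.Agent.Lens.TwistA

open CategoryTheory CategoryTheory.Limits CategoryTheory.Pretriangulated

namespace Pool.Agent.LensD

open Pool.Agent.Lens

universe w v u

variable {T : Type u} [Category.{v} T] [HasZeroObject T] [HasShift T ℤ] [Preadditive T]
  [∀ n : ℤ, (shiftFunctor T n).Additive] [Pretriangulated T]

theorem thk_isoClosed {P : ObjectProperty T} (hP : Thk P) : P.IsClosedUnderIsomorphisms :=
  ⟨fun e h => hP.iso e h⟩

theorem thk_retracts {P : ObjectProperty T} (hP : Thk P) : P.IsStableUnderRetracts :=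
  ⟨fun r h => hP.retract r.i r.r r.retract h⟩

theorem thk_triangulated {P : ObjectProperty T} (hP : Thk P) : P.IsTriangulated := by
  have := thk_isoClosed hP
  have h1 : P.ContainsZero := ⟨⟨_, isZero_zero T, hP.zero _ (isZero_zero T)⟩⟩
  have h2 : P.IsStableUnderShift ℤ :=
    ⟨fun n => ⟨fun X hX => hP.shift X n hX⟩⟩
  have h3 : P.IsTriangulatedClosed₂ :=
    ObjectProperty.IsTriangulatedClosed₂.mk' (fun Δ hΔ h₁ h₃ => hP.cone₂ Δ hΔ h₁ h₃)
  exact { }

theorem thk_biproduct {P : T → Prop} (hP : Thk P) {ι : Type} [Fintype ι] (f : ι → T)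
    (h : ∀ i, P (f i)) : P (⨁ f) := by
  let Q : ObjectProperty T := P
  have h1 : Q.IsTriangulated := thk_triangulated hP
  have h2 : Q.IsClosedUnderIsomorphisms := thk_isoClosed hP
  exact Q.prop_of_isLimit_fan (biproduct.isLimit f) h

/-- every thick object property in Mathlib's sense is a `Thk` -/
theorem thk_of_objectProperty (P : ObjectProperty T) (h1 : P.IsTriangulated)
    (h2 : P.IsStableUnderRetracts) : Thk P where
  zero X h := by
    obtain ⟨Z, hZ, hPZ⟩ := h1.toContainsZero.exists_zero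
    exact P.prop_of_iso (hZ.iso h) hPZ
  iso e h := P.prop_of_iso e h
  shift X n h := P.le_shift n _ h
  cone Δ hΔ h₁ h₂ := P.ext_of_isTriangulatedClosed₃ Δ hΔ h₁ h₂
  retract i r h hY := h2.of_retract ⟨i, r, h⟩ hY

section linear

variable {k : Type w} [Field k] [Linear k T]

theorem ExcObj_zero_or_isIso {F : T} (hF : ExcObj k F) (a b : ℤ) (f : F⟦a⟧ ⟶ F⟦b⟧) :
    f = 0 ∨ IsIso f := by
  by_cases hab : a = b
  · subst hab
    obtain ⟨g, rfl⟩ := (shiftFunctor T a).map_surjective f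
    obtain ⟨c, rfl⟩ := hF.hom g
    by_cases hc : c = 0
    · left; subst hc; rw [zero_smul, Functor.map_zero]
    · right
      have : IsIso (c • 𝟙 F) :=
        ⟨c⁻¹ • 𝟙 F, by simp [smul_smul, hc], by simp [smul_smul, hc]⟩
      infer_instance
  · left
    have e : b = (b - a) + a := by ring
    obtain ⟨g, hg⟩ := (shiftFunctor T a).map_surjective
      (f ≫ (shiftFunctorAdd' T (b - a) a b e.symm).hom.app F)
    have h0 := hF.van (b - a) (by omega) g
    rw [← cancel_mono ((shiftFunctorAdd' T (b - a) a b e.symm).hom.app F), zero_comp, ← hg, h0,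
      Functor.map_zero]

theorem ExcObj_zero_or_isIso' {F : T} (hF : ExcObj k F) (a b : ℤ) (f : F⟦a⟧ ⟶ F⟦b⟧⟦(1 : ℤ)⟧) :
    f = 0 ∨ IsIso f := by
  rcases ExcObj_zero_or_isIso hF a (b + 1) (f ≫ (shiftFunctorAdd T b 1).inv.app F) with h | h
  · left
    rw [← cancel_mono ((shiftFunctorAdd T b 1).inv.app F), h, zero_comp]
  · right
    exact IsIso.of_isIso_comp_right f ((shiftFunctorAdd T b 1).inv.app F)

/-- the left linear map given by composition on the left -/
def preL {X Y : T} (j : X ⟶ Y) (Z : T) : (Y ⟶ Z) →ₗ[k] (X ⟶ Z) where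
  toFun f := j ≫ f
  map_add' := by simp
  map_smul' := by simp

def postL {Y Z : T} (j : Y ⟶ Z) (X : T) : (X ⟶ Y) →ₗ[k] (X ⟶ Z) where
  toFun f := f ≫ j
  map_add' := by simp
  map_smul' := by simp

theorem peel_one {F : T} (hF : ExcObj k F) (L : List ℤ) : ∀ (Y : T)
    (M : List (Σ n : ℤ, (Y ⟶ F⟦n⟧))) (_ : M.length = L.length)
    (_ : ∀ (n : ℤ) (f : Y ⟶ F⟦n⟧),
      f ∈ Submodule.span k {g | (⟨n, g⟩ : Σ n : ℤ, (Y ⟶ F⟦n⟧)) ∈ M}),
    ∃ X : T, HZ X F ∧ (∀ P : T → Prop, Thk P → P F → (P X ↔ P Y)) ∧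
      (∀ G, HZ F G → HZ Y G → HZ X G) := by
  induction L with
  | nil =>
    intro Y M hM hspan
    have hM' : M = [] := List.length_eq_zero_iff.mp hM
    subst hM'
    refine ⟨Y, ?_, fun _ _ _ => Iff.rfl, fun _ _ h => h⟩
    intro n f
    simpa using hspan n f
  | cons _ L ih =>
    intro Y M hM hspan
    match M, hM with
    | ⟨n0, v⟩ :: M', hM =>
    have hM' : M'.length = L.length := by simpa using hM
    by_cases hv : v = 0
    · refine ih Y M' hM' ?_
      intro n f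
      refine Submodule.span_le.mpr ?_ (hspan n f)
      intro g hg
      rcases List.mem_cons.mp hg with h | h
      · obtain ⟨rfl, h2⟩ := Sigma.mk.inj_iff.mp h
        have : g = v := eq_of_heq h2
        rw [this, hv]
        exact Submodule.zero_mem _
      · exact Submodule.subset_span h
    · obtain ⟨X, j, δ, hT⟩ := distinguished_cocone_triangle₁ v
      have hjv : j ≫ v = 0 := comp_distTriang_mor_zero₁₂ _ hT
      have hvδ : v ≫ δ = 0 := comp_distTriang_mor_zero₂₃ _ hT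
      have hsurj : ∀ (n : ℤ) (f' : X ⟶ F⟦n⟧), ∃ f : Y ⟶ F⟦n⟧, j ≫ f = f' := by
        intro n f'
        refine con₁ (Triangle.mk j v δ) hT f' ?_
        change δ ≫ f'⟦(1 : ℤ)⟧' = 0
        rcases ExcObj_zero_or_isIso' hF n0 n (δ ≫ f'⟦(1 : ℤ)⟧') with h | h
        · exact h
        · exfalso
          apply hv
          have h0 : v ≫ (δ ≫ f'⟦(1 : ℤ)⟧') = 0 := by
            rw [← Category.assoc, hvδ, zero_comp]
          rw [← cancel_mono (δ ≫ f'⟦(1 : ℤ)⟧'), h0, zero_comp]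
      obtain ⟨X', h1, h2, h3⟩ := ih X (M'.map (fun x => ⟨x.1, j ≫ x.2⟩)) (by simpa using hM') (by
        intro n f'
        obtain ⟨f, rfl⟩ := hsurj n f'
        have := Submodule.mem_map_of_mem (f := preL (k := k) j (F⟦n⟧)) (hspan n f)
        rw [Submodule.map_span] at this
        refine Submodule.span_le.mpr ?_ this
        rintro _ ⟨g, hg, rfl⟩
        rcases List.mem_cons.mp hg with h | h
        · obtain ⟨rfl, h2⟩ := Sigma.mk.inj_iff.mp h
          have hgv : g = v := eq_of_heq h2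
          change j ≫ g ∈ _
          rw [hgv, hjv]
          exact Submodule.zero_mem _
        · exact Submodule.subset_span (List.mem_map.mpr ⟨⟨n, g⟩, h, rfl⟩))
      refine ⟨X', h1, fun P hP hPF => (h2 P hP hPF).trans ⟨fun hX => ?_, fun hY => ?_⟩,
        fun G hFG hYG => h3 G hFG ?_⟩
      · exact hP.cone₂ (Triangle.mk j v δ) hT hX (hP.shift _ n0 hPF)
      · exact hP.cone₁ (Triangle.mk j v δ) hT hY (hP.shift _ n0 hPF)
      · exact (HZ.thk_left G).cone₁ (Triangle.mk j v δ) hT hYG (hFG.shift_left n0)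

end linear

section finhom

variable (k : Type w) [Field k] [Linear k T]

/-- finite total graded homs -/
structure FinHom (X Y : T) : Prop where
  fin : ∀ n : ℤ, Module.Finite k (X ⟶ Y⟦n⟧)
  supp : {n : ℤ | ∃ f : X ⟶ Y⟦n⟧, f ≠ 0}.Finite

variable {k}

theorem finite_of_exact {M N P : Type*} [AddCommGroup M] [Module k M] [AddCommGroup N] [Module k N]
    [AddCommGroup P] [Module k P] [Module.Finite k M] [Module.Finite k P]
    (f : M →ₗ[k] N) (g : N →ₗ[k] P) (h : ∀ x, g x = 0 → ∃ y, f y = x) : Module.Finite k N := by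
  have h1 : Module.Finite k (LinearMap.range f) := inferInstance
  have hle : LinearMap.ker g ≤ LinearMap.range f := fun x hx => by
    obtain ⟨y, hy⟩ := h x hx
    exact ⟨y, hy⟩
  have h2 : Module.Finite k (LinearMap.ker g) := Submodule.finiteDimensional_of_le hle
  have h3 : Module.Finite k (N ⧸ LinearMap.ker g) :=
    Module.Finite.equiv g.quotKerEquivRange.symm
  exact Module.Finite.of_submodule_quotient (LinearMap.ker g)

theorem FinHom.of_isZero_left {X Y : T} (h : IsZero X) : FinHom k X Y where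
  fin n := by
    have : Subsingleton (X ⟶ Y⟦n⟧) := ⟨fun f g => h.eq_of_src f g⟩
    infer_instance
  supp := by
    convert Set.finite_empty (α := ℤ)
    ext n
    simp only [Set.mem_ofPred_eq, Set.mem_empty_iff_false, iff_false, not_exists, not_not]
    exact fun f => h.eq_of_src f 0

theorem FinHom.of_isZero_right {X Y : T} (h : IsZero Y) : FinHom k X Y where
  fin n := by
    have : Subsingleton (X ⟶ Y⟦n⟧) :=
      ⟨fun f g => ((shiftFunctor T n).map_isZero h).eq_of_tgt f g⟩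
    infer_instance
  supp := by
    convert Set.finite_empty (α := ℤ)
    ext n
    simp only [Set.mem_ofPred_eq, Set.mem_empty_iff_false, iff_false, not_exists, not_not]
    exact fun f => ((shiftFunctor T n).map_isZero h).eq_of_tgt f 0

/-- transfer of finiteness along surjections -/
theorem FinHom.of_surj {X Y X' Y' : T} (h : FinHom k X Y) (a : ℤ)
    (φ : ∀ n : ℤ, (X ⟶ Y⟦n⟧) →ₗ[k] (X' ⟶ Y'⟦n + a⟧))
    (hφ : ∀ n, Function.Surjective (φ n)) : FinHom k X' Y' where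
  fin n := by
    have := h.fin (n - a)
    have e : n - a + a = n := by ring
    have := Module.Finite.of_surjective (φ (n - a)) (hφ (n - a))
    rwa [e] at this
  supp := by
    refine (h.supp.image (fun n => n + a)).subset ?_
    rintro n ⟨f, hf⟩
    have e : n - a + a = n := by ring
    refine ⟨n - a, ?_, e⟩
    by_contra hc
    apply hf
    obtain ⟨m, rfl⟩ : ∃ m, n = m + a := ⟨n - a, e.symm⟩
    obtain ⟨g, rfl⟩ := hφ m f
    have hg : g = 0 := by
      by_contra h0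
      refine hc ?_
      have e2 : m + a - a = m := by ring
      rw [e2]
      exact ⟨g, h0⟩
    rw [hg, map_zero]

theorem FinHom.of_surj0 {X Y X' Y' : T} (h : FinHom k X Y)
    (φ : ∀ n : ℤ, (X ⟶ Y⟦n⟧) →ₗ[k] (X' ⟶ Y'⟦n⟧))
    (hφ : ∀ n, Function.Surjective (φ n)) : FinHom k X' Y' where
  fin n := by
    have := h.fin n
    exact Module.Finite.of_surjective (φ n) (hφ n)
  supp := by
    refine h.supp.subset ?_
    rintro n ⟨f, hf⟩
    obtain ⟨g, rfl⟩ := hφ n f
    exact ⟨g, fun h0 => hf (by rw [h0, map_zero])⟩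

/-- transfer through exact sequences -/
theorem FinHom.of_exact {X Y X' Y' X'' Y'' : T} (h : FinHom k X Y) (h'' : FinHom k X'' Y'')
    (φ : ∀ n : ℤ, (X ⟶ Y⟦n⟧) →ₗ[k] (X' ⟶ Y'⟦n⟧))
    (ψ : ∀ n : ℤ, (X' ⟶ Y'⟦n⟧) →ₗ[k] (X'' ⟶ Y''⟦n⟧))
    (hex : ∀ n x, ψ n x = 0 → ∃ y, φ n y = x) : FinHom k X' Y' where
  fin n := by
    have := h.fin n
    have := h''.fin n
    exact finite_of_exact (φ n) (ψ n) (hex n)
  supp := by
    refine (h.supp.union h''.supp).subset ?_
    rintro n ⟨f, hf⟩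
    by_cases hψ : ψ n f = 0
    · left
      obtain ⟨y, rfl⟩ := hex n f hψ
      exact ⟨y, fun h0 => hf (by rw [h0, map_zero])⟩
    · right
      exact ⟨ψ n f, hψ⟩

variable [∀ n : ℤ, Functor.Linear k (shiftFunctor T n)]

theorem FinHom.shift_left {X Y : T} (h : FinHom k X Y) (a : ℤ) : FinHom k (X⟦a⟧) Y := by
  refine h.of_surj a (fun n => (postL ((shiftFunctorAdd T n a).inv.app Y) (X⟦a⟧)).comp
    ((shiftFunctor T a).mapLinearMap k)) ?_
  intro n f
  obtain ⟨g, hg⟩ := (shiftFunctor T a).map_surjective (f ≫ (shiftFunctorAdd T n a).hom.app Y)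
  refine ⟨g, ?_⟩
  change (shiftFunctor T a).map g ≫ (shiftFunctorAdd T n a).inv.app Y = f
  rw [hg, Category.assoc, Iso.hom_inv_id_app]
  exact Category.comp_id f

theorem FinHom.shift_right {X Y : T} (h : FinHom k X Y) (a : ℤ) : FinHom k X (Y⟦a⟧) := by
  refine h.of_surj (-a) (fun n => postL ((shiftFunctorAdd' T a (n + -a) n (by ring)).hom.app Y) X) ?_
  intro n f
  refine ⟨f ≫ (shiftFunctorAdd' T a (n + -a) n (by ring)).inv.app Y, ?_⟩
  change (f ≫ (shiftFunctorAdd' T a (n + -a) n (by ring)).inv.app Y) ≫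
    (shiftFunctorAdd' T a (n + -a) n (by ring)).hom.app Y = f
  rw [Category.assoc, Iso.inv_hom_id_app]
  exact Category.comp_id f

theorem thk_FinHom_left (Y : T) : Thk (fun X : T => FinHom k X Y) where
  zero X h := FinHom.of_isZero_left h
  iso e h := h.of_surj0 (fun n => preL e.inv _) (fun n f => ⟨e.hom ≫ f, by simp [preL]⟩)
  shift X n h := h.shift_left n
  cone Δ hΔ h₁ h₂ := (h₁.shift_left 1).of_exact h₂ (fun n => preL Δ.mor₃ _)
    (fun n => preL Δ.mor₂ _) (fun n f hf => by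
      obtain ⟨g, hg⟩ := Triangle.yoneda_exact₃ Δ hΔ f hf
      exact ⟨g, hg.symm⟩)
  retract i r h hY := hY.of_surj0 (fun n => preL i _) (fun n f => ⟨r ≫ f, by
    change i ≫ r ≫ f = f
    rw [← Category.assoc, h, Category.id_comp]⟩)

theorem thk_FinHom_right (X : T) : Thk (fun Y : T => FinHom k X Y) where
  zero X h := FinHom.of_isZero_right h
  iso e h := h.of_surj0 (fun n => postL (e.hom⟦n⟧') _) (fun n f => ⟨f ≫ e.inv⟦n⟧', by
    change (f ≫ e.inv⟦n⟧') ≫ e.hom⟦n⟧' = f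
    rw [Category.assoc, ← Functor.map_comp, e.inv_hom_id, CategoryTheory.Functor.map_id,
      Category.comp_id]⟩)
  shift X n h := h.shift_right n
  cone Δ hΔ h₁ h₂ := h₂.of_exact (h₁.shift_right 1) (fun n => postL (Δ.mor₂⟦n⟧') _)
    (fun n => postL (Δ.mor₃⟦n⟧') _) (fun n f hf => cov₃ Δ hΔ f hf)
  retract i r h hY := hY.of_surj0 (fun n => postL (r⟦n⟧') _) (fun n f => ⟨f ≫ i⟦n⟧', by
    change (f ≫ i⟦n⟧') ≫ r⟦n⟧' = f
    rw [Category.assoc, ← Functor.map_comp, h, CategoryTheory.Functor.map_id,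
      Category.comp_id]⟩)

/-- finiteness on thick closures -/
theorem finHom_thick {s t : Set T} (h : ∀ X ∈ s, ∀ Y ∈ t, FinHom k X Y) {X Y : T}
    (hX : InThick s X) (hY : InThick t Y) : FinHom k X Y :=
  hX (fun X => FinHom k X Y) (thk_FinHom_left Y) (fun X' hX' =>
    hY (fun Y => FinHom k X' Y) (thk_FinHom_right X') (h X' hX'))

omit [∀ n : ℤ, Functor.Linear k (shiftFunctor T n)] in
/-- a finite spanning list -/
theorem FinHom.exists_list {X Y : T} (h : FinHom k X Y) :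
    ∃ M : List (Σ n : ℤ, (X ⟶ Y⟦n⟧)), ∀ (n : ℤ) (f : X ⟶ Y⟦n⟧),
      f ∈ Submodule.span k {g | (⟨n, g⟩ : Σ n : ℤ, (X ⟶ Y⟦n⟧)) ∈ M} := by
  classical
  have hfg : ∀ n : ℤ, ∃ S : Finset (X ⟶ Y⟦n⟧), Submodule.span k (S : Set (X ⟶ Y⟦n⟧)) = ⊤ :=
    fun n => (h.fin n).fg_top
  choose S hS using hfg
  refine ⟨h.supp.toFinset.toList.flatMap (fun n => (S n).toList.map (fun g => ⟨n, g⟩)), ?_⟩
  intro n f
  by_cases hf : f = 0
  · rw [hf]; exact Submodule.zero_mem _
  · have hn : n ∈ h.supp.toFinset := by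
      rw [Set.Finite.mem_toFinset]
      exact ⟨f, hf⟩
    have hmem : f ∈ Submodule.span k (S n : Set (X ⟶ Y⟦n⟧)) := by rw [hS]; trivial
    refine Submodule.span_mono ?_ hmem
    intro g hg
    refine List.mem_flatMap.mpr ⟨n, Finset.mem_toList.mpr hn, List.mem_map.mpr ⟨g, ?_, rfl⟩⟩
    exact Finset.mem_toList.mpr hg

/-- peeling off a list of exceptional objects on the left -/
theorem peel (P : T → Prop) (hP : Thk P) (L : List T) (hexc : ∀ F ∈ L, ExcObj k F)
    (hpair : L.Pairwise (fun F G => HZ G F)) (hPF : ∀ F ∈ L, P F)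
    (hfin : ∀ Y, P Y → ∀ F ∈ L, FinHom k Y F) : ∀ (Y : T) (_ : P Y),
    ∃ X : T, (∀ F ∈ L, HZ X F) ∧
      (∀ Q : T → Prop, Thk Q → (∀ F ∈ L, Q F) → (Q X ↔ Q Y)) ∧
      (∀ G, (∀ F ∈ L, HZ F G) → HZ Y G → HZ X G) := by
  induction L with
  | nil => exact fun Y _ => ⟨Y, by simp, fun _ _ _ => Iff.rfl, fun _ _ h => h⟩
  | cons F L ih =>
    intro Y hY
    obtain ⟨M, hM⟩ := (hfin Y hY F (by simp)).exists_list
    obtain ⟨X₁, h1, h2, h3⟩ := peel_one (hexc F (by simp)) (M.map (fun x => x.1)) Y M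
      (by simp) hM
    rw [List.pairwise_cons] at hpair
    obtain ⟨X, g1, g2, g3⟩ := ih (fun G hG => hexc G (by simp [hG])) hpair.2
      (fun G hG => hPF G (by simp [hG])) (fun Z hZ G hG => hfin Z hZ G (by simp [hG])) X₁
      ((h2 P hP (hPF F (by simp))).mpr hY)
    refine ⟨X, ?_, ?_, ?_⟩
    · intro G hG
      rcases List.mem_cons.mp hG with rfl | hG
      · exact g3 G (fun F' hF' => hpair.1 F' hF') h1
      · exact g1 G hG
    · intro Q hQ hQF
      exact (g2 Q hQ (fun G hG => hQF G (by simp [hG]))).trans (h2 Q hQ (hQF F (by simp)))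
    · intro G hG hYG
      exact g3 G (fun F' hF' => hG F' (by simp [hF'])) (h3 G (hG F (by simp)) hYG)

end finhom


section coev

variable {k : Type w} [Field k] [Linear k T]

/-- A homogeneous basis of the graded space `Hom^*(X,c)`, realised as one map
`u : X ⟶ B` into a finite sum of shifts of `c`. -/
theorem exists_coev {X c : T} (h : FinHom k X c) :
    ∃ (ι : Type) (_ : Fintype ι) (m : ι → ℤ) (B : T) (u : X ⟶ B) (inc : ∀ β, c⟦m β⟧ ⟶ B)
      (prj : ∀ β, B ⟶ c⟦m β⟧),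
      (∀ β, inc β ≫ prj β = 𝟙 _) ∧
      (∀ β γ, β ≠ γ → inc β ≫ prj γ = 0) ∧
      (∀ (W : T) (f g : B ⟶ W), (∀ β, inc β ≫ f = inc β ≫ g) → f = g) ∧
      (∀ P : T → Prop, Thk P → P c → P B) ∧
      (∀ (n : ℤ) (f : X ⟶ c⟦n⟧), ∃ A : B ⟶ c⟦n⟧, u ≫ A = f) ∧
      (∀ (n : ℤ) (E : T) (b : c ⟶ E) (g : B ⟶ E⟦n⟧),
        (∀ β, m β ≠ n → inc β ≫ g = 0) →
        (∀ β (hβ : m β = n), ∃ a : k, inc β ≫ g = eqToHom (by rw [hβ]) ≫ (a • b⟦n⟧')) →
        ∃ A : B ⟶ c⟦n⟧, g = A ≫ b⟦n⟧' ∧ (u ≫ A = 0 → A = 0)) := by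
  classical
  have hfin := h.fin
  let D := {n : ℤ // n ∈ h.supp.toFinset}
  let ι := Σ n : D, Fin (Module.finrank k (X ⟶ c⟦(n : ℤ)⟧))
  let bs : ∀ n : ℤ, Module.Basis (Fin (Module.finrank k (X ⟶ c⟦n⟧))) k (X ⟶ c⟦n⟧) :=
    fun n => Module.finBasis k (X ⟶ c⟦n⟧)
  let m : ι → ℤ := fun β => (β.1 : ℤ)
  let B : T := ⨁ (fun β : ι => c⟦m β⟧)
  have hzero : ∀ n : ℤ, n ∉ h.supp.toFinset → ∀ f : X ⟶ c⟦n⟧, f = 0 := by
    intro n hn f
    by_contra hf
    exact hn (by rw [Set.Finite.mem_toFinset]; exact ⟨f, hf⟩)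
  refine ⟨ι, inferInstance, m, B, biproduct.lift (fun β => bs (β.1 : ℤ) β.2),
    fun β => biproduct.ι (fun β : ι => c⟦m β⟧) β, fun β => biproduct.π (fun β : ι => c⟦m β⟧) β,
    fun β => biproduct.ι_π_self _ β,
    fun β γ hβγ => biproduct.ι_π_ne _ hβγ,
    fun W f g (hfg : ∀ β, biproduct.ι (fun β : ι => c⟦m β⟧) β ≫ f =
      biproduct.ι (fun β : ι => c⟦m β⟧) β ≫ g) => biproduct.hom_ext' _ _ hfg,
    ?_, ?_, ?_⟩
  · intro P hP hc
    exact thk_biproduct hP _ (fun β => hP.shift _ _ hc)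
  · intro n f
    by_cases hn : n ∈ h.supp.toFinset
    · refine ⟨∑ j, ((bs n).repr f j) • (biproduct.π (fun β : ι => c⟦m β⟧) ⟨⟨n, hn⟩, j⟩ : B ⟶ c⟦n⟧), ?_⟩
      rw [Preadditive.comp_sum]
      conv_rhs => rw [← (bs n).sum_repr f]
      refine Finset.sum_congr rfl (fun j _ => ?_)
      rw [Linear.comp_smul]
      congr 1
      exact biproduct.lift_π _ _
    · exact ⟨0, by rw [comp_zero, hzero n hn f]⟩
  · intro n E b g hg0 hg1
    by_cases hn : n ∈ h.supp.toFinset
    · have hg1' : ∀ j : Fin (Module.finrank k (X ⟶ c⟦n⟧)), ∃ a : k,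
          biproduct.ι (fun β : ι => c⟦m β⟧) ⟨⟨n, hn⟩, j⟩ ≫ g = a • b⟦n⟧' := by
        intro j
        obtain ⟨a, ha⟩ := hg1 ⟨⟨n, hn⟩, j⟩ rfl
        exact ⟨a, by rw [ha, eqToHom_refl, Category.id_comp]⟩
      choose a ha using hg1'
      refine ⟨∑ j, a j • (biproduct.π (fun β : ι => c⟦m β⟧) ⟨⟨n, hn⟩, j⟩ : B ⟶ c⟦n⟧), ?_, ?_⟩
      · refine biproduct.hom_ext' _ _ ?_
        rintro ⟨⟨n', hn'⟩, j'⟩
        rw [Preadditive.sum_comp, Preadditive.comp_sum]
        by_cases hnn : n' = n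
        · subst hnn
          rw [Finset.sum_eq_single j']
          · rw [ha j', Linear.smul_comp, Linear.comp_smul, ← Category.assoc]
            congr 1
            have h1 : biproduct.ι (fun β : ι => c⟦m β⟧) ⟨⟨n', hn'⟩, j'⟩ ≫
              (biproduct.π (fun β : ι => c⟦m β⟧) ⟨⟨n', hn⟩, j'⟩ : B ⟶ c⟦n'⟧) = 𝟙 (c⟦n'⟧) :=
              biproduct.ι_π_self _ _
            rw [h1, Category.id_comp]
          · intro j _ hj
            have h1 : biproduct.ι (fun β : ι => c⟦m β⟧) ⟨⟨n', hn'⟩, j'⟩ ≫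
              (biproduct.π (fun β : ι => c⟦m β⟧) ⟨⟨n', hn⟩, j⟩ : B ⟶ c⟦n'⟧) = 0 :=
              biproduct.ι_π_ne _ (fun e => hj (by
                have := eq_of_heq (Sigma.mk.inj_iff.mp e).2
                exact this.symm))
            rw [Linear.smul_comp, Linear.comp_smul, ← Category.assoc, h1, zero_comp, smul_zero]
          · intro hj
            exact absurd (Finset.mem_univ _) hj
        · rw [hg0 ⟨⟨n', hn'⟩, j'⟩ hnn]
          symm
          apply Finset.sum_eq_zero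
          intro j _
          have h1 : biproduct.ι (fun β : ι => c⟦m β⟧) ⟨⟨n', hn'⟩, j'⟩ ≫
              (biproduct.π (fun β : ι => c⟦m β⟧) ⟨⟨n, hn⟩, j⟩ : B ⟶ c⟦n⟧) = 0 :=
              biproduct.ι_π_ne _ (fun e => hnn (by
                have := (Sigma.mk.inj_iff.mp e).1
                exact congrArg Subtype.val this))
          rw [Linear.smul_comp, Linear.comp_smul, ← Category.assoc, h1, zero_comp, smul_zero]
      · intro h0
        have h1 : ∑ j, a j • bs n j = 0 := by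
          rw [← h0, Preadditive.comp_sum]
          refine Finset.sum_congr rfl (fun j _ => ?_)
          rw [Linear.comp_smul]
          congr 1
          symm
          exact biproduct.lift_π (fun β : ι => bs (β.1 : ℤ) β.2) ⟨⟨n, hn⟩, j⟩
        have h2 : ∀ j, a j = 0 := by
          have := (bs n).linearIndependent
          rw [Fintype.linearIndependent_iff] at this
          exact this a h1
        apply Finset.sum_eq_zero
        intro j _
        rw [h2 j, zero_smul]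
    · refine ⟨0, ?_, fun _ => rfl⟩
      rw [zero_comp]
      refine biproduct.hom_ext' _ _ ?_
      rintro ⟨⟨n', hn'⟩, j'⟩
      rw [comp_zero]
      exact hg0 ⟨⟨n', hn'⟩, j'⟩ (fun e => hn (by change n' = n at e; rw [← e]; exact hn'))

end coev


section final

variable {k : Type w} [Field k] [Linear k T]

/-- `b_*` is injective on `Hom^n (X, S)` if `X` is left orthogonal to the cone of `b`. -/
theorem post_inj {S E F X : T} {b : S ⟶ E} {p : E ⟶ F} {q : F ⟶ S⟦(1 : ℤ)⟧}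
    (hΔ : Triangle.mk b p q ∈ distTriang T) (hXF : HZ X F) {n : ℤ} (w : X ⟶ S⟦n⟧)
    (hw : w ≫ b⟦n⟧' = 0) : w = 0 := by
  obtain ⟨β, hβ⟩ := cov₂ _ (inv_rot_of_distTriang _ hΔ) (Y := X) (n := n) w hw
  have h0 : β = 0 := (hXF.shift_right (-1)) n β
  rw [← hβ, h0]
  exact zero_comp

theorem post_surj {S E F X : T} {b : S ⟶ E} {p : E ⟶ F} {q : F ⟶ S⟦(1 : ℤ)⟧}
    (hΔ : Triangle.mk b p q ∈ distTriang T) (hXF : HZ X F) {n : ℤ} (g : X ⟶ E⟦n⟧) :
    ∃ w : X ⟶ S⟦n⟧, w ≫ b⟦n⟧' = g :=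
  cov₂ _ hΔ (Y := X) (n := n) g (hXF n _)

/-- the top class obstructs orthogonality -/
theorem not_HZ_cone {S E F : T} {b : S ⟶ E} {p : E ⟶ F} {q : F ⟶ S⟦(1 : ℤ)⟧}
    (hΔ : Triangle.mk b p q ∈ distTriang T) {d : ℤ}
    (hb' : ∀ f : S ⟶ E⟦d⟧, f = 0) (θ : S ⟶ S⟦d⟧) (hθ : θ ≠ 0) : ¬ HZ S F :=
  fun h => hθ (post_inj hΔ h θ (hb' _))

variable [∀ n : ℤ, Functor.Linear k (shiftFunctor T n)]

theorem orth_isZero {ι : Type*} {E F : ι → T} {I : Set ι} {S X : T}
    (hX : InThick (E '' I) X) (hS : InThick (E '' I) S) (hfin : FinHom k X S)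
    (b : ∀ i, S ⟶ E i) (hb : ∀ i ∈ I, ∀ f : S ⟶ E i, ∃ c : k, f = c • b i)
    (hb' : ∀ i ∈ I, ∀ n : ℤ, n ≠ 0 → ∀ f : S ⟶ (E i)⟦n⟧, f = 0)
    (hF : ∀ i ∈ I, ∃ (p : E i ⟶ F i) (q : F i ⟶ S⟦(1 : ℤ)⟧), Triangle.mk (b i) p q ∈ distTriang T)
    (hXF : ∀ i ∈ I, HZ X (F i)) (hSF : ∀ i ∈ I, ¬ HZ S (F i)) : IsZero X := by
  obtain ⟨ι', _, m, B, u, inc, prj, h1, h2, h3, h4, h5, h6⟩ := exists_coev hfin
  obtain ⟨Z, r, s, hT⟩ := distinguished_cocone_triangle u
  have hur : u ≫ r = 0 := comp_distTriang_mor_zero₁₂ _ hT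
  have hsu : s ≫ u⟦(1 : ℤ)⟧' = 0 := comp_distTriang_mor_zero₃₁ _ hT
  have hZ : InThick (E '' I) Z :=
    (inThick_thk _).cone _ hT hX (h4 _ (inThick_thk _) hS)
  have hZE : ∀ Y ∈ E '' I, HZ Z Y := by
    rintro _ ⟨i, hi, rfl⟩ n f
    obtain ⟨p, q, hΔ⟩ := hF i hi
    have hg : r ≫ f = 0 := by
      obtain ⟨A, hA1, hA2⟩ := h6 n (E i) (b i) (r ≫ f) (by
        intro β hβ
        have e : n = (n - m β) + m β := by ring
        obtain ⟨g, hg⟩ := (shiftFunctor T (m β)).map_surjective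
          ((inc β ≫ r ≫ f) ≫ (shiftFunctorAdd' T (n - m β) (m β) n e.symm).hom.app (E i))
        have h0 := hb' i hi (n - m β) (by
          intro h; exact hβ (by linarith)) g
        rw [← cancel_mono ((shiftFunctorAdd' T (n - m β) (m β) n e.symm).hom.app (E i)),
          zero_comp, ← hg, h0, Functor.map_zero]) (by
        intro β hβ
        subst hβ
        obtain ⟨g, hg⟩ := (shiftFunctor T (m β)).map_surjective (inc β ≫ r ≫ f)
        obtain ⟨a, ha⟩ := hb i hi g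
        refine ⟨a, ?_⟩
        rw [eqToHom_refl, Category.id_comp, ← hg, ha, Functor.map_smul])
      have h0 : (u ≫ A) ≫ (b i)⟦n⟧' = 0 := by
        rw [Category.assoc, ← hA1, ← Category.assoc, hur, zero_comp]
      rw [hA1, hA2 (post_inj hΔ (hXF i hi) _ h0), zero_comp]
    obtain ⟨f', hf'⟩ := Triangle.yoneda_exact₃ _ hT f hg
    change X⟦(1 : ℤ)⟧ ⟶ (E i)⟦n⟧ at f'
    replace hf' : f = s ≫ f' := hf'
    have e : n = (n - 1) + 1 := by ring
    obtain ⟨φ, hφ⟩ := (shiftFunctor T (1 : ℤ)).map_surjective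
      (f' ≫ (shiftFunctorAdd' T (n - 1) 1 n e.symm).hom.app (E i))
    obtain ⟨w, hw⟩ := post_surj hΔ (hXF i hi) φ
    obtain ⟨A, hA⟩ := h5 _ w
    rw [← cancel_mono ((shiftFunctorAdd' T (n - 1) 1 n e.symm).hom.app (E i)), zero_comp, hf',
      Category.assoc, ← hφ, ← hw, ← hA, Functor.map_comp, Functor.map_comp, Category.assoc,
      reassoc_of% hsu, zero_comp]
  have hZ0 : IsZero Z := by
    have := HZ.of_inThick_right hZE hZ
    exact this.isZero
  have hiso : IsIso u := by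
    have := Triangle.isZero₃_iff_isIso₁ _ hT
    exact this.mp hZ0
  by_cases hI : ∃ i, i ∈ I
  · obtain ⟨i, hi⟩ := hI
    by_cases hι : Nonempty ι'
    · obtain ⟨β⟩ := hι
      exfalso
      apply hSF i hi
      have hB : HZ B (F i) := (HZ.thk_left (F i)).iso (asIso u) (hXF i hi)
      have hSm : HZ (S⟦m β⟧) (F i) := (HZ.thk_left (F i)).retract (inc β) (prj β) (h1 β) hB
      exact (HZ.thk_left (F i)).unshift _ _ hSm
    · have hB : IsZero B := by
        rw [IsZero.iff_id_eq_zero]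
        exact h3 B _ _ (fun β => (hι ⟨β⟩).elim)
      exact hB.of_iso (asIso u)
  · have : HZ X X := HZ.of_inThick_right (s := E '' I) (by
      rintro _ ⟨i, hi, rfl⟩
      exact absurd ⟨i, hi⟩ hI) hX
    exact this.isZero

/-- (d) of the twist lemma: the spherical object lies in the thick closure of the twisted
terms. -/
theorem spherical_in_thick {ι : Type*} [LinearOrder ι] [Fintype ι] {E : ι → T}
    (hE : ExcSeq k E) {I : Set ι} {S : T} {d : ℤ} (hS : Sph k S d) (hd : d ≠ 0)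
    (hfin : ∀ i ∈ I, ∀ j ∈ I, FinHom k (E i) (E j))
    (hSI : InThick (E '' I) S) (b : ∀ i, S ⟶ E i) (a : ∀ i, E i ⟶ S⟦d⟧)
    (hT : ∀ i ∈ I, Tw k S d (b i) (a i)) {F : ι → T}
    (hF : ∀ i ∈ I, ∃ (p : E i ⟶ F i) (q : F i ⟶ S⟦(1 : ℤ)⟧),
      Triangle.mk (b i) p q ∈ distTriang T) : InThick (F '' I) S := by
  classical
  have hFI : ∀ i ∈ I, InThick (E '' I) (F i) := by
    intro i hi
    obtain ⟨p, q, h⟩ := hF i hi
    exact (inThick_thk _).cone _ h hSI (inThick_of_mem ⟨i, hi, rfl⟩)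
  let L : List ι := (Finset.univ.filter (· ∈ I)).sort (· ≤ ·)
  have hL : ∀ i, i ∈ L ↔ i ∈ I := by
    intro i
    simp [L]
  have hLs : L.Pairwise (· < ·) := (Finset.sortedLT_sort _).pairwise
  have hpair : (L.map F).Pairwise (fun F G => HZ G F) := by
    rw [List.pairwise_map]
    refine List.Pairwise.imp_of_mem ?_ hLs
    intro i j hi hj hij
    have hi' := (hL i).mp hi
    have hj' := (hL j).mp hj
    obtain ⟨p, q, h⟩ := hF i hi'
    obtain ⟨p', q', h'⟩ := hF j hj'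
    exact tw_orth (hT i hi') h (hT j hj') h' hS (hE.orth i j hij)
  have hfin' : ∀ X Y : T, InThick (E '' I) X → InThick (E '' I) Y → FinHom k X Y := by
    intro X Y hX hY
    refine finHom_thick ?_ hX hY
    rintro _ ⟨i, hi, rfl⟩ _ ⟨j, hj, rfl⟩
    exact hfin i hi j hj
  obtain ⟨X, hX1, hX2, _⟩ := peel (k := k) (InThick (E '' I)) (inThick_thk _) (L.map F) (by
      intro G hG
      obtain ⟨i, hi, rfl⟩ := List.mem_map.mp hG
      have hi' := (hL i).mp hi
      obtain ⟨p, q, h⟩ := hF i hi'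
      exact tw_exc (hT i hi') h hS hd (hE.exc i)) hpair (by
      intro G hG
      obtain ⟨i, hi, rfl⟩ := List.mem_map.mp hG
      exact hFI i ((hL i).mp hi)) (by
      intro Y hY G hG
      obtain ⟨i, hi, rfl⟩ := List.mem_map.mp hG
      exact hfin' _ _ hY (hFI i ((hL i).mp hi))) S hSI
  have hXI : InThick (E '' I) X := (hX2 _ (inThick_thk _) (by
      intro G hG
      obtain ⟨i, hi, rfl⟩ := List.mem_map.mp hG
      exact hFI i ((hL i).mp hi))).mpr hSI
  have hX0 : IsZero X := by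
    refine orth_isZero hXI hSI (hfin' _ _ hXI hSI) b (fun i hi => (hT i hi).hb)
      (fun i hi => (hT i hi).hb') hF
      (fun i hi => hX1 _ (List.mem_map.mpr ⟨i, (hL i).mpr hi, rfl⟩)) (fun i hi => ?_)
    obtain ⟨p, q, h⟩ := hF i hi
    exact not_HZ_cone h ((hT i hi).hb' d hd) (b i ≫ a i) (hT i hi).ab
  exact (hX2 _ (inThick_thk _) (by
      intro G hG
      obtain ⟨i, hi, rfl⟩ := List.mem_map.mp hG
      exact inThick_of_mem ⟨i, (hL i).mp hi, rfl⟩)).mp ((inThick_thk _).zero X hX0)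

end final

end Pool.Agent.LensD
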