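import Pool.Agent.Lens.A3
import Pool.Agent.Lens.TwistD

/-!
# Block A4: the twisted sequence is complete
-/

open CategoryTheory CategoryTheory.Limits CategoryTheory.Pretriangulated
open Pool.Agent.Lens

namespace Lens

universe w v u

variable {k : Type w} [Field k] {T : Type u} [Category.{v} T] [Preadditive T] [Linear k T]
  [HasZeroObject T] [HasShift T ℤ] [∀ n : ℤ, (shiftFunctor T n).Additive]
  [∀ n : ℤ, (shiftFunctor T n).Linear k] [Pretriangulated T] [IsTriangulated T]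
  {n : ℕ} {E : Fin n → T} (D : TwistDatum k E)

/-- `C` lies in every thick class containing the twisted terms. -/
theorem TwistDatum.C_mem (hE : IsExceptionalSeq k E)
    (hfin : ∀ i j, D.I i → D.I j → (∀ m : ℤ, Module.Finite k (E i ⟶ (E j)⟦m⟧)) ∧
      {m : ℤ | ∃ f : E i ⟶ (E j)⟦m⟧, f ≠ 0}.Finite)
    (E' : Fin n → T) (h : D.IsTwist E') {P : T → Prop} (hP : Thk P)
    (hPE : ∀ i, D.I i → P (E' i)) : P D.C := by
  have key : InThick ((fun i => (E' i)⟦(1 : ℤ)⟧) '' {i | D.I i}) D.C := by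
    refine Pool.Agent.LensD.spherical_in_thick (k := k) (E := fun i => (E i)⟦(3 : ℤ)⟧)
      (I := {i | D.I i}) (d := 3) ⟨fun i => excObj_shift (isExceptional_iff.mp (hE.exc i)) 3,
        fun i j hij => ?_⟩ (D.sph hE) (by norm_num) ?_ ?_ D.b
        (fun i => (D.a i)⟦(3 : ℤ)⟧') (fun i hi => D.tw i hi) (fun i hi => h.tri' D i hi)
    · have : HZ (E j) (E i) := hE.semi i j hij
      exact (this.shift_left 3).shift_right 3
    · intro i hi j hj
      obtain ⟨h1, h2⟩ := hfin i j hi hj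
      have h3 : Pool.Agent.LensD.FinHom k (E i) (E j) := ⟨h1, h2⟩
      exact (h3.shift_left 3).shift_right 3
    · refine D.mem' (inThick_thk _) (fun i hi => ?_)
      exact (inThick_thk _).unshift _ 3 (inThick_of_mem ⟨i, hi, rfl⟩)
  refine key P hP ?_
  rintro _ ⟨i, hi, rfl⟩
  exact hP.shift _ 1 (hPE i hi)

/-- BLOCK A4. -/
theorem TwistDatum.twist_complete (hE : IsExceptionalSeq k E) (hc : IsComplete E)
    (hfin : ∀ i j, D.I i → D.I j → (∀ m : ℤ, Module.Finite k (E i ⟶ (E j)⟦m⟧)) ∧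
      {m : ℤ | ∃ f : E i ⟶ (E j)⟦m⟧, f ≠ 0}.Finite)
    (E' : Fin n → T) (h : D.IsTwist E') : IsComplete E' := by
  intro P h1 h2 hPE
  have hP : Thk P := thk_of_isTriangulated P h1 h2
  have hC : P D.C := D.C_mem hE hfin E' h hP (fun i _ => hPE i)
  refine hc P h1 h2 (fun i => ?_)
  by_cases hi : D.I i
  · obtain ⟨p, q, h'⟩ := h.tri' D i hi
    exact hP.unshift _ 3 (hP.cone₂ _ h' hC (hP.shift _ 1 (hPE i)))
  · rw [← h.out i hi]
    exact hPE i

/-- BLOCK A4, for sequences whose interval terms have morphisms in degree `0` only. -/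
theorem TwistDatum.twist_complete' (hE : IsExceptionalSeq k E) (hc : IsComplete E)
    (hfin : ∀ i j, D.I i → D.I j → Module.Finite k (E i ⟶ E j) ∧
      ∀ m : ℤ, m ≠ 0 → ∀ f : E i ⟶ (E j)⟦m⟧, f = 0)
    (E' : Fin n → T) (h : D.IsTwist E') : IsComplete E' := by
  refine D.twist_complete hE hc (fun i j hi hj => ?_) E' h
  obtain ⟨h1, h2⟩ := hfin i j hi hj
  refine ⟨fun m => ?_, ?_⟩
  · by_cases hm : m = 0
    · subst hm
      let φ : (E i ⟶ E j) →ₗ[k] (E i ⟶ (E j)⟦(0 : ℤ)⟧) :=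
        Pool.Agent.LensD.postL ((shiftFunctorZero T ℤ).inv.app (E j)) (E i)
      exact Module.Finite.of_surjective φ (fun f => ⟨f ≫ (shiftFunctorZero T ℤ).hom.app (E j), by
          change (f ≫ (shiftFunctorZero T ℤ).hom.app (E j)) ≫
            (shiftFunctorZero T ℤ).inv.app (E j) = f
          rw [Category.assoc, Iso.hom_inv_id_app]
          exact Category.comp_id f⟩)
    · have : Subsingleton (E i ⟶ (E j)⟦m⟧) := ⟨fun f g => by rw [h2 m hm f, h2 m hm g]⟩
      infer_instance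
  · refine (Set.finite_singleton (0 : ℤ)).subset ?_
    rintro m ⟨f, hf⟩
    by_contra hm
    exact hf (h2 m hm f)

end Lens
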