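import Pool.Agent.Lens.Defs

/-!
# Transport of exceptional sequences and mutations along a triangulated equivalence
-/

open CategoryTheory CategoryTheory.Limits CategoryTheory.Pretriangulated

namespace Lens

universe w v u v' u'

section

variable {k : Type w} [Field k] {T : Type u} [Category.{v} T] [Preadditive T] [Linear k T]
  [HasZeroObject T] [HasShift T ℤ] [∀ n : ℤ, (shiftFunctor T n).Additive] [Pretriangulated T]
  {T' : Type u'} [Category.{v'} T'] [Preadditive T'] [Linear k T']
  [HasZeroObject T'] [HasShift T' ℤ] [∀ n : ℤ, (shiftFunctor T' n).Additive]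
  [Pretriangulated T'] (F : T ⥤ T') [F.IsEquivalence] [F.Additive] [F.Linear k]
  [F.CommShift ℤ] [F.IsTriangulated]

omit [Preadditive T] [HasZeroObject T] [∀ n : ℤ, (shiftFunctor T n).Additive]
  [Pretriangulated T] [Preadditive T'] [HasZeroObject T']
  [∀ n : ℤ, (shiftFunctor T' n).Additive] [Pretriangulated T'] [Linear k T] [Linear k T']
  [F.Additive] [F.Linear k] [F.IsTriangulated] in
theorem map_shift_surj {X Y : T} (m : ℤ) (f : F.obj X ⟶ (F.obj Y)⟦m⟧) :
    ∃ g : X ⟶ Y⟦m⟧, f = F.map g ≫ (F.commShiftIso m).hom.app Y := by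
  obtain ⟨g, hg⟩ := F.map_surjective (f ≫ (F.commShiftIso m).inv.app Y)
  refine ⟨g, ?_⟩
  rw [hg, Category.assoc, Iso.inv_hom_id_app]
  exact (Category.comp_id f).symm

omit [∀ n : ℤ, (shiftFunctor T n).Additive] [Pretriangulated T] [HasZeroObject T]
  [HasZeroObject T'] [∀ n : ℤ, (shiftFunctor T' n).Additive] [Pretriangulated T']
  [F.IsTriangulated] [F.Linear k] [Linear k T] [Linear k T'] in
theorem map_shift_zero {X Y : T} (m : ℤ) (h : ∀ g : X ⟶ Y⟦m⟧, g = 0)
    (f : F.obj X ⟶ (F.obj Y)⟦m⟧) : f = 0 := by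
  obtain ⟨g, rfl⟩ := map_shift_surj F m f
  rw [h g, F.map_zero, zero_comp]

theorem IsExceptional.map {E : T} (h : IsExceptional k E) : IsExceptional k (F.obj E) where
  end_eq f := by
    obtain ⟨g, rfl⟩ := F.map_surjective f
    obtain ⟨a, rfl⟩ := h.end_eq g
    exact ⟨a, by rw [F.map_smul, F.map_id]⟩
  id_ne h' := h.id_ne (F.map_injective (by rw [F.map_id, h', F.map_zero]))
  shift_zero m hm f := map_shift_zero F m (h.shift_zero m hm) f

theorem IsExceptionalSeq.map {n : ℕ} {E : Fin n → T} (h : IsExceptionalSeq k E) :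
    IsExceptionalSeq k fun i => F.obj (E i) where
  exc i := (h.exc i).map F
  semi i j hij m f := map_shift_zero F m (h.semi i j hij m) f

omit [F.Additive] [F.Linear k] [Linear k T] [Linear k T'] in
theorem IsComplete.map {n : ℕ} {E : Fin n → T} (h : IsComplete E) :
    IsComplete fun i => F.obj (E i) := by
  intro P hP hr hE X
  have h1 : (P.inverseImage F).IsTriangulated := inferInstance
  have h2 : (P.inverseImage F).IsStableUnderRetracts :=
    ⟨fun r hY => P.prop_of_retract (r.map F) hY⟩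
  have h3 := h (P.inverseImage F) h1 h2 hE (F.objPreimage X)
  exact P.prop_of_iso (F.objObjPreimageIso X) h3

theorem IsLeftMutation.map {E X L : T} (h : IsLeftMutation k E X L) :
    IsLeftMutation k (F.obj E) (F.obj X) (F.obj L) := by
  obtain ⟨s, r, b, hs, g, h, hT⟩ := h
  let φ : ∀ m : ℤ, (E⟦m⟧ ⟶ X) →ₗ[k] ((F.obj E)⟦m⟧ ⟶ F.obj X) := fun m =>
    { toFun := fun f => (F.commShiftIso m).inv.app E ≫ F.map f
      map_add' := fun f f' => by rw [F.map_add, Preadditive.comp_add]
      map_smul' := fun a f => by rw [F.map_smul, Linear.comp_smul, RingHom.id_apply] }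
  have hφ : ∀ m, Function.Bijective (φ m) := by
    intro m
    constructor
    · intro f f' hf
      have h1 : (F.commShiftIso m).inv.app E ≫ F.map f =
        (F.commShiftIso m).inv.app E ≫ F.map f' := hf
      exact F.map_injective ((cancel_epi _).1 h1)
    · intro f
      obtain ⟨g, hg⟩ := F.map_surjective ((F.commShiftIso m).hom.app E ≫ f)
      refine ⟨g, ?_⟩
      show (F.commShiftIso m).inv.app E ≫ F.map g = f
      rw [hg, Iso.inv_hom_id_app_assoc]
  let e : (⨁ fun p : (Σ m : s, Fin (r m)) => (F.obj E)⟦(p.1 : ℤ)⟧) ≅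
      F.obj (⨁ fun p : (Σ m : s, Fin (r m)) => E⟦(p.1 : ℤ)⟧) :=
    (biproduct.mapIso fun p : (Σ m : s, Fin (r m)) =>
      ((F.commShiftIso (p.1 : ℤ)).app E).symm) ≪≫
      (F.mapBiproduct fun p : (Σ m : s, Fin (r m)) => E⟦(p.1 : ℤ)⟧).symm
  have he : e.hom ≫ F.map (biproduct.desc fun p : (Σ m : s, Fin (r m)) => b p.1 p.2) =
      biproduct.desc fun p : (Σ m : s, Fin (r m)) =>
        ((b p.1).map (LinearEquiv.ofBijective (φ p.1) (hφ p.1))) p.2 := by
    refine biproduct.hom_ext' _ _ fun p => ?_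
    have h1 : biproduct.ι (fun p : (Σ m : s, Fin (r m)) => (F.obj E)⟦(p.1 : ℤ)⟧) p ≫ e.hom =
        (F.commShiftIso (p.1 : ℤ)).inv.app E ≫
          F.map (biproduct.ι (fun p : (Σ m : s, Fin (r m)) => E⟦(p.1 : ℤ)⟧) p) := by
      have h2 : biproduct.ι (fun p : (Σ m : s, Fin (r m)) => F.obj (E⟦(p.1 : ℤ)⟧)) p ≫
          (F.mapBiproduct fun p : (Σ m : s, Fin (r m)) => E⟦(p.1 : ℤ)⟧).inv =
          F.map (biproduct.ι (fun p : (Σ m : s, Fin (r m)) => E⟦(p.1 : ℤ)⟧) p) := by
        rw [Functor.mapBiproduct_inv]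
        exact biproduct.ι_desc _ _
      rw [← h2]
      simp only [e, Iso.trans_hom, biproduct.mapIso_hom, Iso.symm_hom, biproduct.ι_map_assoc]
      rfl
    rw [← Category.assoc, h1, Category.assoc, ← F.map_comp, biproduct.ι_desc, biproduct.ι_desc]
    rfl
  refine ⟨s, r, fun m => (b m).map (LinearEquiv.ofBijective (φ m) (hφ m)), hs, F.map g,
    F.map h ≫ (F.commShiftIso (1 : ℤ)).hom.app _ ≫ e.inv⟦(1 : ℤ)⟧', ?_⟩
  refine isomorphic_distinguished _ (F.map_distinguished _ hT) _
    (Triangle.isoMk _ _ e (Iso.refl _) (Iso.refl _) ?_ ?_ ?_)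
  · exact (Category.comp_id _).trans he.symm
  · exact (Category.comp_id _).trans (Category.id_comp _).symm
  · show (F.map h ≫ (F.commShiftIso (1 : ℤ)).hom.app _ ≫ e.inv⟦(1 : ℤ)⟧') ≫ e.hom⟦(1 : ℤ)⟧' =
      𝟙 _ ≫ F.map h ≫ (F.commShiftIso (1 : ℤ)).hom.app _
    rw [Category.id_comp, Category.assoc, Category.assoc, ← Functor.map_comp, e.inv_hom_id,
      CategoryTheory.Functor.map_id]
    congr 1
    exact Category.comp_id _

/-- transport of a complete exceptional sequence -/
def CES.map {n : ℕ} (E : CES k T n) : CES k T' n :=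
  ⟨fun i => F.obj (E.1 i), E.2.1.map F, E.2.2.map F⟩

theorem Step.map {n : ℕ} {E E' : CES k T n} (h : Step k E E') :
    Step k (CES.map F E) (CES.map F E') := by
  cases h with
  | shift h =>
    refine Step.shift _ _ fun i => ?_
    obtain ⟨m, ⟨e⟩⟩ := h i
    exact ⟨m, ⟨F.mapIso e ≪≫ (F.commShiftIso m).app (E.1 i)⟩⟩
  | sigma i hi h₀ h₁ h₂ =>
    exact Step.sigma _ _ i hi (h₀.map F) (congrArg F.obj h₁)
      fun j hj hj' => congrArg F.obj (h₂ j hj hj')

theorem SameOrbit.map {n : ℕ} {E E' : CES k T n} (h : SameOrbit k E E') :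
    SameOrbit k (CES.map F E) (CES.map F E') := by
  induction h with
  | rel x y h => exact Relation.EqvGen.rel _ _ (h.map F)
  | refl x => exact Relation.EqvGen.refl _
  | symm x y _ ih => exact Relation.EqvGen.symm _ _ ih
  | trans x y z _ _ ih₁ ih₂ => exact Relation.EqvGen.trans _ _ _ ih₁ ih₂

include F in
/-- BLOCK A5 (transport along a `k`-linear triangulated equivalence). -/
theorem BraidTransitive.of_equivalence (h : BraidTransitive k T') : BraidTransitive k T := by
  intro n E E'
  let : F.asEquivalence.functor.CommShift ℤ := inferInstanceAs (F.CommShift ℤ)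
  let : F.asEquivalence.functor.Additive := inferInstanceAs F.Additive
  let : F.asEquivalence.functor.Linear k := inferInstanceAs (F.Linear k)
  let : F.asEquivalence.functor.IsTriangulated := inferInstanceAs F.IsTriangulated
  let := F.asEquivalence.commShiftInverse ℤ
  have h0 := F.asEquivalence.commShift_of_functor ℤ
  have h1 : F.asEquivalence.inverse.IsTriangulated :=
    F.asEquivalence.toAdjunction.isTriangulated_rightAdjoint
  have h2 := (h n (CES.map F E) (CES.map F E')).map F.asEquivalence.inverse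
  have h3 : ∀ E : CES k T n,
      SameOrbit k E (CES.map F.asEquivalence.inverse (CES.map F E)) := fun E =>
    Relation.EqvGen.rel _ _ (Step.shift _ _ fun i => ⟨0,
      ⟨(F.asEquivalence.unitIso.app (E.1 i)).symm ≪≫
        ((shiftFunctorZero T ℤ).app (E.1 i)).symm⟩⟩)
  exact (h3 E).trans _ _ _ (h2.trans _ _ _ ((h3 E').symm _ _))

end

end Lens
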