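import Mathlib

/-! # Instances for `Mat_` -/

open CategoryTheory CategoryTheory.Limits

namespace Lens

universe w v u

variable {𝓐 : Type u} [Category.{v} 𝓐] [Preadditive 𝓐]

instance matHasBinaryBiproducts : HasBinaryBiproducts (Mat_ 𝓐) :=
  hasBinaryBiproducts_of_finite_biproducts (Mat_ 𝓐)

section

variable {k : Type w} [Semiring k] [Linear k 𝓐]

instance matHomModule (M N : Mat_ 𝓐) : Module k (M ⟶ N) where
  smul a f := fun i j => a • f i j
  one_smul f := by ext i j; exact one_smul k _
  mul_smul a b f := by ext i j; exact mul_smul a b _
  smul_zero a := by ext i j; exact smul_zero a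
  smul_add a f g := by ext i j; exact smul_add a _ _
  add_smul a b f := by ext i j; exact add_smul a b _
  zero_smul f := by ext i j; exact zero_smul k _

@[simp]
theorem mat_smul_apply {M N : Mat_ 𝓐} (a : k) (f : M ⟶ N) (i j) : (a • f) i j = a • f i j :=
  rfl

instance matLinear : Linear k (Mat_ 𝓐) where
  homModule M N := inferInstance
  smul_comp M N K a f g := by
    ext i j
    simp [Finset.smul_sum]
  comp_smul M N K f a g := by
    ext i j
    simp [Finset.smul_sum]

end

end Lens
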