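import Pool.Agent.Lens.LB
import Pool.Agent.Lens.MatInst

/-!
# Graded `k[T₀, T₁]`-summands of free modules over the line bundles are free
-/

set_option autoImplicit false

open CategoryTheory CategoryTheory.Limits MvPolynomial

namespace Lens

universe u

variable {k : Type u} [Field k] {n : ℕ}

namespace RBasis

section Poly

theorem weight_one_eq (d : Fin 2 →₀ ℕ) : Finsupp.weight (1 : Fin 2 → ℕ) d = d 0 + d 1 := by
  rw [Finsupp.weight_apply, Finsupp.sum_fintype _ _ (by simp)]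
  simp

theorem homog_decomp {m : ℕ} {r : R k} (hr : r.IsHomogeneous (m + 1)) :
    ∃ r' r'' : R k, r'.IsHomogeneous m ∧ r''.IsHomogeneous m ∧ r = X 0 * r' + X 1 * r'' := by
  have h1 : ∀ d ∈ r.support, ∃ r' r'' : R k, r'.IsHomogeneous m ∧ r''.IsHomogeneous m ∧
      monomial d (coeff d r) = X 0 * r' + X 1 * r'' := by
    intro d hd
    have h3 : d 0 + d 1 = m + 1 := by
      have := hr (mem_support_iff.1 hd)
      rwa [weight_one_eq] at this
    have key : ∀ j : Fin 2, d j ≠ 0 → ∃ e : Fin 2 →₀ ℕ, d = Finsupp.single j 1 + e ∧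
        e 0 + e 1 = m := by
      intro j hj
      have hle : Finsupp.single j 1 ≤ d := by
        rw [Finsupp.single_le_iff]
        omega
      refine ⟨d - Finsupp.single j 1, (add_tsub_cancel_of_le hle).symm, ?_⟩
      have e1 := congrArg (fun x : Fin 2 →₀ ℕ => x 0 + x 1) (add_tsub_cancel_of_le hle)
      simp only [Finsupp.add_apply] at e1
      fin_cases j
      · simp at e1 ⊢
        omega
      · simp at e1 ⊢
        omega
    have hom : ∀ e : Fin 2 →₀ ℕ, e 0 + e 1 = m → (monomial e (coeff d r)).IsHomogeneous m := by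
      intro e he c hc
      rw [coeff_monomial] at hc
      have : e = c := by
        by_contra h
        exact hc (if_neg h)
      rw [← this, weight_one_eq, he]
    by_cases h : d 0 = 0
    · obtain ⟨e, he1, he2⟩ := key 1 (by omega)
      refine ⟨0, monomial e (coeff d r), isHomogeneous_zero _ _ _, hom e he2, ?_⟩
      conv_lhs => rw [he1]
      rw [mul_zero, zero_add, X, monomial_mul, one_mul, ← he1]
    · obtain ⟨e, he1, he2⟩ := key 0 h
      refine ⟨monomial e (coeff d r), 0, hom e he2, isHomogeneous_zero _ _ _, ?_⟩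
      conv_lhs => rw [he1]
      rw [mul_zero, add_zero, X, monomial_mul, one_mul, ← he1]
  choose! a b ha hb hab using h1
  refine ⟨∑ d ∈ r.support, a d, ∑ d ∈ r.support, b d, IsHomogeneous.sum _ _ _ ha,
    IsHomogeneous.sum _ _ _ hb, ?_⟩
  conv_lhs => rw [r.as_sum]
  rw [Finset.mul_sum, Finset.mul_sum, ← Finset.sum_add_distrib]
  exact Finset.sum_congr rfl hab

theorem homog_of_X_mul {m : ℕ} {t : R k} (j : Fin 2) (h : (X j * t).IsHomogeneous (m + 1)) :
    t.IsHomogeneous m := by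
  intro d hd
  have h1 : coeff (Finsupp.single j 1 + d) (X j * t) ≠ 0 := by rwa [coeff_X_mul]
  have h2 := h h1
  rw [map_add, Finsupp.weight_single] at h2
  simp at h2
  omega

theorem eq_zero_of_X_mul {t : R k} (j : Fin 2) (h : (X j * t).IsHomogeneous 0) : t = 0 := by
  by_contra hne
  obtain ⟨d, hd⟩ := ne_zero_iff.1 hne
  have h1 : coeff (Finsupp.single j 1 + d) (X j * t) ≠ 0 := by rwa [coeff_X_mul]
  have h2 := h h1
  rw [map_add, Finsupp.weight_single] at h2
  simp at h2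

theorem koszul_R {p q : R k} (h : X 0 * p + X 1 * q = 0) : ∃ t : R k, p = X 1 * t ∧ q = -(X 0 * t) := by
  have h1 : (X 1 : R k) ∣ X 0 * p := ⟨-q, by rw [mul_neg, eq_neg_iff_add_eq_zero]; exact h⟩
  rw [X_dvd_mul_iff, X_dvd_X] at h1
  obtain h1 | ⟨t, ht⟩ := h1
  · exact absurd h1 (by decide)
  · refine ⟨t, ht, ?_⟩
    have h2 : (X 1 : R k) * (X 0 * t + q) = 0 := by
      rw [← h, ht]
      ring
    rw [mul_eq_zero] at h2
    obtain h2 | h2 := h2
    · exact absurd h2 (X_ne_zero 1)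
    · rw [eq_neg_iff_add_eq_zero, add_comm]
      exact h2

end Poly

section Piece

variable (lam : Fin n → Fin 2 → k)

theorem sub_c_I (z : LG n) : (z - LG.c).I = z.I := by
  rw [LG.sub_I, LG.c_I]
  exact symmDiff_bot _

theorem sub_c_a (z : LG n) : (z - LG.c).a = z.a - 1 := by
  rw [LG.sub_a, LG.c_I, LG.c_a]
  simp

theorem tt_eq (j : Fin 2) : tt lam j = iota lam (X j) := (iota_X lam j).symm

/-- the reduction modulo `T₀, T₁` of `f ∈ S`, in coordinates -/
noncomputable def red : S lam →ₗ[k] (Finset (Fin n) → k) :=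
  LinearMap.pi fun J => lcoeff k 0 ∘ₗ coef lam J

theorem red_apply (f : S lam) (J : Finset (Fin n)) : red lam f J = coeff 0 (coef lam J f) := rfl

theorem coeff_zero_mul' (r s : R k) : coeff 0 (r * s) = coeff 0 r * coeff 0 s :=
  map_mul (constantCoeff (R := k) (σ := Fin 2)) r s

theorem red_iota_mul (r : R k) (f : S lam) : red lam (iota lam r * f) = coeff 0 r • red lam f := by
  funext J
  rw [Pi.smul_apply, red_apply, red_apply, coef_iota_mul, coeff_zero_mul']
  rfl

theorem coef_iota (J : Finset (Fin n)) (r : R k) :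
    coef lam J (iota lam r) = if J = ∅ then r else 0 := by
  have h := coef_xI_mul_iota lam J ∅ r
  rw [xI_empty, one_mul] at h
  rw [h]
  by_cases hJ : J = ∅
  · rw [if_pos hJ, if_pos hJ.symm]
  · rw [if_neg hJ, if_neg (Ne.symm hJ)]

/-- the normal form of a homogeneous element -/
theorem piece_cases {z : LG n} {f : S lam} (hf : f ∈ piece lam z) :
    f = 0 ∨ ∃ m : ℕ, z.a = m ∧ ∃ r : R k, r.IsHomogeneous m ∧ f = xI lam z.I * iota lam r := by
  rcases lt_or_ge z.a 0 with h | h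
  · exact Or.inl (eq_zero_of_mem_piece lam h hf)
  · obtain ⟨m, hm⟩ := Int.eq_ofNat_of_zero_le h
    exact Or.inr ⟨m, hm, (mem_piece_iff lam z m hm f).1 hf⟩

theorem homog_zero {r : R k} (hr : r.IsHomogeneous 0) : r = C (coeff 0 r) := by
  have := hr.totalDegree_le
  exact totalDegree_eq_zero_iff_eq_C.1 (by omega)

theorem coeff_zero_of_homog {m : ℕ} {r : R k} (hr : r.IsHomogeneous m) (h : coeff 0 r ≠ 0) :
    m = 0 := by
  have := hr h
  simpa using this.symm

theorem a_eq_zero_of_red {z : LG n} {f : S lam} (hf : f ∈ piece lam z) (h : red lam f ≠ 0) :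
    z.a = 0 := by
  rcases piece_cases lam hf with rfl | ⟨m, hm, r, hr, rfl⟩
  · exact absurd (map_zero _) h
  · obtain ⟨J, hJ⟩ := Function.ne_iff.1 h
    rw [red_apply, coef_xI_mul_iota] at hJ
    split_ifs at hJ with h1
    · rw [hm, coeff_zero_of_homog hr hJ]
      rfl
    · exact absurd (coeff_zero _) hJ

theorem decomp_of_red {z : LG n} {f : S lam} (hf : f ∈ piece lam z) (h : red lam f = 0) :
    ∃ f' f'' : S lam, f' ∈ piece lam (z - LG.c) ∧ f'' ∈ piece lam (z - LG.c) ∧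
      f = tt lam 0 * f' + tt lam 1 * f'' := by
  rcases piece_cases lam hf with rfl | ⟨m, hm, r, hr, rfl⟩
  · exact ⟨0, 0, Submodule.zero_mem _, Submodule.zero_mem _, by simp⟩
  · obtain _ | m := m
    · refine ⟨0, 0, Submodule.zero_mem _, Submodule.zero_mem _, ?_⟩
      have h1 := congrFun h z.I
      rw [red_apply, coef_xI_mul_iota, if_pos rfl, Pi.zero_apply] at h1
      rw [homog_zero hr, h1, C_0, map_zero, mul_zero, mul_zero, mul_zero, add_zero]
    · obtain ⟨r', r'', h1, h2, h3⟩ := homog_decomp hr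
      have ha : (z - LG.c).a = (m : ℤ) := by rw [sub_c_a, hm]; push_cast; ring
      refine ⟨xI lam z.I * iota lam r', xI lam z.I * iota lam r'',
        (mem_piece_iff lam _ m ha _).2 ⟨r', h1, by rw [sub_c_I]⟩,
        (mem_piece_iff lam _ m ha _).2 ⟨r'', h2, by rw [sub_c_I]⟩, ?_⟩
      rw [h3, map_add, map_mul, map_mul, tt_eq, tt_eq]
      ring

theorem iota_piece_cases {z : LG n} {r : R k} (hf : iota lam r ∈ piece lam z) :
    r = 0 ∨ ∃ m : ℕ, z.a = m ∧ z.I = ∅ ∧ r.IsHomogeneous m := by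
  rcases piece_cases lam hf with h | ⟨m, hm, r', hr', h⟩
  · exact Or.inl (iota_injective lam (h.trans (map_zero _).symm))
  · by_cases hI : z.I = ∅
    · refine Or.inr ⟨m, hm, hI, ?_⟩
      rw [hI, xI_empty, one_mul] at h
      rwa [iota_injective lam h]
    · refine Or.inl ?_
      have h1 := congrArg (coef lam ∅) h
      rwa [coef_iota, if_pos rfl, coef_xI_mul_iota, if_neg hI] at h1

theorem iota_mem_piece' {z : LG n} {m : ℕ} {r : R k} (ha : z.a = m) (hI : z.I = ∅)
    (hr : r.IsHomogeneous m) : iota lam r ∈ piece lam z :=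
  (mem_piece_iff lam z m ha _).2 ⟨r, hr, by rw [hI, xI_empty, one_mul]⟩

theorem iota_decomp {z : LG n} {r : R k} (hf : iota lam r ∈ piece lam z) (h : coeff 0 r = 0) :
    ∃ r' r'' : R k, iota lam r' ∈ piece lam (z - LG.c) ∧ iota lam r'' ∈ piece lam (z - LG.c) ∧
      r = X 0 * r' + X 1 * r'' := by
  have h0 : iota lam (0 : R k) ∈ piece lam (z - LG.c) := by
    rw [map_zero]; exact Submodule.zero_mem _
  rcases iota_piece_cases lam hf with rfl | ⟨m, hm, hI, hr⟩
  · exact ⟨0, 0, h0, h0, by simp⟩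
  · obtain _ | m := m
    · refine ⟨0, 0, h0, h0, ?_⟩
      rw [homog_zero hr, h, C_0]
      simp
    · obtain ⟨r', r'', h1, h2, h3⟩ := homog_decomp hr
      have ha : (z - LG.c).a = (m : ℤ) := by rw [sub_c_a, hm]; push_cast; ring
      exact ⟨r', r'', iota_mem_piece' lam ha (by rw [sub_c_I, hI]) h1,
        iota_mem_piece' lam ha (by rw [sub_c_I, hI]) h2, h3⟩

theorem eq_zero_of_coeff {z : LG n} {r : R k} (hf : iota lam r ∈ piece lam z)
    (h : coeff 0 r ≠ 0) : z = 0 := by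
  rcases iota_piece_cases lam hf with rfl | ⟨m, hm, hI, hr⟩
  · exact absurd (coeff_zero _) h
  · refine LG.ext hI ?_
    rw [hm, coeff_zero_of_homog hr h]
    rfl

theorem koszul_piece {z : LG n} {p q : S lam} (hp : p ∈ piece lam z) (hq : q ∈ piece lam z)
    (h : tt lam 0 * p + tt lam 1 * q = 0) :
    ∃ t ∈ piece lam (z - LG.c), p = tt lam 1 * t ∧ q = -(tt lam 0 * t) := by
  have h0 : (0 : S lam) ∈ piece lam (z - LG.c) := Submodule.zero_mem _
  rcases lt_or_ge z.a 0 with ha | ha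
  · rw [eq_zero_of_mem_piece lam ha hp, eq_zero_of_mem_piece lam ha hq]
    exact ⟨0, h0, by simp⟩
  · obtain ⟨m, hm⟩ := Int.eq_ofNat_of_zero_le ha
    obtain ⟨r, hr, rfl⟩ := (mem_piece_iff lam z m hm p).1 hp
    obtain ⟨s, hs, rfl⟩ := (mem_piece_iff lam z m hm q).1 hq
    have h1 : xI lam z.I * iota lam (X 0 * r + X 1 * s) = xI lam z.I * iota lam 0 := by
      rw [map_zero, mul_zero, ← h, map_add, map_mul, map_mul, tt_eq, tt_eq]
      ring
    obtain ⟨t, rfl, rfl⟩ := koszul_R (xI_mul_iota_injective lam z.I h1)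
    obtain _ | m := m
    · rw [eq_zero_of_X_mul 1 hr]
      exact ⟨0, h0, by simp⟩
    · have ha : (z - LG.c).a = (m : ℤ) := by rw [sub_c_a, hm]; push_cast; ring
      refine ⟨xI lam z.I * iota lam t, (mem_piece_iff lam _ m ha _).2
        ⟨t, homog_of_X_mul 1 hr, by rw [sub_c_I]⟩, ?_, ?_⟩
      · rw [map_mul, tt_eq]
        ring
      · rw [map_neg, map_mul, tt_eq]
        ring

end Piece

section Mat

variable {lam : Fin n → Fin 2 → k}

/-- `w + c` -/
def sh (w : LB lam) : LB lam := ⟨w.z + LG.c⟩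

/-- `T_j : w ⟶ w + c` -/
noncomputable def T (j : Fin 2) (w : LB lam) : w ⟶ sh w :=
  LB.homMk (tt lam j) (by
    have h : (sh w).z - w.z = LG.c := add_sub_cancel_left w.z LG.c
    rw [h]
    exact tt_mem_piece lam j)

@[simp] theorem T_f (j : Fin 2) (w : LB lam) : LB.Hom.f (T j w) = tt lam j := rfl

/-- the embedding -/
noncomputable abbrev E (lam : Fin n → Fin 2 → k) : LB lam ⥤ Mat_ (LB lam) := Mat_.embedding (LB lam)

/-- the entries -/
def ent {w : LB lam} {F : Mat_ (LB lam)} (u : (E lam).obj w ⟶ F) (i : F.ι) : w ⟶ F.X i :=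
  u PUnit.unit i

/-- constructor from entries -/
def mkE {w : LB lam} {F : Mat_ (LB lam)} (a : ∀ i, w ⟶ F.X i) : (E lam).obj w ⟶ F :=
  fun _ i => a i

theorem ent_mkE {w : LB lam} {F : Mat_ (LB lam)} (a : ∀ i, w ⟶ F.X i) (i : F.ι) :
    ent (mkE a) i = a i := rfl

theorem ent_comp {w w' : LB lam} {F : Mat_ (LB lam)} (f : w' ⟶ w) (u : (E lam).obj w ⟶ F)
    (i : F.ι) : ent ((E lam).map f ≫ u) i = f ≫ ent u i := by
  have h : ent ((E lam).map f ≫ u) i =
      ∑ l : ((E lam).obj w).ι, ((E lam).map f) PUnit.unit l ≫ u l i := rfl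
  rw [h]
  exact Fintype.sum_unique (ι := PUnit) fun l => f ≫ u l i

theorem ent_add {w : LB lam} {F : Mat_ (LB lam)} (u v : (E lam).obj w ⟶ F) (i : F.ι) :
    ent (u + v) i = ent u i + ent v i := rfl

theorem ent_sub {w : LB lam} {F : Mat_ (LB lam)} (u v : (E lam).obj w ⟶ F) (i : F.ι) :
    ent (u - v) i = ent u i - ent v i := rfl

theorem ent_neg {w : LB lam} {F : Mat_ (LB lam)} (u : (E lam).obj w ⟶ F) (i : F.ι) :
    ent (-u) i = -ent u i := rfl

theorem ent_zero {w : LB lam} {F : Mat_ (LB lam)} (i : F.ι) :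
    ent (0 : (E lam).obj w ⟶ F) i = 0 := rfl

theorem ent_smul {w : LB lam} {F : Mat_ (LB lam)} (a : k) (u : (E lam).obj w ⟶ F) (i : F.ι) :
    ent (a • u) i = a • ent u i := rfl

theorem E_comp_f {w w' : LB lam} {F : Mat_ (LB lam)} (f : w' ⟶ w) (u : (E lam).obj w ⟶ F)
    (i : F.ι) : LB.Hom.f (ent ((E lam).map f ≫ u) i) =
      LB.Hom.f f * LB.Hom.f (ent u i) := by
  rw [ent_comp, LB.comp_f]

theorem E_ext {w : LB lam} {F : Mat_ (LB lam)} {u v : (E lam).obj w ⟶ F}
    (h : ∀ i, LB.Hom.f (ent u i) = LB.Hom.f (ent v i)) : u = v := by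
  refine DMatrix.ext fun a i => ?_
  obtain rfl : a = PUnit.unit := rfl
  exact LB.hom_ext (h i)

theorem E_comp_comp_f {w w' w'' : LB lam} {F : Mat_ (LB lam)} (g : w'' ⟶ w') (f : w' ⟶ w)
    (u : (E lam).obj w ⟶ F) : (E lam).map (g ≫ f) ≫ u = (E lam).map g ≫ (E lam).map f ≫ u := by
  rw [Functor.map_comp, Category.assoc]

theorem E_add {w w' : LB lam} {F : Mat_ (LB lam)} (f g : w' ⟶ w)
    (u : (E lam).obj w ⟶ F) : (E lam).map (f + g) ≫ u = (E lam).map f ≫ u + (E lam).map g ≫ u := by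
  refine E_ext fun i => ?_
  rw [E_comp_f, ent_add, LB.add_f, LB.add_f, E_comp_f, E_comp_f, add_mul]

theorem E_sub {w w' : LB lam} {F : Mat_ (LB lam)} (f g : w' ⟶ w)
    (u : (E lam).obj w ⟶ F) : (E lam).map (f - g) ≫ u = (E lam).map f ≫ u - (E lam).map g ≫ u := by
  rw [eq_sub_iff_add_eq, ← E_add, sub_add_cancel]

/-- reduction modulo `T₀, T₁` -/
noncomputable def eps (w : LB lam) (F : Mat_ (LB lam)) :
    ((E lam).obj w ⟶ F) →ₗ[k] (F.ι → Finset (Fin n) → k) where
  toFun u i := red lam (LB.Hom.f (ent u i))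
  map_add' u v := by
    funext i
    exact map_add (red lam) _ _
  map_smul' a u := by
    funext i
    exact map_smul (red lam) _ _

theorem eps_apply {w : LB lam} {F : Mat_ (LB lam)} (u : (E lam).obj w ⟶ F) (i : F.ι) :
    eps w F u i = red lam (LB.Hom.f (ent u i)) := rfl

theorem eps_comp {w w' : LB lam} {F : Mat_ (LB lam)} (f : w' ⟶ w) (r : R k)
    (hf : LB.Hom.f f = iota lam r) (u : (E lam).obj w ⟶ F) :
    eps w' F ((E lam).map f ≫ u) = coeff 0 r • eps w F u := by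
  funext i
  rw [eps_apply, E_comp_f, hf, red_iota_mul]
  rfl

theorem decomp_of_eps {w : LB lam} {F : Mat_ (LB lam)} (u : (E lam).obj w ⟶ F)
    (h : eps w F u = 0) : ∃ a b : (E lam).obj (sh w) ⟶ F,
      u = (E lam).map (T 0 w) ≫ a + (E lam).map (T 1 w) ≫ b := by
  have h1 : ∀ i : F.ι, ∃ f' f'' : sh w ⟶ F.X i,
      LB.Hom.f (ent u i) = tt lam 0 * LB.Hom.f f' + tt lam 1 * LB.Hom.f f'' := by
    intro i
    obtain ⟨f', f'', h1, h2, h3⟩ := decomp_of_red lam (LB.Hom.mem (ent u i)) (congrFun h i)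
    have e : (F.X i).z - w.z - LG.c = (F.X i).z - (sh w).z := sub_sub _ _ _
    exact ⟨LB.homMk f' (e ▸ h1), LB.homMk f'' (e ▸ h2), h3⟩
  choose a b hab using h1
  refine ⟨mkE a, mkE b, E_ext fun i => (hab i).trans ?_⟩
  rw [ent_add, LB.add_f, E_comp_f, E_comp_f]
  rfl

theorem koszul_mat {w : LB lam} {F : Mat_ (LB lam)} (p q : (E lam).obj (sh w) ⟶ F)
    (h : (E lam).map (T 0 w) ≫ p + (E lam).map (T 1 w) ≫ q = 0) :
    ∃ t : (E lam).obj (sh (sh w)) ⟶ F, p = (E lam).map (T 1 (sh w)) ≫ t ∧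
      q = -((E lam).map (T 0 (sh w)) ≫ t) := by
  have h1 : ∀ i : F.ι, ∃ t : sh (sh w) ⟶ F.X i,
      LB.Hom.f (ent p i) = tt lam 1 * LB.Hom.f t ∧
        LB.Hom.f (ent q i) = -(tt lam 0 * LB.Hom.f t) := by
    intro i
    have h2 := congrArg (fun x : (E lam).obj w ⟶ F => LB.Hom.f (ent x i)) h
    change LB.Hom.f (ent ((E lam).map (T 0 w) ≫ p + (E lam).map (T 1 w) ≫ q) i) = 0 at h2
    rw [ent_add, LB.add_f, E_comp_f, E_comp_f, T_f, T_f] at h2
    obtain ⟨t, h3, h4, h5⟩ := koszul_piece lam (LB.Hom.mem (ent p i))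
      (LB.Hom.mem (ent q i)) h2
    have e : (F.X i).z - (sh w).z - LG.c = (F.X i).z - (sh (sh w)).z := sub_sub _ _ _
    exact ⟨LB.homMk t (e ▸ h3), h4, h5⟩
  choose t ht1 ht2 using h1
  refine ⟨mkE t, E_ext fun i => (ht1 i).trans ?_, E_ext fun i => (ht2 i).trans ?_⟩
  · rw [E_comp_f]
    rfl
  · rw [ent_neg, LB.neg_f, E_comp_f]
    rfl

theorem eq_zero_of_lt {w : LB lam} {F : Mat_ (LB lam)} (K : ℤ) (hK : ∀ i, (F.X i).z.a ≤ K)
    (hw : K < w.z.a) (u : (E lam).obj w ⟶ F) : u = 0 := by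
  refine E_ext fun i => ?_
  have h : ((F.X i).z - w.z).a < 0 := by
    rw [LG.sub_a]
    have := hK i
    omega
  rw [LB.hom_eq_zero h (ent u i)]
  rfl

/-- morphisms given by elements of `k[T₀, T₁]` -/
def IsR {w z : LB lam} (f : w ⟶ z) : Prop := LB.Hom.f f ∈ (iota lam).range

theorem isR_zero (w z : LB lam) : IsR (0 : w ⟶ z) := ⟨0, map_zero _⟩

theorem IsR.add {w z : LB lam} {f g : w ⟶ z} (hf : IsR f) (hg : IsR g) : IsR (f + g) :=
  (iota lam).range.add_mem hf hg

theorem IsR.sub {w z : LB lam} {f g : w ⟶ z} (hf : IsR f) (hg : IsR g) : IsR (f - g) :=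
  (iota lam).range.sub_mem hf hg

theorem IsR.comp {w z y : LB lam} {f : w ⟶ z} {g : z ⟶ y} (hf : IsR f) (hg : IsR g) :
    IsR (f ≫ g) :=
  (iota lam).range.mul_mem hf hg

theorem isR_T (j : Fin 2) (w : LB lam) : IsR (T j w) := ⟨X j, iota_X lam j⟩

theorem isR_decomp {w z : LB lam} (f : w ⟶ z) (r : R k) (hf : LB.Hom.f f = iota lam r)
    (h : coeff 0 r = 0) : ∃ f' f'' : sh w ⟶ z, IsR f' ∧ IsR f'' ∧
      f = T 0 w ≫ f' + T 1 w ≫ f'' := by
  have hm := LB.Hom.mem f
  rw [hf] at hm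
  obtain ⟨r', r'', h1, h2, h3⟩ := iota_decomp lam hm h
  have e : z.z - w.z - LG.c = z.z - (sh w).z := sub_sub _ _ _
  refine ⟨LB.homMk (iota lam r') (e ▸ h1), LB.homMk (iota lam r'') (e ▸ h2), ⟨r', rfl⟩, ⟨r'', rfl⟩,
    LB.hom_ext ?_⟩
  rw [hf, LB.add_f, LB.comp_f, LB.comp_f, T_f, T_f, LB.homMk_f, LB.homMk_f, h3, map_add, map_mul,
    map_mul, tt_eq, tt_eq]

theorem eq_of_coeff_ne_zero {w z : LB lam} (f : w ⟶ z) (r : R k) (hf : LB.Hom.f f = iota lam r)
    (h : coeff 0 r ≠ 0) : z = w := by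
  have hm := LB.Hom.mem f
  rw [hf] at hm
  have h1 := eq_zero_of_coeff lam hm h
  rw [sub_eq_zero] at h1
  cases z
  cases w
  exact congrArg LB.mk h1

theorem eqToHom_f {w z : LB lam} (h : w = z) : LB.Hom.f (eqToHom h) = 1 := by
  subst h
  rfl

theorem exists_bound {ι : Type*} [Finite ι] (f : ι → ℤ) : ∃ K, ∀ i, f i ≤ K := by
  obtain ⟨K, hK⟩ := Set.finite_range f |>.bddAbove
  exact ⟨K, fun i => hK ⟨i, rfl⟩⟩

/-- bases of finitely many subspaces -/
theorem exists_index {V : Type*} [AddCommGroup V] [Module k V] [FiniteDimensional k V]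
    {L : Type*} (B : L → Submodule k V) (hfin : {w | B w ≠ ⊥}.Finite) :
    ∃ (r : ℕ) (z : Fin r → L) (v : Fin r → V), (∀ j, v j ∈ B (z j)) ∧
      (∀ w, ∀ x ∈ B w, ∃ c : Fin r → k, (∀ j, c j ≠ 0 → z j = w) ∧ x = ∑ j, c j • v j) ∧
      ∀ (w : L) (c : Fin r → k), (∀ j, c j ≠ 0 → z j = w) → ∑ j, c j • v j = 0 → ∀ j, c j = 0 := by
  classical
  have : Fintype {w | B w ≠ ⊥} := hfin.fintype
  let J := Σ w : {w | B w ≠ ⊥}, Fin (Module.finrank k (B w.1))
  let b : ∀ w : L, Module.Basis (Fin (Module.finrank k (B w))) k (B w) := fun w =>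
    Module.finBasis k (B w)
  let e : J ≃ Fin (Fintype.card J) := Fintype.equivFin J
  suffices h : (∀ w, ∀ x ∈ B w, ∃ c : J → k, (∀ j, c j ≠ 0 → j.1.1 = w) ∧
      x = ∑ j, c j • (b j.1.1 j.2 : V)) ∧
      ∀ (w : L) (c : J → k), (∀ j, c j ≠ 0 → j.1.1 = w) → ∑ j, c j • (b j.1.1 j.2 : V) = 0 →
        ∀ j, c j = 0 by
    refine ⟨Fintype.card J, fun j => (e.symm j).1.1, fun j => (b (e.symm j).1.1 (e.symm j).2 : V),
      fun j => Subtype.mem _, ?_, ?_⟩
    · intro w x hx
      obtain ⟨c, hc1, hc2⟩ := h.1 w x hx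
      refine ⟨fun j => c (e.symm j), fun j hj => hc1 _ hj, hc2.trans ?_⟩
      exact (e.symm.sum_comp fun j => c j • (b j.1.1 j.2 : V)).symm
    · intro w c hc hs j
      have h1 := h.2 w (fun j => c (e j)) (fun j hj => by
        have := hc (e j) hj
        simpa using this) (by
        rw [← hs, ← e.sum_comp]
        refine Finset.sum_congr rfl fun j _ => ?_
        change _ = c (e j) • (b (e.symm (e j)).1.1 (e.symm (e j)).2 : V)
        rw [e.symm_apply_apply]) (e.symm j)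
      simpa using h1
  constructor
  · intro w x hx
    by_cases hw : B w = ⊥
    · refine ⟨fun _ => 0, fun j hj => absurd rfl hj, ?_⟩
      rw [hw, Submodule.mem_bot] at hx
      simp [hx]
    · refine ⟨fun j => if h : j.1.1 = w then (b j.1.1).repr ⟨x, h ▸ hx⟩ j.2 else 0,
        fun j hj => by
          by_contra h
          exact hj (dif_neg h), ?_⟩
      rw [Fintype.sum_sigma, Finset.sum_eq_single (⟨w, hw⟩ : {w | B w ≠ ⊥})]
      · have h1 := (b w).sum_repr ⟨x, hx⟩
        have h2 := congrArg (Submodule.subtype (B w)) h1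
        rw [map_sum] at h2
        refine h2.symm.trans (Finset.sum_congr rfl fun s _ => ?_)
        simp only [dite_true]
        rfl
      · intro w' _ hw'
        refine Finset.sum_eq_zero fun s _ => ?_
        have h0 : ¬ (w'.1 = w) := fun h => hw' (Subtype.ext h)
        simp only [h0, dite_false, zero_smul]
      · intro h
        exact absurd (Finset.mem_univ _) h
  · intro w c hc hs
    by_cases hw : B w = ⊥
    · intro j
      by_contra h
      exact j.1.2 (hc j h ▸ hw)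
    · rw [Fintype.sum_sigma, Finset.sum_eq_single (⟨w, hw⟩ : {w | B w ≠ ⊥})] at hs
      · have h1 : ∑ s, c ⟨⟨w, hw⟩, s⟩ • b w s = 0 := by
          apply Subtype.ext
          rw [Submodule.coe_sum]
          exact hs
        have h2 := Fintype.linearIndependent_iff.1 (b w).linearIndependent _ h1
        rintro ⟨⟨w', hw'⟩, s⟩
        by_contra h
        obtain rfl : w' = w := hc _ h
        exact h (h2 s)
      · intro w' _ hw'
        refine Finset.sum_eq_zero fun s _ => ?_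
        have : c ⟨w', s⟩ = 0 := by
          by_contra h
          exact hw' (Subtype.ext (hc _ h))
        rw [this, zero_smul]
      · intro h
        exact absurd (Finset.mem_univ _) h

/-- The main induction. -/
theorem basis_of_mod {F : Mat_ (LB lam)} (N : ∀ w : LB lam, Submodule k ((E lam).obj w ⟶ F))
    (hR : ∀ (w w' : LB lam) (f : w' ⟶ w) (u : (E lam).obj w ⟶ F), IsR f → u ∈ N w →
      (E lam).map f ≫ u ∈ N w')
    (hdec : ∀ (w : LB lam) (u : (E lam).obj w ⟶ F), u ∈ N w → eps w F u = 0 →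
      ∃ a ∈ N (sh w), ∃ b ∈ N (sh w), u = (E lam).map (T 0 w) ≫ a + (E lam).map (T 1 w) ≫ b)
    (hkos : ∀ (w : LB lam) (p q : (E lam).obj (sh w) ⟶ F), p ∈ N (sh w) → q ∈ N (sh w) →
      (E lam).map (T 0 w) ≫ p + (E lam).map (T 1 w) ≫ q = 0 →
      ∃ t ∈ N (sh (sh w)), p = (E lam).map (T 1 (sh w)) ≫ t ∧
        q = -((E lam).map (T 0 (sh w)) ≫ t))
    {J : Type} [Fintype J] (z : J → LB lam) (m : ∀ j, (E lam).obj (z j) ⟶ F)
    (hm : ∀ j, m j ∈ N (z j))
    (hG : ∀ (w : LB lam) (u : (E lam).obj w ⟶ F), u ∈ N w → ∃ c : J → k,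
      (∀ j, c j ≠ 0 → z j = w) ∧ eps w F u = ∑ j, c j • eps (z j) F (m j))
    (hU : ∀ (w : LB lam) (c : J → k), (∀ j, c j ≠ 0 → z j = w) →
      ∑ j, c j • eps (z j) F (m j) = 0 → ∀ j, c j = 0)
    (w : LB lam) (u : (E lam).obj w ⟶ F) (hu : u ∈ N w) :
    ∃! f : ∀ j, w ⟶ z j, (∀ j, IsR (f j)) ∧ u = ∑ j, (E lam).map (f j) ≫ m j := by
  obtain ⟨K₁, hK₁⟩ := exists_bound fun i : F.ι => (F.X i).z.a
  obtain ⟨K₂, hK₂⟩ := exists_bound fun j : J => (z j).z.a
  have hsh : ∀ w : LB lam, (sh w).z.a = w.z.a + 1 := fun w => by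
    change (w.z + LG.c).a = _
    rw [LG.add_a]
    simp
  -- generation
  have gen : ∀ (d : ℕ) (w : LB lam), K₁ + 1 - w.z.a ≤ d → ∀ u ∈ N w, ∃ f : ∀ j, w ⟶ z j,
      (∀ j, IsR (f j)) ∧ u = ∑ j, (E lam).map (f j) ≫ m j := by
    intro d
    induction d with
    | zero =>
      intro w hw u hu
      refine ⟨fun j => 0, fun j => isR_zero _ _, ?_⟩
      rw [eq_zero_of_lt K₁ hK₁ (by push_cast at hw; omega) u]
      exact (Finset.sum_eq_zero fun j _ => by
        rw [Functor.map_zero, zero_comp]).symm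
    | succ d ih =>
      intro w hw u hu
      obtain ⟨c, hc1, hc2⟩ := hG w u hu
      classical
      let f0 : ∀ j, w ⟶ z j := fun j => if h : w = z j then c j • eqToHom h else 0
      have hf0 : ∀ j, LB.Hom.f (f0 j) = iota lam (C (c j)) := by
        intro j
        have hC : iota lam (C (c j)) = c j • (1 : S lam) := by
          rw [← algebraMap_eq, AlgHom.commutes, Algebra.algebraMap_eq_smul_one]
        by_cases h : w = z j
        · simp only [f0]
          rw [dif_pos h, LB.smul_f, eqToHom_f, hC]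
        · simp only [f0]
          have h0 : c j = 0 := by
            by_contra h1
            exact h (hc1 j h1).symm
          rw [dif_neg h, h0, C_0, map_zero]
          rfl
      have hf0R : ∀ j, IsR (f0 j) := fun j => ⟨C (c j), (hf0 j).symm⟩
      have hsum : (∑ j, (E lam).map (f0 j) ≫ m j) ∈ N w :=
        Submodule.sum_mem _ fun j _ => hR _ _ _ _ (hf0R j) (hm j)
      have heps : eps w F (u - ∑ j, (E lam).map (f0 j) ≫ m j) = 0 := by
        rw [map_sub, map_sum, hc2, sub_eq_zero]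
        exact Finset.sum_congr rfl fun j _ => by
          rw [eps_comp _ _ (hf0 j), coeff_zero_C]
      obtain ⟨a, ha, b, hb, hab⟩ := hdec w _ (Submodule.sub_mem _ hu hsum) heps
      obtain ⟨f1, hf1, ha1⟩ := ih (sh w) (by rw [hsh]; push_cast at hw; omega) a ha
      obtain ⟨f2, hf2, hb1⟩ := ih (sh w) (by rw [hsh]; push_cast at hw; omega) b hb
      refine ⟨fun j => f0 j + (T 0 w ≫ f1 j + T 1 w ≫ f2 j), fun j => (hf0R j).add
        (((isR_T 0 w).comp (hf1 j)).add ((isR_T 1 w).comp (hf2 j))), ?_⟩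
      rw [sub_eq_iff_eq_add'] at hab
      rw [hab, ha1, hb1, Preadditive.comp_sum, Preadditive.comp_sum, ← Finset.sum_add_distrib,
        ← Finset.sum_add_distrib]
      exact Finset.sum_congr rfl fun j _ => by
        rw [E_add, E_add, E_comp_comp_f, E_comp_comp_f]
  -- uniqueness
  have uniq : ∀ (d : ℕ) (w : LB lam), K₂ + 1 - w.z.a ≤ d → ∀ f : ∀ j, w ⟶ z j,
      (∀ j, IsR (f j)) → ∑ j, (E lam).map (f j) ≫ m j = 0 → ∀ j, f j = 0 := by
    intro d
    induction d with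
    | zero =>
      intro w hw f _ _ j
      refine LB.hom_eq_zero ?_ (f j)
      rw [LG.sub_a]
      have := hK₂ j
      push_cast at hw
      omega
    | succ d ih =>
      intro w hw f hf hsum
      choose r hr using hf
      have hc : ∀ j, coeff 0 (r j) = 0 := by
        refine hU w (fun j => coeff 0 (r j)) (fun j hj => eq_of_coeff_ne_zero (f j) (r j)
          (hr j).symm hj) ?_
        have h1 := congrArg (eps w F) hsum
        rw [map_sum, map_zero] at h1
        rw [← h1]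
        exact Finset.sum_congr rfl fun j _ => (eps_comp _ _ (hr j).symm _).symm
      have hdecj := fun j => isR_decomp (f j) (r j) (hr j).symm (hc j)
      choose f1 f2 h1 h2 h3 using hdecj
      have hp : (∑ j, (E lam).map (f1 j) ≫ m j) ∈ N (sh w) :=
        Submodule.sum_mem _ fun j _ => hR _ _ _ _ (h1 j) (hm j)
      have hq : (∑ j, (E lam).map (f2 j) ≫ m j) ∈ N (sh w) :=
        Submodule.sum_mem _ fun j _ => hR _ _ _ _ (h2 j) (hm j)
      obtain ⟨t, ht, ht1, ht2⟩ := hkos w _ _ hp hq (by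
        rw [Preadditive.comp_sum, Preadditive.comp_sum, ← Finset.sum_add_distrib, ← hsum]
        exact Finset.sum_congr rfl fun j _ => by
          rw [h3 j, E_add, E_comp_comp_f, E_comp_comp_f])
      obtain ⟨s, hs, hs1⟩ := gen (K₁ + 1 - (sh (sh w)).z.a).toNat (sh (sh w))
        (Int.self_le_toNat _) t ht
      have e1 := ih (sh w) (by rw [hsh]; push_cast at hw; omega)
        (fun j => f1 j - T 1 (sh w) ≫ s j)
        (fun j => (h1 j).sub ((isR_T 1 _).comp (hs j))) (by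
          rw [Finset.sum_congr rfl fun j _ => (E_sub _ _ _), Finset.sum_sub_distrib, ht1, hs1,
            Preadditive.comp_sum, sub_eq_zero]
          exact Finset.sum_congr rfl fun j _ => by rw [E_comp_comp_f])
      have e2 := ih (sh w) (by rw [hsh]; push_cast at hw; omega)
        (fun j => f2 j + T 0 (sh w) ≫ s j)
        (fun j => (h2 j).add ((isR_T 0 _).comp (hs j))) (by
          rw [Finset.sum_congr rfl fun j _ => (E_add _ _ _), Finset.sum_add_distrib, ht2, hs1,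
            Preadditive.comp_sum, neg_add_eq_zero]
          exact Finset.sum_congr rfl fun j _ => by rw [E_comp_comp_f])
      intro j
      have e1j : f1 j = T 1 (sh w) ≫ s j := sub_eq_zero.1 (e1 j)
      have e2j : f2 j = -(T 0 (sh w) ≫ s j) := eq_neg_of_add_eq_zero_left (e2 j)
      rw [h3 j, e1j, e2j]
      refine LB.hom_ext ?_
      rw [LB.add_f, LB.comp_f, LB.comp_f, LB.comp_f, LB.neg_f, LB.comp_f, T_f, T_f, T_f, T_f,
        LB.zero_f]
      ring
  obtain ⟨f, hf, hfu⟩ := gen (K₁ + 1 - w.z.a).toNat w (Int.self_le_toNat _) u hu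
  refine ⟨f, ⟨hf, hfu⟩, ?_⟩
  rintro g ⟨hg, hgu⟩
  have h := uniq (K₂ + 1 - w.z.a).toNat w (Int.self_le_toNat _) (fun j => g j - f j)
    (fun j => (hg j).sub (hf j)) (by
      rw [Finset.sum_congr rfl fun j _ => (E_sub _ _ _), Finset.sum_sub_distrib, ← hfu, ← hgu,
        sub_self])
  funext j
  exact sub_eq_zero.1 (h j)

theorem finite_eps (F : Mat_ (LB lam)) :
    {w : LB lam | ∃ u : (E lam).obj w ⟶ F, eps w F u ≠ 0}.Finite := by
  have h : {w : LB lam | ∃ u : (E lam).obj w ⟶ F, eps w F u ≠ 0} ⊆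
      Set.range fun x : F.ι × Finset (Fin n) =>
        (⟨⟨x.2, (F.X x.1).z.a - (x.2 \ (F.X x.1).z.I).card⟩⟩ : LB lam) := by
    rintro w ⟨u, hu⟩
    obtain ⟨i, hi⟩ := Function.ne_iff.1 hu
    have h1 := a_eq_zero_of_red lam (LB.Hom.mem (ent u i)) hi
    rw [LG.sub_a] at h1
    refine ⟨(i, w.z.I), ?_⟩
    obtain ⟨⟨I, a⟩⟩ := w
    have h2 : (F.X i).z.a - (I \ (F.X i).z.I).card = a := by
      simp only at h1
      omega
    simp only [h2]
  exact (Set.finite_range _).subset h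

end Mat

end RBasis

open RBasis in
/-- A graded `k[T₀, T₁]`-direct summand of a finite sum of line bundles is free over
`k[T₀, T₁]`. -/
theorem exists_basis_of_retract {lam : Fin n → Fin 2 → k} (F : Mat_ (LB lam))
    (N : ∀ w : LB lam, Submodule k ((Mat_.embedding (LB lam)).obj w ⟶ F))
    (hN : ∀ {w w' : LB lam} (f : w' ⟶ w) (u : (Mat_.embedding (LB lam)).obj w ⟶ F), u ∈ N w →
      (Mat_.embedding (LB lam)).map f ≫ u ∈ N w')
    (pi : ∀ w : LB lam, ((Mat_.embedding (LB lam)).obj w ⟶ F) →ₗ[k]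
      ((Mat_.embedding (LB lam)).obj w ⟶ F))
    (h1 : ∀ w u, pi w u ∈ N w) (h2 : ∀ w u, u ∈ N w → pi w u = u)
    (h3 : ∀ (j : Fin 2) (w w' : LB lam) (f : w' ⟶ w), LB.Hom.f f = tt lam j → ∀ u,
      pi w' ((Mat_.embedding (LB lam)).map f ≫ u) = (Mat_.embedding (LB lam)).map f ≫ pi w u) :
    ∃ (r : ℕ) (z : Fin r → LB lam) (m : ∀ j, (Mat_.embedding (LB lam)).obj (z j) ⟶ F),
      (∀ j, m j ∈ N (z j)) ∧ ∀ w u, u ∈ N w → ∃! f : ∀ j, w ⟶ z j,
        (∀ j, LB.Hom.f (f j) ∈ (iota lam).range) ∧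
          u = ∑ j, (Mat_.embedding (LB lam)).map (f j) ≫ m j := by
  obtain ⟨r, z, v, hv, hG, hU⟩ := exists_index (k := k) (fun w : LB lam => (N w).map (eps w F))
    ((finite_eps F).subset fun w hw => by
      obtain ⟨x, hx, hx0⟩ := Submodule.exists_mem_ne_zero_of_ne_bot hw
      obtain ⟨u, _, rfl⟩ := hx
      exact ⟨u, hx0⟩)
  choose m hm hmv using hv
  refine ⟨r, z, m, hm, fun w u hu => basis_of_mod N (fun w w' f u _ hu => hN f u hu) ?_ ?_ z m hm
    ?_ ?_ w u hu⟩
  · intro w u hu h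
    obtain ⟨a, b, hab⟩ := decomp_of_eps u h
    refine ⟨pi _ a, h1 _ _, pi _ b, h1 _ _, ?_⟩
    rw [← h3 0 _ _ (T 0 w) rfl, ← h3 1 _ _ (T 1 w) rfl, ← map_add, ← hab, h2 _ _ hu]
  · intro w p q hp hq h
    obtain ⟨t, ht1, ht2⟩ := koszul_mat p q h
    refine ⟨pi _ t, h1 _ _, ?_, ?_⟩
    · rw [← h3 1 _ _ (T 1 (sh w)) rfl, ← ht1, h2 _ _ hp]
    · rw [← h3 0 _ _ (T 0 (sh w)) rfl, ← map_neg, ← ht2, h2 _ _ hq]
  · intro w u hu
    obtain ⟨c, hc1, hc2⟩ := hG w (eps w F u) ⟨u, hu, rfl⟩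
    exact ⟨c, hc1, by simpa only [hmv] using hc2⟩
  · intro w c hc h
    exact hU w c hc (by simpa only [hmv] using h)

end Lens
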