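import Pool.Agent.Lens.TwErase

/-!
# Bounded complexes over `Mat_ 𝓐` as finite data
-/

set_option autoImplicit false
set_option linter.unusedSectionVars false

open CategoryTheory CategoryTheory.Limits CategoryTheory.Pretriangulated

namespace Lens

universe v u

namespace Tw

variable {𝓐 : Type u} [Category.{v} 𝓐] [Preadditive 𝓐] (X : CochainComplex (Mat_ 𝓐) ℤ)

/-- all objects of the complex -/
abbrev amb : Type := Σ m : ℤ, (X.X m).ι

/-- the object with a given index -/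
abbrev ambP (x : amb X) : 𝓐 := (X.X x.1).X x.2

/-- the matrix of the differential -/
def ambD (x y : amb X) : ambP X x ⟶ ambP X y := X.d x.1 y.1 x.2 y.2

/-- the finite data of the part of `X` in degrees between `-N` and `N` -/
noncomputable def ofBdd (N : ℕ) : Tw 𝓐 where
  ι := Σ m : {m : ℤ // m ∈ Finset.Icc (-(N : ℤ)) N}, (X.X m.1).ι
  deg x := x.1.1
  P x := (X.X x.1.1).X x.2
  D x y := X.d x.1.1 y.1.1 x.2 y.2
  D_deg x y h := by
    rw [X.shape _ _ (fun h' => h (by rw [ComplexShape.up_Rel] at h'; exact h'.symm))]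
    rfl
  D_D x y := by
    rw [Fintype.sum_sigma]
    refine Finset.sum_eq_zero fun m _ => ?_
    have h := congrFun (congrFun (X.d_comp_d x.1.1 m.1 y.1.1) x.2) y.2
    exact h

/-- the index of an element of `ofBdd X N` -/
def toAmb (N : ℕ) (m : ℤ) (x : ((ofBdd X N).obj m).ι) : amb X := ⟨x.1.1.1, x.1.2⟩

/-- the index of an element of `X.X m` -/
def ofX (m : ℤ) (i : (X.X m).ι) : amb X := ⟨m, i⟩

theorem ofX_inj (m : ℤ) : Function.Injective (ofX X m) := by
  intro i j h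
  have h1 : (⟨m, i⟩ : amb X) = ⟨m, j⟩ := h
  exact eq_of_heq (Sigma.mk.inj h1).2

theorem toAmb_inj (N : ℕ) (m : ℤ) : Function.Injective (toAmb X N m) := by
  rintro ⟨⟨⟨a, ha⟩, i⟩, hi⟩ ⟨⟨⟨b, hb⟩, j⟩, hj⟩ h
  have h1 : (⟨a, i⟩ : amb X) = ⟨b, j⟩ := h
  obtain ⟨h2, h3⟩ := Sigma.mk.inj h1
  subst h2
  obtain rfl := eq_of_heq h3
  rfl

variable {X} {N : ℕ}

theorem exists_toAmb (hX : ∀ m, m < -(N : ℤ) ∨ (N : ℤ) < m → IsEmpty (X.X m).ι) (m : ℤ)
    (i : (X.X m).ι) : ∃ x, toAmb X N m x = ofX X m i := by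
  have h : m ∈ Finset.Icc (-(N : ℤ)) N := by
    rw [Finset.mem_Icc]
    by_contra h
    have h1 := hX m (by omega)
    exact h1.elim i
  exact ⟨⟨⟨⟨m, h⟩, i⟩, rfl⟩, rfl⟩

theorem exists_ofX (m : ℤ) (x : ((ofBdd X N).obj m).ι) : ∃ i, ofX X m i = toAmb X N m x := by
  obtain ⟨⟨⟨a, ha⟩, i⟩, hi⟩ := x
  change a = m at hi
  subst hi
  exact ⟨i, rfl⟩

/-- the isomorphism in degree `m` -/
noncomputable def bddIso (hX : ∀ m, m < -(N : ℤ) ∨ (N : ℤ) < m → IsEmpty (X.X m).ι) (m : ℤ) :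
    (ofBdd X N).obj m ≅ X.X m where
  hom := (fun x i => sel (ambP X) (toAmb X N m) (ofX X m) x i : (ofBdd X N).obj m ⟶ X.X m)
  inv := (fun i x => sel (ambP X) (ofX X m) (toAmb X N m) i x : X.X m ⟶ (ofBdd X N).obj m)
  hom_inv_id := by
    refine Eq.trans ?_ (sel_self (P := ambP X) (toAmb X N m) (toAmb_inj X N m))
    ext x y
    exact sel_comp (P := ambP X) (toAmb X N m) (ofX X m) (toAmb X N m) (ofX_inj X m) x y
      (fun _ => (exists_ofX m x).imp fun _ h => h.symm)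
  inv_hom_id := by
    refine Eq.trans ?_ (sel_self (P := ambP X) (ofX X m) (ofX_inj X m))
    ext i j
    exact sel_comp (P := ambP X) (ofX X m) (toAmb X N m) (ofX X m) (toAmb_inj X N m) i j
      (fun _ => (exists_toAmb hX m i).imp fun _ h => h.symm)

/-- a bounded complex is given by finite data -/
noncomputable def ofBddIso (hX : ∀ m, m < -(N : ℤ) ∨ (N : ℤ) < m → IsEmpty (X.X m).ι) :
    (ofBdd X N).toCpx ≅ X :=
  HomologicalComplex.Hom.isoOfComponents (fun m => bddIso hX m) (by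
    intro m m' _
    ext x j
    rw [Mat_.comp_apply]
    have h1 := sum_sel (P := ambP X) (toAmb X N m) (ofX X m) (ofX_inj X m)
      (fun y => ambD X y (ofX X m' j)) x
    obtain ⟨i, hi⟩ := exists_ofX m x
    have h2 := h1 i hi.symm
    refine Eq.trans h2 ?_
    obtain ⟨y, hy⟩ := exists_toAmb hX m' j
    have h3 := sum_sel' (P := ambP X) (toAmb X N m') (ofX X m') (toAmb_inj X N m')
      (fun z => ambD X (toAmb X N m x) z) y j hy
    exact h3.symm)

/-- A bounded complex lies in every triangulated subcategory containing its terms. -/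
theorem mem_of_bdd (hX : ∀ m, m < -(N : ℤ) ∨ (N : ℤ) < m → IsEmpty (X.X m).ι)
    (P : ObjectProperty (HomotopyCategory (Mat_ 𝓐) (ComplexShape.up ℤ)))
    [P.IsTriangulated] [P.IsClosedUnderIsomorphisms]
    (h : ∀ m (i : (X.X m).ι), P (single ((X.X m).X i)).toK) :
    P ((HomotopyCategory.quotient (Mat_ 𝓐) (ComplexShape.up ℤ)).obj X) :=
  P.prop_of_iso ((HomotopyCategory.quotient (Mat_ 𝓐) (ComplexShape.up ℤ)).mapIso (ofBddIso hX))
    ((ofBdd X N).mem_of_terms P fun x => h x.1.1 x.2)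

end Tw

end Lens
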