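import Mathlib

/-!
# The rank one group `L = ⟨x_1, …, x_n, c ∣ 2 x_i = c⟩`

Every element of `L` is uniquely `x_I + a c` with `I` a set of indices and `a` an integer; this
normal form is the definition used here, and `LG.lift_unique_exists` is the universal property.
-/

open Finset
open scoped symmDiff

namespace Lens

/-- The group `L(2,…,2)` in normal form: `⟨I, a⟩` is the element `∑_{i ∈ I} x_i + a c`. -/
@[ext]
structure LG (n : ℕ) where
  /-- the set `I` in `x_I + a c` -/
  I : Finset (Fin n)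
  /-- the integer `a` in `x_I + a c` -/
  a : ℤ
  deriving DecidableEq

namespace LG

variable {n : ℕ}

instance : Zero (LG n) := ⟨⟨∅, 0⟩⟩
instance : Add (LG n) := ⟨fun x y => ⟨x.I ∆ y.I, x.a + y.a + (x.I ∩ y.I).card⟩⟩
instance : Neg (LG n) := ⟨fun x => ⟨x.I, - x.a - x.I.card⟩⟩

@[simp] theorem zero_I : (0 : LG n).I = ∅ := rfl
@[simp] theorem zero_a : (0 : LG n).a = 0 := rfl
@[simp] theorem add_I (x y : LG n) : (x + y).I = x.I ∆ y.I := rfl
@[simp] theorem add_a (x y : LG n) : (x + y).a = x.a + y.a + (x.I ∩ y.I).card := rfl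
@[simp] theorem neg_I (x : LG n) : (-x).I = x.I := rfl
@[simp] theorem neg_a (x : LG n) : (-x).a = - x.a - x.I.card := rfl

/-- the degree `L → ℤ` with `x_i ↦ 1`, `c ↦ 2` -/
def dg (x : LG n) : ℤ := 2 * x.a + x.I.card

theorem card_symmDiff_add (s t : Finset (Fin n)) :
    (s ∆ t).card + 2 * (s ∩ t).card = s.card + t.card := by
  have h1 : (s ∆ t).card = (s \ t).card + (t \ s).card := by
    rw [symmDiff_def, sup_eq_union, card_union_of_disjoint]
    exact disjoint_sdiff_sdiff
  have h2 := card_sdiff_add_card_inter s t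
  have h3 := card_sdiff_add_card_inter t s
  rw [inter_comm t s] at h3
  omega

theorem dg_add (x y : LG n) : dg (x + y) = dg x + dg y := by
  have := card_symmDiff_add x.I y.I
  simp only [dg, add_I, add_a]
  have h : ((x.I ∆ y.I).card : ℤ) + 2 * (x.I ∩ y.I).card = x.I.card + y.I.card := by
    exact_mod_cast this
  linarith

theorem ext_dg {x y : LG n} (hI : x.I = y.I) (hd : dg x = dg y) : x = y := by
  have : x.a = y.a := by
    simp only [dg, hI] at hd
    linarith
  exact LG.ext hI this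

instance : AddCommGroup (LG n) where
  add_assoc x y z := ext_dg (symmDiff_assoc _ _ _) (by simp only [dg_add, add_assoc])
  zero_add x := ext_dg (by simp) (by simp only [dg_add]; simp [dg])
  add_zero x := ext_dg (by simp) (by simp only [dg_add]; simp [dg])
  add_comm x y := ext_dg (symmDiff_comm _ _) (by simp only [dg_add, add_comm])
  neg_add_cancel x := ext_dg (by simp) (by
    simp only [dg_add]
    simp only [dg, neg_a, neg_I, zero_a, zero_I, card_empty]
    push_cast
    ring)
  nsmul := nsmulRec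
  zsmul := zsmulRec

@[simp] theorem sub_I (x y : LG n) : (x - y).I = x.I ∆ y.I := by
  rw [sub_eq_add_neg]; rfl

theorem dg_neg (x : LG n) : dg (-x) = - dg x := by
  simp only [dg, neg_a, neg_I]; ring

theorem dg_sub (x y : LG n) : dg (x - y) = dg x - dg y := by
  rw [sub_eq_add_neg, dg_add, dg_neg]; ring

@[simp] theorem sub_a (x y : LG n) : (x - y).a = x.a - y.a - (y.I \ x.I).card := by
  have h1 := dg_sub x y
  simp only [dg, sub_I] at h1
  have h2 : (x.I ∆ y.I).card = (x.I \ y.I).card + (y.I \ x.I).card := by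
    rw [symmDiff_def, sup_eq_union, card_union_of_disjoint]
    exact disjoint_sdiff_sdiff
  have h3 := card_sdiff_add_card_inter x.I y.I
  have h4 := card_sdiff_add_card_inter y.I x.I
  rw [inter_comm y.I x.I] at h4
  zify at h2 h3 h4
  linarith

/-- the generator `x_i` -/
def x (i : Fin n) : LG n := ⟨{i}, 0⟩

/-- the canonical element `c` -/
def c : LG n := ⟨∅, 1⟩

/-- the element `x_I = ∑_{i ∈ I} x_i` -/
def xs (I : Finset (Fin n)) : LG n := ⟨I, 0⟩

@[simp] theorem x_I (i : Fin n) : (x i).I = {i} := rfl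
@[simp] theorem x_a (i : Fin n) : (x i).a = 0 := rfl
@[simp] theorem c_I : (c : LG n).I = ∅ := rfl
@[simp] theorem c_a : (c : LG n).a = 1 := rfl
@[simp] theorem xs_I (I : Finset (Fin n)) : (xs I).I = I := rfl
@[simp] theorem xs_a (I : Finset (Fin n)) : (xs I).a = 0 := rfl

theorem two_x (i : Fin n) : x i + x i = c := by
  ext1 <;> simp

@[simp] theorem nsmul_c (m : ℕ) : m • (c : LG n) = ⟨∅, m⟩ := by
  induction m with
  | zero => simp; rfl
  | succ m ih =>
    rw [succ_nsmul, ih]
    ext1 <;> simp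

@[simp] theorem zsmul_c (m : ℤ) : m • (c : LG n) = ⟨∅, m⟩ := by
  obtain ⟨m, rfl | rfl⟩ := m.eq_nat_or_neg
  · rw [natCast_zsmul, nsmul_c]
  · rw [neg_zsmul, natCast_zsmul, nsmul_c]
    ext1 <;> simp

theorem xs_eq_sum (I : Finset (Fin n)) : xs I = ∑ i ∈ I, x i := by
  induction I using Finset.induction_on with
  | empty => rfl
  | insert i I hi ih =>
    rw [sum_insert hi, ← ih]
    ext1
    · simp only [add_I, x_I, xs_I]
      ext j
      simp only [mem_insert, mem_symmDiff, mem_singleton]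
      by_cases h : j = i
      · subst h; simp [hi]
      · simp [h]
    · simp [hi]

/-- normal form: every element is `x_I + a c` -/
theorem eq_xs_add (y : LG n) : y = xs y.I + y.a • c := by
  rw [zsmul_c]
  ext1
  · exact (symmDiff_bot y.I).symm
  · simp

theorem sum_symmDiff_add {A : Type*} [AddCommGroup A] (s t : Finset (Fin n)) (f : Fin n → A) :
    ∑ i ∈ s ∆ t, f i + ∑ i ∈ s ∩ t, (f i + f i) = ∑ i ∈ s, f i + ∑ i ∈ t, f i := by
  have h1 : ∑ i ∈ s ∆ t, f i = ∑ i ∈ s \ t, f i + ∑ i ∈ t \ s, f i := by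
    rw [symmDiff_def, sup_eq_union, sum_union]
    exact disjoint_sdiff_sdiff
  have h2 := sum_inter_add_sum_sdiff s t f
  have h3 := sum_inter_add_sum_sdiff t s f
  rw [inter_comm t s] at h3
  rw [h1, sum_add_distrib, ← h2, ← h3]
  abel

/-- The universal property of `L = ⟨x_1, …, x_n, c ∣ 2 x_i = c⟩`. -/
theorem existsUnique_lift {A : Type*} [AddCommGroup A] (y : Fin n → A) (d : A)
    (h : ∀ i, y i + y i = d) :
    ∃! φ : LG n →+ A, (∀ i, φ (x i) = y i) ∧ φ c = d := by
  refine ⟨⟨⟨fun z => ∑ i ∈ z.I, y i + z.a • d, by simp⟩, fun z w => ?_⟩, ⟨?_, ?_⟩, ?_⟩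
  · have h1 := sum_symmDiff_add z.I w.I y
    have h2 : ∑ i ∈ z.I ∩ w.I, (y i + y i) = ((z.I ∩ w.I).card : ℤ) • d := by
      rw [sum_congr rfl fun i _ => h i, sum_const, natCast_zsmul]
    rw [h2] at h1
    simp only [add_I, add_a, add_smul]
    rw [add_add_add_comm (∑ i ∈ z.I, y i), ← h1]
    abel
  · intro i
    simp
  · simp
  · rintro φ ⟨h1, h2⟩
    ext z
    conv_lhs => rw [eq_xs_add z]
    rw [map_add, map_zsmul, h2, xs_eq_sum, map_sum]
    simp [h1]

end LG

end Lens
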