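import Mathlib
import Pool.Agent.Lens.LG

/-!
# The `L`-graded coordinate ring `S` of the weighted projective line with weights `(2,…,2)`

* `R k = k[T_0, T_1]`, `form lam i = lam i 0 * T_0 + lam i 1 * T_1`
* `S lam = k[T_0, T_1, x_1, …, x_n] / (x_i ^ 2 - form lam i)`
* `piece lam z`: the homogeneous part `S_z`, for `z : LG n` (`deg T_j = c`, `deg x_i = x_i`)
* `S` is free over `R` with basis `x_I = ∏_{i ∈ I} x_i`, and `S_{x_I + m c} = x_I R_m`.
-/

open MvPolynomial
open scoped symmDiff

namespace Lens

universe u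

variable {k : Type u} [Field k] {n : ℕ}

variable (k) in
/-- `R = k[T_0, T_1]` -/
abbrev R : Type u := MvPolynomial (Fin 2) k

/-- the linear form `ℓ_i = lam i 0 * T_0 + lam i 1 * T_1` in `R` -/
noncomputable def form (lam : Fin n → Fin 2 → k) (i : Fin n) : R k :=
  ∑ j, C (lam i j) * X j

variable (k n) in
/-- `k[T_0, T_1, x_1, …, x_n]` -/
abbrev Big : Type u := MvPolynomial (Fin 2 ⊕ Fin n) k

/-- the ideal `(x_i ^ 2 - ℓ_i)` -/
noncomputable def relIdeal (lam : Fin n → Fin 2 → k) : Ideal (Big k n) :=
  Ideal.span (Set.range fun i : Fin n =>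
    (X (Sum.inr i) ^ 2 - ∑ j, C (lam i j) * X (Sum.inl j) : Big k n))

/-- the coordinate ring `S = k[T_0, T_1, x_1, …, x_n] / (x_i ^ 2 - ℓ_i)` -/
abbrev S (lam : Fin n → Fin 2 → k) : Type u := Big k n ⧸ relIdeal lam

/-- the grading of the variables: `deg T_j = c`, `deg x_i = x_i` -/
def wt (n : ℕ) : Fin 2 ⊕ Fin n → LG n := Sum.elim (fun _ => LG.c) LG.x

/-- the homogeneous component `S_z` -/
noncomputable def piece (lam : Fin n → Fin 2 → k) (z : LG n) : Submodule k (S lam) :=
  (weightedHomogeneousSubmodule k (wt n) z).map (Ideal.Quotient.mkₐ k (relIdeal lam)).toLinearMap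

/-- `R → S` -/
noncomputable def iota (lam : Fin n → Fin 2 → k) : R k →ₐ[k] S lam :=
  (Ideal.Quotient.mkₐ k (relIdeal lam)).comp (rename Sum.inl)

/-- `x_i` in `S` -/
noncomputable def xx (lam : Fin n → Fin 2 → k) (i : Fin n) : S lam :=
  Ideal.Quotient.mk _ (X (Sum.inr i))

/-- `T_j` in `S` -/
noncomputable def tt (lam : Fin n → Fin 2 → k) (j : Fin 2) : S lam :=
  Ideal.Quotient.mk _ (X (Sum.inl j))

/-- `x_I = ∏ x_i` in `S` -/
noncomputable def xI (lam : Fin n → Fin 2 → k) (I : Finset (Fin n)) : S lam := ∏ i ∈ I, xx lam i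

section

variable (lam : Fin n → Fin 2 → k)

theorem iota_X (j : Fin 2) : iota lam (X j) = tt lam j := by
  simp [iota, tt]

theorem xx_sq (i : Fin n) : xx lam i ^ 2 = iota lam (form lam i) := by
  have h : (X (Sum.inr i) ^ 2 - ∑ j, C (lam i j) * X (Sum.inl j) : Big k n) ∈ relIdeal lam :=
    Ideal.subset_span ⟨i, rfl⟩
  rw [← Ideal.Quotient.eq_zero_iff_mem, map_sub, sub_eq_zero, map_pow] at h
  rw [xx, h, iota, form]
  simp

theorem mem_piece_mk {z : LG n} {p : Big k n} (hp : IsWeightedHomogeneous (wt n) p z) :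
    Ideal.Quotient.mk (relIdeal lam) p ∈ piece lam z :=
  ⟨p, hp, rfl⟩

theorem one_mem_piece : (1 : S lam) ∈ piece lam 0 :=
  ⟨1, isWeightedHomogeneous_one _ _, map_one (Ideal.Quotient.mk (relIdeal lam))⟩

theorem mul_mem_piece {y z : LG n} {f g : S lam} (hf : f ∈ piece lam y) (hg : g ∈ piece lam z) :
    f * g ∈ piece lam (y + z) := by
  obtain ⟨p, hp, rfl⟩ := hf
  obtain ⟨q, hq, rfl⟩ := hg
  exact ⟨p * q, IsWeightedHomogeneous.mul hp hq, map_mul (Ideal.Quotient.mk (relIdeal lam)) p q⟩

theorem xx_mem_piece (i : Fin n) : xx lam i ∈ piece lam (LG.x i) :=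
  mem_piece_mk lam (isWeightedHomogeneous_X k (wt n) (Sum.inr i))

theorem tt_mem_piece (j : Fin 2) : tt lam j ∈ piece lam LG.c :=
  mem_piece_mk lam (isWeightedHomogeneous_X k (wt n) (Sum.inl j))

instance : SetLike.GradedMonoid (piece lam) where
  one_mem := one_mem_piece lam
  mul_mem _ _ _ _ hf hg := mul_mem_piece lam hf hg

theorem xI_mem_piece (I : Finset (Fin n)) : xI lam I ∈ piece lam (LG.xs I) := by
  rw [LG.xs_eq_sum]
  exact SetLike.prod_mem_graded (piece lam) LG.x (xx lam) fun i _ => xx_mem_piece lam i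

theorem iota_mem_piece {m : ℕ} {r : R k} (hr : r.IsHomogeneous m) :
    iota lam r ∈ piece lam (m • LG.c) := by
  refine mem_piece_mk lam ?_
  intro d hd
  obtain ⟨e, rfl, he⟩ := coeff_rename_ne_zero _ _ _ hd
  have h1 := hr he
  rw [Finsupp.weight_apply] at h1 ⊢
  rw [Finsupp.sum_mapDomain_index (by simp) (by simp [add_smul])]
  have h2 : (e.sum fun a m => m • wt n (Sum.inl a)) = (e.sum fun _ m => m • (1:ℕ)) • LG.c := by
    rw [Finsupp.sum, Finsupp.sum, Finset.sum_smul]
    simp [wt]
  rw [h2]
  congr 1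

theorem xI_mul_xI (I K : Finset (Fin n)) :
    xI lam I * xI lam K = xI lam (I ∆ K) * iota lam (∏ i ∈ I ∩ K, form lam i) := by
  rw [map_prod]
  have h1 : (∏ i ∈ I ∩ K, iota lam (form lam i)) = xI lam (I ∩ K) * xI lam (I ∩ K) := by
    rw [xI, ← Finset.prod_mul_distrib]
    exact Finset.prod_congr rfl fun i _ => by rw [← xx_sq, sq]
  have h2 : xI lam (I ∆ K) = xI lam (I \ K) * xI lam (K \ I) := by
    rw [xI, symmDiff_def, Finset.sup_eq_union, Finset.prod_union]
    · rfl
    · exact disjoint_sdiff_sdiff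
  have h3 : xI lam (I ∩ K) * xI lam (I \ K) = xI lam I := Finset.prod_inter_mul_prod_sdiff I K _
  have h4 : xI lam (K ∩ I) * xI lam (K \ I) = xI lam K := Finset.prod_inter_mul_prod_sdiff K I _
  rw [h1, h2, ← h3, ← h4, Finset.inter_comm K I]
  ring

theorem xI_mul_xI_of_disjoint {I K : Finset (Fin n)} (h : Disjoint I K) :
    xI lam I * xI lam K = xI lam (I ∪ K) := (Finset.prod_union h).symm

/-! ### The coefficient functionals -/

/-- `T^m ∏ ℓ_i^{⌊m_i / 2⌋}` -/
noncomputable def monoPoly (m : Fin 2 ⊕ Fin n →₀ ℕ) : R k :=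
  (∏ j, X j ^ m (Sum.inl j)) * ∏ i, form lam i ^ (m (Sum.inr i) / 2)

/-- the variables `x_i` with odd exponents -/
def odds (m : Fin 2 ⊕ Fin n →₀ ℕ) : Finset (Fin n) :=
  Finset.univ.filter fun i => m (Sum.inr i) % 2 = 1

theorem mem_odds {m : Fin 2 ⊕ Fin n →₀ ℕ} {i : Fin n} : i ∈ odds m ↔ m (Sum.inr i) % 2 = 1 := by
  simp [odds]

theorem mk_monomial (m : Fin 2 ⊕ Fin n →₀ ℕ) :
    Ideal.Quotient.mk (relIdeal lam) (monomial m 1) = xI lam (odds m) * iota lam (monoPoly lam m) := by
  have h1 : (monomial m (1 : k) : Big k n) = ∏ v, X v ^ m v := by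
    rw [monomial_eq, C_1, one_mul, Finsupp.prod_fintype]
    simp
  have h2 : ∀ i : Fin n, xx lam i ^ m (Sum.inr i) =
      (if m (Sum.inr i) % 2 = 1 then xx lam i else 1) *
        iota lam (form lam i) ^ (m (Sum.inr i) / 2) := by
    intro i
    rw [← xx_sq, ← pow_mul]
    split_ifs with h
    · rw [← pow_succ']
      congr 1
      omega
    · rw [one_mul]
      congr 1
      omega
  rw [h1, Fintype.prod_sum_type, map_mul, map_prod, map_prod, monoPoly, map_mul, map_prod, map_prod]
  simp only [map_pow, iota_X]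
  have h3 : (∏ i : Fin n, Ideal.Quotient.mk (relIdeal lam) (X (Sum.inr i)) ^ m (Sum.inr i)) =
      xI lam (odds m) * ∏ i : Fin n, iota lam (form lam i) ^ (m (Sum.inr i) / 2) := by
    rw [xI, odds, Finset.prod_filter, ← Finset.prod_mul_distrib]
    exact Finset.prod_congr rfl fun i _ => h2 i
  rw [h3]
  simp only [tt]
  ring

/-- the coefficient of `x_I`, on `k[T, x]` -/
noncomputable def coefBig (I : Finset (Fin n)) : Big k n →ₗ[k] R k :=
  (basisMonomials (Fin 2 ⊕ Fin n) k).constr k fun m => if odds m = I then monoPoly lam m else 0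

theorem coefBig_monomial (I : Finset (Fin n)) (m : Fin 2 ⊕ Fin n →₀ ℕ) (a : k) :
    coefBig lam I (monomial m a) = a • if odds m = I then monoPoly lam m else 0 := by
  have h : (monomial m a : Big k n) = a • basisMonomials (Fin 2 ⊕ Fin n) k m := by
    simp [smul_monomial]
  rw [h, map_smul, coefBig, Module.Basis.constr_basis]

theorem coefBig_mul_rel (I : Finset (Fin n)) (i : Fin n) (q : Big k n) :
    coefBig lam I (q * (X (Sum.inr i) ^ 2 - ∑ j, C (lam i j) * X (Sum.inl j))) = 0 := by
  have key : (coefBig lam I) ∘ₗ (LinearMap.mulRight k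
      (X (Sum.inr i) ^ 2 - ∑ j, C (lam i j) * X (Sum.inl j) : Big k n)) = 0 := by
    refine (basisMonomials (Fin 2 ⊕ Fin n) k).ext fun m => ?_
    simp only [coe_basisMonomials, LinearMap.comp_apply, LinearMap.mulRight_apply,
      LinearMap.zero_apply]
    have h1 : (monomial m (1 : k) : Big k n) * X (Sum.inr i) ^ 2 =
        monomial (m + Finsupp.single (Sum.inr i) 2) 1 := by
      rw [X_pow_eq_monomial, monomial_mul, one_mul]
    have h2 : ∀ j, (monomial m (1 : k) : Big k n) * (C (lam i j) * X (Sum.inl j)) =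
        monomial (m + Finsupp.single (Sum.inl j) 1) (lam i j) := by
      intro j
      rw [C_mul_X_eq_monomial, monomial_mul, one_mul]
    rw [mul_sub, Finset.mul_sum, map_sub, map_sum, h1, Finset.sum_congr rfl fun j _ => by rw [h2 j],
      coefBig_monomial, Finset.sum_congr rfl fun j _ => coefBig_monomial lam I _ _]
    have e1 : ∀ l : Fin n, (m + Finsupp.single (Sum.inr i) 2 : Fin 2 ⊕ Fin n →₀ ℕ) (Sum.inr l) =
        m (Sum.inr l) + if l = i then 2 else 0 := by
      intro l
      by_cases h : l = i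
      · subst h; simp
      · simp [h]
    have e2 : ∀ l : Fin 2, (m + Finsupp.single (Sum.inr i) 2 : Fin 2 ⊕ Fin n →₀ ℕ) (Sum.inl l) =
        m (Sum.inl l) := by
      intro l; simp
    have e3 : ∀ (j : Fin 2) (l : Fin n),
        (m + Finsupp.single (Sum.inl j) 1 : Fin 2 ⊕ Fin n →₀ ℕ) (Sum.inr l) = m (Sum.inr l) := by
      intro j l; simp
    have e4 : ∀ (j l : Fin 2), (m + Finsupp.single (Sum.inl j) 1 : Fin 2 ⊕ Fin n →₀ ℕ) (Sum.inl l) =
        m (Sum.inl l) + if l = j then 1 else 0 := by
      intro j l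
      by_cases h : l = j
      · subst h; simp
      · simp [h]
    have h3 : odds (m + Finsupp.single (Sum.inr i) 2) = odds m := by
      ext l
      rw [mem_odds, mem_odds, e1]
      split_ifs <;> omega
    have h4 : ∀ j, odds (m + Finsupp.single (Sum.inl j) 1) = odds m := by
      intro j
      ext l
      rw [mem_odds, mem_odds, e3]
    have h5 : monoPoly lam (m + Finsupp.single (Sum.inr i) 2) = monoPoly lam m * form lam i := by
      have : ∀ l : Fin n, form lam l ^ ((m (Sum.inr l) + if l = i then 2 else 0) / 2) =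
          form lam l ^ (m (Sum.inr l) / 2) * (if l = i then form lam l else 1) := by
        intro l
        split_ifs with h
        · rw [← pow_succ]
          congr 1
          omega
        · simp
      simp only [monoPoly, e1, e2, this, Finset.prod_mul_distrib, Finset.prod_ite_eq',
        Finset.mem_univ, if_true]
      ring
    have h6 : ∀ j, monoPoly lam (m + Finsupp.single (Sum.inl j) 1) = monoPoly lam m * X j := by
      intro j
      have : ∀ l : Fin 2, (X l : R k) ^ (m (Sum.inl l) + if l = j then 1 else 0) =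
          X l ^ (m (Sum.inl l)) * (if l = j then X l else 1) := by
        intro l
        split_ifs with h
        · rw [pow_succ]
        · simp
      simp only [monoPoly, e3, e4, this, Finset.prod_mul_distrib, Finset.prod_ite_eq',
        Finset.mem_univ, if_true]
      ring
    rw [h3, h5]
    by_cases h : odds m = I
    · simp only [h, if_true, h4, h6, one_smul]
      rw [form, Finset.mul_sum, sub_eq_zero]
      exact Finset.sum_congr rfl fun j _ => by rw [smul_eq_C_mul]; ring
    · simp [h, h4]
  exact LinearMap.congr_fun key q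

theorem coefBig_eq_zero (I : Finset (Fin n)) {p : Big k n} (hp : p ∈ relIdeal lam) :
    coefBig lam I p = 0 := by
  suffices h : ∀ q, coefBig lam I (q * p) = 0 by simpa using h 1
  refine Submodule.span_induction ?_ ?_ ?_ ?_ hp
  · rintro _ ⟨i, rfl⟩ q
    exact coefBig_mul_rel lam I i q
  · intro q; simp
  · intro x y _ _ hx hy q
    rw [mul_add, map_add, hx, hy, add_zero]
  · intro a x _ hx q
    rw [smul_eq_mul, ← mul_assoc]
    exact hx _

/-- The coefficient of `x_I` (an `R`-linear functional `S → R`). -/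
noncomputable def coef (I : Finset (Fin n)) : S lam →ₗ[k] R k :=
  ((relIdeal lam).restrictScalars k).liftQ (coefBig lam I)
    (fun _ hp => coefBig_eq_zero lam I hp) ∘ₗ
      (Submodule.Quotient.restrictScalarsEquiv k (relIdeal lam)).symm.toLinearMap

theorem coef_mk (I : Finset (Fin n)) (p : Big k n) :
    coef lam I (Ideal.Quotient.mk _ p) = coefBig lam I p := rfl

theorem S_induction {P : S lam → Prop} (hadd : ∀ f g, P f → P g → P (f + g))
    (hsmul : ∀ (a : k) f, P f → P (a • f))
    (hm : ∀ m, P (Ideal.Quotient.mk (relIdeal lam) (monomial m 1))) (f : S lam) : P f := by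
  obtain ⟨p, rfl⟩ := Ideal.Quotient.mk_surjective f
  induction p using MvPolynomial.induction_on' with
  | monomial m b =>
    have : (monomial m b : Big k n) = b • monomial m 1 := by
      rw [smul_monomial]; simp
    rw [this]
    exact hsmul b _ (hm m)
  | add p q hp hq =>
    rw [map_add]
    exact hadd _ _ hp hq

theorem coef_mk_monomial (I : Finset (Fin n)) (m : Fin 2 ⊕ Fin n →₀ ℕ) :
    coef lam I (Ideal.Quotient.mk _ (monomial m 1)) =
      if odds m = I then monoPoly lam m else 0 := by
  rw [coef_mk, coefBig_monomial, one_smul]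

/-- `S` is generated by the `x_I` over `R`. -/
theorem eq_sum_coef (f : S lam) : f = ∑ I, xI lam I * iota lam (coef lam I f) := by
  refine S_induction lam (P := fun f => f = ∑ I, xI lam I * iota lam (coef lam I f)) ?_ ?_ ?_ f
  · intro f g hf hg
    conv_lhs => rw [hf, hg]
    rw [← Finset.sum_add_distrib]
    exact Finset.sum_congr rfl fun I _ => by rw [map_add, map_add, mul_add]
  · intro a f hf
    conv_lhs => rw [hf]
    rw [Finset.smul_sum]
    exact Finset.sum_congr rfl fun I _ => by rw [map_smul, map_smul, mul_smul_comm]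
  · intro m
    rw [Finset.sum_eq_single (odds m)]
    · rw [coef_mk_monomial, if_pos rfl, mk_monomial]
    · intro I _ hI
      rw [coef_mk_monomial, if_neg (Ne.symm hI), map_zero, mul_zero]
    · intro h
      exact absurd (Finset.mem_univ _) h

theorem coef_xI_mul_iota (I K : Finset (Fin n)) (r : R k) :
    coef lam I (xI lam K * iota lam r) = if K = I then r else 0 := by
  have key : ∀ e : Fin 2 →₀ ℕ, coef lam I (xI lam K * iota lam (monomial e 1)) =
      if K = I then monomial e 1 else 0 := by
    intro e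
    obtain ⟨m, hm1, hm2⟩ : ∃ m : Fin 2 ⊕ Fin n →₀ ℕ, (∀ j, m (Sum.inl j) = e j) ∧
        ∀ i, m (Sum.inr i) = if i ∈ K then 1 else 0 := by
      refine ⟨Finsupp.equivFunOnFinite.symm (Sum.elim e fun i => if i ∈ K then 1 else 0), ?_, ?_⟩
      · intro j; simp
      · intro i; simp
    have h1 : odds m = K := by
      ext i
      rw [mem_odds, hm2]
      split_ifs with h <;> simp [h]
    have h2 : monoPoly lam m = monomial e 1 := by
      have h3 : ∀ i : Fin n, m (Sum.inr i) / 2 = 0 := by
        intro i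
        rw [hm2]
        split_ifs <;> rfl
      simp only [monoPoly, h3, pow_zero, Finset.prod_const_one, mul_one, hm1]
      rw [monomial_eq, C_1, one_mul, Finsupp.prod_fintype]
      simp
    have h3 := mk_monomial lam m
    rw [h1, h2] at h3
    rw [← h3, coef_mk_monomial, h1, h2]
  have key2 : (coef lam I) ∘ₗ (LinearMap.mulLeft k (xI lam K)) ∘ₗ (iota lam).toLinearMap =
      if K = I then LinearMap.id else 0 := by
    refine (basisMonomials (Fin 2) k).ext fun e => ?_
    simp only [coe_basisMonomials, LinearMap.comp_apply, LinearMap.mulLeft_apply,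
      AlgHom.toLinearMap_apply]
    rw [key e]
    split_ifs <;> rfl
  have := LinearMap.congr_fun key2 r
  simp only [LinearMap.comp_apply, LinearMap.mulLeft_apply, AlgHom.toLinearMap_apply] at this
  rw [this]
  split_ifs <;> rfl

theorem coef_iota_mul (I : Finset (Fin n)) (r : R k) (f : S lam) :
    coef lam I (iota lam r * f) = r * coef lam I f := by
  have h : iota lam r * f = ∑ K, xI lam K * iota lam (r * coef lam K f) := by
    conv_lhs => rw [eq_sum_coef lam f]
    rw [Finset.mul_sum]
    exact Finset.sum_congr rfl fun K _ => by rw [map_mul]; ring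
  rw [h, map_sum, Finset.sum_congr rfl fun K _ => coef_xI_mul_iota lam I K _]
  simp

theorem coef_mul_iota (I : Finset (Fin n)) (r : R k) (f : S lam) :
    coef lam I (f * iota lam r) = coef lam I f * r := by
  rw [mul_comm, coef_iota_mul, mul_comm]

/-- `f = g` iff all coefficients agree -/
theorem ext_coef {f g : S lam} (h : ∀ I, coef lam I f = coef lam I g) : f = g := by
  rw [eq_sum_coef lam f, eq_sum_coef lam g]
  exact Finset.sum_congr rfl fun I _ => by rw [h I]

theorem xI_mul_iota_injective (I : Finset (Fin n)) :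
    Function.Injective fun r => xI lam I * iota lam r := by
  intro r s h
  have := congrArg (coef lam I) h
  simpa [coef_xI_mul_iota] using this

theorem iota_injective : Function.Injective (iota lam) := by
  intro r s h
  refine xI_mul_iota_injective lam ∅ ?_
  simp only [h]

theorem xI_empty : xI lam ∅ = 1 := Finset.prod_empty

theorem xI_ne_zero (I : Finset (Fin n)) : xI lam I ≠ 0 := by
  intro h
  have := xI_mul_iota_injective lam I (a₁ := 1) (a₂ := 0) (by simp [h])
  exact one_ne_zero this

instance : Nontrivial (S lam) := ⟨1, 0, by rw [← xI_empty lam]; exact xI_ne_zero lam ∅⟩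

/-! ### Weights of monomials -/

theorem nsmul_x (i : Fin n) (b : ℕ) :
    b • LG.x i = ⟨if b % 2 = 1 then {i} else ∅, ((b / 2 : ℕ) : ℤ)⟩ := by
  obtain ⟨q, hq | hq⟩ : ∃ q, b = 2 * q ∨ b = 2 * q + 1 := ⟨b / 2, by omega⟩
  · subst hq
    have h1 : (2 * q) % 2 = 0 := by omega
    have h2 : 2 * q / 2 = q := by omega
    rw [h1, h2, mul_nsmul, two_nsmul, LG.two_x, LG.nsmul_c]
    simp
  · subst hq
    have h1 : (2 * q + 1) % 2 = 1 := by omega
    have h2 : (2 * q + 1) / 2 = q := by omega
    rw [h1, h2, if_pos rfl, add_nsmul, one_nsmul, mul_nsmul, two_nsmul, LG.two_x, LG.nsmul_c]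
    ext1
    · simp
    · simp

theorem weight_eq (m : Fin 2 ⊕ Fin n →₀ ℕ) :
    Finsupp.weight (wt n) m = ⟨odds m, ((∑ j, m (Sum.inl j) + ∑ i, m (Sum.inr i) / 2 : ℕ) : ℤ)⟩ := by
  induction m using Finsupp.induction_linear with
  | zero => 
    rw [map_zero]
    ext1
    · ext i; simp [mem_odds]
    · simp
  | add f g hf hg =>
    rw [map_add, hf, hg]
    ext1
    · ext i
      simp only [LG.add_I, Finset.mem_symmDiff, mem_odds, Finsupp.add_apply]
      omega
    · simp only [LG.add_a, Finsupp.add_apply]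
      have h1 : ∀ i : Fin n, (f (Sum.inr i) + g (Sum.inr i)) / 2 =
          f (Sum.inr i) / 2 + g (Sum.inr i) / 2 + if i ∈ odds f ∩ odds g then 1 else 0 := by
        intro i
        simp only [Finset.mem_inter, mem_odds]
        split_ifs <;> omega
      rw [Finset.sum_congr rfl fun i _ => h1 i, Finset.sum_add_distrib, Finset.sum_add_distrib,
        Finset.sum_add_distrib, Finset.sum_ite_mem, Finset.univ_inter, Finset.card_eq_sum_ones]
      push_cast
      ring
  | single v b =>
    rw [Finsupp.weight_single]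
    obtain j | i := v
    · simp only [wt, Sum.elim_inl]
      rw [LG.nsmul_c]
      ext1
      · ext i
        simp [mem_odds]
      · have : ∀ l : Fin 2, (Finsupp.single (Sum.inl j) b : Fin 2 ⊕ Fin n →₀ ℕ) (Sum.inl l) =
            if l = j then b else 0 := by
          intro l
          by_cases h : l = j
          · subst h; simp
          · simp [h]
        simp [this]
    · simp only [wt, Sum.elim_inr]
      rw [nsmul_x]
      have : ∀ l : Fin n, (Finsupp.single (Sum.inr i) b : Fin 2 ⊕ Fin n →₀ ℕ) (Sum.inr l) =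
            if l = i then b else 0 := by
          intro l
          by_cases h : l = i
          · subst h; simp
          · simp [h]
      ext1
      · ext l
        rw [mem_odds, this]
        by_cases h : l = i
        · subst h
          by_cases hb : b % 2 = 1 <;> simp [hb]
        · by_cases hb : b % 2 = 1 <;> simp [hb, h]
      · have h2 : ∀ l : Fin n, (if l = i then b else 0) / 2 = if l = i then b / 2 else 0 := by
          intro l; split_ifs <;> simp
        simp [this, h2]

theorem form_isHomogeneous (i : Fin n) : (form lam i).IsHomogeneous 1 := by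
  refine IsHomogeneous.sum _ _ _ fun j _ => ?_
  simpa using (isHomogeneous_C (Fin 2) (lam i j)).mul (isHomogeneous_X k j)

theorem monoPoly_isHomogeneous (m : Fin 2 ⊕ Fin n →₀ ℕ) :
    (monoPoly lam m).IsHomogeneous (∑ j, m (Sum.inl j) + ∑ i, m (Sum.inr i) / 2) := by
  refine IsHomogeneous.mul ?_ ?_
  · refine IsHomogeneous.prod _ _ _ fun j _ => ?_
    simpa using (isHomogeneous_X k j).pow (m (Sum.inl j))
  · refine IsHomogeneous.prod _ _ _ fun i _ => ?_
    simpa using (form_isHomogeneous lam i).pow (m (Sum.inr i) / 2)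

/-- `S_{x_I + m c} = x_I * R_m` for `m ≥ 0` -/
theorem mem_piece_iff (z : LG n) (m : ℕ) (hm : z.a = m) (f : S lam) :
    f ∈ piece lam z ↔ ∃ r : R k, r.IsHomogeneous m ∧ f = xI lam z.I * iota lam r := by
  constructor
  · rintro ⟨p, hp, rfl⟩
    have hp' : IsWeightedHomogeneous (wt n) p z := hp
    simp only [AlgHom.toLinearMap_apply, Ideal.Quotient.mkₐ_eq_mk]
    have h1 : ∀ d ∈ p.support, ∃ r : R k, r.IsHomogeneous m ∧
        Ideal.Quotient.mk (relIdeal lam) (monomial d (coeff d p)) = xI lam z.I * iota lam r := by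
      intro d hd
      have h2 := hp' (mem_support_iff.1 hd)
      rw [weight_eq] at h2
      refine ⟨coeff d p • monoPoly lam d, ?_, ?_⟩
      · have h3 : (∑ j, d (Sum.inl j) + ∑ i, d (Sum.inr i) / 2) = m := by
          rw [← h2] at hm
          exact Nat.cast_injective (R := ℤ) hm
        rw [← h3, smul_eq_C_mul]
        simpa using (isHomogeneous_C (Fin 2) (coeff d p)).mul (monoPoly_isHomogeneous lam d)
      · have h3 : (monomial d (coeff d p) : Big k n) = coeff d p • monomial d 1 := by
          rw [smul_monomial]; simp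
        have h4 : Ideal.Quotient.mk (relIdeal lam) (coeff d p • monomial d 1) =
            coeff d p • Ideal.Quotient.mk (relIdeal lam) (monomial d 1) := rfl
        rw [h3, h4, mk_monomial, map_smul, mul_smul_comm, ← h2]
    choose! r hr1 hr2 using h1
    refine ⟨∑ d ∈ p.support, r d, IsHomogeneous.sum _ _ _ hr1, ?_⟩
    conv_lhs => rw [p.as_sum]
    rw [map_sum, map_sum, Finset.mul_sum]
    exact Finset.sum_congr rfl fun d hd => hr2 d hd
  · rintro ⟨r, hr, rfl⟩
    have h := mul_mem_piece lam (xI_mem_piece lam z.I) (iota_mem_piece lam hr)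
    have hz : LG.xs z.I + m • LG.c = z := by
      conv_rhs => rw [LG.eq_xs_add z, hm, natCast_zsmul]
    rwa [hz] at h

/-- `S_{x_I + a c} = 0` for `a < 0` -/
theorem eq_zero_of_mem_piece {z : LG n} (h : z.a < 0) {f : S lam} (hf : f ∈ piece lam z) :
    f = 0 := by
  obtain ⟨p, hp, rfl⟩ := hf
  have hp' : IsWeightedHomogeneous (wt n) p z := hp
  have h1 : p = 0 := by
    by_contra hne
    obtain ⟨d, hd⟩ := ne_zero_iff.1 hne
    have h2 := hp' hd
    rw [weight_eq] at h2
    rw [← h2] at h
    exact absurd h (not_lt.2 (Int.natCast_nonneg _))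
  rw [h1, map_zero]

/-- a nonzero element of `S_z` forces `z.a ≥ 0` -/
theorem a_nonneg_of_mem_piece {z : LG n} {f : S lam} (hf : f ∈ piece lam z) (h : f ≠ 0) :
    0 ≤ z.a := by
  by_contra h'
  exact h (eq_zero_of_mem_piece lam (not_le.1 h') hf)

/-- `S_{x_I} = k x_I` -/
theorem mem_piece_xs {I : Finset (Fin n)} {f : S lam} (hf : f ∈ piece lam (LG.xs I)) :
    ∃ a : k, f = a • xI lam I := by
  obtain ⟨r, hr, rfl⟩ := (mem_piece_iff lam (LG.xs I) 0 (by simp) f).1 hf
  refine ⟨coeff 0 r, ?_⟩
  have h1 : r = C (coeff 0 r) := by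
    have := hr.totalDegree_le
    exact totalDegree_eq_zero_iff_eq_C.1 (by omega)
  rw [LG.xs_I]
  conv_lhs => rw [h1]
  rw [← mul_one (xI lam I * _), mul_assoc]
  have h2 : iota lam (C (coeff 0 r)) = coeff 0 r • (1 : S lam) := by
    rw [← algebraMap_eq, AlgHom.commutes, Algebra.algebraMap_eq_smul_one]
  rw [h2, mul_one, mul_smul_comm, mul_one]

end

end Lens
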