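import Mathlib
import Pool.Agent.Lens.SRing

/-!
# The category `LB` of line bundles

* `LB lam`: objects `⟨z⟩ = 𝒪(z)`, `Hom (𝒪(y), 𝒪(z)) = S_{z - y}`, composition = multiplication
* `P y = 𝒪(-y)`, so `Hom (P x, P y) = S_{x - y}`; `gen`: the generator of `Hom (P x_I, P x_K)`.
-/

open CategoryTheory MvPolynomial
open scoped symmDiff

namespace Lens

universe u

variable {k : Type u} [Field k] {n : ℕ}

/-- The category of line bundles: the object `⟨z⟩` is `𝒪(z)`. -/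
structure LB (lam : Fin n → Fin 2 → k) where
  /-- `z` in `𝒪(z)` -/
  z : LG n

namespace LB

variable {lam : Fin n → Fin 2 → k}

/-- `Hom (𝒪(y), 𝒪(z)) = S_{z - y}` -/
@[ext]
structure Hom (Y Z : LB lam) where
  /-- the element of `S` -/
  f : S lam
  mem : f ∈ piece lam (Z.z - Y.z)

namespace Hom

variable {Y Z : LB lam}

noncomputable instance : Zero (Hom Y Z) := ⟨⟨0, Submodule.zero_mem _⟩⟩
noncomputable instance : Add (Hom Y Z) := ⟨fun f g => ⟨f.f + g.f, Submodule.add_mem _ f.mem g.mem⟩⟩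
noncomputable instance : Neg (Hom Y Z) := ⟨fun f => ⟨-f.f, Submodule.neg_mem _ f.mem⟩⟩
noncomputable instance : Sub (Hom Y Z) := ⟨fun f g => ⟨f.f - g.f, Submodule.sub_mem _ f.mem g.mem⟩⟩
noncomputable instance : SMul ℕ (Hom Y Z) := ⟨fun a f => ⟨a • f.f, nsmul_mem f.mem a⟩⟩
noncomputable instance : SMul ℤ (Hom Y Z) := ⟨fun a f => ⟨a • f.f, zsmul_mem f.mem a⟩⟩
noncomputable instance : SMul k (Hom Y Z) := ⟨fun a f => ⟨a • f.f, Submodule.smul_mem _ a f.mem⟩⟩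

theorem f_injective : Function.Injective (Hom.f : Hom Y Z → S lam) := fun _ _ h => Hom.ext h

noncomputable instance : AddCommGroup (Hom Y Z) :=
  f_injective.addCommGroup _ rfl (fun _ _ => rfl) (fun _ => rfl) (fun _ _ => rfl)
    (fun _ _ => rfl) (fun _ _ => rfl)

/-- `Hom.f` as an additive map -/
noncomputable def fHom : Hom Y Z →+ S lam := ⟨⟨Hom.f, rfl⟩, fun _ _ => rfl⟩

noncomputable instance : Module k (Hom Y Z) := f_injective.module k fHom fun _ _ => rfl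

end Hom

noncomputable instance : Category (LB lam) where
  Hom Y Z := LB.Hom Y Z
  id Y := ⟨1, by rw [sub_self]; exact one_mem_piece lam⟩
  comp {X Y Z} f g := ⟨f.f * g.f, by
    have := mul_mem_piece lam f.mem g.mem
    rwa [add_comm, sub_add_sub_cancel] at this⟩
  id_comp f := by apply Hom.ext; simp
  comp_id f := by apply Hom.ext; simp
  assoc f g h := by apply Hom.ext; simp [mul_assoc]

@[ext]
theorem hom_ext {Y Z : LB lam} {f g : Y ⟶ Z} (h : Hom.f f = Hom.f g) : f = g := Hom.ext h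

/-- constructor for morphisms -/
def homMk {Y Z : LB lam} (f : S lam) (hf : f ∈ piece lam (Z.z - Y.z)) : Y ⟶ Z := Hom.mk f hf

@[simp] theorem homMk_f {Y Z : LB lam} (f : S lam) (hf : f ∈ piece lam (Z.z - Y.z)) :
    Hom.f (homMk f hf : Y ⟶ Z) = f := rfl

noncomputable instance : Preadditive (LB lam) where
  homGroup Y Z := inferInstanceAs (AddCommGroup (LB.Hom Y Z))
  add_comp _ _ _ _ _ _ := by apply Hom.ext; exact add_mul _ _ _
  comp_add _ _ _ _ _ _ := by apply Hom.ext; exact mul_add _ _ _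

noncomputable instance : Linear k (LB lam) where
  homModule Y Z := inferInstanceAs (Module k (LB.Hom Y Z))
  smul_comp _ _ _ _ _ _ := by apply Hom.ext; exact smul_mul_assoc _ _ _
  comp_smul _ _ _ _ _ _ := by apply Hom.ext; exact mul_smul_comm _ _ _

@[simp] theorem id_f (Y : LB lam) : Hom.f (𝟙 Y) = 1 := rfl
@[simp] theorem comp_f {X Y Z : LB lam} (f : X ⟶ Y) (g : Y ⟶ Z) :
    Hom.f (f ≫ g) = Hom.f f * Hom.f g := rfl
@[simp] theorem zero_f (Y Z : LB lam) : Hom.f (0 : Y ⟶ Z) = 0 := rfl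
@[simp] theorem add_f {Y Z : LB lam} (f g : Y ⟶ Z) : Hom.f (f + g) = Hom.f f + Hom.f g := rfl
@[simp] theorem neg_f {Y Z : LB lam} (f : Y ⟶ Z) : Hom.f (-f) = - Hom.f f := rfl
@[simp] theorem sub_f {Y Z : LB lam} (f g : Y ⟶ Z) : Hom.f (f - g) = Hom.f f - Hom.f g := rfl
@[simp] theorem smul_f {Y Z : LB lam} (a : k) (f : Y ⟶ Z) : Hom.f (a • f) = a • Hom.f f := rfl
@[simp] theorem sum_f {ι : Type*} (s : Finset ι) {Y Z : LB lam} (f : ι → (Y ⟶ Z)) :
    Hom.f (∑ i ∈ s, f i) = ∑ i ∈ s, Hom.f (f i) :=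
  map_sum (Hom.fHom (Y := Y) (Z := Z)) f s

/-- `Hom (𝒪(y), 𝒪(z)) = 0` if `(z - y).a < 0` -/
theorem hom_eq_zero {Y Z : LB lam} (h : (Z.z - Y.z).a < 0) (f : Y ⟶ Z) : f = 0 :=
  Hom.ext (eq_zero_of_mem_piece lam h (Hom.mem f))

/-- `Hom (𝒪(y), 𝒪(z)) ≠ 0` only if `0 ≤ z.a - y.a - |y.I \ z.I|` -/
theorem le_of_ne_zero {Y Z : LB lam} (f : Y ⟶ Z) (hf : f ≠ 0) :
    0 ≤ Z.z.a - Y.z.a - (Y.z.I \ Z.z.I).card := by
  rw [← LG.sub_a]
  by_contra h
  exact hf (hom_eq_zero (not_le.1 h) f)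

/-- endomorphisms of a line bundle are scalars -/
theorem end_eq (Y : LB lam) (f : Y ⟶ Y) : ∃ a : k, f = a • 𝟙 Y := by
  have h : Hom.f f ∈ piece lam (LG.xs ∅) := by
    have := Hom.mem f
    rwa [sub_self] at this
  obtain ⟨a, ha⟩ := mem_piece_xs lam h
  exact ⟨a, Hom.ext (by rw [ha, xI_empty]; rfl)⟩

theorem id_ne_zero (Y : LB lam) : 𝟙 Y ≠ 0 := fun h =>
  one_ne_zero (congrArg (Hom.f (Y := Y) (Z := Y)) h : (1 : S lam) = 0)

/-! ### the objects `P y = 𝒪(-y)`, and faces -/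

variable (lam) in
/-- `P y = 𝒪(-y)`, so that `Hom (P x, P y) = S_{x - y}` -/
def P (y : LG n) : LB lam := ⟨-y⟩

/-- constructor `S_{x - y} → Hom (P x, P y)` -/
def mkP {x y : LG n} (f : S lam) (hf : f ∈ piece lam (x - y)) : P lam x ⟶ P lam y :=
  homMk f (by simpa [P, neg_add_eq_sub] using hf)

theorem memP {x y : LG n} (f : P lam x ⟶ P lam y) : Hom.f f ∈ piece lam (x - y) := by
  have h : -y - -x = x - y := neg_sub_neg y x
  rw [← h]
  exact Hom.mem f

/-- `Hom (P x, P y) = 0` unless `0 ≤ x.a - y.a - |y.I \ x.I|` -/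
theorem P_hom_eq_zero {x y : LG n} (h : x.a - y.a - (y.I \ x.I).card < 0)
    (f : P lam x ⟶ P lam y) : f = 0 := by
  rw [← LG.sub_a] at h
  exact Hom.ext (eq_zero_of_mem_piece lam h (memP f))

theorem xs_sub_xs (I K : Finset (Fin n)) :
    LG.xs I - LG.xs K = ⟨I ∆ K, - ((K \ I).card : ℤ)⟩ := by
  ext1
  · simp
  · simp

theorem xs_sub_xs_of_subset {K I : Finset (Fin n)} (h : K ⊆ I) :
    LG.xs I - LG.xs K = LG.xs (I \ K) := by
  rw [xs_sub_xs, symmDiff_of_ge (show K ≤ I from h), Finset.sdiff_eq_empty_iff_subset.2 h]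
  rfl

variable (lam) in
/-- the generator `x_{I \ K} : P x_I ⟶ P x_K` for `K ⊆ I` -/
noncomputable def gen {K I : Finset (Fin n)} (h : K ⊆ I) :
    P lam (LG.xs I) ⟶ P lam (LG.xs K) :=
  mkP (xI lam (I \ K)) (by rw [xs_sub_xs_of_subset h]; exact xI_mem_piece lam _)

@[simp] theorem gen_f {K I : Finset (Fin n)} (h : K ⊆ I) :
    Hom.f (gen lam h) = xI lam (I \ K) := rfl

theorem face_hom_zero {K I : Finset (Fin n)} (h : ¬ K ⊆ I)
    (f : P lam (LG.xs I) ⟶ P lam (LG.xs K)) : f = 0 := by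
  refine P_hom_eq_zero ?_ f
  have : 0 < (K \ I).card := Finset.card_pos.2 (Finset.sdiff_nonempty.2 h)
  simp only [LG.xs_a, LG.xs_I]
  omega

theorem face_hom_span {K I : Finset (Fin n)} (h : K ⊆ I)
    (f : P lam (LG.xs I) ⟶ P lam (LG.xs K)) : ∃ a : k, f = a • gen lam h := by
  have h1 := memP f
  rw [xs_sub_xs_of_subset h] at h1
  obtain ⟨a, ha⟩ := mem_piece_xs lam h1
  exact ⟨a, Hom.ext ha⟩

theorem gen_ne_zero {K I : Finset (Fin n)} (h : K ⊆ I) : gen lam h ≠ 0 := by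
  intro h'
  refine xI_ne_zero lam (I \ K) ?_
  rw [← gen_f h, h']
  rfl

theorem gen_self (I : Finset (Fin n)) : gen lam (subset_refl I) = 𝟙 _ :=
  Hom.ext (by rw [gen_f, sdiff_self]; exact xI_empty lam)

theorem gen_comp {M K I : Finset (Fin n)} (h : K ⊆ I) (h' : M ⊆ K) :
    gen lam h ≫ gen lam h' = gen lam (h'.trans h) := by
  apply Hom.ext
  rw [comp_f, gen_f, gen_f, gen_f, xI_mul_xI_of_disjoint]
  · congr 1
    ext i
    simp only [Finset.mem_union, Finset.mem_sdiff]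
    constructor
    · rintro (⟨h1, h2⟩ | ⟨h1, h2⟩)
      · exact ⟨h1, fun h3 => h2 (h' h3)⟩
      · exact ⟨h h1, h2⟩
    · rintro ⟨h1, h2⟩
      by_cases h3 : i ∈ K
      · exact Or.inr ⟨h3, h2⟩
      · exact Or.inl ⟨h1, h3⟩
  · rw [Finset.disjoint_left]
    intro i h1 h2
    exact (Finset.mem_sdiff.1 h1).2 (Finset.mem_sdiff.1 h2).1

end LB

end Lens
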