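import Pool.Agent.Lens.WPL
import Pool.Agent.Lens.LB

/-!
# Bridge: weighted projective lines with all weights two
-/

open CategoryTheory MvPolynomial

namespace Lens

universe u

namespace WPL

variable {k : Type u} [Field k] (X : WPL k)

/-- the coefficients of the linear forms -/
def lam : Fin X.t → Fin 2 → k := fun i => ![X.a i, X.b i]

section

variable (hp : ∀ i, X.p i = 2)

/-- the homomorphism `X.L → LG X.t` -/
noncomputable def toLGHom : X.L →+ LG X.t :=
  QuotientAddGroup.lift X.rel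
    { toFun := fun m => ∑ i, m.1 i • LG.x i + m.2 • LG.c
      map_zero' := by simp
      map_add' := fun m m' => by
        simp only [Prod.fst_add, Pi.add_apply, Prod.snd_add, add_smul, Finset.sum_add_distrib]
        abel }
    (by
      rw [rel, AddSubgroup.closure_le]
      rintro _ ⟨i, rfl⟩
      simp only [SetLike.mem_coe, AddMonoidHom.mem_ker, AddMonoidHom.coe_mk, ZeroHom.coe_mk]
      rw [Finset.sum_eq_single i]
      · rw [Pi.single_eq_same, hp i]
        have : ((2 : ℕ) : ℤ) • (LG.x i : LG X.t) = LG.c := by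
          rw [natCast_zsmul, two_nsmul, LG.two_x]
        rw [this, neg_smul, one_smul, add_neg_cancel]
      · intro j _ hj
        rw [Pi.single_eq_of_ne hj, zero_smul]
      · intro h
        exact absurd (Finset.mem_univ i) h)

theorem toLGHom_x (i : Fin X.t) : X.toLGHom hp (X.x i) = LG.x i := by
  change ∑ j, (Pi.single i (1 : ℤ) : Fin X.t → ℤ) j • LG.x j + (0 : ℤ) • LG.c = LG.x i
  rw [Finset.sum_eq_single i]
  · simp
  · intro j _ hj
    rw [Pi.single_eq_of_ne hj, zero_smul]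
  · intro h
    exact absurd (Finset.mem_univ i) h

theorem toLGHom_c : X.toLGHom hp X.c = LG.c := by
  change ∑ j, (0 : Fin X.t → ℤ) j • (LG.x j : LG X.t) + (1 : ℤ) • LG.c = LG.c
  simp

include hp in
theorem x_add_x (i : Fin X.t) : X.x i + X.x i = X.c := by
  have h := X.p_smul_x i
  rwa [hp i, two_nsmul] at h

/-- the homomorphism `LG X.t → X.L` -/
noncomputable def ofLGHom : LG X.t →+ X.L :=
  (LG.existsUnique_lift X.x X.c (X.x_add_x hp)).choose

theorem ofLGHom_x (i : Fin X.t) : X.ofLGHom hp (LG.x i) = X.x i :=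
  (LG.existsUnique_lift X.x X.c (X.x_add_x hp)).choose_spec.1.1 i

theorem ofLGHom_c : X.ofLGHom hp LG.c = X.c :=
  (LG.existsUnique_lift X.x X.c (X.x_add_x hp)).choose_spec.1.2

theorem L_mk_eq (m : Fin X.t → ℤ) (b : ℤ) :
    (QuotientAddGroup.mk (m, b) : X.L) = ∑ i, m i • X.x i + b • X.c := by
  have h : ((m, b) : (Fin X.t → ℤ) × ℤ) =
      ∑ i, m i • ((Pi.single i 1, 0) : (Fin X.t → ℤ) × ℤ) + b • ((0, 1) : (Fin X.t → ℤ) × ℤ) := by
    ext j
    · simp [Prod.fst_sum, Finset.sum_apply, Pi.single_apply]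
    · simp [Prod.snd_sum]
  rw [h]
  change (QuotientAddGroup.mk' X.rel) _ = _
  rw [map_add, map_sum]
  simp only [map_zsmul]
  rfl

theorem L_hom_ext {A : Type*} [AddCommGroup A] {f g : X.L →+ A} (h : ∀ i, f (X.x i) = g (X.x i))
    (hc : f X.c = g X.c) : f = g := by
  refine DFunLike.ext _ _ (fun y => ?_)
  obtain ⟨⟨m, b⟩, rfl⟩ := QuotientAddGroup.mk_surjective y
  rw [L_mk_eq]
  simp only [map_add, map_sum, map_zsmul, h, hc]

/-- `X.L ≃+ LG X.t` if all weights are two -/
noncomputable def phi : X.L ≃+ LG X.t :=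
  AddMonoidHom.toAddEquiv (X.toLGHom hp) (X.ofLGHom hp)
    (X.L_hom_ext (fun i => by simp [toLGHom_x, ofLGHom_x]) (by simp [toLGHom_c, ofLGHom_c]))
    (by
      obtain ⟨φ, _, hu⟩ := LG.existsUnique_lift (n := X.t) (A := LG X.t) LG.x LG.c LG.two_x
      rw [hu ((X.toLGHom hp).comp (X.ofLGHom hp)) ⟨fun i => by simp [toLGHom_x, ofLGHom_x],
        by simp [toLGHom_c, ofLGHom_c]⟩, hu (AddMonoidHom.id _) ⟨fun i => rfl, rfl⟩])

@[simp] theorem phi_x (i : Fin X.t) : X.phi hp (X.x i) = LG.x i := X.toLGHom_x hp i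

@[simp] theorem phi_c : X.phi hp X.c = LG.c := X.toLGHom_c hp

include hp in
theorem ideal_eq : X.ideal = relIdeal X.lam := by
  rw [ideal, relIdeal]
  congr 1
  congr 1
  funext i
  rw [relPoly, hp i, Fin.sum_univ_two]
  rfl

/-- `X.S ≃ₐ[k] S X.lam` -/
noncomputable def psi : X.S ≃ₐ[k] Lens.S X.lam := Ideal.quotientEquivAlgOfEq k (X.ideal_eq hp)

@[simp] theorem psi_mk (q : MvPolynomial (Fin 2 ⊕ Fin X.t) k) :
    X.psi hp (X.proj q) = Ideal.Quotient.mk _ q := rfl

theorem phi_wt (v : Fin 2 ⊕ Fin X.t) : X.phi hp (X.wt v) = Lens.wt X.t v := by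
  obtain j | i := v
  · exact X.phi_c hp
  · exact X.phi_x hp i

theorem phi_weight (m : Fin 2 ⊕ Fin X.t →₀ ℕ) :
    X.phi hp (Finsupp.weight X.wt m) = Finsupp.weight (Lens.wt X.t) m := by
  rw [Finsupp.weight_apply, Finsupp.weight_apply, Finsupp.sum, Finsupp.sum, map_sum]
  exact Finset.sum_congr rfl fun v _ => by rw [map_nsmul, phi_wt]

theorem isWeightedHomogeneous_iff (q : MvPolynomial (Fin 2 ⊕ Fin X.t) k) (d : X.L) :
    IsWeightedHomogeneous X.wt q d ↔ IsWeightedHomogeneous (Lens.wt X.t) q (X.phi hp d) := by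
  constructor
  · intro h m hm
    rw [← X.phi_weight hp, h hm]
  · intro h m hm
    have := h hm
    rw [← X.phi_weight hp] at this
    exact (X.phi hp).injective this

theorem psi_mem_piece_iff (d : X.L) (f : X.S) :
    X.psi hp f ∈ Lens.piece X.lam (X.phi hp d) ↔ f ∈ X.piece d := by
  constructor
  · rintro ⟨q, hq, hqf⟩
    refine ⟨q, (X.isWeightedHomogeneous_iff hp q d).2 hq, ?_⟩
    apply (X.psi hp).injective
    rw [← hqf]
    rfl
  · rintro ⟨q, hq, rfl⟩
    exact ⟨q, (X.isWeightedHomogeneous_iff hp q d).1 hq, rfl⟩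

/-! ### the functor on line bundles -/

/-- `𝒪(d) ↦ 𝒪(phi d)` -/
noncomputable def toLB : WPL.LB X ⥤ Lens.LB X.lam where
  obj d := ⟨X.phi hp d.deg⟩
  map {d e} f := Lens.LB.homMk (X.psi hp (WPL.LB.val f)) (by
    change X.psi hp (WPL.LB.val f) ∈ Lens.piece X.lam (X.phi hp e.deg - X.phi hp d.deg)
    rw [← map_sub, psi_mem_piece_iff]
    exact WPL.LB.val_mem f)
  map_id d := Lens.LB.hom_ext (by simp)
  map_comp f g := Lens.LB.hom_ext (by simp)

@[simp] theorem toLB_obj_z (d : WPL.LB X) : ((X.toLB hp).obj d).z = X.phi hp d.deg := rfl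

@[simp] theorem toLB_map_f {d e : WPL.LB X} (f : d ⟶ e) :
    Lens.LB.Hom.f ((X.toLB hp).map f) = X.psi hp (WPL.LB.val f) := rfl

/-- the inverse functor -/
noncomputable def ofLB : Lens.LB X.lam ⥤ WPL.LB X where
  obj z := ⟨(X.phi hp).symm z.z⟩
  map {z w} f := WPL.LB.mk' ((X.psi hp).symm (Lens.LB.Hom.f f)) (by
    change (X.psi hp).symm (Lens.LB.Hom.f f) ∈
      X.piece ((X.phi hp).symm w.z - (X.phi hp).symm z.z)
    rw [← map_sub, ← psi_mem_piece_iff X hp]
    simpa using Lens.LB.Hom.mem f)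
  map_id d := WPL.LB.hom_ext (by simp)
  map_comp f g := WPL.LB.hom_ext (by simp)

@[simp] theorem ofLB_map_val {z w : Lens.LB X.lam} (f : z ⟶ w) :
    WPL.LB.val ((X.ofLB hp).map f) = (X.psi hp).symm (Lens.LB.Hom.f f) := rfl

instance : (X.toLB hp).Additive where
  map_add := Lens.LB.hom_ext (by simp)

instance : (X.toLB hp).Linear k where
  map_smul _ _ := Lens.LB.hom_ext (by simp)

instance : (X.ofLB hp).Additive where
  map_add := WPL.LB.hom_ext (by simp)

instance : (X.ofLB hp).Linear k where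
  map_smul _ _ := WPL.LB.hom_ext (by simp)

theorem toLB_ofLB_obj (z : Lens.LB X.lam) : (X.toLB hp).obj ((X.ofLB hp).obj z) = z := by
  cases z
  simp [toLB, ofLB]

theorem ofLB_toLB_obj (d : WPL.LB X) : (X.ofLB hp).obj ((X.toLB hp).obj d) = d := by
  cases d
  simp [toLB, ofLB]

theorem LB_eqToHom_f {z w : Lens.LB X.lam} (h : z = w) : Lens.LB.Hom.f (eqToHom h) = 1 := by
  subst h; rfl

theorem LB_eqToHom_val {z w : WPL.LB X} (h : z = w) : WPL.LB.val (eqToHom h) = 1 := by
  subst h; rfl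

/-- the unit isomorphism -/
noncomputable def unitLB : 𝟭 (WPL.LB X) ≅ X.toLB hp ⋙ X.ofLB hp :=
  NatIso.ofComponents (fun d => eqToIso (X.ofLB_toLB_obj hp d).symm) (fun f => by
    apply WPL.LB.hom_ext
    simp only [Functor.id_obj, Functor.comp_obj, Functor.id_map, Functor.comp_map, eqToIso.hom,
      WPL.LB.val_comp, LB_eqToHom_val, mul_one, one_mul, ofLB_map_val, toLB_map_f,
      AlgEquiv.symm_apply_apply])

/-- the counit isomorphism -/
noncomputable def counitLB : X.ofLB hp ⋙ X.toLB hp ≅ 𝟭 (Lens.LB X.lam) :=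
  NatIso.ofComponents (fun z => eqToIso (X.toLB_ofLB_obj hp z)) (fun f => by
    apply Lens.LB.hom_ext
    simp only [Functor.id_obj, Functor.comp_obj, Functor.id_map, Functor.comp_map, eqToIso.hom,
      Lens.LB.comp_f, LB_eqToHom_f, mul_one, one_mul, ofLB_map_val, toLB_map_f,
      AlgEquiv.apply_symm_apply])

/-- the equivalence of the categories of line bundles -/
noncomputable def equivLB : WPL.LB X ≌ Lens.LB X.lam :=
  CategoryTheory.Equivalence.mk (X.toLB hp) (X.ofLB hp) (X.unitLB hp) (X.counitLB hp)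

/-- the `k[T₀, T₁]`-parts correspond -/
theorem psi_mem_range_iff (f : X.S) :
    X.psi hp f ∈ (iota X.lam).range ↔ f ∈ X.RT := by
  have h1 : (iota X.lam).range = Algebra.adjoin k (Set.range (tt X.lam)) := by
    have h2 : (⊤ : Subalgebra k (R k)) = Algebra.adjoin k (Set.range MvPolynomial.X) :=
      MvPolynomial.adjoin_range_X.symm
    rw [← Algebra.map_top, h2, AlgHom.map_adjoin, ← Set.range_comp]
    congr 2
    funext j
    exact iota_X X.lam j
  have h3 : Algebra.adjoin k (Set.range (tt X.lam)) = X.RT.map (X.psi hp).toAlgHom := by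
    rw [RT, AlgHom.map_adjoin, ← Set.range_comp]
    rfl
  rw [h1, h3, Subalgebra.mem_map]
  constructor
  · rintro ⟨g, hg, hgf⟩
    have : g = f := (X.psi hp).injective hgf
    rwa [← this]
  · intro h
    exact ⟨f, h, rfl⟩

end

end WPL

end Lens
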