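import Mathlib

/-!
# Null homotopies between half bounded complexes and (co)exact complexes

Everything is relative: `ExactFor P Y` says that `Hom (P, Y)` is exact, `CoexactFor X P` says that
`Hom (X, P)` is exact.
-/

open CategoryTheory CategoryTheory.Limits CategoryTheory.Preadditive CochainComplex
  CochainComplex.HomComplex

namespace Lens

universe v u

variable {V : Type u} [Category.{v} V] [Preadditive V]

/-- `Hom (P, Y)` is an exact complex. -/
def ExactFor (P : V) (Y : CochainComplex V ℤ) : Prop :=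
  ∀ i j k : ℤ, i + 1 = j → j + 1 = k → ∀ f : P ⟶ Y.X j, f ≫ Y.d j k = 0 →
    ∃ g : P ⟶ Y.X i, g ≫ Y.d i j = f

/-- `Hom (X, P)` is an exact complex. -/
def CoexactFor (X : CochainComplex V ℤ) (P : V) : Prop :=
  ∀ i j k : ℤ, i + 1 = j → j + 1 = k → ∀ f : X.X j ⟶ P, X.d i j ≫ f = 0 →
    ∃ g : X.X k ⟶ P, X.d j k ≫ g = f

section K2

theorem coexact_aux {K L : CochainComplex V ℤ}
    (f : K ⟶ L) (α : Cochain K L (-1)) (n m : ℤ) (hnm : n + 1 = m)
    (hK : CoexactFor K (L.X m))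
    (hα : (δ (-1) 0 α).EqUpTo (Cochain.ofHom f) n) :
    ∃ (h : K.X (n + 2) ⟶ L.X (n + 1)),
      (δ (-1) 0 (α + Cochain.single h (-1))).EqUpTo (Cochain.ofHom f) m := by
  subst hnm
  let u := f.f (n + 1) - α.v (n + 1) n (by lia) ≫ L.d n (n + 1) -
    K.d (n + 1) (n + 2) ≫ α.v (n + 2) (n + 1) (by lia)
  have hu : K.d n (n + 1) ≫ u = 0 := by
    have eq := hα n n (add_zero n) (by rfl)
    simp only [δ_v (-1) 0 (neg_add_cancel 1) α n n (add_zero _) (n - 1) (n + 1)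
      (by lia) (by lia), Int.negOnePow_zero, one_smul, Cochain.ofHom_v] at eq
    simp only [u, comp_sub, HomologicalComplex.d_comp_d_assoc, zero_comp,
      ← f.comm, ← eq, add_comp, Category.assoc, L.d_comp_d, comp_zero, zero_add, sub_self]
  obtain ⟨β, hβ⟩ : ∃ (β : K.X (n + 2) ⟶ L.X (n + 1)), K.d (n + 1) (n + 2) ≫ β = u :=
    hK n (n + 1) (n + 2) rfl (by lia) u hu
  refine ⟨β, ?_⟩
  intro p q hpq hp
  obtain rfl : p = q := by lia
  obtain hp | rfl := hp.lt_or_eq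
  · rw [δ_add, Cochain.add_v, hα p p (by lia) (by lia), add_eq_left,
      δ_v (-1) 0 (neg_add_cancel 1) _ p p hpq (p - 1) (p + 1) rfl rfl,
      Cochain.single_v_eq_zero _ _ _ _ _ (by lia),
      Cochain.single_v_eq_zero _ _ _ _ _ (by lia)]
    simp
  · rw [δ_v (-1) 0 (neg_add_cancel 1) _ (n + 1) (n + 1) (by lia) n (n + 2)
      (by lia) (by lia), Cochain.add_v,
      Cochain.single_v_eq_zero _ _ _ _ _ (by lia)]
    simp [hβ, u]

open Cochain.InductionUp in
/-- **K2'**: a map from a coexact complex which vanishes in degrees `< d` is null homotopic. -/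
theorem nullhomotopic_of_coexact' {K L : CochainComplex V ℤ} (f : K ⟶ L) (d : ℤ)
    (hL : ∀ n < d, f.f n = 0) (hK : ∀ n, CoexactFor K (L.X n)) :
    Nonempty (Homotopy f 0) := by
  let X (n : ℕ) : Set (Cochain K L (-1)) :=
    Set.ofPred (fun α => (δ (-1) 0 α).EqUpTo (Cochain.ofHom f) (n + d - 1))
  let x₀ : X 0 := ⟨0, fun p q hpq hp ↦ by
    obtain rfl : p = q := by lia
    rw [δ_zero, Cochain.zero_v, Cochain.ofHom_v, hL p (by simp at hp; lia)]⟩
  let φ (n : ℕ) (α : X n) : X (n + 1) :=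
    ⟨_, (coexact_aux f α.1 (n + d - 1) ((n + 1 : ℕ) + d - 1)
      (by lia) (hK _) α.2).choose_spec⟩
  have hφ (k : ℕ) (x : X k) : (φ k x).1.EqUpTo x.1 (d + k) := fun p q hpq hp => by
    dsimp [φ]
    rw [add_eq_left, Cochain.single_v_eq_zero _ _ _ _ _ (by lia)]
  refine ⟨(Cochain.equivHomotopy f 0).symm ⟨limitSequence φ hφ x₀, ?_⟩⟩
  rw [Cochain.ofHom_zero, add_zero]
  ext n
  let k₀ := (n - d + 1).toNat
  rw [← (sequence φ x₀ k₀).2 n n (add_zero n) (by lia),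
    δ_v (-1) 0 (neg_add_cancel 1) _ n n (by lia) (n - 1) (n + 1) rfl (by lia),
    δ_v (-1) 0 (neg_add_cancel 1) _ n n (by lia) (n - 1) (n + 1) rfl (by lia),
    limitSequence_eqUpTo φ hφ x₀ k₀ n (n - 1) (by lia) (by lia),
    limitSequence_eqUpTo φ hφ x₀ k₀ (n + 1) n (by lia) (by lia)]

/-- **K2**: a map from a coexact complex to a bounded below complex is null homotopic. -/
theorem nullhomotopic_of_coexact {K L : CochainComplex V ℤ} (f : K ⟶ L) (d : ℤ)
    (hL : ∀ n < d, IsZero (L.X n)) (hK : ∀ n, CoexactFor K (L.X n)) :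
    Nonempty (Homotopy f 0) :=
  nullhomotopic_of_coexact' f d (fun n hn => (hL n hn).eq_of_tgt _ _) hK

end K2

section K1

/-- two cochains agree in degrees `≥ p₀` -/
def EqDownTo {K L : CochainComplex V ℤ} {n : ℤ} (α β : Cochain K L n) (p₀ : ℤ) : Prop :=
  ∀ (p q : ℤ) (hpq : p + n = q), p₀ ≤ p → α.v p q hpq = β.v p q hpq

theorem exact_aux {K L : CochainComplex V ℤ}
    (f : K ⟶ L) (α : Cochain K L (-1)) (n m : ℤ) (hnm : m + 1 = n)
    (hK : ExactFor (K.X m) L)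
    (hα : EqDownTo (δ (-1) 0 α) (Cochain.ofHom f) n) :
    ∃ (h : K.X m ⟶ L.X (m - 1)),
      EqDownTo (δ (-1) 0 (α + Cochain.single h (-1))) (Cochain.ofHom f) m := by
  subst hnm
  let u := f.f m - K.d m (m + 1) ≫ α.v (m + 1) m (by lia) - α.v m (m - 1) (by lia) ≫ L.d (m - 1) m
  have hu : u ≫ L.d m (m + 1) = 0 := by
    have eq := hα (m + 1) (m + 1) (add_zero _) (by rfl)
    simp only [δ_v (-1) 0 (neg_add_cancel 1) α (m + 1) (m + 1) (add_zero _) m (m + 2)
      (by lia) (by lia), Int.negOnePow_zero, one_smul, Cochain.ofHom_v] at eq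
    simp only [u, sub_comp, Category.assoc, L.d_comp_d, comp_zero, sub_zero, f.comm]
    rw [← eq]
    simp
  obtain ⟨β, hβ⟩ : ∃ (β : K.X m ⟶ L.X (m - 1)), β ≫ L.d (m - 1) m = u :=
    hK (m - 1) m (m + 1) (by lia) rfl u hu
  refine ⟨β, ?_⟩
  intro p q hpq hp
  obtain rfl : p = q := by lia
  obtain hp | rfl := hp.lt_or_eq
  · rw [δ_add, Cochain.add_v, hα p p (by lia) (by lia), add_eq_left,
      δ_v (-1) 0 (neg_add_cancel 1) _ p p hpq (p - 1) (p + 1) rfl rfl,
      Cochain.single_v_eq_zero _ _ _ _ _ (by lia),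
      Cochain.single_v_eq_zero _ _ _ _ _ (by lia)]
    simp
  · rw [δ_v (-1) 0 (neg_add_cancel 1) _ m m (by lia) (m - 1) (m + 1)
      (by lia) (by lia), Cochain.add_v, Cochain.add_v,
      Cochain.single_v_eq_zero β (-1) (m + 1) m (by lia) (by lia)]
    simp [hβ, u]

/-- the iterates -/
def downSeq {K L : CochainComplex V ℤ} {X : ℕ → Set (Cochain K L (-1))}
    (φ : ∀ n : ℕ, X n → X (n + 1)) (x₀ : X 0) : ∀ n, X n
  | 0 => x₀
  | n + 1 => φ n (downSeq φ x₀ n)

theorem downSeq_eq {K L : CochainComplex V ℤ} {X : ℕ → Set (Cochain K L (-1))}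
    (φ : ∀ n : ℕ, X n → X (n + 1)) (x₀ : X 0) (p₀ : ℤ)
    (hφ : ∀ (n : ℕ) (x : X n), EqDownTo (φ n x).1 x.1 (p₀ - n)) (n₁ n₂ : ℕ) (h : n₁ ≤ n₂) :
    EqDownTo (downSeq φ x₀ n₁).1 (downSeq φ x₀ n₂).1 (p₀ - n₁) := by
  obtain ⟨k, rfl⟩ := Nat.exists_eq_add_of_le h
  clear h
  induction k with
  | zero => intro _ _ _ _; rfl
  | succ k hk =>
    intro p q hpq hp
    rw [hk p q hpq hp]
    exact (hφ (n₁ + k) (downSeq φ x₀ (n₁ + k)) p q hpq (by lia)).symm

/-- **K1'**: a map to an exact complex which vanishes in degrees `> d` is null homotopic. -/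
theorem nullhomotopic_of_exact' {K L : CochainComplex V ℤ} (f : K ⟶ L) (d : ℤ)
    (hK : ∀ n, d < n → f.f n = 0) (hL : ∀ n, ExactFor (K.X n) L) :
    Nonempty (Homotopy f 0) := by
  let X (n : ℕ) : Set (Cochain K L (-1)) :=
    Set.ofPred (fun α => EqDownTo (δ (-1) 0 α) (Cochain.ofHom f) (d + 1 - n))
  let x₀ : X 0 := ⟨0, fun p q hpq hp ↦ by
    obtain rfl : p = q := by lia
    rw [δ_zero, Cochain.zero_v, Cochain.ofHom_v, hK p (by simp at hp; lia)]⟩
  let φ (n : ℕ) (α : X n) : X (n + 1) :=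
    ⟨_, (exact_aux f α.1 (d + 1 - n) (d + 1 - (n + 1 : ℕ))
      (by push_cast; lia) (hL _) α.2).choose_spec⟩
  have hφ (k : ℕ) (x : X k) : EqDownTo (φ k x).1 x.1 (d + 1 - k) := fun p q hpq hp => by
    dsimp [φ]
    rw [add_eq_left, Cochain.single_v_eq_zero _ _ _ _ _ (by lia)]
  let lim : Cochain K L (-1) :=
    Cochain.mk (fun p q hpq => (downSeq φ x₀ (d + 1 - p).toNat).1.v p q hpq)
  have hlim (n : ℕ) : EqDownTo lim (downSeq φ x₀ n).1 (d + 1 - n) := by
    intro p q hpq hp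
    have := downSeq_eq φ x₀ (d + 1) hφ (d + 1 - p).toNat n (by lia) p q hpq (by lia)
    exact this
  refine ⟨(Cochain.equivHomotopy f 0).symm ⟨lim, ?_⟩⟩
  rw [Cochain.ofHom_zero, add_zero]
  ext n
  let k₀ := (d + 1 - n + 1).toNat
  rw [← (downSeq φ x₀ k₀).2 n n (add_zero n) (by lia),
    δ_v (-1) 0 (neg_add_cancel 1) _ n n (by lia) (n - 1) (n + 1) rfl (by lia),
    δ_v (-1) 0 (neg_add_cancel 1) _ n n (by lia) (n - 1) (n + 1) rfl (by lia),
    hlim k₀ n (n - 1) (by lia) (by lia),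
    hlim k₀ (n + 1) n (by lia) (by lia)]

/-- **K1**: a map from a bounded above complex to an exact complex is null homotopic. -/
theorem nullhomotopic_of_exact {K L : CochainComplex V ℤ} (f : K ⟶ L) (d : ℤ)
    (hK : ∀ n, d < n → IsZero (K.X n)) (hL : ∀ n, ExactFor (K.X n) L) :
    Nonempty (Homotopy f 0) :=
  nullhomotopic_of_exact' f d (fun n hn => (hK n hn).eq_of_src _ _) hL

end K1

end Lens
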