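import Mathlib

/-!
# Exceptional sequences, mutations and the braid relation
-/

open CategoryTheory CategoryTheory.Limits CategoryTheory.Pretriangulated

namespace Lens

universe w v u

section

variable (k : Type w) [Field k] {T : Type u} [Category.{v} T] [Preadditive T] [Linear k T]
  [HasZeroObject T] [HasShift T ℤ] [∀ n : ℤ, (shiftFunctor T n).Additive] [Pretriangulated T]

/-- `E` is exceptional: `End E = k` and `Hom (E, E⟦m⟧) = 0` for `m ≠ 0`. -/
structure IsExceptional (E : T) : Prop where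
  end_eq : ∀ f : E ⟶ E, ∃ a : k, f = a • 𝟙 E
  id_ne : 𝟙 E ≠ 0
  shift_zero : ∀ m : ℤ, m ≠ 0 → ∀ f : E ⟶ E⟦m⟧, f = 0

/-- `(E 0, …, E (n-1))` is an exceptional sequence: all terms are exceptional and
`Hom (E j, (E i)⟦m⟧) = 0` for `i < j` and all `m`. -/
structure IsExceptionalSeq {n : ℕ} (E : Fin n → T) : Prop where
  exc : ∀ i, IsExceptional k (E i)
  semi : ∀ i j, i < j → ∀ m : ℤ, ∀ f : E j ⟶ (E i)⟦m⟧, f = 0

/-- Every thick triangulated subcategory which contains all `E i` is everything. -/
def IsComplete {n : ℕ} (E : Fin n → T) : Prop :=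
  ∀ P : ObjectProperty T, P.IsTriangulated → P.IsStableUnderRetracts →
    (∀ i, P (E i)) → ∀ X : T, P X

variable (T) in
/-- Complete exceptional sequences of length `n`. -/
def CES (n : ℕ) : Type _ := {E : Fin n → T // IsExceptionalSeq k E ∧ IsComplete E}

/-- `L` is (isomorphic to) the left mutation of `F` over `E`: the cone of the canonical map
`⨁ₘ Hom (E⟦m⟧, F) ⊗ E⟦m⟧ ⟶ F`. The tensor products are written with bases `b m` of the (finite
dimensional) spaces `Hom (E⟦m⟧, F)`, which vanish for `m ∉ s`. -/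
def IsLeftMutation (E F L : T) : Prop :=
  ∃ (s : Finset ℤ) (r : ℤ → ℕ) (b : ∀ m : ℤ, Module.Basis (Fin (r m)) k (E⟦m⟧ ⟶ F)),
    (∀ m, m ∉ s → r m = 0) ∧
    ∃ (g : F ⟶ L) (h : L ⟶ (⨁ fun p : (Σ m : s, Fin (r m)) => E⟦(p.1 : ℤ)⟧)⟦(1 : ℤ)⟧),
      Triangle.mk (biproduct.desc fun p : (Σ m : s, Fin (r m)) => b p.1 p.2) g h ∈ distTriang T

/-- The elementary moves between complete exceptional sequences: isomorphisms and shifts of
terms, and the action of the `i`-th generator `σ i` of the braid group, which replaces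
`(E i, E (i+1))` by `(L, E i)` with `L` the left mutation of `E (i+1)` over `E i`. -/
inductive Step {n : ℕ} : CES k T n → CES k T n → Prop
  | shift (E E' : CES k T n) (h : ∀ i, ∃ m : ℤ, Nonempty (E'.1 i ≅ (E.1 i)⟦m⟧)) : Step E E'
  | sigma (E E' : CES k T n) (i : ℕ) (hi : i + 1 < n)
      (h₀ : IsLeftMutation k (E.1 ⟨i, by omega⟩) (E.1 ⟨i + 1, hi⟩) (E'.1 ⟨i, by omega⟩))
      (h₁ : E'.1 ⟨i + 1, hi⟩ = E.1 ⟨i, by omega⟩)
      (h₂ : ∀ j : Fin n, j.1 ≠ i → j.1 ≠ i + 1 → E'.1 j = E.1 j) : Step E E'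

/-- The orbit relation of the braid group action by mutations (up to isomorphism and shifts
of the terms): the equivalence relation generated by the elementary moves. -/
def SameOrbit {n : ℕ} (E E' : CES k T n) : Prop := Relation.EqvGen (Step k) E E'

variable (T) in
/-- The braid group actions on complete exceptional sequences are transitive. -/
def BraidTransitive : Prop := ∀ (n : ℕ) (E E' : CES k T n), SameOrbit k E E'

end

end Lens
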