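import Mathlib

/-!
# Vector bundles and stable models over a category of line bundles

`𝓛` is the category of line bundles `O(x)` of a weighted projective line, `x ∈ L`, with
`Hom (O(x), O(y)) = S_{y-x}`, and `Rm f` says that the morphism `f` is given by an element of
`k[T₀, T₁]`.

* An `L`-graded `S`-module `M` is a `k`-linear functor `𝓛ᵒᵖ ⥤ ModuleCat k`:
  `M.obj (op O(-y)) = M_y`, and an element of `S_{x-y} = Hom (O(-x), O(-y))` acts `M_y → M_x`.
* `IsVect M`: `M` is finite and free over `k[T₀, T₁]` (with homogeneous basis), i.e. `M` is a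
  graded maximal Cohen-Macaulay module; these are the vector bundles on the weighted projective
  line (Geigle-Lenzing).
* `IsExactGr f g`: `0 → M₁ → M₂ → M₃ → 0` is exact in every degree, i.e. exact under
  `Hom (O(x), -)` for every line bundle `O(x)`.
* `IsStableModel q`: `q` exhibits `T` as the stable category of vector bundles: the quotient modulo
  the morphisms which factor through finite direct sums of line bundles, with the triangulated
  structure induced by the distinguished exact sequences.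
-/

open CategoryTheory CategoryTheory.Limits CategoryTheory.Pretriangulated Opposite

namespace Lens

universe w v u u' u₁ v₁

namespace Gen

variable {k : Type v} [Field k] {𝓛 : Type u} [Category.{v} 𝓛] [Preadditive 𝓛] [Linear k 𝓛]

/-- `M` is a graded module: the functor is `k`-linear -/
def IsGr (M : 𝓛ᵒᵖ ⥤ ModuleCat.{v} k) : Prop :=
  (∀ {y z : 𝓛} (f g : y ⟶ z), M.map (f + g).op = M.map f.op + M.map g.op) ∧
    ∀ {y z : 𝓛} (a : k) (f : y ⟶ z), M.map (a • f).op = a • M.map f.op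

variable (Rm : ∀ ⦃y z : 𝓛⦄, (y ⟶ z) → Prop)

/-- `M` is a graded module, finite and free over `k[T₀, T₁]`: there are homogeneous elements `m j`
(of degree `- deg (z j)`) such that every homogeneous element `u` is in a unique way of the form
`∑ f j • m j` with homogeneous `f j ∈ k[T₀, T₁]`. -/
def IsVect (M : 𝓛ᵒᵖ ⥤ ModuleCat.{v} k) : Prop :=
  IsGr M ∧ ∃ (r : ℕ) (z : Fin r → 𝓛) (m : ∀ j, M.obj (op (z j))),
    ∀ (w : 𝓛) (u : M.obj (op w)), ∃! f : ∀ j, w ⟶ z j,
      (∀ j, Rm (f j)) ∧ u = ∑ j, M.map (f j).op (m j)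

/-- the category of vector bundles -/
abbrev Vect : Type _ := ObjectProperty.FullSubcategory (IsVect (k := k) Rm)

variable {Rm}

/-- the distinguished exact sequences `0 → M₁ → M₂ → M₃ → 0`: exact in every degree -/
def IsExactGr {M₁ M₂ M₃ : 𝓛ᵒᵖ ⥤ ModuleCat.{v} k} (f : M₁ ⟶ M₂) (g : M₂ ⟶ M₃) : Prop :=
  ∀ z : 𝓛, Function.Injective (f.app (op z)) ∧ Function.Exact (f.app (op z)) (g.app (op z)) ∧
    Function.Surjective (g.app (op z))

/-- the distinguished exact sequences `0 → M₁ → M₂ → M₃ → 0` of vector bundles -/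
abbrev IsExact {M₁ M₂ M₃ : Vect (k := k) Rm} (f : M₁ ⟶ M₂) (g : M₂ ⟶ M₃) : Prop :=
  IsExactGr f.hom g.hom

/-- `f` factors through a finite direct sum of line bundles -/
def FactorsLB {M N : 𝓛ᵒᵖ ⥤ ModuleCat.{v} k} (f : M ⟶ N) : Prop :=
  ∃ (r : ℕ) (z : Fin r → 𝓛) (a : ∀ j, M ⟶ (linearYoneda k 𝓛).obj (z j))
    (b : ∀ j, (linearYoneda k 𝓛).obj (z j) ⟶ N), f = ∑ j, a j ≫ b j

/-- `q : 𝓥 ⥤ T` is the quotient modulo the morphisms `f` with `null f`, and `T` is triangulated
in such a way that every sequence `(f, g)` with `ses f g` gives a distinguished triangle. -/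
structure IsStableQuotient (k : Type v) [Field k] {𝓥 : Type u₁} [Category.{v₁} 𝓥] [Preadditive 𝓥]
    [Linear k 𝓥] (ses : ∀ ⦃A B C : 𝓥⦄, (A ⟶ B) → (B ⟶ C) → Prop)
    (null : ∀ ⦃A B : 𝓥⦄, (A ⟶ B) → Prop) {T : Type u'} [Category.{w} T] [Preadditive T]
    [Linear k T] [HasZeroObject T] [HasShift T ℤ] [∀ n : ℤ, (shiftFunctor T n).Additive]
    [Pretriangulated T] (q : 𝓥 ⥤ T) : Prop where
  surj : ∀ Y : T, ∃ M : 𝓥, Nonempty (q.obj M ≅ Y)
  full : ∀ {M N : 𝓥} (g : q.obj M ⟶ q.obj N), ∃ f : M ⟶ N, q.map f = g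
  map_add : ∀ {M N : 𝓥} (f g : M ⟶ N), q.map (f + g) = q.map f + q.map g
  map_smul : ∀ {M N : 𝓥} (a : k) (f : M ⟶ N), q.map (a • f) = a • q.map f
  map_eq_zero_iff : ∀ {M N : 𝓥} (f : M ⟶ N), q.map f = 0 ↔ null f
  triangle : ∀ {M₁ M₂ M₃ : 𝓥} (f : M₁ ⟶ M₂) (g : M₂ ⟶ M₃), ses f g →
    ∃ h : q.obj M₃ ⟶ (q.obj M₁)⟦(1 : ℤ)⟧, Triangle.mk (q.map f) (q.map g) h ∈ distTriang T

/-- `T` is the stable category of vector bundles (via `q`): the quotient modulo the morphisms which
factor through finite direct sums of line bundles, with a distinguished triangle for every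
distinguished exact sequence. -/
abbrev IsStableModel {T : Type u'} [Category.{w} T] [Preadditive T] [Linear k T]
    [HasZeroObject T] [HasShift T ℤ] [∀ n : ℤ, (shiftFunctor T n).Additive] [Pretriangulated T]
    (q : Vect (k := k) Rm ⥤ T) : Prop :=
  IsStableQuotient k (fun ⦃A B C : Vect (k := k) Rm⦄ (f : A ⟶ B) (g : B ⟶ C) =>
    IsExactGr f.hom g.hom) (fun ⦃A B : Vect (k := k) Rm⦄ (f : A ⟶ B) => FactorsLB f.hom) q

end Gen

end Lens
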