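import Mathlib
import Pool.Agent.Lens.Defs
import Pool.Agent.Lens.LitG
import Pool.Agent.Lens.MatInst
import Pool.Agent.Lens.DK

/-!
# Vector bundles over a general category of line bundles; cycles of complexes

`𝓛` is the category of line bundles and `Rm` the class of morphisms given by elements of
`k[T₀, T₁]`.
-/

open CategoryTheory CategoryTheory.Limits CategoryTheory.Pretriangulated Opposite

namespace Lens

universe w v u u'


/-! ### cycles -/

section Cycles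

variable (k : Type v) [Field k] {𝓛 : Type u} [Category.{v} 𝓛] [Preadditive 𝓛] [Linear k 𝓛]

/-- the object `E w` of `Mat_ 𝓛` -/
noncomputable abbrev EE (w : 𝓛) : Mat_ 𝓛 := (Mat_.embedding 𝓛).obj w

/-- the map `E f` -/
noncomputable abbrev Em {w w' : 𝓛} (f : w' ⟶ w) : EE w' ⟶ EE w := (Mat_.embedding 𝓛).map f

/-- the degree `w` part of the cycles: `{u : E w ⟶ K⁰ | u ≫ d = 0}` -/
noncomputable def cyc (K : CochainComplex (Mat_ 𝓛) ℤ) (w : 𝓛) :
    Submodule k (EE w ⟶ K.X 0) :=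
  LinearMap.ker (Linear.rightComp k (EE w) (K.d 0 1))

variable {k}

theorem mem_cyc {K : CochainComplex (Mat_ 𝓛) ℤ} {w : 𝓛} {u : EE w ⟶ K.X 0} :
    u ∈ cyc k K w ↔ u ≫ K.d 0 1 = 0 := by
  simp [cyc]

theorem Em_add {w w' : 𝓛} (f g : w' ⟶ w) : Em (f + g) = Em f + Em g := by
  ext i j
  rfl

theorem Em_smul {w w' : 𝓛} (a : k) (f : w' ⟶ w) : Em (a • f) = a • Em f := by
  ext i j
  rfl

/-- precomposition on cycles -/
noncomputable def cycMap (K : CochainComplex (Mat_ 𝓛) ℤ) {w w' : 𝓛} (f : w' ⟶ w) :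
    cyc k K w →ₗ[k] cyc k K w' where
  toFun u := ⟨Em f ≫ u.1, by
    have := u.2
    rw [mem_cyc] at this ⊢
    rw [Category.assoc, this, comp_zero]⟩
  map_add' u v := by
    apply Subtype.ext
    simp
  map_smul' a u := by
    apply Subtype.ext
    simp

@[simp] theorem cycMap_coe (K : CochainComplex (Mat_ 𝓛) ℤ) {w w' : 𝓛} (f : w' ⟶ w)
    (u : cyc k K w) : (cycMap K f u).1 = Em f ≫ u.1 := rfl

variable (k) in
/-- the module of cycles `Z⁰ K` -/
noncomputable def Zobj (K : CochainComplex (Mat_ 𝓛) ℤ) : 𝓛ᵒᵖ ⥤ ModuleCat.{v} k where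
  obj w := ModuleCat.of k (cyc k K w.unop)
  map f := ModuleCat.ofHom (cycMap K f.unop)
  map_id w := by
    refine ModuleCat.hom_ext (LinearMap.ext fun u => Subtype.ext ?_)
    change Em (𝟙 w.unop) ≫ u.1 = u.1
    rw [Em, CategoryTheory.Functor.map_id, Category.id_comp]
  map_comp f g := by
    refine ModuleCat.hom_ext (LinearMap.ext fun u => Subtype.ext ?_)
    change Em (g.unop ≫ f.unop) ≫ u.1 = Em g.unop ≫ Em f.unop ≫ u.1
    rw [Em, Em, Em, CategoryTheory.Functor.map_comp, Category.assoc]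

/-- postcomposition on cycles -/
noncomputable def cycPost {K L : CochainComplex (Mat_ 𝓛) ℤ} (φ : K ⟶ L) (w : 𝓛) :
    cyc k K w →ₗ[k] cyc k L w where
  toFun u := ⟨u.1 ≫ φ.f 0, by
    have := u.2
    rw [mem_cyc] at this ⊢
    rw [Category.assoc, φ.comm, reassoc_of% this, zero_comp]⟩
  map_add' u v := Subtype.ext (by simp)
  map_smul' a u := Subtype.ext (by simp)

variable (k) in
/-- `Z⁰` on chain maps -/
noncomputable def Zmap {K L : CochainComplex (Mat_ 𝓛) ℤ} (φ : K ⟶ L) : Zobj k K ⟶ Zobj k L where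
  app w := ModuleCat.ofHom (cycPost φ w.unop)
  naturality w w' f := by
    refine ModuleCat.hom_ext (LinearMap.ext fun u => Subtype.ext ?_)
    change (Em f.unop ≫ u.1) ≫ φ.f 0 = Em f.unop ≫ (u.1 ≫ φ.f 0)
    rw [Category.assoc]

theorem Zmap_app_coe {K L : CochainComplex (Mat_ 𝓛) ℤ} (φ : K ⟶ L) (w : 𝓛)
    (u : cyc k K w) :
    Subtype.val (p := fun x => x ∈ cyc k L w) ((Zmap k φ).app (op w) u) = u.1 ≫ φ.f 0 := rfl

theorem Zobj_map_coe (K : CochainComplex (Mat_ 𝓛) ℤ) {w w' : 𝓛} (f : w' ⟶ w)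
    (u : cyc k K w) :
    Subtype.val (p := fun x => x ∈ cyc k K w') ((Zobj k K).map f.op u) = Em f ≫ u.1 := rfl

theorem Z_hom_ext {K : CochainComplex (Mat_ 𝓛) ℤ} {M : 𝓛ᵒᵖ ⥤ ModuleCat.{v} k}
    {η θ : Zobj k K ⟶ M}
    (h : ∀ (w : 𝓛) (u : cyc k K w), η.app (op w) u = θ.app (op w) u) : η = θ := by
  ext w u
  exact h w.unop u

theorem Zmap_eq_iff {K L : CochainComplex (Mat_ 𝓛) ℤ} (η : Zobj k K ⟶ Zobj k L) (φ : K ⟶ L) :
    Zmap k φ = η ↔ ∀ (w : 𝓛) (u : cyc k K w),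
      Subtype.val (p := fun x => x ∈ cyc k L w) (η.app (op w) u) = u.1 ≫ φ.f 0 := by
  constructor
  · rintro rfl w u
    rfl
  · intro h
    refine Z_hom_ext fun w u => Subtype.ext ?_
    exact (h w u).symm

variable (k) (𝓛) in
/-- the functor `Z⁰` -/
noncomputable def Zf : CochainComplex (Mat_ 𝓛) ℤ ⥤ 𝓛ᵒᵖ ⥤ ModuleCat.{v} k where
  obj K := Zobj k K
  map φ := Zmap k φ
  map_id K := by
    rw [Zmap_eq_iff]
    intro w u
    simp
  map_comp φ ψ := by
    rw [Zmap_eq_iff]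
    intro w u
    change (u.1 ≫ φ.f 0) ≫ ψ.f 0 = _
    simp

theorem Zobj_isGr (K : CochainComplex (Mat_ 𝓛) ℤ) : Gen.IsGr (Zobj k K) := by
  constructor
  · intro y z f g
    refine ModuleCat.hom_ext (LinearMap.ext fun u => Subtype.ext ?_)
    change Em (f + g) ≫ u.1 = Em f ≫ u.1 + Em g ≫ u.1
    rw [Em_add, Preadditive.add_comp]
  · intro y z a f
    refine ModuleCat.hom_ext (LinearMap.ext fun u => Subtype.ext ?_)
    change Em (a • f) ≫ u.1 = a • (Em f ≫ u.1)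
    rw [Em_smul, Linear.smul_comp]

end Cycles

end Lens
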