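import Mathlib
import Pool.Agent.Lens.Lit3a

/-!
# Vector bundles and stable models: transport along an equivalence of categories of line bundles
-/

open CategoryTheory CategoryTheory.Limits CategoryTheory.Pretriangulated Opposite

namespace Lens

universe w u' v u₁ u₂

namespace Gen

variable {k : Type v} [Field k]
  {𝓐 : Type u₁} [Category.{v} 𝓐] [Preadditive 𝓐] [Linear k 𝓐]
  {𝓑 : Type u₂} [Category.{v} 𝓑] [Preadditive 𝓑] [Linear k 𝓑]

theorem isGr_pre (G : 𝓐 ⥤ 𝓑) [G.Additive] [G.Linear k]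
    {M : 𝓑ᵒᵖ ⥤ ModuleCat.{v} k} (hM : IsGr M) : IsGr (G.op ⋙ M) := by
  refine ⟨fun f g => ?_, fun a f => ?_⟩
  · change M.map (G.map (f + g)).op = M.map (G.map f).op + M.map (G.map g).op
    rw [G.map_add, hM.1]
  · change M.map (G.map (a • f)).op = a • M.map (G.map f).op
    rw [G.map_smul, hM.2]

/-- Data of an equivalence of categories of line bundles. -/
structure LBEquiv (k : Type v) [Field k] (𝓐 : Type u₁) [Category.{v} 𝓐] [Preadditive 𝓐]
    [Linear k 𝓐] (𝓑 : Type u₂) [Category.{v} 𝓑] [Preadditive 𝓑] [Linear k 𝓑]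
    (RA : ∀ ⦃y z : 𝓐⦄, (y ⟶ z) → Prop) (RB : ∀ ⦃y z : 𝓑⦄, (y ⟶ z) → Prop) where
  G : 𝓐 ⥤ 𝓑
  H : 𝓑 ⥤ 𝓐
  η : 𝟭 𝓐 ≅ G ⋙ H
  ε : H ⋙ G ≅ 𝟭 𝓑
  Ga : G.Additive
  Gl : G.Linear k
  Ha : H.Additive
  Hl : H.Linear k
  R_G : ∀ (w : 𝓐) (z : 𝓑) (f : w ⟶ H.obj z), RA f ↔ RB (G.map f ≫ ε.hom.app z)
  R_H : ∀ (w : 𝓑) (z : 𝓐) (f : w ⟶ G.obj z), RB f ↔ RA (H.map f ≫ η.inv.app z)

namespace LBEquiv

variable {RA : ∀ ⦃y z : 𝓐⦄, (y ⟶ z) → Prop} {RB : ∀ ⦃y z : 𝓑⦄, (y ⟶ z) → Prop}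
  (e : LBEquiv k 𝓐 𝓑 RA RB)

attribute [instance] LBEquiv.Ga LBEquiv.Gl LBEquiv.Ha LBEquiv.Hl

/-- the inverse -/
def symm : LBEquiv k 𝓑 𝓐 RB RA where
  G := e.H
  H := e.G
  η := e.ε.symm
  ε := e.η.symm
  Ga := e.Ha
  Gl := e.Hl
  Ha := e.Ga
  Hl := e.Gl
  R_G := e.R_H
  R_H := e.R_G

/-- the equivalence of categories -/
noncomputable def equiv : 𝓐 ≌ 𝓑 := CategoryTheory.Equivalence.mk e.G e.H e.η e.ε

instance : e.G.IsEquivalence := e.equiv.isEquivalence_functor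

instance : e.H.IsEquivalence := e.equiv.isEquivalence_inverse

/-- the hom bijection `Hom (w, H z) = Hom (G w, z)` -/
theorem bij (w : 𝓐) (z : 𝓑) :
    Function.Bijective (fun f : w ⟶ e.H.obj z => e.G.map f ≫ e.ε.hom.app z) := by
  constructor
  · intro f g h
    have : e.G.map f = e.G.map g := (cancel_mono (e.ε.hom.app z)).1 h
    exact e.G.map_injective this
  · intro g
    refine ⟨e.G.preimage (g ≫ e.ε.inv.app z), ?_⟩
    simp

theorem isVect_pre {M : 𝓑ᵒᵖ ⥤ ModuleCat.{v} k} (hM : IsVect RB M) :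
    IsVect RA (e.G.op ⋙ M) := by
  obtain ⟨h1, r, z, m, h⟩ := hM
  refine ⟨isGr_pre e.G h1, r, fun j => e.H.obj (z j),
    fun j => M.map (e.ε.hom.app (z j)).op (m j), ?_⟩
  intro w u
  have hb : Function.Bijective (fun (f : ∀ j, w ⟶ e.H.obj (z j)) (j : Fin r) =>
      e.G.map (f j) ≫ e.ε.hom.app (z j)) := by
    constructor
    · intro f g hfg
      funext j
      exact (e.bij w (z j)).1 (congrFun hfg j)
    · intro g
      choose f hf using fun j => (e.bij w (z j)).2 (g j)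
      exact ⟨f, funext hf⟩
  have key := (hb.existsUnique_iff (p := fun g : ∀ j, e.G.obj w ⟶ z j =>
    (∀ j, RB (g j)) ∧ u = ∑ j, M.map (g j).op (m j))).1 (h (e.G.obj w) u)
  obtain ⟨f, ⟨hf1, hf2⟩, hf3⟩ := key
  refine ⟨f, ⟨fun j => (e.R_G w (z j) (f j)).2 (hf1 j), ?_⟩, ?_⟩
  · rw [hf2]
    refine Finset.sum_congr rfl fun j _ => ?_
    rw [op_comp, M.map_comp]
    rfl
  · rintro g ⟨hg1, hg2⟩
    refine hf3 g ⟨fun j => (e.R_G w (z j) (g j)).1 (hg1 j), ?_⟩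
    rw [hg2]
    refine Finset.sum_congr rfl fun j _ => ?_
    rw [op_comp, M.map_comp]
    rfl

/-- the induced functor on vector bundles -/
noncomputable def E : Vect (k := k) RB ⥤ Vect (k := k) RA :=
  ObjectProperty.lift _ (ObjectProperty.ι _ ⋙
    (Functor.whiskeringLeft _ _ (ModuleCat.{v} k)).obj e.G.op)
    (fun M => e.isVect_pre M.property)

theorem E_obj_obj (M : Vect (k := k) RB) : (e.E.obj M).obj = e.G.op ⋙ M.obj := rfl

theorem E_map_hom {M N : Vect (k := k) RB} (f : M ⟶ N) :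
    (e.E.map f).hom = Functor.whiskerLeft e.G.op f.hom := rfl

/-- precomposition with `G.op` -/
noncomputable abbrev pre : (𝓑ᵒᵖ ⥤ ModuleCat.{v} k) ⥤ (𝓐ᵒᵖ ⥤ ModuleCat.{v} k) :=
  (Functor.whiskeringLeft _ _ (ModuleCat.{v} k)).obj e.G.op

noncomputable instance : e.pre.IsEquivalence :=
  (e.equiv.op.congrLeft (E := ModuleCat.{v} k)).isEquivalence_inverse

instance : e.E.Full where
  map_surjective {M N} f := by
    obtain ⟨g, hg⟩ := e.pre.map_surjective f.hom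
    exact ⟨ObjectProperty.homMk g, ObjectProperty.hom_ext _ hg⟩

instance : e.E.Faithful where
  map_injective {M N f g} h := by
    apply ObjectProperty.hom_ext
    apply e.pre.map_injective
    exact congrArg (fun t => t.hom) h

/-- the iso `Hom (G -, z) ≅ Hom (-, H z)` -/
noncomputable def yonIso (z : 𝓑) :
    e.G.op ⋙ (linearYoneda k 𝓑).obj z ≅ (linearYoneda k 𝓐).obj (e.H.obj z) := by
  refine (NatIso.ofComponents (fun w => ?_) ?_).symm
  · exact (LinearEquiv.ofBijective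
      ({ toFun := fun f => e.G.map f ≫ e.ε.hom.app z
         map_add' := fun f g => by rw [e.G.map_add, Preadditive.add_comp]
         map_smul' := fun a f => by
          rw [e.G.map_smul, Linear.smul_comp]; rfl } :
        (w.unop ⟶ e.H.obj z) →ₗ[k] (e.G.obj w.unop ⟶ z)) (e.bij w.unop z)).toModuleIso
  · intro w w' f
    refine ModuleCat.hom_ext (LinearMap.ext fun g => ?_)
    change e.G.map (f.unop ≫ g) ≫ e.ε.hom.app z = e.G.map f.unop ≫ e.G.map g ≫ e.ε.hom.app z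
    rw [e.G.map_comp, Category.assoc]

theorem factors_pre {M N : 𝓑ᵒᵖ ⥤ ModuleCat.{v} k} {f : M ⟶ N} (hf : FactorsLB f) :
    FactorsLB (Functor.whiskerLeft e.G.op f) := by
  obtain ⟨r, z, a, b, rfl⟩ := hf
  refine ⟨r, fun j => e.H.obj (z j), fun j => Functor.whiskerLeft e.G.op (a j) ≫
    (e.yonIso (z j)).hom, fun j => (e.yonIso (z j)).inv ≫ Functor.whiskerLeft e.G.op (b j), ?_⟩
  have h1 : ∀ j, (Functor.whiskerLeft e.G.op (a j) ≫ (e.yonIso (z j)).hom) ≫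
      ((e.yonIso (z j)).inv ≫ Functor.whiskerLeft e.G.op (b j)) =
      Functor.whiskerLeft e.G.op (a j ≫ b j) := by
    intro j
    rw [Category.assoc, Iso.hom_inv_id_assoc, Functor.whiskerLeft_comp]
  rw [Finset.sum_congr rfl fun j _ => h1 j]
  ext w : 2
  simp only [Functor.whiskerLeft_app, NatTrans.app_sum]

end LBEquiv

theorem FactorsLB.comp {M M' N N' : 𝓑ᵒᵖ ⥤ ModuleCat.{v} k} {f : M ⟶ N} (hf : FactorsLB f)
    (p : M' ⟶ M) (q : N ⟶ N') : FactorsLB (p ≫ f ≫ q) := by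
  obtain ⟨r, z, a, b, rfl⟩ := hf
  refine ⟨r, z, fun j => p ≫ a j, fun j => b j ≫ q, ?_⟩
  rw [Preadditive.sum_comp, Preadditive.comp_sum]
  exact Finset.sum_congr rfl fun j _ => by simp

namespace LBEquiv

variable {RA : ∀ ⦃y z : 𝓐⦄, (y ⟶ z) → Prop} {RB : ∀ ⦃y z : 𝓑⦄, (y ⟶ z) → Prop}
  (e : LBEquiv k 𝓐 𝓑 RA RB)

/-- `M ≅ M(G H -)` -/
noncomputable def delta (M : 𝓑ᵒᵖ ⥤ ModuleCat.{v} k) : M ≅ e.H.op ⋙ e.G.op ⋙ M :=
  NatIso.ofComponents (fun z => M.mapIso (e.ε.app z.unop).op) (fun {z w} f => by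
    change M.map f ≫ M.map (e.ε.hom.app w.unop).op =
      M.map (e.ε.hom.app z.unop).op ≫ M.map (e.G.map (e.H.map f.unop)).op
    rw [← M.map_comp, ← M.map_comp]
    congr 1
    apply Quiver.Hom.unop_inj
    exact (e.ε.hom.naturality f.unop).symm)

theorem factors_iff {M N : 𝓑ᵒᵖ ⥤ ModuleCat.{v} k} (f : M ⟶ N) :
    FactorsLB (Functor.whiskerLeft e.G.op f) ↔ FactorsLB f := by
  refine ⟨fun h => ?_, e.factors_pre⟩
  have h1 := (e.symm.factors_pre h).comp (e.delta M).hom (e.delta N).inv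
  have h2 : (e.delta M).hom ≫ Functor.whiskerLeft e.symm.G.op (Functor.whiskerLeft e.G.op f) ≫
      (e.delta N).inv = f := by
    rw [← Category.assoc, Iso.comp_inv_eq]
    ext z : 2
    change M.map (e.ε.hom.app z.unop).op ≫ f.app (op (e.G.obj (e.H.obj z.unop))) =
      f.app z ≫ N.map (e.ε.hom.app z.unop).op
    exact f.naturality (e.ε.hom.app z.unop).op
  exact h2 ▸ h1

theorem exact_pre {M₁ M₂ M₃ : Vect (k := k) RB} {f : M₁ ⟶ M₂} {g : M₂ ⟶ M₃}
    (h : IsExact f g) : IsExact (e.E.map f) (e.E.map g) := fun z => h (e.G.obj z)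

/-- stable models transport -/
theorem stable {T : Type u'} [Category.{w} T] [Preadditive T] [Linear k T]
    [HasZeroObject T] [HasShift T ℤ] [∀ n : ℤ, (shiftFunctor T n).Additive] [Pretriangulated T]
    {q : Vect (k := k) RA ⥤ T} (hq : IsStableModel q) : IsStableModel (e.E ⋙ q) where
  surj Y := by
    obtain ⟨M, ⟨i⟩⟩ := hq.surj Y
    have j : e.E.obj (e.symm.E.obj M) ≅ M :=
      ObjectProperty.isoMk _ (e.symm.delta M.obj).symm
    exact ⟨e.symm.E.obj M, ⟨q.mapIso j ≪≫ i⟩⟩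
  full g := by
    obtain ⟨f, hf⟩ := hq.full g
    obtain ⟨f', rfl⟩ := e.E.map_surjective f
    exact ⟨f', hf⟩
  map_add f g := by
    change q.map (e.E.map (f + g)) = q.map (e.E.map f) + q.map (e.E.map g)
    rw [← hq.map_add]
    rfl
  map_smul a f := by
    change q.map (e.E.map (a • f)) = a • q.map (e.E.map f)
    rw [← hq.map_smul]
    rfl
  map_eq_zero_iff f := by
    change q.map (e.E.map f) = 0 ↔ _
    rw [hq.map_eq_zero_iff]
    exact e.factors_iff f.hom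
  triangle f g h := hq.triangle (e.E.map f) (e.E.map g) (e.exact_pre h)

end LBEquiv

end Gen

end Lens
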