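import Mathlib

/-!
# Weighted projective lines: the `L`-graded coordinate algebra and the category of line bundles
-/

open CategoryTheory MvPolynomial

namespace Lens

universe u

/-- A weighted projective line over `k`: `t` points with weights `p i ≥ 2`; the `i`-th point of
`ℙ¹` is given as the zero of the linear form `ℓ i = a i * T₀ + b i * T₁`. -/
structure WPL (k : Type u) [Field k] where
  t : ℕ
  p : Fin t → ℕ
  two_le : ∀ i, 2 ≤ p i
  a : Fin t → k
  b : Fin t → k
  ne : ∀ i, a i ≠ 0 ∨ b i ≠ 0
  indep : ∀ i j, i ≠ j → a i * b j ≠ a j * b i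

namespace WPL

variable {k : Type u} [Field k] (X : WPL k)

/-- the orbifold Euler characteristic -/
def chi : ℚ := 2 - ∑ i, (1 - 1 / (X.p i : ℚ))

/-- The relations `p i • x i = c` of the grading group. -/
def rel : AddSubgroup ((Fin X.t → ℤ) × ℤ) :=
  AddSubgroup.closure (Set.range fun i => (Pi.single i (X.p i : ℤ), (-1 : ℤ)))

/-- The grading group `L = ⟨x 1, …, x t, c | p i • x i = c⟩`. -/
def L : Type := ((Fin X.t → ℤ) × ℤ) ⧸ X.rel

instance instAddCommGroupL : AddCommGroup X.L := QuotientAddGroup.Quotient.addCommGroup X.rel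

/-- the generator `x i` of `L` -/
def x (i : Fin X.t) : X.L := QuotientAddGroup.mk (s := X.rel) (Pi.single i 1, 0)

/-- the canonical element `c` of `L` -/
def c : X.L := QuotientAddGroup.mk (s := X.rel) (0, 1)

theorem p_smul_x (i : Fin X.t) : (X.p i) • X.x i = X.c := by
  change (X.p i) • (QuotientAddGroup.mk (s := X.rel) (Pi.single i 1, 0)) =
    QuotientAddGroup.mk (s := X.rel) (0, 1)
  rw [← QuotientAddGroup.mk_nsmul, QuotientAddGroup.eq]
  have h : ((Pi.single i (X.p i : ℤ), (-1 : ℤ)) : (Fin X.t → ℤ) × ℤ) ∈ X.rel :=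
    AddSubgroup.subset_closure ⟨i, rfl⟩
  have h2 := X.rel.neg_mem h
  convert h2 using 1
  ext j
  · by_cases hj : j = i
    · subst hj; simp
    · simp [hj]
  · simp

/-- the `L`-valued weights of the variables `T₀, T₁` (weight `c`) and `x i` (weight `x i`) -/
def wt : Fin 2 ⊕ Fin X.t → X.L := Sum.elim (fun _ => X.c) X.x

/-- the polynomial ring `k[T₀, T₁, x 1, …, x t]` -/
abbrev Poly : Type u := MvPolynomial (Fin 2 ⊕ Fin X.t) k

/-- the relation `x i ^ p i - ℓ i (T₀, T₁)` -/
noncomputable def relPoly (i : Fin X.t) : X.Poly :=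
  (MvPolynomial.X (Sum.inr i)) ^ (X.p i) -
    (C (X.a i) * MvPolynomial.X (Sum.inl 0) + C (X.b i) * MvPolynomial.X (Sum.inl 1))

/-- the ideal generated by `x i ^ p i - ℓ i (T₀, T₁)` -/
noncomputable def ideal : Ideal X.Poly := Ideal.span (Set.range X.relPoly)

/-- the `L`-graded coordinate algebra
`S = k[T₀, T₁, x 1, …, x t] / (x i ^ p i - ℓ i (T₀, T₁))` -/
def S : Type u := X.Poly ⧸ X.ideal

noncomputable instance instCommRingS : CommRing X.S := Ideal.Quotient.commRing X.ideal

noncomputable instance instAlgebraS : Algebra k X.S := Ideal.Quotient.algebra k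

/-- the quotient map -/
noncomputable def proj : X.Poly →ₐ[k] X.S := Ideal.Quotient.mkₐ k X.ideal

/-- the homogeneous piece `S_d` -/
noncomputable def piece (d : X.L) : Submodule k X.S :=
  (weightedHomogeneousSubmodule k X.wt d).map X.proj.toLinearMap

/-- the variable `T_j` in `S` -/
noncomputable def T (j : Fin 2) : X.S := X.proj (MvPolynomial.X (Sum.inl j))

/-- the subalgebra `k[T₀, T₁]` of `S` -/
noncomputable def RT : Subalgebra k X.S := Algebra.adjoin k (Set.range X.T)

theorem one_mem_piece : (1 : X.S) ∈ X.piece 0 := by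
  refine ⟨1, ?_, map_one X.proj⟩
  exact (mem_weightedHomogeneousSubmodule _ _ _ _).2 (isWeightedHomogeneous_one k X.wt)

theorem mul_mem_piece {d e : X.L} {f g : X.S} (hf : f ∈ X.piece d) (hg : g ∈ X.piece e) :
    f * g ∈ X.piece (d + e) := by
  obtain ⟨f, hf, rfl⟩ := hf
  obtain ⟨g, hg, rfl⟩ := hg
  refine ⟨f * g, ?_, map_mul X.proj f g⟩
  exact (mem_weightedHomogeneousSubmodule _ _ _ _).2
    (((mem_weightedHomogeneousSubmodule _ _ _ _).1 hf).mul
      ((mem_weightedHomogeneousSubmodule _ _ _ _).1 hg))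

/-- The category of line bundles `O(x)`, `x ∈ L`, of the weighted projective line:
`Hom (O(x), O(y)) = S_{y-x}`. -/
structure LB where
  deg : X.L

namespace LB

variable {X}

/-- the morphisms `O(x) ⟶ O(y)`, i.e. the elements of `S_{y-x}` -/
def Hom (x y : LB X) : Type u := ↥(X.piece (y.deg - x.deg))

/-- the element of `S` underlying a morphism -/
def Hom.val {x y : LB X} (f : Hom x y) : X.S := Subtype.val f

theorem Hom.mem {x y : LB X} (f : Hom x y) : f.val ∈ X.piece (y.deg - x.deg) :=
  Subtype.property f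

theorem Hom.ext {x y : LB X} {f g : Hom x y} (h : f.val = g.val) : f = g := Subtype.ext h

theorem Hom.id_mem (x : LB X) : (1 : X.S) ∈ X.piece (x.deg - x.deg) := by
  rw [sub_self]
  exact X.one_mem_piece

theorem Hom.comp_mem {x y z : LB X} (f : Hom x y) (g : Hom y z) :
    f.val * g.val ∈ X.piece (z.deg - x.deg) := by
  have h := X.mul_mem_piece f.mem g.mem
  rwa [sub_add_sub_cancel'] at h

/-- the identity -/
noncomputable def Hom.id (x : LB X) : Hom x x := ⟨1, Hom.id_mem x⟩

/-- the composition: multiplication in `S` -/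
noncomputable def Hom.comp {x y z : LB X} (f : Hom x y) (g : Hom y z) : Hom x z :=
  ⟨f.val * g.val, Hom.comp_mem f g⟩

theorem Hom.id_comp {x y : LB X} (f : Hom x y) : (Hom.id x).comp f = f := Hom.ext (one_mul _)

theorem Hom.comp_id {x y : LB X} (f : Hom x y) : f.comp (Hom.id y) = f := Hom.ext (mul_one _)

theorem Hom.assoc {w x y z : LB X} (f : Hom w x) (g : Hom x y) (h : Hom y z) :
    (f.comp g).comp h = f.comp (g.comp h) := Hom.ext (mul_assoc _ _ _)

noncomputable instance instAddCommGroupHom (x y : LB X) : AddCommGroup (Hom x y) :=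
  Submodule.addCommGroup (X.piece (y.deg - x.deg))

noncomputable instance instModuleHom (x y : LB X) : Module k (Hom x y) :=
  Submodule.module (X.piece (y.deg - x.deg))

theorem Hom.add_comp (x y z : LB X) (f g : Hom x y) (h : Hom y z) :
    (f + g).comp h = f.comp h + g.comp h := Hom.ext (add_mul _ _ _)

theorem Hom.comp_add (x y z : LB X) (f : Hom x y) (g h : Hom y z) :
    f.comp (g + h) = f.comp g + f.comp h := Hom.ext (mul_add _ _ _)

theorem Hom.smul_comp (x y z : LB X) (r : k) (f : Hom x y) (g : Hom y z) :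
    (r • f).comp g = r • f.comp g := Hom.ext (Algebra.smul_mul_assoc _ _ _)

theorem Hom.comp_smul (x y z : LB X) (f : Hom x y) (r : k) (g : Hom y z) :
    f.comp (r • g) = r • f.comp g := Hom.ext (Algebra.mul_smul_comm _ _ _)

noncomputable instance instCategory : Category (LB X) where
  Hom := Hom
  id := Hom.id
  comp := Hom.comp
  id_comp := Hom.id_comp
  comp_id := Hom.comp_id
  assoc := Hom.assoc

noncomputable instance instPreadditive : Preadditive (LB X) where
  homGroup := instAddCommGroupHom
  add_comp := Hom.add_comp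
  comp_add := Hom.comp_add

noncomputable instance instLinear : Linear k (LB X) where
  homModule := instModuleHom
  smul_comp := Hom.smul_comp
  comp_smul := Hom.comp_smul

/-- the element of `S` underlying a morphism -/
def val {x y : LB X} (f : x ⟶ y) : X.S := Hom.val f

/-- a homogeneous element as a morphism -/
def mk' {x y : LB X} (f : X.S) (hf : f ∈ X.piece (y.deg - x.deg)) : x ⟶ y :=
  (⟨f, hf⟩ : ↥(X.piece (y.deg - x.deg)))

theorem hom_ext {x y : LB X} {f g : x ⟶ y} (h : val f = val g) : f = g := Hom.ext h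

theorem val_mem {x y : LB X} (f : x ⟶ y) : val f ∈ X.piece (y.deg - x.deg) := Hom.mem f

@[simp] theorem val_mk' {x y : LB X} (f : X.S) (hf : f ∈ X.piece (y.deg - x.deg)) :
    val (mk' f hf : x ⟶ y) = f := rfl

@[simp] theorem val_id (x : LB X) : val (𝟙 x) = 1 := rfl

@[simp] theorem val_comp {x y z : LB X} (f : x ⟶ y) (g : y ⟶ z) :
    val (f ≫ g) = val f * val g := rfl

@[simp] theorem val_add {x y : LB X} (f g : x ⟶ y) : val (f + g) = val f + val g := rfl

@[simp] theorem val_zero {x y : LB X} : val (0 : x ⟶ y) = 0 := rfl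

@[simp] theorem val_smul {x y : LB X} (r : k) (f : x ⟶ y) : val (r • f) = r • val f := rfl

end LB

end WPL

end Lens
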