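import Mathlib
import Pool.Agent.Lens.Defs
import Pool.Agent.Lens.WPL
import Pool.Agent.Lens.LitG

/-!
# The literal statement: the stable category of vector bundles on a weighted projective line
-/

open CategoryTheory CategoryTheory.Limits CategoryTheory.Pretriangulated Opposite

namespace Lens

universe w v u

namespace WPL

variable {k : Type u} [Field k]

/-- the morphisms `O(x) ⟶ O(y)` given by elements of `k[T₀, T₁] ⊆ S` -/
def RX {X : WPL k} ⦃y z : LB X⦄ (f : y ⟶ z) : Prop := LB.val f ∈ X.RT

/-- the category of vector bundles on `X` -/
abbrev Vect (X : WPL k) : Type _ := Gen.Vect (k := k) (RX (X := X))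

end WPL

/-- The full statement: there is a weighted projective line with `χ < 0` such that the stable
category of vector bundles exists (as a `k`-linear triangulated category), and in every model of
it the action of the braid groups on complete exceptional sequences is not transitive. -/
def NotTransitive (k : Type u) [Field k] : Prop :=
  ∃ X : WPL k, X.chi < 0 ∧
    (∃ (T : Type (max 1 u)) (_ : Category.{u} T) (_ : Preadditive T) (_ : Linear k T)
      (_ : HasZeroObject T) (_ : HasShift T ℤ) (_ : ∀ n : ℤ, (shiftFunctor T n).Additive)
      (_ : ∀ n : ℤ, (shiftFunctor T n).Linear k) (_ : Pretriangulated T) (_ : IsTriangulated T)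
      (q : WPL.Vect X ⥤ T), Gen.IsStableModel q) ∧
    ∀ (T : Type w) [Category.{v} T] [Preadditive T] [Linear k T] [HasZeroObject T]
      [HasShift T ℤ] [∀ n : ℤ, (shiftFunctor T n).Additive]
      [∀ n : ℤ, (shiftFunctor T n).Linear k] [Pretriangulated T] (q : WPL.Vect X ⥤ T),
      Gen.IsStableModel q → ¬ BraidTransitive k T

end Lens
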