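import Mathlib
import Pool.Agent.Lens.Lit3a
import Pool.Agent.Lens.LB

/-! # The class of `k[T₀, T₁]`-morphisms of `LB lam`, and vector bundles over `LB lam` -/

open CategoryTheory Opposite

namespace Lens

universe u

variable {k : Type u} [Field k] {n : ℕ} {lam : Fin n → Fin 2 → k}

/-- the morphisms given by elements of `k[T₀, T₁]` -/
def Rlam : ∀ ⦃y z : LB lam⦄, (y ⟶ z) → Prop := fun _ _ f => LB.Hom.f f ∈ (iota lam).range

variable (lam) in
/-- vector bundles, as graded modules -/
abbrev VectL : Type _ := Gen.Vect (k := k) (Rlam (lam := lam))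

end Lens
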