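import Pool.Agent.Lens.Bridge
import Pool.Agent.Lens.BridgeGen
import Pool.Agent.Lens.Lit1
import Pool.Agent.Lens.Rlam

/-!
# Bridge: stable models over a weighted projective line with all weights two
-/

open CategoryTheory CategoryTheory.Limits CategoryTheory.Pretriangulated Opposite

namespace Lens

universe w v u u'

namespace WPL

variable {k : Type u} [Field k] (X : WPL k)

/-- the equivalence of line bundle categories, with the `k[T₀, T₁]`-parts -/
noncomputable def lbEquiv (hp : ∀ i, X.p i = 2) :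
    Gen.LBEquiv k (WPL.LB X) (Lens.LB X.lam) RX Rlam where
  G := X.toLB hp
  H := X.ofLB hp
  η := X.unitLB hp
  ε := X.counitLB hp
  Ga := inferInstance
  Gl := inferInstance
  Ha := inferInstance
  Hl := inferInstance
  R_G w z f := by
    have h : Lens.LB.Hom.f ((X.toLB hp).map f ≫ (X.counitLB hp).hom.app z) =
        X.psi hp (WPL.LB.val f) := by
      rw [Lens.LB.comp_f, toLB_map_f]
      simp [counitLB, LB_eqToHom_f]
    rw [Rlam, h, psi_mem_range_iff]
    rfl
  R_H w z f := by
    have h : WPL.LB.val ((X.ofLB hp).map f ≫ (X.unitLB hp).inv.app z) =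
        (X.psi hp).symm (Lens.LB.Hom.f f) := by
      rw [WPL.LB.val_comp, ofLB_map_val]
      simp [unitLB, LB_eqToHom_val]
    rw [RX, h, Rlam]
    have h2 := X.psi_mem_range_iff hp ((X.psi hp).symm (Lens.LB.Hom.f f))
    rw [AlgEquiv.apply_symm_apply] at h2
    exact h2

variable {T : Type w} [Category.{v} T] [Preadditive T] [Linear k T]
  [HasZeroObject T] [HasShift T ℤ] [∀ n : ℤ, (shiftFunctor T n).Additive] [Pretriangulated T]

/-- a stable model over `X` gives one over `LB X.lam` -/
theorem stable_lam (hp : ∀ i, X.p i = 2) (q : Vect X ⥤ T) (hq : Gen.IsStableModel q) :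
    Gen.IsStableModel (k := k) (Rm := Rlam (lam := X.lam)) ((X.lbEquiv hp).E ⋙ q) :=
  (X.lbEquiv hp).stable hq

/-- a stable model over `LB X.lam` gives one over `X` -/
theorem exists_stable (hp : ∀ i, X.p i = 2)
    (q : Gen.Vect (k := k) (Rlam (lam := X.lam)) ⥤ T) (hq : Gen.IsStableModel q) :
    ∃ q' : Vect X ⥤ T, Gen.IsStableModel q' :=
  ⟨(X.lbEquiv hp).symm.E ⋙ q, (X.lbEquiv hp).symm.stable hq⟩

end WPL

end Lens
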