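import Pool.Agent.Lens.C3one

/-!
# Block C3: the facts about morphisms from and to the cellular chain complex
-/

open CategoryTheory CategoryTheory.Limits CategoryTheory.Pretriangulated

namespace Lens

universe w v u

variable {k : Type w} [Field k] {𝓐 : Type u} [Category.{v} 𝓐] [Preadditive 𝓐] [Linear k 𝓐]

namespace PRep

variable {Z : Cells} (R : PRep k 𝓐 Z)

/-- BLOCK C3 -/
noncomputable def homFacts (F : Z.Facts k) : R.HomFacts F where
  end_C f := R.end_C F f
  hom_neg m hm f := R.hom_neg m hm f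
  hom_one f := R.hom_one F f
  tr := R.tr F
  a τ := (R.cocA F τ).cls₀
  b τ := (R.cocB F τ).cls
  ha τ f := R.ha F τ f
  ha' τ m hm f := R.ha' F τ m hm f
  hb τ f := R.hb F τ f
  hb' τ m hm f := R.hb' F τ m hm f
  hab τ := R.hab F τ
  b_eq τ := ⟨R.cocB F τ, rfl, fun σ => (R.cocB_f F τ σ).trans (by congr)⟩

end PRep

end Lens
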