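import Pool.Agent.Lens.HomFacts

/-!
# Block C3, second half: endomorphisms of the cellular complex, the trace, the two classes
-/

open CategoryTheory CategoryTheory.Limits CategoryTheory.Pretriangulated

namespace Lens

universe w v u

variable {k : Type w} [Field k] {𝓐 : Type u} [Category.{v} 𝓐] [Preadditive 𝓐] [Linear k 𝓐]

/-- a class with zero matrix vanishes -/
theorem Tw.Coc.cls_eq_zero_of {A B : Tw 𝓐} {m : ℤ} (f : Tw.Coc A B m)
    (h : ∀ i j, f.f i j = 0) : f.cls = 0 := by
  rw [Tw.Coc.cls_eq_zero_iff]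
  refine ⟨fun _ _ => 0, fun _ _ _ => rfl, fun i j => ?_⟩
  rw [h i j]
  simp

/-- sum of cocycles -/
noncomputable def Tw.Coc.ad {A B : Tw 𝓐} {m : ℤ} (f g : Tw.Coc A B m) : Tw.Coc A B m where
  f i j := f.f i j + g.f i j
  deg i j h := by rw [f.deg i j h, g.deg i j h, add_zero]
  coc i j := by
    simp only [Preadditive.add_comp, Preadditive.comp_add, Finset.sum_add_distrib, f.coc, g.coc,
      smul_add]

/-- scalar multiple of a cocycle -/
noncomputable def Tw.Coc.sm {A B : Tw 𝓐} {m : ℤ} (a : k) (f : Tw.Coc A B m) : Tw.Coc A B m where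
  f i j := a • f.f i j
  deg i j h := by rw [f.deg i j h, smul_zero]
  coc i j := by
    simp only [Linear.smul_comp, Linear.comp_smul, ← Finset.smul_sum, f.coc]
    rw [Units.smul_def, Units.smul_def, smul_comm]

theorem Tw.Coc.cls_ad {A B : Tw 𝓐} {m : ℤ} (f g : Tw.Coc A B m) :
    (f.ad g).cls = f.cls + g.cls := Tw.Coc.cls_add f g _ fun _ _ => rfl

theorem Tw.Coc.cls_sm {A B : Tw 𝓐} {m : ℤ} (a : k) (f : Tw.Coc A B m) :
    (f.sm a).cls = a • f.cls := Tw.Coc.cls_smul a f _ fun _ _ => rfl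

namespace PRep

variable {Z : Cells} (R : PRep k 𝓐 Z)

theorem smul_e_inj {σ τ : Z.N} (h : Z.le τ σ) {a b : k} (hab : a • R.e σ τ = b • R.e σ τ) :
    a = b := by
  rw [← sub_eq_zero, ← sub_smul, smul_eq_zero] at hab
  rcases hab with h1 | h1
  · exact sub_eq_zero.1 h1
  · exact absurd h1 (R.nz σ τ h)

open scoped Classical in
/-- the coefficient of `e σ τ`, as a function -/
noncomputable def coefFun (σ τ : Z.N) (f : R.P σ ⟶ R.P τ) : k :=
  if Z.le τ σ then (R.span σ τ f).choose else 0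

theorem coefFun_spec {σ τ : Z.N} (f : R.P σ ⟶ R.P τ) : f = R.coefFun σ τ f • R.e σ τ := by
  by_cases h : Z.le τ σ
  · rw [coefFun, if_pos h]
    exact (R.span σ τ f).choose_spec
  · rw [coefFun, if_neg h, zero_smul]
    exact R.zero σ τ h f

/-- the coefficient of `e σ τ` -/
noncomputable def coef (σ τ : Z.N) : (R.P σ ⟶ R.P τ) →ₗ[k] k where
  toFun := R.coefFun σ τ
  map_add' f g := by
    by_cases h : Z.le τ σ
    · apply R.smul_e_inj h
      rw [← R.coefFun_spec (f + g), add_smul, ← R.coefFun_spec f, ← R.coefFun_spec g]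
    · simp only [coefFun, if_neg h, add_zero]
  map_smul' a f := by
    by_cases h : Z.le τ σ
    · apply R.smul_e_inj h
      rw [← R.coefFun_spec (a • f), RingHom.id_apply, smul_eq_mul, mul_smul,
        ← R.coefFun_spec f]
    · simp only [coefFun, if_neg h, RingHom.id_apply, smul_zero]

theorem coef_spec {σ τ : Z.N} (f : R.P σ ⟶ R.P τ) : f = R.coef σ τ f • R.e σ τ :=
  R.coefFun_spec f

theorem coef_e {σ τ : Z.N} (h : Z.le τ σ) : R.coef σ τ (R.e σ τ) = 1 := by
  apply R.smul_e_inj h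
  rw [← R.coef_spec, one_smul]

theorem coef_smul_e {σ τ : Z.N} (h : Z.le τ σ) (a : k) : R.coef σ τ (a • R.e σ τ) = a := by
  rw [map_smul, R.coef_e h, smul_eq_mul, mul_one]

theorem coef_of_not_le {σ τ : Z.N} (h : ¬ Z.le τ σ) (f : R.P σ ⟶ R.P τ) :
    R.coef σ τ f = 0 := by
  show R.coefFun σ τ f = 0
  rw [coefFun, if_neg h]

/-- composition with the differential on the right -/
theorem coef_comp_D {i l j : Z.N} (f : R.P i ⟶ R.P l) :
    R.coef i j (f ≫ ((Z.inc l j : k) • R.e l j)) = R.coef i l f * (Z.inc l j : k) := by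
  by_cases h1 : Z.inc l j = 0
  · rw [h1, Int.cast_zero, zero_smul, comp_zero, map_zero, mul_zero]
  by_cases h2 : Z.le l i
  · have hlj := (Z.inc_le l j h1).1
    conv_lhs => rw [R.coef_spec f]
    rw [Linear.smul_comp, Linear.comp_smul, smul_smul, R.e_comp i l j h2 hlj,
      R.coef_smul_e (Z.le_trans j l i hlj h2)]
  · rw [R.zero i l h2 f, zero_comp, map_zero, map_zero, zero_mul]

/-- composition with the differential on the left -/
theorem coef_D_comp {i l j : Z.N} (f : R.P l ⟶ R.P j) :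
    R.coef i j (((Z.inc i l : k) • R.e i l) ≫ f) = (Z.inc i l : k) * R.coef l j f := by
  by_cases h1 : Z.inc i l = 0
  · rw [h1, Int.cast_zero, zero_smul, zero_comp, map_zero, zero_mul]
  by_cases h2 : Z.le j l
  · have hli := (Z.inc_le i l h1).1
    conv_lhs => rw [R.coef_spec f]
    rw [Linear.smul_comp, Linear.comp_smul, smul_smul, R.e_comp i l j hli h2,
      R.coef_smul_e (Z.le_trans j l i h2 hli)]
  · rw [R.zero l j h2 f, comp_zero, map_zero, map_zero, mul_zero]

theorem inc_ne {i j : Z.N} (h : Z.inc i j ≠ 0) : (Z.inc i j : k) ≠ 0 := by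
  obtain ⟨h1, h2⟩ := Z.inc_le i j h
  rcases Z.le_inc i j h1 h2 with h3 | h3
  · rw [h3]; simp
  · rw [h3]; simp

theorem deg_tw (σ : Z.N) : R.tw.deg σ = - (Z.dim σ : ℤ) := rfl

/-- the matrix of a cocycle of the cellular complex -/
def mat {R : PRep k 𝓐 Z} {m : ℤ} (f : Tw.Coc R.tw R.tw m) (i j : Z.N) : R.P i ⟶ R.P j := f.f i j

theorem mat_coc {m : ℤ} (f : Tw.Coc R.tw R.tw m) (i j : Z.N) :
    ∑ l : Z.N, mat f i l ≫ ((Z.inc l j : k) • R.e l j) =
      m.negOnePow • ∑ l : Z.N, ((Z.inc i l : k) • R.e i l) ≫ mat f l j := f.coc i j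

/-- the entries of a matrix of degree `m` -/
theorem mat_zero {m : ℤ} (f : Tw.Coc R.tw R.tw m) (i j : Z.N)
    (h : (Z.dim i : ℤ) ≠ Z.dim j + m ∨ ¬ Z.le j i) : mat f i j = 0 := by
  rcases h with h | h
  · refine f.deg i j ?_
    rw [R.deg_tw, R.deg_tw]
    intro h'
    exact h (by linarith)
  · exact R.zero i j h _

/-- the cocycle condition for the coefficients -/
theorem coef_coc {m : ℤ} (f : Tw.Coc R.tw R.tw m) (i j : Z.N) :
    ∑ l, R.coef i l (mat f i l) * (Z.inc l j : k) =
      m.negOnePow • ∑ l, (Z.inc i l : k) * R.coef l j (mat f l j) := by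
  have h := congrArg (R.coef i j) (R.mat_coc f i j)
  rw [map_sum, Units.smul_def, map_zsmul, map_sum] at h
  rw [Units.smul_def]
  simp only [coef_comp_D, coef_D_comp] at h
  exact h

/-! ### degree zero and negative degrees -/

theorem end_C (F : Z.Facts k) (f : R.tw.toK ⟶ R.tw.toK) : ∃ a : k, f = a • 𝟙 _ := by
  obtain ⟨g, rfl⟩ := Tw.Coc.cls₀_surj f
  have hdiag : ∀ i j : Z.N, i ≠ j → mat g i j = 0 := by
    intro i j hij
    by_cases h : Z.le j i
    · refine R.mat_zero g i j (Or.inl ?_)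
      intro h'
      exact hij (Z.le_eq j i h (by omega)).symm
    · exact R.mat_zero g i j (Or.inr h)
  have hφ : ∀ i j : Z.N, Z.inc i j ≠ 0 →
      R.coef i i (mat g i i) = R.coef j j (mat g j j) := by
    intro i j hij
    have h := R.coef_coc g i j
    rw [Int.negOnePow_zero, one_smul, Finset.sum_eq_single i, Finset.sum_eq_single j] at h
    · rw [mul_comm] at h
      exact mul_left_cancel₀ (inc_ne hij) h
    · intro l _ hl
      rw [hdiag l j hl, map_zero, mul_zero]
    · intro h; exact absurd (Finset.mem_univ _) h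
    · intro l _ hl
      rw [hdiag i l (Ne.symm hl), map_zero, zero_mul]
    · intro h; exact absurd (Finset.mem_univ _) h
  have hconst := F.conn (fun i => R.coef i i (mat g i i)) hφ
  have ha : ∃ a : k, ∀ i : Z.N, R.coef i i (mat g i i) = a := by
    rcases isEmpty_or_nonempty Z.N with h | ⟨⟨i₀⟩⟩
    · exact ⟨0, fun i => (h.false i).elim⟩
    · exact ⟨_, fun i => hconst i i₀⟩
  obtain ⟨a, ha⟩ := ha
  refine ⟨a, ?_⟩
  rw [← Tw.Coc.cls₀_one]
  refine Tw.Coc.cls₀_smul a (Tw.Coc.one R.tw) g fun i j => ?_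
  by_cases h : i = j
  · subst h
    rw [Tw.Coc.one_self]
    have h1 : mat g i i = a • R.e i i := by rw [← ha i]; exact R.coef_spec _
    exact h1.trans (congrArg (fun t => a • t) (R.e_self i))
  · rw [Tw.Coc.one_ne _ h, smul_zero]
    exact hdiag i j h

theorem hom_neg (m : ℤ) (hm : m < 0) (f : R.tw.toK ⟶ R.tw.toK⟦m⟧) : f = 0 := by
  obtain ⟨g, rfl⟩ := Tw.Coc.cls_surj f
  refine g.cls_eq_zero_of fun i j => ?_
  by_cases h : Z.le j i
  · refine R.mat_zero g i j (Or.inl ?_)
    intro h'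
    have := Z.le_dim j i h
    omega
  · exact R.mat_zero g i j (Or.inr h)

/-! ### degree one -/

theorem hom_one (F : Z.Facts k) (f : R.tw.toK ⟶ R.tw.toK⟦(1 : ℤ)⟧) : f = 0 := by
  classical
  obtain ⟨g, rfl⟩ := Tw.Coc.cls_surj f
  set φ : Z.N → Z.N → k := fun i j => R.coef i j (mat g i j) with hφ
  set w : Z.N → Z.N → k := fun i j => (Z.inc i j : k)⁻¹ * φ i j with hw
  have hφ0 : ∀ i j : Z.N, Z.inc i j = 0 → mat g i j = 0 := by
    intro i j hij
    by_cases h : Z.le j i
    · refine R.mat_zero g i j (Or.inl ?_)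
      intro h'
      rcases Z.le_inc i j h (by omega) with h3 | h3 <;> omega
    · exact R.mat_zero g i j (Or.inr h)
  have hφw : ∀ i j : Z.N, φ i j = (Z.inc i j : k) * w i j := by
    intro i j
    by_cases hij : Z.inc i j = 0
    · have h1 : φ i j = 0 := by
        simp only [hφ, hφ0 i j hij, map_zero]
      rw [h1, hij, Int.cast_zero, zero_mul]
    · rw [hw]
      simp only
      rw [mul_inv_cancel_left₀ (inc_ne hij)]
  -- the cocycle condition
  have hcoc : ∀ i j : Z.N, ∑ l, ((Z.inc i l * Z.inc l j : ℤ) : k) * (w i l + w l j) = 0 := by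
    intro i j
    have h3 := R.coef_coc g i j
    rw [Int.negOnePow_one, Units.neg_smul, one_smul, eq_neg_iff_add_eq_zero,
      ← Finset.sum_add_distrib] at h3
    rw [← h3]
    refine Finset.sum_congr rfl fun l _ => ?_
    have h4 := hφw i l
    have h5 := hφw l j
    simp only [hφ] at h4 h5
    rw [h4, h5]
    push_cast
    ring
  obtain ⟨h, hh⟩ := F.h1 w (by
    intro i l l' j h1 h2 h3 h4
    by_cases hll : l = l'
    · subst hll; rfl
    -- only `l` and `l'` contribute
    have hsupp : ∀ l'' : Z.N, l'' ≠ l → l'' ≠ l' → Z.inc i l'' * Z.inc l'' j = 0 := by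
      intro l'' ha hb
      by_contra hne
      have h5 : Z.inc i l'' ≠ 0 := left_ne_zero_of_mul hne
      have h6 : Z.inc l'' j ≠ 0 := right_ne_zero_of_mul hne
      rcases F.dia i j l l' l'' h1 h2 h3 h4 h5 h6 with h7 | h7 | h7
      · exact hll h7
      · exact ha h7.symm
      · exact hb h7.symm
    have hs := Z.sq i j
    rw [Finset.sum_eq_add_of_mem l l' (Finset.mem_univ _) (Finset.mem_univ _) hll
      (fun c _ hc => hsupp c hc.1 hc.2)] at hs
    have hc := hcoc i j
    rw [Finset.sum_eq_add_of_mem l l' (Finset.mem_univ _) (Finset.mem_univ _) hll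
      (fun c _ hc => by rw [hsupp c hc.1 hc.2, Int.cast_zero, zero_mul])] at hc
    have hs' : ((Z.inc i l' * Z.inc l' j : ℤ) : k) = - ((Z.inc i l * Z.inc l j : ℤ) : k) := by
      rw [← Int.cast_neg]
      congr 1
      omega
    rw [hs', neg_mul, ← sub_eq_add_neg, ← mul_sub] at hc
    have hne : ((Z.inc i l * Z.inc l j : ℤ) : k) ≠ 0 := by
      rw [Int.cast_mul]
      exact mul_ne_zero (inc_ne h1) (inc_ne h2)
    exact sub_eq_zero.1 ((mul_eq_zero.1 hc).resolve_left hne))
  rw [Tw.Coc.cls_eq_zero_iff]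
  have key : ∀ i j : Z.N, mat g i j =
      ∑ l : Z.N, (if hil : i = l then eqToHom (congrArg R.P hil) ≫ (h l • 𝟙 (R.P l)) else 0) ≫
        ((Z.inc l j : k) • R.e l j) + (1 : ℤ).negOnePow •
      ∑ l : Z.N, ((Z.inc i l : k) • R.e i l) ≫
        (if hlj : l = j then eqToHom (congrArg R.P hlj) ≫ (h j • 𝟙 (R.P j)) else 0) := by
    intro i j
    rw [Finset.sum_eq_single i, Finset.sum_eq_single j, dif_pos rfl,
      dif_pos rfl, Int.negOnePow_one, Units.neg_smul, one_smul]
    · have e1 : mat g i j = ((Z.inc i j : k) * (h i - h j)) • R.e i j := by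
        by_cases hij : Z.inc i j = 0
        · rw [hφ0 i j hij, hij, Int.cast_zero, zero_mul, zero_smul]
        · have e2 : R.coef i j (mat g i j) = (Z.inc i j : k) * (h i - h j) := by
            rw [← hh i j hij]
            exact hφw i j
          rw [← e2]
          exact R.coef_spec _
      rw [e1]
      simp only [eqToHom_refl, Category.id_comp, Linear.smul_comp, Linear.comp_smul,
        Category.comp_id, smul_smul]
      rw [← sub_eq_add_neg, ← sub_smul]
      congr 1
      ring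
    · intro l _ hl
      rw [dif_neg hl, comp_zero]
    · intro h'; exact absurd (Finset.mem_univ _) h'
    · intro l _ hl
      rw [dif_neg (Ne.symm hl), zero_comp]
    · intro h'; exact absurd (Finset.mem_univ _) h'
  refine ⟨fun (i j : Z.N) => if hij : i = j then eqToHom (congrArg R.P hij) ≫ (h j • 𝟙 (R.P j))
    else 0, fun i j hij => dif_neg ?_, fun i j => key i j⟩
  rintro rfl
  exact hij (by omega)

/-! ### the trace -/

/-- the trace of a matrix -/
noncomputable def trM (F : Z.Facts k) (f : ∀ i j : Z.N, R.P i ⟶ R.P j) : k :=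
  ∑ i, ∑ j, F.ε i * R.coef i j (f i j)

theorem trM_add (F : Z.Facts k) (f g : ∀ i j : Z.N, R.P i ⟶ R.P j) :
    R.trM F (fun i j => f i j + g i j) = R.trM F f + R.trM F g := by
  simp only [trM, map_add, mul_add, Finset.sum_add_distrib]

theorem trM_smul (F : Z.Facts k) (a : k) (f : ∀ i j : Z.N, R.P i ⟶ R.P j) :
    R.trM F (fun i j => a • f i j) = a * R.trM F f := by
  simp only [trM, map_smul, smul_eq_mul, Finset.mul_sum]
  refine Finset.sum_congr rfl fun i _ => Finset.sum_congr rfl fun j _ => ?_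
  ring

/-- the trace of a coboundary vanishes -/
theorem trM_cob (F : Z.Facts k) (f : Tw.Coc R.tw R.tw 3) (hf : f.cls = 0) :
    R.trM F (mat f) = 0 := by
  rw [Tw.Coc.cls_eq_zero_iff] at hf
  obtain ⟨h, hdeg, hf⟩ := hf
  let h' : ∀ i j : Z.N, R.P i ⟶ R.P j := h
  have hf' : ∀ i j : Z.N, mat f i j = ∑ l : Z.N, h' i l ≫ ((Z.inc l j : k) • R.e l j) +
      (3 : ℤ).negOnePow • ∑ l : Z.N, ((Z.inc i l : k) • R.e i l) ≫ h' l j := hf
  have hneg : (3 : ℤ).negOnePow = -1 := Int.negOnePow_odd 3 (by decide)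
  have h1 : ∀ i j : Z.N, R.coef i j (mat f i j) = ∑ l, R.coef i l (h' i l) * (Z.inc l j : k) -
      ∑ l, (Z.inc i l : k) * R.coef l j (h' l j) := by
    intro i j
    rw [hf' i j, hneg, Units.neg_smul, one_smul, ← sub_eq_add_neg, map_sub, map_sum, map_sum]
    simp only [coef_comp_D, coef_D_comp]
  have hχ : ∀ i j : Z.N, R.coef i j (h' i j) ≠ 0 → Z.dim i = Z.dim j + 2 := by
    intro i j hij
    by_contra hne
    have h0 : h' i j = 0 := by
      refine hdeg i j ?_
      rw [R.deg_tw, R.deg_tw]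
      intro h''
      exact hne (by omega)
    rw [h0, map_zero] at hij
    exact hij rfl
  have e1 : ∑ i, ∑ j, F.ε i * ∑ l, R.coef i l (h' i l) * (Z.inc l j : k) = 0 := by
    refine Finset.sum_eq_zero fun i _ => ?_
    rw [← Finset.mul_sum, Finset.sum_comm]
    rw [Finset.sum_eq_zero, mul_zero]
    intro l _
    rw [← Finset.mul_sum]
    by_cases hil : R.coef i l (h' i l) = 0
    · rw [hil, zero_mul]
    · have hd := hχ i l hil
      have hd3 := F.dim_le i
      have hsum : ∑ j, (Z.inc l j : k) = 0 := by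
        rcases Nat.lt_or_ge (Z.dim l) 1 with h2 | h2
        · refine Finset.sum_eq_zero fun j _ => ?_
          have : Z.inc l j = 0 := by
            by_contra hne
            have := (Z.inc_le l j hne).2
            omega
          rw [this, Int.cast_zero]
        · have h3 := F.o1 l (by omega)
          rw [← Int.cast_sum, h3, Int.cast_zero]
      rw [hsum, mul_zero]
  have e2 : ∑ i, ∑ j, F.ε i * ∑ l, (Z.inc i l : k) * R.coef l j (h' l j) = 0 := by
    have h2 : ∀ i j : Z.N, F.ε i * ∑ l, (Z.inc i l : k) * R.coef l j (h' l j) =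
        ∑ l, F.ε i * (Z.inc i l : k) * R.coef l j (h' l j) := by
      intro i j
      rw [Finset.mul_sum]
      exact Finset.sum_congr rfl fun l _ => by ring
    simp only [h2]
    rw [Finset.sum_comm]
    refine Finset.sum_eq_zero fun j _ => ?_
    rw [Finset.sum_comm]
    refine Finset.sum_eq_zero fun l _ => ?_
    rw [← Finset.sum_mul]
    by_cases hlj : R.coef l j (h' l j) = 0
    · rw [hlj, mul_zero]
    · have hd := hχ l j hlj
      have hsum : ∑ i, F.ε i * (Z.inc i l : k) = 0 := by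
        rcases Nat.lt_or_ge 2 (Z.dim l) with h3 | h3
        · refine Finset.sum_eq_zero fun i _ => ?_
          have : Z.inc i l = 0 := by
            by_contra hne
            have h4 := (Z.inc_le i l hne).2
            have h5 := F.dim_le i
            omega
          rw [this, Int.cast_zero, mul_zero]
        · exact F.o2 l (by omega)
      rw [hsum, zero_mul]
  rw [trM]
  simp only [h1, mul_sub, Finset.sum_sub_distrib]
  rw [e1, e2, sub_zero]

theorem trM_congr (F : Z.Facts k) (f g : Tw.Coc R.tw R.tw 3) (h : f.cls = g.cls) :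
    R.trM F (mat f) = R.trM F (mat g) := by
  have h1 : (f.ad (g.sm (-1 : k))).cls = 0 := by
    rw [Tw.Coc.cls_ad, Tw.Coc.cls_sm, h, neg_one_smul, add_neg_cancel]
  have h2 := R.trM_cob F _ h1
  have h3 : R.trM F (mat (f.ad (g.sm (-1 : k)))) =
      R.trM F (fun i j => mat f i j + (-1 : k) • mat g i j) := rfl
  rw [h3, R.trM_add F (mat f) (fun i j => (-1 : k) • mat g i j), R.trM_smul F (-1) (mat g)] at h2
  linear_combination h2

/-- the trace -/
noncomputable def tr (F : Z.Facts k) : (R.tw.toK ⟶ R.tw.toK⟦(3 : ℤ)⟧) →ₗ[k] k where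
  toFun g := R.trM F (mat (Tw.Coc.cls_surj g).choose)
  map_add' g h := by
    have h1 := (Tw.Coc.cls_surj g).choose_spec
    have h2 := (Tw.Coc.cls_surj h).choose_spec
    have h3 := (Tw.Coc.cls_surj (g + h)).choose_spec
    rw [R.trM_congr F _ ((Tw.Coc.cls_surj g).choose.ad (Tw.Coc.cls_surj h).choose)
      (by rw [h3, Tw.Coc.cls_ad, h1, h2])]
    exact R.trM_add F _ _
  map_smul' a g := by
    have h1 := (Tw.Coc.cls_surj g).choose_spec
    have h3 := (Tw.Coc.cls_surj (a • g)).choose_spec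
    rw [R.trM_congr F _ ((Tw.Coc.cls_surj g).choose.sm a) (by rw [h3, Tw.Coc.cls_sm, h1])]
    exact R.trM_smul F a _

theorem tr_cls (F : Z.Facts k) (f : Tw.Coc R.tw R.tw 3) :
    R.tr F f.cls = R.trM F (mat f) :=
  R.trM_congr F _ _ (Tw.Coc.cls_surj f.cls).choose_spec

/-! ### the two classes -/

/-- entries of the class `a τ` -/
noncomputable def entA (F : Z.Facts k) (τ σ : Z.N) : R.P τ ⟶ R.P σ :=
  if σ = F.v τ then R.e τ σ else 0

/-- entries of the class `b τ` -/
noncomputable def entB (F : Z.Facts k) (τ σ : Z.N) : R.P σ ⟶ R.P τ :=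
  if σ = F.t τ then R.e σ τ else 0

theorem entA_ne (F : Z.Facts k) {τ σ : Z.N} (h : σ ≠ F.v τ) : R.entA F τ σ = 0 := if_neg h
theorem entA_self (F : Z.Facts k) (τ : Z.N) : R.entA F τ (F.v τ) = R.e τ (F.v τ) := if_pos rfl
theorem entB_ne (F : Z.Facts k) {τ σ : Z.N} (h : σ ≠ F.t τ) : R.entB F τ σ = 0 := if_neg h
theorem entB_self (F : Z.Facts k) (τ : Z.N) : R.entB F τ (F.t τ) = R.e (F.t τ) τ := if_pos rfl

theorem entA_D (F : Z.Facts k) (τ l j : Z.N) :
    R.entA F τ l ≫ ((Z.inc l j : k) • R.e l j) = 0 := by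
  by_cases h : l = F.v τ
  · have h1 : Z.inc l j = 0 := by
      by_contra hne
      have h2 := (Z.inc_le l j hne).2
      have h3 := (F.v_le τ).2
      rw [← h] at h3
      omega
    rw [h1, Int.cast_zero, zero_smul, comp_zero]
  · rw [R.entA_ne F h, zero_comp]

theorem D_entB (F : Z.Facts k) (τ i l : Z.N) :
    ((Z.inc i l : k) • R.e i l) ≫ R.entB F τ l = 0 := by
  by_cases h : l = F.t τ
  · have h1 : Z.inc i l = 0 := by
      by_contra hne
      have h2 := (Z.inc_le i l hne).2
      have h3 := (F.t_le τ).2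
      have h4 := F.dim_le i
      rw [← h] at h3
      omega
    rw [h1, Int.cast_zero, zero_smul, zero_comp]
  · rw [R.entB_ne F h, comp_zero]

/-- the vertex `v τ` of `τ` -/
noncomputable def cocA (F : Z.Facts k) (τ : Z.N) : Tw.Coc (Tw.single (R.P τ)) R.tw 0 where
  f _ σ := R.entA F τ σ
  deg i σ h := by
    refine R.entA_ne F ?_
    intro h'
    refine h ?_
    show - (Z.dim σ : ℤ) = 0 + 0
    rw [h', (F.v_le τ).2]
    simp
  coc i j := by
    rw [Finset.sum_eq_zero, Finset.sum_eq_zero, smul_zero]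
    · intro l _
      exact zero_comp
    · intro l _
      exact R.entA_D F τ l j

/-- the facet `t τ` -/
noncomputable def cocB (F : Z.Facts k) (τ : Z.N) : Tw.Coc R.tw (Tw.single (R.P τ)) 3 where
  f σ _ := R.entB F τ σ
  deg σ i h := by
    refine R.entB_ne F ?_
    intro h'
    refine h ?_
    show (0 : ℤ) = - (Z.dim σ : ℤ) + 3
    rw [h', (F.t_le τ).2]
    simp
  coc i j := by
    rw [Finset.sum_eq_zero, Finset.sum_eq_zero, smul_zero]
    · intro l _
      exact R.D_entB F τ i l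
    · intro l _
      exact comp_zero

theorem cocB_f (F : Z.Facts k) (τ σ : Z.N) :
    (R.cocB F τ).f σ () = if σ = F.t τ then R.e σ τ else 0 := rfl

theorem BA_deg (F : Z.Facts k) (τ i j : Z.N) (h : (Z.dim i : ℤ) ≠ Z.dim j + 3) :
    R.entB F τ i ≫ R.entA F τ j = 0 := by
  by_cases h1 : i = F.t τ
  · have h2 : j ≠ F.v τ := by
      rintro rfl
      apply h
      rw [h1, (F.t_le τ).2, (F.v_le τ).2]
      norm_num
    rw [R.entA_ne F h2, comp_zero]
  · rw [R.entB_ne F h1, zero_comp]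

theorem BA_coc (F : Z.Facts k) (τ i j : Z.N) :
    ∑ l : Z.N, (R.entB F τ i ≫ R.entA F τ l) ≫ ((Z.inc l j : k) • R.e l j) =
      (3 : ℤ).negOnePow •
        ∑ l : Z.N, ((Z.inc i l : k) • R.e i l) ≫ (R.entB F τ l ≫ R.entA F τ j) := by
  rw [Finset.sum_eq_zero, Finset.sum_eq_zero, smul_zero]
  · intro l _
    rw [← Category.assoc, R.D_entB, zero_comp]
  · intro l _
    rw [Category.assoc, R.entA_D, comp_zero]

/-- the composition of the two classes -/
noncomputable def cocBA (F : Z.Facts k) (τ : Z.N) : Tw.Coc R.tw R.tw 3 where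
  f (i j : Z.N) := R.entB F τ i ≫ R.entA F τ j
  deg i j h := R.BA_deg F τ i j (by
    intro h'
    apply h
    show - (Z.dim j : ℤ) = - (Z.dim i : ℤ) + 3
    linarith)
  coc i j := R.BA_coc F τ i j

theorem cls_BA (F : Z.Facts k) (τ : Z.N) :
    (R.cocB F τ).cls ≫ (R.cocA F τ).cls₀⟦(3 : ℤ)⟧' = (R.cocBA F τ).cls := by
  refine Tw.Coc.cls_comp₀ (R.cocB F τ) (R.cocA F τ) (R.cocBA F τ) fun i j => ?_
  show R.entB F τ i ≫ R.entA F τ j = ∑ l : Unit, R.entB F τ i ≫ R.entA F τ j
  simp

theorem hab (F : Z.Facts k) (τ : Z.N) :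
    R.tr F ((R.cocB F τ).cls ≫ (R.cocA F τ).cls₀⟦(3 : ℤ)⟧') ≠ 0 := by
  rw [cls_BA, R.tr_cls, trM]
  have hle : Z.le (F.v τ) (F.t τ) := Z.le_trans _ _ _ (F.v_le τ).1 (F.t_le τ).1
  have hmat : ∀ i j : Z.N, mat (R.cocBA F τ) i j = R.entB F τ i ≫ R.entA F τ j :=
    fun i j => rfl
  rw [Finset.sum_eq_single (F.t τ), Finset.sum_eq_single (F.v τ), hmat, R.entA_self,
    R.entB_self, R.e_comp _ _ _ (F.t_le τ).1 (F.v_le τ).1, R.coef_e hle, mul_one]
  · exact F.ε_ne _ (F.t_le τ).2
  · intro j _ hj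
    rw [hmat, R.entA_ne F hj, comp_zero, map_zero, mul_zero]
  · intro h; exact absurd (Finset.mem_univ _) h
  · intro i _ hi
    refine Finset.sum_eq_zero fun j _ => ?_
    rw [hmat, R.entB_ne F hi, zero_comp, map_zero, mul_zero]
  · intro h; exact absurd (Finset.mem_univ _) h

end PRep

end Lens
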