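import Pool.Agent.Lens.HomFacts

/-!
# Block C3, base: morphisms between the objects `P σ` as scalars
-/

open CategoryTheory CategoryTheory.Limits CategoryTheory.Pretriangulated

namespace Lens

universe w v u

variable {k : Type w} [Field k] {𝓐 : Type u} [Category.{v} 𝓐] [Preadditive 𝓐] [Linear k 𝓐]

/-- the sign `(-1)^m` in `k` -/
def sgn (k : Type w) [Field k] (m : ℤ) : k := ((m.negOnePow : ℤˣ) : ℤ)

theorem sgn_mul_self (m : ℤ) : sgn k m * sgn k m = 1 := by
  rw [sgn, ← Int.cast_mul, ← Units.val_mul, Int.units_mul_self, Units.val_one, Int.cast_one]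

theorem sgn_one : sgn k 1 = -1 := by
  simp [sgn]

theorem sgn_zero : sgn k 0 = 1 := by
  simp [sgn]

namespace PRep

variable {Z : Cells} (R : PRep k 𝓐 Z)

theorem e_zero {σ τ : Z.N} (h : ¬ Z.le τ σ) : R.e σ τ = 0 := R.zero σ τ h _

theorem smul_inj {σ τ : Z.N} (h : Z.le τ σ) {a b : k} (hab : a • R.e σ τ = b • R.e σ τ) :
    a = b := by
  have h1 : (a - b) • R.e σ τ = 0 := by rw [sub_smul, hab, sub_self]
  rcases smul_eq_zero.1 h1 with h2 | h2
  · exact sub_eq_zero.1 h2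
  · exact absurd h2 (R.nz σ τ h)

open scoped Classical in
/-- the scalar of a morphism -/
noncomputable def coFun {σ τ : Z.N} (f : R.P σ ⟶ R.P τ) : k :=
  if Z.le τ σ then (R.span σ τ f).choose else 0

theorem coFun_of_not_le {σ τ : Z.N} (h : ¬ Z.le τ σ) (f : R.P σ ⟶ R.P τ) : R.coFun f = 0 :=
  if_neg h

theorem coFun_spec {σ τ : Z.N} (f : R.P σ ⟶ R.P τ) : f = R.coFun f • R.e σ τ := by
  by_cases h : Z.le τ σ
  · rw [coFun, if_pos h]
    exact (R.span σ τ f).choose_spec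
  · rw [R.e_zero h, smul_zero]
    exact R.zero σ τ h f

/-- the scalar of a morphism, as a linear map -/
noncomputable def co {σ τ : Z.N} : (R.P σ ⟶ R.P τ) →ₗ[k] k where
  toFun f := R.coFun f
  map_add' f g := by
    by_cases h : Z.le τ σ
    · refine R.smul_inj h ?_
      rw [add_smul, ← R.coFun_spec, ← R.coFun_spec, ← R.coFun_spec]
    · rw [R.coFun_of_not_le h, R.coFun_of_not_le h, R.coFun_of_not_le h, add_zero]
  map_smul' a f := by
    by_cases h : Z.le τ σ
    · refine R.smul_inj h ?_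
      rw [← R.coFun_spec, RingHom.id_apply, smul_eq_mul, mul_smul, ← R.coFun_spec]
    · rw [R.coFun_of_not_le h, R.coFun_of_not_le h, smul_zero]

theorem co_of_not_le {σ τ : Z.N} (h : ¬ Z.le τ σ) (f : R.P σ ⟶ R.P τ) : R.co f = 0 :=
  if_neg h

/-- a morphism is its scalar times the generator -/
theorem co_spec {σ τ : Z.N} (f : R.P σ ⟶ R.P τ) : f = R.co f • R.e σ τ := R.coFun_spec f

theorem co_inj {σ τ : Z.N} {f g : R.P σ ⟶ R.P τ} (h : R.co f = R.co g) : f = g := by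
  rw [R.co_spec f, R.co_spec g, h]

theorem le_of_co_ne {σ τ : Z.N} {f : R.P σ ⟶ R.P τ} (h : R.co f ≠ 0) : Z.le τ σ := by
  by_contra h'
  exact h (R.co_of_not_le h' f)

theorem ne_of_co_ne {σ τ : Z.N} {f : R.P σ ⟶ R.P τ} (h : R.co f ≠ 0) : f ≠ 0 := by
  rintro rfl
  exact h (map_zero _)

theorem co_e {σ τ : Z.N} (h : Z.le τ σ) : R.co (R.e σ τ) = 1 := by
  refine R.smul_inj h ?_
  rw [← R.co_spec, one_smul]

theorem co_smul_e {σ τ : Z.N} (h : Z.le τ σ) (a : k) : R.co (a • R.e σ τ) = a := by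
  rw [map_smul, R.co_e h, smul_eq_mul, mul_one]

theorem co_id (σ : Z.N) : R.co (𝟙 (R.P σ)) = 1 := by
  rw [← R.e_self, R.co_e (Z.le_refl σ)]

theorem co_comp {σ τ ρ : Z.N} (f : R.P σ ⟶ R.P τ) (g : R.P τ ⟶ R.P ρ) :
    R.co (f ≫ g) = R.co f * R.co g := by
  by_cases h : Z.le τ σ
  · by_cases h' : Z.le ρ τ
    · conv_lhs => rw [R.co_spec f, R.co_spec g, Linear.smul_comp, Linear.comp_smul,
        R.e_comp σ τ ρ h h']
      rw [map_smul, map_smul, R.co_e (Z.le_trans ρ τ σ h' h), smul_eq_mul, smul_eq_mul, mul_one]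
    · rw [R.co_of_not_le h' g, R.zero τ ρ h' g, comp_zero, map_zero, mul_zero]
  · rw [R.co_of_not_le h f, R.zero σ τ h f, zero_comp, map_zero, zero_mul]

theorem co_negOnePow_smul {σ τ : Z.N} (m : ℤ) (f : R.P σ ⟶ R.P τ) :
    R.co (m.negOnePow • f) = sgn k m * R.co f := by
  rw [Units.smul_def, map_zsmul, zsmul_eq_mul, sgn]

/-- the scalar of the differential -/
theorem co_D (σ τ : Z.N) : R.co (R.tw.D σ τ : R.P σ ⟶ R.P τ) = (Z.inc σ τ : k) := by
  change R.co ((Z.inc σ τ : k) • R.e σ τ) = (Z.inc σ τ : k)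
  by_cases h : Z.inc σ τ = 0
  · rw [h, Int.cast_zero, zero_smul, map_zero]
  · exact R.co_smul_e (Z.inc_le σ τ h).1 _

theorem tw_deg (σ : Z.N) : R.tw.deg σ = - (Z.dim σ : ℤ) := rfl

end PRep

namespace Cells

variable {Z : Cells}

theorem inc_cast_mul_self {σ τ : Z.N} (h : Z.inc σ τ ≠ 0) :
    (Z.inc σ τ : k) * (Z.inc σ τ : k) = 1 := by
  obtain ⟨h1, h2⟩ := Z.inc_le σ τ h
  rcases Z.le_inc σ τ h1 h2 with h3 | h3 <;> rw [h3] <;> simp

theorem inc_cast_ne {σ τ : Z.N} (h : Z.inc σ τ ≠ 0) : (Z.inc σ τ : k) ≠ 0 := by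
  intro h1
  have h2 := inc_cast_mul_self (k := k) h
  rw [h1, mul_zero] at h2
  exact zero_ne_one h2

end Cells

namespace Tw

variable {A B : Tw 𝓐} {m : ℤ}

/-- If `f = c • g +` coboundary, then `f.cls = c • g.cls`. -/
theorem Coc.cls_eq_smul (f g : Coc A B m) (c : k) (h : ∀ i j, A.P i ⟶ B.P j)
    (hd : ∀ i j, B.deg j ≠ A.deg i + (m - 1) → h i j = 0)
    (hf : ∀ i j, f.f i j = c • g.f i j +
      (∑ l, h i l ≫ B.D l j + m.negOnePow • ∑ l, A.D i l ≫ h l j)) :
    f.cls = c • g.cls := by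
  let g' : Coc A B m :=
    { f := fun i j => c • g.f i j
      deg := fun i j hij => by rw [g.deg i j hij, smul_zero]
      coc := fun i j => by
        have h1 := congrArg (c • ·) (g.coc i j)
        simp only [Linear.smul_comp, Linear.comp_smul]
        rw [← Finset.smul_sum, ← Finset.smul_sum, smul_comm]
        exact h1 }
  let r : Coc A B m :=
    { f := fun i j => f.f i j - c • g.f i j
      deg := fun i j hij => by rw [f.deg i j hij, g.deg i j hij, smul_zero, sub_zero]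
      coc := fun i j => by
        have h1 := g'.coc i j
        simp only [Preadditive.sub_comp, Preadditive.comp_sub, Finset.sum_sub_distrib, smul_sub]
        rw [f.coc i j]
        exact congrArg (_ - ·) h1 }
  have h1 : f.cls = g'.cls + r.cls := Coc.cls_add g' r f fun i j => (add_sub_cancel _ _).symm
  have h2 : g'.cls = c • g.cls := Coc.cls_smul c g g' fun i j => rfl
  have h3 : r.cls = 0 := by
    rw [Coc.cls_eq_zero_iff]
    refine ⟨h, hd, fun i j => ?_⟩
    exact (congrArg (· - c • g.f i j) (hf i j)).trans (add_sub_cancel_left _ _)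
  rw [h1, h2, h3, add_zero]

theorem Coc.cls₀_eq_smul (f g : Coc A B 0) (c : k) (h : ∀ i j, A.P i ⟶ B.P j)
    (hd : ∀ i j, B.deg j ≠ A.deg i + (0 - 1) → h i j = 0)
    (hf : ∀ i j, f.f i j = c • g.f i j +
      (∑ l, h i l ≫ B.D l j + (0 : ℤ).negOnePow • ∑ l, A.D i l ≫ h l j)) :
    f.cls₀ = c • g.cls₀ := by
  rw [← Coc.cls₀_eq, ← Coc.cls₀_eq, Coc.cls_eq_smul f g c h hd hf, Linear.smul_comp]

end Tw

end Lens
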