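import Pool.Agent.Lens.C3base
import Pool.Agent.Lens.C3b

/-!
# Block C3, part one: morphisms between `P τ` and the cellular chain complex
-/

open CategoryTheory CategoryTheory.Limits CategoryTheory.Pretriangulated

namespace Lens

universe w v u

variable {k : Type w} [Field k] {𝓐 : Type u} [Category.{v} 𝓐] [Preadditive 𝓐] [Linear k 𝓐]

namespace PRep

variable {Z : Cells} (R : PRep k 𝓐 Z)

/-- the entries of the differential -/
noncomputable def dm (σ τ : Z.N) : R.P σ ⟶ R.P τ := (Z.inc σ τ : k) • R.e σ τ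

theorem co_dm (σ τ : Z.N) : R.co (R.dm σ τ) = (Z.inc σ τ : k) := R.co_D σ τ

section

variable {R} {τ : Z.N} {m : ℤ}

/-- the entries of a cocycle `P τ ⟶ C` -/
def fA (f : Tw.Coc (Tw.single (R.P τ)) R.tw m) (j : Z.N) : R.P τ ⟶ R.P j := f.f () j

/-- the entries of a cocycle `C ⟶ P τ` -/
def fB (f : Tw.Coc R.tw (Tw.single (R.P τ)) m) (i : Z.N) : R.P i ⟶ R.P τ := f.f i ()

theorem cocA_supp (f : Tw.Coc (Tw.single (R.P τ)) R.tw m) (d : ℕ) (hd : (d : ℤ) = -m) (σ : Z.N)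
    (h : R.co (fA f σ) ≠ 0) : Z.le σ τ ∧ Z.dim σ = d := by
  refine ⟨R.le_of_co_ne h, ?_⟩
  by_contra h1
  refine R.ne_of_co_ne h (f.deg () σ ?_)
  change - (Z.dim σ : ℤ) ≠ 0 + m
  omega

theorem cocA_coc (f : Tw.Coc (Tw.single (R.P τ)) R.tw m) (j : Z.N) :
    ∑ l, R.co (fA f l) * (Z.inc l j : k) = 0 := by
  have h2 : (∑ l, (Tw.single (R.P τ)).D () l ≫ f.f l j) = 0 :=
    Finset.sum_eq_zero fun l _ => zero_comp
  have h1 : ∑ l, fA f l ≫ R.dm l j = 0 :=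
    ((f.coc () j).trans (congrArg _ h2)).trans (smul_zero _)
  have h3 := congrArg R.co h1
  rw [map_sum, map_zero] at h3
  rw [← h3]
  refine Finset.sum_congr rfl fun l _ => ?_
  rw [R.co_comp, R.co_dm]

/-- how to recognize the class of a cocycle `P τ ⟶ C` -/
theorem cocA_rec (f g : Tw.Coc (Tw.single (R.P τ)) R.tw m) (c : k) (d : ℕ) (hd : (d : ℤ) = -m)
    (ψ : Z.N → k) (hψ : ∀ σ, ψ σ ≠ 0 → Z.le σ τ ∧ Z.dim σ = d + 1)
    (hf : ∀ j, Z.le j τ → R.co (fA f j) = c * R.co (fA g j) + ∑ l, ψ l * (Z.inc l j : k)) :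
    f.cls = c • g.cls := by
  refine Tw.Coc.cls_eq_smul f g c
    (fun _ (j : Z.N) => show R.P τ ⟶ R.P j from ψ j • R.e τ j) (fun i (j : Z.N) hij => ?_)
    (fun i (j : Z.N) => ?_)
  · change ψ j • R.e τ j = 0
    by_cases h1 : ψ j = 0
    · rw [h1, zero_smul]
    · exfalso
      refine hij ?_
      change - (Z.dim j : ℤ) = 0 + (m - 1)
      have := (hψ j h1).2
      omega
  · change fA f j = c • fA g j + (∑ l, (ψ l • R.e τ l) ≫ R.dm l j +
      m.negOnePow • ∑ l : Unit, (0 : R.P τ ⟶ R.P τ) ≫ (ψ j • R.e τ j))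
    rw [zero_comp, Finset.sum_const_zero, smul_zero, add_zero]
    by_cases h3 : Z.le j τ
    · refine R.co_inj ?_
      rw [map_add, map_smul, smul_eq_mul, hf j h3, map_sum]
      congr 1
      refine Finset.sum_congr rfl fun l _ => ?_
      rw [R.co_comp, R.co_dm]
      congr 1
      by_cases h4 : Z.le l τ
      · exact (R.co_smul_e h4 _).symm
      · rw [R.co_of_not_le h4]
        by_contra h5
        exact h4 (hψ l h5).1
    · exact (R.zero τ j h3 _).trans (R.zero τ j h3 _).symm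

theorem cocB_supp (f : Tw.Coc R.tw (Tw.single (R.P τ)) m) (d : ℕ) (hd : (d : ℤ) = m) (σ : Z.N)
    (h : R.co (fB f σ) ≠ 0) : Z.le τ σ ∧ Z.dim σ = d := by
  refine ⟨R.le_of_co_ne h, ?_⟩
  by_contra h1
  refine R.ne_of_co_ne h (f.deg σ () ?_)
  change (0 : ℤ) ≠ - (Z.dim σ : ℤ) + m
  omega

theorem cocB_coc (f : Tw.Coc R.tw (Tw.single (R.P τ)) m) (i : Z.N) :
    ∑ l, (Z.inc i l : k) * R.co (fB f l) = 0 := by
  have h2 : (∑ l, f.f i l ≫ (Tw.single (R.P τ)).D l ()) = 0 :=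
    Finset.sum_eq_zero fun l _ => comp_zero
  have h1 : m.negOnePow • ∑ l, R.dm i l ≫ fB f l = 0 :=
    (f.coc i ()).symm.trans h2
  have h3 : sgn k m * R.co (m.negOnePow • ∑ l, R.dm i l ≫ fB f l) = 0 := by
    rw [h1, map_zero, mul_zero]
  rw [R.co_negOnePow_smul, ← mul_assoc, sgn_mul_self, one_mul, map_sum] at h3
  rw [← h3]
  refine Finset.sum_congr rfl fun l _ => ?_
  rw [R.co_comp, R.co_dm]

/-- how to recognize the class of a cocycle `C ⟶ P τ` -/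
theorem cocB_rec (f g : Tw.Coc R.tw (Tw.single (R.P τ)) m) (c : k) (d : ℕ) (hd : (d : ℤ) = m)
    (ψ : Z.N → k) (hψ : ∀ σ, ψ σ ≠ 0 → Z.le τ σ ∧ Z.dim σ + 1 = d)
    (hf : ∀ i, Z.le τ i → R.co (fB f i) = c * R.co (fB g i) + ∑ l, (Z.inc i l : k) * ψ l) :
    f.cls = c • g.cls := by
  refine Tw.Coc.cls_eq_smul f g c
    (fun (i : Z.N) _ => show R.P i ⟶ R.P τ from (sgn k m * ψ i) • R.e i τ)
    (fun (i : Z.N) j hij => ?_) (fun (i : Z.N) j => ?_)
  · change (sgn k m * ψ i) • R.e i τ = 0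
    by_cases h1 : ψ i = 0
    · rw [h1, mul_zero, zero_smul]
    · exfalso
      refine hij ?_
      change (0 : ℤ) = - (Z.dim i : ℤ) + (m - 1)
      have := (hψ i h1).2
      omega
  · change fB f i = c • fB g i + (∑ l : Unit, ((sgn k m * ψ i) • R.e i τ) ≫
      (0 : R.P τ ⟶ R.P τ) + m.negOnePow • ∑ l, R.dm i l ≫ ((sgn k m * ψ l) • R.e l τ))
    rw [comp_zero, Finset.sum_const_zero, zero_add]
    by_cases h3 : Z.le τ i
    · refine R.co_inj ?_
      rw [map_add, map_smul, smul_eq_mul, R.co_negOnePow_smul, hf i h3]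
      congr 1
      have h6 : R.co (∑ l, R.dm i l ≫ ((sgn k m * ψ l) • R.e l τ)) =
          sgn k m * ∑ l, (Z.inc i l : k) * ψ l := by
        rw [map_sum, Finset.mul_sum]
        refine Finset.sum_congr rfl fun l _ => ?_
        have h7 : R.co ((sgn k m * ψ l) • R.e l τ) = sgn k m * ψ l := by
          by_cases h4 : Z.le τ l
          · exact R.co_smul_e h4 _
          · rw [R.co_of_not_le h4]
            by_contra h5
            refine h4 (hψ l ?_).1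
            intro h8
            exact h5 (by rw [h8, mul_zero])
        rw [R.co_comp, R.co_dm, h7]
        ring
      rw [h6, ← mul_assoc, sgn_mul_self, one_mul]
    · exact (R.zero i τ h3 _).trans (R.zero i τ h3 _).symm

end

theorem ha' (F : Z.Facts k) (τ : Z.N) (m : ℤ) (hm : m ≠ 0) (f : R.PK τ ⟶ R.tw.toK⟦m⟧) :
    f = 0 := by
  obtain ⟨f, rfl⟩ := Tw.Coc.cls_surj (A := Tw.single (R.P τ)) (B := R.tw) f
  rcases lt_or_gt_of_ne hm with hm | hm
  · obtain ⟨d, hd⟩ : ∃ d : ℕ, (d : ℤ) = -m := ⟨(-m).toNat, by omega⟩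
    obtain ⟨ψ, h1, h2⟩ := F.lower τ d (fun σ => R.co (fA f σ)) (cocA_supp f d hd)
      fun j _ => cocA_coc f j
    refine (cocA_rec f f 0 d hd ψ h1 fun j hj => ?_).trans (zero_smul _ _)
    rw [zero_mul, zero_add]
    exact h2 j hj fun h => by omega
  · refine (Tw.Coc.cls_eq_zero_iff f).2 ⟨fun _ _ => 0, fun _ _ _ => rfl, fun i j => ?_⟩
    simp only [zero_comp, comp_zero, Finset.sum_const_zero, smul_zero, add_zero]
    refine f.deg i j ?_
    change - (Z.dim (show Z.N from j) : ℤ) ≠ 0 + m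
    omega

theorem ha (F : Z.Facts k) (τ : Z.N) (f : R.PK τ ⟶ R.tw.toK) :
    ∃ c : k, f = c • (R.cocA F τ).cls₀ := by
  obtain ⟨f, rfl⟩ := Tw.Coc.cls₀_surj (A := Tw.single (R.P τ)) (B := R.tw) f
  obtain ⟨ψ, h1, h2⟩ := F.lower τ 0 (fun σ => R.co (fA f σ)) (cocA_supp f 0 rfl)
      fun j _ => cocA_coc f j
  refine ⟨R.co (fA f (F.v τ)) - ∑ l, ψ l * (Z.inc l (F.v τ) : k), ?_⟩
  have h5 := cocA_rec f (R.cocA F τ) (R.co (fA f (F.v τ)) - ∑ l, ψ l * (Z.inc l (F.v τ) : k))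
    0 rfl ψ h1 fun j hj => by
      change R.co (fA f j) = (R.co (fA f (F.v τ)) - ∑ l, ψ l * (Z.inc l (F.v τ) : k)) *
        R.co (if j = F.v τ then R.e τ j else 0) + ∑ l, ψ l * (Z.inc l j : k)
      by_cases h6 : j = F.v τ
      · rw [if_pos h6, R.co_e hj, h6]
        ring
      · rw [if_neg h6, map_zero, mul_zero, zero_add]
        exact h2 j hj fun _ => h6
  rw [← Tw.Coc.cls₀_eq, ← Tw.Coc.cls₀_eq, h5, Linear.smul_comp]

theorem hb' (F : Z.Facts k) (τ : Z.N) (m : ℤ) (hm : m ≠ 3) (f : R.tw.toK ⟶ (R.PK τ)⟦m⟧) :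
    f = 0 := by
  obtain ⟨f, rfl⟩ := Tw.Coc.cls_surj (A := R.tw) (B := Tw.single (R.P τ)) f
  rcases le_or_gt 0 m with hm' | hm'
  · obtain ⟨d, hd⟩ : ∃ d : ℕ, (d : ℤ) = m := ⟨m.toNat, by omega⟩
    obtain ⟨ψ, h1, h2⟩ := F.upper τ d (fun σ => R.co (fB f σ)) (cocB_supp f d hd)
      fun j _ => cocB_coc f j
    refine (cocB_rec f f 0 d hd ψ h1 fun j hj => ?_).trans (zero_smul _ _)
    rw [zero_mul, zero_add]
    exact h2 j hj fun h => by omega
  · refine (Tw.Coc.cls_eq_zero_iff f).2 ⟨fun _ _ => 0, fun _ _ _ => rfl, fun i j => ?_⟩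
    simp only [zero_comp, comp_zero, Finset.sum_const_zero, smul_zero, add_zero]
    refine f.deg i j ?_
    change (0 : ℤ) ≠ - (Z.dim (show Z.N from i) : ℤ) + m
    omega

theorem hb (F : Z.Facts k) (τ : Z.N) (f : R.tw.toK ⟶ (R.PK τ)⟦(3 : ℤ)⟧) :
    ∃ c : k, f = c • (R.cocB F τ).cls := by
  obtain ⟨f, rfl⟩ := Tw.Coc.cls_surj (A := R.tw) (B := Tw.single (R.P τ)) f
  obtain ⟨ψ, h1, h2⟩ := F.upper τ 3 (fun σ => R.co (fB f σ)) (cocB_supp f 3 rfl)
      fun j _ => cocB_coc f j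
  refine ⟨R.co (fB f (F.t τ)) - ∑ l, (Z.inc (F.t τ) l : k) * ψ l, ?_⟩
  refine cocB_rec f (R.cocB F τ) (R.co (fB f (F.t τ)) - ∑ l, (Z.inc (F.t τ) l : k) * ψ l)
    3 rfl ψ h1 fun i hi => ?_
  change R.co (fB f i) = (R.co (fB f (F.t τ)) - ∑ l, (Z.inc (F.t τ) l : k) * ψ l) *
    R.co (if i = F.t τ then R.e i τ else 0) + ∑ l, (Z.inc i l : k) * ψ l
  by_cases h6 : i = F.t τ
  · rw [if_pos h6, R.co_e hi, h6]
    ring
  · rw [if_neg h6, map_zero, mul_zero, zero_add]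
    exact h2 i hi fun _ => h6

end PRep

end Lens
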