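import Pool.Agent.Lens.Tw

/-!
# Block C1: morphisms in the homotopy category and cocycle matrices
-/

open CategoryTheory CategoryTheory.Limits CategoryTheory.Pretriangulated

namespace Lens

universe w v u

namespace Tw

variable {𝓐 : Type u} [Category.{v} 𝓐] [Preadditive 𝓐]

open CochainComplex.HomComplex

/-- the part `p → q` of a matrix -/
noncomputable def blk {A B : Tw 𝓐} (f : ∀ i j, A.P i ⟶ B.P j) (p q : ℤ) : A.obj p ⟶ B.obj q :=
  fun (i : {i : A.ι // A.deg i = p}) (j : {j : B.ι // B.deg j = q}) => f i.1 j.1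

theorem blk_apply {A B : Tw 𝓐} (f : ∀ i j, A.P i ⟶ B.P j) (p q : ℤ)
    (i : {i : A.ι // A.deg i = p}) (j : {j : B.ι // B.deg j = q}) :
    blk f p q i j = f i.1 j.1 := rfl

theorem obj_hom_ext {A B : Tw 𝓐} {p q : ℤ} {f g : A.obj p ⟶ B.obj q}
    (h : ∀ (i : {i : A.ι // A.deg i = p}) (j : {j : B.ι // B.deg j = q}), f i j = g i j) :
    f = g := by
  funext i j
  exact h i j

/-- a matrix as a cochain -/
noncomputable def cochain {A B : Tw 𝓐} (m : ℤ) (f : ∀ i j, A.P i ⟶ B.P j) :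
    Cochain A.toCpx B.toCpx m :=
  Cochain.mk fun p q _ => blk f p q

theorem cochain_v {A B : Tw 𝓐} {m : ℤ} (f : ∀ i j, A.P i ⟶ B.P j) (p q : ℤ) (h : p + m = q) :
    (cochain m f).v p q h = blk f p q := rfl

theorem comp_obj_apply {A B C : Tw 𝓐} {p q r : ℤ} (f : A.obj p ⟶ B.obj q)
    (g : B.obj q ⟶ C.obj r) (i : {i : A.ι // A.deg i = p}) (j : {j : C.ι // C.deg j = r}) :
    (f ≫ g) i j = ∑ l : {l : B.ι // B.deg l = q}, f i l ≫ g l j := rfl

/-- the coboundary of a matrix -/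
theorem δ_cochain {A B : Tw 𝓐} (n m : ℤ) (hnm : n + 1 = m) (f : ∀ i j, A.P i ⟶ B.P j) :
    δ n m (cochain n f) = cochain m (fun i j =>
      ∑ l, f i l ≫ B.D l j + m.negOnePow • ∑ l, A.D i l ≫ f l j) := by
  refine Cochain.ext _ _ fun p q hpq => ?_
  rw [δ_v n m hnm (cochain n f) p q hpq (q - 1) (p + 1) rfl rfl]
  refine obj_hom_ext (A := A) (B := B) (p := p) (q := q) fun i j => ?_
  have h1 : (blk f p (q - 1) ≫ B.toCpx.d (q - 1) q) i j = ∑ l, f i.1 l ≫ B.D l j.1 := by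
    refine (comp_obj_apply (blk f p (q - 1)) (B.dif (q - 1) q) i j).trans ?_
    refine B.sum_subtype_deg (q - 1) (fun l => f i.1 l ≫ B.D l j.1) fun l hl => ?_
    rw [B.D_deg l j.1, comp_zero]
    rw [j.2]
    intro h
    exact hl (by omega)
  have h2 : (A.toCpx.d p (p + 1) ≫ blk f (p + 1) q) i j = ∑ l, A.D i.1 l ≫ f l j.1 := by
    refine (comp_obj_apply (A.dif p (p + 1)) (blk f (p + 1) q) i j).trans ?_
    refine A.sum_subtype_deg (p + 1) (fun l => A.D i.1 l ≫ f l j.1) fun l hl => ?_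
    rw [A.D_deg i.1 l, zero_comp]
    rw [i.2]
    exact hl
  have h3 : (m.negOnePow • (A.toCpx.d p (p + 1) ≫ blk f (p + 1) q)) i j
      = m.negOnePow • ((A.toCpx.d p (p + 1) ≫ blk f (p + 1) q) i j) := rfl
  refine (Mat_.add_apply (blk f p (q - 1) ≫ B.toCpx.d (q - 1) q)
    (m.negOnePow • (A.toCpx.d p (p + 1) ≫ blk f (p + 1) q)) i j).trans ?_
  rw [h1, h3, h2]
  rfl

theorem cochain_surj {A B : Tw 𝓐} {m : ℤ} (z : Cochain A.toCpx B.toCpx m) :
    ∃ f : ∀ i j, A.P i ⟶ B.P j, (∀ i j, B.deg j ≠ A.deg i + m → f i j = 0) ∧ cochain m f = z := by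
  classical
  refine ⟨fun i j => if h : A.deg i + m = B.deg j then
    (show A.obj (A.deg i) ⟶ B.obj (B.deg j) from z.v _ _ h) ⟨i, rfl⟩ ⟨j, rfl⟩ else 0,
    fun i j hij => dif_neg fun h => hij h.symm, ?_⟩
  refine Cochain.ext _ _ fun p q hpq => ?_
  refine obj_hom_ext (A := A) (B := B) (p := p) (q := q) fun i j => ?_
  obtain ⟨i, rfl⟩ := i
  obtain ⟨j, rfl⟩ := j
  exact dif_pos hpq

theorem cochain_congr_iff {A B : Tw 𝓐} {m : ℤ} (f g : ∀ i j, A.P i ⟶ B.P j) :
    cochain m f = cochain m g ↔ ∀ i j, B.deg j = A.deg i + m → f i j = g i j := by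
  constructor
  · intro h i j hij
    have h1 : blk f (A.deg i) (B.deg j) = blk g (A.deg i) (B.deg j) :=
      Cochain.congr_v h (A.deg i) (B.deg j) hij.symm
    exact congrFun (congrFun h1 ⟨i, rfl⟩) ⟨j, rfl⟩
  · intro h
    refine Cochain.ext _ _ fun p q hpq => ?_
    refine obj_hom_ext (A := A) (B := B) (p := p) (q := q) fun i j => ?_
    obtain ⟨i, rfl⟩ := i
    obtain ⟨j, rfl⟩ := j
    exact h i j hpq.symm

theorem cochain_zero {A B : Tw 𝓐} {m : ℤ} : cochain (A := A) (B := B) m (fun _ _ => 0) = 0 := by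
  ext p q hpq
  rfl

/-- the cocycle of the complex of morphisms attached to a cocycle matrix -/
noncomputable def Coc.toCocycle {A B : Tw 𝓐} {m : ℤ} (f : Coc A B m) :
    Cocycle A.toCpx B.toCpx m :=
  Cocycle.mk (cochain m f.f) (m + 1) rfl (by
    rw [δ_cochain m (m + 1) rfl, ← cochain_zero]
    congr 1
    funext i j
    rw [f.coc, Int.negOnePow_succ, Units.neg_smul, add_neg_cancel])

theorem Coc.coe_toCocycle {A B : Tw 𝓐} {m : ℤ} (f : Coc A B m) :
    (f.toCocycle : Cochain A.toCpx B.toCpx m) = cochain m f.f := rfl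

theorem Coc.toCocycle_surj {A B : Tw 𝓐} {m : ℤ} (z : Cocycle A.toCpx B.toCpx m) :
    ∃ f : Coc A B m, f.toCocycle = z := by
  obtain ⟨f, hf, hz⟩ := cochain_surj (z : Cochain A.toCpx B.toCpx m)
  have h1 : δ m (m + 1) (cochain m f) = 0 := by rw [hz]; exact Cocycle.δ_eq_zero z _
  rw [δ_cochain m (m + 1) rfl, ← cochain_zero, cochain_congr_iff] at h1
  refine ⟨⟨f, hf, fun i j => ?_⟩, ?_⟩
  · by_cases hij : B.deg j = A.deg i + (m + 1)
    · have h2 := h1 i j hij
      rw [Int.negOnePow_succ, Units.neg_smul, add_neg_eq_zero] at h2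
      exact h2
    · rw [Finset.sum_eq_zero, Finset.sum_eq_zero, smul_zero]
      · intro l _
        by_cases hl : A.deg l = A.deg i + 1
        · rw [hf l j, comp_zero]
          intro h
          exact hij (by omega)
        · rw [A.D_deg i l hl, zero_comp]
      · intro l _
        by_cases hl : B.deg j = B.deg l + 1
        · rw [hf i l, zero_comp]
          intro h
          exact hij (by omega)
        · rw [B.D_deg l j hl, comp_zero]
  · ext1
    exact hz

/-- the quotient functor -/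
noncomputable abbrev qt (𝓐 : Type u) [Category.{v} 𝓐] [Preadditive 𝓐] :
    CochainComplex (Mat_ 𝓐) ℤ ⥤ HomotopyCategory (Mat_ 𝓐) (ComplexShape.up ℤ) :=
  HomotopyCategory.quotient _ _

/-- the chain map attached to a cocycle matrix -/
noncomputable def Coc.hom {A B : Tw 𝓐} {m : ℤ} (f : Coc A B m) : A.toCpx ⟶ B.toCpx⟦m⟧ :=
  Cocycle.equivHomShift.symm f.toCocycle

/-- the matrix of the chain map `f.hom`, no sign -/
theorem Coc.hom_f {A B : Tw 𝓐} {m : ℤ} (f : Coc A B m) (p : ℤ) :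
    f.hom.f p = blk f.f p (p + m) := by
  have h1 : f.hom.f p = ((f.toCocycle).1.rightShift m 0 (zero_add m)).v p p (add_zero p) := rfl
  rw [h1, Cochain.rightShift_v _ m 0 (zero_add m) p p (add_zero p) (p + m) rfl]
  exact Category.comp_id _

/-- BLOCK C1: the morphism attached to a cocycle matrix -/
noncomputable def Coc.cls {A B : Tw 𝓐} {m : ℤ} (f : Coc A B m) : A.toK ⟶ B.toK⟦m⟧ :=
  (qt 𝓐).map f.hom ≫ ((qt 𝓐).commShiftIso m).hom.app B.toCpx

theorem Coc.cls_surj {A B : Tw 𝓐} {m : ℤ} (g : A.toK ⟶ B.toK⟦m⟧) :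
    ∃ f : Coc A B m, f.cls = g := by
  obtain ⟨φ, hφ⟩ := (qt 𝓐).map_surjective (g ≫ ((qt 𝓐).commShiftIso m).inv.app B.toCpx)
  obtain ⟨f, hf⟩ := Coc.toCocycle_surj (Cocycle.equivHomShift φ)
  refine ⟨f, ?_⟩
  have h1 : f.hom = φ := by
    rw [Coc.hom, hf, AddEquiv.symm_apply_apply]
  rw [Coc.cls, h1, hφ, Category.assoc, Iso.inv_hom_id_app]
  exact Category.comp_id _

/-- BLOCK C1: zero iff coboundary -/
theorem Coc.cls_eq_zero_iff {A B : Tw 𝓐} {m : ℤ} (f : Coc A B m) : f.cls = 0 ↔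
    ∃ h : ∀ i j, A.P i ⟶ B.P j, (∀ i j, B.deg j ≠ A.deg i + (m - 1) → h i j = 0) ∧
      ∀ i j, f.f i j = ∑ l, h i l ≫ B.D l j + m.negOnePow • ∑ l, A.D i l ≫ h l j := by
  have h1 : f.cls = 0 ↔ (qt 𝓐).map f.hom = 0 := by
    constructor
    · intro h
      have h2 := congrArg (· ≫ ((qt 𝓐).commShiftIso m).inv.app B.toCpx) h
      simp only [Coc.cls, Category.assoc, Iso.hom_inv_id_app, zero_comp] at h2
      exact (Category.comp_id _).symm.trans h2
    · intro h
      rw [Coc.cls, h, zero_comp]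
  rw [h1, Coc.hom, ← CohomologyClass.toHom_mk, CohomologyClass.toHom_mk_eq_zero_iff,
    mem_coboundaries_iff _ (m - 1) (by omega)]
  constructor
  · rintro ⟨β, hβ⟩
    obtain ⟨h, hh, rfl⟩ := cochain_surj β
    refine ⟨h, hh, fun i j => ?_⟩
    rw [δ_cochain (m - 1) m (by omega), Coc.coe_toCocycle, cochain_congr_iff] at hβ
    by_cases hij : B.deg j = A.deg i + m
    · exact (hβ i j hij).symm
    · rw [f.deg i j hij, Finset.sum_eq_zero, Finset.sum_eq_zero, smul_zero, add_zero]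
      · intro l _
        by_cases hl : A.deg l = A.deg i + 1
        · rw [hh l j, comp_zero]
          intro h'
          exact hij (by omega)
        · rw [A.D_deg i l hl, zero_comp]
      · intro l _
        by_cases hl : B.deg j = B.deg l + 1
        · rw [hh i l, zero_comp]
          intro h'
          exact hij (by omega)
        · rw [B.D_deg l j hl, comp_zero]
  · rintro ⟨h, _, hf⟩
    refine ⟨cochain (m - 1) h, ?_⟩
    rw [δ_cochain (m - 1) m (by omega), Coc.coe_toCocycle]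
    congr 1
    funext i j
    exact (hf i j).symm

/-- BLOCK C1: additivity -/
theorem Coc.cls_add {A B : Tw 𝓐} {m : ℤ} (f g fg : Coc A B m)
    (h : ∀ i j, fg.f i j = f.f i j + g.f i j) : fg.cls = f.cls + g.cls := by
  have h1 : fg.toCocycle = f.toCocycle + g.toCocycle := by
    refine Cocycle.ext (Cochain.ext _ _ fun p q hpq => ?_)
    refine obj_hom_ext (A := A) (B := B) (p := p) (q := q) fun i j => ?_
    exact h i.1 j.1
  rw [Coc.cls, Coc.cls, Coc.cls, Coc.hom, Coc.hom, Coc.hom, h1, map_add, Functor.map_add,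
    Preadditive.add_comp]

section smul

variable {k : Type w} [Field k] [Linear k 𝓐]

/-- BLOCK C1: scalars -/
theorem Coc.cls_smul {A B : Tw 𝓐} {m : ℤ} (a : k) (f af : Coc A B m)
    (h : ∀ i j, af.f i j = a • f.f i j) : af.cls = a • f.cls := by
  have h1 : af.hom = a • f.hom := by
    ext p : 1
    rw [HomologicalComplex.smul_f_apply, Coc.hom_f, Coc.hom_f]
    refine obj_hom_ext (A := A) (B := B) (p := p) (q := p + m) fun i j => ?_
    exact h i.1 j.1
  rw [Coc.cls, Coc.cls, h1, Functor.map_smul, Linear.smul_comp]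

end smul

/-! ### degree zero -/

/-- the chain map attached to a cocycle matrix of degree `0` -/
noncomputable def Coc.hom₀ {A B : Tw 𝓐} (f : Coc A B 0) : A.toCpx ⟶ B.toCpx :=
  Cocycle.homOf f.toCocycle

theorem Coc.hom₀_f {A B : Tw 𝓐} (f : Coc A B 0) (p : ℤ) : f.hom₀.f p = blk f.f p p := rfl

/-- the morphism attached to a cocycle matrix of degree `0` -/
noncomputable def Coc.cls₀ {A B : Tw 𝓐} (f : Coc A B 0) : A.toK ⟶ B.toK :=
  (qt 𝓐).map f.hom₀

theorem blk_comp_XIsoOfEq {A B : Tw 𝓐} (f : ∀ i j, A.P i ⟶ B.P j) (p : ℤ) {q q' : ℤ}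
    (h : q = q') : blk f p q ≫ (B.toCpx.XIsoOfEq h).hom = blk f p q' := by
  subst h
  exact Category.comp_id _

theorem Coc.hom_comp_zero {A B : Tw 𝓐} (f : Coc A B 0) :
    f.hom ≫ (shiftFunctorZero (CochainComplex (Mat_ 𝓐) ℤ) ℤ).hom.app B.toCpx = f.hom₀ := by
  ext p : 1
  rw [HomologicalComplex.comp_f, CochainComplex.shiftFunctorZero_hom_app_f, Coc.hom_f]
  exact blk_comp_XIsoOfEq f.f p (add_zero p)

theorem Coc.cls₀_eq {A B : Tw 𝓐} (f : Coc A B 0) :
    f.cls ≫ (shiftFunctorZero _ ℤ).hom.app B.toK = f.cls₀ := by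
  rw [Coc.cls, Functor.commShiftIso_zero, Functor.CommShift.isoZero_hom_app, Category.assoc,
    Category.assoc, Iso.inv_hom_id_app]
  rw [Coc.cls₀, ← Coc.hom_comp_zero, Functor.map_comp]
  congr 1
  exact Category.comp_id _

/-- the composition of a class of degree `m` with a class of degree `0` -/
theorem Coc.cls_comp₀ {A B C : Tw 𝓐} {m : ℤ} (f : Coc A B m) (g : Coc B C 0) (fg : Coc A C m)
    (h : ∀ i j, fg.f i j = ∑ l, f.f i l ≫ g.f l j) :
    f.cls ≫ g.cls₀⟦m⟧' = fg.cls := by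
  have h1 : fg.hom = f.hom ≫ g.hom₀⟦m⟧' := by
    ext p : 1
    rw [HomologicalComplex.comp_f, CochainComplex.shiftFunctor_map_f', Coc.hom_f, Coc.hom_f,
      Coc.hom₀_f]
    refine obj_hom_ext (A := A) (B := C) (p := p) (q := p + m) fun i j => ?_
    refine (h i.1 j.1).trans ?_
    refine Eq.trans ?_ (comp_obj_apply (blk f.f p (p + m)) (blk g.f (p + m) (p + m)) i j).symm
    refine (B.sum_subtype_deg (p + m) (fun l => f.f i.1 l ≫ g.f l j.1) fun l hl => ?_).symm
    rw [f.deg i.1 l, zero_comp]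
    rw [i.2]
    exact hl
  rw [Coc.cls, Coc.cls, h1, Functor.map_comp, Category.assoc, Category.assoc]
  congr 1
  rw [Coc.cls₀]
  exact (((qt 𝓐).commShiftIso m).hom.naturality g.hom₀).symm

/-- BLOCK C1: composition of a class of degree `m` with a class of degree `0` -/
theorem Coc.cls_comp {A B C : Tw 𝓐} {m : ℤ} (f : Coc A B m) (g : Coc B C 0) (fg : Coc A C m)
    (h : ∀ i j, fg.f i j = ∑ l, f.f i l ≫ g.f l j) :
    f.cls ≫ (g.cls ≫ (shiftFunctorZero _ ℤ).hom.app _)⟦m⟧' = fg.cls := by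
  rw [Coc.cls₀_eq]
  exact Coc.cls_comp₀ f g fg h

/-- the composition of a class of degree `0` with a class of degree `m` -/
theorem Coc.cls₀_comp {A B C : Tw 𝓐} {m : ℤ} (f : Coc A B 0) (g : Coc B C m) (fg : Coc A C m)
    (h : ∀ i j, fg.f i j = ∑ l, f.f i l ≫ g.f l j) :
    f.cls₀ ≫ g.cls = fg.cls := by
  have h1 : fg.hom = f.hom₀ ≫ g.hom := by
    ext p : 1
    rw [HomologicalComplex.comp_f, Coc.hom_f, Coc.hom_f, Coc.hom₀_f]
    refine obj_hom_ext (A := A) (B := C) (p := p) (q := p + m) fun i j => ?_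
    refine (h i.1 j.1).trans ?_
    refine Eq.trans ?_ (comp_obj_apply (blk f.f p p) (blk g.f p (p + m)) i j).symm
    refine (B.sum_subtype_deg p (fun l => f.f i.1 l ≫ g.f l j.1) fun l hl => ?_).symm
    rw [f.deg i.1 l, zero_comp]
    rw [i.2, add_zero]
    exact hl
  rw [Coc.cls, Coc.cls, h1, Functor.map_comp, Category.assoc]
  rfl

/-- the identity matrix -/
noncomputable def Coc.one (A : Tw 𝓐) : Coc A A 0 where
  f i j := by
    classical
    exact if h : i = j then eqToHom (congrArg A.P h) else 0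
  deg i j hij := by
    refine dif_neg ?_
    rintro rfl
    exact hij (by rw [add_zero])
  coc i j := by
    classical
    rw [Int.negOnePow_zero, one_smul]
    rw [Finset.sum_eq_single i, Finset.sum_eq_single j]
    · rw [dif_pos rfl, dif_pos rfl]
      simp
    · intro l _ hl
      rw [dif_neg hl, comp_zero]
    · intro h
      exact absurd (Finset.mem_univ _) h
    · intro l _ hl
      rw [dif_neg (Ne.symm hl), zero_comp]
    · intro h
      exact absurd (Finset.mem_univ _) h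

theorem Coc.one_self (A : Tw 𝓐) (i : A.ι) : (Coc.one A).f i i = 𝟙 _ := dif_pos rfl

theorem Coc.one_ne (A : Tw 𝓐) {i j : A.ι} (h : i ≠ j) : (Coc.one A).f i j = 0 := dif_neg h

theorem Coc.cls₀_one (A : Tw 𝓐) : (Coc.one A).cls₀ = 𝟙 A.toK := by
  have h1 : (Coc.one A).hom₀ = 𝟙 A.toCpx := by
    ext p : 1
    rw [Coc.hom₀_f]
    refine obj_hom_ext (A := A) (B := A) (p := p) (q := p) fun i j => ?_
    by_cases h : i = j
    · subst h
      refine (Coc.one_self A i.1).trans ?_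
      exact (Mat_.id_apply_self (A.obj p) i).symm
    · refine (Coc.one_ne A (fun h' => h (Subtype.ext h'))).trans ?_
      exact (Mat_.id_apply_of_ne (A.obj p) i j h).symm
  rw [Coc.cls₀, h1]
  exact (qt 𝓐).map_id _

theorem Coc.cls₀_surj {A B : Tw 𝓐} (g : A.toK ⟶ B.toK) : ∃ f : Coc A B 0, f.cls₀ = g := by
  obtain ⟨f, hf⟩ := Coc.cls_surj (g ≫ (shiftFunctorZero _ ℤ).inv.app B.toK)
  refine ⟨f, ?_⟩
  rw [← Coc.cls₀_eq, hf, Category.assoc, Iso.inv_hom_id_app]
  exact Category.comp_id _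

theorem Coc.cls₀_eq_zero_iff {A B : Tw 𝓐} (f : Coc A B 0) : f.cls₀ = 0 ↔
    ∃ h : ∀ i j, A.P i ⟶ B.P j, (∀ i j, B.deg j ≠ A.deg i - 1 → h i j = 0) ∧
      ∀ i j, f.f i j = ∑ l, h i l ≫ B.D l j + ∑ l, A.D i l ≫ h l j := by
  have h1 : f.cls₀ = 0 ↔ f.cls = 0 := by
    rw [← Coc.cls₀_eq]
    constructor
    · intro h
      have h2 := congrArg (· ≫ (shiftFunctorZero _ ℤ).inv.app B.toK) h
      simp only [Category.assoc, Iso.hom_inv_id_app, zero_comp] at h2
      exact (Category.comp_id _).symm.trans h2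
    · intro h
      rw [h, zero_comp]
  rw [h1, Coc.cls_eq_zero_iff]
  constructor
  · rintro ⟨h, hh, hf⟩
    refine ⟨h, fun i j hij => hh i j (by intro h'; exact hij (by omega)), fun i j => ?_⟩
    rw [hf i j, Int.negOnePow_zero, one_smul]
  · rintro ⟨h, hh, hf⟩
    refine ⟨h, fun i j hij => hh i j (by intro h'; exact hij (by omega)), fun i j => ?_⟩
    rw [hf i j, Int.negOnePow_zero, one_smul]

theorem Coc.cls₀_add {A B : Tw 𝓐} (f g fg : Coc A B 0)
    (h : ∀ i j, fg.f i j = f.f i j + g.f i j) : fg.cls₀ = f.cls₀ + g.cls₀ := by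
  rw [← Coc.cls₀_eq, ← Coc.cls₀_eq, ← Coc.cls₀_eq, Coc.cls_add f g fg h, Preadditive.add_comp]

theorem Coc.cls₀_smul {k : Type w} [Field k] [Linear k 𝓐] {A B : Tw 𝓐} (a : k) (f af : Coc A B 0)
    (h : ∀ i j, af.f i j = a • f.f i j) : af.cls₀ = a • f.cls₀ := by
  rw [← Coc.cls₀_eq, ← Coc.cls₀_eq, Coc.cls_smul a f af h, Linear.smul_comp]

/-- equal matrices (in the relevant degrees) have equal classes -/
theorem Coc.cls_congr {A B : Tw 𝓐} {m : ℤ} (f g : Coc A B m)
    (h : ∀ i j, B.deg j = A.deg i + m → f.f i j = g.f i j) : f.cls = g.cls := by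
  have h1 : f.toCocycle = g.toCocycle :=
    Cocycle.ext ((cochain_congr_iff (m := m) f.f g.f).2 h)
  rw [Coc.cls, Coc.cls, Coc.hom, Coc.hom, h1]

end Tw

end Lens
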