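import Mathlib

/-!
# Combinatorial interface: a finite cell complex and the facts needed about it
-/

namespace Lens

/-- A finite cell complex with incidence numbers. -/
structure Cells where
  N : Type
  [fin : Fintype N]
  [dec : DecidableEq N]
  /-- `le τ σ`: `τ` is a face of `σ` -/
  le : N → N → Prop
  dim : N → ℕ
  /-- incidence number of `σ` and its facet `τ` -/
  inc : N → N → ℤ
  le_refl : ∀ σ, le σ σ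
  le_trans : ∀ ρ τ σ, le ρ τ → le τ σ → le ρ σ
  le_dim : ∀ τ σ, le τ σ → dim τ ≤ dim σ
  le_eq : ∀ τ σ, le τ σ → dim τ = dim σ → τ = σ
  inc_le : ∀ σ τ, inc σ τ ≠ 0 → le τ σ ∧ dim σ = dim τ + 1
  le_inc : ∀ σ τ, le τ σ → dim σ = dim τ + 1 → inc σ τ = 1 ∨ inc σ τ = -1
  sq : ∀ σ ρ, ∑ τ, inc σ τ * inc τ ρ = 0

attribute [instance] Cells.fin Cells.dec

/-- The facts (over the field `k`) about a closed oriented connected `3`-manifold with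
`H¹(–;k) = 0`, in matrix form. -/
structure Cells.Facts (Z : Cells) (k : Type*) [Field k] where
  v : Z.N → Z.N
  t : Z.N → Z.N
  ε : Z.N → k
  dim_le : ∀ σ, Z.dim σ ≤ 3
  v_le : ∀ τ, Z.le (v τ) τ ∧ Z.dim (v τ) = 0
  t_le : ∀ τ, Z.le τ (t τ) ∧ Z.dim (t τ) = 3
  lower : ∀ (τ : Z.N) (d : ℕ) (φ : Z.N → k), (∀ σ, φ σ ≠ 0 → Z.le σ τ ∧ Z.dim σ = d) →
    (∀ j, Z.le j τ → ∑ l, φ l * (Z.inc l j : k) = 0) →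
    ∃ ψ : Z.N → k, (∀ σ, ψ σ ≠ 0 → Z.le σ τ ∧ Z.dim σ = d + 1) ∧
      ∀ j, Z.le j τ → (d = 0 → j ≠ v τ) → φ j = ∑ l, ψ l * (Z.inc l j : k)
  upper : ∀ (τ : Z.N) (d : ℕ) (φ : Z.N → k), (∀ σ, φ σ ≠ 0 → Z.le τ σ ∧ Z.dim σ = d) →
    (∀ i, Z.le τ i → ∑ l, (Z.inc i l : k) * φ l = 0) →
    ∃ ψ : Z.N → k, (∀ σ, ψ σ ≠ 0 → Z.le τ σ ∧ Z.dim σ + 1 = d) ∧
      ∀ i, Z.le τ i → (d = 3 → i ≠ t τ) → φ i = ∑ l, (Z.inc i l : k) * ψ l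
  dia : ∀ i j l l' l'', Z.inc i l ≠ 0 → Z.inc l j ≠ 0 → Z.inc i l' ≠ 0 → Z.inc l' j ≠ 0 →
    Z.inc i l'' ≠ 0 → Z.inc l'' j ≠ 0 → l = l' ∨ l = l'' ∨ l' = l''
  conn : ∀ φ : Z.N → k, (∀ i j, Z.inc i j ≠ 0 → φ i = φ j) → ∀ i j, φ i = φ j
  h1 : ∀ w : Z.N → Z.N → k,
    (∀ i l l' j, Z.inc i l ≠ 0 → Z.inc l j ≠ 0 → Z.inc i l' ≠ 0 → Z.inc l' j ≠ 0 →
      w i l + w l j = w i l' + w l' j) →
    ∃ h : Z.N → k, ∀ i j, Z.inc i j ≠ 0 → w i j = h i - h j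
  ε_ne : ∀ σ, Z.dim σ = 3 → ε σ ≠ 0
  o1 : ∀ e, Z.dim e = 1 → ∑ v, Z.inc e v = 0
  o2 : ∀ r, Z.dim r = 2 → ∑ σ, ε σ * (Z.inc σ r : k) = 0

/-- A `ℤ/r`-valued cocycle `G` which is nontrivial on the complement of the facet `t₀`. -/
structure Cells.Loop (Z : Cells) (k : Type*) [Field k] (r : ℕ) where
  pos : 0 < r
  G : Z.N → Z.N → ℕ
  t₀ : Z.N
  dim_t₀ : Z.dim t₀ = 3
  self : ∀ σ, G σ σ % r = 0
  add : ∀ σ τ ρ, Z.le τ σ → Z.le ρ τ → (G σ τ + G τ ρ) % r = G σ ρ % r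
  loop : ∀ w : k, w ^ r = 1 → w ≠ 1 → ∀ φ : Z.N → k,
    (∀ i j, i ≠ t₀ → j ≠ t₀ → Z.inc i j ≠ 0 → φ i = w ^ (G i j) * φ j) →
    ∀ i, i ≠ t₀ → φ i = 0

end Lens
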