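import Mathlib

/-!
# Graded contractions of exact complexes (abstract part)

Families of vector spaces indexed by a grading group with two commuting operators `U`, `V` of
positive degree which form a regular sequence: an exact complex of such families is contractible
by maps which commute with `U` and `V`.
-/

namespace Lens

universe w v

/-- A family of vector spaces `M w` (`w : L`) with two commuting operators
`U : M w → M (w - α)` and `V : M w → M (w - β)`. -/
structure UV (k : Type w) [Field k] {L : Type*} [AddCommGroup L] (α β : L) where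
  M : L → Type v
  [acg : ∀ w, AddCommGroup (M w)]
  [mod : ∀ w, Module k (M w)]
  U : ∀ w w', w = w' + α → (M w →ₗ[k] M w')
  V : ∀ w w', w = w' + β → (M w →ₗ[k] M w')
  comm : ∀ (w w₁ w₂ w₃ : L) (h₁ : w = w₁ + α) (h₂ : w = w₂ + β) (h₃ : w₁ = w₃ + β)
    (h₄ : w₂ = w₃ + α) (x : M w), V w₁ w₃ h₃ (U w w₁ h₁ x) = U w₂ w₃ h₄ (V w w₂ h₂ x)

attribute [instance] UV.acg UV.mod

namespace UV

variable {k : Type w} [Field k] {L : Type*} [AddCommGroup L] {α β : L}

/-- A morphism of families. -/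
structure Hom (A B : UV.{w, v} k α β) where
  f : ∀ w, A.M w →ₗ[k] B.M w
  hU : ∀ w w' h x, f w' (A.U w w' h x) = B.U w w' h (f w x)
  hV : ∀ w w' h x, f w' (A.V w w' h x) = B.V w w' h (f w x)

/-- The Koszul property: `(U, V)` is a regular sequence (the part we need). -/
def Koszul (Z : UV.{w, v} k α β) : Prop :=
  ∀ (w' w₁ w₂ w : L) (h₁ : w₁ = w' + α) (h₂ : w₂ = w' + β) (h₁' : w = w₁ + β) (h₂' : w = w₂ + α)
    (p : Z.M w₁) (q : Z.M w₂), Z.U w₁ w' h₁ p + Z.V w₂ w' h₂ q = 0 →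
    ∃ t : Z.M w, p = Z.V w w₁ h₁' t ∧ q = - Z.U w w₂ h₂' t

/-- `r : Z w → A w` is a good section at `w` relative to the sections at `w + α`, `w + β`. -/
def GoodAt {A Z : UV.{w, v} k α β} (d : Hom A Z) (w : L) (s : Z.M (w + α) →ₗ[k] A.M (w + α))
    (t : Z.M (w + β) →ₗ[k] A.M (w + β)) (r : Z.M w →ₗ[k] A.M w) : Prop :=
  (∀ z, d.f w (r z) = z) ∧ (∀ p, r (Z.U (w + α) w rfl p) = A.U (w + α) w rfl (s p)) ∧
    (∀ q, r (Z.V (w + β) w rfl q) = A.V (w + β) w rfl (t q))

open scoped Classical in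
/-- one step of the recursion -/
noncomputable def stepAt {A Z : UV.{w, v} k α β} (d : Hom A Z) (w : L)
    (s : Z.M (w + α) →ₗ[k] A.M (w + α)) (t : Z.M (w + β) →ₗ[k] A.M (w + β)) :
    Z.M w →ₗ[k] A.M w :=
  if h : ∃ r, GoodAt d w s t r then h.choose else 0

theorem stepAt_good {A Z : UV.{w, v} k α β} (d : Hom A Z) (w : L)
    (s : Z.M (w + α) →ₗ[k] A.M (w + α)) (t : Z.M (w + β) →ₗ[k] A.M (w + β))
    (h : ∃ r, GoodAt d w s t r) : GoodAt d w s t (stepAt d w s t) := by
  unfold stepAt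
  rw [dif_pos h]
  exact h.choose_spec

/-- the recursion -/
noncomputable def sec {A Z : UV.{w, v} k α β} (d : Hom A Z) (δ : L →+ ℤ) (hα : 0 < δ α)
    (hβ : 0 < δ β) (N : ℤ) (w : L) : Z.M w →ₗ[k] A.M w :=
  if _h : N < δ w then 0 else
    stepAt d w (sec d δ hα hβ N (w + α)) (sec d δ hα hβ N (w + β))
termination_by (N + 1 - δ w).toNat
decreasing_by
  · simp only [map_add]; omega
  · simp only [map_add]; omega

/-- linear algebra: extension of a partial section -/
theorem exists_good_of {A Z : UV.{w, v} k α β} (d : Hom A Z) (hd : ∀ w z, ∃ a, d.f w a = z)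
    (w : L) (s : Z.M (w + α) →ₗ[k] A.M (w + α)) (t : Z.M (w + β) →ₗ[k] A.M (w + β))
    (hs : ∀ z, d.f _ (s z) = z) (ht : ∀ z, d.f _ (t z) = z)
    (hst : ∀ p q, Z.U (w + α) w rfl p + Z.V (w + β) w rfl q = 0 →
      A.U (w + α) w rfl (s p) + A.V (w + β) w rfl (t q) = 0) :
    ∃ r, GoodAt d w s t r := by
  obtain ⟨r₁, hr₁⟩ : ∃ r₁ : Z.M w →ₗ[k] A.M w, (d.f w) ∘ₗ r₁ = LinearMap.id :=
    LinearMap.exists_rightInverse_of_surjective (d.f w)
      (LinearMap.range_eq_top.2 fun z => hd w z)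
  have hr₁' : ∀ z, d.f w (r₁ z) = z := fun z => by
    simpa using LinearMap.congr_fun hr₁ z
  let ψ : Z.M (w + α) × Z.M (w + β) →ₗ[k] Z.M w :=
    (Z.U (w + α) w rfl).coprod (Z.V (w + β) w rfl)
  let φ : Z.M (w + α) × Z.M (w + β) →ₗ[k] A.M w :=
    ((A.U (w + α) w rfl) ∘ₗ s).coprod ((A.V (w + β) w rfl) ∘ₗ t)
  have hker : ∀ x, ψ x = 0 → φ x = 0 := by
    rintro ⟨p, q⟩ h
    simp only [ψ, φ, LinearMap.coprod_apply, LinearMap.comp_apply] at h ⊢
    exact hst p q h
  have hdφ : ∀ x, d.f w (φ x) = ψ x := by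
    rintro ⟨p, q⟩
    simp only [ψ, φ, LinearMap.coprod_apply, LinearMap.comp_apply, map_add, d.hU, d.hV, hs, ht]
  obtain ⟨ρ, hρ⟩ := LinearMap.exists_rightInverse_of_surjective ψ.rangeRestrict
    ψ.range_rangeRestrict
  have hρ' : ∀ y : LinearMap.range ψ, ψ (ρ y) = y := fun y => by
    have := LinearMap.congr_fun hρ y
    simpa using congrArg Subtype.val this
  obtain ⟨P, hP⟩ := LinearMap.exists_extend (p := LinearMap.range ψ) (LinearMap.id)
  have hP' : ∀ y : LinearMap.range ψ, P y = y := fun y => by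
    simpa using LinearMap.congr_fun hP y
  refine ⟨r₁ + φ ∘ₗ ρ ∘ₗ P - r₁ ∘ₗ (Submodule.subtype _) ∘ₗ P, ?_, ?_, ?_⟩
  · intro z
    simp only [LinearMap.add_apply, LinearMap.sub_apply, LinearMap.comp_apply, map_add, map_sub,
      hdφ, hρ', hr₁', Submodule.subtype_apply]
    abel
  · intro p
    have e : Z.U (w + α) w rfl p = ψ (p, 0) := by simp [ψ]
    have e' : A.U (w + α) w rfl (s p) = φ (p, 0) := by simp [φ]
    rw [e, e']
    have h1 : P (ψ (p, 0)) = ⟨ψ (p, 0), LinearMap.mem_range_self _ _⟩ := hP' ⟨ψ (p, 0), _⟩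
    have h2 : φ (ρ ⟨ψ (p, 0), LinearMap.mem_range_self _ _⟩) = φ (p, 0) := by
      rw [← sub_eq_zero, ← map_sub]
      exact hker _ (by rw [map_sub, hρ', sub_self])
    simp only [LinearMap.add_apply, LinearMap.sub_apply, LinearMap.comp_apply, h1, h2,
      Submodule.subtype_apply]
    abel
  · intro p
    have e : Z.V (w + β) w rfl p = ψ (0, p) := by simp [ψ]
    have e' : A.V (w + β) w rfl (t p) = φ (0, p) := by simp [φ]
    rw [e, e']
    have h1 : P (ψ (0, p)) = ⟨ψ (0, p), LinearMap.mem_range_self _ _⟩ := hP' ⟨ψ (0, p), _⟩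
    have h2 : φ (ρ ⟨ψ (0, p), LinearMap.mem_range_self _ _⟩) = φ (0, p) := by
      rw [← sub_eq_zero, ← map_sub]
      exact hker _ (by rw [map_sub, hρ', sub_self])
    simp only [LinearMap.add_apply, LinearMap.sub_apply, LinearMap.comp_apply, h1, h2,
      Submodule.subtype_apply]
    abel

theorem sec_good {A Z : UV.{w, v} k α β} (d : Hom A Z) (hd : ∀ w z, ∃ a, d.f w a = z)
    (hK : Z.Koszul) (δ : L →+ ℤ) (hα : 0 < δ α) (hβ : 0 < δ β) (N : ℤ)
    (hN : ∀ w, N < δ w → ∀ z : Z.M w, z = 0) (w : L) :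
    GoodAt d w (sec d δ hα hβ N (w + α)) (sec d δ hα hβ N (w + β)) (sec d δ hα hβ N w) := by
  induction h : (N + 1 - δ w).toNat using Nat.strong_induction_on generalizing w with
  | _ m ih =>
    by_cases hw : N < δ w
    · refine ⟨fun z => ?_, fun p => ?_, fun p => ?_⟩
      · rw [hN w hw z, map_zero, map_zero]
      · have : N < δ (w + α) := by rw [map_add]; omega
        rw [hN _ this p]; simp
      · have : N < δ (w + β) := by rw [map_add]; omega
        rw [hN _ this p]; simp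
    · have hα' := ih (N + 1 - δ (w + α)).toNat (by rw [map_add]; omega) (w + α) rfl
      have hβ' := ih (N + 1 - δ (w + β)).toNat (by rw [map_add]; omega) (w + β) rfl
      have e : sec d δ hα hβ N w =
          stepAt d w (sec d δ hα hβ N (w + α)) (sec d δ hα hβ N (w + β)) := by
        rw [sec, dif_neg hw]
      rw [e]
      apply stepAt_good
      apply exists_good_of d hd w _ _ hα'.1 hβ'.1
      intro p q hpq
      obtain ⟨x, rfl, rfl⟩ := hK w (w + α) (w + β) (w + α + β) rfl rfl rfl (by abel) p q hpq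
      have e1 := hα'.2.2 x
      have e2 : ∀ (w' : L) (h : w' = w + β + α) (x : Z.M w'),
          sec d δ hα hβ N (w + β) (Z.U w' (w + β) h x) =
            A.U w' (w + β) h (sec d δ hα hβ N w' x) := by
        rintro w' rfl x
        exact hβ'.2.1 x
      rw [e1, map_neg, e2, map_neg, A.comm (w + α + β) (w + β) (w + α) w (by abel) rfl rfl rfl,
        add_neg_cancel]

/-- general naturality of the sections -/
theorem sec_U {A Z : UV.{w, v} k α β} (d : Hom A Z) (hd : ∀ w z, ∃ a, d.f w a = z)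
    (hK : Z.Koszul) (δ : L →+ ℤ) (hα : 0 < δ α) (hβ : 0 < δ β) (N : ℤ)
    (hN : ∀ w, N < δ w → ∀ z : Z.M w, z = 0) (w w' : L) (h : w = w' + α) (z : Z.M w) :
    sec d δ hα hβ N w' (Z.U w w' h z) = A.U w w' h (sec d δ hα hβ N w z) := by
  subst h
  exact (sec_good d hd hK δ hα hβ N hN w').2.1 z

theorem sec_V {A Z : UV.{w, v} k α β} (d : Hom A Z) (hd : ∀ w z, ∃ a, d.f w a = z)
    (hK : Z.Koszul) (δ : L →+ ℤ) (hα : 0 < δ α) (hβ : 0 < δ β) (N : ℤ)
    (hN : ∀ w, N < δ w → ∀ z : Z.M w, z = 0) (w w' : L) (h : w = w' + β) (z : Z.M w) :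
    sec d δ hα hβ N w' (Z.V w w' h z) = A.V w w' h (sec d δ hα hβ N w z) := by
  subst h
  exact (sec_good d hd hK δ hα hβ N hN w').2.2 z

/-- The kernel of a morphism. -/
@[simps]
noncomputable def ker {A B : UV.{w, v} k α β} (d : Hom A B) : UV.{w, v} k α β where
  M w := LinearMap.ker (d.f w)
  U w w' h := (A.U w w' h).restrict (fun x hx => by
    rw [LinearMap.mem_ker] at hx ⊢; rw [d.hU, hx, map_zero])
  V w w' h := (A.V w w' h).restrict (fun x hx => by
    rw [LinearMap.mem_ker] at hx ⊢; rw [d.hV, hx, map_zero])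
  comm w w₁ w₂ w₃ h₁ h₂ h₃ h₄ x := by
    ext
    exact A.comm w w₁ w₂ w₃ h₁ h₂ h₃ h₄ x

/-- The kernel has the Koszul property, if the source has it and `U`, `V` are injective on the
target (only one of them is needed). -/
theorem ker_koszul {A B : UV.{w, v} k α β} (d : Hom A B) (hA : A.Koszul)
    (hB : ∀ w w' h (x : B.M w), B.V w w' h x = 0 → x = 0) : (ker d).Koszul := by
  intro w' w₁ w₂ w h₁ h₂ h₁' h₂' p q hpq
  obtain ⟨t, ht, ht'⟩ := hA w' w₁ w₂ w h₁ h₂ h₁' h₂' p.1 q.1 (congrArg Subtype.val hpq)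
  have hp : d.f w₁ p.1 = 0 := p.2
  rw [ht, d.hV] at hp
  exact ⟨⟨t, hB _ _ _ _ hp⟩, Subtype.ext ht, Subtype.ext ht'⟩

open scoped Classical in
/-- MAIN THEOREM (abstract form): a complex of families bounded in degree, on which `(U, V)` is
regular, exact at the places `i + 1` with `E i`, has maps `h` which commute with `U` and `V` and
which satisfy the contraction identity wherever `E i`, `E (i + 1)` and `E (i + 2)` hold. -/
theorem exists_contraction_of (E : ℤ → Prop) (A : ℤ → UV.{w, v} k α β)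
    (d : ∀ i, Hom (A i) (A (i + 1)))
    (hdd : ∀ i w x, (d (i + 1)).f w ((d i).f w x) = 0)
    (hex : ∀ i, E i → ∀ w (x : (A (i + 1)).M w), (d (i + 1)).f w x = 0 →
      ∃ y, (d i).f w y = x)
    (hK : ∀ i, (A i).Koszul)
    (hV : ∀ i w w' h (x : (A i).M w), (A i).V w w' h x = 0 → x = 0)
    (δ : L →+ ℤ) (hα : 0 < δ α) (hβ : 0 < δ β)
    (hN : ∀ i, ∃ N : ℤ, ∀ w, N < δ w → ∀ z : (A i).M w, z = 0) :
    ∃ h : ∀ i w, (A (i + 1)).M w →ₗ[k] (A i).M w,
      (∀ i, E i → E (i + 1) → E (i + 1 + 1) → ∀ w x,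
        (d i).f w (h i w x) + h (i + 1) w ((d (i + 1)).f w x) = x) ∧
      (∀ i w w' e x, h i w' ((A (i + 1)).U w w' e x) = (A i).U w w' e (h i w x)) ∧
      (∀ i w w' e x, h i w' ((A (i + 1)).V w w' e x) = (A i).V w w' e (h i w x)) := by
  choose N hN using hN
  -- the corestriction of `d i` to the cycles
  let d' : ∀ i, Hom (A i) (ker (d (i + 1))) := fun i =>
    { f := fun w => LinearMap.codRestrict _ ((d i).f w) (fun x => hdd i w x)
      hU := fun w w' e x => Subtype.ext ((d i).hU w w' e x)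
      hV := fun w w' e x => Subtype.ext ((d i).hV w w' e x) }
  have hd' : ∀ i, E i → ∀ w z, ∃ a, (d' i).f w a = z := by
    rintro i hi w ⟨z, hz⟩
    obtain ⟨y, hy⟩ := hex i hi w z hz
    exact ⟨y, Subtype.ext hy⟩
  have hKK : ∀ i, (ker (d (i + 1))).Koszul := fun i =>
    ker_koszul _ (hK _) (fun w w' h x => hV _ w w' h x)
  have hNN : ∀ i w, N (i + 1) < δ w → ∀ z : (ker (d (i + 1))).M w, z = 0 := by
    rintro i w hw ⟨z, hz⟩
    exact Subtype.ext (hN (i + 1) w hw z)
  let σ : ∀ i w, (ker (d (i + 1))).M w →ₗ[k] (A i).M w := fun i w =>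
    sec (d' i) δ hα hβ (N (i + 1)) w
  have hσ : ∀ i, E i → ∀ w z, (d i).f w (σ i w z) = z.1 := fun i hi w z =>
    congrArg Subtype.val ((sec_good (d' i) (hd' i hi) (hKK i) δ hα hβ (N (i + 1)) (hNN i) w).1 z)
  have hσU : ∀ i, E i → ∀ w w' e z, σ i w' ((ker (d (i + 1))).U w w' e z) =
      (A i).U w w' e (σ i w z) := fun i hi w w' e z =>
    sec_U (d' i) (hd' i hi) (hKK i) δ hα hβ (N (i + 1)) (hNN i) w w' e z
  have hσV : ∀ i, E i → ∀ w w' e z, σ i w' ((ker (d (i + 1))).V w w' e z) =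
      (A i).V w w' e (σ i w z) := fun i hi w w' e z =>
    sec_V (d' i) (hd' i hi) (hKK i) δ hα hβ (N (i + 1)) (hNN i) w w' e z
  -- the projection to the cycles
  let π : ∀ i, E (i + 1) → ∀ w, (A (i + 1)).M w →ₗ[k] (ker (d (i + 1))).M w := fun i hi w =>
    LinearMap.codRestrict _
      (LinearMap.id - (σ (i + 1) w) ∘ₗ (d' (i + 1)).f w) (fun x => by
        rw [LinearMap.mem_ker, LinearMap.sub_apply, map_sub, LinearMap.comp_apply, hσ _ hi]
        exact sub_self _)
  have hπU : ∀ i (hi : E (i + 1)) w w' e x, π i hi w' ((A (i + 1)).U w w' e x) =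
      (ker (d (i + 1))).U w w' e (π i hi w x) := by
    intro i hi w w' e x
    refine Subtype.ext ?_
    change (A (i + 1)).U w w' e x -
        σ (i + 1) w' ((d' (i + 1)).f w' ((A (i + 1)).U w w' e x)) =
      (A (i + 1)).U w w' e (x - σ (i + 1) w ((d' (i + 1)).f w x))
    rw [(d' (i + 1)).hU, hσU _ hi, map_sub]
  have hπV : ∀ i (hi : E (i + 1)) w w' e x, π i hi w' ((A (i + 1)).V w w' e x) =
      (ker (d (i + 1))).V w w' e (π i hi w x) := by
    intro i hi w w' e x
    refine Subtype.ext ?_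
    change (A (i + 1)).V w w' e x -
        σ (i + 1) w' ((d' (i + 1)).f w' ((A (i + 1)).V w w' e x)) =
      (A (i + 1)).V w w' e (x - σ (i + 1) w ((d' (i + 1)).f w x))
    rw [(d' (i + 1)).hV, hσV _ hi, map_sub]
  refine ⟨fun i w => if hi : E i ∧ E (i + 1) then (σ i w) ∘ₗ (π i hi.2 w) else 0, ?_, ?_, ?_⟩
  · intro i hi hi1 hi2 w x
    have e1 : π (i + 1) hi2 w ((d (i + 1)).f w x) = (d' (i + 1)).f w x := by
      have e0 : (d' (i + 1 + 1)).f w ((d (i + 1)).f w x) = 0 :=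
        Subtype.ext (hdd (i + 1) w x)
      refine Subtype.ext ?_
      change (d (i + 1)).f w x - σ (i + 1 + 1) w ((d' (i + 1 + 1)).f w ((d (i + 1)).f w x)) =
        (d (i + 1)).f w x
      rw [e0, map_zero, sub_zero]
    simp only [dif_pos (And.intro hi hi1), dif_pos (And.intro hi1 hi2)]
    change (d i).f w (σ i w (π i hi1 w x)) + σ (i + 1) w (π (i + 1) hi2 w ((d (i + 1)).f w x)) = x
    rw [hσ _ hi, e1]
    change x - σ (i + 1) w ((d' (i + 1)).f w x) + σ (i + 1) w ((d' (i + 1)).f w x) = x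
    abel
  · intro i w w' e x
    by_cases hi : E i ∧ E (i + 1)
    · simp only [dif_pos hi]
      change σ i w' (π i hi.2 w' ((A (i + 1)).U w w' e x)) =
        (A i).U w w' e (σ i w (π i hi.2 w x))
      rw [hπU _ hi.2, hσU _ hi.1]
    · simp only [dif_neg hi, LinearMap.zero_apply, map_zero]
  · intro i w w' e x
    by_cases hi : E i ∧ E (i + 1)
    · simp only [dif_pos hi]
      change σ i w' (π i hi.2 w' ((A (i + 1)).V w w' e x)) =
        (A i).V w w' e (σ i w (π i hi.2 w x))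
      rw [hπV _ hi.2, hσV _ hi.1]
    · simp only [dif_neg hi, LinearMap.zero_apply, map_zero]

/-- The case of an exact complex. -/
theorem exists_contraction (A : ℤ → UV.{w, v} k α β) (d : ∀ i, Hom (A i) (A (i + 1)))
    (hdd : ∀ i w x, (d (i + 1)).f w ((d i).f w x) = 0)
    (hex : ∀ i w (x : (A (i + 1)).M w), (d (i + 1)).f w x = 0 → ∃ y, (d i).f w y = x)
    (hK : ∀ i, (A i).Koszul)
    (hV : ∀ i w w' h (x : (A i).M w), (A i).V w w' h x = 0 → x = 0)
    (δ : L →+ ℤ) (hα : 0 < δ α) (hβ : 0 < δ β)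
    (hN : ∀ i, ∃ N : ℤ, ∀ w, N < δ w → ∀ z : (A i).M w, z = 0) :
    ∃ h : ∀ i w, (A (i + 1)).M w →ₗ[k] (A i).M w,
      (∀ i w x, (d i).f w (h i w x) + h (i + 1) w ((d (i + 1)).f w x) = x) ∧
      (∀ i w w' e x, h i w' ((A (i + 1)).U w w' e x) = (A i).U w w' e (h i w x)) ∧
      (∀ i w w' e x, h i w' ((A (i + 1)).V w w' e x) = (A i).V w w' e (h i w x)) := by
  obtain ⟨h, h1, h2, h3⟩ := exists_contraction_of (fun _ => True) A d hdd
    (fun i _ => hex i) hK hV δ hα hβ hN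
  exact ⟨h, fun i => h1 i trivial trivial trivial, h2, h3⟩

end UV

end Lens
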