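import Mathlib
import Pool.Agent.Lens.LB
import Pool.Agent.Lens.D1a

/-!
# Matrix complexes over the graded ring `S`: contraction over `k[u, v]`
-/

open CategoryTheory MvPolynomial Finset
open scoped symmDiff

namespace Lens

universe u

variable {k : Type u} [Field k] {n : ℕ} {lam : Fin n → Fin 2 → k}

/-- the degree as an additive homomorphism -/
def dgHom (n : ℕ) : LG n →+ ℤ where
  toFun := LG.dg
  map_zero' := by simp [LG.dg]
  map_add' := LG.dg_add

@[simp] theorem dgHom_apply (z : LG n) : dgHom n z = LG.dg z := rfl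

theorem mem_piece_of_eq {z z' : LG n} {f : S lam} (hf : f ∈ piece lam z) (h : z = z') :
    f ∈ piece lam z' := h ▸ hf

theorem eq_zero_of_dg_neg {z : LG n} (h : z.dg < 0) {f : S lam} (hf : f ∈ piece lam z) :
    f = 0 := by
  apply eq_zero_of_mem_piece lam (z := z) _ hf
  unfold LG.dg at h
  omega

/-- `(u, v)` is a homogeneous regular sequence on `S`, of degrees `α`, `β` -/
structure KosS (lam : Fin n → Fin 2 → k) (u v : S lam) (α β : LG n) : Prop where
  hu : u ∈ piece lam α
  hv : v ∈ piece lam β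
  pos_u : 0 < α.dg
  pos_v : 0 < β.dg
  inj_v : ∀ s : S lam, v * s = 0 → s = 0
  kos : ∀ (z : LG n) (p q : S lam), p ∈ piece lam (z + β) → q ∈ piece lam (z + α) →
    u * p + v * q = 0 → ∃ t ∈ piece lam z, p = v * t ∧ q = - (u * t)

/-- graded vectors: the homogeneous part of the free module `⨁_a S(-?)`; `v a ∈ S_{y a - w}` -/
noncomputable def Vec (lam : Fin n → Fin 2 → k) {ι : Type} (y : ι → LG n) (w : LG n) : Submodule k (ι → S lam) :=
  Submodule.pi Set.univ fun a => piece lam (y a - w)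

theorem mem_Vec {ι : Type} {y : ι → LG n} {w : LG n} {v : ι → S lam} :
    v ∈ Vec lam y w ↔ ∀ a, v a ∈ piece lam (y a - w) := by
  simp [Vec, Submodule.mem_pi]

theorem smul_mem_Vec {ι : Type} {y : ι → LG n} {w w' α : LG n} {v : ι → S lam} {u : S lam}
    (hu : u ∈ piece lam α) (h : w = w' + α) (hv : v ∈ Vec lam y w) :
    (fun a => u * v a) ∈ Vec lam y w' := by
  rw [mem_Vec] at hv ⊢
  intro a
  exact mem_piece_of_eq (mul_mem_piece lam hu (hv a)) (by rw [h]; abel)

/-- multiplication by a homogeneous element on graded vectors -/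
noncomputable def mulVec {ι : Type} (y : ι → LG n) {u : S lam} {α : LG n}
    (hu : u ∈ piece lam α) (w w' : LG n) (h : w = w' + α) : Vec lam y w →ₗ[k] Vec lam y w' where
  toFun v := ⟨fun a => u * v.1 a, smul_mem_Vec hu h v.2⟩
  map_add' v v' := Subtype.ext (by ext a; simp [mul_add])
  map_smul' r v := Subtype.ext (funext fun a => mul_smul_comm r u (v.1 a))

@[simp] theorem mulVec_apply {ι : Type} (y : ι → LG n) {u : S lam} {α : LG n}
    (hu : u ∈ piece lam α) (w w' : LG n) (h : w = w' + α) (v : Vec lam y w) (a : ι) :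
    (mulVec y hu w w' h v).1 a = u * v.1 a := rfl

/-- the family of graded pieces of a free module -/
noncomputable def famUV {u v : S lam} {α β : LG n} (hK : KosS lam u v α β) {ι : Type}
    (y : ι → LG n) : UV k α β where
  M w := Vec lam y w
  U w w' h := mulVec y hK.hu w w' h
  V w w' h := mulVec y hK.hv w w' h
  comm w w₁ w₂ w₃ h₁ h₂ h₃ h₄ x := Subtype.ext (by
    funext a
    simp only [mulVec_apply]
    ring)

theorem famUV_koszul {u v : S lam} {α β : LG n} (hK : KosS lam u v α β) {ι : Type}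
    (y : ι → LG n) : (famUV hK y).Koszul := by
  intro w' w₁ w₂ w h₁ h₂ h₁' h₂' p q hpq
  have hp := mem_Vec.1 p.2
  have hq := mem_Vec.1 q.2
  have h0 : ∀ a, u * p.1 a + v * q.1 a = 0 := fun a =>
    congrFun (congrArg Subtype.val hpq) a
  have key : ∀ a, ∃ t ∈ piece lam (y a - w), p.1 a = v * t ∧ q.1 a = - (u * t) := fun a => by
    refine hK.kos (y a - w) (p.1 a) (q.1 a) ?_ ?_ (h0 a)
    · exact mem_piece_of_eq (hp a) (by rw [h₁']; abel)
    · exact mem_piece_of_eq (hq a) (by rw [h₂']; abel)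
  choose t ht htp htq using key
  exact ⟨⟨t, mem_Vec.2 ht⟩, Subtype.ext (funext htp), Subtype.ext (funext htq)⟩

theorem famUV_inj {u v : S lam} {α β : LG n} (hK : KosS lam u v α β) {ι : Type}
    (y : ι → LG n) (w w' : LG n) (h) (x : (famUV hK y).M w)
    (hx : (famUV hK y).V w w' h x = 0) : x = 0 := by
  refine Subtype.ext (funext fun a => ?_)
  exact hK.inj_v _ (congrFun (congrArg Subtype.val hx) a)

theorem famUV_bdd {u v : S lam} {α β : LG n} (hK : KosS lam u v α β) {ι : Type} [Fintype ι]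
    (y : ι → LG n) : ∃ N : ℤ, ∀ w, N < dgHom n w → ∀ z : (famUV hK y).M w, z = 0 := by
  refine ⟨∑ a, |(y a).dg|, fun w hw z => Subtype.ext (funext fun a => ?_)⟩
  refine eq_zero_of_dg_neg ?_ (mem_Vec.1 z.2 a)
  rw [LG.dg_sub]
  have h1 : |(y a).dg| ≤ ∑ a, |(y a).dg| :=
    Finset.single_le_sum (f := fun a => |(y a).dg|) (fun i _ => abs_nonneg _) (mem_univ a)
  have h2 := le_abs_self (y a).dg
  simp only [dgHom_apply] at hw
  linarith

/-- A complex of graded free `S`-modules of finite rank, as matrices; only the entries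
`D i (i + 1)` matter. -/
structure MC (lam : Fin n → Fin 2 → k) where
  ι : ℤ → Type
  [fin : ∀ i, Fintype (ι i)]
  y : ∀ i, ι i → LG n
  D : ∀ i j, ι i → ι j → S lam
  mem : ∀ i j a b, D i j a b ∈ piece lam (y j b - y i a)
  comp : ∀ i j l a c, i + 1 = j → j + 1 = l → ∑ b, D i j a b * D j l b c = 0

attribute [instance] MC.fin

namespace MC

variable (X : MC lam)

/-- right multiplication with the differential -/
noncomputable def dif (i j : ℤ) (w : LG n) : Vec lam (X.y i) w →ₗ[k] Vec lam (X.y j) w where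
  toFun v := ⟨fun b => ∑ a, v.1 a * X.D i j a b, mem_Vec.2 fun b =>
    Submodule.sum_mem _ fun a _ =>
      mem_piece_of_eq (mul_mem_piece lam (mem_Vec.1 v.2 a) (X.mem i j a b)) (by abel)⟩
  map_add' v v' := Subtype.ext (by
    funext b
    simp [add_mul, Finset.sum_add_distrib])
  map_smul' r v := Subtype.ext (by
    funext b
    change ∑ a, (r • v.1 a) * X.D i j a b = r • ∑ a, v.1 a * X.D i j a b
    rw [Finset.smul_sum]
    exact Finset.sum_congr rfl fun a _ => smul_mul_assoc _ _ _)

@[simp] theorem dif_apply (i j : ℤ) (w : LG n) (v : Vec lam (X.y i) w) (b : X.ι j) :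
    (X.dif i j w v).1 b = ∑ a, v.1 a * X.D i j a b := rfl

theorem dif_dif (i j l : ℤ) (h : i + 1 = j) (h' : j + 1 = l) (w : LG n)
    (v : Vec lam (X.y i) w) : X.dif j l w (X.dif i j w v) = 0 := by
  refine Subtype.ext (funext fun c => ?_)
  simp only [dif_apply, Finset.sum_mul]
  rw [Finset.sum_comm]
  simp only [mul_assoc]
  simp only [← Finset.mul_sum, X.comp i j l _ c h h', mul_zero, Finset.sum_const_zero]
  rfl

/-- exactness of the graded piece of degree `w` at the place `j` -/
def RowExact (j : ℤ) : Prop := ∀ (i l : ℤ), i + 1 = j → j + 1 = l → ∀ (w : LG n)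
  (v : Vec lam (X.y j) w), X.dif j l w v = 0 → ∃ v' : Vec lam (X.y i) w, X.dif i j w v' = v

/-- the transposed complex -/
def op : MC lam where
  ι i := X.ι (-i)
  y i a := - X.y (-i) a
  D i j a b := X.D (-j) (-i) b a
  mem i j a b := mem_piece_of_eq (X.mem (-j) (-i) b a) (by abel)
  comp i j l a c h h' := by
    simp only [mul_comm (X.D (-j) (-i) _ _)]
    exact X.comp (-l) (-j) (-i) c a (by omega) (by omega)

/-- the morphism of families -/
noncomputable def difHom {u v : S lam} {α β : LG n} (hK : KosS lam u v α β) (i j : ℤ) :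
    UV.Hom (famUV hK (X.y i)) (famUV hK (X.y j)) where
  f w := X.dif i j w
  hU w w' h x := Subtype.ext (by
    funext b
    change ∑ a, (u * x.1 a) * X.D i j a b = u * ∑ a, x.1 a * X.D i j a b
    rw [Finset.mul_sum]
    exact Finset.sum_congr rfl fun a _ => mul_assoc _ _ _)
  hV w w' h x := Subtype.ext (by
    funext b
    change ∑ a, (v * x.1 a) * X.D i j a b = v * ∑ a, x.1 a * X.D i j a b
    rw [Finset.mul_sum]
    exact Finset.sum_congr rfl fun a _ => mul_assoc _ _ _)

/-- D1 for matrix complexes. -/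
theorem exists_contraction {u v : S lam} {α β : LG n} (hK : KosS lam u v α β) (E : ℤ → Prop)
    (hE : ∀ i, E i → X.RowExact (i + 1)) :
    ∃ h : ∀ (i : ℤ) (w : LG n), Vec lam (X.y (i + 1)) w →ₗ[k] Vec lam (X.y i) w,
      (∀ i, E i → E (i + 1) → E (i + 1 + 1) → ∀ w x,
        X.dif i (i + 1) w (h i w x) + h (i + 1) w (X.dif (i + 1) (i + 1 + 1) w x) = x) ∧
      (∀ i w w' e x, h i w' (mulVec _ hK.hu w w' e x) = mulVec _ hK.hu w w' e (h i w x)) ∧
      (∀ i w w' e x, h i w' (mulVec _ hK.hv w w' e x) = mulVec _ hK.hv w w' e (h i w x)) := by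
  obtain ⟨h, h1, h2, h3⟩ := UV.exists_contraction_of E (fun i => famUV hK (X.y i))
    (fun i => X.difHom hK i (i + 1)) (fun i w x => X.dif_dif _ _ _ rfl rfl w x)
    (fun i hi w x hx => hE i hi i (i + 1 + 1) rfl rfl w x hx)
    (fun i => famUV_koszul hK _) (fun i w w' e x hx => famUV_inj hK _ w w' e x hx)
    (dgHom n) hK.pos_u hK.pos_v (fun i => famUV_bdd hK _)
  exact ⟨h, h1, h2, h3⟩

end MC

end Lens
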