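import Mathlib
import Pool.Agent.Lens.SRing
import Pool.Agent.Lens.LB
import Pool.Agent.Lens.D1b

/-!
# `(x_a, x_b)` and `(T_0, T_1)` are regular sequences on `S`
-/

open MvPolynomial Finset
open scoped symmDiff

namespace Lens

universe u

variable {k : Type u} [Field k] {n : ℕ}

section R

attribute [local instance] MvPolynomial.gradedAlgebra

/-- homogeneous quotients -/
theorem exists_homogeneous_quot {e P T : R k} {i j : ℕ} (he : e.IsHomogeneous i)
    (hP : P.IsHomogeneous (i + j)) (h : P = e * T) :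
    ∃ T' : R k, T'.IsHomogeneous j ∧ P = e * T' := by
  refine ⟨homogeneousComponent j T, homogeneousComponent_isHomogeneous _ _, ?_⟩
  have h1 := DirectSum.coe_decompose_mul_add_of_left_mem (homogeneousSubmodule (Fin 2) k)
    (a := e) (b := T) (i := i) (j := j) he
  rw [← h] at h1
  have h2 : (DirectSum.decompose (homogeneousSubmodule (Fin 2) k) P (i + j) : R k) = P :=
    DirectSum.decompose_of_mem_same _ hP
  have h3 : (DirectSum.decompose (homogeneousSubmodule (Fin 2) k) T j : R k) =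
      homogeneousComponent j T := decomposition.decompose'_apply T j
  rw [h2, h3] at h1
  exact h1

end R

/-- `T_0 P + T_1 Q = 0` -/
theorem exists_of_X_mul_add {P Q : R k} (h : X 0 * P + X 1 * Q = 0) :
    ∃ T, P = X 1 * T ∧ Q = - (X 0 * T) := by
  have h1 : (X 1 : R k) ∣ X 0 * P := ⟨-Q, by linear_combination h⟩
  have h2 : (X 1 : R k) ∣ P := by
    rcases X_dvd_mul_iff.1 h1 with h3 | h3
    · rw [X_dvd_X] at h3
      exact absurd h3 (by decide)
    · exact h3
  obtain ⟨T, rfl⟩ := h2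
  refine ⟨T, rfl, ?_⟩
  have h3 : (X 1 : R k) * (Q + X 0 * T) = 0 := by linear_combination h
  rcases mul_eq_zero.1 h3 with h4 | h4
  · exact absurd h4 (X_ne_zero 1)
  · linear_combination h4

variable {lam : Fin n → Fin 2 → k}

theorem form_eq (a : Fin n) : form lam a = C (lam a 0) * X 0 + C (lam a 1) * X 1 := by
  simp [form, Fin.sum_univ_two]

theorem form_ne_zero {a b : Fin n} (h : lam a 0 * lam b 1 ≠ lam b 0 * lam a 1) :
    form lam b ≠ 0 := by
  intro h0
  have h1 := congrArg (coeff (Finsupp.single 0 1)) h0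
  have h2 := congrArg (coeff (Finsupp.single 1 1)) h0
  simp [form_eq, coeff_C_mul, MvPolynomial.coeff_X, Finsupp.single_left_inj] at h1 h2
  exact h (by rw [h1, h2]; simp)

/-- the linear forms `ℓ_a`, `ℓ_b` are coprime -/
theorem exists_of_form_mul_add {a b : Fin n} (hab : lam a 0 * lam b 1 ≠ lam b 0 * lam a 1)
    {P Q : R k} (h : form lam a * P + form lam b * Q = 0) :
    ∃ T, P = form lam b * T ∧ Q = - (form lam a * T) := by
  obtain ⟨d, hd⟩ : ∃ d, d = lam a 0 * lam b 1 - lam b 0 * lam a 1 := ⟨_, rfl⟩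
  have hd0 : d ≠ 0 := by rw [hd]; exact sub_ne_zero.2 hab
  obtain ⟨p, hp⟩ : ∃ p, p = d⁻¹ * lam b 1 := ⟨_, rfl⟩
  obtain ⟨q, hq⟩ : ∃ q, q = d⁻¹ * lam a 1 := ⟨_, rfl⟩
  obtain ⟨r, hr⟩ : ∃ r, r = d⁻¹ * lam b 0 := ⟨_, rfl⟩
  obtain ⟨s, hs⟩ : ∃ s, s = d⁻¹ * lam a 0 := ⟨_, rfl⟩
  have hone : d⁻¹ * (lam a 0 * lam b 1 - lam b 0 * lam a 1) = 1 := by
    rw [← hd]; exact inv_mul_cancel₀ hd0
  have e1 : C (lam a 0) * C p - C (lam a 1) * C r = (1 : R k) := by
    rw [← C_mul, ← C_mul, ← C_sub, ← C_1]; congr 1; rw [hp, hr]; linear_combination hone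
  have e2 : C (lam a 0) * C q = (C (lam a 1) * C s : R k) := by
    rw [← C_mul, ← C_mul]; congr 1; rw [hq, hs]; ring
  have e3 : C (lam b 1) * C s - C (lam b 0) * C q = (1 : R k) := by
    rw [← C_mul, ← C_mul, ← C_sub, ← C_1]; congr 1; rw [hs, hq]; linear_combination hone
  have e4 : C (lam b 0) * C p = (C (lam b 1) * C r : R k) := by
    rw [← C_mul, ← C_mul]; congr 1; rw [hp, hr]; ring
  have e5 : C p * C (lam a 0) - C q * C (lam b 0) = (1 : R k) := by
    rw [← C_mul, ← C_mul, ← C_sub, ← C_1]; congr 1; rw [hp, hq]; linear_combination hone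
  have e6 : C p * C (lam a 1) = (C q * C (lam b 1) : R k) := by
    rw [← C_mul, ← C_mul]; congr 1; rw [hp, hq]; ring
  have e7 : C s * C (lam b 1) - C r * C (lam a 1) = (1 : R k) := by
    rw [← C_mul, ← C_mul, ← C_sub, ← C_1]; congr 1; rw [hs, hr]; linear_combination hone
  have e8 : C s * C (lam b 0) = (C r * C (lam a 0) : R k) := by
    rw [← C_mul, ← C_mul]; congr 1; rw [hs, hr]; ring
  -- the coordinate change `ψ` with `ψ ℓ_a = T_0`, `ψ ℓ_b = T_1`, and its inverse `φ`
  let φ : R k →ₐ[k] R k := aeval fun j => if j = 0 then form lam a else form lam b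
  let ψ : R k →ₐ[k] R k := aeval fun j => if j = 0
    then C p * X 0 - C q * X 1 else - (C r * X 0) + C s * X 1
  have hψ0 : ψ (X 0) = C p * X 0 - C q * X 1 := by simp [ψ]
  have hψ1 : ψ (X 1) = - (C r * X 0) + C s * X 1 := by simp [ψ]
  have hφ0 : φ (X 0) = form lam a := by simp [φ]
  have hφ1 : φ (X 1) = form lam b := by simp [φ]
  have hC : ∀ (χ : R k →ₐ[k] R k) (r : k), χ (C r) = C r := fun χ r => by
    simp [← algebraMap_eq]
  have hψa : ψ (form lam a) = X 0 := by
    rw [form_eq, map_add, map_mul, map_mul, hC, hC, hψ0, hψ1]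
    linear_combination X 0 * e1 - X 1 * e2
  have hψb : ψ (form lam b) = X 1 := by
    rw [form_eq, map_add, map_mul, map_mul, hC, hC, hψ0, hψ1]
    linear_combination X 1 * e3 + X 0 * e4
  have hφψ : ∀ r, φ (ψ r) = r := by
    intro r
    have : (φ.comp ψ) = AlgHom.id k (R k) := by
      apply algHom_ext
      intro j
      fin_cases j
      · change φ (ψ (X 0)) = X 0
        rw [hψ0, map_sub, map_mul, map_mul, hC, hC, hφ0, hφ1, form_eq, form_eq]
        linear_combination X 0 * e5 + X 1 * e6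
      · change φ (ψ (X 1)) = X 1
        rw [hψ1, map_add, map_neg, map_mul, map_mul, hC, hC, hφ0, hφ1, form_eq, form_eq]
        linear_combination X 1 * e7 + X 0 * e8
    exact DFunLike.congr_fun this r
  have h1 : X 0 * ψ P + X 1 * ψ Q = 0 := by
    rw [← hψa, ← hψb, ← map_mul, ← map_mul, ← map_add, h, map_zero]
  obtain ⟨T, hT, hT'⟩ := exists_of_X_mul_add h1
  refine ⟨φ T, ?_, ?_⟩
  · rw [← hφψ P, hT, map_mul, hφ1]
  · rw [← hφψ Q, hT', map_neg, map_mul, hφ0]

/-- homogeneous of integer degree -/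
def HomZ (P : R k) (m : ℤ) : Prop := (m < 0 → P = 0) ∧ ∀ m' : ℕ, m = m' → P.IsHomogeneous m'

theorem mem_piece_iff' (z : LG n) (f : S lam) :
    f ∈ piece lam z ↔ ∃ r : R k, HomZ r z.a ∧ f = xI lam z.I * iota lam r := by
  rcases lt_or_ge z.a 0 with h | h
  · constructor
    · intro hf
      refine ⟨0, ⟨fun _ => rfl, fun m' h' => by omega⟩, ?_⟩
      rw [eq_zero_of_mem_piece lam h hf, map_zero, mul_zero]
    · rintro ⟨r, hr, rfl⟩
      rw [hr.1 h, map_zero, mul_zero]
      exact Submodule.zero_mem _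
  · obtain ⟨m, hm⟩ := Int.eq_ofNat_of_zero_le h
    rw [mem_piece_iff lam z m hm]
    constructor
    · rintro ⟨r, hr, rfl⟩
      refine ⟨r, ⟨fun h' => by omega, fun m' h' => ?_⟩, rfl⟩
      have : m = m' := by omega
      exact this ▸ hr
    · rintro ⟨r, hr, rfl⟩
      exact ⟨r, hr.2 m hm, rfl⟩

theorem HomZ.quot {e P T : R k} {i : ℕ} {m : ℤ} (he : e.IsHomogeneous i) (he0 : e ≠ 0)
    (hP : HomZ P (m + i)) (h : P = e * T) : HomZ T m := by
  have hT0 : P = 0 → T = 0 := fun h0 => by
    rw [h0] at h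
    rcases mul_eq_zero.1 h.symm with h1 | h1
    · exact absurd h1 he0
    · exact h1
  constructor
  · intro hm
    apply hT0
    rcases lt_or_ge (m + i) 0 with h1 | h1
    · exact hP.1 h1
    · obtain ⟨l, hl⟩ := Int.eq_ofNat_of_zero_le h1
      have hl' : l < i := by omega
      -- `P` has degree `l < i` but is a multiple of `e`
      by_contra hne
      have hT : T ≠ 0 := fun hT => hne (by rw [h, hT, mul_zero])
      have h2 := (hP.2 l hl).totalDegree hne
      rw [h, totalDegree_mul_of_isDomain he0 hT, he.totalDegree he0] at h2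
      omega
  · intro m' hm'
    obtain ⟨T', hT', hT''⟩ := exists_homogeneous_quot he (hP.2 (i + m') (by push_cast; omega)) h
    have : T = T' := mul_left_cancel₀ he0 (by rw [← h, ← hT''])
    rw [this]
    exact hT'

theorem HomZ.neg {P : R k} {m : ℤ} (h : HomZ P m) : HomZ (-P) m :=
  ⟨fun hm => by rw [h.1 hm, neg_zero], fun m' hm' => (h.2 m' hm').neg⟩

variable (lam) in
/-- `x_a x_I = x_{a ∆ I} ε` -/
noncomputable def eps (a : Fin n) (I : Finset (Fin n)) : R k := if a ∈ I then form lam a else 1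

theorem xx_mul (a : Fin n) (I : Finset (Fin n)) (r : R k) :
    xx lam a * (xI lam I * iota lam r) = xI lam ({a} ∆ I) * iota lam (eps lam a I * r) := by
  have h1 : xx lam a = xI lam {a} := by simp [xI]
  rw [h1, ← mul_assoc, xI_mul_xI, map_mul, mul_assoc]
  congr 3
  unfold eps
  split_ifs with h
  · rw [Finset.inter_eq_left.2 (by simpa using h), Finset.prod_singleton]
  · rw [Finset.singleton_inter_of_notMem h, Finset.prod_empty]

theorem kosS_xx {a b : Fin n} (hab : a ≠ b) (hlam : lam a 0 * lam b 1 ≠ lam b 0 * lam a 1) :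
    KosS lam (xx lam a) (xx lam b) (LG.x a) (LG.x b) := by
  have hmem : ∀ a : Fin n, xx lam a ∈ piece lam (LG.x a) := fun a => by
    have := xI_mem_piece lam {a}
    simpa [xI, LG.xs, LG.x] using this
  have hb0 : form lam b ≠ 0 := form_ne_zero hlam
  have ha0 : form lam a ≠ 0 := form_ne_zero (a := b) (b := a) (fun h => hlam h.symm)
  refine ⟨hmem a, hmem b, by simp [LG.dg], by simp [LG.dg], ?_, ?_⟩
  · intro s hs
    have h1 : iota lam (form lam b) * s = 0 := by
      rw [← xx_sq, sq, mul_assoc, hs, mul_zero]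
    rw [eq_sum_coef lam s]
    apply Finset.sum_eq_zero
    intro I _
    have h2 := congrArg (coef lam I) h1
    rw [coef_iota_mul, map_zero] at h2
    rcases mul_eq_zero.1 h2 with h3 | h3
    · exact absurd h3 hb0
    · rw [h3, map_zero, mul_zero]
  · intro z p q hp hq hpq
    obtain ⟨P, hP, rfl⟩ := (mem_piece_iff' _ _).1 hp
    obtain ⟨Q, hQ, rfl⟩ := (mem_piece_iff' _ _).1 hq
    simp only [LG.add_I, LG.x_I, LG.add_a, LG.x_a, add_zero] at hP hQ hpq ⊢
    rw [xx_mul, xx_mul] at hpq
    have e1 : eps lam a (z.I ∆ {b}) = eps lam a z.I := by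
      unfold eps
      congr 1
      simp [Finset.mem_symmDiff, hab]
    have e2 : eps lam b (z.I ∆ {a}) = eps lam b z.I := by
      unfold eps
      congr 1
      simp [Finset.mem_symmDiff, hab.symm]
    have e3 : ({b} : Finset (Fin n)) ∆ (z.I ∆ {a}) = {a} ∆ (z.I ∆ {b}) := by
      rw [symmDiff_comm z.I {a}, symmDiff_left_comm, symmDiff_comm z.I {b}]
    rw [e1, e2, e3, ← mul_add, ← map_add] at hpq
    have h0 : eps lam a z.I * P + eps lam b z.I * Q = 0 := by
      apply xI_mul_iota_injective lam ({a} ∆ (z.I ∆ {b}))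
      simpa using hpq
    obtain ⟨T, hT, hT'⟩ : ∃ T, P = eps lam b z.I * T ∧ Q = - (eps lam a z.I * T) := by
      unfold eps at h0 ⊢
      split_ifs at h0 ⊢ with h1 h2 h2
      · exact exists_of_form_mul_add hlam h0
      · exact ⟨-Q, by linear_combination h0, by ring⟩
      · exact ⟨P, by ring, by linear_combination h0⟩
      · exact ⟨P, by ring, by linear_combination h0⟩
    have hTZ : HomZ T z.a := by
      by_cases hbI : b ∈ z.I
      · have h1 : (z.I ∩ {b}).card = 1 := by
          rw [Finset.inter_singleton_of_mem hbI, Finset.card_singleton]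
        rw [h1] at hP
        refine HomZ.quot (i := 1) (form_isHomogeneous lam b) hb0 hP ?_
        rw [hT, eps, if_pos hbI]
      · have h1 : (z.I ∩ {b}).card = 0 := by
          rw [Finset.inter_singleton_of_notMem hbI, Finset.card_empty]
        rw [h1] at hP
        rw [eps, if_neg hbI, one_mul] at hT
        simpa [hT] using hP
    refine ⟨xI lam z.I * iota lam T, (mem_piece_iff' _ _).2 ⟨T, hTZ, rfl⟩, ?_, ?_⟩
    · rw [xx_mul, hT, symmDiff_comm ({b} : Finset (Fin n)) z.I]
    · rw [xx_mul, hT', symmDiff_comm ({a} : Finset (Fin n)) z.I, map_neg]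
      ring

theorem tt_eq (j : Fin 2) : tt lam j = iota lam (X j) := by
  simp [tt, iota]

theorem kosS_tt : KosS lam (tt lam 0) (tt lam 1) LG.c LG.c := by
  have hmem : ∀ j : Fin 2, tt lam j ∈ piece lam LG.c := fun j => by
    have := iota_mem_piece lam (isHomogeneous_X k j)
    rwa [one_smul, ← tt_eq] at this
  refine ⟨hmem 0, hmem 1, by simp [LG.dg], by simp [LG.dg], ?_, ?_⟩
  · intro s hs
    rw [tt_eq] at hs
    rw [eq_sum_coef lam s]
    apply Finset.sum_eq_zero
    intro I _
    have h2 := congrArg (coef lam I) hs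
    rw [coef_iota_mul, map_zero] at h2
    rcases mul_eq_zero.1 h2 with h3 | h3
    · exact absurd h3 (X_ne_zero 1)
    · rw [h3, map_zero, mul_zero]
  · intro z p q hp hq hpq
    obtain ⟨P, hP, rfl⟩ := (mem_piece_iff' _ _).1 hp
    obtain ⟨Q, hQ, rfl⟩ := (mem_piece_iff' _ _).1 hq
    have hI : (z + LG.c).I = z.I := by
      rw [LG.add_I, LG.c_I]; exact symmDiff_bot _
    have ha : (z + LG.c).a = z.a + (1 : ℕ) := by simp
    rw [hI] at hpq ⊢
    rw [ha] at hP hQ
    have h0 : X 0 * P + X 1 * Q = 0 := by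
      apply xI_mul_iota_injective lam z.I
      rw [tt_eq, tt_eq] at hpq
      simp only [map_add, map_mul, map_zero, mul_zero]
      linear_combination hpq
    obtain ⟨T, hT, hT'⟩ := exists_of_X_mul_add h0
    have hTZ : HomZ T z.a := HomZ.quot (isHomogeneous_X k 1) (X_ne_zero 1) hP hT
    refine ⟨xI lam z.I * iota lam T, (mem_piece_iff' _ _).2 ⟨T, hTZ, rfl⟩, ?_, ?_⟩
    · rw [hT, tt_eq, map_mul]; ring
    · rw [hT', tt_eq, map_neg, map_mul]; ring

end Lens
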