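import Mathlib
import Pool.Agent.Lens.SRing
import Pool.Agent.Lens.D1b
import Pool.Agent.Lens.D1c

/-!
# Exact matrix complexes are coexact
-/

open MvPolynomial Finset
open scoped symmDiff

namespace Lens

universe u

variable {k : Type u} [Field k] {n : ℕ} {lam : Fin n → Fin 2 → k}

/-! ### the functional `coefficient of x_[n]` -/

theorem coef_univ_homZ {z : LG n} {s : S lam} (hs : s ∈ piece lam z) (hz : z.I = univ) :
    HomZ (coef lam univ s) z.a := by
  obtain ⟨r, hr, rfl⟩ := (mem_piece_iff' _ _).1 hs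
  rw [coef_xI_mul_iota, if_pos hz]
  exact hr

theorem coef_univ_eq_zero {z : LG n} {s : S lam} (hs : s ∈ piece lam z) (hz : z.I ≠ univ) :
    coef lam univ s = 0 := by
  obtain ⟨r, hr, rfl⟩ := (mem_piece_iff' _ _).1 hs
  rw [coef_xI_mul_iota, if_neg hz]

theorem xI_compl_mul (I : Finset (Fin n)) (r : R k) :
    xI lam Iᶜ * (xI lam I * iota lam r) = xI lam univ * iota lam r := by
  rw [← mul_assoc, xI_mul_xI_of_disjoint lam disjoint_compl_left, union_comm, union_compl]

theorem coef_univ_compl (I : Finset (Fin n)) (r : R k) :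
    coef lam univ (xI lam Iᶜ * (xI lam I * iota lam r)) = r := by
  rw [xI_compl_mul, coef_xI_mul_iota, if_pos rfl]

theorem eq_zero_of_coef_univ {z : LG n} {s : S lam} (hs : s ∈ piece lam z)
    (h : coef lam univ (xI lam z.Iᶜ * s) = 0) : s = 0 := by
  obtain ⟨r, hr, rfl⟩ := (mem_piece_iff' _ _).1 hs
  rw [coef_univ_compl] at h
  rw [h, map_zero, mul_zero]

/-! ### linearity over `R` -/

section

variable {ι κ : Type} {y : ι → LG n} {y' : κ → LG n}

/-- `h` commutes with multiplication by `r` (homogeneous of degree `N`) -/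
def CommR (h : ∀ w, Vec lam y w →ₗ[k] Vec lam y' w) (r : R k) (N : ℕ) : Prop :=
  ∀ (w w' : LG n), w = w' + N • LG.c → ∀ (x : Vec lam y w) (x' : Vec lam y w'),
    (∀ a, x'.1 a = iota lam r * x.1 a) → ∀ a, (h w' x').1 a = iota lam r * (h w x).1 a

variable {h : ∀ w, Vec lam y w →ₗ[k] Vec lam y' w}

theorem CommR.mul {r r' : R k} {N N' : ℕ} (hr : r.IsHomogeneous N) (h1 : CommR h r N)
    (h2 : CommR h r' N') : CommR h (r' * r) (N' + N) := by
  intro w w' e x x' hx a
  let x'' : Vec lam y (w' + N' • LG.c) := mulVec y (iota_mem_piece lam hr) w _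
    (by rw [e, add_smul]; abel) x
  have h3 := h1 w (w' + N' • LG.c) (by rw [e, add_smul]; abel) x x'' (fun a => rfl) a
  have h4 := h2 (w' + N' • LG.c) w' rfl x'' x' (fun a => by
    rw [hx a, map_mul, mul_assoc]; rfl) a
  rw [h4, h3, map_mul, mul_assoc]

theorem CommR.C (c : k) : CommR h (C c) 0 := by
  intro w w' e x x' hx a
  have e' : w = w' := by simpa using e
  subst e'
  have h1 : iota lam (MvPolynomial.C c) = algebraMap k (S lam) c := by
    rw [← MvPolynomial.algebraMap_eq]
    exact (iota lam).commutes c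
  have h2 : x' = c • x := Subtype.ext (funext fun a => by
    rw [hx a, h1, ← Algebra.smul_def]; rfl)
  rw [h2, map_smul, h1, ← Algebra.smul_def]
  rfl

theorem CommR.pow {r : R k} (hr : r.IsHomogeneous 1) (h1 : CommR h r 1) (m : ℕ) :
    CommR h (r ^ m) m := by
  induction m with
  | zero =>
    have := CommR.C (h := h) 1
    rwa [MvPolynomial.C_1, ← pow_zero r] at this
  | succ m ih =>
    rw [pow_succ]
    exact CommR.mul hr h1 ih

theorem CommR.add {r r' : R k} {N : ℕ} (hr : r.IsHomogeneous N) (hr' : r'.IsHomogeneous N)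
    (h1 : CommR h r N) (h2 : CommR h r' N) : CommR h (r + r') N := by
  intro w w' e x x' hx a
  let x₁ : Vec lam y w' := mulVec y (iota_mem_piece lam hr) w _ e x
  let x₂ : Vec lam y w' := mulVec y (iota_mem_piece lam hr') w _ e x
  have h3 : x' = x₁ + x₂ := Subtype.ext (funext fun a => by
    rw [hx a, map_add, add_mul]; rfl)
  rw [h3, map_add, map_add, add_mul, ← h1 w w' e x x₁ (fun a => rfl) a,
    ← h2 w w' e x x₂ (fun a => rfl) a]
  rfl

theorem CommR.zero (N : ℕ) : CommR h 0 N := by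
  intro w w' e x x' hx a
  have h3 : x' = 0 := Subtype.ext (funext fun a => by
    rw [hx a, map_zero, zero_mul]; rfl)
  rw [h3, map_zero, map_zero, zero_mul]
  rfl

theorem CommR.of_homogeneous (hX : ∀ j : Fin 2, CommR h (X j) 1) {r : R k} {N : ℕ}
    (hr : r.IsHomogeneous N) : CommR h r N := by
  classical
  have hmono : ∀ (s : Fin 2 →₀ ℕ) (c : k), CommR h (monomial s c) (s 0 + s 1) := by
    intro s c
    have e : (monomial s c : R k) = MvPolynomial.C c * (X 0 ^ s 0 * X 1 ^ s 1) := by
      rw [MvPolynomial.monomial_eq, Finsupp.prod_fintype _ _ (fun i => pow_zero _),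
        Fin.prod_univ_two]
    rw [e]
    have h1 := CommR.mul ((isHomogeneous_X_pow (R := k) (1 : Fin 2) (s 1)))
      (CommR.pow (isHomogeneous_X k 1) (hX 1) (s 1))
      (CommR.pow (isHomogeneous_X k 0) (hX 0) (s 0))
    have h2 := CommR.mul ((isHomogeneous_X_pow (R := k) (0 : Fin 2) (s 0)).mul
      (isHomogeneous_X_pow (R := k) (1 : Fin 2) (s 1))) h1 (CommR.C c)
    rwa [zero_add] at h2
  have key : ∀ T : Finset (Fin 2 →₀ ℕ), T ⊆ r.support →
      (∑ s ∈ T, monomial s (coeff s r)).IsHomogeneous N ∧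
        CommR h (∑ s ∈ T, monomial s (coeff s r)) N := by
    intro T
    induction T using Finset.induction_on with
    | empty =>
      intro _
      exact ⟨by rw [sum_empty]; exact isHomogeneous_zero _ _ _, by
        rw [sum_empty]; exact CommR.zero N⟩
    | insert s T hs ih =>
      intro hT
      obtain ⟨i1, i2⟩ := ih (fun x hx => hT (mem_insert_of_mem hx))
      have hs' : coeff s r ≠ 0 := mem_support_iff.1 (hT (mem_insert_self s T))
      have hd : s 0 + s 1 = N := by
        have := hr hs'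
        rw [Finsupp.weight_apply, Finsupp.sum_fintype _ _ (by simp), Fin.sum_univ_two] at this
        simpa using this
      have hm : (monomial s (coeff s r) : R k).IsHomogeneous N :=
        isHomogeneous_monomial _ (by
          rw [Finsupp.degree_eq_sum, Fin.sum_univ_two]; exact hd)
      have hc := hmono s (coeff s r)
      rw [hd] at hc
      rw [sum_insert hs]
      exact ⟨hm.add i1, CommR.add hm i1 hc i2⟩
  have := (key r.support (Finset.Subset.refl _)).2
  rwa [← MvPolynomial.as_sum r] at this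

end

/-! ### the unit vectors -/

/-- the vector with one entry -/
noncomputable def single1 {ι : Type} [DecidableEq ι] (y : ι → LG n) (w : LG n) (c : ι) (s : S lam)
    (hs : s ∈ piece lam (y c - w)) : Vec lam y w :=
  ⟨Pi.single c s, mem_Vec.2 fun a => by
    by_cases h : a = c
    · subst h; simpa using hs
    · rw [Pi.single_eq_of_ne h]; exact Submodule.zero_mem _⟩

theorem single1_same {ι : Type} [DecidableEq ι] (y : ι → LG n) (w : LG n) (c : ι) (s : S lam)
    (hs : s ∈ piece lam (y c - w)) : (single1 y w c s hs).1 c = s := Pi.single_eq_same _ _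

theorem single1_ne {ι : Type} [DecidableEq ι] (y : ι → LG n) (w : LG n) (c : ι) (s : S lam)
    (hs : s ∈ piece lam (y c - w)) {a : ι} (h : a ≠ c) : (single1 y w c s hs).1 a = 0 :=
  Pi.single_eq_of_ne h _

theorem sum_single1 {ι : Type} [DecidableEq ι] [Fintype ι] (y : ι → LG n) (w : LG n) (c : ι)
    (s : S lam) (hs : s ∈ piece lam (y c - w)) (f : ι → S lam) :
    ∑ a, (single1 y w c s hs).1 a * f a = s * f c := by
  rw [Finset.sum_eq_single c]
  · rw [single1_same]
  · intro b _ hb
    rw [single1_ne _ _ _ _ _ hb, zero_mul]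
  · intro h; exact absurd (mem_univ c) h

theorem eq_sum_single1 {ι : Type} [DecidableEq ι] [Fintype ι] (y : ι → LG n) (w : LG n)
    (x : Vec lam y w) : x = ∑ c, single1 y w c (x.1 c) (mem_Vec.1 x.2 c) := by
  refine Subtype.ext (funext fun a => ?_)
  rw [AddSubmonoidClass.coe_finsetSum, Finset.sum_apply, Finset.sum_eq_single a]
  · exact (single1_same _ _ _ _ _).symm
  · intro b _ hb
    exact single1_ne _ _ _ _ _ hb.symm
  · intro h; exact absurd (mem_univ a) h

/-- pairing with a homogeneous covector: it lands in `S_(t - w)` -/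
theorem sum_mul_mem {ι : Type} [Fintype ι] {y : ι → LG n} {w t : LG n} (x : Vec lam y w)
    {f : ι → S lam} (hf : ∀ a, f a ∈ piece lam (t - y a)) :
    ∑ a, x.1 a * f a ∈ piece lam (t - w) :=
  Submodule.sum_mem _ fun a _ =>
    mem_piece_of_eq (mul_mem_piece lam (mem_Vec.1 x.2 a) (hf a)) (by abel)

/-- pairing with a covector as a linear map -/
noncomputable def pairL {ι : Type} [Fintype ι] (y : ι → LG n) (w : LG n) (f : ι → S lam) :
    Vec lam y w →ₗ[k] S lam where
  toFun x := ∑ a, x.1 a * f a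
  map_add' x x' := by
    rw [← Finset.sum_add_distrib]
    exact Finset.sum_congr rfl fun a _ => add_mul _ _ _
  map_smul' r x := by
    rw [RingHom.id_apply, Finset.smul_sum]
    exact Finset.sum_congr rfl fun a _ => smul_mul_assoc r (x.1 a) (f a)

/-- DUALITY: an `R`-linear functional which is represented by `h` is represented by an `S`-linear
one. -/
theorem exists_covector {ι κ : Type} [Fintype ι] [Fintype κ] {y : ι → LG n} {y' : κ → LG n}
    (h : ∀ w, Vec lam y' w →ₗ[k] Vec lam y w) (hR : ∀ (r : R k) (N : ℕ), r.IsHomogeneous N →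
      CommR h r N) (t : LG n) (f : ι → S lam) (hf : ∀ a, f a ∈ piece lam (t - y a)) :
    ∃ g : κ → S lam, (∀ c, g c ∈ piece lam (t - y' c)) ∧ ∀ (w : LG n) (x : Vec lam y' w),
      coef lam univ (∑ c, x.1 c * g c) = coef lam univ (∑ a, (h w x).1 a * f a) := by
  classical
  -- the unit vectors in the dual degree
  let I : κ → Finset (Fin n) := fun c => (t - y' c).I
  let w₀ : κ → LG n := fun c => y' c - LG.xs (I c)ᶜ
  have he : ∀ c, xI lam (I c)ᶜ ∈ piece lam (y' c - w₀ c) := fun c =>
    mem_piece_of_eq (xI_mem_piece lam _) (by simp only [w₀]; abel)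
  let e : ∀ c, Vec lam y' (w₀ c) := fun c => single1 y' (w₀ c) c _ (he c)
  let ρ : κ → R k := fun c => coef lam univ (∑ a, (h (w₀ c) (e c)).1 a * f a)
  have hdeg : ∀ c, t - w₀ c = (t - y' c) + LG.xs (I c)ᶜ := fun c => by
    simp only [w₀]; abel
  have hdegI : ∀ c, (t - w₀ c).I = univ := fun c => by
    rw [hdeg, LG.add_I, LG.xs_I]
    exact symmDiff_compl_self (I c)
  have hdega : ∀ c, (t - w₀ c).a = (t - y' c).a := fun c => by
    rw [hdeg, LG.add_a, LG.xs_I, LG.xs_a]
    have : (t - y' c).I ∩ (I c)ᶜ = ∅ := inter_compl _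
    rw [this]; simp
  have hρ : ∀ c, HomZ (ρ c) (t - y' c).a := fun c => by
    rw [← hdega]
    exact coef_univ_homZ (sum_mul_mem _ hf) (hdegI c)
  refine ⟨fun c => xI lam (I c) * iota lam (ρ c), fun c => (mem_piece_iff' _ _).2
    ⟨ρ c, hρ c, rfl⟩, ?_⟩
  intro w x
  obtain ⟨g, hg⟩ : ∃ g : κ → S lam, g = fun c => xI lam (I c) * iota lam (ρ c) := ⟨_, rfl⟩
  have hgc : ∀ c, g c = xI lam (I c) * iota lam (ρ c) := fun c => by rw [hg]
  have hgm : ∀ c, g c ∈ piece lam (t - y' c) := fun c =>
    (mem_piece_iff' _ _).2 ⟨ρ c, hρ c, hgc c⟩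
  change coef lam univ (pairL y' w (fun c => xI lam (I c) * iota lam (ρ c)) x) =
    coef lam univ (pairL y w f (h w x))
  rw [← hg, eq_sum_single1 y' w x]
  simp only [map_sum]
  refine Finset.sum_congr rfl fun c _ => ?_
  obtain ⟨s, hs⟩ : ∃ s, s = x.1 c := ⟨_, rfl⟩
  have hsm : s ∈ piece lam (y' c - w) := by rw [hs]; exact mem_Vec.1 x.2 c
  have e0 : single1 y' w c (x.1 c) (mem_Vec.1 x.2 c) = single1 y' w c s hsm := by
    subst hs; rfl
  rw [e0]
  have e1 : pairL y' w g (single1 y' w c s hsm) = s * g c := sum_single1 _ _ _ _ _ _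
  rw [e1]
  obtain ⟨r, hr, hsr⟩ := (mem_piece_iff' _ _).1 hsm
  by_cases hK : (y' c - w).I = (I c)ᶜ
  · rcases lt_or_ge (y' c - w).a 0 with ha | ha
    · have hs0 : s = 0 := by rw [hsr, hr.1 ha, map_zero, mul_zero]
      have h0 : single1 y' w c s hsm = 0 := Subtype.ext (by
        change (Pi.single c s : κ → S lam) = 0
        rw [hs0, Pi.single_zero])
      rw [h0, hs0, zero_mul, map_zero, map_zero, map_zero, map_zero]
    · obtain ⟨N, hN⟩ := Int.eq_ofNat_of_zero_le ha
      have hw : w₀ c = w + N • LG.c := by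
        have h1 := LG.eq_xs_add (y' c - w)
        rw [hK, hN, natCast_zsmul] at h1
        have h2 : y' c = w + (LG.xs (I c)ᶜ + N • LG.c) := by rw [← h1]; abel
        simp only [w₀]
        rw [h2]; abel
      have h3 := hR r N (hr.2 N hN) (w₀ c) w hw (e c) (single1 y' w c s hsm) (fun a => by
        by_cases hac : a = c
        · subst hac
          rw [single1_same, single1_same, hsr, hK, mul_comm]
        · rw [single1_ne _ _ _ _ _ hac, single1_ne _ _ _ _ _ hac, mul_zero])
      have h4 : pairL y w f (h w (single1 y' w c s hsm)) =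
          iota lam r * ∑ a, (h (w₀ c) (e c)).1 a * f a := by
        rw [Finset.mul_sum]
        exact Finset.sum_congr rfl fun a _ => by rw [h3 a, mul_assoc]
      rw [h4, coef_iota_mul, hsr, hK, hgc]
      have h5 : xI lam (I c)ᶜ * iota lam r * (xI lam (I c) * iota lam (ρ c)) =
          iota lam r * (xI lam (I c)ᶜ * (xI lam (I c) * iota lam (ρ c))) := by ring
      rw [h5, coef_iota_mul, coef_univ_compl]
  · have hI : (t - w).I ≠ univ := by
      intro h0
      apply hK
      have h1 : t - w = (y' c - w) + (t - y' c) := by abel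
      rw [h1, LG.add_I] at h0
      have h2 : IsCompl (y' c - w).I (t - y' c).I := (symmDiff_eq_top _ _).1 h0
      exact h2.eq_compl
    rw [coef_univ_eq_zero (mem_piece_of_eq (mul_mem_piece lam hsm (hgm c)) (by abel)) hI]
    exact (coef_univ_eq_zero (sum_mul_mem _ hf) hI).symm

namespace MC

variable (Z : MC lam)

/-- exactness of `Hom (Z, 𝒪(t))` at the place `j` -/
def ColExact (j : ℤ) : Prop := ∀ (i l : ℤ), i + 1 = j → j + 1 = l → ∀ (t : LG n)
  (f : Z.ι j → S lam), (∀ b, f b ∈ piece lam (t - Z.y j b)) →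
    (∀ a, ∑ b, Z.D i j a b * f b = 0) →
    ∃ g : Z.ι l → S lam, (∀ c, g c ∈ piece lam (t - Z.y l c)) ∧
      ∀ b, ∑ c, Z.D j l b c * g c = f b

theorem colExact_of_rowExact (E : ℤ → Prop) (hE : ∀ i, E i → Z.RowExact (i + 1)) (i : ℤ)
    (h1 : E i) (h2 : E (i + 1)) (h3 : E (i + 1 + 1)) : Z.ColExact (i + 1) := by
  classical
  rintro i' l hi' rfl t f hf hdf
  obtain rfl : i' = i := by omega
  obtain ⟨h, hid, hU, hV⟩ := Z.exists_contraction kosS_tt E hE
  have hX : ∀ (i : ℤ) (j : Fin 2), CommR (fun w => h i w) (X j : R k) 1 := by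
    intro i j w w' e x x' hx a
    have e' : w = w' + LG.c := by rw [e, one_smul]
    fin_cases j
    · have h4 : x' = mulVec _ kosS_tt.hu w w' e' x := Subtype.ext (funext fun a => by
        rw [hx a, iota_X]; rfl)
      rw [h4, hU, iota_X]
      rfl
    · have h4 : x' = mulVec _ kosS_tt.hv w w' e' x := Subtype.ext (funext fun a => by
        rw [hx a, iota_X]; rfl)
      rw [h4, hV, iota_X]
      rfl
  obtain ⟨g, hg, hgc⟩ := exists_covector (fun w => h (i' + 1) w)
    (fun r N hr => CommR.of_homogeneous (hX _) hr) t f hf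
  refine ⟨g, hg, fun b => ?_⟩
  -- the difference is killed by the functional
  have hφ : ∀ b, ∑ c, Z.D (i' + 1) (i' + 1 + 1) b c * g c - f b ∈
      piece lam (t - Z.y (i' + 1) b) := fun b =>
    Submodule.sub_mem _ (Submodule.sum_mem _ fun c _ =>
      mem_piece_of_eq (mul_mem_piece lam (Z.mem _ _ b c) (hg c)) (by abel)) (hf b)
  have key : ∀ (w : LG n) (x : Vec lam (Z.y (i' + 1)) w),
      coef lam univ (∑ b, x.1 b * (∑ c, Z.D (i' + 1) (i' + 1 + 1) b c * g c - f b)) = 0 := by
    intro w x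
    have e1 := hgc w (Z.dif (i' + 1) (i' + 1 + 1) w x)
    have e2 := hid i' h1 h2 h3 w x
    have e3 : h (i' + 1) w (Z.dif (i' + 1) (i' + 1 + 1) w x) =
        x - Z.dif i' (i' + 1) w (h i' w x) := eq_sub_of_add_eq' e2
    have e4 : ∑ b, (Z.dif i' (i' + 1) w (h i' w x)).1 b * f b = 0 := by
      simp only [dif_apply, Finset.sum_mul]
      rw [Finset.sum_comm]
      simp only [mul_assoc]
      simp only [← Finset.mul_sum, hdf, mul_zero, Finset.sum_const_zero]
    have e5 : ∑ b, (h (i' + 1) w (Z.dif (i' + 1) (i' + 1 + 1) w x)).1 b * f b =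
        ∑ b, x.1 b * f b := by
      rw [e3]
      have : ∀ b, (x - Z.dif i' (i' + 1) w (h i' w x)).1 b * f b =
          x.1 b * f b - (Z.dif i' (i' + 1) w (h i' w x)).1 b * f b := fun b => sub_mul _ _ _
      simp only [this, Finset.sum_sub_distrib]
      rw [e4, sub_zero]
    have e6 : ∑ c, (Z.dif (i' + 1) (i' + 1 + 1) w x).1 c * g c =
        ∑ b, x.1 b * ∑ c, Z.D (i' + 1) (i' + 1 + 1) b c * g c := by
      simp only [dif_apply, Finset.sum_mul, Finset.mul_sum]
      rw [Finset.sum_comm]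
      simp only [mul_assoc]
    simp only [mul_sub, Finset.sum_sub_distrib]
    rw [map_sub, ← e6, ← e5, sub_eq_zero]
    exact e1
  have hb := key (Z.y (i' + 1) b - LG.xs (t - Z.y (i' + 1) b).Iᶜ)
    (single1 _ _ b (xI lam (t - Z.y (i' + 1) b).Iᶜ)
      (mem_piece_of_eq (xI_mem_piece lam _) (by abel)))
  rw [sum_single1] at hb
  exact sub_eq_zero.1 (eq_zero_of_coef_univ (hφ b) hb)

/-- exact complexes are coexact -/
theorem colExact (hZ : ∀ j, Z.RowExact j) (j : ℤ) : Z.ColExact j := by
  have := Z.colExact_of_rowExact (fun _ => True) (fun i _ => hZ (i + 1)) (j - 1) trivial trivial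
    trivial
  rwa [sub_add_cancel] at this

theorem op_rowExact (j : ℤ) (hZ : Z.ColExact (-j)) : Z.op.RowExact j := by
  intro i l hi hl w v hv
  obtain ⟨g, hg, hg'⟩ := hZ (-l) (-i) (by omega) (by omega) (-w) v.1 (fun b =>
    mem_piece_of_eq (mem_Vec.1 v.2 b) (by change -(Z.y (-j) b) - w = _; abel)) (fun a => by
      have := congrFun (congrArg Subtype.val hv) a
      change ∑ b, v.1 b * Z.D (-l) (-j) a b = 0 at this
      rw [← this]
      exact Finset.sum_congr rfl fun b _ => mul_comm _ _)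
  refine ⟨⟨g, mem_Vec.2 fun c => mem_piece_of_eq (hg c) (by
    change _ = -(Z.y (-i) c) - w; abel)⟩, Subtype.ext (funext fun b => ?_)⟩
  rw [← hg' b]
  change ∑ c, g c * Z.D (-j) (-i) b c = _
  exact Finset.sum_congr rfl fun c _ => mul_comm _ _

theorem rowExact_of_op_colExact (j : ℤ) (hZ : Z.op.ColExact j) : Z.RowExact (-j) := by
  intro i l hi hl w v hv
  obtain ⟨l0, rfl⟩ : ∃ l0, i = -l0 := ⟨-i, (neg_neg i).symm⟩
  obtain ⟨i0, rfl⟩ : ∃ i0, l = -i0 := ⟨-l, (neg_neg l).symm⟩
  obtain ⟨g, hg, hg'⟩ := hZ i0 l0 (by omega) (by omega) (-w) v.1 (fun b =>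
    mem_piece_of_eq (mem_Vec.1 v.2 b) (by change _ = -w - -Z.y (-j) b; abel)) (fun a => by
      have := congrFun (congrArg Subtype.val hv) a
      change ∑ b, v.1 b * Z.D (-j) (-i0) b a = 0 at this
      rw [← this]
      exact Finset.sum_congr rfl fun b _ => mul_comm _ _)
  refine ⟨⟨g, mem_Vec.2 fun c => mem_piece_of_eq (hg c) (by
    change -w - -Z.y (-l0) c = _; abel)⟩, Subtype.ext (funext fun b => ?_)⟩
  rw [← hg' b]
  change ∑ c, g c * Z.D (-l0) (-j) c b = _
  exact Finset.sum_congr rfl fun c _ => mul_comm _ _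

/-- coexact complexes are exact -/
theorem rowExact (hZ : ∀ j, Z.ColExact j) (j : ℤ) : Z.RowExact j := by
  have h1 : ∀ j, Z.op.RowExact j := fun j => Z.op_rowExact j (hZ _)
  have h2 : ∀ j, Z.op.ColExact j := fun j => Z.op.colExact h1 j
  have h3 := Z.rowExact_of_op_colExact (-j) (h2 _)
  rwa [neg_neg] at h3

end MC

end Lens
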