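import Mathlib
import Pool.Agent.Lens.LB
import Pool.Agent.Lens.MatInst
import Pool.Agent.Lens.DK

/-!
# Vocabulary for the acyclic complexes over the line bundles
-/

open CategoryTheory CategoryTheory.Limits

namespace Lens

universe u

section

variable {V : Type*} [Category V] [Preadditive V]

/-- `Hom (P, Y)` is exact at `Y.X j` -/
def ExactAtFor (P : V) (Y : CochainComplex V ℤ) (j : ℤ) : Prop :=
  ∀ i k : ℤ, i + 1 = j → j + 1 = k → ∀ f : P ⟶ Y.X j, f ≫ Y.d j k = 0 →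
    ∃ g : P ⟶ Y.X i, g ≫ Y.d i j = f

/-- `Hom (X, P)` is exact at `X.X j` -/
def CoexactAtFor (X : CochainComplex V ℤ) (P : V) (j : ℤ) : Prop :=
  ∀ i k : ℤ, i + 1 = j → j + 1 = k → ∀ f : X.X j ⟶ P, X.d i j ≫ f = 0 →
    ∃ g : X.X k ⟶ P, X.d j k ≫ g = f

theorem exactFor_iff (P : V) (Y : CochainComplex V ℤ) :
    ExactFor P Y ↔ ∀ j, ExactAtFor P Y j :=
  ⟨fun h j i k hi hk f hf => h i j k hi hk f hf, fun h i j k hi hk f hf => h j i k hi hk f hf⟩

theorem coexactFor_iff (X : CochainComplex V ℤ) (P : V) :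
    CoexactFor X P ↔ ∀ j, CoexactAtFor X P j :=
  ⟨fun h j i k hi hk f hf => h i j k hi hk f hf, fun h i j k hi hk f hf => h j i k hi hk f hf⟩

end

variable {k : Type u} [Field k] {n : ℕ} {lam : Fin n → Fin 2 → k}

/-- the line bundle `Y` in `Mat_ (LB lam)` -/
noncomputable abbrev emb (Y : LB lam) : Mat_ (LB lam) := (Mat_.embedding _).obj Y

/-- `z ≥ 0` -/
def NN (z : LG n) : Prop := 0 ≤ z.a

/-- `0 ≤ z ≤ (n - 3) c` -/
def InJ (z : LG n) : Prop := 0 ≤ z.a ∧ z.a + z.I.card + 3 ≤ n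

/-- `0 ≤ z`, not `z ≤ (n - 3) c` -/
def InA (z : LG n) : Prop := 0 ≤ z.a ∧ (n : ℤ) ≤ z.a + z.I.card + 2

/-- `Y = P y` with `y ≥ 0` -/
def clP (Y : LB lam) : Prop := NN (-Y.z)
/-- `Y = P y` with `y ∈ J` -/
def clJ (Y : LB lam) : Prop := InJ (-Y.z)
/-- `Y = P y` with `y ∈ A` -/
def clA (Y : LB lam) : Prop := InA (-Y.z)
/-- `Y = P y` with `y` not `≥ 0` -/
def clB (Y : LB lam) : Prop := ¬ NN (-Y.z)

/-- all terms of `X` in degrees `m` with `s m` are sums of objects of the class `c` -/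
def TermsIn (c : LB lam → Prop) (s : ℤ → Prop) (X : CochainComplex (Mat_ (LB lam)) ℤ) : Prop :=
  ∀ m, s m → ∀ i : (X.X m).ι, c ((X.X m).X i)

variable (lam) in
/-- the points are pairwise different -/
def Indep : Prop := ∀ i j, i ≠ j → lam i 0 * lam j 1 ≠ lam j 0 * lam i 1

/-- acyclic complexes -/
def Ac (X : CochainComplex (Mat_ (LB lam)) ℤ) : Prop := ∀ Y : LB lam, ExactFor (emb Y) X

end Lens
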