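import Mathlib
import Pool.Agent.Lens.DVoc
import Pool.Agent.Lens.D1d

/-!
# Acyclic complexes of line bundles are coacyclic (block D1)
-/

open CategoryTheory CategoryTheory.Limits

namespace Lens

universe u

variable {k : Type u} [Field k] {n : ℕ} {lam : Fin n → Fin 2 → k}

theorem mat_comp_val {M N K : Mat_ (LB lam)} (f : M ⟶ N) (g : N ⟶ K) (a : M.ι) (c : K.ι) :
    LB.Hom.f ((f ≫ g) a c) = ∑ b, LB.Hom.f (f a b) * LB.Hom.f (g b c) := by
  rw [Mat_.comp_apply, LB.sum_f]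
  rfl

theorem mat_zero_val {M N : Mat_ (LB lam)} (a : M.ι) (b : N.ι) :
    LB.Hom.f ((0 : M ⟶ N) a b) = 0 := rfl

/-- morphisms of `Mat_` from a matrix -/
def matMk {M N : Mat_ (LB lam)} (f : M.ι → N.ι → S lam)
    (hf : ∀ a b, f a b ∈ piece lam ((N.X b).z - (M.X a).z)) : M ⟶ N :=
  fun a b => LB.homMk (f a b) (hf a b)

theorem mat_ext_val {M N : Mat_ (LB lam)} {f g : M ⟶ N}
    (h : ∀ a b, LB.Hom.f (f a b) = LB.Hom.f (g a b)) : f = g := by
  funext a b
  exact LB.hom_ext (h a b)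

/-- the matrix complex of a complex over `Mat_ (LB lam)` -/
def ofCpx (X : CochainComplex (Mat_ (LB lam)) ℤ) : MC lam where
  ι i := (X.X i).ι
  y i a := ((X.X i).X a).z
  D i j a b := LB.Hom.f (X.d i j a b)
  mem i j a b := LB.Hom.mem (X.d i j a b)
  comp i j l a c _ _ := by
    rw [← mat_comp_val, X.d_comp_d]
    rfl

variable {X : CochainComplex (Mat_ (LB lam)) ℤ}

theorem rowExact_of {j : ℤ} (h : ∀ Y, ExactAtFor (emb Y) X j) : (ofCpx X).RowExact j := by
  intro i l hi hl w v hv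
  let f : emb (⟨w⟩ : LB lam) ⟶ X.X j := matMk (fun _ b => v.1 b) (fun _ b => mem_Vec.1 v.2 b)
  have hf : f ≫ X.d j l = 0 := by
    apply mat_ext_val
    intro a c
    rw [mat_comp_val]
    exact congrFun (congrArg Subtype.val hv) c
  obtain ⟨g, hg⟩ := h ⟨w⟩ i l hi hl f hf
  refine ⟨⟨fun a => LB.Hom.f (g () a), mem_Vec.2 fun a => LB.Hom.mem (g () a)⟩,
    Subtype.ext (funext fun b => ?_)⟩
  have := congrArg (fun φ : emb (⟨w⟩ : LB lam) ⟶ X.X j => LB.Hom.f (φ () b)) hg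
  simp only [mat_comp_val] at this
  exact this

theorem exactAtFor_of {j : ℤ} (h : (ofCpx X).RowExact j) (Y : LB lam) :
    ExactAtFor (emb Y) X j := by
  intro i l hi hl f hf
  obtain ⟨v', hv'⟩ := h i l hi hl Y.z
    ⟨fun b => LB.Hom.f (f () b), mem_Vec.2 fun b => LB.Hom.mem (f () b)⟩
    (Subtype.ext (funext fun c => by
      have := congrArg (fun φ : emb Y ⟶ X.X l => LB.Hom.f (φ () c)) hf
      simp only [mat_comp_val] at this
      exact this))
  refine ⟨matMk (fun _ a => v'.1 a) (fun _ a => mem_Vec.1 v'.2 a), mat_ext_val fun a b => ?_⟩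
  rw [mat_comp_val]
  exact congrFun (congrArg Subtype.val hv') b

theorem colExact_of {j : ℤ} (h : ∀ Y, CoexactAtFor X (emb Y) j) : (ofCpx X).ColExact j := by
  intro i l hi hl t f hf hdf
  let φ : X.X j ⟶ emb (⟨t⟩ : LB lam) := matMk (fun b _ => f b) (fun b _ => hf b)
  have hφ : X.d i j ≫ φ = 0 := by
    apply mat_ext_val
    intro a c
    rw [mat_comp_val]
    exact hdf a
  obtain ⟨g, hg⟩ := h ⟨t⟩ i l hi hl φ hφ
  refine ⟨fun c => LB.Hom.f (g c ()), fun c => LB.Hom.mem (g c ()), fun b => ?_⟩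
  have := congrArg (fun φ : X.X j ⟶ emb (⟨t⟩ : LB lam) => LB.Hom.f (φ b ())) hg
  simp only [mat_comp_val] at this
  exact this

theorem coexactAtFor_of {j : ℤ} (h : (ofCpx X).ColExact j) (Y : LB lam) :
    CoexactAtFor X (emb Y) j := by
  intro i l hi hl f hf
  obtain ⟨g, hg, hg'⟩ := h i l hi hl Y.z (fun b => LB.Hom.f (f b ()))
    (fun b => LB.Hom.mem (f b ())) (fun a => by
      have := congrArg (fun φ : X.X i ⟶ emb Y => LB.Hom.f (φ a ())) hf
      simp only [mat_comp_val] at this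
      exact this)
  refine ⟨matMk (fun c _ => g c) (fun c _ => hg c), mat_ext_val fun a b => ?_⟩
  rw [mat_comp_val]
  exact hg' a

/-- D1: exact implies coexact. -/
theorem Ac.coexact (_hl : Indep lam) (_hn : 2 ≤ n) {X : CochainComplex (Mat_ (LB lam)) ℤ}
    (hX : Ac X) (Y : LB lam) : CoexactFor X (emb Y) :=
  (coexactFor_iff _ _).2 fun j => coexactAtFor_of
    ((ofCpx X).colExact (fun j => rowExact_of fun Y => (exactFor_iff _ _).1 (hX Y) j) j) Y

/-- D1: coexact implies exact. -/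
theorem ac_of_coexact (_hl : Indep lam) (_hn : 2 ≤ n) {X : CochainComplex (Mat_ (LB lam)) ℤ}
    (hX : ∀ Y : LB lam, CoexactFor X (emb Y)) : Ac X := fun Y =>
  (exactFor_iff _ _).2 fun j => exactAtFor_of
    ((ofCpx X).rowExact (fun j => colExact_of fun Y => (coexactFor_iff _ _).1 (hX Y) j) j) Y

/-- D1: exact in degrees `≤ m` implies coexact in degrees `≤ m - 2`. -/
theorem coexactAt_of_exactAt (_hl : Indep lam) (_hn : 2 ≤ n)
    (X : CochainComplex (Mat_ (LB lam)) ℤ) (m : ℤ)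
    (hX : ∀ (Y : LB lam) (j : ℤ), j ≤ m → ExactAtFor (emb Y) X j) (Y : LB lam) (j : ℤ)
    (hj : j + 2 ≤ m) : CoexactAtFor X (emb Y) j := by
  have h1 := (ofCpx X).colExact_of_rowExact (fun i => i + 1 ≤ m)
    (fun i hi => rowExact_of fun Y => hX Y (i + 1) hi) (j - 1) (by omega) (by omega) (by omega)
  rw [sub_add_cancel] at h1
  exact coexactAtFor_of h1 Y

end Lens
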