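import Mathlib

/-!
# LENS, block Dc: finitely many homogeneous generators of homogeneous relations
-/

set_option autoImplicit false

open CategoryTheory CategoryTheory.Limits MvPolynomial

namespace Lens

section gen

variable {k S L : Type*} [CommRing k] [CommRing S] [Algebra k S] [IsNoetherianRing S]
  [AddCommGroup L] [DecidableEq L] (𝒮 : L → Submodule k S) [GradedAlgebra 𝒮]

/-- The homogeneous elements `u` (with `u i` of degree `a i - z` for some `z`) of a submodule of a
finite free module over a noetherian graded ring are generated by finitely many of them. -/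
theorem hom_gen {I : Type*} [Fintype I] (a : I → L) (N : Submodule S (I → S)) :
    ∃ (n : ℕ) (d : Fin n → L) (g : Fin n → I → S), (∀ m i, g m i ∈ 𝒮 (a i - d m)) ∧
      (∀ m, g m ∈ N) ∧
      ∀ (z : L) (u : I → S), (∀ i, u i ∈ 𝒮 (a i - z)) → u ∈ N →
        ∃ v : Fin n → S, (∀ m, v m ∈ 𝒮 (d m - z)) ∧ ∀ i, u i = ∑ m, v m * g m i := by
  classical
  let K : Set (I → S) := {u | (∃ z, ∀ i, u i ∈ 𝒮 (a i - z)) ∧ u ∈ N}
  obtain ⟨T, hTK, hT⟩ := (Submodule.fg_span_iff_fg_span_finset_subset K).1
    (IsNoetherian.noetherian (Submodule.span S K))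
  let e := T.equivFin
  let g : Fin T.card → I → S := fun m => (e.symm m : T).1
  have hgK : ∀ m, g m ∈ K := fun m => hTK (e.symm m).2
  choose d hd using fun m => (hgK m).1
  refine ⟨T.card, d, g, hd, fun m => (hgK m).2, fun z u hu hf => ?_⟩
  have hmem : u ∈ Submodule.span S (Set.range g) := by
    have h1 : (T : Set (I → S)) ⊆ Set.range g := by
      intro w hw
      exact ⟨e ⟨w, hw⟩, by simp [g]⟩
    refine Submodule.span_mono h1 ?_
    rw [← hT]
    exact Submodule.subset_span ⟨⟨z, hu⟩, hf⟩
  obtain ⟨c, hc⟩ := (Submodule.mem_span_range_iff_exists_fun S).1 hmem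
  refine ⟨fun m => (DirectSum.decompose 𝒮 (c m) (d m - z) : S), fun m => SetLike.coe_mem _,
    fun i => ?_⟩
  have h2 : u i = ∑ m, c m * g m i := by
    rw [← hc, Finset.sum_apply]
    rfl
  have h3 : u i = (DirectSum.decompose 𝒮 (u i) (a i - z) : S) :=
    (DirectSum.decompose_of_mem_same 𝒮 (hu i)).symm
  rw [h3, h2, DirectSum.decompose_sum, DFinsupp.finsetSum_apply, AddSubmonoidClass.coe_finsetSum]
  refine Finset.sum_congr rfl fun m _ => ?_
  have h4 : a i - z = (d m - z) + (a i - d m) := by abel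
  rw [h4]
  exact DirectSum.coe_decompose_mul_add_of_right_mem 𝒮 (hd m i)

end gen

section quot

/-- Homogeneous solutions of a finite system of linear equations over the quotient of a weighted
polynomial ring by an ideal are generated by finitely many nonzero ones (the pieces of the quotient
are the images of the pieces of the polynomial ring). -/
theorem relations_fg {k : Type*} [Field k] {σ L : Type*} [Finite σ] [AddCommGroup L] (wt : σ → L)
    (𝔞 : Ideal (MvPolynomial σ k)) {I J : Type*} [Fintype I] (a : I → L)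
    (f : I → J → MvPolynomial σ k ⧸ 𝔞) :
    ∃ (n : ℕ) (d : Fin n → L) (g : Fin n → I → MvPolynomial σ k ⧸ 𝔞),
      (∀ m i, g m i ∈ (weightedHomogeneousSubmodule k wt (a i - d m)).map
        (Ideal.Quotient.mkₐ k 𝔞).toLinearMap) ∧
      (∀ m j, ∑ i, g m i * f i j = 0) ∧ (∀ m, ∃ i, g m i ≠ 0) ∧
      ∀ (z : L) (u : I → MvPolynomial σ k ⧸ 𝔞),
        (∀ i, u i ∈ (weightedHomogeneousSubmodule k wt (a i - z)).map
          (Ideal.Quotient.mkₐ k 𝔞).toLinearMap) → (∀ j, ∑ i, u i * f i j = 0) →
        ∃ v : Fin n → MvPolynomial σ k ⧸ 𝔞,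
          (∀ m, v m ∈ (weightedHomogeneousSubmodule k wt (d m - z)).map
            (Ideal.Quotient.mkₐ k 𝔞).toLinearMap) ∧ ∀ i, u i = ∑ m, v m * g m i := by
  classical
  let _ : GradedAlgebra (weightedHomogeneousSubmodule k wt) := weightedGradedAlgebra k wt
  let q : MvPolynomial σ k →+* (MvPolynomial σ k ⧸ 𝔞) := Ideal.Quotient.mk 𝔞
  have hq : Function.Surjective q := Ideal.Quotient.mk_surjective
  -- the submodule upstairs
  let N : Submodule (MvPolynomial σ k) (I → MvPolynomial σ k) :=
    { carrier := {u | ∀ j, ∑ i, q (u i) * f i j = 0}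
      zero_mem' := fun j => by simp
      add_mem' := fun {u v} hu hv j => by
        simp only [Pi.add_apply, map_add, add_mul, Finset.sum_add_distrib]
        rw [hu j, hv j, add_zero]
      smul_mem' := fun c u hu j => by
        simp only [Pi.smul_apply, smul_eq_mul, map_mul, mul_assoc, ← Finset.mul_sum]
        rw [hu j, mul_zero] }
  obtain ⟨n, d, g, hg1, hg2, hg3⟩ := hom_gen (weightedHomogeneousSubmodule k wt) a N
  -- keep the nonzero ones
  let M := {m : Fin n // ∃ i, q (g m i) ≠ 0}
  let e := Fintype.equivFin M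
  refine ⟨Fintype.card M, fun m => d (e.symm m).1, fun m i => q (g (e.symm m).1 i),
    fun m i => ⟨g (e.symm m).1 i, hg1 _ _, rfl⟩, fun m j => hg2 (e.symm m).1 j,
    fun m => (e.symm m).2, fun z u hu hf => ?_⟩
  choose w hw1 hw2 using hu
  have hw2' : ∀ i, q (w i) = u i := hw2
  obtain ⟨v, hv1, hv2⟩ := hg3 z w hw1 (fun j => by simp only [hw2']; exact hf j)
  refine ⟨fun m => q (v (e.symm m).1), fun m => ⟨v (e.symm m).1, hv1 _, rfl⟩, fun i => ?_⟩
  rw [← hw2', hv2 i, map_sum]
  have h1 : ∑ m : Fin n, q (v m * g m i) = ∑ m ∈ Finset.univ.filter (fun m => ∃ i, q (g m i) ≠ 0),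
      q (v m * g m i) := by
    symm
    refine Finset.sum_subset (Finset.subset_univ _) fun m _ hm => ?_
    have : ∀ i, q (g m i) = 0 := by
      intro i
      by_contra h
      exact hm (Finset.mem_filter.2 ⟨Finset.mem_univ _, i, h⟩)
    rw [map_mul, this i, mul_zero]
  rw [h1, ← Finset.sum_subtype_eq_sum_filter, Finset.subtype_univ]
  rw [← Equiv.sum_comp e.symm (fun m : M => q (v m * g m i))]
  exact Finset.sum_congr rfl fun m _ => map_mul q _ _

end quot

end Lens
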