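import Pool.Agent.Lens.LB
import Pool.Agent.Lens.HomGen

/-!
# LENS, block Dc: weak kernels and weak cokernels in `Mat_ (LB lam)`
-/

set_option autoImplicit false

open CategoryTheory CategoryTheory.Limits MvPolynomial

namespace Lens

namespace LB

universe u

variable {k : Type u} [Field k] {n : ℕ} {lam : Fin n → Fin 2 → k}

theorem mat_comp_f {F G H : Mat_ (LB lam)} (f : F ⟶ G) (g : G ⟶ H) (i : F.ι) (j : H.ι) :
    Hom.f ((f ≫ g) i j) = ∑ l, Hom.f (f i l) * Hom.f (g l j) := by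
  have h : (f ≫ g) i j = ∑ l, f i l ≫ g l j := rfl
  rw [h, sum_f]
  exact Finset.sum_congr rfl fun l _ => comp_f _ _

theorem mat_ext_f {F G : Mat_ (LB lam)} {f g : F ⟶ G}
    (h : ∀ i j, Hom.f (f i j) = Hom.f (g i j)) : f = g := by
  refine DMatrix.ext fun i j => ?_
  exact hom_ext (h i j)

theorem mat_zero_f {F G : Mat_ (LB lam)} (i : F.ι) (j : G.ι) :
    Hom.f ((0 : F ⟶ G) i j) = 0 := rfl

/-- Weak kernels: every morphism of `Mat_ (LB lam)` has a weak kernel; every summand of it has a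
nonzero morphism to a summand of the source. -/
theorem exists_weakKernel {F G : Mat_ (LB lam)} (f : F ⟶ G) :
    ∃ (F' : Mat_ (LB lam)) (g : F' ⟶ F), g ≫ f = 0 ∧
      (∀ (H : Mat_ (LB lam)) (u : H ⟶ F), u ≫ f = 0 → ∃ v : H ⟶ F', v ≫ g = u) ∧
      ∀ m : F'.ι, ∃ i : F.ι, ∃ h : F'.X m ⟶ F.X i, h ≠ 0 := by
  classical
  obtain ⟨N, d, g, hg1, hg2, hg3, hg4⟩ := relations_fg (wt n) (relIdeal lam)
    (fun i : F.ι => (F.X i).z) (fun i (j : G.ι) => Hom.f (f i j))
  let F' : Mat_ (LB lam) := ⟨Fin N, fun m => ⟨d m⟩⟩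
  let g' : F' ⟶ F := fun m i => homMk (g m i) (hg1 m i)
  refine ⟨F', g', ?_, fun H u hu => ?_, fun m => ?_⟩
  · refine mat_ext_f fun m j => ?_
    rw [mat_comp_f, mat_zero_f]
    exact hg2 m j
  · have h1 : ∀ h : H.ι, ∃ v : Fin N → S lam, (∀ m, v m ∈ piece lam (d m - (H.X h).z)) ∧
        ∀ i, Hom.f (u h i) = ∑ m, v m * g m i := by
      intro h
      refine hg4 (H.X h).z (fun i => Hom.f (u h i)) (fun i => Hom.mem (u h i)) fun j => ?_
      rw [← mat_comp_f, hu, mat_zero_f]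
    choose v hv1 hv2 using h1
    let v' : H ⟶ F' := fun h m => homMk (v h m) (hv1 h m)
    refine ⟨v', mat_ext_f fun h i => (mat_comp_f v' g' h i).trans ?_⟩
    rw [hv2]
    rfl
  · obtain ⟨i, hi⟩ := hg3 m
    exact ⟨i, g' m i, fun h => hi (congrArg Hom.f h)⟩

/-- Weak cokernels: every morphism of `Mat_ (LB lam)` has a weak cokernel; every summand of it has a
nonzero morphism from a summand of the target. -/
theorem exists_weakCokernel {F G : Mat_ (LB lam)} (f : F ⟶ G) :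
    ∃ (G' : Mat_ (LB lam)) (g : G ⟶ G'), f ≫ g = 0 ∧
      (∀ (H : Mat_ (LB lam)) (u : G ⟶ H), f ≫ u = 0 → ∃ v : G' ⟶ H, g ≫ v = u) ∧
      ∀ m : G'.ι, ∃ i : G.ι, ∃ h : G.X i ⟶ G'.X m, h ≠ 0 := by
  classical
  obtain ⟨N, d, g, hg1, hg2, hg3, hg4⟩ := relations_fg (wt n) (relIdeal lam)
    (fun i : G.ι => -(G.X i).z) (fun i (j : F.ι) => Hom.f (f j i))
  let G' : Mat_ (LB lam) := ⟨Fin N, fun m => ⟨-d m⟩⟩
  have hg1' : ∀ m i, g m i ∈ piece lam ((G'.X m).z - (G.X i).z) := fun m i => by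
    have h := hg1 m i
    have e : -(G.X i).z - d m = (G'.X m).z - (G.X i).z := by
      change _ = -d m - _
      abel
    rwa [e] at h
  let g' : G ⟶ G' := fun i m => homMk (g m i) (hg1' m i)
  refine ⟨G', g', ?_, fun H u hu => ?_, fun m => ?_⟩
  · refine mat_ext_f fun j m => ?_
    rw [mat_comp_f, mat_zero_f, ← hg2 m j]
    exact Finset.sum_congr rfl fun i _ => mul_comm _ _
  · have h1 : ∀ h : H.ι, ∃ v : Fin N → S lam, (∀ m, v m ∈ piece lam (d m - -(H.X h).z)) ∧
        ∀ i, Hom.f (u i h) = ∑ m, v m * g m i := by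
      intro h
      refine hg4 (-(H.X h).z) (fun i => Hom.f (u i h)) (fun i => ?_) fun j => ?_
      · have h2 := Hom.mem (u i h)
        have e : (H.X h).z - (G.X i).z = -(G.X i).z - -(H.X h).z := by abel
        rwa [e] at h2
      · have h3 : ∑ i, Hom.f (f j i) * Hom.f (u i h) = 0 := by
          rw [← mat_comp_f, hu, mat_zero_f]
        rw [← h3]
        exact Finset.sum_congr rfl fun i _ => mul_comm _ _
    choose v hv1 hv2 using h1
    have hv1' : ∀ h m, v h m ∈ piece lam ((H.X h).z - (G'.X m).z) := fun h m => by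
      have h2 := hv1 h m
      have e : d m - -(H.X h).z = (H.X h).z - (G'.X m).z := by
        change _ = _ - -d m
        abel
      rwa [e] at h2
    let v' : G' ⟶ H := fun m h => homMk (v h m) (hv1' h m)
    refine ⟨v', mat_ext_f fun i h => (mat_comp_f g' v' i h).trans ?_⟩
    rw [hv2]
    exact Finset.sum_congr rfl fun m _ => mul_comm _ _
  · obtain ⟨i, hi⟩ := hg3 m
    exact ⟨i, g' i m, fun h => hi (congrArg Hom.f h)⟩

end LB

end Lens
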