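import Pool.Agent.Lens.DSplice
import Pool.Agent.Lens.DcL
import Pool.Agent.Lens.D1

/-!
# Complete resolutions
-/

set_option autoImplicit false

open CategoryTheory CategoryTheory.Limits

namespace Lens

universe u

variable {k : Type u} [Field k] {n : ℕ} {lam : Fin n → Fin 2 → k}

/-- A complex over the line bundles which is exact in degrees `≤ m` agrees in degrees `< m` with an
acyclic complex. -/
theorem exists_CR (hl : Indep lam) (hn : 2 ≤ n) (W : CochainComplex (Mat_ (LB lam)) ℤ) (m : ℤ)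
    (hex : ∀ (Y : LB lam) (j : ℤ), j ≤ m → ExactAtFor (emb Y) W j) :
    ∃ (X : CochainComplex (Mat_ (LB lam)) ℤ) (f : X ⟶ W), Ac X ∧
      ∀ j < m, IsIso (f.f j) := by
  obtain ⟨X, f, h1, -, -, h2⟩ := exists_glueRight (V := Mat_ (LB lam)) (fun _ _ => True)
    (fun _ _ => True) (fun _ F G g _ => by
      obtain ⟨G', g', h1, h2, -⟩ := LB.exists_weakCokernel g
      exact ⟨G', g', ⟨h1, h2⟩, trivial, trivial⟩) W (m - 1) trivial
  refine ⟨X, f, ac_of_coexact hl hn fun Y => (coexactFor_iff _ _).2 fun j => ?_,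
    fun j hj => h1 j (by lia)⟩
  rcases lt_or_ge j (m - 1) with hj | hj
  · exact coexactAt_of_isIso f _ j (h1 j (by lia)) (h1 (j - 1) (by lia))
      (coexactAt_of_exactAt hl hn W m hex Y j (by lia))
  · exact h2 _ j hj

end Lens
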