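import Mathlib
import Pool.Agent.Lens.LB
import Pool.Agent.Lens.DK
import Pool.Agent.Lens.DVoc

/-!
# LENS, block D: bounded above complexes over `P y`, `y ≥ 0`, which are exact on `A` are coexact

Let `W` be bounded above, with terms which are sums of `P x`, `x ≥ 0`, and exact at all `z ∈ A`.
For `y ≥ 0` the complex `Hom (W, P y)` is, by the trace pairing, the degree zero part of
`Hom_R (N, R)` with `N = ⊕_m Hom (P (y + x_[n] + m c), W)`, a complex of graded free modules over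
`R = k[T₀, T₁]` which is exact in degrees `≥ -2`. The generators of negative degree form a
subcomplex which is exact in all degrees `≥ -2` by the Koszul sequence of `T₀, T₁`, so the quotient
is exact, hence contractible.
-/

open CategoryTheory CategoryTheory.Limits MvPolynomial
open scoped symmDiff

namespace Lens

universe u

namespace DCoex

variable {k : Type u} [Field k]

/-! ### graded pieces of `R`, degrees in `ℤ` -/

/-- `r` is homogeneous of degree `a ∈ ℤ` -/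
def HD (a : ℤ) (r : R k) : Prop := IsWeightedHomogeneous (fun _ : Fin 2 => (1 : ℤ)) r a

theorem weight_one (d : Fin 2 →₀ ℕ) :
    Finsupp.weight (fun _ : Fin 2 => (1 : ℤ)) d = ((d.degree : ℕ) : ℤ) := by
  rw [Finsupp.weight_apply, Finsupp.sum_fintype _ _ (by simp), Finsupp.degree_eq_sum]
  push_cast
  exact Finset.sum_congr rfl fun i _ => by simp

theorem hd_iff {a : ℤ} {r : R k} : HD a r ↔ ∀ d, coeff d r ≠ 0 → ((d.degree : ℕ) : ℤ) = a := by
  constructor
  · intro h d hd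
    rw [← weight_one]
    exact h hd
  · intro h d hd
    rw [weight_one]
    exact h d hd

theorem hd_nat {m : ℕ} {r : R k} : HD (m : ℤ) r ↔ r.IsHomogeneous m := by
  rw [hd_iff]
  constructor
  · intro h d hd
    have := h d hd
    change Finsupp.weight (fun _ => 1) d = m
    rw [← Finsupp.degree_eq_weight_one]
    exact_mod_cast this
  · intro h d hd
    have : Finsupp.weight (fun _ => 1) d = m := h hd
    rw [← Finsupp.degree_eq_weight_one] at this
    exact_mod_cast this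

theorem hd_neg {a : ℤ} (ha : a < 0) {r : R k} (h : HD a r) : r = 0 := by
  ext d
  by_contra hd
  have := hd_iff.1 h d hd
  omega

theorem hd_zero (a : ℤ) : HD a (0 : R k) := isWeightedHomogeneous_zero k _ a

theorem hd_one : HD 0 (1 : R k) := isWeightedHomogeneous_one k _

theorem HD.add {a : ℤ} {r s : R k} (hr : HD a r) (hs : HD a s) : HD a (r + s) :=
  Submodule.add_mem (weightedHomogeneousSubmodule k (fun _ : Fin 2 => (1 : ℤ)) a) hr hs

theorem HD.neg {a : ℤ} {r : R k} (hr : HD a r) : HD a (-r) :=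
  Submodule.neg_mem (weightedHomogeneousSubmodule k (fun _ : Fin 2 => (1 : ℤ)) a) hr

theorem HD.sub {a : ℤ} {r s : R k} (hr : HD a r) (hs : HD a s) : HD a (r - s) :=
  Submodule.sub_mem (weightedHomogeneousSubmodule k (fun _ : Fin 2 => (1 : ℤ)) a) hr hs

theorem HD.mul {a b : ℤ} {r s : R k} (hr : HD a r) (hs : HD b s) : HD (a + b) (r * s) :=
  IsWeightedHomogeneous.mul hr hs

theorem hd_nsmul {a : ℤ} {r : R k} (hr : HD a r) (m : ℕ) : HD a (m • r) :=
  nsmul_mem (show r ∈ weightedHomogeneousSubmodule k (fun _ : Fin 2 => (1 : ℤ)) a from hr) m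

theorem hd_zsmul {a : ℤ} {r : R k} (hr : HD a r) (m : ℤ) : HD a (m • r) :=
  zsmul_mem (show r ∈ weightedHomogeneousSubmodule k (fun _ : Fin 2 => (1 : ℤ)) a from hr) m

theorem hd_div {a : ℤ} {r : R k} (hr : HD a r) (i : Fin 2) :
    HD (a - 1) (divMonomial r (Finsupp.single i 1)) := by
  rw [hd_iff] at hr ⊢
  intro d hd
  rw [coeff_divMonomial] at hd
  have := hr _ hd
  rw [map_add, Finsupp.degree_single] at this
  push_cast at this
  omega

theorem hd_of_X_mul {a : ℤ} {r : R k} (i : Fin 2) (hr : HD a (X i * r)) : HD (a - 1) r := by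
  have := hd_div hr i
  rwa [X_mul_divMonomial] at this

theorem hd_X (i : Fin 2) : HD 1 (X i : R k) := isWeightedHomogeneous_X k _ i

/-- Koszul: `T₀, T₁` is a regular sequence -/
theorem koszul_R {a : ℤ} {r₀ r₁ : R k} (h₀ : HD a r₀) (h : X 0 * r₀ + X 1 * r₁ = 0) :
    ∃ s : R k, HD (a - 1) s ∧ r₀ = X 1 * s ∧ r₁ = -(X 0 * s) := by
  have h1 : (X 1 : R k) ∣ X 0 * r₀ := ⟨-r₁, by rw [mul_neg]; exact eq_neg_of_add_eq_zero_left h⟩
  obtain h2 | ⟨s, rfl⟩ := X_prime.dvd_or_dvd h1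
  · rw [X_dvd_X] at h2
    exact absurd h2 (by decide)
  · refine ⟨s, hd_of_X_mul 1 h₀, rfl, ?_⟩
    have h3 : (X 1 : R k) * (r₁ + X 0 * s) = 0 := by
      rw [← h]; ring
    have h4 := (mul_eq_zero.1 h3).resolve_left (X_ne_zero 1)
    exact eq_neg_of_add_eq_zero_left h4

/-- Koszul: `T₀, T₁` generate everything of positive degree -/
theorem koszul_R' {a : ℤ} (ha : 1 ≤ a) {r : R k} (h : HD a r) :
    ∃ r₀ r₁ : R k, HD (a - 1) r₀ ∧ HD (a - 1) r₁ ∧ r = X 0 * r₀ + X 1 * r₁ := by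
  let q : R k := modMonomial r (Finsupp.single 0 1)
  have hq : r = X 0 * divMonomial r (Finsupp.single 0 1) + q :=
    (divMonomial_add_modMonomial_single r 0).symm
  have hqa : HD a q := by
    have : q = r - X 0 * divMonomial r (Finsupp.single 0 1) := by
      rw [eq_sub_iff_add_eq', ← hq]
    rw [this]
    refine h.sub ?_
    have := (hd_X (k := k) 0).mul (hd_div h 0)
    rwa [add_sub_cancel] at this
  have hq2 : modMonomial q (Finsupp.single 1 1) = 0 := by
    ext d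
    rw [coeff_zero]
    by_cases h1 : Finsupp.single 1 1 ≤ d
    · exact coeff_modMonomial_of_le _ h1
    · rw [coeff_modMonomial_of_not_le _ h1]
      by_cases h0 : Finsupp.single 0 1 ≤ d
      · exact coeff_modMonomial_of_le _ h0
      · by_contra hd
        have h2 := hd_iff.1 hqa d hd
        rw [Finsupp.single_le_iff] at h0 h1
        have h3 : d.degree = d 0 + d 1 := by
          rw [Finsupp.degree_eq_sum, Fin.sum_univ_two]
        rw [h3] at h2
        omega
  have hq3 : q = X 1 * divMonomial q (Finsupp.single 1 1) := by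
    conv_lhs => rw [← divMonomial_add_modMonomial_single q 1, hq2, add_zero]
  exact ⟨_, _, hd_div h 0, hd_div hqa 1, by rw [← hq3]; exact hq⟩

/-! ### the target category -/

/-- The object `g` is `R(-g)`, an object with `g < 0` is zero. -/
structure GQ (k : Type u) : Type where
  /-- the degree of the generator -/
  g : ℤ

namespace GQ

/-- `Hom (R(-g), R(-g')) = R_{g - g'}` if `g' ≥ 0` -/
@[ext]
structure Hom (X Y : GQ k) : Type u where
  /-- the element of `R` -/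
  r : R k
  mem : HD (X.g - Y.g) r
  van : Y.g < 0 → r = 0

namespace Hom

variable {X Y : GQ k}

noncomputable instance : Zero (Hom X Y) := ⟨⟨0, hd_zero _, fun _ => rfl⟩⟩
noncomputable instance : Add (Hom X Y) :=
  ⟨fun f g => ⟨f.r + g.r, f.mem.add g.mem, fun h => by rw [f.van h, g.van h, add_zero]⟩⟩
noncomputable instance : Neg (Hom X Y) :=
  ⟨fun f => ⟨-f.r, f.mem.neg, fun h => by rw [f.van h, neg_zero]⟩⟩
noncomputable instance : Sub (Hom X Y) :=
  ⟨fun f g => ⟨f.r - g.r, f.mem.sub g.mem, fun h => by rw [f.van h, g.van h, sub_zero]⟩⟩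
noncomputable instance : SMul ℕ (Hom X Y) :=
  ⟨fun a f => ⟨a • f.r, hd_nsmul f.mem a, fun h => by rw [f.van h, smul_zero]⟩⟩
noncomputable instance : SMul ℤ (Hom X Y) :=
  ⟨fun a f => ⟨a • f.r, hd_zsmul f.mem a, fun h => by rw [f.van h, smul_zero]⟩⟩

theorem r_injective : Function.Injective (Hom.r : Hom X Y → R k) := fun _ _ h => Hom.ext h

noncomputable instance : AddCommGroup (Hom X Y) :=
  r_injective.addCommGroup _ rfl (fun _ _ => rfl) (fun _ => rfl) (fun _ _ => rfl)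
    (fun _ _ => rfl) (fun _ _ => rfl)

end Hom

open Classical in
noncomputable instance : Category (GQ k) where
  Hom X Y := GQ.Hom X Y
  id X := ⟨if 0 ≤ X.g then 1 else 0, by
    rw [sub_self]
    split_ifs
    · exact hd_one
    · exact hd_zero _, fun h => if_neg (not_le.2 h)⟩
  comp {X Y Z} f g := ⟨f.r * g.r, by
    have := f.mem.mul g.mem
    rwa [sub_add_sub_cancel] at this, fun h => by rw [g.van h, mul_zero]⟩
  id_comp {X Y} f := by
    apply Hom.ext
    change (if 0 ≤ X.g then (1 : R k) else 0) * f.r = f.r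
    split_ifs with h
    · rw [one_mul]
    · by_cases hY : Y.g < 0
      · rw [f.van hY, mul_zero]
      · rw [hd_neg (by omega) f.mem, mul_zero]
  comp_id {X Y} f := by
    apply Hom.ext
    change f.r * (if 0 ≤ Y.g then (1 : R k) else 0) = f.r
    split_ifs with h
    · rw [mul_one]
    · rw [f.van (not_le.1 h), zero_mul]
  assoc f g h := by
    apply Hom.ext
    exact mul_assoc _ _ _

@[ext]
theorem hom_ext {X Y : GQ k} {f g : X ⟶ Y} (h : Hom.r f = Hom.r g) : f = g := Hom.ext h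

noncomputable instance : Preadditive (GQ k) where
  homGroup X Y := inferInstanceAs (AddCommGroup (GQ.Hom X Y))
  add_comp _ _ _ _ _ _ := by apply Hom.ext; exact add_mul _ _ _
  comp_add _ _ _ _ _ _ := by apply Hom.ext; exact mul_add _ _ _

theorem hom_eq_zero {X Y : GQ k} (hX : X.g < 0) (f : X ⟶ Y) : f = 0 := by
  apply Hom.ext
  change f.r = 0
  by_cases hY : Y.g < 0
  · exact f.van hY
  · exact hd_neg (by omega) f.mem

end GQ

/-! ### the functor -/

variable {n : ℕ} {lam : Fin n → Fin 2 → k}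

theorem coef_spec {z : LG n} {f : S lam} (hf : f ∈ piece lam z) :
    f = xI lam z.I * iota lam (coef lam z.I f) ∧ HD z.a (coef lam z.I f) := by
  by_cases hz : 0 ≤ z.a
  · obtain ⟨m, hm⟩ := Int.eq_ofNat_of_zero_le hz
    obtain ⟨r, hr, rfl⟩ := (mem_piece_iff lam z m hm f).1 hf
    rw [coef_xI_mul_iota, if_pos rfl, hm]
    exact ⟨rfl, hd_nat.2 hr⟩
  · rw [eq_zero_of_mem_piece lam (not_le.1 hz) hf, map_zero, map_zero, mul_zero]
    exact ⟨rfl, hd_zero _⟩

theorem mem_piece_of_hd (z : LG n) {r : R k} (hr : HD z.a r) :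
    xI lam z.I * iota lam r ∈ piece lam z := by
  by_cases hz : 0 ≤ z.a
  · obtain ⟨m, hm⟩ := Int.eq_ofNat_of_zero_le hz
    rw [hm] at hr
    exact (mem_piece_iff lam z m hm _).2 ⟨r, hd_nat.1 hr, rfl⟩
  · rw [hd_neg (not_le.1 hz) hr, map_zero, mul_zero]
    exact Submodule.zero_mem _

/-- `x - y` for `Y = P x` -/
def uu (y : LG n) (Y : LB lam) : LG n := -Y.z - y

omit [Field k] in
theorem uu_sub (y : LG n) (Y Z : LB lam) : uu y Y - uu y Z = Z.z - Y.z := by
  simp only [uu]; abel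

/-- the coefficient -/
noncomputable def cf (y : LG n) {Y Z : LB lam} (e : Y ⟶ Z) : R k :=
  coef lam (uu y Y).I (LB.Hom.f e * xI lam (uu y Z).I)

theorem cf_mem_aux (y : LG n) {Y Z : LB lam} (e : Y ⟶ Z) :
    LB.Hom.f e * xI lam (uu y Z).I ∈ piece lam ⟨(uu y Y).I, (uu y Y).a - (uu y Z).a⟩ := by
  have h := mul_mem_piece lam (LB.Hom.mem e) (xI_mem_piece lam (uu y Z).I)
  rw [← uu_sub y Y Z] at h
  have e1 : uu y Y - uu y Z + LG.xs (uu y Z).I = ⟨(uu y Y).I, (uu y Y).a - (uu y Z).a⟩ := by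
    have h1 := LG.eq_xs_add (uu y Z)
    have h2 := LG.eq_xs_add (uu y Y)
    have h3 : uu y Y - uu y Z + LG.xs (uu y Z).I =
        LG.xs (uu y Y).I + ((uu y Y).a - (uu y Z).a) • LG.c := by
      rw [sub_smul]
      conv_lhs => rw [h2]
      conv_lhs => enter [1, 2]; rw [h1]
      abel
    rw [h3]
    exact (LG.eq_xs_add ⟨(uu y Y).I, (uu y Y).a - (uu y Z).a⟩).symm
  rwa [e1] at h

theorem cf_spec (y : LG n) {Y Z : LB lam} (e : Y ⟶ Z) :
    LB.Hom.f e * xI lam (uu y Z).I = xI lam (uu y Y).I * iota lam (cf y e) :=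
  (coef_spec (cf_mem_aux y e)).1

theorem cf_hd (y : LG n) {Y Z : LB lam} (e : Y ⟶ Z) : HD ((uu y Y).a - (uu y Z).a) (cf y e) :=
  (coef_spec (cf_mem_aux y e)).2

theorem cf_id (y : LG n) (Y : LB lam) : cf y (𝟙 Y) = 1 := by
  unfold cf
  rw [LB.id_f, one_mul]
  have := coef_xI_mul_iota lam (uu y Y).I (uu y Y).I 1
  rwa [map_one, mul_one, if_pos rfl] at this

theorem cf_comp (y : LG n) {X Y Z : LB lam} (e : X ⟶ Y) (e' : Y ⟶ Z) :
    cf y (e ≫ e') = cf y e * cf y e' := by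
  have h : LB.Hom.f (e ≫ e') * xI lam (uu y Z).I =
      xI lam (uu y X).I * iota lam (cf y e * cf y e') := by
    rw [LB.comp_f, mul_assoc, cf_spec, ← mul_assoc, cf_spec, mul_assoc, ← map_mul]
  rw [cf, h, coef_xI_mul_iota, if_pos rfl]

theorem cf_add (y : LG n) {Y Z : LB lam} (e e' : Y ⟶ Z) : cf y (e + e') = cf y e + cf y e' := by
  simp only [cf, LB.add_f, add_mul, map_add]

open Classical in
/-- the functor `P x ↦ R(-g)`, `g = (x - y).a`, `P x ↦ 0` if `g < 0` -/
noncomputable def Ph (y : LG n) : LB lam ⥤ GQ k where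
  obj Y := ⟨(uu y Y).a⟩
  map {Y Z} e := ⟨if 0 ≤ (uu y Z).a then cf y e else 0, by
    split_ifs
    · exact cf_hd y e
    · exact hd_zero _, fun h => if_neg (not_le.2 h)⟩
  map_id Y := by
    apply GQ.Hom.ext
    change (if 0 ≤ (uu y Y).a then cf y (𝟙 Y) else 0) = if 0 ≤ (uu y Y).a then 1 else 0
    rw [cf_id]
  map_comp {X Y Z} e e' := by
    apply GQ.Hom.ext
    change (if 0 ≤ (uu y Z).a then cf y (e ≫ e') else 0) =
      (if 0 ≤ (uu y Y).a then cf y e else 0) * (if 0 ≤ (uu y Z).a then cf y e' else 0)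
    rw [cf_comp]
    split_ifs with h1 h2 h2
    · rfl
    · rw [hd_neg (by omega) (cf_hd y e'), mul_zero, mul_zero]
    · rw [mul_zero]
    · rw [mul_zero]

theorem Ph_obj (y : LG n) (Y : LB lam) : ((Ph y).obj Y).g = (uu y Y).a := rfl

theorem Ph_map (y : LG n) {Y Z : LB lam} (e : Y ⟶ Z) :
    GQ.Hom.r ((Ph y).map e) = if 0 ≤ (uu y Z).a then cf y e else 0 := rfl

instance (y : LG n) : (Ph (lam := lam) y).Additive where
  map_add {Y Z e e'} := by
    apply GQ.Hom.ext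
    change (if 0 ≤ (uu y Z).a then cf y (e + e') else 0) =
      (if 0 ≤ (uu y Z).a then cf y e else 0) + (if 0 ≤ (uu y Z).a then cf y e' else 0)
    rw [cf_add]
    split_ifs
    · rfl
    · rw [add_zero]

/-! ### where the functor is full and faithful -/

omit [Field k] in
theorem uu_P (y : LG n) : uu y (LB.P lam y) = 0 := by
  simp [uu, LB.P]

theorem cf_toP (y : LG n) {Y : LB lam} (e : Y ⟶ LB.P lam y) :
    LB.Hom.f e = xI lam (uu y Y).I * iota lam (cf y e) := by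
  have h := cf_spec y e
  rwa [uu_P, LG.zero_I, xI_empty, mul_one] at h

/-- `P (y + x_[n] + m c)` -/
def pp (lam : Fin n → Fin 2 → k) (y : LG n) (m : ℤ) : LB lam := ⟨-(y + ⟨Finset.univ, m⟩)⟩

omit [Field k] in
theorem uu_pp (y : LG n) (m : ℤ) : uu y (pp lam y m) = ⟨Finset.univ, m⟩ := by
  simp only [uu, pp]; abel

omit [Field k] in
theorem sub_pp (y : LG n) (m : ℤ) (Y : LB lam) :
    Y.z - (pp lam y m).z = ⟨(uu y Y).Iᶜ, m - (uu y Y).a⟩ := by
  rw [← uu_sub y, uu_pp]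
  ext1
  · simp only [LG.sub_I]
    ext i
    simp [Finset.mem_symmDiff]
  · simp

theorem cf_pp (y : LG n) {m : ℤ} {Y : LB lam} (e : pp lam y m ⟶ Y) :
    LB.Hom.f e = xI lam (uu y Y).Iᶜ * iota lam (cf y e) := by
  have h := LB.Hom.mem e
  rw [sub_pp] at h
  obtain ⟨h1, -⟩ := coef_spec h
  have h2 : cf y e = coef lam (uu y Y).Iᶜ (LB.Hom.f e) := by
    rw [cf]
    conv_lhs => rw [h1]
    rw [mul_right_comm, xI_mul_xI_of_disjoint lam disjoint_compl_left, uu_pp]
    have h3 : (uu y Y).Iᶜ ∪ (uu y Y).I = Finset.univ := by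
      ext i; simp [em']
    rw [h3, coef_xI_mul_iota, if_pos rfl]
  rw [h2]
  exact h1

theorem cf_pp_ext (y : LG n) {m : ℤ} {Y : LB lam} {e e' : pp lam y m ⟶ Y}
    (h : cf y e = cf y e') : e = e' := by
  apply LB.Hom.ext
  rw [cf_pp, cf_pp y e', h]

theorem cf_pp_hd (y : LG n) {m : ℤ} {Y : LB lam} (e : pp lam y m ⟶ Y) :
    HD (m - (uu y Y).a) (cf y e) := by
  have := cf_hd y e
  rwa [uu_pp] at this

theorem exists_pp (y : LG n) (m : ℤ) (Y : LB lam) {r : R k} (hr : HD (m - (uu y Y).a) r) :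
    ∃ e : pp lam y m ⟶ Y, cf y e = r := by
  have h : xI lam (uu y Y).Iᶜ * iota lam r ∈ piece lam (Y.z - (pp lam y m).z) := by
    rw [sub_pp]
    exact mem_piece_of_hd ⟨(uu y Y).Iᶜ, m - (uu y Y).a⟩ hr
  let e : pp lam y m ⟶ Y := LB.homMk _ h
  refine ⟨e, ?_⟩
  have h1 := cf_pp y e
  exact (xI_mul_iota_injective lam _ h1).symm

theorem exists_toP (y : LG n) (Y : LB lam) {r : R k} (hr : HD (uu y Y).a r) :
    ∃ e : Y ⟶ LB.P lam y, cf y e = r := by
  have h : xI lam (uu y Y).I * iota lam r ∈ piece lam ((LB.P lam y).z - Y.z) := by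
    rw [← uu_sub y, uu_P, sub_zero]
    exact mem_piece_of_hd (uu y Y) hr
  let e : Y ⟶ LB.P lam y := LB.homMk _ h
  refine ⟨e, ?_⟩
  have h1 := cf_toP y e
  exact (xI_mul_iota_injective lam _ h1).symm

theorem Ph_toP_bijective (y : LG n) (Y : LB lam) :
    Function.Bijective ((Ph y).map : (Y ⟶ LB.P lam y) → _) := by
  have h0 : 0 ≤ (uu y (LB.P lam y)).a := by rw [uu_P]; rfl
  constructor
  · intro e e' h
    have h1 := congrArg GQ.Hom.r h
    rw [Ph_map, Ph_map, if_pos h0, if_pos h0] at h1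
    apply LB.Hom.ext
    rw [cf_toP, cf_toP y e', h1]
  · intro f
    have h1 := GQ.Hom.mem f
    change HD ((uu y Y).a - (uu y (LB.P lam y)).a) _ at h1
    rw [uu_P, LG.zero_a, sub_zero] at h1
    obtain ⟨e, he⟩ := exists_toP y Y h1
    refine ⟨e, ?_⟩
    apply GQ.Hom.ext
    rw [← he]
    exact (Ph_map y e).trans (if_pos h0)

theorem Ph_pp_surjective (y : LG n) (m : ℤ) (Y : LB lam) :
    Function.Surjective ((Ph y).map : (pp lam y m ⟶ Y) → _) := by
  intro f
  by_cases h0 : 0 ≤ (uu y Y).a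
  · have h1 := GQ.Hom.mem f
    change HD ((uu y (pp lam y m)).a - (uu y Y).a) _ at h1
    rw [uu_pp] at h1
    obtain ⟨e, he⟩ := exists_pp y m Y h1
    refine ⟨e, ?_⟩
    apply GQ.Hom.ext
    rw [← he]
    exact (Ph_map y e).trans (if_pos h0)
  · refine ⟨0, ?_⟩
    rw [Functor.map_zero]
    apply GQ.Hom.ext
    exact (GQ.Hom.van f (not_le.1 h0)).symm

theorem Ph_pp_eq_zero_iff (y : LG n) {m : ℤ} {Y : LB lam} (e : pp lam y m ⟶ Y) :
    (Ph y).map e = 0 ↔ (0 ≤ (uu y Y).a → e = 0) := by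
  constructor
  · intro h h0
    have h1 := congrArg GQ.Hom.r h
    rw [Ph_map, if_pos h0] at h1
    apply LB.Hom.ext
    rw [cf_pp, h1]
    change _ * iota lam 0 = 0
    rw [map_zero, mul_zero]
  · intro h
    apply GQ.Hom.ext
    rw [Ph_map]
    split_ifs with h0
    · rw [h h0]
      change coef lam _ (0 * _) = 0
      rw [zero_mul, map_zero]
    · rfl

/-! ### abstract lemmas -/

section

universe v₁ v₂ u₁ u₂

variable {C : Type u₁} [Category.{v₁} C] [Preadditive C] {D : Type u₂} [Category.{v₂} D]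
  [Preadditive D] (F : C ⥤ D) [F.Additive]

theorem exactFor_image (W : CochainComplex C ℤ) (p : C)
    (hfull : ∀ j, Function.Surjective (F.map : (p ⟶ W.X j) → _)) (hW : ExactFor p W)
    (hV : ∀ i j l : ℤ, i + 1 = j → j + 1 = l → ∀ f : p ⟶ W.X j, F.map f = 0 → f ≫ W.d j l = 0 →
      ∃ g : p ⟶ W.X i, F.map g = 0 ∧ g ≫ W.d i j = f) :
    ExactFor (F.obj p) ((F.mapHomologicalComplex _).obj W) := by
  intro i j l hij hjl f hf
  obtain ⟨f', rfl⟩ := hfull j f
  have h1 : F.map (f' ≫ W.d j l) = 0 := by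
    rw [F.map_comp]
    exact hf
  obtain ⟨v, hv, hv'⟩ := hV j l (l + 1) hjl rfl (f' ≫ W.d j l) h1 (by
    rw [Category.assoc, W.d_comp_d, comp_zero])
  obtain ⟨g, hg⟩ := hW i j l hij hjl (f' - v) (by
    rw [Preadditive.sub_comp, hv', sub_self])
  refine ⟨F.map g, ?_⟩
  change F.map g ≫ F.map (W.d i j) = F.map f'
  rw [← F.map_comp, hg, F.map_sub, hv, sub_zero]

theorem coexactFor_of_image (W : CochainComplex C ℤ) (q : C)
    (hb : ∀ j, Function.Bijective (F.map : (W.X j ⟶ q) → _))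
    (h : CoexactFor ((F.mapHomologicalComplex _).obj W) (F.obj q)) : CoexactFor W q := by
  intro i j l hij hjl f hf
  obtain ⟨g', hg'⟩ := h i j l hij hjl (F.map f) (by
    change F.map (W.d i j) ≫ F.map f = 0
    rw [← F.map_comp, hf, F.map_zero])
  obtain ⟨g, rfl⟩ := (hb l).2 g'
  refine ⟨g, (hb j).1 ?_⟩
  rw [← hg']
  exact F.map_comp _ _

theorem coexactFor_of_contractible {X : CochainComplex C ℤ} (h : Homotopy (𝟙 X) 0) (q : C) :
    CoexactFor X q := by
  intro i j l hij hjl f hf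
  refine ⟨h.hom l j ≫ f, ?_⟩
  have h1 := h.comm j
  rw [dNext_eq h.hom (show (ComplexShape.up ℤ).Rel j l from hjl),
    prevD_eq h.hom (show (ComplexShape.up ℤ).Rel i j from hij)] at h1
  simp only [HomologicalComplex.id_f, HomologicalComplex.zero_f, add_zero] at h1
  have h2 : f = 𝟙 (X.X j) ≫ f := (Category.id_comp f).symm
  conv_rhs => rw [h2, h1, Preadditive.add_comp, Category.assoc, Category.assoc, hf, comp_zero,
    add_zero]

end

/-- exactness for the summands gives exactness for the sum -/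
theorem exactFor_mat {C : Type*} [Category C] [Preadditive C] (X : Mat_ C)
    (Y : CochainComplex (Mat_ C) ℤ) (h : ∀ i, ExactFor ((Mat_.embedding C).obj (X.X i)) Y) :
    ExactFor X Y := by
  intro i j l hij hjl f hf
  have h1 : ∀ a : X.ι, ∃ g : (Mat_.embedding C).obj (X.X a) ⟶ Y.X i,
      ∀ b, (g ≫ Y.d i j) PUnit.unit b = f a b := by
    intro a
    let fa : (Mat_.embedding C).obj (X.X a) ⟶ Y.X j := fun _ b => f a b
    obtain ⟨g, hg⟩ := h a i j l hij hjl fa (by
      ext c b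
      exact congrFun (congrFun hf a) b)
    exact ⟨g, fun b => by rw [hg]⟩
  choose g hg using h1
  refine ⟨fun a b => g a PUnit.unit b, ?_⟩
  ext a b
  exact hg a b

/-! ### the Koszul step -/

/-- multiplication by `T_t` -/
noncomputable def tau (lam : Fin n → Fin 2 → k) (y : LG n) (t : Fin 2) (m : ℤ) :
    pp lam y (m + 1) ⟶ pp lam y m :=
  LB.homMk (tt lam t) (by
    have h : (pp lam y m).z - (pp lam y (m + 1)).z = LG.c := by
      rw [← uu_sub y, uu_pp, uu_pp]
      ext1 <;> simp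
    rw [h]
    exact tt_mem_piece lam t)

theorem cf_tau (y : LG n) (t : Fin 2) (m : ℤ) : cf y (tau lam y t m) = X t := by
  have h : LB.Hom.f (tau lam y t m) = tt lam t := rfl
  rw [cf, h, ← iota_X, mul_comm, uu_pp, uu_pp, coef_xI_mul_iota, if_pos rfl]

theorem tau_comm (y : LG n) (m : ℤ) :
    tau lam y 0 (m + 1) ≫ tau lam y 1 m = tau lam y 1 (m + 1) ≫ tau lam y 0 m := by
  apply LB.Hom.ext
  exact mul_comm _ _

/-- the entries of a row -/
def en {Z : LB lam} {M : Mat_ (LB lam)} (f : emb Z ⟶ M) (i : M.ι) : Z ⟶ M.X i :=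
  f PUnit.unit i

/-- the row with given entries -/
def row {Z : LB lam} {M : Mat_ (LB lam)} (g : ∀ i : M.ι, Z ⟶ M.X i) : emb Z ⟶ M :=
  fun _ i => g i

theorem en_row {Z : LB lam} {M : Mat_ (LB lam)} (g : ∀ i : M.ι, Z ⟶ M.X i) (i : M.ι) :
    en (row g) i = g i := rfl

theorem en_ext {Z : LB lam} {M : Mat_ (LB lam)} {f g : emb Z ⟶ M} (h : ∀ i, en f i = en g i) :
    f = g := Mat_.hom_ext _ _ fun _ i => h i

theorem en_add {Z : LB lam} {M : Mat_ (LB lam)} (f g : emb Z ⟶ M) (i : M.ι) :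
    en (f + g) i = en f i + en g i := rfl

theorem en_neg {Z : LB lam} {M : Mat_ (LB lam)} (f : emb Z ⟶ M) (i : M.ι) :
    en (-f) i = -en f i := rfl

theorem en_zero {Z : LB lam} {M : Mat_ (LB lam)} (i : M.ι) :
    en (0 : emb Z ⟶ M) i = 0 := rfl

theorem en_comp {Y Z : LB lam} (e : Y ⟶ Z) {M : Mat_ (LB lam)} (f : emb Z ⟶ M)
    (i : M.ι) : en ((Mat_.embedding _).map e ≫ f) i = e ≫ en f i := by
  refine (Mat_.comp_apply _ _ _ _).trans ?_
  exact Finset.sum_singleton _ _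

theorem cf_zero (y : LG n) (Y Z : LB lam) : cf y (0 : Y ⟶ Z) = 0 := by
  change coef lam _ (0 * _) = 0
  rw [zero_mul, map_zero]

theorem mapMat_pp_eq_zero_iff (y : LG n) {m : ℤ} {M : Mat_ (LB lam)}
    (f : emb (pp lam y m) ⟶ M) :
    (Ph y).mapMat_.map f = 0 ↔ ∀ i, 0 ≤ (uu y (M.X i)).a → en f i = 0 := by
  constructor
  · intro h i
    exact (Ph_pp_eq_zero_iff y _).1 (congrFun (congrFun h PUnit.unit) i)
  · intro h
    refine Mat_.hom_ext _ _ fun a i => ?_
    exact (Ph_pp_eq_zero_iff y _).2 (h i)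

theorem tau_cancel (y : LG n) (t : Fin 2) {m : ℤ} {Y : LB lam} (e : pp lam y m ⟶ Y)
    (h : tau lam y t m ≫ e = 0) : e = 0 := by
  apply cf_pp_ext y
  have h1 : cf y (tau lam y t m ≫ e) = 0 := by rw [h, cf_zero]
  rw [cf_comp, cf_tau] at h1
  rw [cf_zero]
  exact (mul_eq_zero.1 h1).resolve_left (X_ne_zero t)

theorem kos0 (y : LG n) (t : Fin 2) {m : ℤ} {M : Mat_ (LB lam)} (f : emb (pp lam y m) ⟶ M)
    (h : (Mat_.embedding _).map (tau lam y t m) ≫ f = 0) : f = 0 := by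
  refine en_ext fun i => ?_
  refine tau_cancel y t _ ?_
  rw [← en_comp, h, en_zero]

theorem kos0V (y : LG n) (t : Fin 2) {m : ℤ} {M : Mat_ (LB lam)} (f : emb (pp lam y m) ⟶ M)
    (h : (Ph y).mapMat_.map ((Mat_.embedding _).map (tau lam y t m) ≫ f) = 0) :
    (Ph y).mapMat_.map f = 0 := by
  rw [mapMat_pp_eq_zero_iff] at h ⊢
  intro i hi
  refine tau_cancel y t _ ?_
  rw [← en_comp, h i hi]

theorem kos1 (y : LG n) {m : ℤ} {M : Mat_ (LB lam)} (f₀ f₁ : emb (pp lam y (m + 1)) ⟶ M)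
    (h : (Mat_.embedding _).map (tau lam y 0 (m + 1)) ≫ f₀ +
      (Mat_.embedding _).map (tau lam y 1 (m + 1)) ≫ f₁ = 0) :
    ∃ g : emb (pp lam y m) ⟶ M, f₀ = (Mat_.embedding _).map (tau lam y 1 m) ≫ g ∧
      f₁ = -((Mat_.embedding _).map (tau lam y 0 m) ≫ g) := by
  have h1 : ∀ i, ∃ g : pp lam y m ⟶ M.X i, en f₀ i = tau lam y 1 m ≫ g ∧
      en f₁ i = -(tau lam y 0 m ≫ g) := by
    intro i
    have h2 : tau lam y 0 (m + 1) ≫ en f₀ i + tau lam y 1 (m + 1) ≫ en f₁ i = 0 := by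
      rw [← en_comp, ← en_comp, ← en_add, h, en_zero]
    have h3 : X 0 * cf y (en f₀ i) + X 1 * cf y (en f₁ i) = 0 := by
      rw [← cf_tau (lam := lam) y 0 (m + 1), ← cf_tau (lam := lam) y 1 (m + 1), ← cf_comp,
        ← cf_comp, ← cf_add, h2, cf_zero]
    obtain ⟨s, hs, hs0, hs1⟩ := koszul_R (cf_pp_hd y _) h3
    have h4 : m + 1 - (uu y (M.X i)).a - 1 = m - (uu y (M.X i)).a := by ring
    rw [h4] at hs
    obtain ⟨g, hg⟩ := exists_pp y m (M.X i) hs
    refine ⟨g, cf_pp_ext y ?_, ?_⟩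
    · rw [cf_comp, cf_tau, hg, hs0]
    · rw [eq_neg_iff_add_eq_zero]
      apply cf_pp_ext y
      rw [cf_add, cf_comp, cf_tau, hg, hs1, neg_add_cancel, cf_zero]
  choose g hg0 hg1 using h1
  refine ⟨row g, ?_, ?_⟩
  · refine en_ext fun i => ?_
    rw [en_comp, en_row]
    exact hg0 i
  · refine en_ext fun i => ?_
    rw [en_neg, en_comp, en_row]
    exact hg1 i

theorem kos2 (y : LG n) {m : ℤ} (hm : -1 ≤ m) {M : Mat_ (LB lam)}
    (f : emb (pp lam y (m + 1)) ⟶ M) (hf : (Ph y).mapMat_.map f = 0) :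
    ∃ f₀ f₁ : emb (pp lam y m) ⟶ M, (Ph y).mapMat_.map f₀ = 0 ∧ (Ph y).mapMat_.map f₁ = 0 ∧
      f = (Mat_.embedding _).map (tau lam y 0 m) ≫ f₀ +
        (Mat_.embedding _).map (tau lam y 1 m) ≫ f₁ := by
  rw [mapMat_pp_eq_zero_iff] at hf
  have h1 : ∀ i, ∃ g₀ g₁ : pp lam y m ⟶ M.X i, (0 ≤ (uu y (M.X i)).a → g₀ = 0) ∧
      (0 ≤ (uu y (M.X i)).a → g₁ = 0) ∧
      en f i = tau lam y 0 m ≫ g₀ + tau lam y 1 m ≫ g₁ := by
    intro i
    by_cases hi : 0 ≤ (uu y (M.X i)).a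
    · refine ⟨0, 0, fun _ => rfl, fun _ => rfl, ?_⟩
      rw [hf i hi, comp_zero, comp_zero, add_zero]
    · obtain ⟨r₀, r₁, hr₀, hr₁, hr⟩ := koszul_R' (a := m + 1 - (uu y (M.X i)).a) (by omega)
        (cf_pp_hd y (en f i))
      have h4 : m + 1 - (uu y (M.X i)).a - 1 = m - (uu y (M.X i)).a := by ring
      rw [h4] at hr₀ hr₁
      obtain ⟨g₀, hg₀⟩ := exists_pp y m (M.X i) hr₀
      obtain ⟨g₁, hg₁⟩ := exists_pp y m (M.X i) hr₁
      refine ⟨g₀, g₁, fun h => absurd h hi, fun h => absurd h hi, cf_pp_ext y ?_⟩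
      rw [cf_add, cf_comp, cf_comp, cf_tau, cf_tau, hg₀, hg₁, hr]
  choose g₀ g₁ h0 h1 h2 using h1
  refine ⟨row g₀, row g₁, (mapMat_pp_eq_zero_iff y _).2 h0, (mapMat_pp_eq_zero_iff y _).2 h1, ?_⟩
  refine en_ext fun i => ?_
  rw [en_add, en_comp, en_comp, en_row, en_row]
  exact h2 i

/-- the generators of degree `< 0` form a subcomplex; exactness of it at `pp m` -/
def Vex (y : LG n) (W : CochainComplex (Mat_ (LB lam)) ℤ) (m : ℤ) : Prop :=
  ∀ i j l : ℤ, i + 1 = j → j + 1 = l → ∀ f : emb (pp lam y m) ⟶ W.X j,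
    (Ph y).mapMat_.map f = 0 → f ≫ W.d j l = 0 →
      ∃ g : emb (pp lam y m) ⟶ W.X i, (Ph y).mapMat_.map g = 0 ∧ g ≫ W.d i j = f

instance (y : LG n) : ((Ph (lam := lam) y).mapMat_).Additive where
  map_add := Mat_.hom_ext _ _ fun _ _ => (Ph y).map_add

theorem Vex.step {y : LG n} {W : CochainComplex (Mat_ (LB lam)) ℤ} {m : ℤ} (hm : -2 ≤ m)
    (h0 : Vex y W m) (h1 : Vex y W (m + 1)) : Vex y W (m + 1 + 1) := by
  intro i j l hij hjl f hfV hf
  let F := (Ph (lam := lam) y).mapMat_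
  let T0 := (Mat_.embedding _).map (tau lam y 0 (m + 1))
  let T1 := (Mat_.embedding _).map (tau lam y 1 (m + 1))
  let T0' := (Mat_.embedding _).map (tau lam y 0 m)
  let T1' := (Mat_.embedding _).map (tau lam y 1 m)
  have hT : T0 ≫ T1' = T1 ≫ T0' := by
    rw [← Functor.map_comp, tau_comm, Functor.map_comp]
  obtain ⟨f₀, f₁, hf₀, hf₁, rfl⟩ := kos2 y (by omega) f hfV
  change F.map f₀ = 0 at hf₀
  change F.map f₁ = 0 at hf₁
  obtain ⟨g, hg₀, hg₁⟩ := kos1 y (f₀ ≫ W.d j l) (f₁ ≫ W.d j l) (by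
    rw [← Category.assoc, ← Category.assoc, ← Preadditive.add_comp]
    exact hf)
  have hgV : F.map g = 0 := by
    refine kos0V y 1 g ?_
    rw [← hg₀]
    change F.map (f₀ ≫ W.d j l) = 0
    rw [F.map_comp, hf₀, zero_comp]
  have hgd : g ≫ W.d l (l + 1) = 0 := by
    refine kos0 y 1 _ ?_
    rw [← Category.assoc, ← hg₀, Category.assoc, W.d_comp_d, comp_zero]
  obtain ⟨v, hvV, hv⟩ := h0 j l (l + 1) hjl rfl g hgV hgd
  change F.map v = 0 at hvV
  obtain ⟨a₀, ha₀V, ha₀⟩ := h1 i j l hij hjl (f₀ - T1' ≫ v) (by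
    change F.map (f₀ - T1' ≫ v) = 0
    rw [F.map_sub, F.map_comp, hf₀, hvV, comp_zero, sub_zero]) (by
    rw [Preadditive.sub_comp, Category.assoc, hv, hg₀, sub_self])
  obtain ⟨a₁, ha₁V, ha₁⟩ := h1 i j l hij hjl (f₁ + T0' ≫ v) (by
    change F.map (f₁ + T0' ≫ v) = 0
    rw [F.map_add, F.map_comp, hf₁, hvV, comp_zero, add_zero]) (by
    rw [Preadditive.add_comp, Category.assoc, hv, hg₁]
    exact neg_add_cancel _)
  change F.map a₀ = 0 at ha₀V
  change F.map a₁ = 0 at ha₁V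
  refine ⟨T0 ≫ a₀ + T1 ≫ a₁, ?_, ?_⟩
  · change F.map (T0 ≫ a₀ + T1 ≫ a₁) = 0
    rw [F.map_add, F.map_comp, F.map_comp, ha₀V, ha₁V, comp_zero, comp_zero, add_zero]
  · rw [Preadditive.add_comp, Category.assoc, Category.assoc, ha₀, ha₁, Preadditive.comp_sub,
      Preadditive.comp_add, ← Category.assoc T0 T1' v, hT, Category.assoc]
    abel

/-! ### the theorem -/

theorem mapMat_pp_of_neg (y : LG n) {m : ℤ} (hm : m < 0) {M : Mat_ (LB lam)}
    (f : emb (pp lam y m) ⟶ M) : (Ph y).mapMat_.map f = 0 := by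
  rw [mapMat_pp_eq_zero_iff]
  intro i hi
  apply cf_pp_ext y
  rw [cf_zero]
  exact hd_neg (by omega) (cf_pp_hd y (en f i))

theorem exact_pp {W : CochainComplex (Mat_ (LB lam)) ℤ} (h1 : TermsIn clP (fun _ => True) W)
    (hex : ∀ Y, clA Y → ExactFor (emb Y) W) {y : LG n} (hy : 0 ≤ y.a) {m : ℤ} (hm : -2 ≤ m) :
    ExactFor (emb (pp lam y m)) W := by
  have e1 : (y + ⟨Finset.univ, m⟩ : LG n).a = y.a + m + y.I.card := by simp
  have e2 : (y + ⟨Finset.univ, m⟩ : LG n).I = y.Iᶜ := by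
    ext i
    simp [Finset.mem_symmDiff]
  by_cases h : 0 ≤ y.a + m + y.I.card
  · refine hex _ ?_
    change InA (- -(y + ⟨Finset.univ, m⟩))
    rw [neg_neg, InA, e1, e2]
    refine ⟨h, ?_⟩
    have := Finset.card_compl_add_card y.I
    rw [Fintype.card_fin] at this
    omega
  · intro i j l hij hjl f hf
    have hz : f = 0 := by
      refine en_ext fun a => ?_
      refine LB.hom_eq_zero ?_ _
      rw [sub_pp]
      change m - (uu y ((W.X j).X a)).a < 0
      have h3 : 0 ≤ (-((W.X j).X a).z).a := h1 j trivial a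
      have h4 : (uu y ((W.X j).X a)).a = (-((W.X j).X a).z).a - y.a -
          (y.I \ (-((W.X j).X a).z).I).card := LG.sub_a _ _
      have h5 : (y.I \ (-((W.X j).X a).z).I).card ≤ y.I.card :=
        Finset.card_le_card Finset.sdiff_subset
      omega
    exact ⟨0, by rw [hz, zero_comp]⟩

theorem vex {W : CochainComplex (Mat_ (LB lam)) ℤ} (h1 : TermsIn clP (fun _ => True) W)
    (hex : ∀ Y, clA Y → ExactFor (emb Y) W) {y : LG n} (hy : 0 ≤ y.a) (t : ℕ) :
    Vex y W (-2 + t) ∧ Vex y W (-2 + t + 1) := by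
  have base : ∀ m : ℤ, -2 ≤ m → m < 0 → Vex y W m := by
    intro m hm hm' i j l hij hjl f _ hf
    obtain ⟨g, hg⟩ := exact_pp h1 hex hy hm i j l hij hjl f hf
    exact ⟨g, mapMat_pp_of_neg y hm' g, hg⟩
  induction t with
  | zero => exact ⟨base _ (by simp) (by simp), base _ (by simp) (by simp)⟩
  | succ t ih =>
    have e : (-2 + ((t + 1 : ℕ) : ℤ)) = -2 + t + 1 := by push_cast; ring
    rw [e]
    exact ⟨ih.2, ih.1.step (by omega) ih.2⟩

theorem exact_Ph {W : CochainComplex (Mat_ (LB lam)) ℤ} (h1 : TermsIn clP (fun _ => True) W)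
    (hex : ∀ Y, clA Y → ExactFor (emb Y) W) {y : LG n} (hy : 0 ≤ y.a) (g : GQ k) :
    ExactFor ((Mat_.embedding _).obj g)
      (((Ph y).mapMat_.mapHomologicalComplex _).obj W) := by
  obtain ⟨m⟩ := g
  by_cases hm : 0 ≤ m
  · have e : (⟨m⟩ : GQ k) = (Ph y).obj (pp lam y m) := by
      change _ = (⟨(uu y (pp lam y m)).a⟩ : GQ k)
      rw [uu_pp]
    rw [e]
    refine exactFor_image (Ph (lam := lam) y).mapMat_ W (emb (pp lam y m)) ?_
      (exact_pp h1 hex hy (by omega)) ?_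
    · intro j f
      choose g hg using fun i : (W.X j).ι =>
        Ph_pp_surjective y m ((W.X j).X i) (f PUnit.unit i)
      exact ⟨row g, Mat_.hom_ext _ _ fun _ i => hg i⟩
    · obtain ⟨t, ht⟩ := Int.eq_ofNat_of_zero_le (show 0 ≤ m + 2 by omega)
      have h := (vex h1 hex hy t).1
      have e2 : (-2 + (t : ℤ)) = m := by omega
      rw [e2] at h
      exact h
  · intro i j l _ _ f _
    refine ⟨0, ?_⟩
    rw [zero_comp]
    refine Mat_.hom_ext _ _ fun a b => ?_
    exact (GQ.hom_eq_zero (X := ⟨m⟩) (not_le.1 hm) (f a b)).symm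

theorem main {W : CochainComplex (Mat_ (LB lam)) ℤ} (h0 : ∀ m, 0 < m → IsZero (W.X m))
    (h1 : TermsIn clP (fun _ => True) W) (hex : ∀ Y, clA Y → ExactFor (emb Y) W) {y : LG n}
    (hy : 0 ≤ y.a) : CoexactFor W (emb (LB.P lam y)) := by
  let F := (Ph (lam := lam) y).mapMat_
  obtain ⟨h⟩ := nullhomotopic_of_exact (𝟙 ((F.mapHomologicalComplex _).obj W)) 0
    (fun m hm => F.map_isZero (h0 m hm))
    (fun m => exactFor_mat _ _ fun i => exact_Ph h1 hex hy _)
  refine coexactFor_of_image F W _ (fun j => ?_) (coexactFor_of_contractible h _)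
  constructor
  · intro f g hfg
    refine Mat_.hom_ext _ _ fun i a => ?_
    exact (Ph_toP_bijective y ((W.X j).X i)).1 (congrFun (congrFun hfg i) a)
  · intro f
    choose g hg using fun i : (W.X j).ι => (Ph_toP_bijective y ((W.X j).X i)).2 (f i PUnit.unit)
    exact ⟨fun i _ => g i, Mat_.hom_ext _ _ fun i _ => hg i⟩

end DCoex

variable {k : Type u} [Field k] {n : ℕ} {lam : Fin n → Fin 2 → k}

/-- A bounded above complex of sums of `P x`, `x ≥ 0`, which is exact on `A`, is coexact for all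
`P y`, `y ≥ 0`. -/
theorem coexact_of_exact_A' (W : CochainComplex (Mat_ (LB lam)) ℤ)
    (h0 : ∀ m, 0 < m → IsZero (W.X m)) (h1 : TermsIn clP (fun _ => True) W)
    (hex : ∀ Y, clA Y → ExactFor (emb Y) W) (Y : LB lam) (hY : clP Y) :
    CoexactFor W (emb Y) := by
  have h := DCoex.main h0 h1 hex (y := -Y.z) hY
  have e : LB.P lam (-Y.z) = Y := by
    cases Y
    simp [LB.P]
  rwa [e] at h

theorem coexact_of_exact_A (_ : Indep lam) (_ : 3 ≤ n) (W : CochainComplex (Mat_ (LB lam)) ℤ)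
    (h0 : ∀ m, 0 < m → IsZero (W.X m)) (h1 : TermsIn clP (fun _ => True) W)
    (hex : ∀ Y, clA Y → ExactFor (emb Y) W) (Y : LB lam) (hY : clP Y) :
    CoexactFor W (emb Y) := coexact_of_exact_A' W h0 h1 hex Y hY

end Lens
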