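import Mathlib
import Pool.Agent.Lens.MatInst

/-!
# Truncation of `Mat_ 𝓐` by classes of objects

`S : 𝓐 → Prop` is convex when `f ≫ g = 0` for `f : x ⟶ y`, `g : y ⟶ z`, `S x`, `S z`, `¬ S y`.
Then `M ↦ (the summands of M in S)` is an additive endofunctor `resF S` of `Mat_ 𝓐`.
-/

open CategoryTheory CategoryTheory.Limits CategoryTheory.Preadditive

namespace Lens

universe w v u

variable {𝓐 : Type u} [Category.{v} 𝓐] [Preadditive 𝓐]

/-- `S` is a convex class of objects -/
def Conv (S : 𝓐 → Prop) : Prop :=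
  ∀ ⦃x y z : 𝓐⦄ (f : x ⟶ y) (g : y ⟶ z), S x → ¬ S y → S z → f ≫ g = 0

open Classical in
/-- the summands in `S` -/
noncomputable def resObj (S : 𝓐 → Prop) (M : Mat_ 𝓐) : Mat_ 𝓐 :=
  ⟨{i : M.ι // S (M.X i)}, fun i => M.X i.1⟩

theorem sum_subtype_zero {ι : Type*} [Fintype ι] {G : Type*} [AddCommGroup G] (p : ι → Prop)
    [Fintype {i // p i}] (f : ι → G) (h : ∀ i, ¬ p i → f i = 0) :
    ∑ i, f i = ∑ i : {i // p i}, f i.1 := by
  classical
  have h1 := Fintype.sum_subtype_add_sum_subtype p f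
  have h2 : ∑ i : {i // ¬ p i}, f i.1 = 0 := Finset.sum_eq_zero fun i _ => h i.1 i.2
  rw [h2, add_zero] at h1
  rw [← h1]
  exact Finset.sum_congr (by ext; simp) fun _ _ => rfl

open Classical in
/-- restriction to the summands in `S` -/
noncomputable def resF (S : 𝓐 → Prop) (hS : Conv S) : Mat_ 𝓐 ⥤ Mat_ 𝓐 where
  obj M := resObj S M
  map {M N} f := fun i j => f i.1 j.1
  map_id M := by
    ext i j
    by_cases h : i = j
    · subst h
      erw [Mat_.id_apply_self, Mat_.id_apply_self]
      rfl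
    · erw [Mat_.id_apply_of_ne _ _ _ h, Mat_.id_apply_of_ne _ _ _ (fun h' => h (Subtype.ext h'))]
      rfl
  map_comp {M N K} f g := by
    ext i k
    erw [Mat_.comp_apply, Mat_.comp_apply]
    exact sum_subtype_zero (fun j => S (N.X j)) (fun j => f i.1 j ≫ g j k.1)
      (fun j hj => hS _ _ i.2 hj k.2)

theorem resF_obj (S : 𝓐 → Prop) (hS : Conv S) (M : Mat_ 𝓐) : (resF S hS).obj M = resObj S M := rfl

theorem resF_map_apply (S : 𝓐 → Prop) (hS : Conv S) {M N : Mat_ 𝓐} (f : M ⟶ N)
    (i : (resObj S M).ι) (j : (resObj S N).ι) : (resF S hS).map f i j = f i.1 j.1 := rfl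

instance resF_additive (S : 𝓐 → Prop) (hS : Conv S) : (resF S hS).Additive where
  map_add {M N f g} := by
    ext i j
    rfl

instance resF_linear {k : Type w} [Semiring k] [Linear k 𝓐] (S : 𝓐 → Prop) (hS : Conv S) :
    (resF S hS).Linear k where
  map_smul {M N} f a := by
    ext i j
    rfl

/-! ### inclusions and projections -/

open Classical in
/-- the matrix which identifies common summands -/
noncomputable def idMat (M : Mat_ 𝓐) (S S' : 𝓐 → Prop) : resObj S M ⟶ resObj S' M :=
  fun i j => if h : i.1 = j.1 then eqToHom (congrArg M.X h) else 0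

theorem idMat_apply_self (M : Mat_ 𝓐) (S S' : 𝓐 → Prop) (i : M.ι) (h : S (M.X i))
    (h' : S' (M.X i)) : idMat M S S' ⟨i, h⟩ ⟨i, h'⟩ = 𝟙 (M.X i) := by
  unfold idMat
  rw [dif_pos rfl]
  rfl

theorem idMat_apply_ne (M : Mat_ 𝓐) (S S' : 𝓐 → Prop) (i : (resObj S M).ι) (j : (resObj S' M).ι)
    (h : i.1 ≠ j.1) : idMat M S S' i j = 0 := by
  unfold idMat
  rw [dif_neg h]

open Classical in
/-- composition with an `idMat` on the left -/
theorem idMat_comp_apply (M N : Mat_ 𝓐) (S S' : 𝓐 → Prop) (g : resObj S' M ⟶ N)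
    (i : (resObj S M).ι) (k : N.ι) :
    (idMat M S S' ≫ g) i k = if h : S' (M.X i.1) then g ⟨i.1, h⟩ k else 0 := by
  refine (Mat_.comp_apply _ _ _ _).trans ?_
  split_ifs with h
  · refine (Finset.sum_eq_single (⟨i.1, h⟩ : (resObj S' M).ι) ?_ ?_).trans ?_
    · intro j _ hj
      have e := idMat_apply_ne M S S' i j (fun h' => hj (Subtype.ext h'.symm))
      exact (congrArg (· ≫ g j k) e).trans zero_comp
    · intro h'
      exact absurd (Finset.mem_univ _) h'
    · have := idMat_apply_self M S S' i.1 i.2 h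
      erw [this]
      exact Category.id_comp _
  · refine Finset.sum_eq_zero fun j _ => ?_
    rw [idMat_apply_ne _ _ _ _ _ (fun h' => h (by rw [h']; exact j.2)), zero_comp]

open Classical in
/-- composition with an `idMat` on the right -/
theorem comp_idMat_apply (M N : Mat_ 𝓐) (S S' : 𝓐 → Prop) (g : N ⟶ resObj S M)
    (i : N.ι) (k : (resObj S' M).ι) :
    (g ≫ idMat M S S') i k = if h : S (M.X k.1) then g i ⟨k.1, h⟩ else 0 := by
  refine (Mat_.comp_apply _ _ _ _).trans ?_
  split_ifs with h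
  · refine (Finset.sum_eq_single (⟨k.1, h⟩ : (resObj S M).ι) ?_ ?_).trans ?_
    · intro j _ hj
      have e := idMat_apply_ne M S S' j k (fun h' => hj (Subtype.ext h'))
      exact (congrArg (g i j ≫ ·) e).trans comp_zero
    · intro h'
      exact absurd (Finset.mem_univ _) h'
    · have := idMat_apply_self M S S' k.1 h k.2
      erw [this]
      exact Category.comp_id _
  · refine Finset.sum_eq_zero fun j _ => ?_
    rw [idMat_apply_ne _ _ _ _ _ (fun h' => h (by rw [← h']; exact j.2)), comp_zero]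

/-- The condition under which the `idMat`'s are natural `resF S ⟶ resF S'`: for `x` in `S` and `y`
in `S'`, all maps `x ⟶ y` vanish unless `x` is in `S'` and `y` in `S`. -/
def NatCond (S S' : 𝓐 → Prop) : Prop :=
  (∀ ⦃x y : 𝓐⦄ (f : x ⟶ y), S x → S' y → ¬ S' x → f = 0) ∧
    (∀ ⦃x y : 𝓐⦄ (f : x ⟶ y), S x → S' y → ¬ S y → f = 0)

/-- the natural transformation given by the `idMat`'s -/
noncomputable def resNat (S S' : 𝓐 → Prop) (hS : Conv S) (hS' : Conv S') (h : NatCond S S') :
    resF S hS ⟶ resF S' hS' where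
  app M := idMat M S S'
  naturality M N f := by
    ext i j
    refine (comp_idMat_apply N _ S S' ((resF S hS).map f) i j).trans
      (Eq.trans ?_ (idMat_comp_apply M _ S S' ((resF S' hS').map f) i j).symm)
    split_ifs with h1 h2 h2
    · rfl
    · exact h.1 _ i.2 j.2 h2
    · exact (h.2 _ i.2 j.2 h1).symm
    · rfl

end Lens
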