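import Mathlib
import Pool.Agent.Lens.DRes

/-!
# Cutting complexes over `Mat_ 𝓐`

`cutC X S`: the terms of `X` of class `S m` in degree `m`. For constant `S` this is the truncation
by a class of objects, for `S m = (N ≤ m)` the brutal truncation.
-/

open CategoryTheory CategoryTheory.Limits CategoryTheory.Preadditive

namespace Lens

universe w v u

variable {𝓐 : Type u} [Category.{v} 𝓐] [Preadditive 𝓐]

/-! ### compositions of `idMat`'s -/

open Classical in
theorem idMat_comp_idMat_apply (M : Mat_ 𝓐) (S S' S'' : 𝓐 → Prop) (i : (resObj S M).ι)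
    (k : (resObj S'' M).ι) :
    (idMat M S S' ≫ idMat M S' S'') i k = if S' (M.X i.1) then idMat M S S'' i k else 0 := by
  refine (idMat_comp_apply M _ S S' (idMat M S' S'') i k).trans ?_
  by_cases h : S' (M.X i.1)
  · rw [dif_pos h, if_pos h]
    rfl
  · rw [dif_neg h, if_neg h]

theorem idMat_comp_idMat (M : Mat_ 𝓐) (S S' S'' : 𝓐 → Prop)
    (h : ∀ x, S x → S'' x → S' x) : idMat M S S' ≫ idMat M S' S'' = idMat M S S'' := by
  refine DMatrix.ext fun i k => ?_
  refine (idMat_comp_idMat_apply M S S' S'' i k).trans ?_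
  split_ifs with h'
  · rfl
  · refine (idMat_apply_ne M S S'' i k fun e => h' (h _ i.2 ?_)).symm
    rw [e]
    exact k.2

theorem idMat_self (M : Mat_ 𝓐) (S : 𝓐 → Prop) : idMat M S S = 𝟙 _ := by
  refine DMatrix.ext fun i k => ?_
  by_cases h : i = k
  · subst h
    exact (idMat_apply_self M S S i.1 i.2 i.2).trans
      (Mat_.id_apply_self (resObj S M) i).symm
  · exact (idMat_apply_ne M S S i k fun e => h (Subtype.ext e)).trans
      (Mat_.id_apply_of_ne _ _ _ h).symm

theorem idMat_disjoint (M : Mat_ 𝓐) (S S' : 𝓐 → Prop) (h : ∀ x, S x → ¬ S' x) :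
    idMat M S S' = 0 := by
  refine DMatrix.ext fun i k => ?_
  refine idMat_apply_ne M S S' i k fun e => h _ i.2 ?_
  rw [e]
  exact k.2

/-- the splitting `M_S ⟶ M_{S'} ⟶ M_{S''}` for `S' = S ⊔ S''` -/
theorem idMat_add (M : Mat_ 𝓐) (S S' S'' : 𝓐 → Prop) (h : ∀ x, S' x → (S x ↔ ¬ S'' x)) :
    idMat M S' S ≫ idMat M S S' + idMat M S' S'' ≫ idMat M S'' S' = 𝟙 _ := by
  classical
  rw [← idMat_self]
  refine DMatrix.ext fun i k => ?_
  refine (congrArg₂ (· + ·) (idMat_comp_idMat_apply M S' S S' i k)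
    (idMat_comp_idMat_apply M S' S'' S' i k)).trans ?_
  by_cases h1 : S (M.X i.1)
  · have h2 : ¬ S'' (M.X i.1) := (h _ i.2).1 h1
    rw [if_pos h1, if_neg h2]
    exact add_zero _
  · have h2 : S'' (M.X i.1) := not_not.1 fun h2 => h1 ((h _ i.2).2 h2)
    rw [if_neg h1, if_pos h2]
    exact zero_add _

/-! ### complexes -/

variable (X : CochainComplex (Mat_ 𝓐) ℤ)

/-- The condition that the terms of class `S` form a complex. -/
def CutOK (S : ℤ → 𝓐 → Prop) : Prop :=
  ∀ (m : ℤ) ⦃x y z : 𝓐⦄ (f : x ⟶ y) (g : y ⟶ z), S m x → ¬ S (m + 1) y → S (m + 1 + 1) z →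
    f ≫ g = 0

/-- the terms of class `S` -/
noncomputable def cutC (S : ℤ → 𝓐 → Prop) (hS : CutOK S) : CochainComplex (Mat_ 𝓐) ℤ where
  X m := resObj (S m) (X.X m)
  d m m' := fun i j => X.d m m' i.1 j.1
  shape m m' h := by
    rw [X.shape m m' h]
    rfl
  d_comp_d' m m' m'' h h' := by
    classical
    obtain rfl : m + 1 = m' := h
    obtain rfl : m + 1 + 1 = m'' := h'
    refine DMatrix.ext fun i k => ?_
    refine (Mat_.comp_apply _ _ _ _).trans ?_
    refine (sum_subtype_zero (fun j => S (m + 1) ((X.X (m + 1)).X j))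
      (fun j => X.d m (m + 1) i.1 j ≫ X.d (m + 1) (m + 1 + 1) j k.1)
      (fun j hj => hS m _ _ i.2 hj k.2)).symm.trans ?_
    have h := congrFun (congrFun (X.d_comp_d m (m + 1) (m + 1 + 1)) i.1) k.1
    exact (Mat_.comp_apply _ _ _ _).symm.trans h

/-- The condition that the `idMat`'s form a chain map. -/
def MapOK (S S' : ℤ → 𝓐 → Prop) : Prop :=
  ∀ (m : ℤ) ⦃x y : 𝓐⦄ (f : x ⟶ y), S m x → S' (m + 1) y → (¬ S' m x ∨ ¬ S (m + 1) y) → f = 0

/-- the chain map given by the `idMat`'s -/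
noncomputable def cutMap (S S' : ℤ → 𝓐 → Prop) (hS : CutOK S) (hS' : CutOK S')
    (h : MapOK S S') : cutC X S hS ⟶ cutC X S' hS' where
  f m := idMat (X.X m) (S m) (S' m)
  comm' m m' hm := by
    classical
    obtain rfl : m + 1 = m' := hm
    refine DMatrix.ext fun i j => ?_
    refine (idMat_comp_apply (X.X m) _ (S m) (S' m) ((cutC X S' hS').d m (m + 1)) i j).trans
      (Eq.trans ?_ (comp_idMat_apply (X.X (m + 1)) _ (S (m + 1)) (S' (m + 1))
        ((cutC X S hS).d m (m + 1)) i j).symm)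
    split_ifs with h1 h2 h2
    · rfl
    · exact h m _ i.2 j.2 (Or.inr h2)
    · exact (h m _ i.2 j.2 (Or.inl h1)).symm
    · rfl

@[simp] theorem cutMap_f (S S' : ℤ → 𝓐 → Prop) (hS : CutOK S) (hS' : CutOK S')
    (h : MapOK S S') (m : ℤ) :
    (cutMap X S S' hS hS' h).f m = idMat (X.X m) (S m) (S' m) := rfl

/-- `S`, `S'`, `S''` such that `0 → X_S → X_{S'} → X_{S''} → 0` is a degreewise split exact
sequence -/
structure SplitOK (S S' S'' : ℤ → 𝓐 → Prop) : Prop where
  hS : CutOK S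
  hS' : CutOK S'
  hS'' : CutOK S''
  h : MapOK S S'
  h' : MapOK S' S''
  le : ∀ m x, S m x → S' m x
  le' : ∀ m x, S'' m x → S' m x
  iff : ∀ m x, S' m x → (S m x ↔ ¬ S'' m x)

/-- the short complex of complexes -/
noncomputable def cutSC {S S' S'' : ℤ → 𝓐 → Prop} (H : SplitOK S S' S'') :
    ShortComplex (CochainComplex (Mat_ 𝓐) ℤ) :=
  ShortComplex.mk (cutMap X S S' H.hS H.hS' H.h) (cutMap X S' S'' H.hS' H.hS'' H.h') (by
    ext m : 1
    exact (idMat_comp_idMat _ _ _ _ (fun x hx _ => H.le m x hx)).trans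
      (idMat_disjoint _ _ _ fun x hx hx' => (H.iff m x (H.le m x hx)).1 hx hx'))

/-- the degreewise splitting -/
noncomputable def cutSplit {S S' S'' : ℤ → 𝓐 → Prop} (H : SplitOK S S' S'') (m : ℤ) :
    ((cutSC X H).map (HomologicalComplex.eval _ _ m)).Splitting where
  r := idMat (X.X m) (S' m) (S m)
  s := idMat (X.X m) (S'' m) (S' m)
  f_r := (idMat_comp_idMat _ _ _ _ (fun x hx _ => H.le m x hx)).trans (idMat_self _ _)
  s_g := (idMat_comp_idMat _ _ _ _ (fun x hx _ => H.le' m x hx)).trans (idMat_self _ _)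
  id := idMat_add _ _ _ _ fun x hx => H.iff m x hx

/-- the triangle `X_S ⟶ X_{S'} ⟶ X_{S''} ⟶` in the homotopy category -/
theorem cut_triangle {S S' S'' : ℤ → 𝓐 → Prop} (H : SplitOK S S' S'') :
    ∃ δ, Pretriangulated.Triangle.mk
      ((HomotopyCategory.quotient _ _).map (cutMap X S S' H.hS H.hS' H.h))
      ((HomotopyCategory.quotient _ _).map (cutMap X S' S'' H.hS' H.hS'' H.h')) δ ∈
        Pretriangulated.distinguishedTriangles := by
  refine ⟨_, (HomotopyCategory.distinguished_iff_iso_trianglehOfDegreewiseSplit _).2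
    ⟨cutSC X H, cutSplit X H, ⟨Iso.refl _⟩⟩⟩

end Lens
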