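import Mathlib
import Pool.Agent.Lens.DK

/-!
# Exactness in terms of morphisms in the homotopy category

`ExactFor P Y` iff all morphisms from shifts of `P` to `Y` vanish in the homotopy category, dually
`CoexactFor X P` iff all morphisms from `X` to shifts of `P` vanish. Both classes are triangulated.
-/

open CategoryTheory CategoryTheory.Limits CategoryTheory.Preadditive

namespace Lens

universe v u

variable {V : Type u} [Category.{v} V] [Preadditive V]

/-- the quotient functor -/
noncomputable abbrev QK (X : CochainComplex V ℤ) : HomotopyCategory V (ComplexShape.up ℤ) :=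
  (HomotopyCategory.quotient V (ComplexShape.up ℤ)).obj X

theorem exactFor_of_isZero {P : V} (h : IsZero P) (Y : CochainComplex V ℤ) : ExactFor P Y :=
  fun _ _ _ _ _ _ _ => ⟨0, h.eq_of_src _ _⟩

theorem coexactFor_of_isZero {P : V} (h : IsZero P) (X : CochainComplex V ℤ) : CoexactFor X P :=
  fun _ _ _ _ _ _ _ => ⟨0, h.eq_of_tgt _ _⟩

theorem ExactFor.of_iso {P P' : V} (e : P ≅ P') {Y : CochainComplex V ℤ} (h : ExactFor P Y) :
    ExactFor P' Y := by
  intro i j k hi hk f hf
  obtain ⟨g, hg⟩ := h i j k hi hk (e.hom ≫ f) (by rw [Category.assoc, hf, comp_zero])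
  exact ⟨e.inv ≫ g, by rw [Category.assoc, hg, e.inv_hom_id_assoc]⟩

theorem CoexactFor.of_iso {P P' : V} (e : P ≅ P') {X : CochainComplex V ℤ}
    (h : CoexactFor X P) : CoexactFor X P' := by
  intro i j k hi hk f hf
  obtain ⟨g, hg⟩ := h i j k hi hk (f ≫ e.inv) (by rw [← Category.assoc, hf, zero_comp])
  exact ⟨g ≫ e.hom, by rw [← Category.assoc, hg, Category.assoc, e.inv_hom_id, Category.comp_id]⟩

variable [HasZeroObject V]

/-- `ExactFor` in terms of the homotopy category -/
theorem exactFor_iff_hom (P : V) (Y : CochainComplex V ℤ) :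
    ExactFor P Y ↔ ∀ (m : ℤ) (f : (HomotopyCategory.singleFunctor V m).obj P ⟶ QK Y), f = 0 := by
  constructor
  · intro h m f
    obtain ⟨g, rfl⟩ := (HomotopyCategory.quotient V (ComplexShape.up ℤ)).map_surjective f
    have h0 : ∀ n, m < n → IsZero (((CochainComplex.singleFunctor V m).obj P).X n) :=
      fun n hn => HomologicalComplex.isZero_single_obj_X _ _ _ _ hn.ne'
    have h1 : ∀ n, ExactFor (((CochainComplex.singleFunctor V m).obj P).X n) Y := by
      intro n
      by_cases hn : n = m
      · subst hn
        exact h.of_iso (HomologicalComplex.singleObjXSelf (ComplexShape.up ℤ) n P).symm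
      · exact exactFor_of_isZero (HomologicalComplex.isZero_single_obj_X _ _ _ _ hn) Y
    obtain ⟨H⟩ := nullhomotopic_of_exact g m h0 h1
    exact (HomotopyCategory.eq_of_homotopy _ _ H).trans (Functor.map_zero _ _ _)
  · intro h i j k hi hk f hf
    let φ : (CochainComplex.singleFunctor V j).obj P ⟶ Y :=
      HomologicalComplex.mkHomFromSingle f (fun k' hk' => by
        obtain rfl : j + 1 = k' := hk'
        subst hk
        exact hf)
    have h0 : (HomotopyCategory.quotient V (ComplexShape.up ℤ)).map φ = 0 := h j _
    have H : Homotopy φ 0 := HomotopyCategory.homotopyOfEq _ _ (h0.trans (Functor.map_zero _ _ _).symm)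
    have H1 := H.comm j
    rw [dNext_eq H.hom (show (ComplexShape.up ℤ).Rel j k from hk),
      prevD_eq H.hom (show (ComplexShape.up ℤ).Rel i j from hi),
      CochainComplex.singleFunctor_obj_d, zero_comp, zero_add, HomologicalComplex.zero_f,
      add_zero] at H1
    have H2 : φ.f j = (HomologicalComplex.singleObjXSelf (ComplexShape.up ℤ) j P).hom ≫ f :=
      HomologicalComplex.mkHomFromSingle_f f _
    refine ⟨(HomologicalComplex.singleObjXSelf (ComplexShape.up ℤ) j P).inv ≫ H.hom j i, ?_⟩
    refine (Category.assoc _ _ _).trans ((congrArg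
      ((HomologicalComplex.singleObjXSelf (ComplexShape.up ℤ) j P).inv ≫ ·)
      (H1.symm.trans H2)).trans ?_)
    exact Iso.inv_hom_id_assoc _ _

/-- `CoexactFor` in terms of the homotopy category -/
theorem coexactFor_iff_hom (X : CochainComplex V ℤ) (P : V) :
    CoexactFor X P ↔ ∀ (m : ℤ) (f : QK X ⟶ (HomotopyCategory.singleFunctor V m).obj P), f = 0 := by
  constructor
  · intro h m f
    obtain ⟨g, rfl⟩ := (HomotopyCategory.quotient V (ComplexShape.up ℤ)).map_surjective f
    have h0 : ∀ n < m, IsZero (((CochainComplex.singleFunctor V m).obj P).X n) :=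
      fun n hn => HomologicalComplex.isZero_single_obj_X _ _ _ _ hn.ne
    have h1 : ∀ n, CoexactFor X (((CochainComplex.singleFunctor V m).obj P).X n) := by
      intro n
      by_cases hn : n = m
      · subst hn
        exact h.of_iso (HomologicalComplex.singleObjXSelf (ComplexShape.up ℤ) n P).symm
      · exact coexactFor_of_isZero (HomologicalComplex.isZero_single_obj_X _ _ _ _ hn) X
    obtain ⟨H⟩ := nullhomotopic_of_coexact g m h0 h1
    exact (HomotopyCategory.eq_of_homotopy _ _ H).trans (Functor.map_zero _ _ _)
  · intro h i j k hi hk f hf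
    let φ : X ⟶ (CochainComplex.singleFunctor V j).obj P :=
      HomologicalComplex.mkHomToSingle f (fun i' hi' => by
        obtain rfl : i = i' := by
          have : i' + 1 = j := hi'
          omega
        exact hf)
    have h0 : (HomotopyCategory.quotient V (ComplexShape.up ℤ)).map φ = 0 := h j _
    have H : Homotopy φ 0 := HomotopyCategory.homotopyOfEq _ _ (h0.trans (Functor.map_zero _ _ _).symm)
    have H1 := H.comm j
    rw [dNext_eq H.hom (show (ComplexShape.up ℤ).Rel j k from hk),
      prevD_eq H.hom (show (ComplexShape.up ℤ).Rel i j from hi),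
      CochainComplex.singleFunctor_obj_d, comp_zero, add_zero, HomologicalComplex.zero_f,
      add_zero] at H1
    have H2 : φ.f j = f ≫ (HomologicalComplex.singleObjXSelf (ComplexShape.up ℤ) j P).inv :=
      HomologicalComplex.mkHomToSingle_f f _
    refine ⟨H.hom k j ≫ (HomologicalComplex.singleObjXSelf (ComplexShape.up ℤ) j P).hom, ?_⟩
    refine (Category.assoc _ _ _).symm.trans ((congrArg
      (· ≫ (HomologicalComplex.singleObjXSelf (ComplexShape.up ℤ) j P).hom)
      (H1.symm.trans H2)).trans ?_)
    refine (Category.assoc _ _ _).trans ((congrArg (f ≫ ·) (Iso.inv_hom_id _)).trans ?_)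
    exact Category.comp_id _

/-- the shifts of the objects of a class -/
def singlesOf (S : V → Prop) : ObjectProperty (HomotopyCategory V (ComplexShape.up ℤ)) :=
  fun Z => ∃ (P : V) (m : ℤ), S P ∧ Nonempty (Z ≅ (HomotopyCategory.singleFunctor V m).obj P)

instance (S : V → Prop) : (singlesOf S).IsStableUnderShift ℤ where
  isStableUnderShiftBy n := ⟨fun Z hZ => by
    obtain ⟨P, m, hP, ⟨e⟩⟩ := hZ
    refine ⟨P, m - n, hP, ⟨(shiftFunctor _ n).mapIso e ≪≫
      ((HomotopyCategory.singleFunctors V).shiftIso n (m - n) m (by lia)).app P⟩⟩⟩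

/-- complexes which are exact for all objects of a class -/
def exOf (S : V → Prop) : ObjectProperty (HomotopyCategory V (ComplexShape.up ℤ)) :=
  fun X => ∀ P, S P → ExactFor P X.as

theorem exOf_eq (S : V → Prop) : exOf S = (singlesOf S).rightOrthogonal := by
  ext X
  constructor
  · rintro h Z f ⟨P, m, hP, ⟨e⟩⟩
    have := (exactFor_iff_hom P X.as).1 (h P hP) m (e.inv ≫ f)
    exact (cancel_epi e.inv).1 (this.trans comp_zero.symm)
  · intro h P hP
    exact (exactFor_iff_hom P X.as).2 fun m f => h f ⟨P, m, hP, ⟨Iso.refl _⟩⟩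

/-- complexes which are coexact for all objects of a class -/
def coexOf (S : V → Prop) : ObjectProperty (HomotopyCategory V (ComplexShape.up ℤ)) :=
  fun X => ∀ P, S P → CoexactFor X.as P

theorem coexOf_eq (S : V → Prop) : coexOf S = (singlesOf S).leftOrthogonal := by
  ext X
  constructor
  · rintro h Z f ⟨P, m, hP, ⟨e⟩⟩
    have := (coexactFor_iff_hom X.as P).1 (h P hP) m (f ≫ e.hom)
    exact (cancel_mono e.hom).1 (this.trans zero_comp.symm)
  · intro h P hP
    exact (coexactFor_iff_hom X.as P).2 fun m f => h f ⟨P, m, hP, ⟨Iso.refl _⟩⟩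

section

variable [HasBinaryBiproducts V] (S : V → Prop)

instance : (exOf S).IsTriangulated := by
  rw [exOf_eq]
  infer_instance

instance : (coexOf S).IsTriangulated := by
  rw [coexOf_eq]
  infer_instance

instance : (exOf S).IsClosedUnderIsomorphisms := by
  rw [exOf_eq]
  infer_instance

instance : (coexOf S).IsClosedUnderIsomorphisms := by
  rw [coexOf_eq]
  infer_instance

end

end Lens
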