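import Mathlib
import Pool.Agent.Lens.DCut
import Pool.Agent.Lens.DHom

/-!
# Cones of maps which are isomorphisms in low degrees

If `f : X ⟶ W` is an isomorphism in degrees `< m`, then the cone of `f` in the homotopy category is
represented by a complex without terms in degrees `< m - 1`.
-/

open CategoryTheory CategoryTheory.Limits CategoryTheory.Preadditive
open CategoryTheory.Pretriangulated

namespace Lens

universe w v u

variable {𝓐 : Type u} [Category.{v} 𝓐] [Preadditive 𝓐]

/-! ### inclusions and projections -/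

open Classical in
/-- the inclusion of the summands in `S` -/
noncomputable def inclM (M : Mat_ 𝓐) (S : 𝓐 → Prop) : resObj S M ⟶ M :=
  fun i j => if h : i.1 = j then eqToHom (congrArg M.X h) else 0

open Classical in
/-- the projection to the summands in `S` -/
noncomputable def projM (M : Mat_ 𝓐) (S : 𝓐 → Prop) : M ⟶ resObj S M :=
  fun i j => if h : i = j.1 then eqToHom (congrArg M.X h) else 0

theorem inclM_self (M : Mat_ 𝓐) (S : 𝓐 → Prop) (i : (resObj S M).ι) :
    inclM M S i i.1 = 𝟙 (M.X i.1) := by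
  unfold inclM
  rw [dif_pos rfl]
  rfl

theorem inclM_ne (M : Mat_ 𝓐) (S : 𝓐 → Prop) (i : (resObj S M).ι) (j : M.ι) (h : i.1 ≠ j) :
    inclM M S i j = 0 := by
  unfold inclM
  rw [dif_neg h]

theorem projM_self (M : Mat_ 𝓐) (S : 𝓐 → Prop) (i : (resObj S M).ι) :
    projM M S i.1 i = 𝟙 (M.X i.1) := by
  unfold projM
  rw [dif_pos rfl]
  rfl

theorem projM_ne (M : Mat_ 𝓐) (S : 𝓐 → Prop) (i : (resObj S M).ι) (j : M.ι) (h : j ≠ i.1) :
    projM M S j i = 0 := by
  unfold projM
  rw [dif_neg h]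

theorem inclM_comp_apply (M N : Mat_ 𝓐) (S : 𝓐 → Prop) (g : M ⟶ N) (i : (resObj S M).ι)
    (k : N.ι) : (inclM M S ≫ g) i k = g i.1 k := by
  refine (Mat_.comp_apply _ _ _ _).trans ?_
  refine (Finset.sum_eq_single i.1 ?_ ?_).trans ?_
  · intro j _ hj
    rw [inclM_ne M S i j hj.symm, zero_comp]
  · intro h
    exact absurd (Finset.mem_univ _) h
  · rw [inclM_self]
    exact Category.id_comp _

theorem comp_projM_apply (M N : Mat_ 𝓐) (S : 𝓐 → Prop) (g : N ⟶ M) (i : N.ι)
    (k : (resObj S M).ι) : (g ≫ projM M S) i k = g i k.1 := by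
  refine (Mat_.comp_apply _ _ _ _).trans ?_
  refine (Finset.sum_eq_single k.1 ?_ ?_).trans ?_
  · intro j _ hj
    rw [projM_ne M S k j hj, comp_zero]
  · intro h
    exact absurd (Finset.mem_univ _) h
  · rw [projM_self]
    exact Category.comp_id _

theorem inclM_projM (M : Mat_ 𝓐) (S S' : 𝓐 → Prop) :
    inclM M S ≫ projM M S' = idMat M S S' := by
  refine DMatrix.ext fun i k => ?_
  refine (inclM_comp_apply M _ S (projM M S') i k).trans ?_
  rfl

theorem inclM_projM_self (M : Mat_ 𝓐) (S : 𝓐 → Prop) :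
    inclM M S ≫ projM M S = 𝟙 _ := (inclM_projM M S S).trans (idMat_self M S)

theorem projM_inclM (M : Mat_ 𝓐) (S : 𝓐 → Prop) (h : ∀ i, S (M.X i)) :
    projM M S ≫ inclM M S = 𝟙 _ := by
  classical
  refine DMatrix.ext fun i k => ?_
  refine (Mat_.comp_apply (projM M S) (inclM M S) _ _).trans ?_
  refine (Finset.sum_eq_single (⟨k, h k⟩ : (resObj S M).ι) ?_ ?_).trans ?_
  · intro j _ hj
    rw [inclM_ne M S j k (fun h' => hj (Subtype.ext h')), comp_zero]
  · intro h
    exact absurd (Finset.mem_univ _) h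
  · have h1 := inclM_self M S ⟨k, h k⟩
    refine (congrArg (projM M S i ⟨k, h k⟩ ≫ ·) h1).trans ((Category.comp_id _).trans ?_)
    by_cases hik : i = k
    · subst hik
      exact (projM_self M S ⟨i, h i⟩).trans (Mat_.id_apply_self M i).symm
    · exact (projM_ne M S ⟨k, h k⟩ i hik).trans (Mat_.id_apply_of_ne _ _ _ hik).symm

theorem isZero_of_noTerms (M : Mat_ 𝓐) (h : IsEmpty M.ι) : IsZero M := by
  refine (IsZero.iff_id_eq_zero M).2 ?_
  refine DMatrix.ext fun i _ => h.elim i

omit [Category.{v} 𝓐] [Preadditive 𝓐] in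
theorem isEmpty_resObj (M : Mat_ 𝓐) (S : 𝓐 → Prop) (h : ∀ i, ¬ S (M.X i)) :
    IsEmpty (resObj S M).ι := ⟨fun i => h i.1 i.2⟩

theorem isZero_resObj (M : Mat_ 𝓐) (S : 𝓐 → Prop) (h : ∀ i, ¬ S (M.X i)) :
    IsZero (resObj S M) := isZero_of_noTerms _ (isEmpty_resObj M S h)

theorem comm_incl {M N : Mat_ 𝓐} (S S' : 𝓐 → Prop) (d : M ⟶ N) (h : ∀ i, S' (N.X i)) :
    (inclM M S ≫ d ≫ projM N S') ≫ inclM N S' = inclM M S ≫ d := by
  rw [Category.assoc, Category.assoc, projM_inclM _ _ h, Category.comp_id]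

theorem comm_proj {M N : Mat_ 𝓐} (S S' : 𝓐 → Prop) (d : M ⟶ N) (h : ∀ i, S (M.X i)) :
    projM M S ≫ (inclM M S ≫ d ≫ projM N S') = d ≫ projM N S' := by
  rw [← Category.assoc, projM_inclM _ _ h, Category.id_comp]

theorem comm_mid {M N L : Mat_ 𝓐} (S S' S'' : 𝓐 → Prop) (d : M ⟶ N) (e : N ⟶ L)
    (h : ∀ i, S' (N.X i)) :
    (inclM M S ≫ d ≫ projM N S') ≫ (inclM N S' ≫ e ≫ projM L S'') =
      inclM M S ≫ (d ≫ e) ≫ projM L S'' := by
  rw [Category.assoc, Category.assoc, comm_proj _ _ _ h, Category.assoc]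

theorem isIso_inclM (M : Mat_ 𝓐) (S : 𝓐 → Prop) (h : ∀ i, S (M.X i)) : IsIso (inclM M S) :=
  ⟨projM M S, inclM_projM_self M S, projM_inclM M S h⟩

theorem isIso_projM (M : Mat_ 𝓐) (S : 𝓐 → Prop) (h : ∀ i, S (M.X i)) : IsIso (projM M S) :=
  ⟨inclM M S, projM_inclM M S h, inclM_projM_self M S⟩

theorem cutC_d_eq (X : CochainComplex (Mat_ 𝓐) ℤ) (S : ℤ → 𝓐 → Prop) (hS : CutOK S) (i j : ℤ) :
    (cutC X S hS).d i j = inclM (X.X i) (S i) ≫ X.d i j ≫ projM (X.X j) (S j) := by
  refine DMatrix.ext fun a b => ?_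
  refine Eq.trans ?_ (inclM_comp_apply _ _ _ (X.d i j ≫ projM (X.X j) (S j)) a b).symm
  exact (comp_projM_apply _ _ _ (X.d i j) a.1 b).symm

/-! ### brutal truncation -/

variable (X W K : CochainComplex (Mat_ 𝓐) ℤ)

/-- degrees `≥ m` -/
def geS (m : ℤ) : ℤ → 𝓐 → Prop := fun j _ => m ≤ j
/-- degrees `< m` -/
def ltS (m : ℤ) : ℤ → 𝓐 → Prop := fun j _ => j < m
/-- all degrees -/
def allS : ℤ → 𝓐 → Prop := fun _ _ => True

theorem geS_ok (m : ℤ) : CutOK (geS (𝓐 := 𝓐) m) := fun j _ _ _ _ _ h1 h2 _ =>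
  absurd (show m ≤ j + 1 from le_trans (show m ≤ j from h1) (by lia)) h2

theorem ltS_ok (m : ℤ) : CutOK (ltS (𝓐 := 𝓐) m) := fun j _ _ _ _ _ _ h2 h3 =>
  absurd (show j + 1 < m from lt_trans (by lia) (show j + 1 + 1 < m from h3)) h2

theorem allS_ok : CutOK (allS (𝓐 := 𝓐)) := fun _ _ _ _ _ _ _ h2 _ => absurd trivial h2

theorem split_ok (m : ℤ) : SplitOK (𝓐 := 𝓐) (geS m) allS (ltS m) where
  hS := geS_ok m
  hS' := allS_ok
  hS'' := ltS_ok m
  h := fun j _ _ _ h1 _ h3 => by
    rcases h3 with h3 | h3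
    · exact absurd trivial h3
    · exact absurd (show m ≤ j + 1 from le_trans (show m ≤ j from h1) (by lia)) h3
  h' := fun j _ _ _ _ h2 h3 => by
    rcases h3 with h3 | h3
    · exact absurd (show j < m from lt_trans (by lia) (show j + 1 < m from h2)) h3
    · exact absurd trivial h3
  le := fun _ _ _ => trivial
  le' := fun _ _ _ => trivial
  iff := fun _ _ _ => not_lt.symm

/-- the subcomplex in degrees `≥ m` -/
noncomputable abbrev subC (m : ℤ) : CochainComplex (Mat_ 𝓐) ℤ := cutC X (geS m) (geS_ok m)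
/-- the quotient complex in degrees `< m` -/
noncomputable abbrev quoC (m : ℤ) : CochainComplex (Mat_ 𝓐) ℤ := cutC X (ltS m) (ltS_ok m)

/-- the inclusion of the subcomplex -/
noncomputable def subIncl (m : ℤ) : subC X m ⟶ X where
  f j := inclM (X.X j) (geS m j)
  comm' i j hij := by
    obtain rfl : i + 1 = j := hij
    by_cases h : m ≤ i
    · exact (comm_incl (geS m i) (geS m (i + 1)) (X.d i (i + 1))
        (fun _ => show m ≤ i + 1 by lia)).symm.trans
        (congrArg (· ≫ inclM (X.X (i + 1)) (geS m (i + 1))) (cutC_d_eq X _ _ i (i + 1)).symm)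
    · exact (isZero_resObj _ _ (fun _ => h)).eq_of_src _ _

/-- the projection to the quotient complex -/
noncomputable def quoProj (m : ℤ) : X ⟶ quoC X m where
  f j := projM (X.X j) (ltS m j)
  comm' i j hij := by
    obtain rfl : i + 1 = j := hij
    by_cases h : i + 1 < m
    · exact (congrArg (projM (X.X i) (ltS m i) ≫ ·) (cutC_d_eq X _ _ i (i + 1))).trans
        (comm_proj (ltS m i) (ltS m (i + 1)) (X.d i (i + 1))
        (fun _ => show i < m by lia))
    · exact (isZero_resObj _ _ (fun _ => h)).eq_of_tgt _ _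

/-- `allS` does not change the complex -/
noncomputable def allIso : cutC X allS allS_ok ≅ X :=
  HomologicalComplex.Hom.isoOfComponents
    (fun j => ⟨inclM (X.X j) (allS j), projM (X.X j) (allS j), inclM_projM_self _ _,
      projM_inclM _ _ (fun _ => trivial)⟩) (by
    intro i j _
    exact (comm_incl (allS i) (allS j) (X.d i j) (fun _ => trivial)).symm.trans
      (congrArg (· ≫ inclM (X.X j) (allS j)) (cutC_d_eq X _ _ i j).symm))

theorem allIso_hom_f (j : ℤ) : (allIso X).hom.f j = inclM (X.X j) (allS j) := rfl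
theorem allIso_inv_f (j : ℤ) : (allIso X).inv.f j = projM (X.X j) (allS j) := rfl

theorem projM_idMat (M : Mat_ 𝓐) (S S' : 𝓐 → Prop) (h : ∀ i, S (M.X i)) :
    projM M S ≫ idMat M S S' = projM M S' := by
  rw [← inclM_projM, ← Category.assoc, projM_inclM _ _ h, Category.id_comp]

theorem subIncl_allIso (m : ℤ) : subIncl X m ≫ (allIso X).inv =
    cutMap X (geS m) allS (split_ok m).hS (split_ok m).hS' (split_ok m).h := by
  ext j : 1
  exact inclM_projM _ _ _

theorem allIso_quoProj (m : ℤ) : (allIso X).inv ≫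
    cutMap X allS (ltS m) (split_ok m).hS' (split_ok m).hS'' (split_ok m).h' = quoProj X m := by
  ext j : 1
  exact projM_idMat _ _ _ (fun _ => trivial)

/-- the triangle of the brutal truncations -/
theorem brutal_triangle (m : ℤ) :
    ∃ δ, Triangle.mk ((HomotopyCategory.quotient _ _).map (subIncl X m))
      ((HomotopyCategory.quotient _ _).map (quoProj X m)) δ ∈
        distinguishedTriangles := by
  obtain ⟨δ, hδ⟩ := cut_triangle X (split_ok (𝓐 := 𝓐) m)
  have h1 := congrArg (HomotopyCategory.quotient _ _).map (subIncl_allIso X m)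
  have h2 := congrArg (HomotopyCategory.quotient _ _).map (allIso_quoProj X m)
  rw [Functor.map_comp] at h1 h2
  refine ⟨δ, isomorphic_distinguished _ hδ _ (Triangle.isoMk _ _ (Iso.refl _)
    ((HomotopyCategory.quotient _ _).mapIso (allIso X).symm) (Iso.refl _) ?_ ?_ ?_)⟩
  · exact h1.trans (Category.id_comp _).symm
  · exact (Category.comp_id _).trans h2.symm
  · refine Eq.trans ?_ (Category.id_comp _).symm
    exact (congrArg (δ ≫ ·) (CategoryTheory.Functor.map_id _ _)).trans (Category.comp_id _)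

variable {X W}

/-- functoriality of the quotient complex -/
noncomputable def quoMap (f : X ⟶ W) (m : ℤ) : quoC X m ⟶ quoC W m where
  f j := inclM (X.X j) (ltS m j) ≫ f.f j ≫ projM (W.X j) (ltS m j)
  comm' i j hij := by
    obtain rfl : i + 1 = j := hij
    by_cases h : i + 1 < m
    · have h1 := comm_mid (ltS m i) (ltS m i) (ltS m (i + 1)) (f.f i) (W.d i (i + 1))
        (fun _ => show i < m by lia)
      have h2 := comm_mid (ltS m i) (ltS m (i + 1)) (ltS m (i + 1)) (X.d i (i + 1)) (f.f (i + 1))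
        (fun _ => h)
      have h3 := congrArg (fun t => inclM (X.X i) (ltS m i) ≫ t ≫
        projM (W.X (i + 1)) (ltS m (i + 1))) (f.comm i (i + 1))
      exact ((congrArg ((inclM (X.X i) (ltS m i) ≫ f.f i ≫ projM (W.X i) (ltS m i)) ≫ ·)
        (cutC_d_eq W _ _ i (i + 1))).trans (h1.trans (h3.trans h2.symm))).trans
        (congrArg (· ≫ (inclM (X.X (i + 1)) (ltS m (i + 1)) ≫ f.f (i + 1) ≫
          projM (W.X (i + 1)) (ltS m (i + 1)))) (cutC_d_eq X _ _ i (i + 1)).symm)
    · exact (isZero_resObj _ _ (fun _ => h)).eq_of_tgt _ _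

theorem quoProj_quoMap (f : X ⟶ W) (m : ℤ) : quoProj X m ≫ quoMap f m = f ≫ quoProj W m := by
  ext j : 1
  rw [HomologicalComplex.comp_f, HomologicalComplex.comp_f]
  change projM (X.X j) (ltS m j) ≫ inclM (X.X j) (ltS m j) ≫ f.f j ≫ projM (W.X j) (ltS m j) =
    f.f j ≫ projM (W.X j) (ltS m j)
  by_cases h : j < m
  · rw [← Category.assoc, projM_inclM _ _ (fun _ => h), Category.id_comp]
  · exact (isZero_resObj _ _ (fun _ => h)).eq_of_tgt _ _

theorem isIso_quoMap (f : X ⟶ W) (m : ℤ) (hf : ∀ j, j < m → IsIso (f.f j)) :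
    IsIso (quoMap f m) := by
  have : ∀ j, IsIso ((quoMap f m).f j) := by
    intro j
    by_cases h : j < m
    · have := hf j h
      have := isIso_inclM (X.X j) (ltS m j) (fun _ => h)
      have := isIso_projM (W.X j) (ltS m j) (fun _ => h)
      exact (inferInstance : IsIso (inclM (X.X j) (ltS m j) ≫ f.f j ≫ projM (W.X j) (ltS m j)))
    · exact ⟨0, (isZero_resObj _ _ (fun _ => h)).eq_of_src _ _,
        (isZero_resObj _ _ (fun _ => h)).eq_of_src _ _⟩
  exact HomologicalComplex.Hom.isIso_of_components _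

variable (X) in
/-- a complex which is zero in degrees `< m` is its subcomplex in degrees `≥ m` -/
theorem isIso_subIncl (m : ℤ) (h : ∀ j, j < m → IsZero (X.X j)) : IsIso (subIncl X m) := by
  have : ∀ j, IsIso ((subIncl X m).f j) := by
    intro j
    by_cases hj : m ≤ j
    · exact isIso_inclM (X.X j) (geS m j) (fun _ => hj)
    · exact ⟨0, (isZero_resObj _ _ (fun _ => hj)).eq_of_src _ _,
        (h j (not_le.1 hj)).eq_of_src _ _⟩
  exact HomologicalComplex.Hom.isIso_of_components _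

/-- the terms of a mapping cone -/
theorem isZero_cone (φ : X ⟶ W) (j : ℤ) (h1 : IsZero (X.X (j + 1))) (h2 : IsZero (W.X j)) :
    IsZero ((CochainComplex.mappingCone φ).X j) := by
  refine (IsZero.iff_id_eq_zero _).2 ?_
  refine (CochainComplex.mappingCone.ext_to_iff φ j (j + 1) rfl _ _).2 ⟨?_, ?_⟩
  · exact h1.eq_of_tgt _ _
  · exact h2.eq_of_tgt _ _

/-- If `f` is an isomorphism in degrees `< m`, the cone of `f` is represented by a complex without
terms in degrees `< m - 1`. -/
theorem cone_of_isIso_lt (f : X ⟶ W) (m : ℤ) (hf : ∀ j, j < m → IsIso (f.f j)) :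
    ∃ C : CochainComplex (Mat_ 𝓐) ℤ, (∀ j, j < m - 1 → IsEmpty (C.X j).ι) ∧
      ∃ (g : QK W ⟶ QK C) (h : QK C ⟶ (QK X)⟦(1 : ℤ)⟧),
        Triangle.mk ((HomotopyCategory.quotient _ _).map f) g h ∈ distinguishedTriangles := by
  obtain ⟨δX, hX⟩ := brutal_triangle X m
  obtain ⟨δW, hW⟩ := brutal_triangle W m
  have := isIso_quoMap f m hf
  let Q := HomotopyCategory.quotient (Mat_ 𝓐) (ComplexShape.up ℤ)
  obtain ⟨D, g, h, hD⟩ := distinguished_cocone_triangle (Q.map f)
  -- the triangle on `X ⟶ quo W`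
  let q : QK (quoC X m) ≅ QK (quoC W m) := Q.mapIso (asIso (quoMap f m))
  have hq : Q.map (quoProj X m) ≫ q.hom = Q.map f ≫ Q.map (quoProj W m) :=
    (Functor.map_comp _ _ _).symm.trans ((congrArg Q.map (quoProj_quoMap f m)).trans
      (Functor.map_comp _ _ _))
  have hX' := rot_of_distTriang _ hX
  have hW' := rot_of_distTriang _ hW
  have hX'' : Triangle.mk (Q.map f ≫ Q.map (quoProj W m)) (q.inv ≫ δX)
      (-(Q.map (subIncl X m))⟦(1 : ℤ)⟧') ∈ distinguishedTriangles := by
    refine isomorphic_distinguished _ hX' _ (Triangle.isoMk _ _ (Iso.refl _)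
      q.symm (Iso.refl _) ?_ ?_ ?_)
    · refine (congrArg (· ≫ q.inv) hq.symm).trans ?_
      refine (Category.assoc _ _ _).trans ((congrArg (Q.map (quoProj X m) ≫ ·)
        q.hom_inv_id).trans ((Category.comp_id _).trans (Category.id_comp _).symm))
    · exact Category.comp_id _
    · refine Eq.trans ?_ (Category.id_comp _).symm
      exact (congrArg ((-(Q.map (subIncl X m))⟦(1 : ℤ)⟧') ≫ ·)
        (CategoryTheory.Functor.map_id _ _)).trans (Category.comp_id _)
  have O := Triangulated.someOctahedron rfl hD hW' hX''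
  have hO := rot_of_distTriang _ O.mem
  -- lift `m₃` to a chain map
  obtain ⟨θ', hθ'⟩ := (shiftFunctor (HomotopyCategory (Mat_ 𝓐) (ComplexShape.up ℤ))
    (1 : ℤ)).map_surjective (-O.m₃)
  obtain ⟨θ, rfl⟩ := Q.map_surjective θ'
  have hK := rot_of_distTriang _ (rot_of_distTriang _ (rot_of_distTriang _
    (HomotopyCategory.mappingCone_triangleh_distinguished θ)))
  let eT := isoTriangleOfIso₁₂ _ _ hO hK (Iso.refl _) (Iso.refl _) (by
    refine (Category.comp_id _).trans (Eq.trans ?_ (Category.id_comp _).symm)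
    exact (neg_neg _).symm.trans (congrArg Neg.neg hθ'.symm))
  let e1 : D ≅ QK (CochainComplex.mappingCone θ) :=
    (shiftFunctor (HomotopyCategory (Mat_ 𝓐) (ComplexShape.up ℤ)) (1 : ℤ)).preimageIso
      (Triangle.π₃.mapIso eT)
  have hi : IsIso (subIncl (CochainComplex.mappingCone θ) (m - 1)) := by
    refine isIso_subIncl _ _ fun j hj => isZero_cone θ j ?_ ?_
    · exact isZero_resObj _ _ (fun _ => show ¬ m ≤ j + 1 by lia)
    · exact isZero_resObj _ _ (fun _ => show ¬ m ≤ j by lia)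
  let e2 : QK (subC (CochainComplex.mappingCone θ) (m - 1)) ≅ QK (CochainComplex.mappingCone θ) :=
    Q.mapIso (asIso (subIncl (CochainComplex.mappingCone θ) (m - 1)))
  let e : QK (subC (CochainComplex.mappingCone θ) (m - 1)) ≅ D := e2 ≪≫ e1.symm
  refine ⟨subC (CochainComplex.mappingCone θ) (m - 1), fun j hj => isEmpty_resObj _ _
    (fun _ => show ¬ m - 1 ≤ j by lia), g ≫ e.inv, e.hom ≫ h, ?_⟩
  refine isomorphic_distinguished _ hD _ (Triangle.isoMk _ _ (Iso.refl _) (Iso.refl _) e ?_ ?_ ?_)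
  · exact (Category.comp_id _).trans (Category.id_comp _).symm
  · exact (Category.assoc _ _ _).trans ((congrArg (g ≫ ·) e.inv_hom_id).trans
      ((Category.comp_id _).trans (Category.id_comp _).symm))
  · exact (congrArg ((e.hom ≫ h) ≫ ·)
        (CategoryTheory.Functor.map_id _ _)).trans (Category.comp_id _)

end Lens
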