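import Mathlib
import Pool.Agent.Lens.LB
import Pool.Agent.Lens.MatInst
import Pool.Agent.Lens.DK
import Pool.Agent.Lens.DVoc

/-!
# The exactness claim (E)

A complex `G` of finite sums of `P y`, `y` not `≥ 0`, such that `Hom (P z, G)` is exact for all `z`
which are not `≥ 0`, has exact `Hom (P z, G)` for all `z ≥ x_[n] - 2 c`.
-/

open CategoryTheory CategoryTheory.Limits MvPolynomial

namespace Lens

namespace DEx

universe u

variable {k : Type u} [Field k] {n : ℕ} (lam : Fin n → Fin 2 → k)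

/-! ### linear forms -/

theorem form_ne_zero {i j : Fin n} (hij : lam i 0 * lam j 1 ≠ lam j 0 * lam i 1) :
    form lam i ≠ 0 := by
  intro h
  have h1 : ∀ P : Fin 2 → k, lam i 0 * P 0 + lam i 1 * P 1 = 0 := by
    intro P
    have := congrArg (eval P) h
    simpa [form, Fin.sum_univ_two] using this
  have e1 := h1 ![lam j 1, - lam j 0]
  apply hij
  simp at e1
  linear_combination e1

theorem form_prime {i j : Fin n} (hij : lam i 0 * lam j 1 ≠ lam j 0 * lam i 1) :
    Prime (form lam j) := by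
  have e : form lam j = sumSMulX (Finsupp.equivFunOnFinite.symm (lam j)) := by
    rw [sumSMulX, Finsupp.linearCombination_apply, Finsupp.sum_fintype]
    · simp [form, MvPolynomial.smul_eq_C_mul]
    · simp
  rw [e]
  apply Irreducible.prime
  have hne : lam j 0 ≠ 0 ∨ lam j 1 ≠ 0 := by
    by_contra h
    push Not at h
    exact hij (by rw [h.1, h.2]; ring)
  apply irreducible_sumSMulX
  · rcases hne with h | h
    · exact ⟨0, by simpa using h⟩
    · exact ⟨1, by simpa using h⟩
  · intro r hr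
    rcases hne with h | h
    · exact isUnit_of_dvd_unit (hr 0) (by simpa using h)
    · exact isUnit_of_dvd_unit (hr 1) (by simpa using h)

theorem form_dvd_of_mul {i j : Fin n} (hij : lam i 0 * lam j 1 ≠ lam j 0 * lam i 1) {r : R k}
    (h : form lam j ∣ form lam i * r) : form lam j ∣ r := by
  rcases (form_prime lam hij).dvd_or_dvd h with h | h
  · exfalso
    obtain ⟨q, hq⟩ := h
    have e := congrArg (eval ![lam j 1, - lam j 0]) hq
    simp only [form, Fin.sum_univ_two, map_add, map_mul, eval_C, eval_X] at e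
    simp at e
    apply hij
    have e2 : lam j 0 * lam j 1 + -(lam j 1 * lam j 0) = 0 := by ring
    rw [e2, zero_mul] at e
    linear_combination e
  · exact h

attribute [local instance] MvPolynomial.gradedAlgebra in
/-- homogeneous quotients -/
theorem exists_quot {j : Fin n} {m : ℕ} {r : R k} (hr : r.IsHomogeneous m)
    (h : form lam j ∣ r) (h0 : form lam j ≠ 0) :
    r = 0 ∨ ∃ m' r', m = m' + 1 ∧ r'.IsHomogeneous m' ∧ r = form lam j * r' := by
  by_cases hr0 : r = 0
  · exact Or.inl hr0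
  right
  obtain ⟨q, hq⟩ := h
  have hq0 : q ≠ 0 := by rintro rfl; exact hr0 (by rw [hq, mul_zero])
  have hf := form_isHomogeneous lam j
  rcases m with _ | m
  · exfalso
    have h1 := hr.totalDegree hr0
    rw [hq, totalDegree_mul_of_isDomain h0 hq0, hf.totalDegree h0] at h1
    omega
  · refine ⟨m, homogeneousComponent m q, rfl, homogeneousComponent_isHomogeneous m q, ?_⟩
    have h1 : homogeneousComponent (m + 1) (form lam j * q) =
        form lam j * homogeneousComponent m q := by
      have h2 := DirectSum.coe_decompose_mul_add_of_left_mem (homogeneousSubmodule (Fin 2) k)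
        (j := m) (b := q) (a := form lam j) (i := 1) hf
      have h3 : ∀ (t : ℕ) (p : R k),
          ((DirectSum.decompose (homogeneousSubmodule (Fin 2) k) p t : _) : R k) =
            homogeneousComponent t p := fun t p => decomposition.decompose'_apply p t
      rw [h3, h3, add_comm 1 m] at h2
      exact h2
    rw [← h1, ← hq, homogeneousComponent_eq_self hr]

/-! ### regularity -/

/-- the coefficient of `x_I` in `x_j s`, `j ∉ I` -/
theorem coef_xx_mul {j : Fin n} {I : Finset (Fin n)} (hj : j ∉ I) (s : S lam) :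
    coef lam I (xx lam j * s) = form lam j * coef lam (insert j I) s := by
  have key : ∀ (K : Finset (Fin n)) (r : R k),
      coef lam I (xx lam j * (xI lam K * iota lam r)) =
        form lam j * coef lam (insert j I) (xI lam K * iota lam r) := by
    intro K r
    by_cases hK : j ∈ K
    · have e : xx lam j * (xI lam K * iota lam r) =
          xI lam (K.erase j) * iota lam (form lam j * r) := by
        rw [map_mul, ← xx_sq]
        have : xI lam K = xx lam j * xI lam (K.erase j) := (Finset.mul_prod_erase K _ hK).symm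
        rw [this]; ring
      rw [e, coef_xI_mul_iota, coef_xI_mul_iota]
      have : K.erase j = I ↔ K = insert j I := by
        constructor
        · rintro rfl; rw [Finset.insert_erase hK]
        · rintro rfl; rw [Finset.erase_insert hj]
      by_cases h : K = insert j I
      · rw [if_pos h, if_pos (this.2 h)]
      · rw [if_neg h, if_neg (fun h' => h (this.1 h')), mul_zero]
    · have e : xx lam j * (xI lam K * iota lam r) = xI lam (insert j K) * iota lam r := by
        rw [xI, xI, Finset.prod_insert hK]; ring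
      rw [e, coef_xI_mul_iota, coef_xI_mul_iota, if_neg, if_neg, mul_zero]
      · rintro rfl; exact hK (Finset.mem_insert_self _ _)
      · rintro rfl; exact hj (Finset.mem_insert_self _ _)
  conv_lhs => rw [eq_sum_coef lam s]
  conv_rhs => rw [eq_sum_coef lam s]
  rw [Finset.mul_sum, map_sum, map_sum, Finset.mul_sum]
  exact Finset.sum_congr rfl fun K _ => key K _

theorem xx_mul_cancel {j : Fin n} (hj : form lam j ≠ 0) {s : S lam} (h : xx lam j * s = 0) :
    s = 0 := by
  have h1 : iota lam (form lam j) * s = 0 := by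
    rw [← xx_sq, sq, mul_assoc, h, mul_zero]
  refine ext_coef lam fun I => ?_
  have h2 := congrArg (coef lam I) h1
  rw [coef_iota_mul, map_zero] at h2
  rw [map_zero]
  exact (mul_eq_zero.1 h2).resolve_left hj

theorem xs_erase_add (I : Finset (Fin n)) {j : Fin n} (hj : j ∈ I) :
    LG.xs (I.erase j) + LG.x j = LG.xs I := by
  rw [LG.xs_eq_sum, LG.xs_eq_sum, add_comm]
  exact Finset.add_sum_erase I LG.x hj

theorem xs_insert (I : Finset (Fin n)) {j : Fin n} (hj : j ∉ I) :
    LG.xs (insert j I) = LG.x j + LG.xs I := by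
  rw [LG.xs_eq_sum, LG.xs_eq_sum]
  exact Finset.sum_insert hj

theorem mem_piece_of_eq {z z' : LG n} (h : z = z') {f : S lam} (hf : f ∈ piece lam z) :
    f ∈ piece lam z' := h ▸ hf

/-- normal form of a homogeneous element -/
theorem exists_normal {z : LG n} {f : S lam} (hf : f ∈ piece lam z) :
    f = 0 ∨ ∃ (m : ℕ) (r : R k), z = LG.xs z.I + m • LG.c ∧ r.IsHomogeneous m ∧
      f = xI lam z.I * iota lam r := by
  by_cases h : z.a < 0
  · exact Or.inl (eq_zero_of_mem_piece lam h hf)
  · right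
    obtain ⟨m, hm⟩ := Int.eq_ofNat_of_zero_le (not_lt.1 h)
    obtain ⟨r, hr, e⟩ := (mem_piece_iff lam z m hm f).1 hf
    refine ⟨m, r, ?_, hr, e⟩
    conv_lhs => rw [LG.eq_xs_add z, hm]
    rw [natCast_zsmul]

/-- `x_j` divides `p` in `S`, if it divides `x_i p`, with a homogeneous quotient. -/
theorem exists_div {i j : Fin n} (hij : lam i 0 * lam j 1 ≠ lam j 0 * lam i 1) {u : LG n}
    {p s : S lam} (hp : p ∈ piece lam u) (h : xx lam i * p = xx lam j * s) :
    ∃ r ∈ piece lam (u - LG.x j), p = xx lam j * r := by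
  obtain rfl | ⟨m, r₁, hu, hr₁, e⟩ := exists_normal lam hp
  · exact ⟨0, Submodule.zero_mem _, (mul_zero _).symm⟩
  by_cases hj : j ∈ u.I
  · refine ⟨xI lam (u.I.erase j) * iota lam r₁, ?_, ?_⟩
    · refine mem_piece_of_eq lam ?_ (mul_mem_piece lam (xI_mem_piece lam _)
        (iota_mem_piece lam hr₁))
      rw [eq_sub_iff_add_eq]
      conv_rhs => rw [hu, ← xs_erase_add u.I hj]
      abel
    · rw [e, xI, ← Finset.mul_prod_erase u.I _ hj, xI, mul_assoc]
  · have h1 : form lam i * r₁ = form lam j * coef lam (insert j u.I) (xx lam i * s) := by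
      rw [← coef_xx_mul lam hj]
      have : xx lam j * (xx lam i * s) = xI lam u.I * iota lam (form lam i * r₁) := by
        rw [map_mul, ← xx_sq]
        calc xx lam j * (xx lam i * s) = xx lam i * (xx lam j * s) := by ring
          _ = xx lam i * (xx lam i * p) := by rw [h]
          _ = _ := by rw [e]; ring
      rw [this, coef_xI_mul_iota, if_pos rfl]
    have hj0 : form lam j ≠ 0 := form_ne_zero lam (fun h' => hij h'.symm)
    obtain rfl | ⟨m', r', rfl, hr', e'⟩ :=
      exists_quot lam hr₁ (form_dvd_of_mul lam hij ⟨_, h1⟩) hj0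
    · exact ⟨0, Submodule.zero_mem _, by rw [e, map_zero, mul_zero, mul_zero]⟩
    · refine ⟨xI lam (insert j u.I) * iota lam r', ?_, ?_⟩
      · refine mem_piece_of_eq lam ?_ (mul_mem_piece lam (xI_mem_piece lam _)
          (iota_mem_piece lam hr'))
        rw [eq_sub_iff_add_eq]
        conv_rhs => rw [hu]
        rw [xs_insert _ hj, succ_nsmul, ← LG.two_x j]
        abel
      · rw [e, e', map_mul, ← xx_sq, xI, xI, Finset.prod_insert hj]
        ring

/-- **Koszul** (middle exactness) -/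
theorem exists_koszul {i j : Fin n} (hij : lam i 0 * lam j 1 ≠ lam j 0 * lam i 1) {u : LG n}
    {p q : S lam} (hp : p ∈ piece lam u) (h : xx lam i * p + xx lam j * q = 0) :
    ∃ r ∈ piece lam (u - LG.x j), p = xx lam j * r ∧ q = - (xx lam i * r) := by
  obtain ⟨r, hr, e⟩ := exists_div lam hij (s := -q) hp (by linear_combination h)
  refine ⟨r, hr, e, ?_⟩
  have hj0 : form lam j ≠ 0 := form_ne_zero lam (fun h' => hij h'.symm)
  have : xx lam j * (q + xx lam i * r) = 0 := by
    rw [← h, e]; ring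
  exact eq_neg_of_add_eq_zero_left (xx_mul_cancel lam hj0 this)

/-! ### surjectivity -/

theorem exists_form_split {i j : Fin n} (hij : lam i 0 * lam j 1 ≠ lam j 0 * lam i 1) {m : ℕ}
    {r : R k} (hr : r.IsHomogeneous (m + 1)) :
    ∃ r₀ r₁ : R k, r₀.IsHomogeneous m ∧ r₁.IsHomogeneous m ∧
      r = form lam i * r₀ + form lam j * r₁ := by
  have hX : ∀ t : Fin 2, ∃ a b : k, (X t : R k) = C a * form lam i + C b * form lam j := by
    have hD : lam i 0 * lam j 1 - lam j 0 * lam i 1 ≠ 0 := sub_ne_zero.2 hij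
    set D := lam i 0 * lam j 1 - lam j 0 * lam i 1 with hDdef
    intro t
    have e1 : (C D⁻¹ : R k) * C D = 1 := by rw [← C_mul, inv_mul_cancel₀ hD, C_1]
    have e2 : (C D : R k) = C (lam i 0) * C (lam j 1) - C (lam j 0) * C (lam i 1) := by
      rw [hDdef]; simp
    fin_cases t
    · refine ⟨D⁻¹ * lam j 1, - (D⁻¹ * lam i 1), ?_⟩
      simp only [form, Fin.sum_univ_two, C_mul, C_neg]
      calc (X 0 : R k) = (C D⁻¹ * C D) * X 0 := by rw [e1, one_mul]
        _ = _ := by rw [e2]; ring
    · refine ⟨- (D⁻¹ * lam j 0), D⁻¹ * lam i 0, ?_⟩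
      simp only [form, Fin.sum_univ_two, C_mul, C_neg]
      calc (X 1 : R k) = (C D⁻¹ * C D) * X 1 := by rw [e1, one_mul]
        _ = _ := by rw [e2]; ring
  let P : R k → Prop := fun r => ∃ r₀ r₁ : R k, r₀.IsHomogeneous m ∧ r₁.IsHomogeneous m ∧
      r = form lam i * r₀ + form lam j * r₁
  have hadd : ∀ a b, P a → P b → P (a + b) := by
    rintro _ _ ⟨a, b, ha, hb, rfl⟩ ⟨c, d, hc, hd, rfl⟩
    exact ⟨a + c, b + d, ha.add hc, hb.add hd, by ring⟩
  have h0 : P 0 := ⟨0, 0, isHomogeneous_zero _ _ _, isHomogeneous_zero _ _ _, by ring⟩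
  change P r
  rw [r.as_sum]
  refine Finset.sum_induction _ P hadd h0 fun d hd => ?_
  have hdeg : d.degree = m + 1 := by
    by_contra h
    exact (mem_support_iff.1 hd) (hr.coeff_eq_zero h)
  have hd0 : ∃ t, d t ≠ 0 := by
    by_contra h
    push Not at h
    have : d = 0 := Finsupp.ext h
    rw [this] at hdeg
    simp at hdeg
  obtain ⟨t, ht⟩ := hd0
  obtain ⟨a, b, e⟩ := hX t
  have hsub : d = (d - Finsupp.single t 1) + Finsupp.single t 1 :=
    (tsub_add_cancel_of_le (by
      rw [Finsupp.single_le_iff]; omega)).symm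
  have hm : (monomial (d - Finsupp.single t 1) (coeff d r) : R k).IsHomogeneous m := by
    apply isHomogeneous_monomial
    have := congrArg Finsupp.degree hsub
    rw [map_add, Finsupp.degree_single, hdeg] at this
    omega
  refine ⟨C a * monomial (d - Finsupp.single t 1) (coeff d r),
    C b * monomial (d - Finsupp.single t 1) (coeff d r), hm.C_mul _, hm.C_mul _, ?_⟩
  have h1 : (monomial d (coeff d r) : R k) =
      X t * monomial (d - Finsupp.single t 1) (coeff d r) := by
    rw [X, monomial_mul, one_mul, add_comm, ← hsub]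
  rw [h1, e]
  ring

/-- `S_v = x_i S_{v - x_i} + x_j S_{v - x_j}` unless `v = x_M` with `i, j ∉ M` -/
theorem exists_split {i j : Fin n} (hij : lam i 0 * lam j 1 ≠ lam j 0 * lam i 1) {v : LG n}
    {f : S lam} (hf : f ∈ piece lam v) (hv : ¬ (v.a = 0 ∧ i ∉ v.I ∧ j ∉ v.I)) :
    ∃ p ∈ piece lam (v - LG.x i), ∃ q ∈ piece lam (v - LG.x j),
      f = xx lam i * p + xx lam j * q := by
  obtain rfl | ⟨m, r, hu, hr, e⟩ := exists_normal lam hf
  · exact ⟨0, Submodule.zero_mem _, 0, Submodule.zero_mem _, by ring⟩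
  have key : ∀ l ∈ v.I, ∃ p ∈ piece lam (v - LG.x l), f = xx lam l * p := by
    intro l hl
    refine ⟨xI lam (v.I.erase l) * iota lam r, ?_, ?_⟩
    · refine mem_piece_of_eq lam ?_ (mul_mem_piece lam (xI_mem_piece lam _)
        (iota_mem_piece lam hr))
      rw [eq_sub_iff_add_eq]
      conv_rhs => rw [hu, ← xs_erase_add v.I hl]
      abel
    · rw [e, xI, ← Finset.mul_prod_erase v.I _ hl, xI, mul_assoc]
  have key2 : ∀ l, l ∉ v.I → ∀ (m' : ℕ) (r' : R k), m = m' + 1 → r'.IsHomogeneous m' →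
      ∃ p ∈ piece lam (v - LG.x l), xI lam v.I * iota lam (form lam l * r') = xx lam l * p := by
    intro l hl m' r' hm' hr'
    refine ⟨xI lam (insert l v.I) * iota lam r', ?_, ?_⟩
    · refine mem_piece_of_eq lam ?_ (mul_mem_piece lam (xI_mem_piece lam _)
        (iota_mem_piece lam hr'))
      rw [eq_sub_iff_add_eq]
      conv_rhs => rw [hu, hm']
      rw [xs_insert _ hl, succ_nsmul, ← LG.two_x l]
      abel
    · rw [map_mul, ← xx_sq, xI, xI, Finset.prod_insert hl]
      ring
  by_cases hi : i ∈ v.I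
  · obtain ⟨p, hp, e'⟩ := key i hi
    exact ⟨p, hp, 0, Submodule.zero_mem _, by rw [← e']; ring⟩
  by_cases hj : j ∈ v.I
  · obtain ⟨p, hp, e'⟩ := key j hj
    exact ⟨0, Submodule.zero_mem _, p, hp, by rw [← e']; ring⟩
  rcases m with _ | m
  · exfalso
    apply hv
    refine ⟨?_, hi, hj⟩
    rw [hu]
    simp
  · obtain ⟨r₀, r₁, h₀, h₁, e₁⟩ := exists_form_split lam hij hr
    obtain ⟨p, hp, ep⟩ := key2 i hi m r₀ rfl h₀
    obtain ⟨q, hq, eq⟩ := key2 j hj m r₁ rfl h₁
    refine ⟨p, hp, q, hq, ?_⟩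
    rw [← ep, ← eq, e, e₁, map_add, mul_add]

/-! ### the complex -/

variable {lam}

variable (lam) in
/-- the line bundle `𝒪(w)` as an object of `Mat_ LB` (`(Mat_.embedding _).obj ⟨w⟩`) -/
abbrev OO (w : LG n) : Mat_ (LB lam) := ⟨PUnit, fun _ => ⟨w⟩⟩

/-- the element `s ∈ S_{w' - w}` as a morphism `𝒪(w) ⟶ 𝒪(w')` -/
noncomputable def mE {w w' : LG n} (s : S lam) (hs : s ∈ piece lam (w' - w)) :
    OO lam w ⟶ OO lam w' :=
  fun _ _ => LB.homMk s hs

/-- the entries of a morphism `𝒪(w) ⟶ F` -/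
noncomputable def ent {w : LG n} {F : Mat_ (LB lam)} (v : OO lam w ⟶ F) (b : F.ι) : S lam :=
  LB.Hom.f (v PUnit.unit b)

/-- a morphism `𝒪(w) ⟶ F` given by its entries -/
noncomputable def mkv {w : LG n} {F : Mat_ (LB lam)} (s : F.ι → S lam)
    (h : ∀ b, s b ∈ piece lam ((F.X b).z - w)) : OO lam w ⟶ F :=
  fun _ b => LB.homMk (s b) (h b)

@[simp] theorem ent_mkv {w : LG n} {F : Mat_ (LB lam)} (s : F.ι → S lam)
    (h : ∀ b, s b ∈ piece lam ((F.X b).z - w)) (b : F.ι) : ent (mkv s h) b = s b := rfl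

theorem ent_mem {w : LG n} {F : Mat_ (LB lam)} (v : OO lam w ⟶ F) (b : F.ι) :
    ent v b ∈ piece lam ((F.X b).z - w) := (v PUnit.unit b).mem

theorem ent_ext {w : LG n} {F : Mat_ (LB lam)} {v v' : OO lam w ⟶ F}
    (h : ∀ b, ent v b = ent v' b) : v = v' := by
  ext i b
  exact h b

theorem ent_mE_comp {w w' : LG n} (s : S lam) (hs : s ∈ piece lam (w' - w)) {F : Mat_ (LB lam)}
    (v : OO lam w' ⟶ F) (b : F.ι) : ent (mE s hs ≫ v) b = s * ent v b := by
  unfold ent
  rw [Mat_.comp_apply]
  simp [mE]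

theorem ent_comp {w : LG n} {F G : Mat_ (LB lam)} (v : OO lam w ⟶ F) (φ : F ⟶ G) (b : G.ι) :
    ent (v ≫ φ) b = ∑ a, ent v a * LB.Hom.f (φ a b) := by
  unfold ent
  rw [Mat_.comp_apply, LB.sum_f]
  rfl

theorem ent_add {w : LG n} {F : Mat_ (LB lam)} (v v' : OO lam w ⟶ F) (b : F.ι) :
    ent (v + v') b = ent v b + ent v' b := rfl

theorem ent_sub {w : LG n} {F : Mat_ (LB lam)} (v v' : OO lam w ⟶ F) (b : F.ι) :
    ent (v - v') b = ent v b - ent v' b := rfl

theorem ent_zero {w : LG n} {F : Mat_ (LB lam)} (b : F.ι) :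
    ent (0 : OO lam w ⟶ F) b = 0 := rfl

/-- (E2) one step -/
theorem exact_step {i j : Fin n} (hij : lam i 0 * lam j 1 ≠ lam j 0 * lam i 1)
    (G : CochainComplex (Mat_ (LB lam)) ℤ) (t : LG n)
    (hgen : ∀ (m : ℤ) (b : (G.X m).ι), ¬ ((((G.X m).X b).z - t).a = 0 ∧
      i ∉ (((G.X m).X b).z - t).I ∧ j ∉ (((G.X m).X b).z - t).I))
    (h₁ : ExactFor (OO lam (t + LG.x i)) G) (h₂ : ExactFor (OO lam (t + LG.x j)) G)
    (h₃ : ExactFor (OO lam (t + LG.x i + LG.x j)) G) : ExactFor (OO lam t) G := by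
  intro a b c hab hbc f hf
  have hj0 : form lam j ≠ 0 := form_ne_zero lam (fun h' => hij h'.symm)
  have hs := fun β => exists_split lam hij (ent_mem f β) (hgen b β)
  choose p hp q hq hpq using hs
  let P : OO lam (t + LG.x i) ⟶ G.X b :=
    mkv p (fun β => mem_piece_of_eq lam (by abel) (hp β))
  let Q : OO lam (t + LG.x j) ⟶ G.X b :=
    mkv q (fun β => mem_piece_of_eq lam (by abel) (hq β))
  have hx₁ : xx lam i ∈ piece lam (t + LG.x i - t) :=
    mem_piece_of_eq lam (by abel) (xx_mem_piece lam i)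
  have hx₂ : xx lam j ∈ piece lam (t + LG.x j - t) :=
    mem_piece_of_eq lam (by abel) (xx_mem_piece lam j)
  have hy₁ : xx lam j ∈ piece lam (t + LG.x i + LG.x j - (t + LG.x i)) :=
    mem_piece_of_eq lam (by abel) (xx_mem_piece lam j)
  have hy₂ : xx lam i ∈ piece lam (t + LG.x i + LG.x j - (t + LG.x j)) :=
    mem_piece_of_eq lam (by abel) (xx_mem_piece lam i)
  have hfPQ : f = mE (xx lam i) hx₁ ≫ P + mE (xx lam j) hx₂ ≫ Q := by
    refine ent_ext fun β => ?_
    rw [ent_add, ent_mE_comp, ent_mE_comp]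
    exact hpq β
  have hK : ∀ γ, xx lam i * ent (P ≫ G.d b c) γ + xx lam j * ent (Q ≫ G.d b c) γ = 0 := by
    intro γ
    have e : ent (f ≫ G.d b c) γ = 0 := by rw [hf]; rfl
    rw [hfPQ, Preadditive.add_comp, Category.assoc, Category.assoc, ent_add, ent_mE_comp, ent_mE_comp] at e
    exact e
  have hK' := fun γ => exists_koszul lam hij (ent_mem (P ≫ G.d b c) γ) (hK γ)
  choose r hr hr₁ hr₂ using hK'
  let R' : OO lam (t + LG.x i + LG.x j) ⟶ G.X c :=
    mkv r (fun γ => mem_piece_of_eq lam (by abel) (hr γ))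
  have hPR : P ≫ G.d b c = mE (xx lam j) hy₁ ≫ R' := by
    refine ent_ext fun γ => ?_
    rw [ent_mE_comp, hr₁]
    rfl
  have hQR : Q ≫ G.d b c = - (mE (xx lam i) hy₂ ≫ R') := by
    refine ent_ext fun γ => ?_
    rw [hr₂, ← zero_sub (mE (xx lam i) hy₂ ≫ R'), ent_sub, ent_mE_comp, ent_zero, zero_sub]
    rfl
  have hRd : R' ≫ G.d c (c + 1) = 0 := by
    refine ent_ext fun ε => ?_
    rw [ent_zero]
    apply xx_mul_cancel lam hj0
    rw [← ent_mE_comp (xx lam j) hy₁, ← Category.assoc, ← hPR, Category.assoc, G.d_comp_d,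
      comp_zero, ent_zero]
  obtain ⟨S', hS'⟩ := h₃ b c (c + 1) hbc rfl R' hRd
  obtain ⟨P'', hP''⟩ := h₁ a b c hab hbc (P - mE (xx lam j) hy₁ ≫ S') (by
    rw [Preadditive.sub_comp, Category.assoc, hS', hPR, sub_self])
  obtain ⟨Q'', hQ''⟩ := h₂ a b c hab hbc (Q + mE (xx lam i) hy₂ ≫ S') (by
    rw [Preadditive.add_comp, Category.assoc, hS', hQR, neg_add_cancel])
  refine ⟨mE (xx lam i) hx₁ ≫ P'' + mE (xx lam j) hx₂ ≫ Q'', ?_⟩
  rw [Preadditive.add_comp, Category.assoc, Category.assoc, hP'', hQ'', hfPQ]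
  refine ent_ext fun β => ?_
  simp only [ent_add, ent_sub, ent_mE_comp]
  ring

/-! ### the induction -/

theorem LG_add_a_nonneg {u v : LG n} (hu : 0 ≤ u.a) (hv : 0 ≤ v.a) : 0 ≤ (u + v).a := by
  rw [LG.add_a]; positivity

theorem sub_two_a {i j : Fin n} (hij : i ≠ j) (u : LG n) :
    (u - LG.x i - LG.x j).a = u.a - (if i ∈ u.I then 0 else 1) - (if j ∈ u.I then 0 else 1) := by
  rw [LG.sub_a, LG.sub_a, LG.sub_I]
  have h1 : ({i} \ u.I : Finset (Fin n)).card = if i ∈ u.I then 0 else 1 := by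
    split_ifs with h
    · rw [Finset.card_eq_zero, Finset.sdiff_eq_empty_iff_subset]; simpa using h
    · rw [Finset.sdiff_eq_self_of_disjoint (by simpa using h)]; rfl
  have h2 : ({j} \ (symmDiff u.I {i}) : Finset (Fin n)).card = if j ∈ u.I then 0 else 1 := by
    have e : j ∈ symmDiff u.I {i} ↔ j ∈ u.I := by
      rw [Finset.mem_symmDiff]
      simp [Ne.symm hij]
    split_ifs with h
    · rw [Finset.card_eq_zero, Finset.sdiff_eq_empty_iff_subset]; simpa [e] using h
    · rw [Finset.sdiff_eq_self_of_disjoint (by simpa [e] using h)]; rfl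
  simp only [LG.x_I, LG.x_a]
  rw [h1, h2]
  split_ifs <;> simp

theorem dg_x (l : Fin n) : LG.dg (LG.x l) = 1 := by
  unfold LG.dg
  rw [LG.x_a, LG.x_I, Finset.card_singleton]
  norm_num

/-- the element `w = x_[n] - 2 c` -/
def LGw (n : ℕ) : LG n := ⟨Finset.univ, -2⟩

theorem gen_cond {i j : Fin n} (hij : i ≠ j) {u y : LG n} (hu : 0 ≤ u.a) (hy : y.a < 0)
    (v : LG n) (hv : v = LGw n + (u + LG.x i + LG.x j) - y) :
    ¬ (v.a = 0 ∧ i ∉ v.I ∧ j ∉ v.I) := by
  rintro ⟨ha, hi, hj⟩
  -- `v = x_M` with `i, j ∉ M`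
  have e1 : v = LG.xs v.I := LG.ext rfl ha
  let N : Finset (Fin n) := (Finset.univ \ v.I) \ {i, j}
  have e2 : LG.xs (Finset.univ : Finset (Fin n)) = LG.xs N + LG.xs v.I + LG.x i + LG.x j := by
    simp only [LG.xs_eq_sum]
    have h1 : (Finset.univ : Finset (Fin n)) = (N ∪ v.I) ∪ {i, j} := by
      ext l
      simp only [N, Finset.mem_univ, Finset.mem_union, Finset.mem_sdiff, Finset.mem_insert,
        Finset.mem_singleton, true_and, true_iff]
      tauto
    rw [h1, Finset.sum_union, Finset.sum_union, Finset.sum_pair hij]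
    · abel
    · rw [Finset.disjoint_left]
      intro l hl
      simp only [N, Finset.mem_sdiff, Finset.mem_univ, true_and] at hl
      exact hl.1
    · rw [Finset.disjoint_left]
      intro l hl hl'
      simp only [Finset.mem_insert, Finset.mem_singleton] at hl'
      rcases Finset.mem_union.1 hl with h | h
      · simp only [N, Finset.mem_sdiff, Finset.mem_insert, Finset.mem_singleton] at h
        exact h.2 hl'
      · rcases hl' with rfl | rfl
        · exact hi h
        · exact hj h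
  have e3 : LGw n = LG.xs (Finset.univ : Finset (Fin n)) - LG.c - LG.c := by
    ext1
    · simp [LGw, LG.sub_I]
    · simp [LGw, LG.sub_a]
  have e4 : y = u + LG.xs N := by
    have h1 : y = LGw n + (u + LG.x i + LG.x j) - v := by rw [hv]; abel
    rw [h1, e3, e2]
    conv_lhs => rw [e1]
    simp only [LG.xs_I]
    have h2 : LG.x i + LG.x i = (LG.c : LG n) := LG.two_x i
    have h3 : LG.x j + LG.x j = (LG.c : LG n) := LG.two_x j
    calc LG.xs N + LG.xs v.I + LG.x i + LG.x j - LG.c - LG.c + (u + LG.x i + LG.x j) - LG.xs v.I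
        = u + LG.xs N + (LG.x i + LG.x i) + (LG.x j + LG.x j) - LG.c - LG.c := by abel
      _ = u + LG.xs N := by rw [h2, h3]; abel
  have : 0 ≤ y.a := by
    rw [e4]
    exact LG_add_a_nonneg hu (by simp)
  omega

/-- **(E)**, in terms of `w + u`, `u ≥ 0` -/
theorem exact_aux_E (hlam : ∀ i j : Fin n, i ≠ j → lam i 0 * lam j 1 ≠ lam j 0 * lam i 1)
    (hn : 2 ≤ n) (G : CochainComplex (Mat_ (LB lam)) ℤ)
    (hgen : ∀ (m : ℤ) (b : (G.X m).ι), (-((G.X m).X b).z).a < 0)
    (hex : ∀ z : LG n, z.a < 0 → ExactFor (OO lam (-z)) G) (d : ℕ) :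
    ∀ u : LG n, 0 ≤ u.a → LG.dg u = d → ExactFor (OO lam (-(LGw n + u))) G := by
  induction d using Nat.strong_induction_on with
  | _ d ih =>
    intro u hu hd
    by_cases hpair : ∃ i j : Fin n, i ≠ j ∧ 0 ≤ (u - LG.x i - LG.x j).a
    · obtain ⟨i, j, hij, hu'⟩ := hpair
      set u' := u - LG.x i - LG.x j with hu'def
      have hu2 : u = u' + LG.x i + LG.x j := by rw [hu'def]; abel
      have hdx : ∀ l : Fin n, LG.dg (LG.x l) = 1 := dg_x
      have hd' : LG.dg u = LG.dg u' + 1 + 1 := by
        rw [hu2, LG.dg_add, LG.dg_add, hdx, hdx]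
      have hdg0 : 0 ≤ LG.dg u' := by unfold LG.dg; omega
      obtain ⟨e, he⟩ := Int.eq_ofNat_of_zero_le hdg0
      have hx0 : ∀ l : Fin n, (0 : ℤ) ≤ (LG.x l : LG n).a := fun l => by simp
      have h₃ := ih e (by omega) u' hu' he
      have h₂ := ih (e + 1) (by omega) (u' + LG.x i) (LG_add_a_nonneg hu' (hx0 i))
        (by rw [LG.dg_add, hdx, he]; push_cast; ring)
      have h₁ := ih (e + 1) (by omega) (u' + LG.x j) (LG_add_a_nonneg hu' (hx0 j))
        (by rw [LG.dg_add, hdx, he]; push_cast; ring)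
      refine exact_step (hlam i j hij) G (-(LGw n + u)) (fun m b => ?_) ?_ ?_ ?_
      · refine gen_cond hij hu' (hgen m b) _ ?_
        rw [hu2]; abel
      · convert h₁ using 2
        rw [hu2]; abel
      · convert h₂ using 2
        rw [hu2]; abel
      · convert h₃ using 2
        rw [hu2]; abel
    · push Not at hpair
      apply hex
      rw [LG.add_a]
      have hI : (LGw n).I ∩ u.I = u.I := Finset.univ_inter _
      rw [hI]
      change -2 + u.a + (u.I.card : ℤ) < 0
      -- at least two elements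
      have h01 : (⟨0, by omega⟩ : Fin n) ≠ ⟨1, by omega⟩ := by simp [Fin.ext_iff]
      rcases Nat.lt_or_ge u.I.card 2 with hc | hc
      · rcases Nat.lt_or_ge u.I.card 1 with hc' | hc'
        · have hI0 : u.I = ∅ := Finset.card_eq_zero.1 (by omega)
          have := hpair _ _ h01
          rw [sub_two_a h01, hI0] at this
          simp at this
          omega
        · obtain ⟨i, hi⟩ := Finset.card_eq_one.1 (show u.I.card = 1 by omega)
          obtain ⟨j, hj⟩ : ∃ j, j ≠ i := by
            by_cases h : i = ⟨0, by omega⟩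
            · exact ⟨⟨1, by omega⟩, by rw [h]; exact h01.symm⟩
            · exact ⟨_, fun h' => h h'.symm⟩
          have := hpair _ _ hj
          rw [sub_two_a hj, hi] at this
          simp [hj] at this
          omega
      · exfalso
        obtain ⟨i, hi, j, hj, hij⟩ := Finset.one_lt_card.1 (show 1 < u.I.card by omega)
        have := hpair _ _ hij
        rw [sub_two_a hij, if_pos hi, if_pos hj] at this
        omega

end DEx

open DEx

universe u

variable {k : Type u} [Field k] {n : ℕ} {lam : Fin n → Fin 2 → k}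

/-- **(E)** exactness claim: if all summands of all `G.X m` are `P y` with `y` not `≥ 0`, and
`Hom (P z, G)` is exact for all `z` which are not `≥ 0`, then `Hom (P z, G)` is exact for all
`z ≥ x_[n] - 2 c`, that is `n - 2 ≤ z.a + |z.I|`. -/
theorem exact_E' (hl : Indep lam) (hn : 2 ≤ n) (G : CochainComplex (Mat_ (LB lam)) ℤ)
    (hG : TermsIn clB (fun _ => True) G) (h : ∀ Y, clB Y → ExactFor (emb Y) G)
    (Y : LB lam) (hY : (n : ℤ) ≤ (-Y.z).a + (-Y.z).I.card + 2) : ExactFor (emb Y) G := by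
  have h0 : 0 ≤ (-Y.z - LGw n).a := by
    rw [LG.sub_a]
    have h1 := Finset.card_sdiff_add_card_inter (LGw n).I (-Y.z).I
    have h2 : (LGw n).I ∩ (-Y.z).I = (-Y.z).I := Finset.univ_inter _
    have h3 : (LGw n).I.card = n := by simp [LGw]
    rw [h2, h3] at h1
    have h4 : (LGw n).a = -2 := rfl
    rw [h4]
    omega
  have h2 : 0 ≤ LG.dg (-Y.z - LGw n) := by unfold LG.dg; omega
  have h5 := exact_aux_E hl hn G (fun m b => not_le.1 (hG m trivial b))
    (fun z hz => h ⟨-z⟩ (by
      change ¬ (0 ≤ (- -z).a)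
      rw [neg_neg]
      exact not_le.2 hz)) (LG.dg (-Y.z - LGw n)).toNat (-Y.z - LGw n) h0 (by omega)
  have e : -(LGw n + (-Y.z - LGw n)) = Y.z := by abel
  rw [e] at h5
  exact h5

/-- **(E)** a complex with all terms in the class `B` and exact on the class `B` is exact on the
class `A`. -/
theorem exact_E (hl : Indep lam) (hn : 3 ≤ n) (G : CochainComplex (Mat_ (LB lam)) ℤ)
    (hG : TermsIn clB (fun _ => True) G) (h : ∀ Y, clB Y → ExactFor (emb Y) G)
    (Y : LB lam) (hY : clA Y) : ExactFor (emb Y) G :=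
  exact_E' hl (by omega) G hG h Y hY.2

end Lens
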