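import Pool.Agent.Lens.Bdd

/-!
# Bounded complexes and the triangulated envelope of the objects
-/

set_option autoImplicit false

open CategoryTheory CategoryTheory.Limits CategoryTheory.Pretriangulated

namespace Lens

universe v u

variable {𝓐 : Type u} [Category.{v} 𝓐] [Preadditive 𝓐]

/-- the objects of the class `c`, in degree `0` -/
def gensOf (c : 𝓐 → Prop) : ObjectProperty (HomotopyCategory (Mat_ 𝓐) (ComplexShape.up ℤ)) :=
  fun Y => ∃ X, c X ∧ Y = (Tw.single X).toK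

theorem gensOf_nonempty {c : 𝓐 → Prop} (hc : ∃ X, c X) : (gensOf c).Nonempty := by
  obtain ⟨X, hX⟩ := hc
  exact ⟨⟨_, X, hX, rfl⟩⟩

/-- A bounded complex of sums of objects of the class `c` lies in the triangulated envelope. -/
theorem mem_triangEnvelope {c : 𝓐 → Prop} (hc : ∃ X, c X) (Z : CochainComplex (Mat_ 𝓐) ℤ)
    (N : ℤ) (h0 : ∀ m, (m < -N ∨ N < m) → IsEmpty (Z.X m).ι)
    (h1 : ∀ m (i : (Z.X m).ι), c ((Z.X m).X i)) :
    (gensOf c).triangEnvelope
      ((HomotopyCategory.quotient (Mat_ 𝓐) (ComplexShape.up ℤ)).obj Z) := by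
  have := gensOf_nonempty hc
  refine Tw.mem_of_bdd (X := Z) (N := N.toNat) (fun m hm => h0 m ?_) _ fun m i => ?_
  · omega
  · exact (gensOf c).le_triangEnvelope _ ⟨_, h1 m i, rfl⟩

/-- the object `x` in degree `0` -/
noncomputable def embIso (x : 𝓐) : (Mat_.embedding 𝓐).obj x ≅ (Tw.single x).obj 0 where
  hom := (fun i j => sel (fun _ : Unit => x) (fun _ : PUnit => ())
    (fun _ : {i : Unit // (0 : ℤ) = 0} => ()) i j :
    Mat_.mk PUnit (fun _ => x) ⟶ (Tw.single x).obj 0)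
  inv := (fun i j => sel (fun _ : Unit => x) (fun _ : {i : Unit // (0 : ℤ) = 0} => ())
    (fun _ : PUnit => ()) i j :
    (Tw.single x).obj 0 ⟶ Mat_.mk PUnit (fun _ => x))
  hom_inv_id := by
    refine Eq.trans ?_ (sel_self (P := fun _ : Unit => x) (fun _ : PUnit => ())
      (fun _ _ _ => rfl))
    ext i j
    exact sel_comp (P := fun _ : Unit => x) (fun _ : PUnit => ())
      (fun _ : {i : Unit // (0 : ℤ) = 0} => ()) (fun _ : PUnit => ())
      (fun _ _ _ => Subtype.ext rfl) i j (fun _ => ⟨⟨(), rfl⟩, rfl⟩)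
  inv_hom_id := by
    refine Eq.trans ?_ (sel_self (P := fun _ : Unit => x)
      (fun _ : {i : Unit // (0 : ℤ) = 0} => ()) (fun _ _ _ => Subtype.ext rfl))
    ext i j
    exact sel_comp (P := fun _ : Unit => x) (fun _ : {i : Unit // (0 : ℤ) = 0} => ())
      (fun _ : PUnit => ()) (fun _ : {i : Unit // (0 : ℤ) = 0} => ())
      (fun _ _ _ => rfl) i j (fun _ => ⟨PUnit.unit, rfl⟩)

theorem isZero_of_isEmpty (M : Mat_ 𝓐) [IsEmpty M.ι] : IsZero M := by
  rw [IsZero.iff_id_eq_zero]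
  ext i j
  exact isEmptyElim i

theorem single_X_isEmpty (x : 𝓐) {m : ℤ} (hm : m ≠ 0) : IsEmpty ((Tw.single x).toCpx.X m).ι :=
  ⟨fun i => hm (show (0 : ℤ) = m from i.2).symm⟩

/-- a complex concentrated in degree `0` -/
theorem nonempty_iso_single (x : 𝓐) (Z : CochainComplex (Mat_ 𝓐) ℤ)
    (h0 : ∀ m, m ≠ 0 → IsZero (Z.X m)) (e : Z.X 0 ≅ (Mat_.embedding 𝓐).obj x) :
    Nonempty ((HomotopyCategory.quotient (Mat_ 𝓐) (ComplexShape.up ℤ)).obj Z ≅
      (Tw.single x).toK) := by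
  classical
  have h1 : ∀ m, m ≠ 0 → IsZero ((Tw.single x).toCpx.X m) := fun m hm => by
    have := single_X_isEmpty x hm
    exact isZero_of_isEmpty _
  refine ⟨(HomotopyCategory.quotient (Mat_ 𝓐) (ComplexShape.up ℤ)).mapIso
    (HomologicalComplex.Hom.isoOfComponents (fun m => if h : m = 0 then
      Z.XIsoOfEq h ≪≫ e ≪≫ embIso x ≪≫ ((Tw.single x).toCpx.XIsoOfEq h).symm
      else (h0 m h).iso (h1 m h)) ?_)⟩
  intro m m' hm
  have hm' : m + 1 = m' := hm
  have e1 : Z.d m m' = 0 := by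
    by_cases h : m = 0
    · exact (h0 m' (by omega)).eq_of_tgt _ _
    · exact (h0 m h).eq_of_src _ _
  have e2 : (Tw.single x).toCpx.d m m' = 0 := by
    by_cases h : m = 0
    · exact (h1 m' (by omega)).eq_of_tgt _ _
    · exact (h1 m h).eq_of_src _ _
  rw [e1, e2, comp_zero, zero_comp]

end Lens
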