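import Mathlib
import Pool.Agent.Lens.TwistA
import Pool.Agent.Lens.DCut

/-!
# Truncation by classes of objects on the homotopy category, and a bijectivity criterion
-/

open CategoryTheory CategoryTheory.Limits CategoryTheory.Preadditive
open CategoryTheory.Pretriangulated

namespace Lens

open Pool.Agent.Lens

universe w v u

/-! ### the abstract criterion -/

section

variable {C : Type u} [Category.{v} C] [HasZeroObject C] [HasShift C ℤ] [Preadditive C]
  [∀ n : ℤ, (shiftFunctor C n).Additive] [Pretriangulated C]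

theorem HZ.shift_left' {X Y : C} (h : HZ X Y) : ∀ f : X⟦(1 : ℤ)⟧ ⟶ Y, f = 0 := by
  intro f
  exact (HZ.shift_left h 1).zero₀ f

/-- The criterion: `F` and `P` are functors with natural maps `τ : X ⟶ P X`, `σ : F X ⟶ P X`, which
have `HZ`-small (co)fibres. -/
theorem bij_of_triangles (F P : C ⥤ C) [F.Additive] [P.Additive] (τ : 𝟭 C ⟶ P) (σ : F ⟶ P)
    (X Y : C)
    {BX BY AX AY : C} (bX : BX ⟶ X) (dX : P.obj X ⟶ BX⟦(1 : ℤ)⟧)
    (hX : Triangle.mk bX (τ.app X) dX ∈ distTriang C)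
    (bY : BY ⟶ Y) (dY : P.obj Y ⟶ BY⟦(1 : ℤ)⟧)
    (hY : Triangle.mk bY (τ.app Y) dY ∈ distTriang C)
    (qX : P.obj X ⟶ AX) (eX : AX ⟶ (F.obj X)⟦(1 : ℤ)⟧)
    (hAX : Triangle.mk (σ.app X) qX eX ∈ distTriang C)
    (qY : P.obj Y ⟶ AY) (eY : AY ⟶ (F.obj Y)⟦(1 : ℤ)⟧)
    (hAY : Triangle.mk (σ.app Y) qY eY ∈ distTriang C)
    (v1 : HZ X BY) (v2 : HZ AX (P.obj Y)) (v3 : HZ BX (P.obj Y)) (v4 : HZ (F.obj X) AY) :
    Function.Bijective (F.map : (X ⟶ Y) → (F.obj X ⟶ F.obj Y)) := by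
  have nτ : ∀ f : X ⟶ Y, f ≫ τ.app Y = τ.app X ≫ P.map f := fun f => τ.naturality f
  have nσ : ∀ f : X ⟶ Y, F.map f ≫ σ.app Y = σ.app X ≫ P.map f := fun f => σ.naturality f
  -- precomposition with `τ_X` is injective
  have i3 : ∀ h : P.obj X ⟶ P.obj Y, τ.app X ≫ h = 0 → h = 0 := by
    intro h hh
    obtain ⟨g, hg⟩ := Triangle.yoneda_exact₃ _ hX h hh
    exact hg.trans ((congrArg (dX ≫ ·) (HZ.shift_left' v3 g)).trans comp_zero)
  -- precomposition with `σ_X` is injective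
  have i2 : ∀ h : P.obj X ⟶ P.obj Y, σ.app X ≫ h = 0 → h = 0 := by
    intro h hh
    obtain ⟨g, hg⟩ := Triangle.yoneda_exact₂ _ hAX h hh
    exact hg.trans ((congrArg (qX ≫ ·) (v2.zero₀ g)).trans comp_zero)
  -- postcomposition with `τ_Y` is injective
  have i1 : ∀ f : X ⟶ Y, f ≫ τ.app Y = 0 → f = 0 := by
    intro f hf
    obtain ⟨g, hg⟩ := Triangle.coyoneda_exact₂ _ hY f hf
    exact hg.trans ((congrArg (· ≫ bY) (v1.zero₀ g)).trans zero_comp)
  -- postcomposition with `σ_Y` is injective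
  have i4 : ∀ g : F.obj X ⟶ F.obj Y, g ≫ σ.app Y = 0 → g = 0 := by
    intro g hg
    obtain ⟨g', hg'⟩ := Triangle.coyoneda_exact₂ _ (inv_rot_of_distTriang _ hAY) g hg
    exact hg'.trans ((congrArg (· ≫ _) (v4 (-1) g')).trans zero_comp)
  constructor
  · intro f f' hff
    have h0 : F.map (f - f') = 0 := by rw [F.map_sub, hff, sub_self]
    have h1 : P.map (f - f') = 0 := i2 _ (by rw [← nσ, h0, zero_comp])
    exact sub_eq_zero.1 (i1 _ (by rw [nτ, h1, comp_zero]))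
  · intro g
    obtain ⟨h, hh⟩ : ∃ h : P.obj X ⟶ P.obj Y, σ.app X ≫ h = g ≫ σ.app Y :=
      con₁ _ hAX (g ≫ σ.app Y) (v2 1 _)
    obtain ⟨f, hf⟩ : ∃ f : X ⟶ Y, τ.app X ≫ h = f ≫ τ.app Y :=
      Triangle.coyoneda_exact₃ _ hY (X := X) (τ.app X ≫ h) (v1 1 _)
    have h1 : P.map f = h := by
      rw [← sub_eq_zero]
      exact i3 _ (by rw [Preadditive.comp_sub, ← nτ, hf, sub_self])
    refine ⟨f, ?_⟩
    rw [← sub_eq_zero]
    exact i4 _ (by rw [Preadditive.sub_comp, nσ, h1, hh, sub_self])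

end

/-! ### the functors -/

section

variable {𝓐 : Type u} [Category.{v} 𝓐] [Preadditive 𝓐]

/-- `X_S` in the homotopy category -/
noncomputable abbrev RK (S : 𝓐 → Prop) (hS : Conv S) :
    HomotopyCategory (Mat_ 𝓐) (ComplexShape.up ℤ) ⥤
      HomotopyCategory (Mat_ 𝓐) (ComplexShape.up ℤ) :=
  (resF S hS).mapHomotopyCategory (ComplexShape.up ℤ)

theorem Conv.cutOK {S : 𝓐 → Prop} (hS : Conv S) : CutOK (fun _ : ℤ => S) :=
  fun _ _ _ _ f g hx hy hz => hS f g hx hy hz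

theorem RK_obj (S : 𝓐 → Prop) (hS : Conv S) (X : CochainComplex (Mat_ 𝓐) ℤ) :
    (RK S hS).obj ((HomotopyCategory.quotient _ _).obj X) =
      (HomotopyCategory.quotient _ _).obj (cutC X (fun _ => S) hS.cutOK) := rfl

/-- the natural transformation -/
noncomputable abbrev nK {S S' : 𝓐 → Prop} (hS : Conv S) (hS' : Conv S') (h : NatCond S S') :
    RK S hS ⟶ RK S' hS' :=
  NatTrans.mapHomotopyCategory (resNat S S' hS hS' h) (ComplexShape.up ℤ)

theorem NatCond.mapOK {S S' : 𝓐 → Prop} (h : NatCond S S') :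
    MapOK (fun _ : ℤ => S) (fun _ => S') := by
  rintro m x y f hx hy (h' | h')
  · exact h.1 f hx hy h'
  · exact h.2 f hx hy h'

theorem nK_app {S S' : 𝓐 → Prop} (hS : Conv S) (hS' : Conv S') (h : NatCond S S')
    (X : CochainComplex (Mat_ 𝓐) ℤ) :
    (nK hS hS' h).app ((HomotopyCategory.quotient _ _).obj X) =
      (HomotopyCategory.quotient _ _).map
        (cutMap X (fun _ => S) (fun _ => S') hS.cutOK hS'.cutOK h.mapOK) := rfl

end

end Lens
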