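import Pool.Agent.Lens.Cls

/-!
# Removing one element of a finite complex

Matrices of partial identities, the degreewise split sequence `A ∖ t → A → P_t`, and the
consequence that `A` lies in every triangulated subcategory which contains its terms.
-/

set_option autoImplicit false
set_option linter.unusedSectionVars false

open CategoryTheory CategoryTheory.Limits CategoryTheory.Pretriangulated

namespace Lens

universe v u

variable {𝓐 : Type u} [Category.{v} 𝓐] [Preadditive 𝓐]

section Sel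

variable {ι : Type} (P : ι → 𝓐) {I J K : Type} [Fintype I] [Fintype J] [Fintype K]

open scoped Classical in
/-- the matrix of a partial identity -/
noncomputable def sel (a : I → ι) (b : J → ι) (i : I) (j : J) : P (a i) ⟶ P (b j) :=
  if h : a i = b j then eqToHom (congrArg P h) else 0

variable {P}

theorem sel_of_eq {a : I → ι} {b : J → ι} {i : I} {j : J} (h : a i = b j) :
    sel P a b i j = eqToHom (congrArg P h) := dif_pos h

theorem sel_of_ne {a : I → ι} {b : J → ι} {i : I} {j : J} (h : a i ≠ b j) :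
    sel P a b i j = 0 := dif_neg h

theorem sum_sel (a : I → ι) (b : J → ι) (hb : Function.Injective b) {Q : 𝓐}
    (F : ∀ x, P x ⟶ Q) (i : I) (j : J) (h : a i = b j) :
    ∑ l, sel P a b i l ≫ F (b l) = F (a i) := by
  rw [Finset.sum_eq_single j]
  · rw [sel_of_eq h]
    generalize b j = y at h
    subst h
    simp
  · intro l _ hl
    rw [sel_of_ne (fun h' => hl (hb (h'.symm.trans h))), zero_comp]
  · intro h'
    exact absurd (Finset.mem_univ _) h'

theorem sum_sel_zero (a : I → ι) (b : J → ι) {Q : 𝓐} (F : ∀ x, P x ⟶ Q) (i : I)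
    (h : ∀ j, a i = b j → F (b j) = 0) : ∑ l, sel P a b i l ≫ F (b l) = 0 := by
  refine Finset.sum_eq_zero fun l _ => ?_
  by_cases h1 : a i = b l
  · rw [h l h1, comp_zero]
  · rw [sel_of_ne h1, zero_comp]

theorem sum_sel' (a : I → ι) (b : J → ι) (ha : Function.Injective a) {Q : 𝓐}
    (F : ∀ x, Q ⟶ P x) (i : I) (j : J) (h : a i = b j) :
    ∑ l, F (a l) ≫ sel P a b l j = F (b j) := by
  rw [Finset.sum_eq_single i]
  · rw [sel_of_eq h]
    generalize b j = y at h
    subst h
    simp
  · intro l _ hl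
    rw [sel_of_ne (fun h' => hl (ha (h'.trans h.symm))), comp_zero]
  · intro h'
    exact absurd (Finset.mem_univ _) h'

theorem sum_sel_zero' (a : I → ι) (b : J → ι) {Q : 𝓐} (F : ∀ x, Q ⟶ P x) (j : J)
    (h : ∀ i, a i = b j → F (a i) = 0) : ∑ l, F (a l) ≫ sel P a b l j = 0 := by
  refine Finset.sum_eq_zero fun l _ => ?_
  by_cases h1 : a l = b j
  · rw [h l h1, zero_comp]
  · rw [sel_of_ne h1, comp_zero]

/-- composition of partial identities -/
theorem sel_comp (a : I → ι) (b : J → ι) (c : K → ι) (hb : Function.Injective b) (i : I) (k : K)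
    (h : a i = c k → ∃ j, a i = b j) :
    ∑ l, sel P a b i l ≫ sel P b c l k = sel P a c i k := by
  by_cases h1 : a i = c k
  · obtain ⟨j, hj⟩ := h h1
    rw [Finset.sum_eq_single j]
    · rw [sel_of_eq hj, sel_of_eq (hj.symm.trans h1), sel_of_eq h1, eqToHom_trans]
    · intro l _ hl
      rw [sel_of_ne (fun h' => hl (hb (h'.symm.trans hj))), zero_comp]
    · intro h'
      exact absurd (Finset.mem_univ _) h'
  · rw [sel_of_ne h1]
    refine Finset.sum_eq_zero fun l _ => ?_
    by_cases h2 : a i = b l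
    · rw [sel_of_ne (a := b) (b := c) (fun h' => h1 (h2.trans h')), comp_zero]
    · rw [sel_of_ne h2, zero_comp]

theorem sel_comp_zero (a : I → ι) (b : J → ι) (c : K → ι) (i : I) (k : K)
    (h : ∀ j, a i = b j → b j ≠ c k) :
    ∑ l, sel P a b i l ≫ sel P b c l k = 0 := by
  refine Finset.sum_eq_zero fun l _ => ?_
  by_cases h2 : a i = b l
  · rw [sel_of_ne (a := b) (b := c) (h l h2), comp_zero]
  · rw [sel_of_ne h2, zero_comp]

theorem sel_self (a : I → ι) (ha : Function.Injective a) :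
    (fun i j => sel P a a i j : (Mat_.mk I (fun i => P (a i)) ⟶ Mat_.mk I (fun i => P (a i)))) =
      𝟙 (Mat_.mk I (fun i => P (a i))) := by
  ext i j
  by_cases h : i = j
  · subst h
    rw [sel_of_eq rfl, Mat_.id_apply_self]
    rfl
  · rw [sel_of_ne (fun h' => h (ha h')), Mat_.id_apply_of_ne _ _ _ h]

end Sel

namespace Tw

/-- remove an element without incoming arrows -/
noncomputable def erase (A : Tw 𝓐) (t : A.ι) (ht : ∀ i, A.D i t = 0) : Tw 𝓐 where
  ι := {i : A.ι // i ≠ t}
  fin := by classical exact inferInstance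
  deg i := A.deg i.1
  P i := A.P i.1
  D i j := A.D i.1 j.1
  D_deg i j h := A.D_deg _ _ h
  D_D i j := by
    classical
    rw [← A.D_D i.1 j.1]
    refine Finset.sum_bij_ne_zero (fun l _ _ => l.1) (fun _ _ _ => Finset.mem_univ _)
      (fun _ _ _ _ _ _ h => Subtype.ext h) ?_ (fun _ _ _ => rfl)
    intro l _ hl
    have h1 : l ≠ t := by
      rintro rfl
      exact hl (by rw [ht, zero_comp])
    exact ⟨⟨l, h1⟩, Finset.mem_univ _, hl, rfl⟩

variable (A : Tw 𝓐) (t : A.ι) (ht : ∀ i, A.D i t = 0)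

/-- index map of the degree `n` part of `A` -/
def ia (n : ℤ) (i : (A.toCpx.X n).ι) : A.ι := i.1

/-- index map of the degree `n` part of `A ∖ t` -/
def ie (n : ℤ) (i : ((A.erase t ht).toCpx.X n).ι) : A.ι := i.1.1

/-- index map of the degree `n` part of the shift of `P_t` -/
def it (n : ℤ) (_ : (((single (A.P t)).toCpx⟦- A.deg t⟧).X n).ι) : A.ι := t

theorem ia_inj (n : ℤ) : Function.Injective (A.ia n) := fun _ _ h => Subtype.ext h

theorem ie_inj (n : ℤ) : Function.Injective (A.ie t ht n) :=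
  fun _ _ h => Subtype.ext (Subtype.ext h)

theorem it_inj (n : ℤ) : Function.Injective (A.it t n) :=
  fun _ _ _ => Subtype.ext rfl

theorem ia_deg (n : ℤ) (i : (A.toCpx.X n).ι) : A.deg (A.ia n i) = n := i.2

theorem ie_deg (n : ℤ) (i : ((A.erase t ht).toCpx.X n).ι) : A.deg (A.ie t ht n i) = n := i.2

theorem it_deg (n : ℤ) (i : (((single (A.P t)).toCpx⟦- A.deg t⟧).X n).ι) : A.deg t = n := by
  have h : (0 : ℤ) = n + - A.deg t := i.2
  omega

theorem ie_ne (n : ℤ) (i : ((A.erase t ht).toCpx.X n).ι) : A.ie t ht n i ≠ t := i.1.2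

theorem exists_ia (n : ℤ) (x : A.ι) (h : A.deg x = n) : ∃ i, x = A.ia n i := ⟨⟨x, h⟩, rfl⟩

theorem exists_ie (n : ℤ) (x : A.ι) (h : A.deg x = n) (hx : x ≠ t) :
    ∃ i, x = A.ie t ht n i := ⟨⟨⟨x, hx⟩, h⟩, rfl⟩

theorem exists_it (n : ℤ) (h : A.deg t = n) : Nonempty (((single (A.P t)).toCpx⟦- A.deg t⟧).X n).ι :=
  ⟨⟨(), by show (0 : ℤ) = n + - A.deg t; omega⟩⟩

/-- the inclusion `A ∖ t → A` -/
noncomputable def inclE : (A.erase t ht).toCpx ⟶ A.toCpx where
  f n := (fun i j => sel A.P (A.ie t ht n) (A.ia n) i j :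
    (A.erase t ht).toCpx.X n ⟶ A.toCpx.X n)
  comm' n m h := by
    ext i j
    rw [Mat_.comp_apply, Mat_.comp_apply]
    have h1 := sum_sel (P := A.P) (A.ie t ht n) (A.ia n) (A.ia_inj n)
      (fun x => A.D x (A.ia m j)) i ⟨A.ie t ht n i, A.ie_deg t ht n i⟩ rfl
    refine h1.trans ?_
    by_cases hj : A.ia m j = t
    · have h2 := sum_sel_zero' (P := A.P) (A.ie t ht m) (A.ia m)
        (fun x => A.D (A.ie t ht n i) x) j (fun l hl => absurd (hl.trans hj) (A.ie_ne t ht m l))
      refine Eq.trans ?_ h2.symm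
      rw [hj, ht]
    · obtain ⟨l, hl⟩ := A.exists_ie t ht m (A.ia m j) (A.ia_deg m j) hj
      exact (sum_sel' (P := A.P) (A.ie t ht m) (A.ia m) (A.ie_inj t ht m)
        (fun x => A.D (A.ie t ht n i) x) l j hl.symm).symm

/-- the projection `A → P_t⟦-deg t⟧` -/
noncomputable def projE : A.toCpx ⟶ (single (A.P t)).toCpx⟦- A.deg t⟧ where
  f n := (fun i j => sel A.P (A.ia n) (A.it t n) i j :
    A.toCpx.X n ⟶ ((single (A.P t)).toCpx⟦- A.deg t⟧).X n)
  comm' n m h := by
    have hd : ((single (A.P t)).toCpx⟦- A.deg t⟧).d n m = 0 := by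
      rw [CochainComplex.shiftFunctor_obj_d']
      ext i j
      exact smul_zero (A := (A.P t ⟶ A.P t)) (- A.deg t).negOnePow
    rw [hd, comp_zero]
    ext i j
    rw [Mat_.comp_apply]
    have h2 := sum_sel_zero' (P := A.P) (A.ia m) (A.it t m) (fun x => A.D (A.ia n i) x) j
      (fun l hl => by rw [hl]; exact ht _)
    exact h2.symm

theorem incl_proj : A.inclE t ht ≫ A.projE t ht = 0 := by
  ext n i j
  rw [HomologicalComplex.comp_f, Mat_.comp_apply]
  exact sel_comp_zero (P := A.P) (A.ie t ht n) (A.ia n) (A.it t n) i j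
    (fun l hl h => A.ie_ne t ht n i (hl.trans h))

/-- the short complex -/
noncomputable def scE : ShortComplex (CochainComplex (Mat_ 𝓐) ℤ) :=
  ShortComplex.mk (A.inclE t ht) (A.projE t ht) (A.incl_proj t ht)

/-- the splitting in degree `n` -/
noncomputable def splE (n : ℤ) :
    ((A.scE t ht).map (HomologicalComplex.eval (Mat_ 𝓐) _ n)).Splitting where
  r := (fun i j => sel A.P (A.ia n) (A.ie t ht n) i j :
    A.toCpx.X n ⟶ (A.erase t ht).toCpx.X n)
  s := (fun i j => sel A.P (A.it t n) (A.ia n) i j :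
    ((single (A.P t)).toCpx⟦- A.deg t⟧).X n ⟶ A.toCpx.X n)
  f_r := by
    refine Eq.trans ?_ (sel_self (P := A.P) (A.ie t ht n) (A.ie_inj t ht n))
    ext i j
    exact sel_comp (P := A.P) (A.ie t ht n) (A.ia n) (A.ie t ht n) (A.ia_inj n) i j
      (fun _ => A.exists_ia n _ (A.ie_deg t ht n i))
  s_g := by
    refine Eq.trans ?_ (sel_self (P := A.P) (A.it t n) (A.it_inj t n))
    ext i j
    exact sel_comp (P := A.P) (A.it t n) (A.ia n) (A.it t n) (A.ia_inj n) i j
      (fun _ => A.exists_ia n _ (A.it_deg t n i))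
  id := by
    refine Eq.trans ?_ (sel_self (P := A.P) (A.ia n) (A.ia_inj n))
    ext i j
    change (∑ l, sel A.P (A.ia n) (A.ie t ht n) i l ≫ sel A.P (A.ie t ht n) (A.ia n) l j) +
      (∑ l, sel A.P (A.ia n) (A.it t n) i l ≫ sel A.P (A.it t n) (A.ia n) l j) =
        sel A.P (A.ia n) (A.ia n) i j
    by_cases hi : A.ia n i = t
    · rw [sel_comp_zero (P := A.P) (A.ia n) (A.ie t ht n) (A.ia n) i j
        (fun l hl => absurd (hl.symm.trans hi) (A.ie_ne t ht n l)), zero_add]
      obtain ⟨l⟩ := A.exists_it t n (hi ▸ A.ia_deg n i)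
      exact sel_comp (P := A.P) (A.ia n) (A.it t n) (A.ia n) (A.it_inj t n) i j
        (fun _ => ⟨l, hi⟩)
    · rw [sel_comp_zero (P := A.P) (A.ia n) (A.it t n) (A.ia n) i j
        (fun l hl => absurd hl hi), add_zero]
      exact sel_comp (P := A.P) (A.ia n) (A.ie t ht n) (A.ia n) (A.ie_inj t ht n) i j
        (fun _ => A.exists_ie t ht n _ (A.ia_deg n i) hi)


/-- the distinguished triangle `A ∖ t → A → P_t⟦-deg t⟧ →` in the homotopy category -/
theorem triangle_proj :
    ∃ w : (single (A.P t)).toK⟦- A.deg t⟧ ⟶ (A.erase t ht).toK⟦(1 : ℤ)⟧,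
      Triangle.mk ((HomotopyCategory.quotient (Mat_ 𝓐) (ComplexShape.up ℤ)).map (A.inclE t ht))
        ((HomotopyCategory.quotient (Mat_ 𝓐) (ComplexShape.up ℤ)).map (A.projE t ht) ≫
          ((HomotopyCategory.quotient (Mat_ 𝓐) (ComplexShape.up ℤ)).commShiftIso
            (- A.deg t)).hom.app (single (A.P t)).toCpx) w ∈ distTriang _ := by
  have h := (HomotopyCategory.distinguished_iff_iso_trianglehOfDegreewiseSplit
    (CochainComplex.trianglehOfDegreewiseSplit (A.scE t ht) (A.splE t ht))).2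
      ⟨_, _, ⟨Iso.refl _⟩⟩
  refine ⟨((HomotopyCategory.quotient (Mat_ 𝓐) (ComplexShape.up ℤ)).commShiftIso
            (- A.deg t)).inv.app (single (A.P t)).toCpx ≫
      (CochainComplex.trianglehOfDegreewiseSplit (A.scE t ht) (A.splE t ht)).mor₃, ?_⟩
  refine isomorphic_distinguished _ h _ (Triangle.isoMk _ _ (Iso.refl _) (Iso.refl _)
    (((HomotopyCategory.quotient (Mat_ 𝓐) (ComplexShape.up ℤ)).commShiftIso
            (- A.deg t)).symm.app (single (A.P t)).toCpx) ?_ ?_ ?_)
  · exact (Category.comp_id _).trans (Category.id_comp _).symm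
  · refine (Category.assoc _ _ _).trans ?_
    refine Eq.trans ?_ (Category.id_comp _).symm
    refine Eq.trans (congrArg (_ ≫ ·) ?_) (Category.comp_id _)
    exact Iso.hom_inv_id_app _ _
  · refine Eq.trans (congrArg (_ ≫ ·) (CategoryTheory.Functor.map_id _ _)) (Category.comp_id _)

/-- an empty complex is a zero object of the homotopy category -/
theorem isZero_toK (A : Tw 𝓐) [IsEmpty A.ι] : IsZero A.toK := by
  have h : IsZero A.toCpx := by
    rw [IsZero.iff_id_eq_zero]
    ext n i j
    exact isEmptyElim (A.ia n i)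
  exact (HomotopyCategory.quotient (Mat_ 𝓐) (ComplexShape.up ℤ)).map_isZero h

theorem mem_of_terms_aux (P : ObjectProperty (HomotopyCategory (Mat_ 𝓐) (ComplexShape.up ℤ)))
    [P.IsTriangulated] [P.IsClosedUnderIsomorphisms] (n : ℕ) :
    ∀ A : Tw 𝓐, Fintype.card A.ι = n → (∀ i, P (single (A.P i)).toK) → P A.toK := by
  induction n with
  | zero =>
    intro A hA _
    have : IsEmpty A.ι := Fintype.card_eq_zero_iff.1 hA
    exact P.prop_of_isZero A.isZero_toK
  | succ n ih =>
    intro A hA h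
    have : Nonempty A.ι := Fintype.card_pos_iff.1 (by omega)
    obtain ⟨t, ht⟩ := Finite.exists_min A.deg
    have ht' : ∀ i, A.D i t = 0 := fun i => A.D_deg i t (by have := ht i; omega)
    obtain ⟨w, hw⟩ := A.triangle_proj t ht'
    refine P.ext_of_isTriangulatedClosed₂ _ hw ?_ ?_
    · refine ih (A.erase t ht') ?_ (fun i => h i.1)
      classical
      have h1 : Fintype.card {i : A.ι // i ≠ t} = Fintype.card A.ι - 1 := by
        rw [Fintype.card_subtype_compl, Fintype.card_subtype_eq]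
      have h2 : Fintype.card (A.erase t ht').ι = Fintype.card {i : A.ι // i ≠ t} :=
        Fintype.card_congr (Equiv.refl _)
      omega
    · exact P.le_shift _ _ (h t)

/-- `A` lies in every triangulated subcategory containing its terms -/
theorem mem_of_terms (A : Tw 𝓐)
    (P : ObjectProperty (HomotopyCategory (Mat_ 𝓐) (ComplexShape.up ℤ)))
    [P.IsTriangulated] [P.IsClosedUnderIsomorphisms] (h : ∀ i, P (single (A.P i)).toK) :
    P A.toK :=
  mem_of_terms_aux P _ A rfl h

/-- the chain map of the cocycle matrix which is the identity at `t` and zero elsewhere -/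
theorem hom_eq_projE (b : Coc A (single (A.P t)) (- A.deg t)) (hb : b.f t () = 𝟙 _)
    (hb' : ∀ i, i ≠ t → b.f i () = 0) : b.hom = A.projE t ht := by
  ext n : 1
  rw [Coc.hom_f]
  refine obj_hom_ext (A := A) (B := single (A.P t)) (p := n) (q := n + - A.deg t) fun i j => ?_
  change b.f i.1 () = sel A.P (A.ia n) (A.it t n) i j
  by_cases h : i.1 = t
  · obtain ⟨i, hi⟩ := i
    change i = t at h
    subst h
    rw [sel_of_eq (by rfl)]
    exact hb
  · rw [sel_of_ne (by exact h)]
    exact hb' _ h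

/-- removing an element without incoming arrows: a distinguished triangle
`A ∖ t → A → P_t⟦m⟧ →` (`m = -deg t`) whose second map is the projection. -/
theorem erase_triangle (m : ℤ) (hm : A.deg t = -m)
    (b : Coc A (single (A.P t)) m)
    (hb : b.f t () = 𝟙 _) (hb' : ∀ i, i ≠ t → b.f i () = 0) :
    ∃ (u : (A.erase t ht).toK ⟶ A.toK)
      (w : (single (A.P t)).toK⟦m⟧ ⟶ (A.erase t ht).toK⟦(1 : ℤ)⟧),
      Triangle.mk u b.cls w ∈ distTriang _ := by
  obtain rfl : m = - A.deg t := by omega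
  obtain ⟨w, hw⟩ := A.triangle_proj t ht
  refine ⟨(HomotopyCategory.quotient (Mat_ 𝓐) (ComplexShape.up ℤ)).map (A.inclE t ht), w, ?_⟩
  rw [Coc.cls, hom_eq_projE A t ht b hb hb']
  exact hw

end Tw

end Lens
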