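import Mathlib
import Pool.Agent.Lens.TwErase
import Pool.Agent.Lens.DPi

/-!
# The identity functor as a truncation
-/

open CategoryTheory CategoryTheory.Limits CategoryTheory.Preadditive
open CategoryTheory.Pretriangulated

namespace Lens

universe w v u

variable {𝓐 : Type u} [Category.{v} 𝓐] [Preadditive 𝓐]

/-- the class of all objects -/
def allC : 𝓐 → Prop := fun _ => True

theorem conv_allC : Conv (allC (𝓐 := 𝓐)) := fun _ _ _ _ _ _ h _ => absurd trivial h

/-- `M ≅ M_⊤` -/
noncomputable def topIsoApp (M : Mat_ 𝓐) : M ≅ resObj allC M where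
  hom := (fun i j => sel M.X (fun i : M.ι => i) (fun j : {i : M.ι // allC (M.X i)} => j.1) i j :
    M ⟶ resObj allC M)
  inv := (fun i j => sel M.X (fun j : {i : M.ι // allC (M.X i)} => j.1) (fun i : M.ι => i) i j :
    resObj allC M ⟶ M)
  hom_inv_id := by
    classical
    refine Eq.trans ?_ (sel_self (P := M.X) (fun i : M.ι => i) (fun _ _ h => h))
    refine DMatrix.ext fun i j => ?_
    exact sel_comp (P := M.X) (fun i : M.ι => i) (fun j : {i : M.ι // allC (M.X i)} => j.1)
      (fun i : M.ι => i) Subtype.val_injective i j (fun _ => ⟨⟨i, trivial⟩, rfl⟩)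
  inv_hom_id := by
    classical
    refine Eq.trans ?_ (sel_self (P := M.X) (fun j : {i : M.ι // allC (M.X i)} => j.1)
      Subtype.val_injective)
    refine DMatrix.ext fun i j => ?_
    exact sel_comp (P := M.X) (fun j : {i : M.ι // allC (M.X i)} => j.1) (fun i : M.ι => i)
      (fun j : {i : M.ι // allC (M.X i)} => j.1) (fun _ _ h => h) i j (fun _ => ⟨i.1, rfl⟩)

/-- `𝟭 ≅ (-)_⊤` -/
noncomputable def topIso : 𝟭 (Mat_ 𝓐) ≅ resF (allC (𝓐 := 𝓐)) conv_allC :=
  NatIso.ofComponents (fun M => topIsoApp M) (by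
    classical
    intro M N f
    refine DMatrix.ext fun i j => ?_
    have h1 := sum_sel' (P := N.X) (fun i : N.ι => i)
      (fun j : {i : N.ι // allC (N.X i)} => j.1) (fun _ _ h => h) (fun x => f i x) j.1 j rfl
    have h2 := sum_sel (P := M.X) (fun i : M.ι => i)
      (fun j : {i : M.ι // allC (M.X i)} => j.1) Subtype.val_injective (fun x => f x j.1) i
      ⟨i, trivial⟩ rfl
    exact h1.trans h2.symm)

/-- the same on the homotopy category -/
noncomputable def topIsoK : 𝟭 (HomotopyCategory (Mat_ 𝓐) (ComplexShape.up ℤ)) ≅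
    RK (allC (𝓐 := 𝓐)) conv_allC :=
  NatIso.ofComponents (fun X => (HomotopyCategory.quotient _ _).mapIso
    ((NatIso.mapHomologicalComplex topIso (ComplexShape.up ℤ)).app X.as)) (by
    intro X Y f
    obtain ⟨f, rfl⟩ := (HomotopyCategory.quotient _ _).map_surjective f
    have h := congrArg (fun g => (HomotopyCategory.quotient (Mat_ 𝓐) (ComplexShape.up ℤ)).map g)
      ((NatTrans.mapHomologicalComplex (topIso (𝓐 := 𝓐)).hom (ComplexShape.up ℤ)).naturality f)
    exact ((Functor.map_comp _ _ _).symm.trans h).trans (Functor.map_comp _ _ _))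

end Lens
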