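import Mathlib
import Pool.Agent.Lens.DTop
import Pool.Agent.Lens.DHom

/-!
# Layers: the functor `X ↦ X_J` is bijective on morphisms under two vanishing conditions
-/

open CategoryTheory CategoryTheory.Limits CategoryTheory.Preadditive
open CategoryTheory.Pretriangulated

namespace Lens

open Pool.Agent.Lens

universe w v u

variable {𝓐 : Type u} [Category.{v} 𝓐] [Preadditive 𝓐]

/-- classes `J ⊆ P` with `Hom (¬P, P) = 0` and `Hom (J, P ∖ J) = 0` -/
structure Lay (P J : 𝓐 → Prop) : Prop where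
  le : ∀ x, J x → P x
  h1 : ∀ ⦃x y : 𝓐⦄ (f : x ⟶ y), ¬ P x → P y → f = 0
  h2 : ∀ ⦃x y : 𝓐⦄ (f : x ⟶ y), J x → P y → ¬ J y → f = 0

namespace Lay

/-- the complement of `P` -/
def B (P : 𝓐 → Prop) : 𝓐 → Prop := fun x => ¬ P x

/-- `P ∖ J` -/
def A (P J : 𝓐 → Prop) : 𝓐 → Prop := fun x => P x ∧ ¬ J x

variable {P J : 𝓐 → Prop} (L : Lay P J)
include L

theorem convP : Conv P := by
  intro x y z f g hx hy hz
  rw [L.h1 g hy hz, comp_zero]

theorem convB : Conv (B P) := by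
  intro x y z f g hx hy hz
  rw [L.h1 f hx (not_not.1 hy), zero_comp]

theorem convJ : Conv J := by
  intro x y z f g hx hy hz
  by_cases h : P y
  · rw [L.h2 f hx h hy, zero_comp]
  · rw [L.h1 g h (L.le z hz), comp_zero]

theorem convA : Conv (A P J) := by
  intro x y z f g hx hy hz
  by_cases h : P y
  · have hJ : J y := not_not.1 fun h' => hy ⟨h, h'⟩
    rw [L.h2 g hJ hz.1 hz.2, comp_zero]
  · rw [L.h1 g h hz.1, comp_zero]

theorem natBT : NatCond (B P) allC :=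
  ⟨fun _ _ _ _ _ h => absurd trivial h, fun _ _ f hx _ hy => L.h1 f hx (not_not.1 hy)⟩

theorem natTP : NatCond allC P :=
  ⟨fun _ _ f _ hy hx => L.h1 f hx hy, fun _ _ _ _ _ h => absurd trivial h⟩

theorem natJP : NatCond J P :=
  ⟨fun x _ _ hx _ h => absurd (L.le x hx) h, fun _ _ f hx hy hy' => L.h2 f hx hy hy'⟩

theorem natPA : NatCond P (A P J) :=
  ⟨fun _ _ f hx hy hx' => L.h2 f (not_not.1 fun h => hx' ⟨hx, h⟩) hy.1 hy.2,
    fun _ y _ _ hy h => absurd hy.1 h⟩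

theorem split₁ : SplitOK (fun _ : ℤ => B P) (fun _ => allC) (fun _ => P) where
  hS := L.convB.cutOK
  hS' := conv_allC.cutOK
  hS'' := L.convP.cutOK
  h := L.natBT.mapOK
  h' := L.natTP.mapOK
  le _ _ _ := trivial
  le' _ _ _ := trivial
  iff _ _ _ := Iff.rfl

theorem split₂ : SplitOK (fun _ : ℤ => J) (fun _ => P) (fun _ => A P J) where
  hS := L.convJ.cutOK
  hS' := L.convP.cutOK
  hS'' := L.convA.cutOK
  h := L.natJP.mapOK
  h' := L.natPA.mapOK
  le _ x hx := L.le x hx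
  le' _ _ hx := hx.1
  iff _ _ hx := ⟨fun h h' => h'.2 h, fun h => not_not.1 fun h' => h ⟨hx, h'⟩⟩

/-- `X ⟶ X_P` -/
noncomputable def τ : 𝟭 (HomotopyCategory (Mat_ 𝓐) (ComplexShape.up ℤ)) ⟶ RK P L.convP :=
  topIsoK.hom ≫ nK conv_allC L.convP L.natTP

/-- `X_J ⟶ X_P` -/
noncomputable def σ : RK J L.convJ ⟶ RK P L.convP := nK L.convJ L.convP L.natJP

theorem tri₁ (X : HomotopyCategory (Mat_ 𝓐) (ComplexShape.up ℤ)) :
    ∃ (b : (RK (B P) L.convB).obj X ⟶ X) (d : (RK P L.convP).obj X ⟶ _),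
      Triangle.mk b (L.τ.app X) d ∈ distTriang _ := by
  obtain ⟨δ, hδ⟩ := cut_triangle X.as L.split₁
  refine ⟨(nK L.convB conv_allC L.natBT).app X ≫ (topIsoK.app X).inv, δ,
    isomorphic_distinguished _ hδ _ (Triangle.isoMk _ _ (Iso.refl _) (topIsoK.app X) (Iso.refl _)
      ?_ ?_ ?_)⟩
  · change ((nK L.convB conv_allC L.natBT).app X ≫ (topIsoK.app X).inv) ≫ (topIsoK.app X).hom =
      𝟙 _ ≫ (nK L.convB conv_allC L.natBT).app X
    rw [Category.assoc, Iso.inv_hom_id, Category.comp_id, Category.id_comp]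
  · exact Category.comp_id _
  · refine Eq.trans ?_ (Category.id_comp _).symm
    refine (congrArg (δ ≫ ·) (CategoryTheory.Functor.map_id _ _)).trans ?_
    exact Category.comp_id _

theorem tri₂ (X : HomotopyCategory (Mat_ 𝓐) (ComplexShape.up ℤ)) :
    ∃ (q : (RK P L.convP).obj X ⟶ (RK (A P J) L.convA).obj X) (e : _ ⟶ _),
      Triangle.mk (L.σ.app X) q e ∈ distTriang _ := by
  obtain ⟨δ, hδ⟩ := cut_triangle X.as L.split₂
  exact ⟨_, δ, hδ⟩

end Lay

end Lens
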