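import Mathlib
import Pool.Agent.Lens.DHom
import Pool.Agent.Lens.DVoc

/-!
# The triangulated category of acyclic complexes
-/

open CategoryTheory CategoryTheory.Limits

namespace Lens

universe u

variable {k : Type u} [Field k] {n : ℕ} (lam : Fin n → Fin 2 → k)

/-- the homotopy category of complexes of finite direct sums of line bundles -/
abbrev KMl := HomotopyCategory (Mat_ (LB lam)) (ComplexShape.up ℤ)

/-- acyclic complexes -/
def acP : ObjectProperty (KMl lam) := fun X => Ac X.as

theorem acP_iff (X : CochainComplex (Mat_ (LB lam)) ℤ) :
    acP lam ((HomotopyCategory.quotient _ _).obj X) ↔ Ac X := Iff.rfl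

/-- the class of the line bundles -/
def isEmb (P : Mat_ (LB lam)) : Prop := ∃ Y : LB lam, P = emb Y

theorem acP_eq : acP lam = exOf (isEmb lam) := by
  ext X
  constructor
  · rintro h _ ⟨Y, rfl⟩
    exact h Y
  · intro h Y
    exact h _ ⟨Y, rfl⟩

instance : (acP lam).IsTriangulated := by
  rw [acP_eq]
  infer_instance

instance : (acP lam).IsClosedUnderIsomorphisms := by
  rw [acP_eq]
  infer_instance

/-- `T_ac`: the homotopy category of acyclic complexes of finite direct sums of line bundles -/
abbrev Tac := (acP lam).FullSubcategory

noncomputable example : Pretriangulated (Tac lam) := inferInstance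
noncomputable example : Linear k (Tac lam) := inferInstance
noncomputable example : HasZeroObject (Tac lam) := inferInstance
noncomputable example (m : ℤ) : (shiftFunctor (Tac lam) m).Additive := inferInstance
noncomputable example : (acP lam).ι.IsTriangulated := inferInstance

end Lens
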