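import Mathlib
import Pool.Agent.Lens.DLay
import Pool.Agent.Lens.Tac
import Pool.Agent.Lens.DE
import Pool.Agent.Lens.DCoex
import Pool.Agent.Lens.D1

/-!
# The truncation functor `X ↦ X_J` on acyclic complexes, part 1
-/

open CategoryTheory CategoryTheory.Limits CategoryTheory.Preadditive
open CategoryTheory.Pretriangulated

namespace Lens

open Pool.Agent.Lens

universe w v u

/-! ### vanishing in the homotopy category -/

section Van

variable {𝓐 : Type u} [Category.{v} 𝓐] [Preadditive 𝓐]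

theorem hz_of_rep {V : Type u} [Category.{v} V] [Preadditive V] [HasZeroObject V]
    [HasBinaryBiproducts V] (X Y : HomotopyCategory V (ComplexShape.up ℤ))
    (h : ∀ (m : ℤ) (g : X.as ⟶ Y.as⟦m⟧), (HomotopyCategory.quotient _ _).map g = 0) :
    HZ X Y := by
  intro m f
  obtain ⟨X, rfl⟩ := HomotopyCategory.quotient_obj_surjective X
  obtain ⟨Y, rfl⟩ := HomotopyCategory.quotient_obj_surjective Y
  obtain ⟨g, hg⟩ := (HomotopyCategory.quotient V (ComplexShape.up ℤ)).map_surjective
    (f ≫ ((HomotopyCategory.quotient V (ComplexShape.up ℤ)).commShiftIso m).inv.app Y)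
  have h1 : f ≫ ((HomotopyCategory.quotient V (ComplexShape.up ℤ)).commShiftIso m).inv.app Y = 0 :=
    hg.symm.trans (h m g)
  exact (cancel_mono _).1 (h1.trans zero_comp.symm)

/-- all terms of `X` are sums of objects of the class `c` -/
def TI (c : 𝓐 → Prop) (X : HomotopyCategory (Mat_ 𝓐) (ComplexShape.up ℤ)) : Prop :=
  ∀ m (i : (X.as.X m).ι), c ((X.as.X m).X i)

theorem TI.hz {c c' : 𝓐 → Prop} (h : ∀ ⦃x y : 𝓐⦄ (f : x ⟶ y), c x → c' y → f = 0)
    {X Y : HomotopyCategory (Mat_ 𝓐) (ComplexShape.up ℤ)} (hX : TI c X) (hY : TI c' Y) :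
    HZ X Y := by
  refine hz_of_rep X Y fun m g => ?_
  have h0 : g = 0 := by
    ext j : 1
    refine DMatrix.ext fun a b => ?_
    exact h _ (hX j a) (hY (j + m) b)
  rw [h0, Functor.map_zero]

theorem RK_TI (S : 𝓐 → Prop) (hS : Conv S)
    (X : HomotopyCategory (Mat_ 𝓐) (ComplexShape.up ℤ)) : TI S ((RK S hS).obj X) :=
  fun _ i => i.2

/-- the object `Y` in degree `0` -/
noncomputable abbrev sK (Y : 𝓐) : HomotopyCategory (Mat_ 𝓐) (ComplexShape.up ℤ) :=
  (HomotopyCategory.singleFunctor (Mat_ 𝓐) 0).obj ((Mat_.embedding 𝓐).obj Y)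

theorem hz_single_iff {V : Type u} [Category.{v} V] [Preadditive V] [HasZeroObject V]
    [HasBinaryBiproducts V] (P : V) (X : HomotopyCategory V (ComplexShape.up ℤ)) :
    HZ ((HomotopyCategory.singleFunctor V 0).obj P) X ↔ ExactFor P X.as := by
  constructor
  · intro h
    refine (exactFor_iff_hom P X.as).2 fun m f => ?_
    have e := ((HomotopyCategory.singleFunctors V).shiftIso (-m) m 0 (by lia)).app P
    have h1 := (h.shift_left (-m)).zero₀ (e.hom ≫ f)
    exact (cancel_epi e.hom).1 (h1.trans comp_zero.symm)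
  · intro h m f
    have h1 : exOf (fun Q => Q = P) X := by
      rintro _ rfl
      exact h
    have h2 : exOf (fun Q => Q = P) (X⟦m⟧) := (exOf (fun Q => Q = P)).le_shift m _ h1
    exact (exactFor_iff_hom P _).1 (h2 P rfl) 0 f

theorem single_hz_iff {V : Type u} [Category.{v} V] [Preadditive V] [HasZeroObject V]
    [HasBinaryBiproducts V] (P : V) (X : HomotopyCategory V (ComplexShape.up ℤ)) :
    HZ X ((HomotopyCategory.singleFunctor V 0).obj P) ↔ CoexactFor X.as P := by
  constructor
  · intro h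
    refine (coexactFor_iff_hom X.as P).2 fun m f => ?_
    have e := ((HomotopyCategory.singleFunctors V).shiftIso (-m) m 0 (by lia)).app P
    have h1 := h (-m) (f ≫ e.inv)
    exact (cancel_mono e.inv).1 (h1.trans zero_comp.symm)
  · intro h m f
    have e := ((HomotopyCategory.singleFunctors V).shiftIso m (-m) 0 (by lia)).app P
    have h1 := (coexactFor_iff_hom X.as P).1 h (-m) (f ≫ e.hom)
    exact (cancel_mono e.hom).1 (h1.trans zero_comp.symm)

theorem coexactFor_mat_dmain {X : CochainComplex (Mat_ 𝓐) ℤ} (M : Mat_ 𝓐)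
    (h : ∀ i, CoexactFor X ((Mat_.embedding 𝓐).obj (M.X i))) : CoexactFor X M := by
  intro i j l hij hjl f hf
  have h1 : ∀ b : M.ι, ∃ g : X.X l ⟶ (Mat_.embedding 𝓐).obj (M.X b),
      ∀ a, (X.d j l ≫ g) a PUnit.unit = f a b := by
    intro b
    obtain ⟨g, hg⟩ := h b i j l hij hjl
      (fun a _ => f a b : X.X j ⟶ (Mat_.embedding 𝓐).obj (M.X b)) (by
        refine DMatrix.ext fun a c => ?_
        have h2 := congrFun (congrFun hf a) b
        rw [Mat_.comp_apply] at h2 ⊢
        exact h2)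
    exact ⟨g, fun a => congrFun (congrFun hg a) PUnit.unit⟩
  choose g hg using h1
  refine ⟨fun a b => g b a PUnit.unit, DMatrix.ext fun a b => ?_⟩
  rw [← hg b a, Mat_.comp_apply, Mat_.comp_apply]
  rfl

/-- **K1** in the homotopy category -/
theorem hz_K1 (X Y : HomotopyCategory (Mat_ 𝓐) (ComplexShape.up ℤ)) (d : ℤ)
    (hX : ∀ n, d < n → IsEmpty (X.as.X n).ι)
    (h : ∀ n i, ExactFor ((Mat_.embedding 𝓐).obj ((X.as.X n).X i)) Y.as) : HZ X Y := by
  refine hz_of_rep X Y fun m g => ?_
  have h1 : ∀ n, ExactFor (X.as.X n) (Y.as⟦m⟧) := by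
    intro n
    refine DCoex.exactFor_mat _ _ fun i => ?_
    refine (hz_single_iff _ ((HomotopyCategory.quotient _ _).obj (Y.as⟦m⟧))).1 ?_
    exact (((hz_single_iff _ _).2 (h n i)).shift_right m).of_iso_right
      (((HomotopyCategory.quotient _ _).commShiftIso m).app Y.as).symm
  obtain ⟨H⟩ := nullhomotopic_of_exact g d (fun n hn => by
    have := hX n hn
    rw [IsZero.iff_id_eq_zero]
    exact DMatrix.ext fun i => isEmptyElim i) h1
  exact (HomotopyCategory.eq_of_homotopy _ _ H).trans (Functor.map_zero _ _ _)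

/-- **K2** in the homotopy category -/
theorem hz_K2 (X Y : HomotopyCategory (Mat_ 𝓐) (ComplexShape.up ℤ)) (d : ℤ)
    (hY : ∀ n, n < d → IsEmpty (Y.as.X n).ι)
    (h : ∀ n i, CoexactFor X.as ((Mat_.embedding 𝓐).obj ((Y.as.X n).X i))) : HZ X Y := by
  refine hz_of_rep X Y fun m g => ?_
  obtain ⟨H⟩ := nullhomotopic_of_coexact g (d - m) (fun n hn => by
    have : IsEmpty ((Y.as⟦m⟧).X n).ι := hY (n + m) (by omega)
    rw [IsZero.iff_id_eq_zero]
    exact DMatrix.ext fun i => isEmptyElim i) (fun n => coexactFor_mat_dmain _ fun i => h (n + m) i)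
  exact (HomotopyCategory.eq_of_homotopy _ _ H).trans (Functor.map_zero _ _ _)

end Van

/-! ### the layers of the line bundles -/

section LB

variable {k : Type u} [Field k] {n : ℕ} {lam : Fin n → Fin 2 → k}

theorem lay : Lay (clP (lam := lam)) clJ where
  le _ h := h.1
  h1 x y f hx hy := by
    by_contra hf
    have h1 := LB.le_of_ne_zero f hf
    simp only [clP, NN, LG.neg_a, not_le] at hx hy
    have h4 := Finset.card_sdiff_add_card (s := x.z.I) (t := y.z.I)
    have h5 : (x.z.I).card ≤ (x.z.I ∪ y.z.I).card := Finset.card_le_card Finset.subset_union_left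
    omega
  h2 x y f hx hy hy' := by
    by_contra hf
    have h1 := LB.le_of_ne_zero f hf
    simp only [clJ, clP, InJ, NN, LG.neg_a, LG.neg_I, not_and, not_le] at hx hy hy'
    have h2 := hy' hy
    omega

theorem clA_iff (Y : LB lam) : clA Y ↔ Lay.A clP clJ Y := by
  simp only [clA, Lay.A, clP, clJ, InA, InJ, NN, not_and, not_le]
  constructor
  · rintro ⟨h1, h2⟩
    exact ⟨h1, fun _ => by omega⟩
  · rintro ⟨h1, h2⟩
    have := h2 h1
    exact ⟨h1, by omega⟩

end LB

end Lens
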