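import Mathlib
import Pool.Agent.Lens.DVoc

/-!
# Splicing: replacing the upper half of a complex by iterated weak cokernels
-/

set_option autoImplicit false

open CategoryTheory CategoryTheory.Limits

namespace Lens

universe v u

/-- `g` is a weak cokernel of `f` -/
def IsWC {V : Type u} [Category.{v} V] [Preadditive V] {F G G' : V} (f : F ⟶ G) (g : G ⟶ G') :
    Prop :=
  f ≫ g = 0 ∧ ∀ (H : V) (u : G ⟶ H), f ≫ u = 0 → ∃ v : G' ⟶ H, g ≫ v = u

section Shift

variable {V : Type u} [Category.{v} V] [Preadditive V]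

/-- shift of a complex, without signs -/
def shiftC (W : CochainComplex V ℤ) (c : ℤ) : CochainComplex V ℤ where
  X i := W.X (i + c)
  d i j := W.d (i + c) (j + c)
  shape i j h := W.shape _ _ fun h' => h (by
    simp only [ComplexShape.up_Rel] at h' ⊢
    lia)
  d_comp_d' i j k _ _ := W.d_comp_d _ _ _

theorem coexactAt_of_isIso {X' X : CochainComplex V ℤ} (φ : X' ⟶ X) (P : V) (j : ℤ)
    (h1 : IsIso (φ.f j)) (h2 : IsIso (φ.f (j - 1))) (h : CoexactAtFor X P j) :
    CoexactAtFor X' P j := by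
  intro i k hi hk f hf
  obtain rfl : i = j - 1 := by lia
  obtain ⟨g, hg⟩ := h (j - 1) k hi hk (inv (φ.f j) ≫ f) (by
    rw [← cancel_epi (φ.f (j - 1)), comp_zero, φ.comm_assoc, IsIso.hom_inv_id_assoc, hf])
  exact ⟨φ.f k ≫ g, by rw [← φ.comm_assoc, hg, IsIso.hom_inv_id_assoc]⟩

theorem exactAt_of_isIso {X' X : CochainComplex V ℤ} (φ : X ⟶ X') (P : V) (j : ℤ)
    (h1 : IsIso (φ.f j)) (h2 : IsIso (φ.f (j + 1))) (h : ExactAtFor P X j) :
    ExactAtFor P X' j := by
  intro i k hi hk f hf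
  obtain rfl : k = j + 1 := hk.symm
  obtain ⟨g, hg⟩ := h i (j + 1) hi rfl (f ≫ inv (φ.f j)) (by
    rw [← cancel_mono (φ.f (j + 1)), zero_comp, Category.assoc, Category.assoc, ← φ.comm,
      IsIso.inv_hom_id_assoc, hf])
  exact ⟨g ≫ φ.f i, by rw [Category.assoc, φ.comm, reassoc_of% hg, IsIso.inv_hom_id,
    Category.comp_id]⟩

end Shift

namespace Splice

/-- arrows -/
structure Arr (V : Type u) [Category.{v} V] where
  /-- source -/
  A : V
  /-- target -/
  B : V
  /-- the arrow -/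
  f : A ⟶ B

variable {V : Type u} [Category.{v} V] [Preadditive V]

variable (Q : ∀ {F G : V}, ℕ → (F ⟶ G) → Prop) (R : ℕ → V → Prop)
  (step : ∀ (n : ℕ) (F G : V) (f : F ⟶ G), Q n f → ∃ (G' : V) (g : G ⟶ G'),
    IsWC f g ∧ Q (n + 1) g ∧ R n G')

/-- the weak cokernel -/
noncomputable def next (n : ℕ) (a : {a : Arr V // Q n a.f}) : {a : Arr V // Q (n + 1) a.f} :=
  ⟨⟨a.1.B, (step n _ _ a.1.f a.2).choose, (step n _ _ a.1.f a.2).choose_spec.choose⟩,
    (step n _ _ a.1.f a.2).choose_spec.choose_spec.2.1⟩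

theorem next_spec (n : ℕ) (a : {a : Arr V // Q n a.f}) : IsWC a.1.f (next Q R step n a).1.f :=
  (step n _ _ a.1.f a.2).choose_spec.choose_spec.1

theorem next_spec' (n : ℕ) (a : {a : Arr V // Q n a.f}) : R n (next Q R step n a).1.B :=
  (step n _ _ a.1.f a.2).choose_spec.choose_spec.2.2

variable (W : CochainComplex V ℤ) (h0 : Q 0 (W.d 0 1))

/-- iterated weak cokernels -/
noncomputable def seq : ∀ n : ℕ, {a : Arr V // Q n a.f}
  | 0 => ⟨⟨W.X 0, W.X 1, W.d 0 1⟩, h0⟩
  | n + 1 => next Q R step n (seq n)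

theorem seq_spec (n : ℕ) :
    IsWC (V := V) (seq Q R step W h0 n).1.f (G' := (seq Q R step W h0 (n + 1)).1.B)
      (seq Q R step W h0 (n + 1)).1.f :=
  next_spec Q R step n _

/-- the terms -/
noncomputable def objX : ℤ → V
  | .ofNat n => (seq Q R step W h0 n).1.A
  | .negSucc n => W.X (.negSucc n)

/-- the differential -/
noncomputable def dX : ∀ i : ℤ, objX Q R step W h0 i ⟶ objX Q R step W h0 (i + 1)
  | .ofNat n => (seq Q R step W h0 n).1.f
  | .negSucc 0 => W.d (.negSucc 0) 0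
  | .negSucc (n + 1) => W.d (.negSucc (n + 1)) (.negSucc n)

theorem dX_comp (i : ℤ) : dX Q R step W h0 i ≫ dX Q R step W h0 (i + 1) = 0 := by
  match i with
  | .ofNat n => exact (seq_spec Q R step W h0 n).1
  | .negSucc 0 => exact W.d_comp_d _ _ _
  | .negSucc 1 => exact W.d_comp_d _ _ _
  | .negSucc (n + 2) => exact W.d_comp_d _ _ _

/-- the complex with the upper half replaced -/
noncomputable def cpx : CochainComplex V ℤ :=
  CochainComplex.of (objX Q R step W h0) (dX Q R step W h0) (dX_comp Q R step W h0)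

theorem cpx_d (i : ℤ) : (cpx Q R step W h0).d i (i + 1) = dX Q R step W h0 i :=
  CochainComplex.of_d (objX Q R step W h0) (dX Q R step W h0) _

/-- the comparison map in degrees `≥ 0` -/
noncomputable def t : ∀ n : ℕ,
    {p : ((seq Q R step W h0 n).1.A ⟶ W.X n) × ((seq Q R step W h0 n).1.B ⟶ W.X (n + 1)) //
      (seq Q R step W h0 n).1.f ≫ p.2 = p.1 ≫ W.d n (n + 1)}
  | 0 => ⟨(𝟙 (W.X 0), 𝟙 (W.X 1)), (Category.comp_id _).trans (Category.id_comp _).symm⟩
  | n + 1 =>
    have h : (seq Q R step W h0 n).1.f ≫ ((t n).1.2 ≫ W.d (n + 1) (n + 1 + 1)) = 0 := by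
      rw [← Category.assoc, (t n).2, Category.assoc, W.d_comp_d, comp_zero]
    ⟨((t n).1.2, ((seq_spec Q R step W h0 n).2 _ _ h).choose),
      ((seq_spec Q R step W h0 n).2 _ _ h).choose_spec⟩

/-- the comparison map -/
noncomputable def φ : ∀ i : ℤ, objX Q R step W h0 i ⟶ W.X i
  | .ofNat n => (t Q R step W h0 n).1.1
  | .negSucc n => 𝟙 (W.X (.negSucc n))

theorem φ_comm (i : ℤ) : φ Q R step W h0 i ≫ W.d i (i + 1) =
    dX Q R step W h0 i ≫ φ Q R step W h0 (i + 1) := by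
  match i with
  | .ofNat n => exact (t Q R step W h0 n).2.symm
  | .negSucc 0 => exact (Category.id_comp _).trans (Category.comp_id _).symm
  | .negSucc (n + 1) => exact (Category.id_comp _).trans (Category.comp_id _).symm

theorem φ_iso (i : ℤ) (hi : i ≤ 1) : IsIso (φ Q R step W h0 i) := by
  match i with
  | .ofNat 0 => exact inferInstanceAs (IsIso (𝟙 (W.X 0)))
  | .ofNat 1 => exact inferInstanceAs (IsIso (𝟙 (W.X 1)))
  | .ofNat (n + 2) => exact absurd hi (by simp; lia)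
  | .negSucc n => exact inferInstanceAs (IsIso (𝟙 (W.X (.negSucc n))))

theorem objX_eq (i : ℤ) (hi : i ≤ 1) : objX Q R step W h0 i = W.X i := by
  match i with
  | .ofNat 0 => rfl
  | .ofNat 1 => rfl
  | .ofNat (n + 2) => exact absurd hi (by simp; lia)
  | .negSucc n => rfl

/-- the comparison map as a map of complexes -/
noncomputable def Φ : cpx Q R step W h0 ⟶ W where
  f := φ Q R step W h0
  comm' i j h := by
    simp only [ComplexShape.up_Rel] at h
    subst h
    rw [cpx_d]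
    exact φ_comm Q R step W h0 i

theorem cpx_coexactAt (P : V) (j : ℤ) (hj : 1 ≤ j) : CoexactAtFor (cpx Q R step W h0) P j := by
  intro i k hi hk
  subst hi hk
  obtain ⟨n, rfl⟩ := Int.eq_ofNat_of_zero_le (show 0 ≤ i by lia)
  rw [cpx_d, cpx_d]
  exact fun f hf => (seq_spec Q R step W h0 n).2 _ f hf

theorem cpx_R (n : ℕ) : R n ((cpx Q R step W h0).X (n + 2)) :=
  next_spec' Q R step n _

end Splice

variable {V : Type u} [Category.{v} V] [Preadditive V]

open Splice in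
/-- replace the part in degrees `> m` by iterated weak cokernels -/
theorem exists_glueRight (Q : ∀ {F G : V}, ℕ → (F ⟶ G) → Prop) (R : ℕ → V → Prop)
    (step : ∀ (n : ℕ) (F G : V) (f : F ⟶ G), Q n f → ∃ (G' : V) (g : G ⟶ G'),
      IsWC f g ∧ Q (n + 1) g ∧ R n G')
    (X : CochainComplex V ℤ) (m : ℤ) (h0 : Q 0 (X.d (m - 1) m)) :
    ∃ (X' : CochainComplex V ℤ) (φ : X' ⟶ X), (∀ i ≤ m, IsIso (φ.f i)) ∧
      (∀ i ≤ m, X'.X i = X.X i) ∧ (∀ n : ℕ, R n (X'.X (m + 1 + n))) ∧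
      ∀ (P : V) (j : ℤ), m ≤ j → CoexactAtFor X' P j := by
  obtain ⟨c, rfl⟩ : ∃ c, m = c + 1 := ⟨m - 1, by lia⟩
  have h0' : Q 0 ((shiftC X c).d 0 1) := by
    have e : X.d (c + 1 - 1) (c + 1) = X.d (c + 1 - 1) (c + 1) := rfl
    change Q 0 (X.d (0 + c) (1 + c))
    have e1 : c + 1 - 1 = 0 + c := by lia
    have e2 : c + 1 = 1 + c := by lia
    rw [e2] at h0
    have e3 : 1 + c - 1 = 0 + c := by lia
    rw [e3] at h0
    exact h0
  let Y := cpx Q R step (shiftC X c) h0'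
  let Ψ : Y ⟶ shiftC X c := Φ Q R step (shiftC X c) h0'
  have hX : ∀ i : ℤ, i + -c + c = i := fun i => by lia
  let a : ∀ i : ℤ, Y.X (i + -c) ⟶ X.X (i + -c + c) := fun i => Ψ.f (i + -c)
  have ha : ∀ i j : ℤ, a i ≫ X.d (i + -c + c) (j + -c + c) = Y.d (i + -c) (j + -c) ≫ a j :=
    fun i j => Ψ.comm _ _
  have ha' : ∀ i j : ℤ, (a i ≫ (X.XIsoOfEq (hX i)).hom) ≫ X.d i j =
      Y.d (i + -c) (j + -c) ≫ a j ≫ (X.XIsoOfEq (hX j)).hom := by
    intro i j
    rw [Category.assoc, HomologicalComplex.XIsoOfEq_hom_comp_d, ← reassoc_of% (ha i j),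
      HomologicalComplex.d_comp_XIsoOfEq_hom]
  let ψ : shiftC Y (-c) ⟶ X :=
    { f := fun i => a i ≫ (X.XIsoOfEq (hX i)).hom
      comm' := fun i j _ => ha' i j }
  refine ⟨shiftC Y (-c), ψ, ?_, ?_, ?_, ?_⟩
  · intro i hi
    have h1 : IsIso (a i) := φ_iso Q R step (shiftC X c) h0' (i + -c) (by lia)
    change IsIso (a i ≫ (X.XIsoOfEq (hX i)).hom)
    infer_instance
  · intro i hi
    exact (objX_eq Q R step (shiftC X c) h0' (i + -c) (by lia)).trans
      (congrArg X.X (hX i))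
  · intro n
    have h := cpx_R Q R step (shiftC X c) h0' n
    have e : (n : ℤ) + 2 = c + 1 + 1 + n + -c := by lia
    change R n (Y.X (c + 1 + 1 + n + -c))
    rw [← e]
    exact h
  · intro P j hj i k hi hk
    exact cpx_coexactAt Q R step (shiftC X c) h0' P (j + -c) (by lia) (i + -c) (k + -c) (by lia)
      (by lia)

end Lens
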