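import Pool.Agent.Lens.DVoc

/-!
# Gluing complexes with iterated weak kernels / weak cokernels

Everything in a preadditive category `V`.
-/

set_option autoImplicit false

open CategoryTheory CategoryTheory.Limits CategoryTheory.Preadditive CochainComplex
  CochainComplex.HomComplex

namespace Lens

universe v u

variable {V : Type u} [Category.{v} V] [Preadditive V]

section down

/-- the iterates -/
def dseq {K L : CochainComplex V ℤ} {d : ℤ} {X : ℕ → Set (Cochain K L d)}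
    (φ : ∀ n : ℕ, X n → X (n + 1)) (x₀ : X 0) : ∀ n, X n
  | 0 => x₀
  | n + 1 => φ n (dseq φ x₀ n)

theorem dseq_eq {K L : CochainComplex V ℤ} {d : ℤ} {X : ℕ → Set (Cochain K L d)}
    (φ : ∀ n : ℕ, X n → X (n + 1)) (x₀ : X 0) (p₀ : ℤ)
    (hφ : ∀ (n : ℕ) (x : X n), EqDownTo (φ n x).1 x.1 (p₀ - n)) (n₁ n₂ : ℕ) (h : n₁ ≤ n₂) :
    EqDownTo (dseq φ x₀ n₁).1 (dseq φ x₀ n₂).1 (p₀ - n₁) := by
  obtain ⟨k, rfl⟩ := Nat.exists_eq_add_of_le h
  clear h
  induction k with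
  | zero => intro _ _ _ _; rfl
  | succ k hk =>
    intro p q hpq hp
    rw [hk p q hpq hp]
    exact (hφ (n₁ + k) (dseq φ x₀ (n₁ + k)) p q hpq (by lia)).symm

/-- the limit of the iterates -/
def dlim {K L : CochainComplex V ℤ} {d : ℤ} {X : ℕ → Set (Cochain K L d)}
    (φ : ∀ n : ℕ, X n → X (n + 1)) (x₀ : X 0) (p₀ : ℤ) : Cochain K L d :=
  Cochain.mk (fun p q hpq => (dseq φ x₀ (p₀ - p).toNat).1.v p q hpq)

theorem dlim_eq {K L : CochainComplex V ℤ} {d : ℤ} {X : ℕ → Set (Cochain K L d)}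
    (φ : ∀ n : ℕ, X n → X (n + 1)) (x₀ : X 0) (p₀ : ℤ)
    (hφ : ∀ (n : ℕ) (x : X n), EqDownTo (φ n x).1 x.1 (p₀ - n)) (n : ℕ) :
    EqDownTo (dlim φ x₀ p₀) (dseq φ x₀ n).1 (p₀ - n) := by
  intro p q hpq hp
  exact dseq_eq φ x₀ p₀ hφ (p₀ - p).toNat n (by lia) p q hpq (by lia)

theorem null_aux_down {K L : CochainComplex V ℤ}
    (f : K ⟶ L) (α : Cochain K L (-1)) (n m : ℤ) (hnm : m + 1 = n)
    (hK : ExactAtFor (K.X m) L m)
    (hα : EqDownTo (δ (-1) 0 α) (Cochain.ofHom f) n) :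
    ∃ (h : K.X m ⟶ L.X (m - 1)),
      EqDownTo (δ (-1) 0 (α + Cochain.single h (-1))) (Cochain.ofHom f) m := by
  subst hnm
  let u := f.f m - K.d m (m + 1) ≫ α.v (m + 1) m (by lia) - α.v m (m - 1) (by lia) ≫ L.d (m - 1) m
  have hu : u ≫ L.d m (m + 1) = 0 := by
    have eq := hα (m + 1) (m + 1) (add_zero _) (by rfl)
    simp only [δ_v (-1) 0 (neg_add_cancel 1) α (m + 1) (m + 1) (add_zero _) m (m + 2)
      (by lia) (by lia), Int.negOnePow_zero, one_smul, Cochain.ofHom_v] at eq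
    simp only [u, sub_comp, Category.assoc, L.d_comp_d, comp_zero, sub_zero, f.comm]
    rw [← eq]
    simp
  obtain ⟨β, hβ⟩ : ∃ (β : K.X m ⟶ L.X (m - 1)), β ≫ L.d (m - 1) m = u :=
    hK (m - 1) (m + 1) (by lia) rfl u hu
  refine ⟨β, ?_⟩
  intro p q hpq hp
  obtain rfl : p = q := by lia
  obtain hp | rfl := hp.lt_or_eq
  · rw [δ_add, Cochain.add_v, hα p p (by lia) (by lia), add_eq_left,
      δ_v (-1) 0 (neg_add_cancel 1) _ p p hpq (p - 1) (p + 1) rfl rfl,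
      Cochain.single_v_eq_zero _ _ _ _ _ (by lia),
      Cochain.single_v_eq_zero _ _ _ _ _ (by lia)]
    simp
  · rw [δ_v (-1) 0 (neg_add_cancel 1) _ m m (by lia) (m - 1) (m + 1)
      (by lia) (by lia), Cochain.add_v, Cochain.add_v,
      Cochain.single_v_eq_zero β (-1) (m + 1) m (by lia) (by lia)]
    simp [hβ, u]

/-- A chain map which vanishes in degrees `> d`, to a complex which is exact in degrees `≤ d`,
is null homotopic. -/
theorem nullhomotopic_down {K L : CochainComplex V ℤ} (f : K ⟶ L) (d : ℤ)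
    (hf : ∀ n, d < n → f.f n = 0) (hL : ∀ n, n ≤ d → ExactAtFor (K.X n) L n) :
    Nonempty (Homotopy f 0) := by
  let X (n : ℕ) : Set (Cochain K L (-1)) :=
    Set.ofPred (fun α => EqDownTo (δ (-1) 0 α) (Cochain.ofHom f) (d + 1 - n))
  let x₀ : X 0 := ⟨0, fun p q hpq hp ↦ by
    obtain rfl : p = q := by lia
    rw [δ_zero, Cochain.zero_v, Cochain.ofHom_v, hf p (by simp at hp; lia)]⟩
  let φ (n : ℕ) (α : X n) : X (n + 1) :=
    ⟨_, (null_aux_down f α.1 (d + 1 - n) (d + 1 - (n + 1 : ℕ))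
      (by push_cast; lia) (hL _ (by push_cast; lia)) α.2).choose_spec⟩
  have hφ (k : ℕ) (x : X k) : EqDownTo (φ k x).1 x.1 (d + 1 - k) := fun p q hpq hp => by
    dsimp [φ]
    rw [add_eq_left, Cochain.single_v_eq_zero _ _ _ _ _ (by lia)]
  let lim : Cochain K L (-1) := dlim φ x₀ (d + 1)
  have hlim (n : ℕ) : EqDownTo lim (dseq φ x₀ n).1 (d + 1 - n) := dlim_eq φ x₀ (d + 1) hφ n
  refine ⟨(Cochain.equivHomotopy f 0).symm ⟨lim, ?_⟩⟩
  rw [Cochain.ofHom_zero, add_zero]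
  ext n
  let k₀ := (d + 1 - n + 1).toNat
  rw [← (dseq φ x₀ k₀).2 n n (add_zero n) (by lia),
    δ_v (-1) 0 (neg_add_cancel 1) _ n n (by lia) (n - 1) (n + 1) rfl (by lia),
    δ_v (-1) 0 (neg_add_cancel 1) _ n n (by lia) (n - 1) (n + 1) rfl (by lia),
    hlim k₀ n (n - 1) (by lia) (by lia),
    hlim k₀ (n + 1) n (by lia) (by lia)]

theorem ext_aux_down {K L : CochainComplex V ℤ} (α : Cochain K L 0) (m m' : ℤ) (hm : m' + 1 = m)
    (hL : ExactAtFor (K.X m') L m) (hα : EqDownTo (δ 0 1 α) 0 m) :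
    ∃ h : K.X m' ⟶ L.X m', EqDownTo (δ 0 1 (α + Cochain.single h 0)) 0 m' := by
  subst hm
  let u := K.d m' (m' + 1) ≫ α.v (m' + 1) (m' + 1) (by lia) -
    α.v m' m' (by lia) ≫ L.d m' (m' + 1)
  have hu : u ≫ L.d (m' + 1) (m' + 1 + 1) = 0 := by
    have eq := hα (m' + 1) (m' + 1 + 1) rfl (by rfl)
    rw [δ_zero_cochain_v, Cochain.zero_v, sub_eq_zero] at eq
    simp only [u, sub_comp, Category.assoc, L.d_comp_d, comp_zero, sub_zero, eq]
    simp
  obtain ⟨β, hβ⟩ : ∃ (β : K.X m' ⟶ L.X m'), β ≫ L.d m' (m' + 1) = u :=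
    hL m' (m' + 1 + 1) rfl rfl u hu
  refine ⟨β, ?_⟩
  intro p q hpq hp
  subst hpq
  obtain hp | rfl := hp.lt_or_eq
  · rw [δ_add, Cochain.add_v, hα p (p + 1) rfl (by lia), add_eq_left, δ_zero_cochain_v,
      Cochain.single_v_eq_zero _ _ _ _ _ (by lia),
      Cochain.single_v_eq_zero _ _ _ _ _ (by lia)]
    simp
  · rw [δ_zero_cochain_v, Cochain.add_v, Cochain.add_v,
      Cochain.single_v_eq_zero β 0 (m' + 1) (m' + 1) (by lia) (by lia)]
    simp [hβ, u]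

/-- Extension of chain maps to the left. -/
theorem exists_extend_down {K L : CochainComplex V ℤ} (α : Cochain K L 0) (m : ℤ)
    (hα : EqDownTo (δ 0 1 α) 0 m) (hL : ∀ n, n ≤ m → ExactAtFor (K.X (n - 1)) L n) :
    ∃ f : K ⟶ L, ∀ i, m ≤ i → f.f i = α.v i i (add_zero i) := by
  let X (n : ℕ) : Set (Cochain K L 0) :=
    Set.ofPred (fun α => EqDownTo (δ 0 1 α) 0 (m - n))
  let x₀ : X 0 := ⟨α, by
    change EqDownTo (δ 0 1 α) 0 (m - (0 : ℕ))
    simpa using hα⟩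
  let φ (n : ℕ) (α : X n) : X (n + 1) :=
    ⟨_, (ext_aux_down α.1 (m - n) (m - (n + 1 : ℕ)) (by push_cast; lia)
      (by
        have h := hL (m - n) (by lia)
        have e : m - (n : ℤ) - 1 = m - ((n + 1 : ℕ) : ℤ) := by push_cast; lia
        rwa [e] at h) α.2).choose_spec⟩
  have hφ (k : ℕ) (x : X k) : EqDownTo (φ k x).1 x.1 (m - k) := fun p q hpq hp => by
    dsimp [φ]
    rw [add_eq_left, Cochain.single_v_eq_zero _ _ _ _ _ (by lia)]
  let lim : Cochain K L 0 := dlim φ x₀ m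
  have hlim (n : ℕ) : EqDownTo lim (dseq φ x₀ n).1 (m - n) := dlim_eq φ x₀ m hφ n
  have hδ : δ 0 1 lim = 0 := by
    ext p q hpq
    subst hpq
    let k₀ := (m - p).toNat
    have h1 := (dseq φ x₀ k₀).2 p (p + 1) rfl (by lia)
    rw [← h1, δ_zero_cochain_v, δ_zero_cochain_v, hlim k₀ p p (by lia) (by lia),
      hlim k₀ (p + 1) (p + 1) (by lia) (by lia)]
  refine ⟨Cocycle.homOf (Cocycle.mk lim 1 rfl hδ), fun i hi => ?_⟩
  rw [Cocycle.homOf_f]
  exact hlim 0 i i (add_zero i) (by simpa using hi)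

/-- A chain map which is an isomorphism in degrees `≥ m` between complexes which are exact in
degrees `≤ m` is a homotopy equivalence. -/
theorem homotopyEquiv_of_isIso_down {K L : CochainComplex V ℤ} (φ : K ⟶ L) (m : ℤ)
    (hφ : ∀ i, m ≤ i → IsIso (φ.f i)) (hK : ∀ (P : V) (j : ℤ), j ≤ m → ExactAtFor P K j)
    (hL : ∀ (P : V) (j : ℤ), j ≤ m → ExactAtFor P L j) : Nonempty (HomotopyEquiv K L) := by
  classical
  let α : Cochain L K 0 := Cochain.ofHoms fun p =>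
    if h : m ≤ p then (have := hφ p h; inv (φ.f p)) else 0
  have hv : ∀ p (h : m ≤ p), φ.f p ≫ α.v p p (add_zero p) = 𝟙 _ ∧
      α.v p p (add_zero p) ≫ φ.f p = 𝟙 _ := by
    intro p h
    have := hφ p h
    have e : α.v p p (add_zero p) = inv (φ.f p) := by
      rw [Cochain.ofHoms_v, dif_pos h]
    rw [e]
    exact ⟨IsIso.hom_inv_id _, IsIso.inv_hom_id _⟩
  have hα : EqDownTo (δ 0 1 α) 0 m := by
    intro p q hpq hp
    subst hpq
    rw [δ_zero_cochain_v, Cochain.zero_v, sub_eq_zero]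
    have := hφ p hp
    rw [← cancel_epi (φ.f p), ← Category.assoc, (hv p hp).1, Category.id_comp,
      ← Category.assoc, φ.comm, Category.assoc, (hv (p + 1) (by lia)).1, Category.comp_id]
  obtain ⟨ψ, hψ⟩ := exists_extend_down α m hα fun n hn => hK _ n hn
  obtain ⟨h1⟩ := nullhomotopic_down (φ ≫ ψ - 𝟙 K) (m - 1) (fun n hn => by
    rw [HomologicalComplex.sub_f_apply, HomologicalComplex.comp_f, HomologicalComplex.id_f,
      hψ n (by lia), (hv n (by lia)).1, sub_self]) (fun n hn => hK _ n (by lia))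
  obtain ⟨h2⟩ := nullhomotopic_down (ψ ≫ φ - 𝟙 L) (m - 1) (fun n hn => by
    rw [HomologicalComplex.sub_f_apply, HomologicalComplex.comp_f, HomologicalComplex.id_f,
      hψ n (by lia), (hv n (by lia)).2, sub_self]) (fun n hn => hL _ n (by lia))
  exact ⟨⟨φ, ψ, (Homotopy.equivSubZero).symm h1, (Homotopy.equivSubZero).symm h2⟩⟩

end down

section glue

/-- iterated weak kernels -/
theorem exists_iterL (Q : ∀ {F G : V}, ℕ → (F ⟶ G) → Prop) (R : ℕ → V → Prop)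
    (step : ∀ (n : ℕ) {F G : V} (f : F ⟶ G), Q n f → ∃ (F' : V) (g : F' ⟶ F), g ≫ f = 0 ∧
      (∀ (H : V) (u : H ⟶ F), u ≫ f = 0 → ∃ v : H ⟶ F', v ≫ g = u) ∧ Q (n + 1) g ∧ R n F')
    {F₀ G₀ : V} (f₀ : F₀ ⟶ G₀) (h₀ : Q 0 f₀) :
    ∃ (C : ℕ → V) (c₀ : C 0 ⟶ F₀) (c : ∀ n, C (n + 1) ⟶ C n), (∀ n, R n (C n)) ∧
      c₀ ≫ f₀ = 0 ∧ (∀ (H : V) (u : H ⟶ F₀), u ≫ f₀ = 0 → ∃ v : H ⟶ C 0, v ≫ c₀ = u) ∧
      c 0 ≫ c₀ = 0 ∧ (∀ (H : V) (u : H ⟶ C 0), u ≫ c₀ = 0 → ∃ v : H ⟶ C 1, v ≫ c 0 = u) ∧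
      (∀ n, c (n + 1) ≫ c n = 0) ∧
      ∀ n (H : V) (u : H ⟶ C (n + 1)), u ≫ c n = 0 → ∃ v : H ⟶ C (n + 2), v ≫ c (n + 1) = u := by
  choose F' g h1 h2 h3 h4 using step
  let s : ℕ → ∀ n : ℕ, {f : Arrow V // Q n f.hom} := fun _ n =>
    Nat.rec ⟨Arrow.mk f₀, h₀⟩ (fun n f => ⟨Arrow.mk (g n f.1.hom f.2), h3 n f.1.hom f.2⟩) n
  let S : ∀ n : ℕ, {f : Arrow V // Q n f.hom} := s 0
  refine ⟨fun n => (S (n + 1)).1.left, (S 1).1.hom, fun n => (S (n + 2)).1.hom,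
    fun n => h4 n (S n).1.hom (S n).2, h1 0 f₀ h₀, h2 0 f₀ h₀, h1 1 (S 1).1.hom (S 1).2,
    h2 1 (S 1).1.hom (S 1).2, fun n => h1 (n + 2) (S (n + 2)).1.hom (S (n + 2)).2,
    fun n => h2 (n + 2) (S (n + 2)).1.hom (S (n + 2)).2⟩

variable (X : CochainComplex V ℤ) (C : ℕ → V) (c₀ : C 0 ⟶ X.X 0) (c : ∀ n, C (n + 1) ⟶ C n)

/-- the objects of the glued complex -/
def gobj : ℤ → V
  | Int.ofNat n => X.X (Int.ofNat n)
  | Int.negSucc n => C n

/-- the differentials of the glued complex -/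
def gd : ∀ i : ℤ, gobj X C i ⟶ gobj X C (i + 1)
  | Int.ofNat n => X.d (Int.ofNat n) (Int.ofNat (n + 1))
  | Int.negSucc 0 => c₀
  | Int.negSucc (n + 1) => c n

theorem gd_gd (h0 : c₀ ≫ X.d 0 1 = 0) (h1 : c 0 ≫ c₀ = 0) (h2 : ∀ n, c (n + 1) ≫ c n = 0) :
    ∀ i : ℤ, gd X C c₀ c i ≫ gd X C c₀ c (i + 1) = 0
  | Int.ofNat n => X.d_comp_d (Int.ofNat n) (Int.ofNat (n + 1)) (Int.ofNat (n + 2))
  | Int.negSucc 0 => h0
  | Int.negSucc 1 => h1
  | Int.negSucc (n + 2) => h2 n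

/-- the comparison map in degrees `≥ 0` -/
def gmap : ∀ i : ℤ, X.X i ⟶ gobj X C i
  | Int.ofNat n => 𝟙 (X.X (Int.ofNat n))
  | Int.negSucc _ => 0

theorem exists_glueLeft_zero (Q : ∀ {F G : V}, ℕ → (F ⟶ G) → Prop) (R : ℕ → V → Prop)
    (step : ∀ (n : ℕ) {F G : V} (f : F ⟶ G), Q n f → ∃ (F' : V) (g : F' ⟶ F), g ≫ f = 0 ∧
      (∀ (H : V) (u : H ⟶ F), u ≫ f = 0 → ∃ v : H ⟶ F', v ≫ g = u) ∧ Q (n + 1) g ∧ R n F')
    (X : CochainComplex V ℤ) (h₀ : Q 0 (X.d 0 1)) :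
    ∃ (X' : CochainComplex V ℤ) (φ : X ⟶ X'), (∀ i, 0 ≤ i → IsIso (φ.f i)) ∧
      (∀ i, 0 ≤ i → X'.X i = X.X i) ∧ (∀ n : ℕ, R n (X'.X (-1 - n))) ∧
      ∀ (P : V) (j : ℤ), j ≤ 0 → ExactAtFor P X' j := by
  obtain ⟨C, c₀, c, hR, h1, h2, h3, h4, h5, h6⟩ := exists_iterL Q R step (X.d 0 1) h₀
  let X' : CochainComplex V ℤ := CochainComplex.of (gobj X C) (gd X C c₀ c)
    (gd_gd X C c₀ c h1 h3 h5)
  have hd : ∀ i : ℤ, X'.d i (i + 1) = gd X C c₀ c i := fun i =>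
    CochainComplex.of_d (gobj X C) (gd X C c₀ c) i
  have hex : ∀ (P : V) (j : ℤ), j ≤ 0 → ExactAtFor P X' j := by
    intro P j hj i k hi hk f hf
    subst hi
    subst hk
    rw [hd] at hf
    rw [hd]
    match i with
    | Int.ofNat n => exact absurd hj (by simp only [Int.ofNat_eq_natCast]; lia)
    | Int.negSucc 0 => exact h2 P f hf
    | Int.negSucc 1 => exact h4 P f hf
    | Int.negSucc (n + 2) => exact h6 n P f hf
  let α : Cochain X X' 0 := Cochain.ofHoms (gmap X C)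
  have hα : EqDownTo (δ 0 1 α) 0 0 := by
    intro p q hpq hp
    subst hpq
    rw [δ_zero_cochain_v, Cochain.zero_v, sub_eq_zero, Cochain.ofHoms_v, Cochain.ofHoms_v, hd]
    match p with
    | Int.ofNat n => exact (Category.id_comp _).trans (Category.comp_id _).symm
    | Int.negSucc n => exact absurd hp (by simp)
  obtain ⟨φ, hφ⟩ := exists_extend_down α 0 hα fun n hn => hex _ n hn
  refine ⟨X', φ, fun i hi => ?_, fun i hi => ?_, fun n => ?_, hex⟩
  · rw [hφ i hi, Cochain.ofHoms_v]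
    match i with
    | Int.ofNat n => exact (inferInstance : IsIso (𝟙 (X.X (Int.ofNat n))))
    | Int.negSucc n => exact absurd hi (by simp)
  · match i with
    | Int.ofNat n => rfl
    | Int.negSucc n => exact absurd hi (by simp)
  · have e : (-1 - (n : ℤ)) = Int.negSucc n := by
      rw [Int.negSucc_eq]
      ring
    rw [e]
    exact hR n

/-- translation of the degrees (without signs) -/
def trX (X : CochainComplex V ℤ) (m : ℤ) : CochainComplex V ℤ where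
  X i := X.X (i + m)
  d i j := X.d (i + m) (j + m)
  shape i j h := X.shape _ _ fun h' => h (by
    simp only [ComplexShape.up_Rel] at h' ⊢
    lia)
  d_comp_d' _ _ _ _ _ := X.d_comp_d _ _ _

/-- **Gluing on the left**: the part of `X` in degrees `< m` is replaced by iterated weak kernels,
chosen by the rule `step`. -/
theorem exists_glueLeft (Q : ∀ {F G : V}, ℕ → (F ⟶ G) → Prop) (R : ℕ → V → Prop)
    (step : ∀ (n : ℕ) {F G : V} (f : F ⟶ G), Q n f → ∃ (F' : V) (g : F' ⟶ F), g ≫ f = 0 ∧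
      (∀ (H : V) (u : H ⟶ F), u ≫ f = 0 → ∃ v : H ⟶ F', v ≫ g = u) ∧ Q (n + 1) g ∧ R n F')
    (X : CochainComplex V ℤ) (m : ℤ) (h₀ : Q 0 (X.d m (m + 1))) :
    ∃ (X' : CochainComplex V ℤ) (φ : X ⟶ X'), (∀ i, m ≤ i → IsIso (φ.f i)) ∧
      (∀ i, m ≤ i → X'.X i = X.X i) ∧ (∀ n : ℕ, R n (X'.X (m - 1 - n))) ∧
      ∀ (P : V) (j : ℤ), j ≤ m → ExactAtFor P X' j := by
  obtain ⟨Y, ψ, h1, h2, h3, h4⟩ := exists_glueLeft_zero Q R step (trX X m) (by
    change Q 0 (X.d (0 + m) (1 + m))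
    have e1 : 0 + m = m := zero_add m
    have e2 : 1 + m = m + 1 := add_comm 1 m
    rw [e1, e2]
    exact h₀)
  obtain ⟨g, hg, hgi⟩ : ∃ g : ∀ i, X.X (i + m) ⟶ Y.X i,
      (∀ i j, g i ≫ Y.d i j = X.d (i + m) (j + m) ≫ g j) ∧ ∀ i, 0 ≤ i → IsIso (g i) :=
    ⟨fun i => ψ.f i, fun i j => ψ.comm i j, h1⟩
  let φ : X ⟶ trX Y (-m) :=
    { f := fun i => (X.XIsoOfEq (show i = i + -m + m by ring)).hom ≫ g (i + -m)
      comm' := fun i j _ => by
        change ((X.XIsoOfEq _).hom ≫ g (i + -m)) ≫ Y.d (i + -m) (j + -m) =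
          X.d i j ≫ (X.XIsoOfEq _).hom ≫ g (j + -m)
        rw [Category.assoc, hg, ← Category.assoc, HomologicalComplex.XIsoOfEq_hom_comp_d,
          ← Category.assoc (X.d i j), HomologicalComplex.d_comp_XIsoOfEq_hom] }
  refine ⟨trX Y (-m), φ, fun i hi => ?_, fun i hi => ?_, fun n => ?_, fun P j hj i k hi hk f hf => ?_⟩
  · have := hgi (i + -m) (by lia)
    exact (inferInstance : IsIso ((X.XIsoOfEq (show i = i + -m + m by ring)).hom ≫ g (i + -m)))
  · have h := h2 (i + -m) (by lia)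
    refine h.trans ?_
    change X.X (i + -m + m) = X.X i
    rw [neg_add_cancel_right]
  · change R n (Y.X (m - 1 - n + -m))
    have e : m - 1 - (n : ℤ) + -m = -1 - n := by ring
    rw [e]
    exact h3 n
  · exact h4 P (j + -m) (by lia) (i + -m) (k + -m) (by lia) (by lia) f hf

end glue

section up

open Cochain.InductionUp

theorem null_aux_up {K L : CochainComplex V ℤ}
    (f : K ⟶ L) (α : Cochain K L (-1)) (n m : ℤ) (hnm : n + 1 = m)
    (hK : CoexactAtFor K (L.X m) m)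
    (hα : (δ (-1) 0 α).EqUpTo (Cochain.ofHom f) n) :
    ∃ (h : K.X (n + 2) ⟶ L.X (n + 1)),
      (δ (-1) 0 (α + Cochain.single h (-1))).EqUpTo (Cochain.ofHom f) m := by
  subst hnm
  let u := f.f (n + 1) - α.v (n + 1) n (by lia) ≫ L.d n (n + 1) -
    K.d (n + 1) (n + 2) ≫ α.v (n + 2) (n + 1) (by lia)
  have hu : K.d n (n + 1) ≫ u = 0 := by
    have eq := hα n n (add_zero n) (by rfl)
    simp only [δ_v (-1) 0 (neg_add_cancel 1) α n n (add_zero _) (n - 1) (n + 1)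
      (by lia) (by lia), Int.negOnePow_zero, one_smul, Cochain.ofHom_v] at eq
    simp only [u, comp_sub, HomologicalComplex.d_comp_d_assoc, zero_comp,
      ← f.comm, ← eq, add_comp, Category.assoc, L.d_comp_d, comp_zero, zero_add, sub_self]
  obtain ⟨β, hβ⟩ : ∃ (β : K.X (n + 2) ⟶ L.X (n + 1)), K.d (n + 1) (n + 2) ≫ β = u :=
    hK n (n + 2) rfl (by lia) u hu
  refine ⟨β, ?_⟩
  intro p q hpq hp
  obtain rfl : p = q := by lia
  obtain hp | rfl := hp.lt_or_eq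
  · rw [δ_add, Cochain.add_v, hα p p (by lia) (by lia), add_eq_left,
      δ_v (-1) 0 (neg_add_cancel 1) _ p p hpq (p - 1) (p + 1) rfl rfl,
      Cochain.single_v_eq_zero _ _ _ _ _ (by lia),
      Cochain.single_v_eq_zero _ _ _ _ _ (by lia)]
    simp
  · rw [δ_v (-1) 0 (neg_add_cancel 1) _ (n + 1) (n + 1) (by lia) n (n + 2)
      (by lia) (by lia), Cochain.add_v,
      Cochain.single_v_eq_zero _ _ _ _ _ (by lia)]
    simp [hβ, u]

/-- A chain map which vanishes in degrees `< d`, from a complex which is coexact in degrees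
`≥ d`, is null homotopic. -/
theorem nullhomotopic_up {K L : CochainComplex V ℤ} (f : K ⟶ L) (d : ℤ)
    (hf : ∀ n, n < d → f.f n = 0) (hK : ∀ n, d ≤ n → CoexactAtFor K (L.X n) n) :
    Nonempty (Homotopy f 0) := by
  let X (n : ℕ) : Set (Cochain K L (-1)) :=
    Set.ofPred (fun α => (δ (-1) 0 α).EqUpTo (Cochain.ofHom f) (n + d - 1))
  let x₀ : X 0 := ⟨0, fun p q hpq hp ↦ by
    obtain rfl : p = q := by lia
    rw [δ_zero, Cochain.zero_v, Cochain.ofHom_v, hf p (by simp at hp; lia)]⟩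
  let φ (n : ℕ) (α : X n) : X (n + 1) :=
    ⟨_, (null_aux_up f α.1 (n + d - 1) ((n + 1 : ℕ) + d - 1)
      (by push_cast; lia) (hK _ (by push_cast; lia)) α.2).choose_spec⟩
  have hφ (k : ℕ) (x : X k) : (φ k x).1.EqUpTo x.1 (d + k) := fun p q hpq hp => by
    dsimp [φ]
    rw [add_eq_left, Cochain.single_v_eq_zero _ _ _ _ _ (by lia)]
  refine ⟨(Cochain.equivHomotopy f 0).symm ⟨limitSequence φ hφ x₀, ?_⟩⟩
  rw [Cochain.ofHom_zero, add_zero]
  ext n
  let k₀ := (n - d + 1).toNat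
  rw [← (sequence φ x₀ k₀).2 n n (add_zero n) (by lia),
    δ_v (-1) 0 (neg_add_cancel 1) _ n n (by lia) (n - 1) (n + 1) rfl (by lia),
    δ_v (-1) 0 (neg_add_cancel 1) _ n n (by lia) (n - 1) (n + 1) rfl (by lia),
    limitSequence_eqUpTo φ hφ x₀ k₀ n (n - 1) (by lia) (by lia),
    limitSequence_eqUpTo φ hφ x₀ k₀ (n + 1) n (by lia) (by lia)]

theorem ext_aux_up {K L : CochainComplex V ℤ} (α : Cochain K L 0) (m m' : ℤ) (hm : m + 1 = m')
    (hK : CoexactAtFor K (L.X m') m) (hα : (δ 0 1 α).EqUpTo 0 (m - 1)) :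
    ∃ h : K.X m' ⟶ L.X m', (δ 0 1 (α + Cochain.single h 0)).EqUpTo 0 m := by
  subst hm
  let u := α.v m m (by lia) ≫ L.d m (m + 1) - K.d m (m + 1) ≫ α.v (m + 1) (m + 1) (by lia)
  have hu : K.d (m - 1) m ≫ u = 0 := by
    have eq := hα (m - 1) m (by lia) (by rfl)
    rw [δ_zero_cochain_v, Cochain.zero_v, sub_eq_zero] at eq
    simp only [u, comp_sub, ← Category.assoc, K.d_comp_d, zero_comp, sub_zero, ← eq]
    simp
  obtain ⟨β, hβ⟩ : ∃ (β : K.X (m + 1) ⟶ L.X (m + 1)), K.d m (m + 1) ≫ β = u :=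
    hK (m - 1) (m + 1) (by lia) rfl u hu
  refine ⟨β, ?_⟩
  intro p q hpq hp
  subst hpq
  obtain hp | rfl := hp.lt_or_eq
  · rw [δ_add, Cochain.add_v, hα p (p + 1) rfl (by lia), add_eq_left, δ_zero_cochain_v,
      Cochain.single_v_eq_zero _ _ _ _ _ (by lia),
      Cochain.single_v_eq_zero _ _ _ _ _ (by lia)]
    simp
  · rw [δ_zero_cochain_v, Cochain.add_v, Cochain.add_v,
      Cochain.single_v_eq_zero β 0 p p (by lia) (by lia)]
    simp [hβ, u]

/-- Extension of chain maps to the right. -/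
theorem exists_extend_up {K L : CochainComplex V ℤ} (α : Cochain K L 0) (m : ℤ)
    (hα : (δ 0 1 α).EqUpTo 0 (m - 1)) (hK : ∀ n, m ≤ n → CoexactAtFor K (L.X (n + 1)) n) :
    ∃ f : K ⟶ L, ∀ i, i ≤ m → f.f i = α.v i i (add_zero i) := by
  let X (n : ℕ) : Set (Cochain K L 0) :=
    Set.ofPred (fun α => (δ 0 1 α).EqUpTo 0 (m - 1 + n))
  let x₀ : X 0 := ⟨α, by
    change (δ 0 1 α).EqUpTo 0 (m - 1 + (0 : ℕ))
    simpa using hα⟩
  let φ (n : ℕ) (α : X n) : X (n + 1) :=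
    ⟨_, by
      have h := (ext_aux_up α.1 (m + n) (m + n + 1) rfl (hK (m + n) (by lia)) (by
        have := α.2
        change (δ 0 1 α.1).EqUpTo 0 (m - 1 + n) at this
        have e : m + (n : ℤ) - 1 = m - 1 + n := by ring
        rwa [e])).choose_spec
      change (δ 0 1 _).EqUpTo 0 (m - 1 + (n + 1 : ℕ))
      have e : m - 1 + ((n + 1 : ℕ) : ℤ) = m + n := by push_cast; ring
      rw [e]
      exact h⟩
  have hφ (k : ℕ) (x : X k) : (φ k x).1.EqUpTo x.1 (m + k) := fun p q hpq hp => by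
    dsimp [φ]
    rw [add_eq_left, Cochain.single_v_eq_zero _ _ _ _ _ (by lia)]
  let lim : Cochain K L 0 := limitSequence φ hφ x₀
  have hlim (n : ℕ) : lim.EqUpTo (sequence φ x₀ n).1 (m + n) := limitSequence_eqUpTo φ hφ x₀ n
  have hδ : δ 0 1 lim = 0 := by
    ext p q hpq
    subst hpq
    let k₀ := (p + 1 - m).toNat
    have h1 := (sequence φ x₀ k₀).2 p (p + 1) rfl (by lia)
    rw [← h1, δ_zero_cochain_v, δ_zero_cochain_v, hlim k₀ p p (by lia) (by lia),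
      hlim k₀ (p + 1) (p + 1) (by lia) (by lia)]
  refine ⟨Cocycle.homOf (Cocycle.mk lim 1 rfl hδ), fun i hi => ?_⟩
  rw [Cocycle.homOf_f]
  exact hlim 0 i i (add_zero i) (by simpa using hi)

/-- A chain map which is an isomorphism in degrees `≤ m` between complexes which are coexact in
degrees `≥ m` is a homotopy equivalence. -/
theorem homotopyEquiv_of_isIso_up {K L : CochainComplex V ℤ} (φ : K ⟶ L) (m : ℤ)
    (hφ : ∀ i, i ≤ m → IsIso (φ.f i)) (hK : ∀ (P : V) (j : ℤ), m ≤ j → CoexactAtFor K P j)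
    (hL : ∀ (P : V) (j : ℤ), m ≤ j → CoexactAtFor L P j) : Nonempty (HomotopyEquiv K L) := by
  classical
  let α : Cochain L K 0 := Cochain.ofHoms fun p =>
    if h : p ≤ m then (have := hφ p h; inv (φ.f p)) else 0
  have hv : ∀ p (h : p ≤ m), φ.f p ≫ α.v p p (add_zero p) = 𝟙 _ ∧
      α.v p p (add_zero p) ≫ φ.f p = 𝟙 _ := by
    intro p h
    have := hφ p h
    have e : α.v p p (add_zero p) = inv (φ.f p) := by
      rw [Cochain.ofHoms_v, dif_pos h]
    rw [e]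
    exact ⟨IsIso.hom_inv_id _, IsIso.inv_hom_id _⟩
  have hα : (δ 0 1 α).EqUpTo 0 (m - 1) := by
    intro p q hpq hp
    subst hpq
    rw [δ_zero_cochain_v, Cochain.zero_v, sub_eq_zero]
    have := hφ p (by lia)
    rw [← cancel_epi (φ.f p), ← Category.assoc, (hv p (by lia)).1, Category.id_comp,
      ← Category.assoc, φ.comm, Category.assoc, (hv (p + 1) (by lia)).1, Category.comp_id]
  obtain ⟨ψ, hψ⟩ := exists_extend_up α m hα fun n hn => hL _ n hn
  obtain ⟨h1⟩ := nullhomotopic_up (φ ≫ ψ - 𝟙 K) (m + 1) (fun n hn => by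
    rw [HomologicalComplex.sub_f_apply, HomologicalComplex.comp_f, HomologicalComplex.id_f,
      hψ n (by lia), (hv n (by lia)).1, sub_self]) (fun n hn => hK _ n (by lia))
  obtain ⟨h2⟩ := nullhomotopic_up (ψ ≫ φ - 𝟙 L) (m + 1) (fun n hn => by
    rw [HomologicalComplex.sub_f_apply, HomologicalComplex.comp_f, HomologicalComplex.id_f,
      hψ n (by lia), (hv n (by lia)).2, sub_self]) (fun n hn => hL _ n (by lia))
  exact ⟨⟨φ, ψ, (Homotopy.equivSubZero).symm h1, (Homotopy.equivSubZero).symm h2⟩⟩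

end up

end Lens
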