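import Pool.Agent.Lens.Dr1
import Pool.Agent.Lens.Glue
import Pool.Agent.Lens.DSplice
import Pool.Agent.Lens.D1

/-!
# Drifting replacement of acyclic complexes

Every acyclic complex is homotopy equivalent to one whose terms in low degrees lie in the class `A`
and whose terms in high degrees lie in the class `B`.
-/

set_option autoImplicit false

open CategoryTheory CategoryTheory.Limits

namespace Lens

universe u

variable {k : Type u} [Field k] {n : ℕ} {lam : Fin n → Fin 2 → k}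

/-- Exactness can be tested on line bundles. -/
theorem exactAtFor_of_emb {X : CochainComplex (Mat_ (LB lam)) ℤ} {j : ℤ}
    (h : ∀ Y : LB lam, ExactAtFor (emb Y) X j) (P : Mat_ (LB lam)) : ExactAtFor P X j := by
  intro i k hi hk f hf
  have h1 : ∀ p : P.ι, ∃ g : emb (P.X p) ⟶ X.X i,
      g ≫ X.d i j = (fun _ l => f p l : emb (P.X p) ⟶ X.X j) := by
    intro p
    refine h (P.X p) i k hi hk (fun _ l => f p l : emb (P.X p) ⟶ X.X j) ?_
    refine DMatrix.ext fun u l => ?_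
    exact congrArg (fun w : P ⟶ X.X k => w p l) hf
  choose g hg using h1
  refine ⟨(fun p l => g p PUnit.unit l : P ⟶ X.X i), DMatrix.ext fun p l => ?_⟩
  exact congrArg (fun w : emb (P.X p) ⟶ X.X j => w PUnit.unit l) (hg p)

/-- Coexactness can be tested on line bundles. -/
theorem coexactAtFor_of_emb {X : CochainComplex (Mat_ (LB lam)) ℤ} {j : ℤ}
    (h : ∀ Y : LB lam, CoexactAtFor X (emb Y) j) (P : Mat_ (LB lam)) : CoexactAtFor X P j := by
  intro i k hi hk f hf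
  have h1 : ∀ p : P.ι, ∃ g : X.X k ⟶ emb (P.X p),
      X.d j k ≫ g = (fun l _ => f l p : X.X j ⟶ emb (P.X p)) := by
    intro p
    refine h (P.X p) i k hi hk (fun l _ => f l p : X.X j ⟶ emb (P.X p)) ?_
    refine DMatrix.ext fun l u => ?_
    exact congrArg (fun w : X.X i ⟶ P => w l p) hf
  choose g hg using h1
  refine ⟨(fun l p => g p l PUnit.unit : X.X k ⟶ P), DMatrix.ext fun l p => ?_⟩
  exact congrArg (fun w : X.X j ⟶ emb (P.X p) => w l PUnit.unit) (hg p)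

theorem LB.hom_eq_zero_of_dg {Y Z : LB lam} (h : LG.dg Z.z < LG.dg Y.z) (f : Y ⟶ Z) : f = 0 := by
  refine LB.hom_eq_zero ?_ f
  have h1 : LG.dg (Z.z - Y.z) < 0 := by
    rw [LG.dg_sub]
    linarith
  simp only [LG.dg] at h1
  omega

theorem Drift.left (X : CochainComplex (Mat_ (LB lam)) ℤ) (hX : Ac X) :
    ∃ (X' : CochainComplex (Mat_ (LB lam)) ℤ), Ac X' ∧ Nonempty (HomotopyEquiv X X') ∧
      ∃ D : ℤ, ∀ (l : ℕ) (i : (X'.X (-1 - l)).ι), LG.dg ((X'.X (-1 - l)).X i).z ≤ D - l := by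
  obtain ⟨D, hD⟩ : ∃ D : ℤ, ∀ i : (X.X 0).ι, LG.dg ((X.X 0).X i).z ≤ D := by
    obtain ⟨D, hD⟩ := Finite.exists_le (fun i : (X.X 0).ι => LG.dg ((X.X 0).X i).z)
    exact ⟨D, hD⟩
  obtain ⟨X', φ, h1, -, h3, h4⟩ := exists_glueLeft (V := Mat_ (LB lam))
    (fun {F _} l f => ∀ Y : LB lam, D - l < LG.dg Y.z → ∀ u : emb Y ⟶ F, u ≫ f = 0 → u = 0)
    (fun l F => ∀ i : F.ι, LG.dg (F.X i).z ≤ D - l)
    (fun l {F G} f hf => by
      obtain ⟨F', g, a1, a2, a3, -, a5⟩ := LB.exists_weakKernel_drift f (D - l) hf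
      refine ⟨F', g, a1, a2, fun Y hY => a5 Y (by push_cast at hY; linarith), a3⟩)
    X 0 (by
      intro Y hY u _
      refine DMatrix.ext fun p i => ?_
      refine LB.hom_eq_zero_of_dg ?_ (u p i)
      have := hD i
      have h2 : (D : ℤ) - ((0 : ℕ) : ℤ) < LG.dg Y.z := hY
      push_cast at h2
      change LG.dg ((X.X 0).X i).z < LG.dg Y.z
      linarith)
  have hX0 : ∀ (P : Mat_ (LB lam)) (j : ℤ), ExactAtFor P X j := fun P j =>
    exactAtFor_of_emb (fun Y => (exactFor_iff _ _).1 (hX Y) j) P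
  have hX' : ∀ (P : Mat_ (LB lam)) (j : ℤ), ExactAtFor P X' j := fun P j => by
    rcases le_or_gt j 0 with hj | hj
    · exact h4 P j hj
    · exact exactAt_of_isIso φ P j (h1 j hj.le) (h1 (j + 1) (by lia)) (hX0 P j)
  refine ⟨X', fun Y => (exactFor_iff _ _).2 fun j => hX' _ j,
    homotopyEquiv_of_isIso_down φ 0 h1 (fun P j _ => hX0 P j) (fun P j _ => hX' P j), D,
    fun l i => ?_⟩
  have h5 := h3 l
  have e : (0 : ℤ) - 1 - l = -1 - l := by ring
  rw [e] at h5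
  exact h5 i

theorem Drift.right (hl : Indep lam) (hn : 2 ≤ n) (X : CochainComplex (Mat_ (LB lam)) ℤ)
    (hX : Ac X) :
    ∃ (X' : CochainComplex (Mat_ (LB lam)) ℤ), Ac X' ∧ Nonempty (HomotopyEquiv X' X) ∧
      (∀ i, i ≤ 0 → X'.X i = X.X i) ∧
      ∃ D : ℤ, ∀ (l : ℕ) (i : (X'.X (1 + l)).ι), D + l ≤ LG.dg ((X'.X (1 + l)).X i).z := by
  obtain ⟨D, hD⟩ : ∃ D : ℤ, ∀ i : (X.X 0).ι, D ≤ LG.dg ((X.X 0).X i).z := by
    obtain ⟨D, hD⟩ := Finite.exists_le (fun i : (X.X 0).ι => -LG.dg ((X.X 0).X i).z)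
    exact ⟨-D, fun i => by have := hD i; linarith⟩
  obtain ⟨X', φ, h1, h2, h3, h4⟩ := exists_glueRight (V := Mat_ (LB lam))
    (fun {_ G} l f => ∀ Y : LB lam, LG.dg Y.z < D + l → ∀ u : G ⟶ emb Y, f ≫ u = 0 → u = 0)
    (fun l G => ∀ i : G.ι, D + l ≤ LG.dg (G.X i).z)
    (fun l F G f hf => by
      obtain ⟨G', g, a1, a2, a3, -, a5⟩ := LB.exists_weakCokernel_drift f (D + l) hf
      refine ⟨G', g, ⟨a1, a2⟩, fun Y hY => a5 Y (by push_cast at hY; linarith), a3⟩)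
    X 0 (by
      intro Y hY u _
      refine DMatrix.ext fun i p => ?_
      refine LB.hom_eq_zero_of_dg ?_ (u i p)
      have := hD i
      have h2 : LG.dg Y.z < (D : ℤ) + ((0 : ℕ) : ℤ) := hY
      push_cast at h2
      change LG.dg Y.z < LG.dg ((X.X 0).X i).z
      linarith)
  have hX0 : ∀ (P : Mat_ (LB lam)) (j : ℤ), CoexactAtFor X P j := fun P j =>
    coexactAtFor_of_emb (fun Y => (coexactFor_iff _ _).1 (hX.coexact hl hn Y) j) P
  have hX' : ∀ (P : Mat_ (LB lam)) (j : ℤ), CoexactAtFor X' P j := fun P j => by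
    rcases le_or_gt 0 j with hj | hj
    · exact h4 P j hj
    · exact coexactAt_of_isIso φ P j (h1 j hj.le) (h1 (j - 1) (by lia)) (hX0 P j)
  refine ⟨X', ac_of_coexact hl hn fun Y => (coexactFor_iff _ _).2 fun j => hX' _ j,
    homotopyEquiv_of_isIso_up φ 0 h1 (fun P j _ => hX' P j) (fun P j _ => hX0 P j), h2, D,
    fun l i => ?_⟩
  have h5 := h3 l
  have e : (0 : ℤ) + 1 + l = 1 + l := by ring
  rw [e] at h5
  exact h5 i

/-- **Drift.** -/
theorem exists_drift' (hl : Indep lam) (hn : 2 ≤ n) (X : CochainComplex (Mat_ (LB lam)) ℤ)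
    (hX : Ac X) :
    ∃ (X' : CochainComplex (Mat_ (LB lam)) ℤ), Ac X' ∧ Nonempty (HomotopyEquiv X X') ∧
      ∃ N : ℤ, TermsIn clA (fun m => m ≤ -N) X' ∧ TermsIn clB (fun m => N ≤ m) X' := by
  obtain ⟨X₁, hX₁, ⟨e₁⟩, D₁, hD₁⟩ := Drift.left X hX
  obtain ⟨X₂, hX₂, ⟨e₂⟩, he, D₂, hD₂⟩ := Drift.right hl hn X₁ hX₁
  refine ⟨X₂, hX₂, ⟨e₁.trans e₂.symm⟩, max (1 + D₁ + 3 * n) (max 1 (2 - D₂)), ?_, ?_⟩
  · intro m hm i
    have h1 : m ≤ -(1 + D₁ + 3 * n) := hm.trans (neg_le_neg (le_max_left _ _))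
    have h2 : m ≤ -1 := hm.trans (neg_le_neg ((le_max_left _ _).trans (le_max_right _ _)))
    obtain ⟨l, hl⟩ : ∃ l : ℕ, m = -1 - l := ⟨(-1 - m).toNat, by lia⟩
    subst hl
    have h3 : ∀ i : (X₂.X (-1 - l)).ι, LG.dg ((X₂.X (-1 - l)).X i).z ≤ D₁ - l := by
      rw [he (-1 - l) (by lia)]
      exact hD₁ l
    have h4 := h3 i
    set z := ((X₂.X (-1 - l)).X i).z with hz
    have h5 : LG.dg (-z) = -LG.dg z := LG.dg_neg z
    have h6 : (-z).I.card ≤ n := by simpa using Finset.card_le_univ (-z).I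
    change InA (-z)
    unfold InA
    unfold LG.dg at h4 h5
    constructor
    · lia
    · lia
  · intro m hm i
    have h1 : 2 - D₂ ≤ m := ((le_max_right _ _).trans (le_max_right _ _)).trans hm
    have h2 : 1 ≤ m := ((le_max_left _ _).trans (le_max_right _ _)).trans hm
    obtain ⟨l, hl⟩ : ∃ l : ℕ, m = 1 + l := ⟨(m - 1).toNat, by lia⟩
    subst hl
    have h4 := hD₂ l i
    set z := ((X₂.X (1 + l)).X i).z with hz
    have h5 : LG.dg (-z) = -LG.dg z := LG.dg_neg z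
    change ¬ NN (-z)
    unfold NN
    unfold LG.dg at h4 h5
    lia

/-- **Drift.** -/
theorem exists_drift (hl : Indep lam) (hn : 3 ≤ n) (X : CochainComplex (Mat_ (LB lam)) ℤ)
    (hX : Ac X) :
    ∃ (X' : CochainComplex (Mat_ (LB lam)) ℤ), Ac X' ∧ Nonempty (HomotopyEquiv X X') ∧
      ∃ N : ℤ, TermsIn clA (fun m => m ≤ -N) X' ∧ TermsIn clB (fun m => N ≤ m) X' :=
  exists_drift' hl (by omega) X hX

end Lens
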