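import Mathlib
import Pool.Agent.Lens.DMain1
import Pool.Agent.Lens.Drift

/-!
# The truncation functor `X ↦ X_J` on acyclic complexes, part 2: full faithfulness
-/

open CategoryTheory CategoryTheory.Limits CategoryTheory.Preadditive
open CategoryTheory.Pretriangulated

namespace Lens

open Pool.Agent.Lens

universe w v u

variable {k : Type u} [Field k] {n : ℕ} {lam : Fin n → Fin 2 → k}

variable (lam) in
/-- `X ↦ X_J` -/
noncomputable abbrev piJ : KMl lam ⥤ KMl lam := RK clJ lay.convJ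

theorem exact_RP (hl : Indep lam) (hn : 3 ≤ n) {X : KMl lam} (hX : acP lam X) (Y : LB lam)
    (hY : clA Y) : ExactFor (emb Y) ((RK clP lay.convP).obj X).as := by
  obtain ⟨b, d, hT⟩ := lay.tri₁ X
  have h1 : ∀ Z : LB lam, clB Z →
      ExactFor (emb Z) ((RK (Lay.B clP) lay.convB).obj X).as := by
    intro Z hZ
    have h2 : ExactFor (emb Z) ((RK clP lay.convP).obj X).as := by
      intro i j l _ _ f _
      refine ⟨0, ?_⟩
      have hf : f = 0 := DMatrix.ext fun a b => lay.h1 (f a b) hZ b.2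
      rw [hf, zero_comp]
    exact (hz_single_iff _ _).1 ((HZ.thk_right _).cone₁ _ hT ((hz_single_iff _ _).2 (hX Z))
      ((hz_single_iff _ _).2 h2))
  have h2 := exact_E hl hn ((RK (Lay.B clP) lay.convB).obj X).as (fun m _ i => i.2) h1 Y hY
  exact (hz_single_iff _ _).1 ((HZ.thk_right _).cone _ hT ((hz_single_iff _ _).2 h2)
    ((hz_single_iff _ _).2 (hX Y)))

theorem hz_RA_RP (hl : Indep lam) (hn : 3 ≤ n) {X Y : KMl lam} (N : ℤ)
    (hX : TermsIn clB (fun m => N ≤ m) X.as) (hY : acP lam Y) :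
    HZ ((RK (Lay.A clP clJ) lay.convA).obj X) ((RK clP lay.convP).obj Y) := by
  refine hz_K1 _ _ N (fun m hm => ⟨fun i => ?_⟩) fun m i => ?_
  · exact hX m hm.le i.1 i.2.1
  · exact exact_RP hl hn hY _ ((clA_iff _).2 i.2)

theorem hz_RB (hl : Indep lam) (hn : 3 ≤ n) {X Y : KMl lam} (N : ℤ)
    (hX : acP lam X) (hY : TermsIn clA (fun m => m ≤ -N) Y.as) :
    HZ X ((RK (Lay.B clP) lay.convB).obj Y) := by
  refine hz_K2 _ _ (-N) (fun m hm => ⟨fun i => ?_⟩) fun m i => ?_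
  · exact i.2 (hY m hm.le i.1).1
  · exact Ac.coexact hl (by omega) hX _

theorem bij_of_drift (hl : Indep lam) (hn : 3 ≤ n) {X Y : KMl lam} (N N' : ℤ)
    (hX : acP lam X) (hY : acP lam Y) (hX' : TermsIn clB (fun m => N ≤ m) X.as)
    (hY' : TermsIn clA (fun m => m ≤ -N') Y.as) :
    Function.Bijective ((piJ lam).map : (X ⟶ Y) → _) := by
  obtain ⟨bX, dX, hTX⟩ := lay.tri₁ X
  obtain ⟨bY, dY, hTY⟩ := lay.tri₁ Y
  obtain ⟨qX, eX, hAX⟩ := lay.tri₂ X
  obtain ⟨qY, eY, hAY⟩ := lay.tri₂ Y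
  exact bij_of_triangles (piJ lam) (RK clP lay.convP) lay.τ lay.σ X Y bX dX hTX bY dY hTY
    qX eX hAX qY eY hAY (hz_RB hl hn N' hX hY') (hz_RA_RP hl hn N hX' hY)
    (TI.hz lay.h1 (RK_TI _ _ X) (RK_TI _ _ Y))
    (TI.hz (fun x y f hx hy => lay.h2 f hx hy.1 hy.2) (RK_TI _ _ X) (RK_TI _ _ Y))

/-- every acyclic complex is isomorphic to one in drift form -/
theorem exists_drift_iso (hl : Indep lam) (hn : 3 ≤ n) {X : KMl lam} (hX : acP lam X) :
    ∃ X' : KMl lam, acP lam X' ∧ Nonempty (X ≅ X') ∧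
      ∃ N : ℤ, TermsIn clA (fun m => m ≤ -N) X'.as ∧ TermsIn clB (fun m => N ≤ m) X'.as := by
  obtain ⟨X', h1, ⟨e⟩, N, h2, h3⟩ := exists_drift hl hn X.as hX
  exact ⟨(HomotopyCategory.quotient _ _).obj X', h1, ⟨HomotopyCategory.isoOfHomotopyEquiv e⟩,
    N, h2, h3⟩

theorem bij_of_iso {C D : Type*} [Category C] [Category D] (F : C ⥤ D) {X X' Y Y' : C}
    (e : X ≅ X') (e' : Y ≅ Y') (h : Function.Bijective (F.map : (X' ⟶ Y') → _)) :
    Function.Bijective (F.map : (X ⟶ Y) → _) := by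
  constructor
  · intro f g hfg
    have h1 : F.map (e.inv ≫ f ≫ e'.hom) = F.map (e.inv ≫ g ≫ e'.hom) := by
      rw [F.map_comp, F.map_comp, F.map_comp, F.map_comp, hfg]
    have h2 := h.1 h1
    exact (cancel_mono e'.hom).1 ((cancel_epi e.inv).1 h2)
  · intro g
    obtain ⟨f, hf⟩ := h.2 (F.map e.inv ≫ g ≫ F.map e'.hom)
    refine ⟨e.hom ≫ f ≫ e'.inv, ?_⟩
    rw [F.map_comp, F.map_comp, hf, Category.assoc, Category.assoc, ← F.map_comp e'.hom,
      e'.hom_inv_id, F.map_id, Category.comp_id, ← Category.assoc, ← F.map_comp, e.hom_inv_id,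
      F.map_id, Category.id_comp]

/-- `X ↦ X_J` is fully faithful on acyclic complexes. -/
theorem piJ_bijective (hl : Indep lam) (hn : 3 ≤ n) {X Y : KMl lam} (hX : acP lam X)
    (hY : acP lam Y) : Function.Bijective ((piJ lam).map : (X ⟶ Y) → _) := by
  obtain ⟨X', hX', ⟨e⟩, N, -, h⟩ := exists_drift_iso hl hn hX
  obtain ⟨Y', hY', ⟨e'⟩, N', h', -⟩ := exists_drift_iso hl hn hY
  exact bij_of_iso _ e e' (bij_of_drift hl hn N N' hX' hY' h h')

end Lens
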