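import Mathlib
import Pool.Agent.Lens.LB
import Pool.Agent.Lens.HomGen
import Pool.Agent.Lens.DcL
import Pool.Agent.Lens.DVoc

/-!
# LENS, block D: the resolution of the `A`-part of `P x`
-/

open CategoryTheory CategoryTheory.Limits MvPolynomial

namespace Lens

universe u

namespace Wx

section build

universe v w

variable {V : Type w} [Category.{v} V] [Preadditive V]

section seq

/-- two consecutive terms -/
structure St (Q : V → Prop) where
  A : V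
  B : V
  f : B ⟶ A
  hQ : Q B

variable {Q : V → Prop}
  (hwk : ∀ (A B : V) (f : B ⟶ A), Q B → ∃ (C : V) (g : C ⟶ B), Q C ∧ g ≫ f = 0 ∧
    ∀ (H : V) (u : H ⟶ B), u ≫ f = 0 → ∃ v : H ⟶ C, v ≫ g = u)

/-- the next weak kernel -/
noncomputable def next (s : St Q) : St Q where
  A := s.B
  B := (hwk s.A s.B s.f s.hQ).choose
  f := (hwk s.A s.B s.f s.hQ).choose_spec.choose
  hQ := (hwk s.A s.B s.f s.hQ).choose_spec.choose_spec.1

theorem next_comp (s : St Q) : (next hwk s).f ≫ s.f = 0 :=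
  (hwk s.A s.B s.f s.hQ).choose_spec.choose_spec.2.1

theorem next_exact (s : St Q) (H : V) (u : H ⟶ s.B) (hu : u ≫ s.f = 0) :
    ∃ v : H ⟶ (next hwk s).B, v ≫ (next hwk s).f = u :=
  (hwk s.A s.B s.f s.hQ).choose_spec.choose_spec.2.2 H u hu

/-- iterated weak kernels -/
noncomputable def sq (s : St Q) : ℕ → St Q
  | 0 => s
  | m + 1 => next hwk (sq s m)

end seq

theorem exists_seq {Q : V → Prop}
    (hwk : ∀ (A B : V) (f : B ⟶ A), Q B → ∃ (C : V) (g : C ⟶ B), Q C ∧ g ≫ f = 0 ∧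
      ∀ (H : V) (u : H ⟶ B), u ≫ f = 0 → ∃ v : H ⟶ C, v ≫ g = u)
    (Φ : ∀ A B : V, (B ⟶ A) → Prop) {A B : V} (f : B ⟶ A) (hB : Q B) (hf : Φ A B f) :
    ∃ (F : ℕ → V) (φ : ∀ m, F (m + 1) ⟶ F m), Φ _ _ (φ 0) ∧ (∀ m, Q (F (m + 1))) ∧
      (∀ m, φ (m + 1) ≫ φ m = 0) ∧
      ∀ (m : ℕ) (H : V) (u : H ⟶ F (m + 1)), u ≫ φ m = 0 →
        ∃ v : H ⟶ F (m + 2), v ≫ φ (m + 1) = u := by
  let s : St Q := ⟨A, B, f, hB⟩
  exact ⟨fun m => (sq hwk s m).A, fun m => (sq hwk s m).f, hf, fun m => (sq hwk s m).hQ,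
    fun m => next_comp hwk (sq hwk s m), fun m H u hu => next_exact hwk (sq hwk s m) H u hu⟩

section cpx

variable [HasZeroObject V]

open scoped ZeroObject

/-- the terms -/
noncomputable def obj (F : ℕ → V) : ℤ → V
  | Int.ofNat 0 => F 0
  | Int.ofNat (_ + 1) => 0
  | Int.negSucc m => F (m + 1)

/-- the differentials -/
noncomputable def dif (F : ℕ → V) (φ : ∀ m, F (m + 1) ⟶ F m) : ∀ m : ℤ, obj F m ⟶ obj F (m + 1)
  | Int.ofNat _ => 0
  | Int.negSucc 0 => φ 0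
  | Int.negSucc (m + 1) => φ (m + 1)

/-- The complex `⋯ ⟶ F 2 ⟶ F 1 ⟶ F 0 ⟶ 0`, with `F 0` in degree `0`. -/
noncomputable def cpx (F : ℕ → V) (φ : ∀ m, F (m + 1) ⟶ F m) (h : ∀ m, φ (m + 1) ≫ φ m = 0) :
    CochainComplex V ℤ :=
  CochainComplex.of (obj F) (dif F φ) (by
    intro m
    match m with
    | Int.ofNat _ => exact zero_comp
    | Int.negSucc 0 => exact comp_zero
    | Int.negSucc 1 => exact h 0
    | Int.negSucc (m + 2) => exact h (m + 1))

theorem cpx_X_zero (F : ℕ → V) (φ : ∀ m, F (m + 1) ⟶ F m) (h : ∀ m, φ (m + 1) ≫ φ m = 0) :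
    (cpx F φ h).X 0 = F 0 := rfl

theorem cpx_isZero (F : ℕ → V) (φ : ∀ m, F (m + 1) ⟶ F m) (h : ∀ m, φ (m + 1) ≫ φ m = 0) {m : ℤ}
    (hm : 0 < m) : IsZero ((cpx F φ h).X m) := by
  match m, hm with
  | Int.ofNat (m + 1), _ => exact isZero_zero V

theorem exists_neg {m : ℤ} (hm : m < 0) : ∃ l : ℕ, m = Int.negSucc l := by
  match m, hm with
  | Int.negSucc l, _ => exact ⟨l, rfl⟩

theorem cpx_d (F : ℕ → V) (φ : ∀ m, F (m + 1) ⟶ F m) (h : ∀ m, φ (m + 1) ≫ φ m = 0) (m : ℤ) :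
    (cpx F φ h).d m (m + 1) = dif F φ m := CochainComplex.of_d _ _ _

theorem exactAt_neg (F : ℕ → V) (φ : ∀ m, F (m + 1) ⟶ F m) (h : ∀ m, φ (m + 1) ≫ φ m = 0)
    (H : V) (m : ℕ) (hex : ∀ u : H ⟶ F (m + 1), u ≫ φ m = 0 → ∃ v : H ⟶ F (m + 2),
      v ≫ φ (m + 1) = u) : ExactAtFor H (cpx F φ h) (Int.negSucc m) := by
  intro i j hi hj f hf
  obtain rfl : i = Int.negSucc (m + 1) := by
    have : i = Int.negSucc m - 1 := by omega
    rw [this]
    rfl
  subst hj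
  have e1 := cpx_d F φ h (Int.negSucc m)
  have e2 : (cpx F φ h).d (Int.negSucc (m + 1)) (Int.negSucc m) = φ (m + 1) :=
    cpx_d F φ h (Int.negSucc (m + 1))
  rw [e1] at hf
  rw [e2]
  match m, hex, f, hf with
  | 0, hex, f, hf => exact hex f hf
  | m + 1, hex, f, hf => exact hex f hf

theorem exactAt_zero (F : ℕ → V) (φ : ∀ m, F (m + 1) ⟶ F m) (h : ∀ m, φ (m + 1) ≫ φ m = 0)
    (H : V) (hex : ∀ u : H ⟶ F 0, ∃ v : H ⟶ F 1, v ≫ φ 0 = u) :
    ExactAtFor H (cpx F φ h) 0 := by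
  intro i j hi hj f _
  obtain rfl : i = Int.negSucc 0 := by
    have : i = -1 := by omega
    rw [this]
    rfl
  have e2 : (cpx F φ h).d (Int.negSucc 0) 0 = φ 0 := cpx_d F φ h (Int.negSucc 0)
  rw [e2]
  exact hex f

end cpx

end build

section approx

variable {k S L : Type*} [CommRing k] [CommRing S] [Algebra k S] [IsNoetherianRing S]
  [AddCommGroup L] [DecidableEq L] (𝒮 : L → Submodule k S) [GradedAlgebra 𝒮]

/-- The homogeneous elements of degree `a - z`, `z` in a class `P`, are generated by finitely many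
of them. -/
theorem class_gen (P : L → Prop) (a : L) :
    ∃ (n : ℕ) (d : Fin n → L) (g : Fin n → S), (∀ m, P (d m)) ∧ (∀ m, g m ∈ 𝒮 (a - d m)) ∧
      ∀ (z : L) (u : S), P z → u ∈ 𝒮 (a - z) →
        ∃ v : Fin n → S, (∀ m, v m ∈ 𝒮 (d m - z)) ∧ u = ∑ m, v m * g m := by
  classical
  let K : Set S := {u | ∃ z, P z ∧ u ∈ 𝒮 (a - z)}
  obtain ⟨T, hTK, hT⟩ := (Submodule.fg_span_iff_fg_span_finset_subset K).1
    (IsNoetherian.noetherian (Submodule.span S K))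
  let e := T.equivFin
  let g : Fin T.card → S := fun m => (e.symm m : T).1
  have hgK : ∀ m, g m ∈ K := fun m => hTK (e.symm m).2
  choose d hd1 hd2 using hgK
  refine ⟨T.card, d, g, hd1, hd2, fun z u hz hu => ?_⟩
  have hmem : u ∈ Submodule.span S (Set.range g) := by
    have h1 : (T : Set S) ⊆ Set.range g := by
      intro w hw
      exact ⟨e ⟨w, hw⟩, by simp [g]⟩
    refine Submodule.span_mono h1 ?_
    rw [← hT]
    exact Submodule.subset_span ⟨z, hz, hu⟩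
  obtain ⟨c, hc⟩ := (Submodule.mem_span_range_iff_exists_fun S).1 hmem
  refine ⟨fun m => (DirectSum.decompose 𝒮 (c m) (d m - z) : S), fun m => SetLike.coe_mem _, ?_⟩
  have h2 : u = ∑ m, c m * g m := by
    rw [← hc]
    rfl
  have h3 : u = (DirectSum.decompose 𝒮 u (a - z) : S) :=
    (DirectSum.decompose_of_mem_same 𝒮 hu).symm
  rw [h3, h2, DirectSum.decompose_sum, DFinsupp.finsetSum_apply, AddSubmonoidClass.coe_finsetSum]
  refine Finset.sum_congr rfl fun m _ => ?_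
  have h4 : a - z = (d m - z) + (a - d m) := by abel
  rw [h4]
  exact DirectSum.coe_decompose_mul_add_of_right_mem 𝒮 (hd2 m)

end approx

section LBpart

variable {k : Type u} [Field k] {n : ℕ} {lam : Fin n → Fin 2 → k}

/-- Every line bundle has a finite right approximation by the class `c`. -/
theorem exists_approx (c : LB lam → Prop) (x : LB lam) :
    ∃ (F : Mat_ (LB lam)) (g : F ⟶ emb x), (∀ i, c (F.X i)) ∧
      ∀ Y : LB lam, c Y → ∀ u : emb Y ⟶ emb x, ∃ v : emb Y ⟶ F, v ≫ g = u := by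
  classical
  let _ : GradedAlgebra (weightedHomogeneousSubmodule k (wt n)) := weightedGradedAlgebra k (wt n)
  let q : Big k n →+* S lam := Ideal.Quotient.mk (relIdeal lam)
  obtain ⟨N, d, g, hg1, hg2, hg3⟩ := class_gen (weightedHomogeneousSubmodule k (wt n))
    (fun z => c ⟨z⟩) x.z
  let F : Mat_ (LB lam) := ⟨Fin N, fun m => ⟨d m⟩⟩
  let g' : F ⟶ emb x := fun m _ => LB.homMk (q (g m)) ⟨g m, hg2 m, rfl⟩
  refine ⟨F, g', hg1, fun Y hY u => ?_⟩
  obtain ⟨w, hw1, hw2⟩ := LB.Hom.mem (u PUnit.unit PUnit.unit)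
  obtain ⟨v, hv1, hv2⟩ := hg3 Y.z w hY hw1
  let v' : emb Y ⟶ F := fun _ m => LB.homMk (q (v m)) ⟨v m, hv1 m, rfl⟩
  refine ⟨v', LB.mat_ext_f fun i j => ?_⟩
  refine (LB.mat_comp_f v' g' i j).trans ?_
  have hw2' : q w = LB.Hom.f (u i j) := hw2
  rw [← hw2', hv2, map_sum]
  exact Finset.sum_congr rfl fun m _ => (map_mul q _ _).symm

/-- The class `A` is closed upwards. -/
theorem clA_up {Y Z : LB lam} (f : Y ⟶ Z) (hf : f ≠ 0) (hZ : clA Z) : clA Y := by
  have h1 := LB.le_of_ne_zero f hf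
  obtain ⟨h2, h3⟩ := hZ
  simp only [clA, InA, LG.neg_a, LG.neg_I] at h2 h3 ⊢
  have h4 := Finset.card_le_card_sdiff_add_card (s := Y.z.I) (t := Z.z.I)
  have h5 := Finset.card_sdiff_add_card (s := Z.z.I) (t := Y.z.I)
  have h6 : (Y.z.I).card ≤ (Z.z.I ∪ Y.z.I).card := Finset.card_le_card Finset.subset_union_right
  have h7 : (Z.z.I).card ≤ (Z.z.I ∪ Y.z.I).card := Finset.card_le_card Finset.subset_union_left
  constructor <;> omega

end LBpart

end Wx

variable {k : Type u} [Field k] {n : ℕ} {lam : Fin n → Fin 2 → k}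

open Wx in
/-- The resolution of the `A`-part of `P x`: a complex `⋯ ⟶ F 2 ⟶ F 1 ⟶ P x` with `F i` in `add A`,
exact on `A`, and exact everywhere in negative degrees. -/
theorem exists_Wx (x : LB lam) :
    ∃ W : CochainComplex (Mat_ (LB lam)) ℤ, (∀ m, 0 < m → IsZero (W.X m)) ∧
      Nonempty (W.X 0 ≅ emb x) ∧ TermsIn clA (fun m => m < 0) W ∧
      (∀ Y, clA Y → ExactFor (emb Y) W) ∧ (∀ (Y : LB lam) (j : ℤ), j < 0 →
        ExactAtFor (emb Y) W j) := by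
  obtain ⟨B, g, hB, hg⟩ := exists_approx clA x
  obtain ⟨F, φ, ⟨⟨e⟩, h0⟩, hQ, hc, hex⟩ := exists_seq
    (Q := fun M : Mat_ (LB lam) => ∀ i, clA (M.X i))
    (fun A B f hB => by
      obtain ⟨C, g, h1, h2, h3⟩ := LB.exists_weakKernel f
      refine ⟨C, g, fun m => ?_, h1, h2⟩
      obtain ⟨i, h, hh⟩ := h3 m
      exact clA_up h hh (hB i))
    (fun A B f => Nonempty (A ≅ emb x) ∧ ∀ Y : LB lam, clA Y → ∀ u : emb Y ⟶ A,
      ∃ v : emb Y ⟶ B, v ≫ f = u) g hB ⟨⟨Iso.refl _⟩, hg⟩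
  have hneg : ∀ (Y : LB lam) (j : ℤ), j < 0 → ExactAtFor (emb Y) (cpx F φ hc) j := by
    intro Y j hj
    obtain ⟨l, rfl⟩ := exists_neg hj
    exact exactAt_neg F φ hc (emb Y) l fun u hu => hex l (emb Y) u hu
  refine ⟨cpx F φ hc, fun m hm => cpx_isZero F φ hc hm, ⟨e⟩, ?_, ?_, hneg⟩
  · intro m hm i
    obtain ⟨l, rfl⟩ := exists_neg hm
    exact hQ l i
  · intro Y hY i j k hij hjk f hf
    rcases lt_trichotomy j 0 with hj | hj | hj
    · exact hneg Y j hj i k hij hjk f hf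
    · subst hj
      exact exactAt_zero F φ hc (emb Y) (fun u => h0 Y hY u) i k hij hjk f hf
    · exact ⟨0, (cpx_isZero F φ hc hj).eq_of_tgt _ _⟩

end Lens
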