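import Pool.Agent.Lens.Tw
import Pool.Agent.Lens.Comb

/-!
# Representations of the poset of cells, the cellular chain complex, twists by roots of unity
-/

open CategoryTheory CategoryTheory.Limits CategoryTheory.Pretriangulated

namespace Lens

universe w v u

theorem pow_eq_of_mod {k : Type*} [Field k] {r : ℕ} {z : k} (hz : z ^ r = 1) {m n : ℕ}
    (h : m % r = n % r) : z ^ m = z ^ n := by
  have h1 : ∀ m : ℕ, z ^ m = z ^ (m % r) := fun m => by
    conv_lhs => rw [← Nat.div_add_mod m r, pow_add, pow_mul, hz, one_pow, one_mul]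
  rw [h1 m, h1 n, h]

theorem ne_zero_of_pow {k : Type*} [Field k] {r : ℕ} (hr : 0 < r) {z : k} (hz : z ^ r = 1) :
    z ≠ 0 := by
  rintro rfl
  rw [zero_pow hr.ne'] at hz
  exact zero_ne_one hz

/-- the homotopy category of complexes of finite direct sums of objects of `𝓐` -/
abbrev KM (𝓐 : Type u) [Category.{v} 𝓐] [Preadditive 𝓐] :=
  HomotopyCategory (Mat_ 𝓐) (ComplexShape.up ℤ)

variable {k : Type w} [Field k] {𝓐 : Type u} [Category.{v} 𝓐] [Preadditive 𝓐] [Linear k 𝓐]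

/-- A representation of the poset of cells: objects `P σ` with `Hom (P σ, P τ) = k • e σ τ` if `τ`
is a face of `σ` and `0` otherwise. -/
structure PRep (k : Type w) [Field k] (𝓐 : Type u) [Category.{v} 𝓐] [Preadditive 𝓐]
    [Linear k 𝓐] (Z : Cells) where
  P : Z.N → 𝓐
  e : ∀ σ τ, P σ ⟶ P τ
  e_self : ∀ σ, e σ σ = 𝟙 _
  e_comp : ∀ σ τ ρ, Z.le τ σ → Z.le ρ τ → e σ τ ≫ e τ ρ = e σ ρ
  span : ∀ σ τ (f : P σ ⟶ P τ), ∃ a : k, f = a • e σ τ
  zero : ∀ σ τ, ¬ Z.le τ σ → ∀ f : P σ ⟶ P τ, f = 0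
  nz : ∀ σ τ, Z.le τ σ → e σ τ ≠ 0

namespace PRep

variable {Z : Cells} (R : PRep k 𝓐 Z)

/-- the cellular chain complex as finite data -/
noncomputable def tw : Tw 𝓐 where
  ι := Z.N
  deg σ := - (Z.dim σ : ℤ)
  P := R.P
  D σ τ := (Z.inc σ τ : k) • R.e σ τ
  D_deg σ τ h := by
    by_cases h0 : Z.inc σ τ = 0
    · rw [h0, Int.cast_zero, zero_smul]
    · exfalso
      have h1 := (Z.inc_le σ τ h0).2
      exact h (by rw [h1]; push_cast; ring)
  D_D σ ρ := by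
    have h1 : ∀ τ, ((Z.inc σ τ : k) • R.e σ τ) ≫ ((Z.inc τ ρ : k) • R.e τ ρ) =
        ((Z.inc σ τ * Z.inc τ ρ : ℤ) : k) • R.e σ ρ := by
      intro τ
      rw [Linear.smul_comp, Linear.comp_smul, smul_smul, Int.cast_mul]
      by_cases h2 : Z.inc σ τ = 0
      · rw [h2, Int.cast_zero, zero_mul, zero_smul, zero_smul]
      by_cases h3 : Z.inc τ ρ = 0
      · rw [h3, Int.cast_zero, mul_zero, zero_smul, zero_smul]
      · rw [R.e_comp σ τ ρ (Z.inc_le σ τ h2).1 (Z.inc_le τ ρ h3).1]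
    rw [Finset.sum_congr rfl fun τ _ => h1 τ, ← Finset.sum_smul, ← Int.cast_sum, Z.sq σ ρ,
      Int.cast_zero, zero_smul]

/-- the object `P σ` in the homotopy category -/
noncomputable def PK (σ : Z.N) : KM 𝓐 := (Tw.single (R.P σ)).toK

/-- twist by a root of unity -/
noncomputable def twist {r : ℕ} (Λ : Z.Loop k r) (z : k) (hz : z ^ r = 1) : PRep k 𝓐 Z where
  P := R.P
  e σ τ := z ^ (Λ.G σ τ) • R.e σ τ
  e_self σ := by
    rw [pow_eq_of_mod hz (n := 0) (by simpa using Λ.self σ), pow_zero, one_smul, R.e_self]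
  e_comp σ τ ρ h h' := by
    rw [Linear.smul_comp, Linear.comp_smul, smul_smul, R.e_comp σ τ ρ h h', ← pow_add,
      pow_eq_of_mod hz (Λ.add σ τ ρ h h')]
  span σ τ f := by
    obtain ⟨a, rfl⟩ := R.span σ τ f
    have h0 : z ^ (Λ.G σ τ) ≠ 0 := pow_ne_zero _ (ne_zero_of_pow Λ.pos hz)
    exact ⟨a * (z ^ (Λ.G σ τ))⁻¹, by rw [smul_smul, mul_assoc, inv_mul_cancel₀ h0, mul_one]⟩
  zero := R.zero
  nz σ τ h := smul_ne_zero (pow_ne_zero _ (ne_zero_of_pow Λ.pos hz)) (R.nz σ τ h)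

end PRep

end Lens
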