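import Mathlib
import Pool.Agent.Lens.Defs

/-!
# Thick envelopes, and exceptional sequences in them
-/

open CategoryTheory CategoryTheory.Limits CategoryTheory.Pretriangulated
open scoped ZeroObject

namespace Lens

universe w v u

section Thick

variable {T : Type u} [Category.{v} T] [Preadditive T]
  [HasZeroObject T] [HasShift T ℤ] [∀ n : ℤ, (shiftFunctor T n).Additive] [Pretriangulated T]

/-- A property of the objects of a full subcategory as a property of objects of the big
category. -/
def pushProp (R : ObjectProperty T) (P : ObjectProperty R.FullSubcategory) : ObjectProperty T :=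
  fun X => ∃ h : R X, P ⟨X, h⟩

theorem pushProp_retracts (R : ObjectProperty T) [R.IsStableUnderRetracts]
    (P : ObjectProperty R.FullSubcategory) [P.IsStableUnderRetracts] :
    (pushProp R P).IsStableUnderRetracts := by
  constructor
  rintro X Y r ⟨hY, hPY⟩
  have hX : R X := R.prop_of_retract r hY
  refine ⟨hX, P.prop_of_retract (X := ⟨X, hX⟩) (Y := ⟨Y, hY⟩) ?_ hPY⟩
  exact
    { i := ⟨r.i⟩
      r := ⟨r.r⟩
      retract := by ext; exact r.retract }

set_option backward.defeqAttrib.useBackward true in
set_option backward.isDefEq.respectTransparency false in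
theorem pushProp_triangulated (R : ObjectProperty T) [R.IsTriangulated]
    [R.IsStableUnderRetracts] (P : ObjectProperty R.FullSubcategory) [P.IsTriangulated]
    [P.IsStableUnderRetracts] : (pushProp R P).IsTriangulated := by
  have hQR := pushProp_retracts R P
  refine
    { exists_zero := ⟨0, isZero_zero T, R.prop_zero, ?_⟩
      isStableUnderShiftBy := fun n => ?_
      toIsTriangulatedClosed₂ := .mk' ?_ }
  · exact P.prop_of_isZero
      (IsZero.of_full_of_faithful_of_isZero R.ι ⟨0, R.prop_zero⟩ (isZero_zero T))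
  · constructor
    rintro X ⟨hX, hPX⟩
    exact ⟨R.le_shift n X hX, P.prop_of_iso (R.fullyFaithfulι.preimageIso
      ((R.ι.commShiftIso n).app ⟨X, hX⟩)) (P.le_shift n _ hPX)⟩
  · rintro Δ hΔ ⟨h1, hP1⟩ ⟨h3, hP3⟩
    have h2 : R Δ.obj₂ := R.ext_of_isTriangulatedClosed₂ Δ hΔ h1 h3
    refine ⟨h2, ?_⟩
    let Δ' : Triangle R.FullSubcategory :=
      Triangle.mk (X := ⟨Δ.obj₁, h1⟩) (Y := ⟨Δ.obj₂, h2⟩) (Z := ⟨Δ.obj₃, h3⟩)
        ⟨Δ.mor₁⟩ ⟨Δ.mor₂⟩ (R.fullyFaithfulι.preimage
          (Δ.mor₃ ≫ (R.ι.commShiftIso (1 : ℤ)).inv.app ⟨Δ.obj₁, h1⟩))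
    have hΔ' : Δ' ∈ distTriang _ := by
      change R.ι.mapTriangle.obj Δ' ∈ distTriang _
      refine isomorphic_distinguished _ hΔ _
        (Triangle.isoMk _ _ (Iso.refl _) (Iso.refl _) (Iso.refl _) ?_ ?_ ?_)
      · simp [Δ']
      · simp [Δ']
      · simp [Δ']
    exact P.ext_of_isTriangulatedClosed₂ Δ' hΔ' hP1 hP3

/-- A thick subcategory of the thick envelope of `G` which contains `G` is everything. -/
theorem envelope_ind [IsTriangulated T] (G : ObjectProperty T) [G.Nonempty]
    (P : ObjectProperty G.triangEnvelope.FullSubcategory) (hP : P.IsTriangulated)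
    (hR : P.IsStableUnderRetracts) (h : ∀ Y (hY : G Y), P ⟨Y, G.le_triangEnvelope _ hY⟩) :
    ∀ X, P X := by
  have h1 := pushProp_retracts G.triangEnvelope P
  have h2 := pushProp_triangulated G.triangEnvelope P
  have h3 : G.triangEnvelope ≤ pushProp G.triangEnvelope P :=
    (G.triangEnvelope_le_iff).2 fun Y hY => ⟨_, h Y hY⟩
  exact fun X => (h3 X.1 X.2).2

end Thick

section Reflect

variable {k : Type w} [Field k] {T : Type u} [Category.{v} T] [Preadditive T] [Linear k T]
  [HasShift T ℤ]
  {T' : Type*} [Category T'] [Preadditive T'] [Linear k T'] [HasShift T' ℤ]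

instance fullSubcategory_ι_linear {C : Type u} [Category.{v} C] [Preadditive C] [Linear k C]
    (P : ObjectProperty C) : P.ι.Linear k where
  map_smul _ _ := rfl

/-- The shifts of a full subcategory are linear. -/
theorem shift_linear_of_faithful (F : T' ⥤ T) [F.Faithful] [F.Linear k] [F.CommShift ℤ]
    (n : ℤ) [(shiftFunctor T n).Linear k] : (shiftFunctor T' n).Linear k where
  map_smul {X Y} f a := by
    apply F.map_injective
    rw [← cancel_mono ((F.commShiftIso n).hom.app Y), F.map_smul, Linear.smul_comp,
      F.commShiftIso_hom_naturality, F.commShiftIso_hom_naturality, F.map_smul,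
      Functor.map_smul, Linear.comp_smul]

instance fullSubcategory_shift_linear (P : ObjectProperty T) [P.IsStableUnderShift ℤ] (n : ℤ)
    [(shiftFunctor T n).Linear k] : (shiftFunctor P.FullSubcategory n).Linear k :=
  shift_linear_of_faithful P.ι n

variable [HasZeroObject T] [∀ n : ℤ, (shiftFunctor T n).Additive] [Pretriangulated T]
  [HasZeroObject T'] [∀ n : ℤ, (shiftFunctor T' n).Additive] [Pretriangulated T']

/-- A fully faithful `k`-linear functor commuting with shifts reflects exceptional objects. -/
theorem IsExceptional.of_map (F : T' ⥤ T) [F.Full] [F.Faithful] [F.Additive] [F.Linear k]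
    [F.CommShift ℤ] {E : T'} (h : IsExceptional k (F.obj E)) : IsExceptional k E where
  end_eq f := by
    obtain ⟨a, ha⟩ := h.end_eq (F.map f)
    refine ⟨a, F.map_injective ?_⟩
    rw [ha, F.map_smul, F.map_id]
  id_ne h0 := h.id_ne (by rw [← F.map_id, h0, F.map_zero])
  shift_zero m hm f := by
    apply F.map_injective
    rw [F.map_zero, ← cancel_mono ((F.commShiftIso m).hom.app E), zero_comp]
    exact h.shift_zero m hm _

/-- A fully faithful `k`-linear functor commuting with shifts reflects exceptional sequences. -/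
theorem IsExceptionalSeq.of_map (F : T' ⥤ T) [F.Full] [F.Faithful] [F.Additive] [F.Linear k]
    [F.CommShift ℤ] {n : ℕ} {E : Fin n → T'} (h : IsExceptionalSeq k (fun i => F.obj (E i))) :
    IsExceptionalSeq k E where
  exc i := (h.exc i).of_map F
  semi i j hij m f := by
    apply F.map_injective
    rw [F.map_zero, ← cancel_mono ((F.commShiftIso m).hom.app (E i)), zero_comp]
    exact h.semi i j hij m _

end Reflect

end Lens
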