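import Mathlib
import Pool.Agent.Lens.Thick
import Pool.Agent.Lens.Cls
import Pool.Agent.Lens.PRep
import Pool.Agent.Lens.LB

/-!
# Block E: the thick subcategory `T_A` and its standard exceptional sequence

`JI n` is the interval `[0, (n-3) c]` of `L`; `TA lam` the thick subcategory of the homotopy
category of complexes of finite sums of line bundles which is generated by the `𝒪(-z)`,
`z ∈ JI n`.
-/

open CategoryTheory CategoryTheory.Limits CategoryTheory.Pretriangulated

namespace Lens

universe w v u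

/-! ## Homs between single objects -/

namespace Tw

variable {𝓐 : Type u} [Category.{v} 𝓐] [Preadditive 𝓐]

/-- a morphism of `𝓐` as a cocycle -/
def homCoc {A B : 𝓐} (f : A ⟶ B) : Coc (single A) (single B) 0 where
  f _ _ := f
  deg _ _ h := absurd rfl h
  coc _ _ := by
    rw [Finset.sum_eq_zero (fun l _ => comp_zero), Finset.sum_eq_zero (fun l _ => zero_comp),
      smul_zero]

theorem cls_zero {A B : Tw 𝓐} {m : ℤ} (c : Coc A B m) (h : ∀ i j, c.f i j = 0) : c.cls = 0 :=
  (Coc.cls_eq_zero_iff c).2 ⟨fun _ _ => 0, fun _ _ _ => rfl, fun i j => by simp [h]⟩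

/-- no morphisms of nonzero degree between single objects -/
theorem single_shift_zero {A B : 𝓐} {m : ℤ} (hm : m ≠ 0)
    (f : (single A).toK ⟶ (single B).toK⟦m⟧) : f = 0 := by
  obtain ⟨c, rfl⟩ := Coc.cls_surj f
  refine cls_zero c fun i j => c.deg i j ?_
  simpa [single] using hm.symm

/-- no morphisms between single objects if there are none in `𝓐` -/
theorem single_hom_zero {A B : 𝓐} (h : ∀ f : A ⟶ B, f = 0) (m : ℤ)
    (f : (single A).toK ⟶ (single B).toK⟦m⟧) : f = 0 := by
  obtain ⟨c, rfl⟩ := Coc.cls_surj f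
  exact cls_zero c fun i j => h _

/-- morphisms between single objects are given by morphisms in `𝓐` -/
theorem single_hom_surj {A B : 𝓐} (f : (single A).toK ⟶ (single B).toK) :
    ∃ g : A ⟶ B, (homCoc g).cls₀ = f := by
  obtain ⟨c, rfl⟩ := Coc.cls₀_surj f
  refine ⟨c.f () (), ?_⟩
  rw [← Coc.cls₀_eq, ← Coc.cls₀_eq]
  congr 1

theorem homCoc_id {A : 𝓐} : (homCoc (𝟙 A)).cls₀ = 𝟙 (single A).toK := by
  rw [← Coc.cls₀_one, ← Coc.cls₀_eq, ← Coc.cls₀_eq]
  congr 1
  exact Coc.cls_congr _ _ fun i j _ => (Coc.one_self (single A) i).symm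

theorem homCoc_smul {k : Type w} [Field k] [Linear k 𝓐] {A B : 𝓐} (a : k) (g : A ⟶ B) :
    (homCoc (a • g)).cls₀ = a • (homCoc g).cls₀ :=
  Coc.cls₀_smul a _ _ fun _ _ => rfl

/-- A single object with `End = k` is exceptional in the homotopy category. -/
theorem single_exceptional {k : Type w} [Field k] [Linear k 𝓐] {A : 𝓐}
    (h : ∀ f : A ⟶ A, ∃ a : k, f = a • 𝟙 A) (h1 : 𝟙 A ≠ 0) :
    IsExceptional k (single A).toK where
  end_eq f := by
    obtain ⟨g, rfl⟩ := single_hom_surj f
    obtain ⟨a, rfl⟩ := h g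
    exact ⟨a, by rw [homCoc_smul, homCoc_id]⟩
  id_ne h0 := by
    rw [← homCoc_id] at h0
    obtain ⟨u, hu, hu'⟩ := (Coc.cls₀_eq_zero_iff _).1 h0
    have hu0 : ∀ i j, u i j = 0 := fun i j => hu i j (by simp [single])
    have e1 := hu' () ()
    have e2 : ∀ (l : (single A).ι), u () l ≫ (single A).D l () = 0 := fun l => comp_zero
    have e3 : ∀ (l : (single A).ι), (single A).D () l ≫ u l () = 0 := fun l => zero_comp
    rw [Finset.sum_eq_zero (fun l _ => e2 l), Finset.sum_eq_zero (fun l _ => e3 l),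
      add_zero] at e1
    exact h1 e1
  shift_zero m hm f := single_shift_zero hm f

/-- If `Hom (A, B)` is spanned by one element then so is the `Hom` in the homotopy category. -/
theorem single_finite {k : Type w} [Field k] [Linear k 𝓐] {A B : 𝓐} (e : A ⟶ B)
    (h : ∀ f : A ⟶ B, ∃ a : k, f = a • e) :
    Module.Finite k ((single A).toK ⟶ (single B).toK) := by
  refine Module.Finite.of_surjective (LinearMap.toSpanSingleton k _ (homCoc e).cls₀) fun f => ?_
  obtain ⟨g, rfl⟩ := single_hom_surj f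
  obtain ⟨a, rfl⟩ := h g
  exact ⟨a, by rw [homCoc_smul]; rfl⟩

end Tw

/-! ## E1: enumeration of `J = [0, (n-3) c]` -/

/-- the interval `[0, (n-3) c]` of `L` -/
abbrev JI (n : ℕ) : Type := {z : LG n // 0 ≤ z.a ∧ z.a + z.I.card + 3 ≤ n}

variable {n : ℕ}

instance JI_finite : Finite (JI n) := by
  have : Function.Injective (fun q : JI n =>
      (q.1.I, (⟨q.1.a.toNat, by have := q.2; omega⟩ : Fin (n + 1)))) := by
    rintro ⟨⟨A, a⟩, h⟩ ⟨⟨B, b⟩, h'⟩ hab
    simp only [Prod.mk.injEq, Fin.mk.injEq] at hab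
    simp only at h h'
    simp only [Subtype.mk.injEq, LG.mk.injEq]
    exact ⟨hab.1, by omega⟩
  exact Finite.of_injective _ this

/-- the number of elements of `[0, (n-3) c]` -/
noncomputable def JN (n : ℕ) : ℕ := Nat.card (JI n)

open scoped Classical in
/-- class of an index: `2` for `0`, `1` for the face indices, `0` for the others -/
noncomputable def JI.cl (V : Finset (Fin n) → Prop) (q : JI n) : ℕ :=
  if q.1.I = ∅ ∧ q.1.a = 0 then 2 else if V q.1.I ∧ q.1.a = 0 then 1 else 0

/-- degree of an index -/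
def JI.deg (q : JI n) : ℕ := (LG.dg q.1).toNat

theorem JI.deg_eq (q : JI n) : (q.deg : ℤ) = LG.dg q.1 := by
  have := q.2
  unfold JI.deg LG.dg
  omega

theorem JI.deg_le (q : JI n) : q.deg ≤ 2 * n := by
  have := q.2
  have h := q.deg_eq
  unfold LG.dg at h
  omega

/-- sorting key -/
noncomputable def JI.key (V : Finset (Fin n) → Prop) (q : JI n) : ℕ :=
  q.cl V * (2 * n + 1) + (2 * n - q.deg)

/-- the enumeration -/
noncomputable def JI.enum (V : Finset (Fin n) → Prop) : Fin (JN n) ≃ JI n :=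
  (Tuple.sort (fun i => JI.key V ((Finite.equivFin (JI n)).symm i))).trans
    (Finite.equivFin (JI n)).symm

theorem JI.enum_mono (V : Finset (Fin n) → Prop) :
    Monotone (fun i => JI.key V (JI.enum V i)) :=
  Tuple.monotone_sort (fun i => JI.key V ((Finite.equivFin (JI n)).symm i))

theorem JI.cl_le (V : Finset (Fin n) → Prop) (q : JI n) : q.cl V ≤ 2 := by
  unfold JI.cl
  split_ifs <;> omega

/-- comparison of two terms of the enumeration -/
theorem JI.enum_lt (V : Finset (Fin n) → Prop) {i j : Fin (JN n)} (h : i < j) :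
    (JI.enum V i).cl V < (JI.enum V j).cl V ∨
      ((JI.enum V i).cl V = (JI.enum V j).cl V ∧
        ((JI.enum V j).deg < (JI.enum V i).deg ∨
          ((JI.enum V j).deg = (JI.enum V i).deg ∧ JI.enum V j ≠ JI.enum V i))) := by
  have h1 : JI.key V (JI.enum V i) ≤ JI.key V (JI.enum V j) := JI.enum_mono V h.le
  have h2 := (JI.enum V i).deg_le
  have h3 := (JI.enum V j).deg_le
  have h4 : JI.enum V j ≠ JI.enum V i := fun h' => h.ne' ((JI.enum V).injective h')
  unfold JI.key at h1
  by_cases hc : (JI.enum V i).cl V = (JI.enum V j).cl V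
  · refine Or.inr ⟨hc, ?_⟩
    rw [hc] at h1
    by_cases hd : (JI.enum V j).deg = (JI.enum V i).deg
    · exact Or.inr ⟨hd, h4⟩
    · exact Or.inl (by omega)
  · refine Or.inl (lt_of_le_of_ne ?_ hc)
    by_contra hlt
    have h5 : (JI.enum V j).cl V + 1 ≤ (JI.enum V i).cl V := not_le.1 hlt
    have h6 := Nat.mul_le_mul_right (2 * n + 1) h5
    rw [add_mul, one_mul] at h6
    omega

/-- the face indices form an interval of the enumeration -/
theorem JI.enum_int (V : Finset (Fin n) → Prop) (hV : ∀ A, V A → A.Nonempty) (l : Fin (JN n))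
    (hl : ¬ (V (JI.enum V l).1.I ∧ (JI.enum V l).1.a = 0)) :
    (∀ j, (V (JI.enum V j).1.I ∧ (JI.enum V j).1.a = 0) → l < j) ∨
      (∀ j, (V (JI.enum V j).1.I ∧ (JI.enum V j).1.a = 0) → j < l) := by
  have hcl : ∀ j, (V (JI.enum V j).1.I ∧ (JI.enum V j).1.a = 0) → (JI.enum V j).cl V = 1 := by
    intro j hj
    unfold JI.cl
    rw [if_neg, if_pos hj]
    rintro ⟨h1, -⟩
    exact (hV _ hj.1).ne_empty h1
  have hl1 : (JI.enum V l).cl V ≠ 1 := by
    unfold JI.cl
    split_ifs <;> omega
  have key : ∀ i j, i ≤ j → (JI.enum V i).cl V ≤ (JI.enum V j).cl V := by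
    intro i j hij
    rcases eq_or_lt_of_le hij with rfl | h
    · exact le_rfl
    · rcases JI.enum_lt V h with h | h
      · exact h.le
      · exact h.1.le
  rcases lt_or_gt_of_ne hl1 with h | h
  · refine Or.inl fun j hj => ?_
    by_contra hlt
    have := key j l (not_lt.1 hlt)
    rw [hcl j hj] at this
    omega
  · refine Or.inr fun j hj => ?_
    by_contra hlt
    have := key l j (not_lt.1 hlt)
    rw [hcl j hj] at this
    omega

variable {k : Type u} [Field k] {lam : Fin n → Fin 2 → k}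

/-- nonzero maps decrease the degree -/
theorem P_hom_zero_of_dg {x y : LG n} (h : LG.dg x < LG.dg y ∨ (LG.dg x = LG.dg y ∧ x ≠ y))
    (f : LB.P lam x ⟶ LB.P lam y) : f = 0 := by
  apply LB.P_hom_eq_zero
  by_contra hlt
  have h1 := Finset.card_sdiff_add_card_inter x.I y.I
  have h2 := Finset.card_sdiff_add_card_inter y.I x.I
  rw [Finset.inter_comm y.I x.I] at h2
  unfold LG.dg at h
  rcases h with h | ⟨h, h'⟩
  · omega
  · have h3 : (y.I \ x.I).card = 0 := by omega
    have h4 : (x.I \ y.I).card = 0 := by omega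
    rw [Finset.card_eq_zero, Finset.sdiff_eq_empty_iff_subset] at h3 h4
    have h5 : x.I = y.I := Finset.Subset.antisymm h4 h3
    rw [h5] at h
    exact h' (LG.ext h5 (by omega))

/-- maps from `P x_A` to `P y`, `y ≥ 0`, vanish unless `y = x_B` with `B ⊆ A` -/
theorem P_hom_zero_of_not_face {A : Finset (Fin n)} {y : LG n} (hy : 0 ≤ y.a)
    (h : ¬ (y.I ⊆ A ∧ y.a = 0)) (f : LB.P lam (LG.xs A) ⟶ LB.P lam y) : f = 0 := by
  apply LB.P_hom_eq_zero
  simp only [LG.xs_a, LG.xs_I]
  by_cases h1 : y.I ⊆ A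
  · have : y.a ≠ 0 := fun h2 => h ⟨h1, h2⟩
    omega
  · have : (y.I \ A).card ≠ 0 := by
      rw [Ne, Finset.card_eq_zero, Finset.sdiff_eq_empty_iff_subset]
      exact h1
    omega

/-- maps from later to earlier terms of the enumeration vanish -/
theorem P_enum_zero (V : Finset (Fin n) → Prop)
    (hV : ∀ A, V A → A.Nonempty) (hd : ∀ A B, V A → B ⊆ A → B.Nonempty → V B)
    {i j : Fin (JN n)} (h : i < j)
    (f : LB.P lam (JI.enum V j).1 ⟶ LB.P lam (JI.enum V i).1) : f = 0 := by
  rcases JI.enum_lt V h with h1 | ⟨-, h1⟩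
  · generalize JI.enum V i = q' at h1 f
    generalize JI.enum V j = q at h1 f
    obtain ⟨⟨A, a⟩, hA⟩ := q
    have ha : a = 0 := by
      by_contra ha
      have : JI.cl V ⟨⟨A, a⟩, hA⟩ = 0 := by
        unfold JI.cl
        simp [ha]
      omega
    subst ha
    apply P_hom_zero_of_not_face (A := A) q'.2.1 _ f
    rintro ⟨h2, h3⟩
    obtain ⟨⟨B, b⟩, hB⟩ := q'
    simp only at h2 h3
    subst h3
    rcases B.eq_empty_or_nonempty with rfl | hBn
    · have : JI.cl V ⟨⟨∅, 0⟩, hB⟩ = 2 := by simp [JI.cl]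
      have := JI.cl_le V ⟨⟨A, 0⟩, hA⟩
      omega
    · by_cases hVA : V A
      · have hVB := hd A B hVA h2 hBn
        have e1 : JI.cl V ⟨⟨B, 0⟩, hB⟩ = 1 := by simp [JI.cl, hVB, hBn.ne_empty]
        have e2 : JI.cl V ⟨⟨A, 0⟩, hA⟩ = 1 := by simp [JI.cl, hVA, (hV A hVA).ne_empty]
        omega
      · have hAn : A ≠ ∅ := by
          rintro rfl
          exact hBn.ne_empty (Finset.subset_empty.1 h2)
        have e2 : JI.cl V ⟨⟨A, 0⟩, hA⟩ = 0 := by simp [JI.cl, hVA, hAn]
        omega
  · apply P_hom_zero_of_dg _ f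
    rw [← JI.deg_eq, ← JI.deg_eq]
    rcases h1 with h1 | h1
    · exact Or.inl (by exact_mod_cast h1)
    · exact Or.inr ⟨by exact_mod_cast h1.1, fun h2 => h1.2 (Subtype.ext h2)⟩

/-! ## E0: the category `T_A` -/

variable (lam) in
/-- the generators `𝒪(-z)`, `z ∈ [0, (n-3) c]`, in the homotopy category -/
def gens : ObjectProperty (KM (LB lam)) :=
  fun Y => ∃ q : JI n, Y = (Tw.single (LB.P lam q.1)).toK

variable (lam) in
/-- `T_A`: the thick subcategory of the homotopy category generated by the line bundles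
`𝒪(-z)`, `0 ≤ z ≤ (n-3) c`. -/
def TAprop : ObjectProperty (KM (LB lam)) := (gens lam).triangEnvelope

variable (lam) in
/-- `T_A` as a category -/
abbrev TA := (TAprop lam).FullSubcategory

section

variable [hn : Fact (3 ≤ n)]

instance gens_nonempty : (gens lam).Nonempty :=
  ObjectProperty.nonempty_of_prop (P := gens lam)
    (X := (Tw.single (LB.P lam (⟨0, by have := hn.out; simp; omega⟩ : JI n).1)).toK) ⟨_, rfl⟩

instance TAprop_triangulated : (TAprop lam).IsTriangulated := by
  unfold TAprop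
  infer_instance

instance TAprop_retracts : (TAprop lam).IsStableUnderRetracts := by
  unfold TAprop
  infer_instance

noncomputable example : Category (TA lam) := inferInstance
noncomputable example : Preadditive (TA lam) := inferInstance
noncomputable example : Linear k (TA lam) := inferInstance
noncomputable example : HasZeroObject (TA lam) := inferInstance
noncomputable example : HasShift (TA lam) ℤ := inferInstance
noncomputable example (m : ℤ) : (shiftFunctor (TA lam) m).Additive := inferInstance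
noncomputable example (m : ℤ) : (shiftFunctor (TA lam) m).Linear k := inferInstance
noncomputable example : Pretriangulated (TA lam) := inferInstance
noncomputable example : IsTriangulated (TA lam) := inferInstance

/-! ## E2: the standard complete exceptional sequence -/

variable (lam) in
/-- the object `𝒪(-z)` of `T_A` -/
noncomputable def TAobj (q : JI n) : TA lam :=
  ⟨(Tw.single (LB.P lam q.1)).toK, (gens lam).le_triangEnvelope _ ⟨q, rfl⟩⟩

variable (lam) in
theorem TA_exceptionalSeq (V : Finset (Fin n) → Prop) (hV : ∀ A, V A → A.Nonempty)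
    (hd : ∀ A B, V A → B ⊆ A → B.Nonempty → V B) :
    IsExceptionalSeq k (fun i => TAobj lam (JI.enum V i)) := by
  refine IsExceptionalSeq.of_map (TAprop lam).ι ⟨fun i => ?_, fun i j hij m f => ?_⟩
  · exact Tw.single_exceptional (LB.end_eq _) (LB.id_ne_zero _)
  · exact Tw.single_hom_zero (fun g => P_enum_zero V hV hd hij g) m f

variable (lam) in
theorem TA_complete (V : Finset (Fin n) → Prop) :
    IsComplete (fun i => TAobj lam (JI.enum V i)) := by
  intro P hP hR h X
  refine envelope_ind (gens lam) P hP hR ?_ X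
  rintro Y ⟨q, rfl⟩
  have := h ((JI.enum V).symm q)
  simp only [Equiv.apply_symm_apply] at this
  exact this

variable (lam) in
/-- the standard complete exceptional sequence of `T_A` -/
noncomputable def stdCES (V : Finset (Fin n) → Prop) (hV : ∀ A, V A → A.Nonempty)
    (hd : ∀ A B, V A → B ⊆ A → B.Nonempty → V B) : CES k (TA lam) (JN n) :=
  ⟨fun i => TAobj lam (JI.enum V i), TA_exceptionalSeq lam V hV hd, TA_complete lam V⟩

end

/-! ## E3: the representation of the face poset -/

open scoped Classical in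
variable (lam) in
/-- the map `x_{I \ K} : P x_I ⟶ P x_K` for `K ⊆ I`, and zero otherwise -/
noncomputable def faceMap (K I : Finset (Fin n)) : LB.P lam (LG.xs I) ⟶ LB.P lam (LG.xs K) :=
  if h : K ⊆ I then LB.gen lam h else 0

theorem faceMap_of_subset {K I : Finset (Fin n)} (h : K ⊆ I) : faceMap lam K I = LB.gen lam h :=
  dif_pos h

/-- A finite cell complex whose cells are the faces of a simplicial complex on `n` vertices. -/
structure Simp (n : ℕ) (Z : Cells) where
  verts : Z.N → Finset (Fin n)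
  le_iff : ∀ τ σ, Z.le τ σ ↔ verts τ ⊆ verts σ
  inj : Function.Injective verts
  nonempty : ∀ σ, (verts σ).Nonempty
  card_le : ∀ σ, (verts σ).card + 3 ≤ n
  down : ∀ σ (A : Finset (Fin n)), A ⊆ verts σ → A.Nonempty → ∃ τ, verts τ = A

namespace Simp

variable {Z : Cells} (D : Simp n Z)

/-- the index of a cell -/
def q (σ : Z.N) : JI n :=
  ⟨LG.xs (D.verts σ), le_rfl, by have := D.card_le σ; simp only [LG.xs_a, LG.xs_I]; omega⟩

theorem q_inj : Function.Injective D.q :=
  fun _ _ h => D.inj (congrArg (fun q : JI n => q.1.I) h)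

variable (lam) in
/-- the representation `σ ↦ 𝒪(-x_σ)` of the poset of cells -/
noncomputable def prep : PRep k (LB lam) Z where
  P σ := LB.P lam (LG.xs (D.verts σ))
  e σ τ := faceMap lam (D.verts τ) (D.verts σ)
  e_self σ := by rw [faceMap_of_subset (subset_refl _), LB.gen_self]
  e_comp σ τ ρ h h' := by
    rw [D.le_iff] at h h'
    rw [faceMap_of_subset h, faceMap_of_subset h', faceMap_of_subset (h'.trans h), LB.gen_comp]
  span σ τ f := by
    by_cases h : D.verts τ ⊆ D.verts σ
    · rw [faceMap_of_subset h]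
      exact LB.face_hom_span h f
    · exact ⟨0, by rw [zero_smul]; exact LB.face_hom_zero h f⟩
  zero σ τ h f := LB.face_hom_zero (fun h' => h ((D.le_iff _ _).2 h')) f
  nz σ τ h := by
    rw [D.le_iff] at h
    rw [faceMap_of_subset h]
    exact LB.gen_ne_zero h

@[simp] theorem prep_P (σ : Z.N) : (D.prep lam).P σ = LB.P lam (LG.xs (D.verts σ)) := rfl

theorem prep_e (σ τ : Z.N) (h : D.verts τ ⊆ D.verts σ) : (D.prep lam).e σ τ = LB.gen lam h :=
  faceMap_of_subset h

/-- being a face -/
def V (A : Finset (Fin n)) : Prop := ∃ σ, D.verts σ = A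

theorem V_nonempty (A : Finset (Fin n)) (h : D.V A) : A.Nonempty := by
  obtain ⟨σ, rfl⟩ := h
  exact D.nonempty σ

theorem V_down (A B : Finset (Fin n)) (h : D.V A) (hB : B ⊆ A) (hn : B.Nonempty) : D.V B := by
  obtain ⟨σ, rfl⟩ := h
  exact D.down σ B hB hn

/-- position of a cell in the enumeration -/
noncomputable def pos (σ : Z.N) : Fin (JN n) := (JI.enum D.V).symm (D.q σ)

@[simp] theorem enum_pos (σ : Z.N) : JI.enum D.V (D.pos σ) = D.q σ :=
  (JI.enum D.V).apply_symm_apply _

theorem pos_inj : Function.Injective D.pos := (JI.enum D.V).symm.injective.comp D.q_inj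

/-- the interval of the cells -/
def I (i : Fin (JN n)) : Prop := ∃ σ, i = D.pos σ

theorem I_iff (i : Fin (JN n)) :
    D.I i ↔ (D.V (JI.enum D.V i).1.I ∧ (JI.enum D.V i).1.a = 0) := by
  constructor
  · rintro ⟨σ, rfl⟩
    rw [enum_pos]
    exact ⟨⟨σ, rfl⟩, rfl⟩
  · rintro ⟨⟨σ, h⟩, h'⟩
    refine ⟨σ, ?_⟩
    rw [pos, Equiv.eq_symm_apply]
    exact Subtype.ext (LG.ext h.symm h')

theorem int (l : Fin (JN n)) (hl : ¬ D.I l) :
    (∀ j, D.I j → l < j) ∨ (∀ j, D.I j → j < l) := by
  rw [I_iff] at hl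
  rcases JI.enum_int D.V D.V_nonempty l hl with h | h
  · exact Or.inl fun j hj => h j ((D.I_iff j).1 hj)
  · exact Or.inr fun j hj => h j ((D.I_iff j).1 hj)

variable [hn : Fact (3 ≤ n)]

variable (lam) in
/-- the standard complete exceptional sequence of `T_A`, adapted to the complex -/
noncomputable def ces : CES k (TA lam) (JN n) := stdCES lam D.V D.V_nonempty D.V_down

theorem ces_apply (i : Fin (JN n)) : (D.ces lam).1 i = TAobj lam (JI.enum D.V i) := rfl

theorem ces_pos (σ : Z.N) : (D.ces lam).1 (D.pos σ) = TAobj lam (D.q σ) := by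
  rw [ces_apply, enum_pos]

/-- the finiteness condition of the twist lemma -/
theorem ces_fin (i j : Fin (JN n)) (hi : D.I i) (hj : D.I j) :
    Module.Finite k ((D.ces lam).1 i ⟶ (D.ces lam).1 j) ∧
      ∀ m : ℤ, m ≠ 0 → ∀ f : (D.ces lam).1 i ⟶ ((D.ces lam).1 j)⟦m⟧, f = 0 := by
  obtain ⟨σ, rfl⟩ := hi
  obtain ⟨τ, rfl⟩ := hj
  rw [ces_pos, ces_pos]
  constructor
  · have h : Module.Finite k ((TAprop lam).ι.obj (TAobj lam (D.q σ)) ⟶
        (TAprop lam).ι.obj (TAobj lam (D.q τ))) :=
      Tw.single_finite ((D.prep lam).e σ τ) ((D.prep lam).span σ τ)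
    exact Module.Finite.of_injective
      ((TAprop lam).ι.mapLinearMap k (X := TAobj lam (D.q σ)) (Y := TAobj lam (D.q τ)))
      (TAprop lam).ι.map_injective
  · intro m hm f
    apply (TAprop lam).ι.map_injective
    rw [Functor.map_zero, ← cancel_mono (((TAprop lam).ι.commShiftIso m).hom.app _), zero_comp]
    exact Tw.single_shift_zero hm _

end Simp

end Lens
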