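import Mathlib
import Pool.Agent.Lens.DMain2
import Pool.Agent.Lens.DEnv
import Pool.Agent.Lens.DWx
import Pool.Agent.Lens.DCR
import Pool.Agent.Lens.DCone
import Pool.Agent.Lens.E

/-!
# The truncation functor `X ↦ X_J` on acyclic complexes, part 3: the essential image
-/

open CategoryTheory CategoryTheory.Limits CategoryTheory.Preadditive
open CategoryTheory.Pretriangulated

namespace Lens

open Pool.Agent.Lens

universe w v u

/-! ### restriction of an object with all summands in the class -/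

section

variable {𝓐 : Type u} [Category.{v} 𝓐] [Preadditive 𝓐]

theorem idMat_all_iso (M : Mat_ 𝓐) (S : 𝓐 → Prop) (h : ∀ i, S (M.X i)) :
    idMat M allC S ≫ idMat M S allC = 𝟙 _ := by
  classical
  rw [← idMat_self]
  refine DMatrix.ext fun i k => ?_
  exact (idMat_comp_idMat_apply M allC S allC i k).trans (if_pos (h i.1))

/-- `M_S ≅ M` if all summands are of class `S` -/
noncomputable def resIso (M : Mat_ 𝓐) (S : 𝓐 → Prop) (h : ∀ i, S (M.X i)) : resObj S M ≅ M :=
  Iso.mk (idMat M S allC) (idMat M allC S)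
    ((idMat_comp_idMat _ _ _ _ fun _ _ _ => trivial).trans (idMat_self _ _))
    (idMat_all_iso M S h) ≪≫ (topIsoApp M).symm

theorem isZero_of_hz {X : HomotopyCategory (Mat_ 𝓐) (ComplexShape.up ℤ)} (h : HZ X X) :
    IsZero X := HZ.isZero h

end

variable {k : Type u} [Field k] {n : ℕ} {lam : Fin n → Fin 2 → k}

/-! ### the image of an acyclic complex -/

theorem gens_of_clJ {Y : KMl lam} (h : gensOf (clJ (lam := lam)) Y) : gens lam Y := by
  obtain ⟨X, hX, rfl⟩ := h
  refine ⟨⟨-X.z, hX⟩, ?_⟩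
  have e : LB.P lam (-X.z) = X := by
    cases X
    simp [LB.P]
  rw [e]

theorem exists_clJ (hn : 3 ≤ n) : ∃ X : LB lam, clJ X :=
  ⟨LB.P lam 0, by
    simp only [clJ, InJ, LB.P, neg_zero, LG.zero_a, LG.zero_I, Finset.card_empty]
    omega⟩

theorem piJ_mem (hl : Indep lam) (hn : 3 ≤ n) {X : KMl lam} (hX : acP lam X) :
    TAprop lam ((piJ lam).obj X) := by
  obtain ⟨X', -, ⟨e⟩, N, hA, hB⟩ := exists_drift_iso hl hn hX
  have h1 : (gensOf (clJ (lam := lam))).triangEnvelope ((piJ lam).obj X') := by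
    have hN : ∀ m, (m < -|N| ∨ |N| < m) → IsEmpty (((piJ lam).obj X').as.X m).ι := by
      rintro m (hm | hm)
      · refine ⟨fun i => ?_⟩
        have h2 := hA m (by have := neg_abs_le N; have := le_abs_self N; omega) i.1
        exact ((clA_iff _).1 h2).2 i.2
      · refine ⟨fun i => ?_⟩
        have h2 := hB m (by have := le_abs_self N; omega) i.1
        exact h2 i.2.1
    exact mem_triangEnvelope (exists_clJ hn) ((piJ lam).obj X').as |N| hN (fun m i => i.2)
  have h2 : TAprop lam ((piJ lam).obj X') :=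
    ObjectProperty.monotone_triangEnvelope (fun Y hY => gens_of_clJ hY) _ h1
  have : (TAprop lam).IsClosedUnderIsomorphisms := by
    unfold TAprop
    infer_instance
  exact (TAprop lam).prop_of_iso ((piJ lam).mapIso e.symm) h2

/-! ### the objects `E_x` -/

/-- if `C` is bounded below and `Hom (C, P y) = 0` for all `y ≥ 0`, then `C_J = 0` -/
theorem isZero_piJ {C : KMl lam} (d : ℤ) (hd : ∀ m, m < d → IsEmpty (C.as.X m).ι)
    (h : ∀ Y : LB lam, clP Y → CoexactFor C.as (emb Y)) : IsZero ((piJ lam).obj C) := by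
  obtain ⟨b, δ, hT⟩ := lay.tri₁ C
  obtain ⟨q, e, hT'⟩ := lay.tri₂ C
  -- `Hom (C_P, P y) = 0`
  have h1 : ∀ Y : LB lam, clP Y → CoexactFor ((RK clP lay.convP).obj C).as (emb Y) := by
    intro Y hY
    have h2 : CoexactFor ((RK (Lay.B clP) lay.convB).obj C).as (emb Y) := by
      intro i j l _ _ f _
      refine ⟨0, ?_⟩
      have hf : f = 0 := DMatrix.ext fun a b => lay.h1 (f a b) a.2 hY
      rw [hf, comp_zero]
    exact (single_hz_iff _ _).1 ((HZ.thk_left _).cone _ hT ((single_hz_iff _ _).2 h2)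
      ((single_hz_iff _ _).2 (h Y hY)))
  -- so `C_P = 0`
  have h3 : IsZero ((RK clP lay.convP).obj C) := by
    refine HZ.isZero (hz_K2 _ _ d (fun m hm => ⟨fun i => ?_⟩) fun m i => h1 _ i.2)
    exact (hd m hm).elim i.1
  -- and `C_J = 0`
  have h4 : HZ ((piJ lam).obj C) ((RK clP lay.convP).obj C) := fun m f =>
    ((shiftFunctor (KMl lam) m).map_isZero h3).eq_of_tgt _ _
  have h5 : HZ ((piJ lam).obj C) ((RK (Lay.A clP clJ) lay.convA).obj C) :=
    TI.hz (fun x y f hx hy => lay.h2 f hx hy.1 hy.2) (RK_TI _ _ C) (RK_TI _ _ C)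
  exact HZ.isZero ((HZ.thk_right _).cone₁ _ hT' h4 h5)

theorem isEmpty_of_isZero {M : Mat_ (LB lam)} (h : IsZero M) : IsEmpty M.ι := by
  refine ⟨fun i => LB.id_ne_zero (M.X i) ?_⟩
  have h1 : (𝟙 M : M ⟶ M) i i = 0 := by
    rw [h.eq_of_src (𝟙 M) 0]
    rfl
  exact (Mat_.id_apply_self M i).symm.trans h1

theorem clP_of_iso {M : Mat_ (LB lam)} {x : LB lam} (e : M ≅ emb x) (hx : clP x) (i : M.ι) :
    clP (M.X i) := by
  by_contra hi
  have h0 : e.hom i PUnit.unit = 0 := lay.h1 _ hi hx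
  have h1 : (e.hom ≫ e.inv) i i = 0 := by
    refine (Mat_.comp_apply _ _ _ _).trans (Finset.sum_eq_zero fun j _ => ?_)
    exact (congrArg (· ≫ e.inv j i) h0).trans zero_comp
  rw [e.hom_inv_id] at h1
  exact LB.id_ne_zero (M.X i) ((Mat_.id_apply_self M i).symm.trans h1)

/-- the objects `E_x` with `(E_x)_J = P x` -/
theorem exists_Ex (hl : Indep lam) (hn : 3 ≤ n) (x : LB lam) (hx : clJ x) :
    ∃ E : KMl lam, acP lam E ∧ Nonempty ((piJ lam).obj E ≅ (Tw.single x).toK) := by
  obtain ⟨W, hW0, ⟨e0⟩, hWA, hWex, hWex'⟩ := exists_Wx x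
  obtain ⟨X, f, hX, hf⟩ := exists_CR hl (by omega) W (-1) (fun Y j hj => hWex' Y j (by omega))
  obtain ⟨C, hC, g, h, hT⟩ := cone_of_isIso_lt f (-1) hf
  have hWP : TermsIn clP (fun _ => True) W := by
    intro m _ i
    rcases lt_trichotomy m 0 with hm | hm | hm
    · exact (hWA m hm i).1
    · subst hm
      exact clP_of_iso e0 hx.1 i
    · exact (isEmpty_of_isZero (hW0 m hm)).elim i
  have hCz : IsZero ((piJ lam).obj (QK C)) := by
    refine isZero_piJ (-1 - 1) hC fun Y hY => ?_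
    have h1 : CoexactFor W (emb Y) := coexact_of_exact_A' W hW0 hWP hWex Y hY
    have h2 : CoexactFor X (emb Y) := Ac.coexact hl (by omega) hX Y
    exact (single_hz_iff _ (QK C)).1 ((HZ.thk_left _).cone _ hT
      ((single_hz_iff _ (QK X)).2 h2) ((single_hz_iff _ (QK W)).2 h1))
  have hT2 := (piJ lam).map_distinguished _ hT
  have hiso : IsIso ((piJ lam).map ((HomotopyCategory.quotient _ _).map f)) :=
    (Triangle.isZero₃_iff_isIso₁ _ hT2).1 hCz
  have h0 : ∀ m, m ≠ 0 → IsZero (((piJ lam).obj (QK W)).as.X m) := by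
    intro m hm
    rcases lt_or_gt_of_ne hm with hm | hm
    · have : IsEmpty (((piJ lam).obj (QK W)).as.X m).ι :=
        ⟨fun i => ((clA_iff _).1 (hWA m hm i.1)).2 i.2⟩
      exact isZero_of_isEmpty _
    · exact (resF clJ lay.convJ).map_isZero (hW0 m hm)
  obtain ⟨i⟩ := nonempty_iso_single x ((piJ lam).obj (QK W)).as h0
    ((resF clJ lay.convJ).mapIso e0 ≪≫ resIso (emb x) clJ (fun _ => hx))
  exact ⟨QK X, hX, ⟨asIso ((piJ lam).map ((HomotopyCategory.quotient _ _).map f)) ≪≫ i⟩⟩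

end Lens
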