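import Mathlib
import Pool.Agent.Lens.E
import Pool.Agent.Lens.TwistD
import Pool.Agent.Lens.A3

/-!
# Thick closure = triangulated closure, for a finite exceptional sequence

`TAprop_le`: a triangulated, isomorphism-closed (not necessarily retract-closed) property which
contains the line bundles `𝒪(-z)`, `z ∈ JI n`, contains the whole thick category `TAprop lam`.
-/

open CategoryTheory CategoryTheory.Limits CategoryTheory.Pretriangulated
open Pool.Agent.Lens Pool.Agent.LensD

namespace Lens

universe w v u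

section general

variable {T : Type u} [Category.{v} T] [HasZeroObject T] [HasShift T ℤ] [Preadditive T]
  [∀ n : ℤ, (shiftFunctor T n).Additive] [Pretriangulated T]

/-- triangulated classes of objects (not necessarily closed under retracts) -/
structure Tri (P : T → Prop) : Prop where
  zero : ∀ X : T, IsZero X → P X
  iso : ∀ {X Y : T}, (X ≅ Y) → P X → P Y
  shift : ∀ (X : T) (n : ℤ), P X → P (X⟦n⟧)
  cone : ∀ Δ : Triangle T, Δ ∈ distTriang T → P Δ.obj₁ → P Δ.obj₂ → P Δ.obj₃

theorem Tri.ofThk {P : T → Prop} (hP : Thk P) : Tri P where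
  zero := hP.zero
  iso := hP.iso
  shift := hP.shift
  cone := hP.cone

theorem Tri.of_isTriangulated (P : ObjectProperty T) (h : P.IsTriangulated)
    [P.IsClosedUnderIsomorphisms] : Tri P where
  zero _ hX := P.prop_of_iso hX.isoZero.symm P.prop_zero
  iso e hX := P.prop_of_iso e hX
  shift X n hX := P.le_shift n X hX
  cone Δ hΔ h₁ h₂ := P.ext_of_isTriangulatedClosed₃ Δ hΔ h₁ h₂

namespace Tri

variable {P : T → Prop} (hP : Tri P)
include hP

theorem unshift (X : T) (n : ℤ) (h : P (X⟦n⟧)) : P X :=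
  hP.iso (shiftShiftNeg X n) (hP.shift _ (-n) h)

theorem cone₁ (Δ : Triangle T) (hΔ : Δ ∈ distTriang T) (h₂ : P Δ.obj₂) (h₃ : P Δ.obj₃) :
    P Δ.obj₁ :=
  hP.unshift _ 1 (hP.cone _ (rot_of_distTriang _ hΔ) h₂ h₃)

theorem cone₂ (Δ : Triangle T) (hΔ : Δ ∈ distTriang T) (h₁ : P Δ.obj₁) (h₃ : P Δ.obj₃) :
    P Δ.obj₂ :=
  hP.unshift _ 1 (hP.cone _ (rot_of_distTriang _ (rot_of_distTriang _ hΔ)) h₃
    (hP.shift _ 1 h₁))

end Tri

variable {k : Type w} [Field k] [Linear k T]

/-- peeling off one exceptional object, without retracts -/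
theorem tri_peel_one {F : T} (hF : ExcObj k F) (L : List ℤ) : ∀ (Y : T)
    (M : List (Σ n : ℤ, (Y ⟶ F⟦n⟧))) (_ : M.length = L.length)
    (_ : ∀ (n : ℤ) (f : Y ⟶ F⟦n⟧),
      f ∈ Submodule.span k {g | (⟨n, g⟩ : Σ n : ℤ, (Y ⟶ F⟦n⟧)) ∈ M}),
    ∃ X : T, HZ X F ∧ (∀ P : T → Prop, Tri P → P F → (P X ↔ P Y)) ∧
      (∀ G, HZ F G → HZ Y G → HZ X G) := by
  induction L with
  | nil =>
    intro Y M hM hspan
    have hM' : M = [] := List.length_eq_zero_iff.mp hM
    subst hM'
    refine ⟨Y, ?_, fun _ _ _ => Iff.rfl, fun _ _ h => h⟩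
    intro n f
    simpa using hspan n f
  | cons _ L ih =>
    intro Y M hM hspan
    match M, hM with
    | ⟨n0, v⟩ :: M', hM =>
    have hM' : M'.length = L.length := by simpa using hM
    by_cases hv : v = 0
    · refine ih Y M' hM' ?_
      intro n f
      refine Submodule.span_le.mpr ?_ (hspan n f)
      intro g hg
      rcases List.mem_cons.mp hg with h | h
      · obtain ⟨rfl, h2⟩ := Sigma.mk.inj_iff.mp h
        have : g = v := eq_of_heq h2
        rw [this, hv]
        exact Submodule.zero_mem _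
      · exact Submodule.subset_span h
    · obtain ⟨X, j, δ, hT⟩ := distinguished_cocone_triangle₁ v
      have hjv : j ≫ v = 0 := comp_distTriang_mor_zero₁₂ _ hT
      have hvδ : v ≫ δ = 0 := comp_distTriang_mor_zero₂₃ _ hT
      have hsurj : ∀ (n : ℤ) (f' : X ⟶ F⟦n⟧), ∃ f : Y ⟶ F⟦n⟧, j ≫ f = f' := by
        intro n f'
        refine con₁ (Triangle.mk j v δ) hT f' ?_
        change δ ≫ f'⟦(1 : ℤ)⟧' = 0
        rcases ExcObj_zero_or_isIso' hF n0 n (δ ≫ f'⟦(1 : ℤ)⟧') with h | h
        · exact h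
        · exfalso
          apply hv
          have h0 : v ≫ (δ ≫ f'⟦(1 : ℤ)⟧') = 0 := by
            rw [← Category.assoc, hvδ, zero_comp]
          rw [← cancel_mono (δ ≫ f'⟦(1 : ℤ)⟧'), h0, zero_comp]
      obtain ⟨X', h1, h2, h3⟩ := ih X (M'.map (fun x => ⟨x.1, j ≫ x.2⟩)) (by simpa using hM') (by
        intro n f'
        obtain ⟨f, rfl⟩ := hsurj n f'
        have := Submodule.mem_map_of_mem (f := preL (k := k) j (F⟦n⟧)) (hspan n f)
        rw [Submodule.map_span] at this
        refine Submodule.span_le.mpr ?_ this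
        rintro _ ⟨g, hg, rfl⟩
        rcases List.mem_cons.mp hg with h | h
        · obtain ⟨rfl, h2⟩ := Sigma.mk.inj_iff.mp h
          have hgv : g = v := eq_of_heq h2
          change j ≫ g ∈ _
          rw [hgv, hjv]
          exact Submodule.zero_mem _
        · exact Submodule.subset_span (List.mem_map.mpr ⟨⟨n, g⟩, h, rfl⟩))
      refine ⟨X', h1, fun P hP hPF => (h2 P hP hPF).trans ⟨fun hX => ?_, fun hY => ?_⟩,
        fun G hFG hYG => h3 G hFG ?_⟩
      · exact hP.cone₂ (Triangle.mk j v δ) hT hX (hP.shift _ n0 hPF)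
      · exact hP.cone₁ (Triangle.mk j v δ) hT hY (hP.shift _ n0 hPF)
      · exact (HZ.thk_left G).cone₁ (Triangle.mk j v δ) hT hYG (hFG.shift_left n0)

/-- peeling off a list of exceptional objects, without retracts -/
theorem tri_peel (P : T → Prop) (hP : Tri P) (L : List T) (hexc : ∀ F ∈ L, ExcObj k F)
    (hpair : L.Pairwise (fun F G => HZ G F)) (hPF : ∀ F ∈ L, P F)
    (hfin : ∀ Y, P Y → ∀ F ∈ L, FinHom k Y F) : ∀ (Y : T) (_ : P Y),
    ∃ X : T, (∀ F ∈ L, HZ X F) ∧
      (∀ Q : T → Prop, Tri Q → (∀ F ∈ L, Q F) → (Q X ↔ Q Y)) ∧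
      (∀ G, (∀ F ∈ L, HZ F G) → HZ Y G → HZ X G) := by
  induction L with
  | nil => exact fun Y _ => ⟨Y, by simp, fun _ _ _ => Iff.rfl, fun _ _ h => h⟩
  | cons F L ih =>
    intro Y hY
    obtain ⟨M, hM⟩ := (hfin Y hY F (by simp)).exists_list
    obtain ⟨X₁, h1, h2, h3⟩ := tri_peel_one (hexc F (by simp)) (M.map (fun x => x.1)) Y M
      (by simp) hM
    rw [List.pairwise_cons] at hpair
    obtain ⟨X, g1, g2, g3⟩ := ih (fun G hG => hexc G (by simp [hG])) hpair.2
      (fun G hG => hPF G (by simp [hG])) (fun Z hZ G hG => hfin Z hZ G (by simp [hG])) X₁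
      ((h2 P hP (hPF F (by simp))).mpr hY)
    refine ⟨X, ?_, ?_, ?_⟩
    · intro G hG
      rcases List.mem_cons.mp hG with rfl | hG
      · exact g3 G (fun F' hF' => hpair.1 F' hF') h1
      · exact g1 G hG
    · intro Q hQ hQF
      exact (g2 Q hQ (fun G hG => hQF G (by simp [hG]))).trans (h2 Q hQ (hQF F (by simp)))
    · intro G hG hYG
      exact g3 G (fun F' hF' => hG F' (by simp [hF'])) (h3 G (hG F (by simp)) hYG)

variable [∀ n : ℤ, Functor.Linear k (shiftFunctor T n)]

/-- The thick closure of a finite exceptional sequence with finite total homs is contained in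
every triangulated class containing the terms. -/
theorem tri_of_inThick {m : ℕ} {E : Fin m → T} (hexc : ∀ i, ExcObj k (E i))
    (horth : ∀ i j, i < j → HZ (E j) (E i)) (hfin : ∀ i j, FinHom k (E i) (E j))
    {X : T} (hX : InThick (Set.range E) X) (I : T → Prop) (hI : Tri I) (hEI : ∀ i, I (E i)) :
    I X := by
  have hmem : ∀ F ∈ List.ofFn E, ∃ i, E i = F := fun F hF => by
    simpa [List.mem_ofFn] using hF
  obtain ⟨Z, h1, h2, -⟩ := tri_peel (k := k) (InThick (Set.range E))
    (Tri.ofThk (inThick_thk _)) (List.ofFn E)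
    (by
      intro F hF
      obtain ⟨i, rfl⟩ := hmem F hF
      exact hexc i)
    (by
      rw [List.pairwise_ofFn]
      exact horth)
    (by
      intro F hF
      obtain ⟨i, rfl⟩ := hmem F hF
      exact inThick_of_mem ⟨i, rfl⟩)
    (by
      intro Y hY F hF
      obtain ⟨i, rfl⟩ := hmem F hF
      refine finHom_thick (s := Set.range E) (t := Set.range E) ?_ hY (inThick_of_mem ⟨i, rfl⟩)
      rintro _ ⟨a, rfl⟩ _ ⟨b, rfl⟩
      exact hfin a b) X hX
  have hZ : InThick (Set.range E) Z := (h2 _ (Tri.ofThk (inThick_thk _)) (by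
    intro F hF
    obtain ⟨i, rfl⟩ := hmem F hF
    exact inThick_of_mem ⟨i, rfl⟩)).2 hX
  have hZZ : HZ Z Z := HZ.of_inThick_right (s := Set.range E) (by
    rintro _ ⟨i, rfl⟩
    exact h1 _ (by simp [List.mem_ofFn])) hZ
  exact (h2 I hI (by
    intro F hF
    obtain ⟨i, rfl⟩ := hmem F hF
    exact hEI i)).1 (hI.zero Z hZZ.isZero)

end general

section TA

variable {k : Type u} [Field k] {n : ℕ} {lam : Fin n → Fin 2 → k}

variable (lam) in
/-- the homogeneous pieces of the coordinate ring are finite dimensional -/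
theorem piece_finite (z : LG n) : Module.Finite k (piece lam z) := by
  by_cases hz : z.a < 0
  · have : Subsingleton (piece lam z) := ⟨fun f g => Subtype.ext (by
      rw [eq_zero_of_mem_piece lam hz f.2, eq_zero_of_mem_piece lam hz g.2])⟩
    infer_instance
  · obtain ⟨m, hm⟩ := Int.eq_ofNat_of_zero_le (not_lt.1 hz)
    have h1 : piece lam z = (MvPolynomial.homogeneousSubmodule (Fin 2) k m).map
        ((LinearMap.mulLeft k (xI lam z.I)) ∘ₗ (iota lam).toLinearMap) := by
      ext f
      rw [mem_piece_iff lam z m hm f, Submodule.mem_map]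
      constructor
      · rintro ⟨r, hr, rfl⟩
        exact ⟨r, hr, rfl⟩
      · rintro ⟨r, hr, rfl⟩
        exact ⟨r, hr, rfl⟩
    rw [h1]
    exact Module.Finite.iff_fg.2 ((MvPolynomial.homogeneousSubmodule_fg (Fin 2) k m).map _)

theorem LB.hom_finite (Y Z : LB lam) : Module.Finite k (Y ⟶ Z) := by
  have := piece_finite lam (Z.z - Y.z)
  let φ : (Y ⟶ Z) →ₗ[k] piece lam (Z.z - Y.z) :=
    { toFun := fun f => ⟨LB.Hom.f f, LB.Hom.mem f⟩
      map_add' := fun _ _ => rfl
      map_smul' := fun _ _ => rfl }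
  exact Module.Finite.of_injective φ (fun f g h => LB.hom_ext (congrArg Subtype.val h))

/-- finiteness of the total homs between single objects -/
theorem single_finHom {𝓐 : Type*} [Category* 𝓐] [Preadditive 𝓐] [Linear k 𝓐] {A B : 𝓐}
    (h : Module.Finite k (A ⟶ B)) : FinHom k (Tw.single A).toK (Tw.single B).toK where
  fin m := by
    by_cases hm : m = 0
    · subst hm
      let φ : (A ⟶ B) →ₗ[k] ((Tw.single A).toK ⟶ (Tw.single B).toK⟦(0 : ℤ)⟧) :=
        { toFun := fun f => (Tw.homCoc f).cls₀ ≫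
            (shiftFunctorZero (KM 𝓐) ℤ).inv.app (Tw.single B).toK
          map_add' := fun f g => by
            rw [← Preadditive.add_comp]
            congr 1
          map_smul' := fun a f => by
            rw [Tw.homCoc_smul, Linear.smul_comp, RingHom.id_apply] }
      refine Module.Finite.of_surjective φ fun f => ?_
      obtain ⟨g, hg⟩ := Tw.single_hom_surj
        (f ≫ (shiftFunctorZero (KM 𝓐) ℤ).hom.app (Tw.single B).toK)
      refine ⟨g, ?_⟩
      change (Tw.homCoc g).cls₀ ≫ _ = f
      rw [hg, Category.assoc, Iso.hom_inv_id_app, Category.comp_id]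
    · have : Subsingleton ((Tw.single A).toK ⟶ (Tw.single B).toK⟦m⟧) :=
        ⟨fun f g => by rw [Tw.single_shift_zero hm f, Tw.single_shift_zero hm g]⟩
      infer_instance
  supp := by
    refine (Set.finite_singleton (0 : ℤ)).subset ?_
    rintro m ⟨f, hf⟩
    by_contra hm
    exact hf (Tw.single_shift_zero hm f)

/-- The thick category `T_A` is contained in every triangulated, isomorphism-closed property
which contains its generators. -/
theorem TAprop_le [Fact (3 ≤ n)] (I : ObjectProperty (KM (LB lam))) [I.IsTriangulated]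
    [I.IsClosedUnderIsomorphisms] (hI : gens lam ≤ I) : TAprop lam ≤ I := by
  intro X hX
  let V : Finset (Fin n) → Prop := fun _ => False
  let E : Fin (JN n) → KM (LB lam) := fun i => (Tw.single (LB.P lam (JI.enum V i).1)).toK
  have hE : IsExceptionalSeq k E := ⟨fun i => Tw.single_exceptional (LB.end_eq _)
    (LB.id_ne_zero _), fun i j hij m f => Tw.single_hom_zero
      (fun g => P_enum_zero V (fun _ h => h.elim) (fun _ _ h _ _ => h.elim) hij g) m f⟩
  have hXE : InThick (Set.range E) X := by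
    intro P hP h
    have h1 := thk_isTriangulated hP
    have h2 := thk_isStableUnderRetracts hP
    have h3 : (gens lam).triangEnvelope ≤ P := ((gens lam).triangEnvelope_le_iff).2 (by
      rintro Y ⟨q, rfl⟩
      refine h _ ⟨(JI.enum V).symm q, ?_⟩
      simp only [E, Equiv.apply_symm_apply])
    exact h3 X hX
  exact tri_of_inThick (k := k) (fun i => isExceptional_iff.1 (hE.exc i)) hE.semi
    (fun i j => single_finHom (LB.hom_finite _ _)) hXE I
    (Tri.of_isTriangulated I inferInstance) (fun i => hI _ ⟨_, rfl⟩)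

end TA

end Lens
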