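import Mathlib
import Pool.Agent.Lens.DMain3
import Pool.Agent.Lens.DRetr
import Pool.Agent.Lens.A5

/-!
# The equivalence between the acyclic complexes and `T_A`
-/

open CategoryTheory CategoryTheory.Limits CategoryTheory.Preadditive
open CategoryTheory.Pretriangulated

namespace Lens

universe w v u

variable {k : Type u} [Field k] {n : ℕ} {lam : Fin n → Fin 2 → k}

variable (lam) in
/-- `X ↦ X_J` on acyclic complexes -/
noncomputable abbrev preTA : Tac lam ⥤ KMl lam := (acP lam).ι ⋙ piJ lam

theorem preTA_bijective (hl : Indep lam) (hn : 3 ≤ n) (X Y : Tac lam) :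
    Function.Bijective ((preTA lam).map : (X ⟶ Y) → _) := by
  have h1 := piJ_bijective hl hn X.property Y.property
  have h2 : Function.Bijective ((acP lam).ι.map : (X ⟶ Y) → _) :=
    ⟨(acP lam).ι.map_injective, (acP lam).ι.map_surjective⟩
  exact h1.comp h2

theorem preTA_full (hl : Indep lam) (hn : 3 ≤ n) : (preTA lam).Full :=
  ⟨fun {X Y} => (preTA_bijective hl hn X Y).2⟩

theorem preTA_faithful (hl : Indep lam) (hn : 3 ≤ n) : (preTA lam).Faithful :=
  ⟨fun {X Y} _ _ h => (preTA_bijective hl hn X Y).1 h⟩

variable [hn : Fact (3 ≤ n)]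

/-- the functor `T_ac ⥤ T_A` -/
noncomputable def toTA (hl : Indep lam) : Tac lam ⥤ TA lam :=
  (TAprop lam).lift (preTA lam) (fun X => piJ_mem hl hn.out X.property)

/-- the functor `T_ac ⥤ T_A` followed by the inclusion -/
noncomputable def toTAι (hl : Indep lam) : toTA hl ⋙ (TAprop lam).ι ≅ preTA lam :=
  (TAprop lam).liftCompιIso _ _

noncomputable instance toTACommShift (hl : Indep lam) : (toTA hl).CommShift ℤ :=
  inferInstanceAs (((TAprop lam).lift (preTA lam)
    (fun X => piJ_mem hl hn.out X.property)).CommShift ℤ)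

instance (hl : Indep lam) : (toTA hl).Additive :=
  inferInstanceAs ((TAprop lam).lift (preTA lam)
    (fun X => piJ_mem hl hn.out X.property)).Additive

omit hn in
theorem preTA_smul {X Y : Tac lam} (f : X ⟶ Y) (a : k) :
    (preTA lam).map (a • f) = a • (preTA lam).map f := (piJ lam).map_smul a f.hom

instance (hl : Indep lam) : (toTA hl).Linear k where
  map_smul f a := (TAprop lam).ι.map_injective (preTA_smul f a)

instance (hl : Indep lam) : (toTA hl).IsTriangulated :=
  inferInstanceAs ((TAprop lam).lift (preTA lam)
    (fun X => piJ_mem hl hn.out X.property)).IsTriangulated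

instance (hl : Indep lam) : (toTA hl).Full := by
  have := preTA_full hl hn.out
  exact inferInstanceAs ((TAprop lam).lift (preTA lam)
    (fun X => piJ_mem hl hn.out X.property)).Full

instance (hl : Indep lam) : (toTA hl).Faithful := by
  have := preTA_faithful hl hn.out
  exact inferInstanceAs ((TAprop lam).lift (preTA lam)
    (fun X => piJ_mem hl hn.out X.property)).Faithful

theorem gens_le_essImage (hl : Indep lam) : gens lam ≤ (preTA lam).essImage := by
  rintro Y ⟨q, rfl⟩
  obtain ⟨E, hE, ⟨i⟩⟩ := exists_Ex hl hn.out (LB.P lam q.1) (by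
    have := q.2
    simpa [clJ, InJ, LB.P] using this)
  exact ⟨⟨E, hE⟩, ⟨i⟩⟩

instance (hl : Indep lam) : (toTA hl).EssSurj where
  mem_essImage Y := by
    have := preTA_full hl hn.out
    obtain ⟨X, ⟨i⟩⟩ := TAprop_le (preTA lam).essImage (gens_le_essImage hl) Y.obj Y.property
    exact ⟨X, ⟨(TAprop lam).isoMk i⟩⟩

instance (hl : Indep lam) : (toTA hl).IsEquivalence where

theorem not_braidTransitive_Tac_of_TA (hl : Indep lam) (h : ¬ BraidTransitive k (TA lam)) :
    ¬ BraidTransitive k (Tac lam) := by
  intro hT
  apply h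
  let F := toTA hl
  let : F.asEquivalence.functor.CommShift ℤ := toTACommShift hl
  have i1 : F.asEquivalence.functor.Additive := inferInstanceAs F.Additive
  have i2 : F.asEquivalence.functor.Linear k := inferInstanceAs (F.Linear k)
  have i3 : F.asEquivalence.functor.IsTriangulated := inferInstanceAs F.IsTriangulated
  let := F.asEquivalence.commShiftInverse ℤ
  have h0 := F.asEquivalence.commShift_of_functor ℤ
  have h1 : F.asEquivalence.inverse.IsTriangulated :=
    F.asEquivalence.toAdjunction.isTriangulated_rightAdjoint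
  exact BraidTransitive.of_equivalence F.asEquivalence.inverse hT

end Lens
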