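import Pool.Agent.Lens.DcL

/-!
# LENS, block D: weak kernels and weak cokernels with degree drift

Every line bundle `𝒪(z)` has the degree `LG.dg z`.  The minimal homogeneous weak kernel of `f`
is injective one degree further than `f`, and all its summands have a degree in which `f` is not
injective.
-/

set_option autoImplicit false

open CategoryTheory CategoryTheory.Limits MvPolynomial

namespace Lens

section gens

variable {k S L : Type*} [CommRing k] [CommRing S] [Algebra k S] [AddCommGroup L]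
  (𝒮 : L → Submodule k S) {I J : Type*} [Fintype I]

/-- The rows `g m`, homogeneous of degree `d m`, generate the homogeneous relations of `f`. -/
def Gens (a : I → L) (f : I → J → S) (N : ℕ) (d : Fin N → L) (g : Fin N → I → S) : Prop :=
  (∀ m i, g m i ∈ 𝒮 (a i - d m)) ∧ (∀ m j, ∑ i, g m i * f i j = 0) ∧
    ∀ (z : L) (u : I → S), (∀ i, u i ∈ 𝒮 (a i - z)) → (∀ j, ∑ i, u i * f i j = 0) →
      ∃ v : Fin N → S, (∀ m, v m ∈ 𝒮 (d m - z)) ∧ ∀ i, u i = ∑ m, v m * g m i

variable {𝒮}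

/-- A minimal generating family: there is no relation with a coefficient `1`. -/
theorem exists_min_gens (hmul : ∀ {y z : L} {f g : S}, f ∈ 𝒮 y → g ∈ 𝒮 z → f * g ∈ 𝒮 (y + z))
    (a : I → L) (f : I → J → S) (h : ∃ N d g, Gens 𝒮 a f N d g) :
    ∃ N d g, Gens 𝒮 a f N d g ∧ ∀ (v : Fin N → S) (m₀ : Fin N), (∀ m, v m ∈ 𝒮 (d m - d m₀)) →
      v m₀ = 1 → (∀ i, ∑ m, v m * g m i = 0) → False := by
  classical
  obtain ⟨d, g, hg1, hg2, hg3⟩ := Nat.find_spec h
  refine ⟨Nat.find h, d, g, ⟨hg1, hg2, hg3⟩, fun v m₀ hv h1 hr => ?_⟩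
  obtain ⟨N, hN⟩ : ∃ N, Nat.find h = N + 1 := by
    cases hh : Nat.find h with
    | zero => exact Fin.elim0 (hh ▸ m₀)
    | succ N => exact ⟨N, rfl⟩
  have hmin : ¬ ∃ d g, Gens 𝒮 a f N d g := Nat.find_min h (by omega)
  generalize Nat.find h = N' at *
  subst hN
  refine hmin ⟨fun m => d (m₀.succAbove m), fun m => g (m₀.succAbove m), fun m i => hg1 _ i,
    fun m j => hg2 _ j, fun z u hu hf => ?_⟩
  obtain ⟨w, hw1, hw2⟩ := hg3 z u hu hf
  refine ⟨fun m => w (m₀.succAbove m) - w m₀ * v (m₀.succAbove m), fun m => ?_, fun i => ?_⟩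
  · refine Submodule.sub_mem _ (hw1 _) ?_
    have := hmul (hw1 m₀) (hv (m₀.succAbove m))
    have e : d m₀ - z + (d (m₀.succAbove m) - d m₀) = d (m₀.succAbove m) - z := by abel
    rwa [e] at this
  · have h2 := hr i
    rw [Fin.sum_univ_succAbove _ m₀, h1, one_mul] at h2
    rw [hw2 i, Fin.sum_univ_succAbove _ m₀]
    simp only [sub_mul, Finset.sum_sub_distrib, mul_assoc, ← Finset.mul_sum]
    rw [← eq_sub_iff_add_eq', zero_sub] at h2
    rw [h2]
    ring

end gens

variable {k : Type*} [Field k] {n : ℕ} {lam : Fin n → Fin 2 → k}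

open LG

/-- Generators with degree drift. -/
theorem exists_drift_gens {I J : Type*} [Fintype I] (a : I → LG n) (f : I → J → S lam) (D : ℤ)
    (hf : ∀ z, D < dg z → ∀ u : I → S lam, (∀ i, u i ∈ piece lam (a i - z)) →
      (∀ j, ∑ i, u i * f i j = 0) → ∀ i, u i = 0) :
    ∃ N d g, Gens (piece lam) a f N d g ∧ (∀ m, dg (d m) ≤ D) ∧ (∀ m, ∃ i, g m i ≠ 0) ∧
      ∀ z, D ≤ dg z → ∀ v : Fin N → S lam, (∀ m, v m ∈ piece lam (d m - z)) →
        (∀ i, ∑ m, v m * g m i = 0) → ∀ m, v m = 0 := by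
  classical
  obtain ⟨N, d, g, hG, hmin⟩ := exists_min_gens (𝒮 := piece lam)
    (fun {y z f g} hf hg => mul_mem_piece lam hf hg) a f (by
      obtain ⟨N, d, g, h1, h2, -, h3⟩ := relations_fg (wt n) (relIdeal lam) a f
      exact ⟨N, d, g, h1, h2, h3⟩)
  have hne : ∀ m, ∃ i, g m i ≠ 0 := by
    intro m
    by_contra h
    push Not at h
    refine hmin (Pi.single m 1) m (fun l => ?_) (by simp) (fun i => ?_)
    · by_cases hl : l = m
      · subst hl
        rw [sub_self, Pi.single_eq_same]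
        exact one_mem_piece lam
      · rw [Pi.single_eq_of_ne hl]
        exact Submodule.zero_mem _
    · rw [Finset.sum_eq_single m (fun l _ hl => by rw [Pi.single_eq_of_ne hl, zero_mul])
        (fun h => absurd (Finset.mem_univ _) h), h i, mul_zero]
  have hD : ∀ m, dg (d m) ≤ D := by
    intro m
    by_contra h
    obtain ⟨i, hi⟩ := hne m
    exact hi (hf (d m) (not_le.1 h) (g m) (hG.1 m) (hG.2.1 m) i)
  refine ⟨N, d, g, hG, hD, hne, fun z hz v hv hr => ?_⟩
  by_contra hcon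
  push Not at hcon
  obtain ⟨m₀, hm₀⟩ := hcon
  -- the degree of `d m₀ - z` is zero
  have ha : 0 ≤ (d m₀ - z).a := by
    by_contra h
    exact hm₀ (eq_zero_of_mem_piece lam (not_le.1 h) (hv m₀))
  have hdg : dg (d m₀ - z) ≤ 0 := by
    rw [dg_sub]
    have := hD m₀
    linarith
  have hcard : (d m₀ - z).a = 0 ∧ (d m₀ - z).I.card = 0 := by
    simp only [dg] at hdg
    constructor
    · omega
    · omega
  have hz0 : d m₀ - z = LG.xs ∅ := by
    refine LG.ext ?_ hcard.1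
    rw [Finset.card_eq_zero.1 hcard.2]
    rfl
  have hz1 : z = d m₀ := by
    have h0 : (LG.xs ∅ : LG n) = 0 := rfl
    rw [h0, sub_eq_zero] at hz0
    exact hz0.symm
  obtain ⟨c, hc⟩ := mem_piece_xs lam (hz0 ▸ hv m₀)
  have hc0 : c ≠ 0 := by
    rintro rfl
    exact hm₀ (by rw [hc, zero_smul])
  refine hmin (fun m => c⁻¹ • v m) m₀ (fun m => ?_) ?_ (fun i => ?_)
  · rw [← hz1]
    exact Submodule.smul_mem _ _ (hv m)
  · change c⁻¹ • v m₀ = 1
    rw [hc, smul_smul, inv_mul_cancel₀ hc0, one_smul, xI, Finset.prod_empty]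
  · simp only [smul_mul_assoc, ← Finset.smul_sum, hr i, smul_zero]

namespace LB

universe u

variable {k : Type u} [Field k] {n : ℕ} {lam : Fin n → Fin 2 → k}

/-- Weak kernels with drift. -/
theorem exists_weakKernel_drift {F G : Mat_ (LB lam)} (f : F ⟶ G) (D : ℤ)
    (hf : ∀ Y : LB lam, D < dg Y.z → ∀ u : (Mat_.embedding (LB lam)).obj Y ⟶ F, u ≫ f = 0 →
      u = 0) :
    ∃ (F' : Mat_ (LB lam)) (g : F' ⟶ F), g ≫ f = 0 ∧
      (∀ (H : Mat_ (LB lam)) (u : H ⟶ F), u ≫ f = 0 → ∃ v : H ⟶ F', v ≫ g = u) ∧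
      (∀ m : F'.ι, dg (F'.X m).z ≤ D) ∧
      (∀ m : F'.ι, ∃ i : F.ι, ∃ h : F'.X m ⟶ F.X i, h ≠ 0) ∧
      ∀ Y : LB lam, D - 1 < dg Y.z → ∀ u : (Mat_.embedding (LB lam)).obj Y ⟶ F', u ≫ g = 0 →
        u = 0 := by
  classical
  obtain ⟨N, d, g, ⟨hg1, hg2, hg3⟩, hD, hne, hinj⟩ := exists_drift_gens
    (fun i : F.ι => (F.X i).z) (fun i (j : G.ι) => Hom.f (f i j)) D (fun z hz u hu hr => by
      let u' : (Mat_.embedding (LB lam)).obj ⟨z⟩ ⟶ F := fun _ i => homMk (u i) (hu i)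
      have h := hf ⟨z⟩ hz u' (mat_ext_f fun m j => (mat_comp_f u' f m j).trans (hr j))
      intro i
      exact congrArg (fun w : (Mat_.embedding (LB lam)).obj ⟨z⟩ ⟶ F =>
        Hom.f (w PUnit.unit i)) h)
  let F' : Mat_ (LB lam) := ⟨Fin N, fun m => ⟨d m⟩⟩
  let g' : F' ⟶ F := fun m i => homMk (g m i) (hg1 m i)
  refine ⟨F', g', ?_, fun H u hu => ?_, hD, fun m => ?_, fun Y hY u hu => ?_⟩
  · exact mat_ext_f fun m j => (mat_comp_f g' f m j).trans (hg2 m j)
  · have h1 : ∀ h : H.ι, ∃ v : Fin N → S lam, (∀ m, v m ∈ piece lam (d m - (H.X h).z)) ∧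
        ∀ i, Hom.f (u h i) = ∑ m, v m * g m i := by
      intro h
      refine hg3 (H.X h).z (fun i => Hom.f (u h i)) (fun i => Hom.mem (u h i)) fun j => ?_
      rw [← mat_comp_f, hu, mat_zero_f]
    choose v hv1 hv2 using h1
    let v' : H ⟶ F' := fun h m => homMk (v h m) (hv1 h m)
    refine ⟨v', mat_ext_f fun h i => (mat_comp_f v' g' h i).trans ?_⟩
    rw [hv2]
    rfl
  · obtain ⟨i, hi⟩ := hne m
    exact ⟨i, g' m i, fun h => hi (congrArg Hom.f h)⟩
  · refine mat_ext_f fun h m => ?_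
    rw [mat_zero_f]
    refine hinj Y.z (by omega) (fun m => Hom.f (u h m)) (fun m => Hom.mem (u h m)) (fun i => ?_) m
    have := mat_comp_f u g' h i
    rw [hu, mat_zero_f] at this
    exact this.symm

/-- Weak cokernels with drift. -/
theorem exists_weakCokernel_drift {F G : Mat_ (LB lam)} (f : F ⟶ G) (D : ℤ)
    (hf : ∀ Y : LB lam, dg Y.z < D → ∀ u : G ⟶ (Mat_.embedding (LB lam)).obj Y, f ≫ u = 0 →
      u = 0) :
    ∃ (G' : Mat_ (LB lam)) (g : G ⟶ G'), f ≫ g = 0 ∧
      (∀ (H : Mat_ (LB lam)) (u : G ⟶ H), f ≫ u = 0 → ∃ v : G' ⟶ H, g ≫ v = u) ∧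
      (∀ m : G'.ι, D ≤ dg (G'.X m).z) ∧
      (∀ m : G'.ι, ∃ i : G.ι, ∃ h : G.X i ⟶ G'.X m, h ≠ 0) ∧
      ∀ Y : LB lam, dg Y.z < D + 1 → ∀ u : G' ⟶ (Mat_.embedding (LB lam)).obj Y, g ≫ u = 0 →
        u = 0 := by
  classical
  obtain ⟨N, d, g, ⟨hg1, hg2, hg3⟩, hD, hne, hinj⟩ := exists_drift_gens
    (fun i : G.ι => -(G.X i).z) (fun i (j : F.ι) => Hom.f (f j i)) (-D) (fun z hz u hu hr => by
      have hu' : ∀ i, u i ∈ piece lam (-z - (G.X i).z) := fun i => by
        have h := hu i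
        have e : -(G.X i).z - z = -z - (G.X i).z := by abel
        rwa [e] at h
      let u' : G ⟶ (Mat_.embedding (LB lam)).obj ⟨-z⟩ := fun i _ => homMk (u i) (hu' i)
      have h := hf ⟨-z⟩ (by rw [dg_neg]; linarith) u'
        (mat_ext_f fun j m => (mat_comp_f f u' j m).trans (by
          rw [mat_zero_f, ← hr j]
          exact Finset.sum_congr rfl fun i _ => mul_comm _ _))
      intro i
      exact congrArg (fun w : G ⟶ (Mat_.embedding (LB lam)).obj ⟨-z⟩ =>
        Hom.f (w i PUnit.unit)) h)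
  let G' : Mat_ (LB lam) := ⟨Fin N, fun m => ⟨-d m⟩⟩
  have hg1' : ∀ m i, g m i ∈ piece lam ((G'.X m).z - (G.X i).z) := fun m i => by
    have h := hg1 m i
    have e : -(G.X i).z - d m = (G'.X m).z - (G.X i).z := by
      change _ = -d m - _
      abel
    rwa [e] at h
  let g' : G ⟶ G' := fun i m => homMk (g m i) (hg1' m i)
  refine ⟨G', g', ?_, fun H u hu => ?_, fun m => ?_, fun m => ?_, fun Y hY u hu => ?_⟩
  · refine mat_ext_f fun j m => ?_
    rw [mat_comp_f, mat_zero_f, ← hg2 m j]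
    exact Finset.sum_congr rfl fun i _ => mul_comm _ _
  · have h1 : ∀ h : H.ι, ∃ v : Fin N → S lam, (∀ m, v m ∈ piece lam (d m - -(H.X h).z)) ∧
        ∀ i, Hom.f (u i h) = ∑ m, v m * g m i := by
      intro h
      refine hg3 (-(H.X h).z) (fun i => Hom.f (u i h)) (fun i => ?_) fun j => ?_
      · have h2 := Hom.mem (u i h)
        have e : (H.X h).z - (G.X i).z = -(G.X i).z - -(H.X h).z := by abel
        rwa [e] at h2
      · have h3 : ∑ i, Hom.f (f j i) * Hom.f (u i h) = 0 := by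
          rw [← mat_comp_f, hu, mat_zero_f]
        rw [← h3]
        exact Finset.sum_congr rfl fun i _ => mul_comm _ _
    choose v hv1 hv2 using h1
    have hv1' : ∀ h m, v h m ∈ piece lam ((H.X h).z - (G'.X m).z) := fun h m => by
      have h2 := hv1 h m
      have e : d m - -(H.X h).z = (H.X h).z - (G'.X m).z := by
        change _ = _ - -d m
        abel
      rwa [e] at h2
    let v' : G' ⟶ H := fun m h => homMk (v h m) (hv1' h m)
    refine ⟨v', mat_ext_f fun i h => (mat_comp_f g' v' i h).trans ?_⟩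
    rw [hv2]
    exact Finset.sum_congr rfl fun m _ => mul_comm _ _
  · have := hD m
    change D ≤ dg (-d m)
    rw [dg_neg]
    linarith
  · obtain ⟨i, hi⟩ := hne m
    exact ⟨i, g' i m, fun h => hi (congrArg Hom.f h)⟩
  · refine mat_ext_f fun m h => ?_
    rw [mat_zero_f]
    refine hinj (-Y.z) (by rw [dg_neg]; omega) (fun m => Hom.f (u m h)) (fun m => ?_)
      (fun i => ?_) m
    · have h2 := Hom.mem (u m h)
      have e : (((Mat_.embedding (LB lam)).obj Y).X h).z - (G'.X m).z = d m - -Y.z := by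
        change Y.z - -d m = _
        abel
      rwa [e] at h2
    · have := mat_comp_f g' u i h
      rw [hu, mat_zero_f] at this
      rw [this]
      exact Finset.sum_congr rfl fun m _ => mul_comm _ _

end LB

end Lens
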