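import Pool.Agent.Lens.Comb

/-!
# Exactness from an acyclic matching
-/

set_option autoImplicit false

open Finset

namespace Lens

namespace Cells

variable (Z : Cells) {k : Type*} [Field k]

theorem inc_ne_zero {i l : Z.N} (h : Z.inc i l ≠ 0) : (Z.inc i l : k) ≠ 0 := by
  obtain ⟨h1, h2⟩ := Z.inc_le i l h
  rcases Z.le_inc i l h1 h2 with h3 | h3 <;> rw [h3] <;> simp

/-- solving the triangular system -/
theorem elim_solve (d : ℕ) (P : List (Z.N × Z.N)) (hP : ∀ p ∈ P, Z.inc p.2 p.1 ≠ 0)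
    (hord : P.Pairwise (fun p q => Z.inc p.2 q.1 = 0)) :
    ∀ g : Z.N → k, ∃ ψ : Z.N → k, (∀ σ, ψ σ ≠ 0 → ∃ p ∈ P, σ = p.1 ∧ Z.dim p.2 = d) ∧
      ∀ p ∈ P, Z.dim p.2 = d → ∑ l, (Z.inc p.2 l : k) * ψ l = g p.2 := by
  induction P with
  | nil =>
    intro g
    refine ⟨fun _ => 0, fun σ h => absurd rfl h, fun p hp => ?_⟩
    exact absurd hp (List.not_mem_nil)
  | cons p P ih =>
    intro g
    have hP' : ∀ q ∈ P, Z.inc q.2 q.1 ≠ 0 := fun q hq => hP q (List.mem_cons_of_mem _ hq)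
    obtain ⟨h1, h2⟩ := List.pairwise_cons.1 hord
    by_cases hd : Z.dim p.2 = d
    · obtain ⟨ψ, h3, h4⟩ := ih hP' h2
        (fun x => g x - (Z.inc x p.1 : k) * ((Z.inc p.2 p.1 : k)⁻¹ * g p.2))
      have h5 : ∀ x, ∑ l, (Z.inc x l : k) *
          (ψ l + if l = p.1 then (Z.inc p.2 p.1 : k)⁻¹ * g p.2 else 0) =
          ∑ l, (Z.inc x l : k) * ψ l + (Z.inc x p.1 : k) * ((Z.inc p.2 p.1 : k)⁻¹ * g p.2) := by
        intro x
        simp only [mul_add, sum_add_distrib, mul_ite, mul_zero, sum_ite_eq', mem_univ, if_true]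
      refine ⟨fun l => ψ l + if l = p.1 then (Z.inc p.2 p.1 : k)⁻¹ * g p.2 else 0, ?_, ?_⟩
      · intro σ hσ
        by_cases h6 : σ = p.1
        · exact ⟨p, List.mem_cons_self, h6, hd⟩
        · have h7 : ψ σ ≠ 0 := by
            intro h8
            apply hσ
            change ψ σ + (if σ = p.1 then (Z.inc p.2 p.1 : k)⁻¹ * g p.2 else 0) = 0
            rw [if_neg h6, h8, add_zero]
          obtain ⟨q, hq, h8, h9⟩ := h3 σ h7
          exact ⟨q, List.mem_cons_of_mem _ hq, h8, h9⟩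
      · intro q hq hqd
        rw [h5]
        rcases List.mem_cons.1 hq with rfl | hq
        · rw [sum_eq_zero, zero_add, mul_inv_cancel_left₀ (Z.inc_ne_zero (hP q List.mem_cons_self))]
          intro l _
          by_cases h6 : ψ l = 0
          · rw [h6, mul_zero]
          · obtain ⟨r, hr, h7, _⟩ := h3 l h6
            rw [h7, h1 r hr, Int.cast_zero, zero_mul]
        · rw [h4 q hq hqd]
          ring
    · obtain ⟨ψ, h3, h4⟩ := ih hP' h2 g
      refine ⟨ψ, ?_, ?_⟩
      · intro σ hσ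
        obtain ⟨q, hq, h8, h9⟩ := h3 σ hσ
        exact ⟨q, List.mem_cons_of_mem _ hq, h8, h9⟩
      · intro q hq hqd
        rcases List.mem_cons.1 hq with rfl | hq
        · exact absurd hqd hd
        · exact h4 q hq hqd

/-- uniqueness of the solution of the triangular system -/
theorem elim_zero (P : List (Z.N × Z.N)) (hP : ∀ p ∈ P, Z.inc p.2 p.1 ≠ 0)
    (hord : P.Pairwise (fun p q => Z.inc p.2 q.1 = 0)) (χ : Z.N → k)
    (hs : ∀ σ, χ σ ≠ 0 → ∃ p ∈ P, σ = p.1)
    (hc : ∀ p ∈ P, ∑ l, (Z.inc p.2 l : k) * χ l = 0) (σ : Z.N) : χ σ = 0 := by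
  induction P with
  | nil =>
    by_contra h
    obtain ⟨p, hp, _⟩ := hs σ h
    exact absurd hp (List.not_mem_nil)
  | cons p P ih =>
    have hP' : ∀ q ∈ P, Z.inc q.2 q.1 ≠ 0 := fun q hq => hP q (List.mem_cons_of_mem _ hq)
    obtain ⟨h1, h2⟩ := List.pairwise_cons.1 hord
    have h3 : χ p.1 = 0 := by
      have h4 := hc p List.mem_cons_self
      rw [sum_eq_single p.1] at h4
      · exact (mul_eq_zero.1 h4).resolve_left (Z.inc_ne_zero (hP p List.mem_cons_self))
      · intro l _ hl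
        by_cases h5 : χ l = 0
        · rw [h5, mul_zero]
        · obtain ⟨q, hq, h6⟩ := hs l h5
          rcases List.mem_cons.1 hq with rfl | hq
          · exact absurd h6 hl
          · rw [h6, h1 q hq, Int.cast_zero, zero_mul]
      · intro h
        exact absurd (mem_univ _) h
    refine ih hP' h2 (fun τ hτ => ?_) (fun q hq => hc q (List.mem_cons_of_mem _ hq))
    obtain ⟨q, hq, h6⟩ := hs τ hτ
    rcases List.mem_cons.1 hq with rfl | hq
    · rw [h6] at hτ
      exact absurd h3 hτ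
    · exact ⟨q, hq, h6⟩

/-- exactness of the star of `τ` from an acyclic matching with one critical facet `t` -/
theorem upper_of_matching (hdim : ∀ σ, Z.dim σ ≤ 3) (τ t : Z.N) (ht : Z.dim t = 3)
    (P : List (Z.N × Z.N)) (hP : ∀ p ∈ P, Z.inc p.2 p.1 ≠ 0 ∧ Z.le τ p.1)
    (hord : P.Pairwise (fun p q => Z.inc p.2 q.1 = 0))
    (hall : ∀ σ, Z.le τ σ → σ = t ∨ ∃ p ∈ P, σ = p.1 ∨ σ = p.2)
    (d : ℕ) (φ : Z.N → k) (hφ : ∀ σ, φ σ ≠ 0 → Z.le τ σ ∧ Z.dim σ = d)
    (hc : ∀ i, Z.le τ i → ∑ l, (Z.inc i l : k) * φ l = 0) :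
    ∃ ψ : Z.N → k, (∀ σ, ψ σ ≠ 0 → Z.le τ σ ∧ Z.dim σ + 1 = d) ∧
      ∀ i, Z.le τ i → (d = 3 → i ≠ t) → φ i = ∑ l, (Z.inc i l : k) * ψ l := by
  classical
  have hP1 : ∀ p ∈ P, Z.inc p.2 p.1 ≠ 0 := fun p hp => (hP p hp).1
  have hPd : ∀ p ∈ P, Z.dim p.2 = Z.dim p.1 + 1 := fun p hp => (Z.inc_le _ _ (hP1 p hp)).2
  have hP2 : ∀ p ∈ P, Z.le τ p.2 := fun p hp =>
    Z.le_trans _ _ _ (hP p hp).2 (Z.inc_le _ _ (hP1 p hp)).1
  obtain ⟨ψ, h1, h2⟩ := Z.elim_solve d P hP1 hord φ
  have h3 : ∀ σ, ψ σ ≠ 0 → Z.le τ σ ∧ Z.dim σ + 1 = d := by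
    intro σ hσ
    obtain ⟨p, hp, rfl, h4⟩ := h1 σ hσ
    exact ⟨(hP p hp).2, (hPd p hp).symm.trans h4⟩
  have h3' : ∀ i, Z.dim i ≠ d → ∑ l, (Z.inc i l : k) * ψ l = 0 := by
    intro i hi
    refine sum_eq_zero fun l _ => ?_
    by_cases h4 : ψ l = 0
    · rw [h4, mul_zero]
    · by_cases h5 : Z.inc i l = 0
      · rw [h5, Int.cast_zero, zero_mul]
      · exact absurd ((Z.inc_le _ _ h5).2.trans (h3 l h4).2) hi
  obtain ⟨χ, hχ⟩ : ∃ χ : Z.N → k, ∀ σ, χ σ =
      if Z.le τ σ ∧ σ ≠ t then φ σ - ∑ l, (Z.inc σ l : k) * ψ l else 0 := ⟨_, fun _ => rfl⟩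
  have hχd : ∀ σ, χ σ ≠ 0 → Z.dim σ = d := by
    intro σ hσ
    by_contra h4
    apply hσ
    rw [hχ, h3' σ h4, sub_zero]
    split_ifs
    · by_contra h5
      exact h4 (hφ σ h5).2
    · rfl
  have h4 : ∀ σ, χ σ = 0 := by
    refine Z.elim_zero P hP1 hord χ ?_ ?_
    · intro σ hσ
      have h5 : Z.le τ σ ∧ σ ≠ t := by
        by_contra h5
        exact hσ (by rw [hχ, if_neg h5])
      rcases hall σ h5.1 with h6 | ⟨p, hp, h6 | h6⟩
      · exact absurd h6 h5.2
      · exact ⟨p, hp, h6⟩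
      · exfalso
        apply hσ
        rw [hχ, if_pos h5]
        have h7 := hχd σ hσ
        rw [h6] at h7 ⊢
        rw [h2 p hp h7, sub_self]
    · intro p hp
      by_cases hd : Z.dim p.2 = d + 1
      · have hd3 := hdim p.2
        have h5 : ∀ l, (Z.inc p.2 l : k) * χ l =
            (Z.inc p.2 l : k) * φ l - (Z.inc p.2 l : k) * ∑ m, (Z.inc l m : k) * ψ m := by
          intro l
          by_cases h6 : Z.inc p.2 l = 0
          · rw [h6, Int.cast_zero, zero_mul, zero_mul, zero_mul, sub_zero]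
          · have h7 := Z.inc_le _ _ h6
            rw [← mul_sub, hχ]
            by_cases h8 : Z.le τ l
            · rw [if_pos]
              refine ⟨h8, ?_⟩
              rintro rfl
              omega
            · rw [if_neg (fun h9 => h8 h9.1)]
              have h9 : φ l = 0 := by
                by_contra h9
                exact h8 (hφ l h9).1
              rw [h9, sum_eq_zero, sub_zero]
              intro m _
              by_cases h10 : ψ m = 0
              · rw [h10, mul_zero]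
              · by_cases h11 : Z.inc l m = 0
                · rw [h11, Int.cast_zero, zero_mul]
                · exact absurd (Z.le_trans _ _ _ (h3 m h10).1 (Z.inc_le _ _ h11).1) h8
        rw [sum_congr rfl fun l _ => h5 l, sum_sub_distrib, hc p.2 (hP2 p hp), zero_sub,
          neg_eq_zero]
        simp only [mul_sum]
        rw [sum_comm]
        refine sum_eq_zero fun m _ => ?_
        simp only [← mul_assoc]
        rw [← sum_mul]
        have h6 : ∑ l, (Z.inc p.2 l : k) * (Z.inc l m : k) = 0 := by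
          have h7 := congrArg (Int.cast : ℤ → k) (Z.sq p.2 m)
          push_cast at h7
          exact h7
        rw [h6, zero_mul]
      · refine sum_eq_zero fun l _ => ?_
        by_cases h5 : χ l = 0
        · rw [h5, mul_zero]
        · by_cases h6 : Z.inc p.2 l = 0
          · rw [h6, Int.cast_zero, zero_mul]
          · exact absurd ((Z.inc_le _ _ h6).2.trans (by rw [hχd l h5])) hd
  refine ⟨ψ, h3, fun i hi hit => ?_⟩
  by_cases hd : Z.dim i = d
  · have h5 : i ≠ t := by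
      rintro rfl
      exact hit (hd.symm.trans ht) rfl
    have h6 := h4 i
    rw [hχ, if_pos ⟨hi, h5⟩] at h6
    exact sub_eq_zero.1 h6
  · rw [h3' i hd]
    by_contra h5
    exact hd (hφ i h5).2

end Cells

end Lens
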