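import Pool.Agent.Lens.LB
import Pool.Agent.Lens.PRep

/-!
# Coefficient conjugation

A ring automorphism `s` of `k` which fixes the coefficients `lam i j` acts on the coordinate ring
`S lam`, on the category `LB lam` of line bundles, on the category of finite direct sums of line
bundles, on its homotopy category and on the thick subcategories generated by line bundles.
-/

open CategoryTheory CategoryTheory.Limits CategoryTheory.Pretriangulated MvPolynomial

namespace Lens

universe w v u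

/-! ## Functors on `Mat_` and on the homotopy category -/

section General

variable {𝓐 : Type u} [Category.{v} 𝓐] [Preadditive 𝓐]
  {𝓑 : Type u} [Category.{v} 𝓑] [Preadditive 𝓑]

instance mapMat_additive (F : 𝓐 ⥤ 𝓑) [F.Additive] : F.mapMat_.Additive where
  map_add {M N f g} := by
    ext i j
    exact F.map_add

instance mapMat_faithful (F : 𝓐 ⥤ 𝓑) [F.Additive] [F.Faithful] : F.mapMat_.Faithful where
  map_injective {M N f g} h := by
    ext i j
    exact F.map_injective (congrFun (congrFun h i) j)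

instance mapMat_full (F : 𝓐 ⥤ 𝓑) [F.Additive] [F.Full] : F.mapMat_.Full where
  map_surjective {M N} f := by
    refine ⟨fun i j => F.preimage (f i j), ?_⟩
    funext i j
    exact F.map_preimage _

/-- the functor on homotopy categories of complexes of finite direct sums -/
noncomputable abbrev mapK (F : 𝓐 ⥤ 𝓑) [F.Additive] :
    HomotopyCategory (Mat_ 𝓐) (ComplexShape.up ℤ) ⥤ HomotopyCategory (Mat_ 𝓑) (ComplexShape.up ℤ) :=
  F.mapMat_.mapHomotopyCategory (ComplexShape.up ℤ)

/-- a functor which is the identity induces the identity of `Mat_ 𝓐` -/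
noncomputable def mapMatOfEqId (H : 𝓐 ⥤ 𝓐) [H.Additive] (h : H = 𝟭 𝓐) : H.mapMat_ ≅ 𝟭 (Mat_ 𝓐) := by
  subst h
  exact Functor.mapMatId

/-- `mapK F ⋙ mapK G ≅ mapK H` if `F ⋙ G ≅ H` -/
noncomputable def mapKComp {𝓒 : Type u} [Category.{v} 𝓒] [Preadditive 𝓒] {F : 𝓐 ⥤ 𝓑} {G : 𝓑 ⥤ 𝓒}
    {H : 𝓐 ⥤ 𝓒} [F.Additive] [G.Additive] [H.Additive] (e : F.mapMat_ ⋙ G.mapMat_ ≅ H.mapMat_) :
    mapK F ⋙ mapK G ≅ mapK H :=
  Functor.mapHomotopyCategoryCompIso e _

/-- the identity functor induces a functor isomorphic to the identity -/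
noncomputable def mapHomotopyCategoryIdIso (𝓒 : Type*) [Category 𝓒] [Preadditive 𝓒] :
    (𝟭 𝓒).mapHomotopyCategory (ComplexShape.up ℤ) ≅ 𝟭 _ :=
  CategoryTheory.Quotient.natIsoLift _ (Functor.isoWhiskerRight
    (Functor.mapHomologicalComplexIdIso 𝓒 (ComplexShape.up ℤ)) (HomotopyCategory.quotient 𝓒 _))

/-- strictly inverse functors induce quasi-inverse functors on the homotopy categories -/
noncomputable def mapKInv (F : 𝓐 ⥤ 𝓑) (G : 𝓑 ⥤ 𝓐) [F.Additive] [G.Additive] (h : F ⋙ G = 𝟭 𝓐) :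
    mapK F ⋙ mapK G ≅ 𝟭 _ :=
  Functor.mapHomotopyCategoryCompIso ((Functor.mapMatComp F G).symm ≪≫ mapMatOfEqId (F ⋙ G) h) _ ≪≫
    mapHomotopyCategoryIdIso _

theorem mapK_isEquivalence (F : 𝓐 ⥤ 𝓑) (G : 𝓑 ⥤ 𝓐) [F.Additive] [G.Additive] (h : F ⋙ G = 𝟭 𝓐)
    (h' : G ⋙ F = 𝟭 𝓑) : (mapK F).IsEquivalence :=
  (CategoryTheory.Equivalence.mk (mapK F) (mapK G) (mapKInv F G h).symm
    (mapKInv G F h')).isEquivalence_functor

/-- the complexes given by finite data are mapped to such -/
def Tw.map (F : 𝓐 ⥤ 𝓑) [F.Additive] (A : Tw 𝓐) : Tw 𝓑 where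
  ι := A.ι
  deg := A.deg
  P i := F.obj (A.P i)
  D i j := F.map (A.D i j)
  D_deg i j h := by rw [A.D_deg i j h, F.map_zero]
  D_D i j := by
    simp only [← F.map_comp, ← F.map_sum, A.D_D, F.map_zero]

theorem map_toCpx (F : 𝓐 ⥤ 𝓑) [F.Additive] (A : Tw 𝓐) :
    (F.mapMat_.mapHomologicalComplex (ComplexShape.up ℤ)).obj A.toCpx = (A.map F).toCpx := rfl

theorem mapK_toK (F : 𝓐 ⥤ 𝓑) [F.Additive] (A : Tw 𝓐) :
    (mapK F).obj A.toK = (A.map F).toK := rfl

theorem map_single (F : 𝓐 ⥤ 𝓑) [F.Additive] (X : 𝓐) :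
    (Tw.single X).map F = Tw.single (F.obj X) := by
  simp [Tw.map, Tw.single]

variable {k : Type w} [Semiring k] [Linear k 𝓐] [Linear k 𝓑]

theorem mapMat_semilinear (F : 𝓐 ⥤ 𝓑) [F.Additive] (s : k → k)
    (hF : ∀ {X Y : 𝓐} (a : k) (f : X ⟶ Y), F.map (a • f) = s a • F.map f) {M N : Mat_ 𝓐} (a : k)
    (f : M ⟶ N) : F.mapMat_.map (a • f) = s a • F.mapMat_.map f := by
  funext i j
  exact hF a _

theorem mapK_semilinear (F : 𝓐 ⥤ 𝓑) [F.Additive] (s : k → k)
    (hF : ∀ {X Y : 𝓐} (a : k) (f : X ⟶ Y), F.map (a • f) = s a • F.map f)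
    {M N : HomotopyCategory (Mat_ 𝓐) (ComplexShape.up ℤ)} (a : k) (f : M ⟶ N) :
    (mapK F).map (a • f) = s a • (mapK F).map f := by
  obtain ⟨M, rfl⟩ := HomotopyCategory.quotient_obj_surjective M
  obtain ⟨N, rfl⟩ := HomotopyCategory.quotient_obj_surjective N
  obtain ⟨f, rfl⟩ := (HomotopyCategory.quotient _ _).map_surjective f
  rw [← Functor.map_smul]
  have h : (F.mapMat_.mapHomologicalComplex (ComplexShape.up ℤ)).map (a • f) =
      s a • (F.mapMat_.mapHomologicalComplex (ComplexShape.up ℤ)).map f := by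
    ext i : 1
    exact mapMat_semilinear F s hF a _
  exact (congrArg (HomotopyCategory.quotient (Mat_ 𝓑) (ComplexShape.up ℤ)).map h).trans
    (Functor.map_smul _ _ _)

end General

/-! ## Restriction to a thick subcategory -/

section Restrict

variable {T : Type u} [Category.{v} T] [Preadditive T] [HasZeroObject T] [HasShift T ℤ]
  [∀ n : ℤ, (shiftFunctor T n).Additive] [Pretriangulated T]

omit [Preadditive T] [HasShift T ℤ] [HasZeroObject T] [∀ n : ℤ, (shiftFunctor T n).Additive]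
  [Pretriangulated T] in
theorem inverseImage_retracts (Q : ObjectProperty T) [Q.IsStableUnderRetracts] (Φ : T ⥤ T) :
    (Q.inverseImage Φ).IsStableUnderRetracts where
  of_retract r h := Q.prop_of_retract (r.map Φ) h

/-- A triangulated functor which maps the generators into the triangulated envelope preserves the
triangulated envelope. -/
theorem envelope_le [IsTriangulated T] (P : ObjectProperty T) [P.Nonempty] (Φ : T ⥤ T)
    [Φ.CommShift ℤ] [Φ.IsTriangulated] (h : ∀ X, P X → P.triangEnvelope (Φ.obj X)) (X : T)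
    (hX : P.triangEnvelope X) : P.triangEnvelope (Φ.obj X) := by
  have := inverseImage_retracts P.triangEnvelope Φ
  exact (ObjectProperty.triangEnvelope_le_iff (P := P) (Q := P.triangEnvelope.inverseImage Φ)).2
    h X hX

variable (Q : ObjectProperty T)

/-- restriction of an endofunctor to a full subcategory -/
abbrev restr (Φ : T ⥤ T) (h : ∀ X, Q X → Q (Φ.obj X)) : Q.FullSubcategory ⥤ Q.FullSubcategory :=
  Q.lift (Q.ι ⋙ Φ) (fun X => h X.1 X.2)

variable (Φ : T ⥤ T) (h : ∀ X, Q X → Q (Φ.obj X))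

noncomputable example [Q.IsTriangulated] [Φ.CommShift ℤ] : (restr Q Φ h).CommShift ℤ :=
  inferInstance

example [Q.IsTriangulated] [Φ.CommShift ℤ] [Φ.IsTriangulated] :
    (restr Q Φ h).IsTriangulated := inferInstance

instance restr_additive [Φ.Additive] : (restr Q Φ h).Additive where
  map_add {X Y f g} := by
    ext
    exact Φ.map_add

omit [HasZeroObject T] [∀ n : ℤ, (shiftFunctor T n).Additive] [Pretriangulated T]
  [HasShift T ℤ] [Preadditive T] in
theorem restr_isEquivalence [Φ.Full] [Φ.Faithful] (Ψ : T ⥤ T) (h' : ∀ X, Q X → Q (Ψ.obj X))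
    (e : ∀ X, Nonempty (Φ.obj (Ψ.obj X) ≅ X)) : (restr Q Φ h).IsEquivalence where
  faithful := inferInstance
  full := inferInstance
  essSurj := ⟨fun Y => ⟨⟨Ψ.obj Y.1, h' _ Y.2⟩, ⟨Q.isoMk (e Y.1).some⟩⟩⟩

end Restrict

/-! ## Coefficient conjugation on the category of line bundles -/

section Conj

variable {k : Type u} [Field k] {n : ℕ} {lam : Fin n → Fin 2 → k}

/-- `s` fixes the coefficients of the linear forms `ℓ_i` -/
def Fixes (lam : Fin n → Fin 2 → k) (s : k ≃+* k) : Prop := ∀ i j, s (lam i j) = lam i j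

theorem Fixes.symm {s : k ≃+* k} (hs : Fixes lam s) : Fixes lam s.symm :=
  fun i j => by rw [RingEquiv.symm_apply_eq, hs]

theorem relIdeal_le_comap {s : k ≃+* k} (hs : Fixes lam s) :
    relIdeal lam ≤ (relIdeal lam).comap (MvPolynomial.map (s : k →+* k)) := by
  rw [relIdeal, Ideal.span_le]
  rintro _ ⟨i, rfl⟩
  refine Ideal.subset_span ⟨i, ?_⟩
  simp [hs i]

/-- the action of `s` on the coordinate ring -/
noncomputable def conjS {s : k ≃+* k} (hs : Fixes lam s) : S lam →+* S lam :=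
  Ideal.quotientMap (relIdeal lam) (MvPolynomial.map (s : k →+* k)) (relIdeal_le_comap hs)

theorem conjS_mk {s : k ≃+* k} (hs : Fixes lam s) (f : Big k n) :
    conjS hs (Ideal.Quotient.mk (relIdeal lam) f) =
      Ideal.Quotient.mk (relIdeal lam) (MvPolynomial.map (s : k →+* k) f) :=
  Ideal.quotientMap_mk

theorem conjS_mem {s : k ≃+* k} (hs : Fixes lam s) {d : LG n} {f : S lam}
    (hf : f ∈ piece lam d) : conjS hs f ∈ piece lam d := by
  obtain ⟨f, hf, rfl⟩ := hf
  refine ⟨MvPolynomial.map (s : k →+* k) f, ?_, (conjS_mk hs f).symm⟩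
  rw [SetLike.mem_coe, mem_weightedHomogeneousSubmodule] at hf ⊢
  intro e he
  refine hf fun h => he ?_
  rw [coeff_map, h, map_zero]

theorem conjS_smul {s : k ≃+* k} (hs : Fixes lam s) (a : k) (f : S lam) :
    conjS hs (a • f) = s a • conjS hs f := by
  obtain ⟨f, rfl⟩ := Ideal.Quotient.mk_surjective f
  have h (b : k) (g : Big k n) :
      b • Ideal.Quotient.mk (relIdeal lam) g = Ideal.Quotient.mk (relIdeal lam) (C b * g) := by
    rw [← MvPolynomial.smul_eq_C_mul]
    rfl
  rw [h, conjS_mk, conjS_mk, h, map_mul, map_C]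
  rfl

theorem conjS_comp {s t : k ≃+* k} (hs : Fixes lam s) (ht : Fixes lam t)
    (h : ∀ a, t (s a) = a) (f : S lam) : conjS ht (conjS hs f) = f := by
  obtain ⟨f, rfl⟩ := Ideal.Quotient.mk_surjective f
  rw [conjS_mk, conjS_mk, MvPolynomial.map_map]
  have : (t : k →+* k).comp (s : k →+* k) = RingHom.id k := by
    ext a
    exact h a
  rw [this, MvPolynomial.map_id]

theorem conjS_xI {s : k ≃+* k} (hs : Fixes lam s) (I : Finset (Fin n)) :
    conjS hs (xI lam I) = xI lam I := by
  rw [xI, map_prod]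
  refine Finset.prod_congr rfl fun i _ => ?_
  rw [xx, conjS_mk, map_X]

/-- the semilinear automorphism of the category of line bundles induced by `s` -/
noncomputable def conj {s : k ≃+* k} (hs : Fixes lam s) : LB lam ⥤ LB lam where
  obj x := x
  map f := LB.homMk (conjS hs (LB.Hom.f f)) (conjS_mem hs (LB.Hom.mem f))
  map_id _ := LB.hom_ext (map_one _)
  map_comp _ _ := LB.hom_ext (map_mul _ _ _)

@[simp] theorem conj_obj {s : k ≃+* k} (hs : Fixes lam s) (x : LB lam) : (conj hs).obj x = x := rfl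

@[simp] theorem conj_map_f {s : k ≃+* k} (hs : Fixes lam s) {x y : LB lam} (f : x ⟶ y) :
    LB.Hom.f ((conj hs).map f) = conjS hs (LB.Hom.f f) := rfl

instance conj_additive {s : k ≃+* k} (hs : Fixes lam s) : (conj hs).Additive where
  map_add := LB.hom_ext (map_add _ _ _)

theorem conj_map_smul {s : k ≃+* k} (hs : Fixes lam s) {x y : LB lam} (a : k) (f : x ⟶ y) :
    (conj hs).map (a • f) = s a • (conj hs).map f :=
  LB.hom_ext (conjS_smul hs _ _)

theorem conj_comp {s t : k ≃+* k} (hs : Fixes lam s) (ht : Fixes lam t) (h : ∀ a, t (s a) = a) :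
    conj hs ⋙ conj ht = 𝟭 (LB lam) :=
  CategoryTheory.Functor.hext (fun _ => rfl) fun _ _ _ =>
    heq_of_eq (LB.hom_ext (conjS_comp hs ht h _))

/-- the monomials are fixed -/
theorem conj_gen {s : k ≃+* k} (hs : Fixes lam s) {K I : Finset (Fin n)} (h : K ⊆ I) :
    (conj hs).map (LB.gen lam h) = LB.gen lam h :=
  LB.hom_ext (conjS_xI hs _)

/-- conjugation on the homotopy category -/
noncomputable abbrev conjK {s : k ≃+* k} (hs : Fixes lam s) : KM (LB lam) ⥤ KM (LB lam) :=
  mapK (conj hs)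

instance conjK_isEquivalence {s : k ≃+* k} (hs : Fixes lam s) : (conjK hs).IsEquivalence :=
  mapK_isEquivalence (conj hs) (conj hs.symm) (conj_comp _ _ s.symm_apply_apply)
    (conj_comp _ _ s.apply_symm_apply)

theorem conjK_map_smul {s : k ≃+* k} (hs : Fixes lam s)
    {M N : KM (LB lam)} (a : k) (f : M ⟶ N) :
    (conjK hs).map (a • f) = s a • (conjK hs).map f :=
  mapK_semilinear _ _ (conj_map_smul hs) _ _

theorem conjK_toK {s : k ≃+* k} (hs : Fixes lam s) (A : Tw (LB lam)) :
    (conjK hs).obj A.toK = (A.map (conj hs)).toK := rfl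

theorem conjK_single {s : k ≃+* k} (hs : Fixes lam s) (x : LB lam) :
    (conjK hs).obj (Tw.single x).toK = (Tw.single x).toK := by
  rw [conjK_toK, map_single, conj_obj]

/-- conjugation maps the complex of `R.twist z` to the one of `R.twist (s z)` -/
theorem twist_map {s : k ≃+* k} (hs : Fixes lam s) {Z : Cells} (R : PRep k (LB lam) Z)
    (hR : ∀ σ τ, (conj hs).map (R.e σ τ) = R.e σ τ) {r : ℕ} (Λ : Z.Loop k r) (z : k) (hz : z ^ r = 1)
    (hz' : s z ^ r = 1) :
    (R.twist Λ z hz).tw.map (conj hs) = (R.twist Λ (s z) hz').tw := by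
  have h (σ τ : Z.N) : (conj hs).map ((Z.inc σ τ : k) • z ^ (Λ.G σ τ) • R.e σ τ) =
      (Z.inc σ τ : k) • (s z) ^ (Λ.G σ τ) • R.e σ τ := by
    rw [conj_map_smul, conj_map_smul, hR, map_intCast, map_pow]
    rfl
  unfold PRep.tw Tw.map
  congr 1
  funext σ τ
  exact h σ τ

theorem conjK_twist {s : k ≃+* k} (hs : Fixes lam s) {Z : Cells} (R : PRep k (LB lam) Z)
    (hR : ∀ σ τ, (conj hs).map (R.e σ τ) = R.e σ τ) {r : ℕ} (Λ : Z.Loop k r) (z : k) (hz : z ^ r = 1)
    (hz' : s z ^ r = 1) :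
    (conjK hs).obj (R.twist Λ z hz).tw.toK = (R.twist Λ (s z) hz').tw.toK := by
  rw [conjK_toK, twist_map hs R hR Λ z hz hz']

/-! ### Restriction to the thick subcategory generated by line bundles -/

variable (P : ObjectProperty (KM (LB lam))) [P.Nonempty]
  (hP : ∀ Y, P Y → ∃ x : LB lam, Y = (Tw.single x).toK)

include hP in
theorem conjK_envelope {s : k ≃+* k} (hs : Fixes lam s) (Y : KM (LB lam))
    (hY : P.triangEnvelope Y) : P.triangEnvelope ((conjK hs).obj Y) := by
  refine envelope_le P (conjK hs) (fun Y hY => ?_) Y hY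
  obtain ⟨x, rfl⟩ := hP Y hY
  rw [conjK_single]
  exact P.le_triangEnvelope _ hY

/-- the restriction of the conjugation to the thick subcategory generated by `P` -/
noncomputable abbrev conjT {s : k ≃+* k} (hs : Fixes lam s) :
    P.triangEnvelope.FullSubcategory ⥤ P.triangEnvelope.FullSubcategory :=
  restr P.triangEnvelope (conjK hs) (conjK_envelope P hP hs)

theorem conjT_isEquivalence {s : k ≃+* k} (hs : Fixes lam s) : (conjT P hP hs).IsEquivalence :=
  restr_isEquivalence _ _ _ (conjK hs.symm) (conjK_envelope P hP hs.symm) fun X =>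
    ⟨(mapKInv (conj hs.symm) (conj hs) (conj_comp _ _ s.apply_symm_apply)).app X⟩

noncomputable example {s : k ≃+* k} (hs : Fixes lam s) : (conjT P hP hs).CommShift ℤ :=
  inferInstance

example {s : k ≃+* k} (hs : Fixes lam s) : (conjT P hP hs).IsTriangulated := inferInstance

example {s : k ≃+* k} (hs : Fixes lam s) : (conjT P hP hs).Additive := inferInstance

theorem conjT_obj {s : k ≃+* k} (hs : Fixes lam s) (Y : P.triangEnvelope.FullSubcategory) :
    ((conjT P hP hs).obj Y).obj = (conjK hs).obj Y.obj := rfl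

/-- line bundles are fixed -/
theorem conjT_single {s : k ≃+* k} (hs : Fixes lam s) (x : LB lam)
    (hx : P.triangEnvelope (Tw.single x).toK) :
    (conjT P hP hs).obj ⟨(Tw.single x).toK, hx⟩ = ⟨(Tw.single x).toK, hx⟩ := by
  apply ObjectProperty.FullSubcategory.ext
  exact conjK_single hs x

end Conj

end Lens
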