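import Mathlib

/-!
# Automorphisms of algebraically closed fields which move a primitive cube root of unity
-/

namespace Lens

/-- Let `k` be an algebraically closed extension of a field `F` of characteristic zero and let
`z` be a root of `X² + X + 1` in `k` which does not lie in `F`. Then some automorphism of `k`
over `F` moves `z`. -/
theorem exists_aut_move_cube_root (F : Type*) {k : Type*} [Field F] [Field k] [Algebra F k]
    [CharZero F] [IsAlgClosed k] (z : k) (hz : z ^ 2 + z + 1 = 0)
    (hF : z ∉ Set.range (algebraMap F k)) : ∃ s : k ≃ₐ[F] k, s z ≠ z := by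
  classical
  obtain ⟨ι, x, hx⟩ := exists_isTranscendenceBasis' F k
  set K := IntermediateField.adjoin F (Set.range x) with hK
  have halg : Algebra.IsAlgebraic K k := hx.isAlgebraic_field
  have hclosure : IsAlgClosure K k := ⟨inferInstance, halg⟩
  have : CharZero K := inferInstance
  have hgal : IsGalois K k := inferInstance
  have hzK : z ∉ Set.range (algebraMap K k) := by
    rintro ⟨y, hy⟩
    have hyK : z ∈ K := by rw [← hy]; exact y.2
    rw [hK, IntermediateField.mem_adjoin_range_iff] at hyK
    obtain ⟨p, q, hpq⟩ := hyK
    have hq0 : MvPolynomial.aeval x q ≠ 0 := by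
      intro h0
      rw [h0, div_zero] at hpq
      rw [hpq] at hz
      simp at hz
    have h1 : MvPolynomial.aeval x (p ^ 2 + p * q + q ^ 2) = 0 := by
      have h2 : MvPolynomial.aeval x p = z * MvPolynomial.aeval x q := by
        rw [hpq, div_mul_cancel₀ _ hq0]
      simp only [map_add, map_mul, map_pow, h2]
      linear_combination (MvPolynomial.aeval x q) ^ 2 * hz
    have h3 : p ^ 2 + p * q + q ^ 2 = 0 := by
      apply hx.1
      rw [h1, map_zero]
    have h4 : q = 0 := by
      apply MvPolynomial.funext
      intro b
      rw [map_zero]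
      by_contra hb
      have h5 := congrArg (MvPolynomial.eval b) h3
      simp only [map_add, map_mul, map_pow, map_zero] at h5
      set P := MvPolynomial.eval b p
      set Q := MvPolynomial.eval b q
      have h6 : (P / Q) ^ 2 + P / Q + 1 = 0 := by
        field_simp
        linear_combination h5
      have h7 := congrArg (algebraMap F k) h6
      simp only [map_add, map_pow, map_one, map_zero] at h7
      set y := algebraMap F k (P / Q) with hy'
      have h8 : (z - y) * (z + y + 1) = 0 := by linear_combination hz - h7
      rcases mul_eq_zero.1 h8 with h9 | h9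
      · exact hF ⟨P / Q, by rw [← hy']; exact (sub_eq_zero.1 h9).symm⟩
      · refine hF ⟨-(P / Q) - 1, ?_⟩
        rw [map_sub, map_neg, map_one, ← hy']
        linear_combination -h9
    exact hq0 (by rw [h4, map_zero])
  rw [InfiniteGalois.mem_range_algebraMap_iff_fixed] at hzK
  push Not at hzK
  obtain ⟨f, hf⟩ := hzK
  exact ⟨f.restrictScalars F, hf⟩

/-- An algebraically closed field of characteristic zero has an automorphism which moves a
primitive cube root of unity. -/
theorem exists_aut_move_cube_root' (k : Type*) [Field k] [IsAlgClosed k] [CharZero k] :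
    ∃ (s : k ≃+* k) (z : k), z ^ 2 + z + 1 = 0 ∧ s z ≠ z := by
  obtain ⟨z, hz⟩ : ∃ z : k, z ^ 2 + z + 1 = 0 := by
    obtain ⟨w, hw⟩ := IsAlgClosed.exists_pow_nat_eq (-3 : k) (n := 2) (by norm_num)
    refine ⟨(w - 1) / 2, ?_⟩
    field_simp
    linear_combination hw
  obtain ⟨s, hs⟩ := exists_aut_move_cube_root ℚ z hz (by
    rintro ⟨q, hq⟩
    rw [← hq] at hz
    have h1 : algebraMap ℚ k (q ^ 2 + q + 1) = 0 := by
      rw [← hz]
      simp
    have h2 : q ^ 2 + q + 1 = 0 := by
      apply (algebraMap ℚ k).injective
      rw [h1, map_zero]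
    nlinarith [sq_nonneg (2 * q + 1)])
  exact ⟨s.toRingEquiv, z, hz, hs⟩

end Lens
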