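import Pool.Agent.Lens.G

/-!
# Points fixed by a field automorphism which moves a root of unity, in all characteristics
-/

namespace Lens

open Polynomial

/-- the roots of `X ^ (p ^ m) - X` in an algebraically closed field of characteristic `p` -/
theorem exists_fixed_points (k : Type*) [Field k] [IsAlgClosed k] (p : ℕ) [Fact p.Prime]
    [CharP k p] [ExpChar k p] (m N : ℕ) (hm : m ≠ 0) (hN : N ≤ p ^ m) :
    ∃ a : Fin N → k, Function.Injective a ∧ ∀ i, iterateFrobeniusEquiv k p m (a i) = a i := by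
  have hp : p.Prime := Fact.out
  have hsep : (X ^ (p ^ m) - X : k[X]).Separable :=
    galois_poly_separable p (p ^ m) (dvd_pow_self p hm)
  have hdeg : (X ^ (p ^ m) - X : k[X]).natDegree = p ^ m :=
    FiniteField.X_pow_card_pow_sub_X_natDegree_eq k hm hp.one_lt
  have hcard : Fintype.card ((X ^ (p ^ m) - X : k[X]).rootSet k) = p ^ m := by
    rw [card_rootSet_eq_natDegree hsep (IsAlgClosed.splits _), hdeg]
  have hN' : N ≤ Fintype.card ((X ^ (p ^ m) - X : k[X]).rootSet k) := by
    rw [hcard]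
    exact hN
  let a : Fin N → k := fun i =>
    ((Fintype.equivFin ((X ^ (p ^ m) - X : k[X]).rootSet k)).symm (Fin.castLE hN' i)).1
  refine ⟨a, fun i j hij => ?_, fun i => ?_⟩
  · have h4 := Subtype.ext hij
    have h5 := (Fintype.equivFin _).symm.injective h4
    exact Fin.castLE_injective hN' h5
  · rw [iterateFrobeniusEquiv_apply, iterateFrobenius_def]
    have h4 := ((Fintype.equivFin ((X ^ (p ^ m) - X : k[X]).rootSet k)).symm
      (Fin.castLE hN' i)).2
    rw [mem_rootSet] at h4
    have h5 := h4.2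
    simp only [map_sub, map_pow, aeval_X] at h5
    exact sub_eq_zero.1 h5

/-- Every algebraically closed field `k` has, for some `r ≥ 3` which is nonzero in `k` and for all
`N`, an automorphism which moves an `r`-th root of unity and fixes `N` elements of `k`. -/
theorem exists_points_all (k : Type*) [Field k] [IsAlgClosed k] :
    ∃ r : ℕ, 3 ≤ r ∧ (r : k) ≠ 0 ∧ ∀ N : ℕ, ∃ (s : k ≃+* k) (z : k) (a : Fin N → k),
      z ^ r = 1 ∧ s z ≠ z ∧ Function.Injective a ∧ ∀ i, s (a i) = a i := by
  rcases CharP.exists' k with h | ⟨p, hp, hc⟩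
  · refine ⟨3, le_rfl, by norm_num, fun N => ?_⟩
    obtain ⟨s, z, hz, hs⟩ := exists_aut_move_cube_root' k
    refine ⟨s, z, fun i => ((i : ℕ) : k), by linear_combination (z - 1) * hz, hs,
      fun i j hij => ?_, fun i => map_natCast s _⟩
    exact Fin.ext (Nat.cast_injective hij)
  · have h2 : 2 ≤ p := hp.out.two_le
    have : ExpChar k p := ExpChar.prime hp.out
    have hr : ((p + 1 : ℕ) : k) ≠ 0 := by
      rw [Nat.cast_add, CharP.cast_eq_zero, zero_add, Nat.cast_one]
      exact one_ne_zero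
    refine ⟨p + 1, by omega, hr, fun N => ?_⟩
    have : NeZero ((p + 1 : ℕ) : k) := ⟨hr⟩
    obtain ⟨z, hz⟩ := HasEnoughRootsOfUnity.exists_primitiveRoot k (p + 1)
    have hodd : Odd (2 * N + 1) := ⟨N, rfl⟩
    obtain ⟨a, ha, ha'⟩ := exists_fixed_points k p (2 * N + 1) N (by omega) (by
      calc N ≤ 2 ^ N := Nat.lt_two_pow_self.le
        _ ≤ 2 ^ (2 * N + 1) := Nat.pow_le_pow_right (by norm_num) (by omega)
        _ ≤ p ^ (2 * N + 1) := Nat.pow_le_pow_left h2 _)
    refine ⟨iterateFrobeniusEquiv k p (2 * N + 1), z, a, hz.pow_eq_one, fun h => ?_, ha, ha'⟩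
    rw [iterateFrobeniusEquiv_apply, iterateFrobenius_def] at h
    have h3 : z ^ (p ^ (2 * N + 1) + 1) = 1 := by
      have h4 := hodd.nat_add_dvd_pow_add_pow p 1
      rw [one_pow] at h4
      exact (hz.pow_eq_one_iff_dvd _).2 h4
    rw [pow_succ, h, ← pow_two] at h3
    have h5 := Nat.le_of_dvd (by norm_num) ((hz.pow_eq_one_iff_dvd 2).1 h3)
    omega

end Lens
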