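import Pool.Agent.Lens.SC

/-!
# First cohomology: from the Hasse diagram to the simplicial cochains

If every simplicial `1`-cocycle of the complex is a coboundary, then every function on the edges of
the Hasse diagram of the face poset that satisfies the diamond relations is a difference of
potentials.
-/

set_option autoImplicit false

open Finset

namespace Lens

namespace SC

variable {n : ℕ} (X : SC n) {k : Type*} [AddCommGroup k]

/-- summing a diamond-commutative weight down to a vertex -/
theorem exists_down (w : X.N → X.N → k)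
    (hw : ∀ i l l' j, X.inc i l ≠ 0 → X.inc l j ≠ 0 → X.inc i l' ≠ 0 → X.inc l' j ≠ 0 →
      w i l + w l j = w i l' + w l' j) (m : ℕ) :
    ∃ W : X.N → Fin n → k, ∀ i j, (X.verts i).card ≤ m → X.inc i j ≠ 0 → ∀ a ∈ X.verts j,
      W i a = w i j + W j a := by
  classical
  induction m with
  | zero =>
    refine ⟨fun _ _ => 0, fun i j hi _ => ?_⟩
    exact absurd (card_pos.2 (X.ne i)) (by omega)
  | succ m ih =>
    obtain ⟨W, hW⟩ := ih
    let P : X.N → Fin n → X.N → Prop := fun i a j => X.inc i j ≠ 0 ∧ a ∈ X.verts j
    refine ⟨fun i a => if (X.verts i).card = m + 1 then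
      (if h : ∃ j, P i a j then w i h.choose + W h.choose a else 0) else W i a, ?_⟩
    intro i j hi hij a ha
    obtain ⟨hsub, hcard⟩ := (X.inc_ne_iff i j).1 hij
    by_cases hc : (X.verts i).card = m + 1
    · have hj : (X.verts j).card ≠ m + 1 := by omega
      have hex : ∃ j, P i a j := ⟨j, hij, ha⟩
      simp only [if_pos hc, if_neg hj, dif_pos hex]
      obtain ⟨h1, h2⟩ := hex.choose_spec
      set j' := hex.choose with hj'
      clear_value j'
      by_cases hjj : j' = j
      · rw [hjj]
      · obtain ⟨hsub', hcard'⟩ := (X.inc_ne_iff i j').1 h1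
        -- the common face
        have hne : X.verts j' ≠ X.verts j := fun h => hjj (X.inj h)
        have hinter : (X.verts j ∩ X.verts j').card + 1 = (X.verts j).card := by
          have e1 := card_union_add_card_inter (X.verts j) (X.verts j')
          have e2 : (X.verts j ∪ X.verts j').card ≤ (X.verts i).card :=
            card_le_card (union_subset hsub hsub')
          have e3 : (X.verts j).card < (X.verts j ∪ X.verts j').card := by
            refine card_lt_card ⟨subset_union_left, fun h => hne ?_⟩
            exact eq_of_subset_of_card_le (subset_union_right.trans h) (by omega)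
          omega
        obtain ⟨l, hl⟩ := X.down j _ (inter_subset_left (s₁ := X.verts j) (s₂ := X.verts j'))
          ⟨a, mem_inter.2 ⟨ha, h2⟩⟩
        have hl1 : X.inc j l ≠ 0 := (X.inc_ne_iff j l).2
          ⟨by rw [hl]; exact inter_subset_left, by rw [hl]; omega⟩
        have hl2 : X.inc j' l ≠ 0 := (X.inc_ne_iff j' l).2
          ⟨by rw [hl]; exact inter_subset_right, by rw [hl]; omega⟩
        have hal : a ∈ X.verts l := by rw [hl]; exact mem_inter.2 ⟨ha, h2⟩
        have e1 := hW j l (by omega) hl1 a hal
        have e2 := hW j' l (by omega) hl2 a hal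
        have e3 := hw i j j' l hij hl1 h1 hl2
        rw [e1, e2, ← add_assoc, ← add_assoc, e3]
    · have hj : (X.verts j).card ≠ m + 1 := by omega
      simp only [if_neg hc, if_neg hj]
      exact hW i j (by omega) hij a ha

/-- the criterion for `h1` -/
theorem h1_of_simplicial
    (hS : ∀ F : Fin n → Fin n → k, (∀ a, F a a = 0) → (∀ a b, F a b = - F b a) →
      (∀ (a b c : Fin n) (σ : X.N), X.verts σ = {a, b, c} → F a b + F b c = F a c) →
      ∃ g : Fin n → k, ∀ (a b : Fin n) (σ : X.N), X.verts σ = {a, b} → F a b = g b - g a)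
    (w : X.N → X.N → k)
    (hw : ∀ i l l' j, X.inc i l ≠ 0 → X.inc l j ≠ 0 → X.inc i l' ≠ 0 → X.inc l' j ≠ 0 →
      w i l + w l j = w i l' + w l' j) :
    ∃ h : X.N → k, ∀ i j, X.inc i j ≠ 0 → w i j = h i - h j := by
  classical
  obtain ⟨W, hW⟩ := X.exists_down w hw n
  have hW' : ∀ i j, X.inc i j ≠ 0 → ∀ a ∈ X.verts j, W i a = w i j + W j a := fun i j =>
    hW i j (by simpa using card_le_univ (X.verts i))
  let F : Fin n → Fin n → k := fun a b =>
    ∑ σ, if X.verts σ = {a, b} then W σ a - W σ b else 0
  have hF : ∀ (a b : Fin n) (σ : X.N), X.verts σ = {a, b} → F a b = W σ a - W σ b := by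
    intro a b σ hσ
    change ∑ σ, (if X.verts σ = {a, b} then W σ a - W σ b else 0) = _
    rw [sum_eq_single σ]
    · rw [if_pos hσ]
    · intro τ _ hτ
      exact if_neg fun h => hτ (X.inj (h.trans hσ.symm))
    · intro h
      exact absurd (mem_univ _) h
  have hD : ∀ (m : ℕ) (i : X.N), (X.verts i).card = m → ∀ a ∈ X.verts i, ∀ b ∈ X.verts i,
      W i a - W i b = F a b := by
    intro m
    induction m with
    | zero =>
      intro i hi
      exact absurd (card_pos.2 (X.ne i)) (by omega)
    | succ m ih =>
      intro i hi a ha b hb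
      by_cases hex : ∃ c ∈ X.verts i, c ≠ a ∧ c ≠ b
      · obtain ⟨c, hc, hca, hcb⟩ := hex
        have ha' : a ∈ (X.verts i).erase c := mem_erase.2 ⟨hca.symm, ha⟩
        have hb' : b ∈ (X.verts i).erase c := mem_erase.2 ⟨hcb.symm, hb⟩
        obtain ⟨j, hj⟩ := X.down i _ (erase_subset c (X.verts i)) ⟨a, ha'⟩
        have hcj : (X.verts j).card = m := by
          rw [hj, card_erase_of_mem hc, hi]; rfl
        have hinc : X.inc i j ≠ 0 := (X.inc_ne_iff i j).2
          ⟨by rw [hj]; exact erase_subset _ _, by rw [hi, hcj]⟩
        rw [hW' i j hinc a (by rw [hj]; exact ha'), hW' i j hinc b (by rw [hj]; exact hb'),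
          add_sub_add_left_eq_sub]
        exact ih j hcj a (by rw [hj]; exact ha') b (by rw [hj]; exact hb')
      · have hv : X.verts i = {a, b} := by
          ext c
          rw [mem_insert, mem_singleton]
          constructor
          · intro hc
            by_contra h
            rw [not_or] at h
            exact hex ⟨c, hc, h.1, h.2⟩
          · rintro (rfl | rfl)
            · exact ha
            · exact hb
        exact (hF a b i hv).symm
  have hD' : ∀ (i : X.N), ∀ a ∈ X.verts i, ∀ b ∈ X.verts i, W i a - W i b = F a b :=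
    fun i => hD _ i rfl
  obtain ⟨g, hg⟩ := hS F
    (by
      intro a
      change ∑ σ, (if X.verts σ = {a, a} then W σ a - W σ a else 0) = 0
      refine sum_eq_zero fun σ _ => ?_
      rw [sub_self, ite_self])
    (by
      intro a b
      change ∑ σ, (if X.verts σ = {a, b} then W σ a - W σ b else 0) =
        - ∑ σ, (if X.verts σ = {b, a} then W σ b - W σ a else 0)
      rw [← sum_neg_distrib]
      refine sum_congr rfl fun σ _ => ?_
      rw [pair_comm b a]
      split_ifs
      · rw [neg_sub]
      · rw [neg_zero])
    (by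
      intro a b c σ hσ
      have ha : a ∈ X.verts σ := by rw [hσ]; simp
      have hb : b ∈ X.verts σ := by rw [hσ]; simp
      have hc : c ∈ X.verts σ := by rw [hσ]; simp
      rw [← hD' σ a ha b hb, ← hD' σ b hb c hc, ← hD' σ a ha c hc, sub_add_sub_cancel])
  refine ⟨fun i => W i (X.ne i).choose + g (X.ne i).choose, ?_⟩
  have hh : ∀ i, ∀ a ∈ X.verts i,
      W i (X.ne i).choose + g (X.ne i).choose = W i a + g a := by
    intro i a ha
    have ha0 := (X.ne i).choose_spec
    set a0 := (X.ne i).choose with h0
    clear_value a0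
    have hsub : ({a, a0} : Finset (Fin n)) ⊆ X.verts i := by
      intro c hc
      rw [mem_insert, mem_singleton] at hc
      rcases hc with rfl | rfl
      · exact ha
      · exact ha0
    obtain ⟨e, he⟩ := X.down i {a, a0} hsub ⟨a, mem_insert_self _ _⟩
    have h1 := hg a a0 e he
    rw [← hD' i a ha a0 ha0] at h1
    have h2 : W i a = W i a0 + (g a0 - g a) := by rw [← h1]; abel
    rw [h2]; abel
  intro i j hij
  obtain ⟨a, ha⟩ := X.ne j
  have hai : a ∈ X.verts i := ((X.inc_ne_iff i j).1 hij).1 ha
  change w i j = (W i (X.ne i).choose + g (X.ne i).choose) - (W j (X.ne j).choose + g (X.ne j).choose)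
  rw [hh i a hai, hh j a ha, hW' i j hij a ha]
  abel

end SC

end Lens
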