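import Pool.Agent.Lens.PRep
import Pool.Agent.Lens.Cls

/-!
# What is needed about morphisms from and to the cellular chain complex
-/

open CategoryTheory CategoryTheory.Limits CategoryTheory.Pretriangulated

namespace Lens

universe w v u

variable {k : Type w} [Field k] {𝓐 : Type u} [Category.{v} 𝓐] [Preadditive 𝓐] [Linear k 𝓐]

namespace PRep

variable {Z : Cells} (R : PRep k 𝓐 Z)

open scoped Classical in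
/-- BLOCK C3: everything that `TwistDatum` needs about the complex `C = R.tw.toK`. -/
structure HomFacts (F : Z.Facts k) where
  end_C : ∀ f : R.tw.toK ⟶ R.tw.toK, ∃ a : k, f = a • 𝟙 _
  hom_neg : ∀ m : ℤ, m < 0 → ∀ f : R.tw.toK ⟶ R.tw.toK⟦m⟧, f = 0
  hom_one : ∀ f : R.tw.toK ⟶ R.tw.toK⟦(1 : ℤ)⟧, f = 0
  tr : (R.tw.toK ⟶ R.tw.toK⟦(3 : ℤ)⟧) →ₗ[k] k
  a : ∀ τ, R.PK τ ⟶ R.tw.toK
  b : ∀ τ, R.tw.toK ⟶ (R.PK τ)⟦(3 : ℤ)⟧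
  ha : ∀ τ (f : R.PK τ ⟶ R.tw.toK), ∃ c : k, f = c • a τ
  ha' : ∀ τ (m : ℤ), m ≠ 0 → ∀ f : R.PK τ ⟶ R.tw.toK⟦m⟧, f = 0
  hb : ∀ τ (f : R.tw.toK ⟶ (R.PK τ)⟦(3 : ℤ)⟧), ∃ c : k, f = c • b τ
  hb' : ∀ τ (m : ℤ), m ≠ 3 → ∀ f : R.tw.toK ⟶ (R.PK τ)⟦m⟧, f = 0
  hab : ∀ τ, tr (b τ ≫ (a τ)⟦(3 : ℤ)⟧') ≠ 0
  b_eq : ∀ τ, ∃ c : Tw.Coc R.tw (Tw.single (R.P τ)) 3, c.cls = b τ ∧
    ∀ σ, c.f σ () = if σ = F.t τ then R.e σ τ else 0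

end PRep

end Lens
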