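import Pool.Agent.Lens.Defs

/-!
# Block A1: invariance of the orbit under a semilinear triangulated autoequivalence
-/

open CategoryTheory CategoryTheory.Limits CategoryTheory.Pretriangulated

namespace Lens

universe w v u

namespace Inv

section basic

variable {T : Type u} [Category.{v} T] [Preadditive T]
  [HasZeroObject T] [HasShift T ℤ] [∀ n : ℤ, (shiftFunctor T n).Additive] [Pretriangulated T]

/-- all maps from shifts of `E` to `L` vanish -/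
def RO (E L : T) : Prop := ∀ (m : ℤ) (f : E⟦m⟧ ⟶ L), f = 0

/-- all maps from `F` to shifts of `E` vanish -/
def LO (E F : T) : Prop := ∀ (m : ℤ) (f : F ⟶ E⟦m⟧), f = 0

/-- `A` is left orthogonal to everything right orthogonal to `E` -/
def Lgen (E A : T) : Prop := ∀ Y, RO E Y → ∀ f : A ⟶ Y, f = 0

/-- `A` is right orthogonal to everything left orthogonal to `E` -/
def Rgen (E A : T) : Prop := ∀ Y, LO E Y → ∀ f : Y ⟶ A, f = 0

omit [HasZeroObject T] [Pretriangulated T] in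
theorem shift_eq_zero {X Y : T} (m : ℤ) {f : X ⟶ Y} (h : f⟦m⟧' = 0) : f = 0 := by
  apply (shiftFunctor T m).map_injective
  rw [h, Functor.map_zero]

omit [HasZeroObject T] [∀ n : ℤ, (shiftFunctor T n).Additive] [Pretriangulated T] in
theorem eq_zero_of_iso {X X' Y Y' : T} (e : X ≅ X') (e' : Y ≅ Y')
    (h : ∀ f : X' ⟶ Y', f = 0) (f : X ⟶ Y) : f = 0 := by
  have h1 := h (e.inv ≫ f ≫ e'.hom)
  have h2 : f = e.hom ≫ (e.inv ≫ f ≫ e'.hom) ≫ e'.inv := by simp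
  rw [h2, h1]; simp

omit [HasZeroObject T] [Pretriangulated T] in
/-- maps `X⟦m⟧ ⟶ Y⟦m⟧` vanish if maps `X ⟶ Y` do -/
theorem shift_map_zero {X Y : T} (m : ℤ) (h : ∀ f : X ⟶ Y, f = 0) (f : X⟦m⟧ ⟶ Y⟦m⟧) : f = 0 := by
  obtain ⟨g, rfl⟩ := (shiftFunctor T m).map_surjective f
  rw [h g, Functor.map_zero]

omit [HasZeroObject T] [Pretriangulated T] in
theorem RO.shift {E L : T} (h : RO E L) (b : ℤ) : RO E (L⟦b⟧) := by
  intro m f
  exact eq_zero_of_iso ((shiftFunctorAdd' T (m - b) b m (by omega)).app E) (Iso.refl _)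
    (shift_map_zero b (h (m - b))) f

omit [HasZeroObject T] [Pretriangulated T] in
theorem LO.shift {E F : T} (h : LO E F) (b : ℤ) : LO E (F⟦b⟧) := by
  intro m f
  exact eq_zero_of_iso (Iso.refl _) ((shiftFunctorAdd' T (m - b) b m (by omega)).app E)
    (shift_map_zero b (h (m - b))) f

omit [HasZeroObject T] [Pretriangulated T] in
theorem RO.iso {E L L' : T} (h : RO E L) (e : L' ≅ L) : RO E L' :=
  fun m => eq_zero_of_iso (Iso.refl _) e (h m)

omit [HasZeroObject T] [Pretriangulated T] in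
theorem LO.iso {E F F' : T} (h : LO E F) (e : F' ≅ F) : LO E F' :=
  fun m => eq_zero_of_iso e (Iso.refl _) (h m)

omit [HasZeroObject T] [Pretriangulated T] in
theorem Lgen.shift {E A : T} (h : Lgen E A) (b : ℤ) : Lgen E (A⟦b⟧) := by
  intro Y hY f
  exact eq_zero_of_iso (Iso.refl _) ((shiftFunctorCompIsoId T (-b) b (by omega)).symm.app Y)
    (shift_map_zero b (h _ (hY.shift (-b)))) f

omit [HasZeroObject T] [Pretriangulated T] in
theorem Rgen.shift {E A : T} (h : Rgen E A) (b : ℤ) : Rgen E (A⟦b⟧) := by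
  intro Y hY f
  exact eq_zero_of_iso ((shiftFunctorCompIsoId T (-b) b (by omega)).symm.app Y) (Iso.refl _)
    (shift_map_zero b (h _ (hY.shift (-b)))) f

/-- Uniqueness of a triangle with orthogonal ends and given middle term. -/
theorem tri_unique (T₁ T₂ : Triangle T) (h₁ : T₁ ∈ distTriang T) (h₂ : T₂ ∈ distTriang T)
    (e : T₁.obj₂ ≅ T₂.obj₂)
    (o11 : ∀ f : T₁.obj₁ ⟶ T₁.obj₃⟦(-1 : ℤ)⟧, f = 0)
    (o22 : ∀ f : T₂.obj₁ ⟶ T₂.obj₃⟦(-1 : ℤ)⟧, f = 0)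
    (o12 : ∀ f : T₁.obj₁ ⟶ T₂.obj₃, f = 0) (o21 : ∀ f : T₂.obj₁ ⟶ T₁.obj₃, f = 0) :
    Nonempty (T₁ ≅ T₂) := by
  obtain ⟨α, hα⟩ := T₂.coyoneda_exact₂ h₂ (T₁.mor₁ ≫ e.hom) (o12 _)
  obtain ⟨β, hβ⟩ := T₁.coyoneda_exact₂ h₁ (T₂.mor₁ ≫ e.inv) (o21 _)
  have hαβ : α ≫ β = 𝟙 _ := by
    have h3 : (α ≫ β - 𝟙 _) ≫ T₁.mor₁ = 0 := by
      rw [Preadditive.sub_comp, Category.assoc, ← hβ, ← Category.assoc, ← hα]
      simp
    obtain ⟨g, hg⟩ := T₁.invRotate.coyoneda_exact₂ (inv_rot_of_distTriang _ h₁) _ h3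
    have : g = 0 := o11 g
    rw [this, zero_comp] at hg
    exact sub_eq_zero.1 hg
  have hβα : β ≫ α = 𝟙 _ := by
    have h3 : (β ≫ α - 𝟙 _) ≫ T₂.mor₁ = 0 := by
      rw [Preadditive.sub_comp, Category.assoc, ← hα, ← Category.assoc, ← hβ]
      simp
    obtain ⟨g, hg⟩ := T₂.invRotate.coyoneda_exact₂ (inv_rot_of_distTriang _ h₂) _ h3
    have : g = 0 := o22 g
    rw [this, zero_comp] at hg
    exact sub_eq_zero.1 hg
  exact ⟨isoTriangleOfIso₁₂ T₁ T₂ h₁ h₂ ⟨α, β, hαβ, hβα⟩ e hα⟩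

end basic

section functor

variable {T : Type u} [Category.{v} T] [Preadditive T]
  [HasZeroObject T] [HasShift T ℤ] [∀ n : ℤ, (shiftFunctor T n).Additive] [Pretriangulated T]
  (Φ : T ⥤ T) [Φ.IsEquivalence] [Φ.Additive] [Φ.CommShift ℤ]

omit [HasZeroObject T] [∀ n : ℤ, (shiftFunctor T n).Additive] [Pretriangulated T] [HasShift T ℤ]
  [Φ.CommShift ℤ] in
theorem map_zero_of {X Y : T} (h : ∀ f : X ⟶ Y, f = 0) (f : Φ.obj X ⟶ Φ.obj Y) : f = 0 := by
  obtain ⟨g, rfl⟩ := Φ.map_surjective f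
  rw [h g, Φ.map_zero]

omit [HasZeroObject T] [∀ n : ℤ, (shiftFunctor T n).Additive] [Pretriangulated T] [HasShift T ℤ]
  [Φ.CommShift ℤ] in
theorem zero_of_map {X Y : T} (h : ∀ f : Φ.obj X ⟶ Φ.obj Y, f = 0) (f : X ⟶ Y) : f = 0 := by
  apply Φ.map_injective
  rw [h (Φ.map f), Φ.map_zero]

variable {E : T} {a : ℤ} (e : Φ.obj E ≅ E⟦a⟧)

/-- `Φ (E⟦m⟧) ≅ E⟦a + m⟧` -/
noncomputable def isoE (m : ℤ) {m' : ℤ} (h : a + m = m') : Φ.obj (E⟦m⟧) ≅ E⟦m'⟧ :=
  (Φ.commShiftIso m).app E ≪≫ (shiftFunctor T m).mapIso e ≪≫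
    ((shiftFunctorAdd' T a m m' h).app E).symm

include e

omit [HasZeroObject T] [∀ n : ℤ, (shiftFunctor T n).Additive] [Pretriangulated T] in
theorem RO.map {L : T} (h : RO E L) : RO E (Φ.obj L) := fun m =>
  eq_zero_of_iso (isoE Φ e (m - a) (m' := m) (by omega)).symm (Iso.refl _)
    (map_zero_of Φ (h (m - a)))

omit [HasZeroObject T] [∀ n : ℤ, (shiftFunctor T n).Additive] [Pretriangulated T] in
theorem LO.map {F : T} (h : LO E F) : LO E (Φ.obj F) := fun m =>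
  eq_zero_of_iso (Iso.refl _) (isoE Φ e (m - a) (m' := m) (by omega)).symm
    (map_zero_of Φ (h (m - a)))

omit [HasZeroObject T] [∀ n : ℤ, (shiftFunctor T n).Additive] [Pretriangulated T] in
theorem Lgen.map {A : T} (h : Lgen E A) : Lgen E (Φ.obj A) := by
  intro Y hY
  refine eq_zero_of_iso (Iso.refl _) (Φ.objObjPreimageIso Y).symm (map_zero_of Φ (h _ ?_))
  intro m
  refine zero_of_map Φ (eq_zero_of_iso (isoE Φ e m rfl) (Φ.objObjPreimageIso Y) (hY _))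

omit [HasZeroObject T] [∀ n : ℤ, (shiftFunctor T n).Additive] [Pretriangulated T] in
theorem Rgen.map {A : T} (h : Rgen E A) : Rgen E (Φ.obj A) := by
  intro Y hY
  refine eq_zero_of_iso (Φ.objObjPreimageIso Y).symm (Iso.refl _) (map_zero_of Φ (h _ ?_))
  intro m
  refine zero_of_map Φ (eq_zero_of_iso (Φ.objObjPreimageIso Y) (isoE Φ e m rfl) (hY _))

variable [Φ.IsTriangulated]

/-- forward: invariance of the left mutation -/
theorem forward {F L A : T} {φ : A ⟶ F} {g : F ⟶ L} {h : L ⟶ A⟦(1 : ℤ)⟧}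
    (ht : Triangle.mk φ g h ∈ distTriang T) (lg : Lgen E A) (ro : RO E L)
    {b : ℤ} (eF : Φ.obj F ≅ F⟦b⟧) : Nonempty (Φ.obj L ≅ L⟦b⟧) := by
  have h₁ := Φ.map_distinguished _ ht
  have h₂ := Triangle.shift_distinguished _ ht b
  obtain ⟨i⟩ := tri_unique _ _ h₁ h₂ eF
    ((lg.map Φ e) _ ((ro.map Φ e).shift _)) ((lg.shift b) _ ((ro.shift b).shift _))
    ((lg.map Φ e) _ (ro.shift b)) ((lg.shift b) _ (ro.map Φ e))
  exact ⟨Triangle.π₃.mapIso i⟩

/-- backward: invariance of the right mutation -/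
theorem backward {F L A : T} {φ : A ⟶ F} {g : F ⟶ L} {h : L ⟶ A⟦(1 : ℤ)⟧}
    (ht : Triangle.mk φ g h ∈ distTriang T) (rg : Rgen E A) (lo : LO E F)
    {b : ℤ} (eL : Φ.obj L ≅ L⟦b⟧) : Nonempty (Φ.obj F ≅ F⟦b⟧) := by
  have h₁ := rot_of_distTriang _ (Φ.map_distinguished _ ht)
  have h₂ := rot_of_distTriang _ (Triangle.shift_distinguished _ ht b)
  obtain ⟨i⟩ := tri_unique _ _ h₁ h₂ eL
    ((((rg.map Φ e).shift 1).shift (-1)) _ (lo.map Φ e))
    ((((rg.shift b).shift 1).shift (-1)) _ (lo.shift b))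
    (((rg.shift b).shift 1) _ (lo.map Φ e)) (((rg.map Φ e).shift 1) _ (lo.shift b))
  exact ⟨Triangle.π₁.mapIso i⟩

end functor

section mutation

variable {k : Type w} [Field k] {T : Type u} [Category.{v} T] [Preadditive T] [Linear k T]
  [HasZeroObject T] [HasShift T ℤ] [∀ n : ℤ, (shiftFunctor T n).Additive]
  [∀ n : ℤ, (shiftFunctor T n).Linear k] [Pretriangulated T]

omit [HasZeroObject T] [Pretriangulated T] [∀ n : ℤ, (shiftFunctor T n).Linear k] in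
theorem exc_shift_zero {E : T} (hE : IsExceptional k E) {m m' : ℤ} (h : m ≠ m')
    (f : E⟦m⟧ ⟶ E⟦m'⟧) : f = 0 :=
  eq_zero_of_iso (Iso.refl _) ((shiftFunctorAdd' T (m' - m) m m' (by omega)).app E)
    (shift_map_zero m (hE.shift_zero (m' - m) (by omega))) f

omit [HasZeroObject T] [Pretriangulated T] in
theorem exc_shift_end {E : T} (hE : IsExceptional k E) (m : ℤ) (f : E⟦m⟧ ⟶ E⟦m⟧) :
    ∃ a : k, f = a • 𝟙 _ := by
  obtain ⟨g, rfl⟩ := (shiftFunctor T m).map_surjective f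
  obtain ⟨a, rfl⟩ := hE.end_eq g
  exact ⟨a, by rw [Functor.map_smul, CategoryTheory.Functor.map_id]⟩

variable {E F L : T} (hE : IsExceptional k E)
  {s : Finset ℤ} {r : ℤ → ℕ} (b : ∀ m : ℤ, Module.Basis (Fin (r m)) k (E⟦m⟧ ⟶ F))

include hE in
/-- maps `E⟦m⟧ ⟶ ⨁ …` are combinations of the inclusions of degree `m` -/
theorem map_to_sum (m : ℤ) (hm : m ∈ s)
    (f : E⟦m⟧ ⟶ (⨁ fun p : (Σ m : s, Fin (r m)) => E⟦(p.1 : ℤ)⟧)) :
    ∃ c : Fin (r m) → k, f = ∑ i, c i • biproduct.ι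
      (fun p : (Σ m : s, Fin (r m)) => E⟦(p.1 : ℤ)⟧) ⟨⟨m, hm⟩, i⟩ := by
  classical
  have h1 : ∀ i : Fin (r m), ∃ c : k, f ≫ biproduct.π
      (fun p : (Σ m : s, Fin (r m)) => E⟦(p.1 : ℤ)⟧) ⟨⟨m, hm⟩, i⟩ = c • 𝟙 _ := fun i =>
    exc_shift_end hE m _
  choose c hc using h1
  refine ⟨c, ?_⟩
  ext ⟨⟨m', hm'⟩, i⟩
  rw [Preadditive.sum_comp]
  by_cases h : m = m'
  · subst h
    rw [hc, Finset.sum_eq_single i]
    · rw [Linear.smul_comp, biproduct.ι_π_self]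
    · intro j _ hj
      rw [Linear.smul_comp, biproduct.ι_π_ne, smul_zero]
      intro h
      apply hj
      simpa using h
    · simp
  · exact (exc_shift_zero hE h _).trans (exc_shift_zero hE h _).symm

include hE in
theorem map_to_sum_zero (m : ℤ) (hm : m ∉ s)
    (f : E⟦m⟧ ⟶ (⨁ fun p : (Σ m : s, Fin (r m)) => E⟦(p.1 : ℤ)⟧)) : f = 0 := by
  ext ⟨⟨m', hm'⟩, i⟩
  rw [zero_comp]
  exact exc_shift_zero hE (by rintro rfl; exact hm hm') _

include hE in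
/-- postcomposition with the canonical map is injective on maps from shifts of `E` -/
theorem desc_inj (m : ℤ) (f : E⟦m⟧ ⟶ (⨁ fun p : (Σ m : s, Fin (r m)) => E⟦(p.1 : ℤ)⟧))
    (hf : f ≫ biproduct.desc (fun p : (Σ m : s, Fin (r m)) => b p.1 p.2) = 0) : f = 0 := by
  by_cases hm : m ∈ s
  · obtain ⟨c, rfl⟩ := map_to_sum hE m hm f
    have h1 : ∑ i, c i • b m i = 0 := by
      rw [← hf, Preadditive.sum_comp]
      refine Finset.sum_congr rfl fun i _ => ?_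
      rw [Linear.smul_comp, biproduct.ι_desc]
    have h2 : ∀ i, c i = 0 := by
      have := Fintype.linearIndependent_iff.1 (b m).linearIndependent c h1
      exact this
    simp [h2]
  · exact map_to_sum_zero hE m hm f

/-- every map from a shift of `E` factors through the canonical map -/
theorem desc_surj (hs : ∀ m, m ∉ s → r m = 0) (m : ℤ) (f : E⟦m⟧ ⟶ F) :
    ∃ g : E⟦m⟧ ⟶ (⨁ fun p : (Σ m : s, Fin (r m)) => E⟦(p.1 : ℤ)⟧),
      f = g ≫ biproduct.desc (fun p : (Σ m : s, Fin (r m)) => b p.1 p.2) := by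
  by_cases hm : m ∈ s
  · refine ⟨∑ i, (b m).repr f i • biproduct.ι
      (fun p : (Σ m : s, Fin (r m)) => E⟦(p.1 : ℤ)⟧) ⟨⟨m, hm⟩, i⟩, ?_⟩
    conv_lhs => rw [← (b m).sum_repr f]
    rw [Preadditive.sum_comp]
    refine Finset.sum_congr rfl fun i _ => ?_
    rw [Linear.smul_comp, biproduct.ι_desc]
  · refine ⟨0, ?_⟩
    have h0 : IsEmpty (Fin (r m)) := by rw [hs m hm]; infer_instance
    rw [zero_comp, ← (b m).sum_repr f]
    exact Finset.sum_of_isEmpty _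

include hE in
/-- The left mutation triangle. -/
theorem mutation_data (h : IsLeftMutation k E F L) :
    ∃ (A : T) (φ : A ⟶ F) (g : F ⟶ L) (h : L ⟶ A⟦(1 : ℤ)⟧),
      Triangle.mk φ g h ∈ distTriang T ∧ Lgen E A ∧ Rgen E A ∧ RO E L := by
  obtain ⟨s, r, b, hs, g, h, ht⟩ := h
  refine ⟨_, _, g, h, ht, ?_, ?_, ?_⟩
  · intro Y hY f
    ext p
    rw [comp_zero]
    exact hY _ _
  · intro Y hY f
    ext p
    rw [zero_comp]
    exact hY _ _
  · intro m f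
    have h1 : f ≫ h = 0 := by
      have h2 : (f ≫ h) ≫
          (biproduct.desc (fun p : (Σ m : s, Fin (r m)) => b p.1 p.2))⟦(1 : ℤ)⟧' = 0 := by
        rw [Category.assoc]
        have h4 : h ≫ (biproduct.desc (fun p : (Σ m : s, Fin (r m)) => b p.1 p.2))⟦(1 : ℤ)⟧' = 0 :=
          comp_distTriang_mor_zero₃₁ _ ht
        rw [h4, comp_zero]
      -- write `f ≫ h` as a shift
      let e := (shiftFunctorAdd' T (m - 1) 1 m (by omega)).app E
      obtain ⟨f', hf'⟩ := (shiftFunctor T (1 : ℤ)).map_surjective (e.inv ≫ f ≫ h)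
      have h3 : f' = 0 := by
        apply desc_inj hE b (m - 1) f'
        apply shift_eq_zero 1
        rw [Functor.map_comp, hf', Category.assoc, Category.assoc]
        rw [Category.assoc] at h2
        rw [h2, comp_zero]
      rw [h3, Functor.map_zero] at hf'
      have : f ≫ h = e.hom ≫ (e.inv ≫ f ≫ h) := by simp
      rw [this, ← hf', comp_zero]
    obtain ⟨f₁, hf₁⟩ : ∃ f₁ : E⟦m⟧ ⟶ F, f = f₁ ≫ g := Triangle.coyoneda_exact₃ _ ht f h1
    obtain ⟨f₂, hf₂⟩ := desc_surj b hs m f₁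
    have h5 : (biproduct.desc (fun p : (Σ m : s, Fin (r m)) => b p.1 p.2)) ≫ g = 0 :=
      comp_distTriang_mor_zero₁₂ _ ht
    rw [hf₁, hf₂, Category.assoc, h5, comp_zero]

end mutation

end Inv

section A1

variable {k : Type w} [Field k] {T : Type u} [Category.{v} T] [Preadditive T] [Linear k T]
  [HasZeroObject T] [HasShift T ℤ] [∀ n : ℤ, (shiftFunctor T n).Additive]
  [∀ n : ℤ, (shiftFunctor T n).Linear k] [Pretriangulated T]

/-- one elementary move -/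
theorem step_invariant (Φ : T ⥤ T) [Φ.IsEquivalence] [Φ.Additive] [Φ.CommShift ℤ]
    [Φ.IsTriangulated] {n : ℕ} (E E' : CES k T n) (h : Step k E E') :
    (∀ i, ∃ m : ℤ, Nonempty (Φ.obj (E.1 i) ≅ (E.1 i)⟦m⟧)) ↔
      ∀ i, ∃ m : ℤ, Nonempty (Φ.obj (E'.1 i) ≅ (E'.1 i)⟦m⟧) := by
  have key : ∀ (X Y : T) (m l : ℤ), (Y ≅ X⟦m⟧) → (Φ.obj X ≅ X⟦l⟧) → Nonempty (Φ.obj Y ≅ Y⟦l⟧) := by
    intro X Y m l e e'
    exact ⟨Φ.mapIso e ≪≫ (Φ.commShiftIso m).app X ≪≫ (shiftFunctor T m).mapIso e' ≪≫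
      (shiftFunctorComm T l m).app X ≪≫ (shiftFunctor T l).mapIso e.symm⟩
  cases h with
  | shift h =>
    constructor
    · intro hI i
      obtain ⟨m, ⟨e⟩⟩ := h i
      obtain ⟨l, ⟨e'⟩⟩ := hI i
      exact ⟨l, key _ _ m l e e'⟩
    · intro hI i
      obtain ⟨m, ⟨e⟩⟩ := h i
      obtain ⟨l, ⟨e'⟩⟩ := hI i
      exact ⟨l, key _ _ (-m) l ((shiftFunctorCompIsoId T m (-m) (by omega)).symm.app _ ≪≫
        (shiftFunctor T (-m)).mapIso e.symm) e'⟩
  | sigma i hi h₀ h₁ h₂ =>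
    obtain ⟨A, φ, g, h, ht, lg, rg, ro⟩ := Inv.mutation_data (E.2.1.exc _) h₀
    constructor
    · intro hI j
      by_cases hj : j.1 = i
      · obtain ⟨a, ⟨ea⟩⟩ := hI ⟨i, by omega⟩
        obtain ⟨b, ⟨eb⟩⟩ := hI ⟨i + 1, hi⟩
        have : j = ⟨i, by omega⟩ := Fin.ext hj
        rw [this]
        exact ⟨b, Inv.forward Φ ea ht lg ro eb⟩
      by_cases hj' : j.1 = i + 1
      · have : j = ⟨i + 1, hi⟩ := Fin.ext hj'
        rw [this, h₁]
        exact hI _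
      · rw [h₂ j hj hj']
        exact hI j
    · intro hI j
      have hIi : ∃ m : ℤ, Nonempty (Φ.obj (E.1 ⟨i, by omega⟩) ≅ (E.1 ⟨i, by omega⟩)⟦m⟧) := by
        have := hI ⟨i + 1, hi⟩
        rwa [h₁] at this
      by_cases hj : j.1 = i
      · have : j = ⟨i, by omega⟩ := Fin.ext hj
        rw [this]
        exact hIi
      by_cases hj' : j.1 = i + 1
      · obtain ⟨a, ⟨ea⟩⟩ := hIi
        obtain ⟨b, ⟨eb⟩⟩ := hI ⟨i, by omega⟩
        have : j = ⟨i + 1, hi⟩ := Fin.ext hj'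
        rw [this]
        exact ⟨b, Inv.backward Φ ea ht rg
          (fun m f => E.2.1.semi ⟨i, by omega⟩ ⟨i + 1, hi⟩ (by simp [Fin.lt_def]) m f) eb⟩
      · rw [← h₂ j hj hj']
        exact hI j

/-- BLOCK A1 (invariance). -/
theorem orbit_invariant (Φ : T ⥤ T) [Φ.IsEquivalence] [Φ.Additive] [Φ.CommShift ℤ]
    [Φ.IsTriangulated] {n : ℕ} (E E' : CES k T n) (h : SameOrbit k E E')
    (hI : ∀ i, ∃ m : ℤ, Nonempty (Φ.obj (E.1 i) ≅ (E.1 i)⟦m⟧)) (i : Fin n) :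
    ∃ m : ℤ, Nonempty (Φ.obj (E'.1 i) ≅ (E'.1 i)⟦m⟧) := by
  have h1 : (∀ i, ∃ m : ℤ, Nonempty (Φ.obj (E.1 i) ≅ (E.1 i)⟦m⟧)) ↔
      ∀ i, ∃ m : ℤ, Nonempty (Φ.obj (E'.1 i) ≅ (E'.1 i)⟦m⟧) := by
    clear hI
    induction h with
    | rel x y h => exact step_invariant Φ x y h
    | refl x => exact Iff.rfl
    | symm x y _ ih => exact ih.symm
    | trans x y z _ _ ih₁ ih₂ => exact ih₁.trans ih₂
  exact h1.1 hI i

end A1

end Lens
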