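import Pool.Agent.Lens.Defs

/-!
# Weak transport

Transport of exceptional sequences, mutations and orbits along a `k`-linear equivalence which
commutes with the shift on objects and sends the first two maps of a distinguished triangle to
the first two maps of a distinguished triangle (no compatibility of the shift isomorphisms with
anything).
-/

open CategoryTheory CategoryTheory.Limits CategoryTheory.Pretriangulated ZeroObject

set_option linter.unusedSectionVars false

namespace Lens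

universe w v u v' u'

section

variable {T : Type u} [Category.{v} T] [Preadditive T]
  [HasZeroObject T] [HasShift T ℤ] [∀ n : ℤ, (shiftFunctor T n).Additive] [Pretriangulated T]
  {T' : Type u'} [Category.{v'} T'] [Preadditive T']
  [HasZeroObject T'] [HasShift T' ℤ] [∀ n : ℤ, (shiftFunctor T' n).Additive]
  [Pretriangulated T']

/-- `F` commutes with the shift on objects, and it sends the first two maps of a distinguished
triangle to the first two maps of a distinguished triangle. -/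
structure WeakTri (F : T ⥤ T') : Prop where
  shift : ∀ X : T, Nonempty (F.obj (X⟦(1 : ℤ)⟧) ≅ (F.obj X)⟦(1 : ℤ)⟧)
  tri : ∀ {X Y Z : T} (f : X ⟶ Y) (g : Y ⟶ Z) (h : Z ⟶ X⟦(1 : ℤ)⟧),
    Triangle.mk f g h ∈ distTriang T →
    ∃ h' : F.obj Z ⟶ (F.obj X)⟦(1 : ℤ)⟧, Triangle.mk (F.map f) (F.map g) h' ∈ distTriang T'

namespace WeakTri

variable {F : T ⥤ T'} (hF : WeakTri F)
include hF

theorem shift_succ (X : T) (m : ℤ) (h : Nonempty (F.obj (X⟦m⟧) ≅ (F.obj X)⟦m⟧)) :
    Nonempty (F.obj (X⟦m + 1⟧) ≅ (F.obj X)⟦m + 1⟧) := by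
  obtain ⟨e⟩ := h
  obtain ⟨e'⟩ := hF.shift (X⟦m⟧)
  exact ⟨F.mapIso ((shiftFunctorAdd' T m 1 (m + 1) rfl).app X) ≪≫ e' ≪≫
    (shiftFunctor T' (1 : ℤ)).mapIso e ≪≫
    ((shiftFunctorAdd' T' m 1 (m + 1) rfl).app (F.obj X)).symm⟩

theorem shift_pred (X : T) (m : ℤ) (h : Nonempty (F.obj (X⟦m + 1⟧) ≅ (F.obj X)⟦m + 1⟧)) :
    Nonempty (F.obj (X⟦m⟧) ≅ (F.obj X)⟦m⟧) := by
  obtain ⟨e⟩ := h
  obtain ⟨e'⟩ := hF.shift (X⟦m⟧)
  let e₁ : (F.obj (X⟦m⟧))⟦(1 : ℤ)⟧ ≅ ((F.obj X)⟦m⟧)⟦(1 : ℤ)⟧ :=
    e'.symm ≪≫ (F.mapIso ((shiftFunctorAdd' T m 1 (m + 1) rfl).app X)).symm ≪≫ e ≪≫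
      (shiftFunctorAdd' T' m 1 (m + 1) rfl).app (F.obj X)
  exact ⟨(shiftFunctor T' (1 : ℤ)).preimageIso e₁⟩

theorem shift_all (X : T) (m : ℤ) : Nonempty (F.obj (X⟦m⟧) ≅ (F.obj X)⟦m⟧) := by
  induction m using Int.induction_on with
  | zero => exact ⟨F.mapIso ((shiftFunctorZero T ℤ).app X) ≪≫
      ((shiftFunctorZero T' ℤ).app (F.obj X)).symm⟩
  | succ i hi => exact hF.shift_succ X _ hi
  | pred i hi => exact hF.shift_pred X _ (by rwa [sub_add_cancel])

/-- a choice of shift isomorphisms -/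
noncomputable def iso (X : T) (m : ℤ) : F.obj (X⟦m⟧) ≅ (F.obj X)⟦m⟧ := (hF.shift_all X m).some

theorem surj [F.Full] {X Y : T} (m : ℤ) (f : F.obj X ⟶ (F.obj Y)⟦m⟧) :
    ∃ g : X ⟶ Y⟦m⟧, f = F.map g ≫ (hF.iso Y m).hom := by
  obtain ⟨g, hg⟩ := F.map_surjective (f ≫ (hF.iso Y m).inv)
  refine ⟨g, ?_⟩
  rw [hg, Category.assoc, Iso.inv_hom_id, Category.comp_id]

theorem zero [F.Full] [F.Additive] {X Y : T} (m : ℤ) (h : ∀ g : X ⟶ Y⟦m⟧, g = 0)
    (f : F.obj X ⟶ (F.obj Y)⟦m⟧) : f = 0 := by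
  obtain ⟨g, rfl⟩ := hF.surj m f
  rw [h g, F.map_zero, zero_comp]

theorem triangulated [F.Additive] (P : ObjectProperty T') (hP : P.IsTriangulated)
    (hr : P.IsStableUnderRetracts) : (P.inverseImage F).IsTriangulated := by
  have h0 : (P.inverseImage F).IsClosedUnderIsomorphisms := inferInstance
  have h1 : (P.inverseImage F).ContainsZero := by
    refine ⟨0, isZero_zero T, ?_⟩
    obtain ⟨Z, hZ, hPZ⟩ := hP.toContainsZero.exists_zero
    exact P.prop_of_iso (hZ.iso (F.map_isZero (isZero_zero T))) hPZ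
  have h2 : (P.inverseImage F).IsStableUnderShift ℤ :=
    ⟨fun a => ⟨fun Y hY => P.prop_of_iso (hF.iso Y a).symm (P.le_shift a _ hY)⟩⟩
  have h3 : (P.inverseImage F).IsTriangulatedClosed₂ :=
    ObjectProperty.IsTriangulatedClosed₂.mk' fun Δ hΔ h₁ h₃ => by
      obtain ⟨h', hh'⟩ := hF.tri Δ.mor₁ Δ.mor₂ Δ.mor₃ hΔ
      exact P.ext_of_isTriangulatedClosed₂ _ hh' h₁ h₃
  exact {}

end WeakTri

end

section

variable {k : Type w} [Field k] {T : Type u} [Category.{v} T] [Preadditive T] [Linear k T]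
  [HasZeroObject T] [HasShift T ℤ] [∀ n : ℤ, (shiftFunctor T n).Additive] [Pretriangulated T]
  {T' : Type u'} [Category.{v'} T'] [Preadditive T'] [Linear k T']
  [HasZeroObject T'] [HasShift T' ℤ] [∀ n : ℤ, (shiftFunctor T' n).Additive]
  [Pretriangulated T'] (F : T ⥤ T') [F.IsEquivalence] [F.Additive] [F.Linear k]
  (hF : WeakTri F)

include hF in
theorem IsExceptional.wmap {E : T} (h : IsExceptional k E) : IsExceptional k (F.obj E) where
  end_eq f := by
    obtain ⟨g, rfl⟩ := F.map_surjective f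
    obtain ⟨a, rfl⟩ := h.end_eq g
    exact ⟨a, by rw [F.map_smul, F.map_id]⟩
  id_ne h' := h.id_ne (F.map_injective (by rw [F.map_id, h', F.map_zero]))
  shift_zero m hm f := hF.zero m (h.shift_zero m hm) f

include hF in
theorem IsExceptionalSeq.wmap {n : ℕ} {E : Fin n → T} (h : IsExceptionalSeq k E) :
    IsExceptionalSeq k fun i => F.obj (E i) where
  exc i := (h.exc i).wmap F hF
  semi i j hij m f := hF.zero m (h.semi i j hij m) f

include hF in
theorem IsComplete.wmap {n : ℕ} {E : Fin n → T} (h : IsComplete E) :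
    IsComplete fun i => F.obj (E i) := by
  intro P hP hr hE X
  have h1 : (P.inverseImage F).IsTriangulated := hF.triangulated P hP hr
  have h2 : (P.inverseImage F).IsStableUnderRetracts :=
    ⟨fun r hY => P.prop_of_retract (r.map F) hY⟩
  have h3 := h (P.inverseImage F) h1 h2 hE (F.objPreimage X)
  exact P.prop_of_iso (F.objObjPreimageIso X) h3

include hF in
theorem IsLeftMutation.wmap {E X L : T} (h : IsLeftMutation k E X L) :
    IsLeftMutation k (F.obj E) (F.obj X) (F.obj L) := by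
  obtain ⟨s, r, b, hs, g, h, hT⟩ := h
  let φ : ∀ m : ℤ, (E⟦m⟧ ⟶ X) →ₗ[k] ((F.obj E)⟦m⟧ ⟶ F.obj X) := fun m =>
    { toFun := fun f => (hF.iso E m).inv ≫ F.map f
      map_add' := fun f f' => by rw [F.map_add, Preadditive.comp_add]
      map_smul' := fun a f => by rw [F.map_smul, Linear.comp_smul, RingHom.id_apply] }
  have hφ : ∀ m, Function.Bijective (φ m) := by
    intro m
    constructor
    · intro f f' hf
      have h1 : (hF.iso E m).inv ≫ F.map f = (hF.iso E m).inv ≫ F.map f' := hf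
      exact F.map_injective ((cancel_epi _).1 h1)
    · intro f
      obtain ⟨g, hg⟩ := F.map_surjective ((hF.iso E m).hom ≫ f)
      refine ⟨g, ?_⟩
      show (hF.iso E m).inv ≫ F.map g = f
      rw [hg, Iso.inv_hom_id_assoc]
  let e : (⨁ fun p : (Σ m : s, Fin (r m)) => (F.obj E)⟦(p.1 : ℤ)⟧) ≅
      F.obj (⨁ fun p : (Σ m : s, Fin (r m)) => E⟦(p.1 : ℤ)⟧) :=
    (biproduct.mapIso fun p : (Σ m : s, Fin (r m)) =>
      (hF.iso E (p.1 : ℤ)).symm) ≪≫
      (F.mapBiproduct fun p : (Σ m : s, Fin (r m)) => E⟦(p.1 : ℤ)⟧).symm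
  have he : e.hom ≫ F.map (biproduct.desc fun p : (Σ m : s, Fin (r m)) => b p.1 p.2) =
      biproduct.desc fun p : (Σ m : s, Fin (r m)) =>
        ((b p.1).map (LinearEquiv.ofBijective (φ p.1) (hφ p.1))) p.2 := by
    refine biproduct.hom_ext' _ _ fun p => ?_
    have h1 : biproduct.ι (fun p : (Σ m : s, Fin (r m)) => (F.obj E)⟦(p.1 : ℤ)⟧) p ≫ e.hom =
        (hF.iso E (p.1 : ℤ)).inv ≫
          F.map (biproduct.ι (fun p : (Σ m : s, Fin (r m)) => E⟦(p.1 : ℤ)⟧) p) := by
      have h2 : biproduct.ι (fun p : (Σ m : s, Fin (r m)) => F.obj (E⟦(p.1 : ℤ)⟧)) p ≫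
          (F.mapBiproduct fun p : (Σ m : s, Fin (r m)) => E⟦(p.1 : ℤ)⟧).inv =
          F.map (biproduct.ι (fun p : (Σ m : s, Fin (r m)) => E⟦(p.1 : ℤ)⟧) p) := by
        rw [Functor.mapBiproduct_inv]
        exact biproduct.ι_desc _ _
      rw [← h2]
      simp only [e, Iso.trans_hom, biproduct.mapIso_hom, Iso.symm_hom, biproduct.ι_map_assoc]
    rw [← Category.assoc, h1, Category.assoc, ← F.map_comp, biproduct.ι_desc, biproduct.ι_desc]
    rfl
  obtain ⟨h', hT'⟩ := hF.tri _ _ _ hT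
  refine ⟨s, r, fun m => (b m).map (LinearEquiv.ofBijective (φ m) (hφ m)), hs, F.map g,
    h' ≫ e.inv⟦(1 : ℤ)⟧', ?_⟩
  refine isomorphic_distinguished _ hT' _
    (Triangle.isoMk _ _ e (Iso.refl _) (Iso.refl _) ?_ ?_ ?_)
  · exact (Category.comp_id _).trans he.symm
  · exact (Category.comp_id _).trans (Category.id_comp _).symm
  · show (h' ≫ e.inv⟦(1 : ℤ)⟧') ≫ e.hom⟦(1 : ℤ)⟧' = 𝟙 _ ≫ h'
    rw [Category.id_comp, Category.assoc, ← Functor.map_comp, e.inv_hom_id,
      CategoryTheory.Functor.map_id]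
    exact Category.comp_id _

/-- transport of a complete exceptional sequence -/
def CES.wmap {n : ℕ} (E : CES k T n) : CES k T' n :=
  ⟨fun i => F.obj (E.1 i), E.2.1.wmap F hF, E.2.2.wmap F hF⟩

theorem Step.wmap {n : ℕ} {E E' : CES k T n} (h : Step k E E') :
    Step k (CES.wmap F hF E) (CES.wmap F hF E') := by
  cases h with
  | shift h =>
    refine Step.shift _ _ fun i => ?_
    obtain ⟨m, ⟨e⟩⟩ := h i
    exact ⟨m, ⟨F.mapIso e ≪≫ hF.iso (E.1 i) m⟩⟩
  | sigma i hi h₀ h₁ h₂ =>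
    exact Step.sigma _ _ i hi (h₀.wmap F hF) (congrArg F.obj h₁)
      fun j hj hj' => congrArg F.obj (h₂ j hj hj')

theorem SameOrbit.wmap {n : ℕ} {E E' : CES k T n} (h : SameOrbit k E E') :
    SameOrbit k (CES.wmap F hF E) (CES.wmap F hF E') := by
  induction h with
  | rel x y h => exact Relation.EqvGen.rel _ _ (h.wmap F hF)
  | refl x => exact Relation.EqvGen.refl _
  | symm x y _ ih => exact Relation.EqvGen.symm _ _ ih
  | trans x y z _ _ ih₁ ih₂ => exact Relation.EqvGen.trans _ _ _ ih₁ ih₂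

include hF in
/-- Transport from `T` to `T'`. -/
theorem BraidTransitive.wmap (h : BraidTransitive k T)
    (hs : ∀ (n : ℕ) (E : CES k T' n), ∃ E₀ : CES k T n,
      ∀ i, Nonempty (F.obj (E₀.1 i) ≅ E.1 i)) : BraidTransitive k T' := by
  intro n E E'
  obtain ⟨E₀, hE₀⟩ := hs n E
  obtain ⟨E₀', hE₀'⟩ := hs n E'
  have h2 := (h n E₀ E₀').wmap F hF
  have h3 : ∀ (E : CES k T' n) (E₀ : CES k T n),
      (∀ i, Nonempty (F.obj (E₀.1 i) ≅ E.1 i)) → SameOrbit k E (CES.wmap F hF E₀) :=
    fun E E₀ he => Relation.EqvGen.rel _ _ (Step.shift _ _ fun i => ⟨0,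
      ⟨(he i).some ≪≫ ((shiftFunctorZero T' ℤ).app (E.1 i)).symm⟩⟩)
  exact (h3 E E₀ hE₀).trans _ _ _ (h2.trans _ _ _ ((h3 E' E₀' hE₀').symm _ _))

end

/-! ### the inverse of a weakly triangulated equivalence -/

section

variable {T : Type u} [Category.{v} T] [Preadditive T]
  [HasZeroObject T] [HasShift T ℤ] [∀ n : ℤ, (shiftFunctor T n).Additive] [Pretriangulated T]
  {T' : Type u'} [Category.{v'} T'] [Preadditive T']
  [HasZeroObject T'] [HasShift T' ℤ] [∀ n : ℤ, (shiftFunctor T' n).Additive]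
  [Pretriangulated T']

theorem WeakTri.inverse (e : T ≌ T') (hF : WeakTri e.functor) : WeakTri e.inverse where
  shift X := by
    let a : e.functor.obj ((e.inverse.obj X)⟦(1 : ℤ)⟧) ≅ X⟦(1 : ℤ)⟧ :=
      hF.iso _ 1 ≪≫ (shiftFunctor T' (1 : ℤ)).mapIso (e.counitIso.app X)
    exact ⟨(e.inverse.mapIso a).symm ≪≫ (e.unitIso.app _).symm⟩
  tri {X Y Z} f g h hT := by
    obtain ⟨Z₀, g₀, h₀, hT₀⟩ := distinguished_cocone_triangle (e.inverse.map f)
    obtain ⟨h₁, hT₁⟩ := hF.tri _ _ _ hT₀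
    -- compare `F G X → F G Y → F Z₀` with `X → Y → Z`
    have hsq : e.functor.map (e.inverse.map f) ≫ e.counitIso.hom.app Y =
        e.counitIso.hom.app X ≫ f := e.counitIso.hom.naturality f
    let i := isoTriangleOfIso₁₂ (Triangle.mk (e.functor.map (e.inverse.map f))
        (e.functor.map g₀) h₁) (Triangle.mk f g h) hT₁ hT (e.counitIso.app X)
        (e.counitIso.app Y) hsq
    have hi₂ : i.hom.hom₂ = e.counitIso.hom.app Y :=
      isoTriangleOfIso₁₂_hom_hom₂ _ _ _ _ _ _ _
    have hc : e.functor.map g₀ ≫ i.hom.hom₃ = e.counitIso.hom.app Y ≫ g := by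
      have := i.hom.comm₂
      rw [hi₂] at this
      exact this
    let z : e.functor.obj Z₀ ≅ Z := Triangle.π₃.mapIso i
    have hc' : e.functor.map g₀ ≫ z.hom = e.counitIso.hom.app Y ≫ g := hc
    let w : e.inverse.obj Z ≅ Z₀ := (e.inverse.mapIso z).symm ≪≫ (e.unitIso.app Z₀).symm
    have hw : e.inverse.map g ≫ w.hom = g₀ := by
      have h2 : e.inverse.map (e.counitIso.hom.app Y) ≫ e.inverse.map g =
          e.inverse.map (e.functor.map g₀) ≫ e.inverse.map z.hom := by
        rw [← Functor.map_comp, ← Functor.map_comp, hc']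
      have h3 : e.inverse.map g = e.unitIso.hom.app (e.inverse.obj Y) ≫
          e.inverse.map (e.counitIso.hom.app Y) ≫ e.inverse.map g := by
        rw [← Category.assoc]
        have h7 : e.unitIso.hom.app (e.inverse.obj Y) ≫ e.inverse.map (e.counitIso.hom.app Y) =
          𝟙 (e.inverse.obj Y) := e.unit_inverse_comp Y
        rw [h7]
        exact (Category.id_comp _).symm
      rw [h3, h2]
      have h6 : e.inverse.map z.hom ≫ e.inverse.map z.inv = 𝟙 _ := by
        rw [← Functor.map_comp, z.hom_inv_id, CategoryTheory.Functor.map_id]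
      have h5 : e.inverse.map (e.functor.map g₀) ≫ e.unitIso.inv.app Z₀ =
        e.unitIso.inv.app _ ≫ g₀ := e.unitIso.inv.naturality g₀
      have h8 : w.hom = e.inverse.map z.inv ≫ e.unitIso.inv.app Z₀ := rfl
      rw [h8, Category.assoc, Category.assoc, reassoc_of% h6, h5, Iso.hom_inv_id_app_assoc]
    refine ⟨w.hom ≫ h₀, isomorphic_distinguished _ hT₀ _
      (Triangle.isoMk _ _ (Iso.refl _) (Iso.refl _) w ?_ ?_ ?_)⟩
    · exact (Category.comp_id _).trans (Category.id_comp _).symm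
    · exact hw.trans (Category.id_comp _).symm
    · show (w.hom ≫ h₀) ≫ (𝟙 _)⟦(1 : ℤ)⟧' = w.hom ≫ h₀
      rw [CategoryTheory.Functor.map_id]
      exact Category.comp_id _

end

section

variable {k : Type w} [Field k] {T : Type u} [Category.{v} T] [Preadditive T] [Linear k T]
  [HasZeroObject T] [HasShift T ℤ] [∀ n : ℤ, (shiftFunctor T n).Additive] [Pretriangulated T]
  {T' : Type u'} [Category.{v'} T'] [Preadditive T'] [Linear k T']
  [HasZeroObject T'] [HasShift T' ℤ] [∀ n : ℤ, (shiftFunctor T' n).Additive]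
  [Pretriangulated T'] (F : T ⥤ T') [F.IsEquivalence] [F.Additive] [F.Linear k]
  (hF : WeakTri F)

include F hF in
/-- LIT2 (weak transport): `F : T ⥤ T'` a `k`-linear equivalence which commutes with the shift on
objects and sends the first two maps of a distinguished triangle to the first two maps of a
distinguished triangle. -/
theorem BraidTransitive.of_weak (h : BraidTransitive k T') : BraidTransitive k T := by
  have h1 : WeakTri F.asEquivalence.inverse := WeakTri.inverse F.asEquivalence hF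
  have : F.asEquivalence.functor.Additive := inferInstanceAs F.Additive
  have : F.asEquivalence.functor.Linear k := inferInstanceAs (F.Linear k)
  have : F.asEquivalence.inverse.Additive := F.asEquivalence.inverse_additive
  have : F.asEquivalence.inverse.Linear k := F.asEquivalence.inverseLinear k
  exact h.wmap F.asEquivalence.inverse h1 fun n E =>
    ⟨CES.wmap F hF E, fun i => ⟨(F.asEquivalence.unitIso.app (E.1 i)).symm⟩⟩

include F hF in
/-- LIT2, the other direction. -/
theorem BraidTransitive.to_weak (h : BraidTransitive k T) : BraidTransitive k T' := by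
  have h1 : WeakTri F.asEquivalence.inverse := WeakTri.inverse F.asEquivalence hF
  have : F.asEquivalence.functor.Additive := inferInstanceAs F.Additive
  have : F.asEquivalence.functor.Linear k := inferInstanceAs (F.Linear k)
  have : F.asEquivalence.inverse.Additive := F.asEquivalence.inverse_additive
  have : F.asEquivalence.inverse.Linear k := F.asEquivalence.inverseLinear k
  exact h.wmap F hF fun n E =>
    ⟨CES.wmap F.asEquivalence.inverse h1 E, fun i => ⟨F.asEquivalence.counitIso.app (E.1 i)⟩⟩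

end

end Lens
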