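import Mathlib
import Pool.Agent.Lens.Lit3a

/-!
# Extension of maps of cycles to chain maps
-/

open CategoryTheory CategoryTheory.Limits CategoryTheory.Preadditive CochainComplex
  CochainComplex.HomComplex Opposite

namespace Lens

universe v u

section Ext

variable {V : Type u} [Category.{v} V] [Preadditive V]

theorem up_aux {K L : CochainComplex V ℤ} (c : Cochain K L 1) (hc : δ 1 2 c = 0)
    (α : Cochain K L 0) (n m : ℤ) (hnm : n + 1 = m) (hK : CoexactFor K (L.X (m + 1)))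
    (hα : (δ 0 1 α).EqUpTo c n) :
    ∃ (h : K.X (m + 1) ⟶ L.X (m + 1)),
      (δ 0 1 (α + Cochain.single h 0)).EqUpTo c m := by
  subst hnm
  let x := c - δ 0 1 α
  have hx : δ 1 2 x = 0 := by
    simp only [x, δ_sub, hc, δ_δ, sub_zero]
  let u : K.X (n + 1) ⟶ L.X (n + 1 + 1) := x.v (n + 1) (n + 1 + 1) rfl
  have hu : K.d n (n + 1) ≫ u = 0 := by
    have h1 := Cochain.congr_v hx n (n + 2) rfl
    rw [δ_v 1 2 rfl x n (n + 2) rfl (n + 1) (n + 1) (by lia) rfl, Cochain.zero_v] at h1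
    have h2 : x.v n (n + 1) rfl = 0 := by
      simp only [x, Cochain.sub_v]
      rw [hα n (n + 1) rfl le_rfl, sub_self]
    rw [h2, zero_comp, zero_add] at h1
    have h4 : K.d n (n + 1) ≫ x.v (n + 1) (n + 2) (by lia) = 0 := by
      rw [show Int.negOnePow 2 = 1 from rfl, one_smul] at h1
      exact h1
    have : ∀ j (hj : n + 1 + 1 = j), K.d n (n + 1) ≫ x.v (n + 1) j hj = 0 := by
      intro j hj
      obtain rfl : j = n + 2 := by lia
      exact h4
    exact this _ _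
  obtain ⟨β, hβ⟩ : ∃ (β : K.X (n + 1 + 1) ⟶ L.X (n + 1 + 1)), K.d (n + 1) (n + 1 + 1) ≫ β = u :=
    hK n (n + 1) (n + 1 + 1) rfl rfl u hu
  refine ⟨-β, ?_⟩
  intro p q hpq hp
  obtain rfl : p + 1 = q := hpq
  obtain hp | rfl := hp.lt_or_eq
  · rw [δ_add, Cochain.add_v, hα p (p + 1) rfl (by lia), add_eq_left,
      δ_v 0 1 (zero_add 1) _ p (p + 1) rfl p (p + 1) (by lia) rfl,
      Cochain.single_v_eq_zero _ _ _ _ _ (by lia),
      Cochain.single_v_eq_zero _ _ _ _ _ (by lia)]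
    simp
  · rw [δ_add, Cochain.add_v]
    rw [δ_v 0 1 (zero_add 1) (Cochain.single (-β) 0) (n + 1) (n + 1 + 1) rfl (n + 1) (n + 1 + 1)
      (by lia) rfl, Cochain.single_v_eq_zero _ _ _ _ _ (by lia)]
    have : u = c.v (n + 1) (n + 1 + 1) rfl - (δ 0 1 α).v (n + 1) (n + 1 + 1) rfl := rfl
    simp [hβ, this]

open Cochain.InductionUp in
theorem exists_up {K L : CochainComplex V ℤ} (c : Cochain K L 1) (hc : δ 1 2 c = 0) (p : ℤ)
    (hp : ∀ i j hij, i < p → c.v i j hij = 0) (hK : ∀ j, CoexactFor K (L.X j)) :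
    ∃ h : Cochain K L 0, δ 0 1 h = c ∧ ∀ i j hij, i ≤ p → h.v i j hij = 0 := by
  let X (n : ℕ) : Set (Cochain K L 0) :=
    Set.ofPred (fun α => (δ 0 1 α).EqUpTo c (n + p - 1) ∧ ∀ i j hij, i ≤ p → α.v i j hij = 0)
  let x₀ : X 0 := ⟨0, fun i j hij hi ↦ by
    rw [δ_zero, Cochain.zero_v, hp i j hij (by simp at hi; lia)], fun _ _ _ _ => by simp⟩
  let φ (n : ℕ) (α : X n) : X (n + 1) :=
    ⟨_, (up_aux c hc α.1 (n + p - 1) ((n + 1 : ℕ) + p - 1)
      (by push_cast; lia) (hK _) α.2.1).choose_spec, fun i j hij hi => by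
        rw [Cochain.add_v, α.2.2 i j hij hi, Cochain.single_v_eq_zero _ _ _ _ _ (by
          push_cast; lia), add_zero]⟩
  have hφ (n : ℕ) (x : X n) : (φ n x).1.EqUpTo x.1 (p + n) := fun i j hij hi => by
    dsimp [φ]
    rw [add_eq_left, Cochain.single_v_eq_zero _ _ _ _ _ (by lia)]
  refine ⟨limitSequence φ hφ x₀, ?_, ?_⟩
  · ext i j hij
    obtain rfl : i + 1 = j := hij
    let k₀ := (i - p + 1).toNat
    rw [← (sequence φ x₀ k₀).2.1 i (i + 1) rfl (by lia),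
      δ_v 0 1 (zero_add 1) _ i (i + 1) rfl i (i + 1) (by lia) rfl,
      δ_v 0 1 (zero_add 1) _ i (i + 1) rfl i (i + 1) (by lia) rfl,
      limitSequence_eqUpTo φ hφ x₀ k₀ i i (by lia) (by lia),
      limitSequence_eqUpTo φ hφ x₀ k₀ (i + 1) (i + 1) (by lia) (by lia)]
  · intro i j hij hi
    rw [limitSequence_eqUpTo φ hφ x₀ 0 i j hij (by simpa using hi)]
    exact (sequence φ x₀ 0).2.2 i j hij hi

theorem down_aux {K L : CochainComplex V ℤ} (c : Cochain K L 1) (hc : δ 1 2 c = 0)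
    (α : Cochain K L 0) (n m : ℤ) (hnm : m + 1 = n) (hK : ExactFor (K.X m) L)
    (hα : EqDownTo (δ 0 1 α) c n) :
    ∃ (h : K.X m ⟶ L.X m),
      EqDownTo (δ 0 1 (α + Cochain.single h 0)) c m := by
  subst hnm
  let x := c - δ 0 1 α
  have hx : δ 1 2 x = 0 := by
    simp only [x, δ_sub, hc, δ_δ, sub_zero]
  let u : K.X m ⟶ L.X (m + 1) := x.v m (m + 1) rfl
  have hu : u ≫ L.d (m + 1) (m + 1 + 1) = 0 := by
    have h1 := Cochain.congr_v hx m (m + 2) rfl
    rw [δ_v 1 2 rfl x m (m + 2) rfl (m + 1) (m + 1) (by lia) rfl, Cochain.zero_v] at h1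
    have h2 : x.v (m + 1) (m + 2) (by lia) = 0 := by
      simp only [x, Cochain.sub_v]
      rw [hα (m + 1) (m + 2) (by lia) le_rfl, sub_self]
    rw [h2, comp_zero, smul_zero, add_zero] at h1
    have : ∀ j (hj : m + 2 = j), u ≫ L.d (m + 1) j = 0 := by
      intro j hj
      obtain rfl := hj
      exact h1
    exact this _ (by lia)
  obtain ⟨β, hβ⟩ : ∃ (β : K.X m ⟶ L.X m), β ≫ L.d m (m + 1) = u :=
    hK m (m + 1) (m + 1 + 1) rfl rfl u hu
  refine ⟨β, ?_⟩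
  intro p q hpq hp
  obtain rfl : p + 1 = q := hpq
  obtain hp | rfl := hp.lt_or_eq
  · rw [δ_add, Cochain.add_v, hα p (p + 1) rfl (by lia), add_eq_left,
      δ_v 0 1 (zero_add 1) _ p (p + 1) rfl p (p + 1) (by lia) rfl,
      Cochain.single_v_eq_zero _ _ _ _ _ (by lia),
      Cochain.single_v_eq_zero _ _ _ _ _ (by lia)]
    simp
  · rw [δ_add, Cochain.add_v]
    rw [δ_v 0 1 (zero_add 1) (Cochain.single β 0) m (m + 1) rfl m (m + 1)
      (by lia) rfl, Cochain.single_v_eq_zero β 0 (m + 1) (m + 1) _ (by lia)]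
    have : u = c.v m (m + 1) rfl - (δ 0 1 α).v m (m + 1) rfl := rfl
    simp [hβ, this]

/-- iterates -/
def dSeq {K L : CochainComplex V ℤ} {X : ℕ → Set (Cochain K L 0)}
    (φ : ∀ n : ℕ, X n → X (n + 1)) (x₀ : X 0) : ∀ n, X n
  | 0 => x₀
  | n + 1 => φ n (dSeq φ x₀ n)

theorem dSeq_eq {K L : CochainComplex V ℤ} {X : ℕ → Set (Cochain K L 0)}
    (φ : ∀ n : ℕ, X n → X (n + 1)) (x₀ : X 0) (p₀ : ℤ)
    (hφ : ∀ (n : ℕ) (x : X n), EqDownTo (φ n x).1 x.1 (p₀ - n)) (n₁ n₂ : ℕ) (h : n₁ ≤ n₂) :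
    EqDownTo (dSeq φ x₀ n₁).1 (dSeq φ x₀ n₂).1 (p₀ - n₁) := by
  obtain ⟨k, rfl⟩ := Nat.exists_eq_add_of_le h
  clear h
  induction k with
  | zero => intro _ _ _ _; rfl
  | succ k hk =>
    intro p q hpq hp
    rw [hk p q hpq hp]
    exact (hφ (n₁ + k) (dSeq φ x₀ (n₁ + k)) p q hpq (by lia)).symm

theorem exists_down {K L : CochainComplex V ℤ} (c : Cochain K L 1) (hc : δ 1 2 c = 0) (p : ℤ)
    (hp : ∀ i j hij, p < i → c.v i j hij = 0) (hL : ∀ j, ExactFor (K.X j) L) :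
    ∃ h : Cochain K L 0, δ 0 1 h = c ∧ ∀ i j hij, p < i → h.v i j hij = 0 := by
  let X (n : ℕ) : Set (Cochain K L 0) :=
    Set.ofPred (fun α => EqDownTo (δ 0 1 α) c (p + 1 - n) ∧ ∀ i j hij, p < i → α.v i j hij = 0)
  let x₀ : X 0 := ⟨0, fun i j hij hi ↦ by
    rw [δ_zero, Cochain.zero_v, hp i j hij (by simp at hi; lia)], fun _ _ _ _ => by simp⟩
  let φ (n : ℕ) (α : X n) : X (n + 1) :=
    ⟨_, (down_aux c hc α.1 (p + 1 - n) (p + 1 - (n + 1 : ℕ))
      (by push_cast; lia) (hL _) α.2.1).choose_spec, fun i j hij hi => by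
        rw [Cochain.add_v, α.2.2 i j hij hi, Cochain.single_v_eq_zero _ _ _ _ _ (by
          push_cast; lia), add_zero]⟩
  have hφ (n : ℕ) (x : X n) : EqDownTo (φ n x).1 x.1 (p + 1 - n) := fun i j hij hi => by
    dsimp [φ]
    rw [add_eq_left, Cochain.single_v_eq_zero _ _ _ _ _ (by lia)]
  let lim : Cochain K L 0 :=
    Cochain.mk (fun i j hij => (dSeq φ x₀ (p + 1 - i).toNat).1.v i j hij)
  have hlim (n : ℕ) : EqDownTo lim (dSeq φ x₀ n).1 (p + 1 - n) := by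
    intro i j hij hi
    have := dSeq_eq φ x₀ (p + 1) hφ (p + 1 - i).toNat n (by lia) i j hij (by lia)
    exact this
  refine ⟨lim, ?_, ?_⟩
  · ext i j hij
    obtain rfl : i + 1 = j := hij
    let k₀ := (p + 1 - i).toNat
    rw [← (dSeq φ x₀ k₀).2.1 i (i + 1) rfl (by lia),
      δ_v 0 1 (zero_add 1) _ i (i + 1) rfl i (i + 1) (by lia) rfl,
      δ_v 0 1 (zero_add 1) _ i (i + 1) rfl i (i + 1) (by lia) rfl,
      hlim k₀ i i (by lia) (by lia),
      hlim k₀ (i + 1) (i + 1) (by lia) (by lia)]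
  · intro i j hij hi
    rw [hlim 0 i j hij (by simp; lia)]
    exact (dSeq φ x₀ 0).2.2 i j hij hi

/-- **Extension**: a map `u : K^p → L^{p+1}` with `d u = 0 = u d` extends to a chain map. -/
theorem exists_extend {K L : CochainComplex V ℤ} (p q : ℤ) (hpq : p + 1 = q)
    (u : K.X p ⟶ L.X q) (h1 : ∀ i, K.d i p ≫ u = 0) (h2 : ∀ j, u ≫ L.d q j = 0)
    (hK : ∀ j, CoexactFor K (L.X j)) (hL : ∀ j, ExactFor (K.X j) L) :
    ∃ φ : K ⟶ L, K.d p q ≫ φ.f q = u ∧ φ.f p ≫ L.d p q = u := by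
  subst hpq
  let c : Cochain K L 1 := Cochain.single u 1
  have hcp : c.v p (p + 1) rfl = u := by simp [c]
  have hc0 : ∀ i j hij, i ≠ p → c.v i j hij = 0 := fun i j hij hi =>
    Cochain.single_v_eq_zero _ _ _ _ _ hi
  have hc : δ 1 2 c = 0 := by
    ext i j hij
    rw [δ_v 1 2 rfl c i j hij (i + 1) (i + 1) (by lia) rfl, Cochain.zero_v]
    by_cases hi : i = p
    · subst hi
      rw [hcp, h2, hc0 (i + 1) j (by lia) (by lia), comp_zero, smul_zero, add_zero]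
    · rw [hc0 i _ _ hi, zero_comp, zero_add]
      by_cases hi' : i + 1 = p
      · subst hi'
        have : ∀ j (hj : i + 1 + 1 = j), K.d i (i + 1) ≫ c.v (i + 1) j hj = 0 := by
          intro j hj
          subst hj
          rw [hcp, h1]
        rw [this j (by lia), smul_zero]
      · rw [hc0 (i + 1) j (by lia) hi', comp_zero, smul_zero]
  obtain ⟨a, ha, ha'⟩ := exists_up c hc p (fun i j hij hi => hc0 i j hij (by lia)) hK
  obtain ⟨b, hb, hb'⟩ := exists_down c hc p (fun i j hij hi => hc0 i j hij (by lia)) hL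
  have hab : δ 0 1 (b - a) = 0 := by rw [δ_sub, ha, hb, sub_self]
  have h3 := Cochain.congr_v ha p (p + 1) rfl
  have h4 := Cochain.congr_v hb p (p + 1) rfl
  rw [δ_v 0 1 (zero_add 1) _ p (p + 1) rfl p (p + 1) (by lia) rfl, hcp, ha' p p _ le_rfl] at h3
  rw [δ_v 0 1 (zero_add 1) _ p (p + 1) rfl p (p + 1) (by lia) rfl, hcp,
    hb' (p + 1) (p + 1) _ (by lia)] at h4
  refine ⟨Cocycle.homOf (Cocycle.mk (b - a) 1 (zero_add 1) hab), ?_, ?_⟩
  · rw [Cocycle.homOf_f]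
    simp only [Cocycle.mk_coe, Cochain.sub_v, comp_sub]
    rw [hb' (p + 1) (p + 1) _ (by lia), comp_zero, zero_sub]
    simpa using h3
  · rw [Cocycle.homOf_f]
    simp only [Cocycle.mk_coe, Cochain.sub_v, sub_comp]
    rw [ha' p p _ le_rfl, zero_comp, sub_zero]
    simpa using h4

/-- the part of a chain map in degrees `≥ 0` -/
def upPart {K L : CochainComplex V ℤ} (φ : K ⟶ L) (h : K.d (-1) 0 ≫ φ.f 0 = 0) : K ⟶ L where
  f i := if 0 ≤ i then φ.f i else 0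
  comm' i j hij := by
    obtain rfl : i + 1 = j := hij
    by_cases hi : 0 ≤ i
    · rw [if_pos hi, if_pos (by lia), φ.comm]
    · rw [if_neg hi, zero_comp]
      by_cases hi' : i = -1
      · subst hi'
        change 0 = K.d (-1) 0 ≫ (if (0 : ℤ) ≤ 0 then φ.f 0 else 0)
        rw [if_pos le_rfl, h]
      · rw [if_neg (by lia), comp_zero]

/-- **Faithfulness**: a chain map which vanishes on the cycles of degree `0` is null homotopic. -/
theorem nullhomotopic_of_cycles {K L : CochainComplex V ℤ} (φ : K ⟶ L)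
    (h : K.d (-1) 0 ≫ φ.f 0 = 0)
    (hK : ∀ j, CoexactFor K (L.X j)) (hL : ∀ j, ExactFor (K.X j) L) :
    Nonempty (Homotopy φ 0) := by
  obtain ⟨h1⟩ := nullhomotopic_of_coexact' (upPart φ h) 0 (fun n hn => by
    simp [upPart, not_le.2 hn]) hK
  obtain ⟨h2⟩ := nullhomotopic_of_exact' (φ - upPart φ h) (-1) (fun n hn => by
    have : 0 ≤ n := by lia
    simp [upPart, this]) hL
  exact ⟨((Homotopy.ofEq (by abel)).trans (h1.add h2)).trans (Homotopy.ofEq (by simp))⟩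

end Ext

section Mat

variable {𝓛 : Type u} [Category.{v} 𝓛] [Preadditive 𝓛]

/-- the components of a map from a line bundle -/
def cmp {w : 𝓛} {F : Mat_ 𝓛} (v : EE w ⟶ F) (i : F.ι) : w ⟶ F.X i := v PUnit.unit i

/-- a map from a line bundle given by components -/
def ofCmp {w : 𝓛} {F : Mat_ 𝓛} (g : ∀ i, w ⟶ F.X i) : EE w ⟶ F := fun _ i => g i

@[simp] theorem cmp_ofCmp {w : 𝓛} {F : Mat_ 𝓛} (g : ∀ i, w ⟶ F.X i) (i : F.ι) :
    cmp (ofCmp g) i = g i := rfl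

theorem ext_cmp {w : 𝓛} {F : Mat_ 𝓛} {u v : EE w ⟶ F} (h : ∀ i, cmp u i = cmp v i) : u = v := by
  ext x i
  exact h i

/-- the components of a map to a line bundle -/
def cocmp {w : 𝓛} {F : Mat_ 𝓛} (v : F ⟶ EE w) (i : F.ι) : F.X i ⟶ w := v i PUnit.unit

/-- a map to a line bundle given by components -/
def ofCocmp {w : 𝓛} {F : Mat_ 𝓛} (g : ∀ i, F.X i ⟶ w) : F ⟶ EE w := fun i _ => g i

@[simp] theorem cocmp_ofCocmp {w : 𝓛} {F : Mat_ 𝓛} (g : ∀ i, F.X i ⟶ w) (i : F.ι) :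
    cocmp (ofCocmp g) i = g i := rfl

theorem ext_cocmp {w : 𝓛} {F : Mat_ 𝓛} {u v : F ⟶ EE w} (h : ∀ i, cocmp u i = cocmp v i) :
    u = v := by
  ext i x
  exact h i

theorem cmp_add {w : 𝓛} {F : Mat_ 𝓛} (u v : EE w ⟶ F) (i : F.ι) :
    cmp (u + v) i = cmp u i + cmp v i := rfl

theorem cmp_zero {w : 𝓛} {F : Mat_ 𝓛} (i : F.ι) : cmp (0 : EE w ⟶ F) i = 0 := rfl

theorem cmp_sum {w : 𝓛} {F : Mat_ 𝓛} {J : Type*} (t : Finset J) (u : J → (EE w ⟶ F)) (i : F.ι) :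
    cmp (∑ j ∈ t, u j) i = ∑ j ∈ t, cmp (u j) i := by
  classical
  induction t using Finset.induction_on with
  | empty => simp [cmp_zero]
  | insert a t ha ih => rw [Finset.sum_insert ha, Finset.sum_insert ha, cmp_add, ih]

/-- inclusion of a summand -/
noncomputable def matIn (F : Mat_ 𝓛) (i : F.ι) : EE (F.X i) ⟶ F :=
  ofCmp fun j => (𝟙 F : F ⟶ F) i j

/-- the projection to a summand -/
noncomputable def matPr (F : Mat_ 𝓛) (i : F.ι) : F ⟶ EE (F.X i) :=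
  ofCocmp fun j => (𝟙 F : F ⟶ F) j i

theorem cmp_matIn_comp (F : Mat_ 𝓛) (i : F.ι) {G : Mat_ 𝓛} (g : F ⟶ G) (j : G.ι) :
    cmp (matIn F i ≫ g) j = g i j := by
  have : (𝟙 F ≫ g) i j = g i j := by rw [Category.id_comp]
  exact this

theorem cocmp_comp_matPr (F : Mat_ 𝓛) (i : F.ι) {G : Mat_ 𝓛} (g : G ⟶ F) (j : G.ι) :
    cocmp (g ≫ matPr F i) j = g j i := by
  have : (g ≫ 𝟙 F) j i = g j i := by rw [Category.comp_id]
  exact this

theorem mat_ext_in {F G : Mat_ 𝓛} {f g : F ⟶ G} (h : ∀ i, matIn F i ≫ f = matIn F i ≫ g) :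
    f = g := by
  ext i j
  rw [← cmp_matIn_comp F i f j, h, cmp_matIn_comp]

theorem mat_ext_pr {F G : Mat_ 𝓛} {f g : G ⟶ F} (h : ∀ i, f ≫ matPr F i = g ≫ matPr F i) :
    f = g := by
  ext j i
  rw [← cocmp_comp_matPr F i f j, h, cocmp_comp_matPr]

theorem cmp_comp {w : 𝓛} {F G : Mat_ 𝓛} (v : EE w ⟶ F) (g : F ⟶ G) (j : G.ι) :
    cmp (v ≫ g) j = ∑ i, cmp v i ≫ g i j := rfl

theorem cmp_Em_comp {w w' : 𝓛} (f : w' ⟶ w) {F : Mat_ 𝓛} (u : EE w ⟶ F) (j : F.ι) :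
    cmp (Em f ≫ u) j = f ≫ cmp u j := by
  have h : cmp (Em f ≫ u) j = ∑ i : PUnit, f ≫ u i j := rfl
  rw [h, Fintype.sum_unique]
  rfl

/-- decomposition of a map from a line bundle -/
theorem eq_sum_matIn {w : 𝓛} {F : Mat_ 𝓛} (v : EE w ⟶ F) :
    v = ∑ i, Em (cmp v i) ≫ matIn F i := by
  refine ext_cmp fun j => ?_
  rw [cmp_sum]
  conv_lhs => rw [← Category.comp_id v]
  rw [cmp_comp]
  refine Finset.sum_congr rfl fun i _ => ?_
  rw [cmp_Em_comp]
  rfl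

theorem exactFor_mat {Y : CochainComplex (Mat_ 𝓛) ℤ} (h : ∀ w, ExactFor (EE w) Y) (P : Mat_ 𝓛) :
    ExactFor P Y := by
  intro i j k hij hjk f hf
  have h1 : ∀ a : P.ι, ∃ g : EE (P.X a) ⟶ Y.X i, g ≫ Y.d i j = matIn P a ≫ f := fun a =>
    h _ i j k hij hjk _ (by rw [Category.assoc, hf, comp_zero])
  choose g hg using h1
  refine ⟨fun a b => cmp (g a) b, mat_ext_in fun a => ?_⟩
  rw [← hg a, ← Category.assoc]
  congr 1
  refine ext_cmp fun b => ?_
  rw [cmp_matIn_comp]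

theorem coexactFor_mat {X : CochainComplex (Mat_ 𝓛) ℤ} (h : ∀ w, CoexactFor X (EE w))
    (P : Mat_ 𝓛) : CoexactFor X P := by
  intro i j k hij hjk f hf
  have h1 : ∀ a : P.ι, ∃ g : X.X k ⟶ EE (P.X a), X.d j k ≫ g = f ≫ matPr P a := fun a =>
    h _ i j k hij hjk _ (by rw [← Category.assoc, hf, zero_comp])
  choose g hg using h1
  refine ⟨fun b a => cocmp (g a) b, mat_ext_pr fun a => ?_⟩
  rw [← hg a, Category.assoc]
  congr 1
  refine ext_cocmp fun b => ?_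
  rw [cocmp_comp_matPr]

end Mat

section Full

variable {k : Type v} [Field k] {𝓛 : Type u} [Category.{v} 𝓛] [Preadditive 𝓛] [Linear k 𝓛]

/-- boundaries as elements of the cycles -/
noncomputable def bd (K : CochainComplex (Mat_ 𝓛) ℤ) {w : 𝓛} (v : EE w ⟶ K.X (-1)) :
    cyc k K w := ⟨v ≫ K.d (-1) 0, by rw [mem_cyc, Category.assoc, K.d_comp_d, comp_zero]⟩

theorem exists_bd {K : CochainComplex (Mat_ 𝓛) ℤ} (hK : ∀ w, ExactFor (EE w) K) {w : 𝓛}
    (z : cyc k K w) : ∃ v, z = bd K v := by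
  obtain ⟨v, hv⟩ := hK w (-1) 0 1 rfl rfl z.1 (mem_cyc.1 z.2)
  exact ⟨v, Subtype.ext hv.symm⟩

theorem bd_eq_sum (K : CochainComplex (Mat_ 𝓛) ℤ) {w : 𝓛} (v : EE w ⟶ K.X (-1)) :
    (bd K v : cyc k K w) = ∑ i, cycMap K (cmp v i) (bd K (matIn (K.X (-1)) i)) := by
  apply Subtype.ext
  rw [Submodule.coe_sum]
  change v ≫ K.d (-1) 0 = ∑ i, Em (cmp v i) ≫ matIn (K.X (-1)) i ≫ K.d (-1) 0
  conv_lhs => rw [eq_sum_matIn v]
  rw [Preadditive.sum_comp]
  simp only [Category.assoc]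

/-- the linear map underlying a natural transformation from the cycles -/
noncomputable def appZ {K : CochainComplex (Mat_ 𝓛) ℤ} {M : 𝓛ᵒᵖ ⥤ ModuleCat.{v} k}
    (η : Zobj k K ⟶ M) (w : 𝓛) : cyc k K w →ₗ[k] M.obj (op w) := (η.app (op w)).hom

theorem appZ_nat {K : CochainComplex (Mat_ 𝓛) ℤ} {M : 𝓛ᵒᵖ ⥤ ModuleCat.{v} k}
    (η : Zobj k K ⟶ M) {w w' : 𝓛} (f : w' ⟶ w) (u : cyc k K w) :
    appZ η w' (cycMap K f u) = (M.map f.op).hom (appZ η w u) := by
  have := congrArg (fun g => g.hom u) (η.naturality f.op)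
  exact this

theorem appZ_ext {K : CochainComplex (Mat_ 𝓛) ℤ} {M : 𝓛ᵒᵖ ⥤ ModuleCat.{v} k}
    {η θ : Zobj k K ⟶ M} (h : ∀ w u, appZ η w u = appZ θ w u) : η = θ :=
  Z_hom_ext h

/-- values of a natural transformation on boundaries -/
theorem appZ_bd {K : CochainComplex (Mat_ 𝓛) ℤ} {M : 𝓛ᵒᵖ ⥤ ModuleCat.{v} k}
    (η : Zobj k K ⟶ M) {w : 𝓛} (v : EE w ⟶ K.X (-1)) :
    appZ η w (bd K v) = ∑ i, (M.map (cmp v i).op).hom (appZ η ((K.X (-1)).X i)
      (bd K (matIn (K.X (-1)) i))) := by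
  rw [bd_eq_sum, map_sum]
  exact Finset.sum_congr rfl fun i _ => appZ_nat η _ _

/-- a natural transformation between cycles, as a map -/
noncomputable def appZZ {K L : CochainComplex (Mat_ 𝓛) ℤ} (η : Zobj k K ⟶ Zobj k L) (w : 𝓛) :
    cyc k K w →ₗ[k] cyc k L w := appZ η w

theorem appZZ_nat {K L : CochainComplex (Mat_ 𝓛) ℤ} (η : Zobj k K ⟶ Zobj k L)
    {w w' : 𝓛} (f : w' ⟶ w) (u : cyc k K w) :
    appZZ η w' (cycMap K f u) = cycMap L f (appZZ η w u) := appZ_nat η f u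

theorem appZZ_bd {K L : CochainComplex (Mat_ 𝓛) ℤ} (η : Zobj k K ⟶ Zobj k L)
    {w : 𝓛} (v : EE w ⟶ K.X (-1)) :
    appZZ η w (bd K v) = ∑ i, cycMap L (cmp v i) (appZZ η ((K.X (-1)).X i)
      (bd K (matIn (K.X (-1)) i))) := appZ_bd η v

theorem Zmap_eq_iff' {K L : CochainComplex (Mat_ 𝓛) ℤ} (η : Zobj k K ⟶ Zobj k L) (φ : K ⟶ L) :
    Zmap k φ = η ↔ ∀ (w : 𝓛) (u : cyc k K w), (appZZ η w u).1 = u.1 ≫ φ.f 0 :=
  Zmap_eq_iff η φ

/-- **Fullness** of the cycles. -/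
theorem Zmap_surjective {K L : CochainComplex (Mat_ 𝓛) ℤ} (hK : ∀ w, ExactFor (EE w) K)
    (hK' : ∀ w, CoexactFor K (EE w)) (hL : ∀ w, ExactFor (EE w) L)
    (η : Zobj k K ⟶ Zobj k L) : ∃ φ : K ⟶ L, Zmap k φ = η := by
  let u : K.X (-1) ⟶ L.X 0 := fun i j =>
    cmp (appZZ η ((K.X (-1)).X i) (bd K (matIn (K.X (-1)) i))).1 j
  have hu : ∀ (w : 𝓛) (v : EE w ⟶ K.X (-1)), (appZZ η w (bd K v)).1 = v ≫ u := by
    intro w v
    rw [appZZ_bd, Submodule.coe_sum]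
    conv_rhs => rw [eq_sum_matIn v]
    rw [Preadditive.sum_comp]
    refine Finset.sum_congr rfl fun i _ => ?_
    rw [Category.assoc, cycMap_coe]
    congr 1
    refine ext_cmp fun j => ?_
    rw [cmp_matIn_comp]
  have h1 : ∀ i, K.d i (-1) ≫ u = 0 := by
    intro i
    refine mat_ext_in fun a => ?_
    rw [← Category.assoc, ← hu, comp_zero]
    have : (bd K (matIn (K.X i) a ≫ K.d i (-1)) : cyc k K _) = 0 := by
      apply Subtype.ext
      change (matIn (K.X i) a ≫ K.d i (-1)) ≫ K.d (-1) 0 = 0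
      rw [Category.assoc, K.d_comp_d, comp_zero]
    rw [this, map_zero]
    rfl
  have h2 : ∀ j, u ≫ L.d 0 j = 0 := by
    intro j
    by_cases hj : j = 1
    · subst hj
      refine mat_ext_in fun a => ?_
      rw [← Category.assoc, ← hu, comp_zero]
      exact mem_cyc.1 (appZZ η _ (bd K (matIn (K.X (-1)) a))).2
    · rw [L.shape 0 j (by simp; lia), comp_zero]
  obtain ⟨φ, hφ, -⟩ := exists_extend (-1) 0 rfl u h1 h2
    (fun j => coexactFor_mat hK' _) (fun j => exactFor_mat hL _)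
  refine ⟨φ, ?_⟩
  rw [Zmap_eq_iff']
  intro w z
  obtain ⟨v, rfl⟩ := exists_bd hK z
  rw [hu, ← hφ, ← Category.assoc]
  rfl

/-- **Faithfulness** of the cycles modulo homotopy. -/
theorem homotopy_of_Zmap_eq_zero {K L : CochainComplex (Mat_ 𝓛) ℤ}
    (hK' : ∀ w, CoexactFor K (EE w)) (hL : ∀ w, ExactFor (EE w) L) (φ : K ⟶ L)
    (h : Zmap k φ = 0) : Nonempty (Homotopy φ 0) := by
  refine nullhomotopic_of_cycles φ ?_ (fun j => coexactFor_mat hK' _)
    (fun j => exactFor_mat hL _)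
  refine mat_ext_in fun a => ?_
  have h1 := (Zmap_eq_iff' _ φ).1 h _ (bd K (matIn (K.X (-1)) a))
  rw [comp_zero, ← Category.assoc]
  exact h1.symm

/-- a natural transformation from the cycles to a line bundle, as a map -/
noncomputable def appY {K : CochainComplex (Mat_ 𝓛) ℤ} {z : 𝓛}
    (a : Zobj k K ⟶ (linearYoneda k 𝓛).obj z) (w : 𝓛) : cyc k K w →ₗ[k] (w ⟶ z) := appZ a w

theorem appY_bd {K : CochainComplex (Mat_ 𝓛) ℤ} {z : 𝓛}
    (a : Zobj k K ⟶ (linearYoneda k 𝓛).obj z) {w : 𝓛} (v : EE w ⟶ K.X (-1)) :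
    appY a w (bd K v) = ∑ i, cmp v i ≫ (appY a ((K.X (-1)).X i)
      (bd K (matIn (K.X (-1)) i))) := appZ_bd a v

/-- line bundles are relatively injective: maps from the cycles extend -/
theorem exists_ext_Y {K : CochainComplex (Mat_ 𝓛) ℤ} (hK : ∀ w, ExactFor (EE w) K)
    (hK' : ∀ w, CoexactFor K (EE w)) {z : 𝓛} (a : Zobj k K ⟶ (linearYoneda k 𝓛).obj z) :
    ∃ α : K.X 0 ⟶ EE z, ∀ (w : 𝓛) (u : cyc k K w), appY a w u = cmp (u.1 ≫ α) PUnit.unit := by
  let c : K.X (-1) ⟶ EE z := ofCocmp fun i => appY a ((K.X (-1)).X i) (bd K (matIn (K.X (-1)) i))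
  have hc : ∀ (w : 𝓛) (v : EE w ⟶ K.X (-1)), appY a w (bd K v) = cmp (v ≫ c) PUnit.unit :=
    fun w v => appY_bd a v
  have h1 : K.d (-2) (-1) ≫ c = 0 := by
    refine mat_ext_in fun b => ext_cmp fun x => ?_
    have h2 := hc _ (matIn (K.X (-2)) b ≫ K.d (-2) (-1))
    have : (bd K (matIn (K.X (-2)) b ≫ K.d (-2) (-1)) : cyc k K _) = 0 := by
      apply Subtype.ext
      change (matIn (K.X (-2)) b ≫ K.d (-2) (-1)) ≫ K.d (-1) 0 = 0
      rw [Category.assoc, K.d_comp_d, comp_zero]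
    rw [this, map_zero, Category.assoc] at h2
    rw [comp_zero]
    exact h2.symm
  obtain ⟨α, hα⟩ := hK' z (-2) (-1) 0 rfl rfl c h1
  refine ⟨α, fun w u => ?_⟩
  obtain ⟨v, rfl⟩ := exists_bd hK u
  rw [hc, ← hα, ← Category.assoc]
  rfl

/-- a natural transformation from a line bundle, given by an element -/
theorem yoneda_app {z : 𝓛} {M : 𝓛ᵒᵖ ⥤ ModuleCat.{v} k} (b : (linearYoneda k 𝓛).obj z ⟶ M)
    {w : 𝓛} (f : w ⟶ z) :
    (b.app (op w)).hom f = (M.map f.op).hom ((b.app (op z)).hom (𝟙 z)) := by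
  have := congrArg (fun g => g.hom (𝟙 z)) (b.naturality f.op)
  have h2 : ((linearYoneda k 𝓛).obj z).map f.op (𝟙 z) = f := Category.comp_id f
  change (b.app (op w)).hom (((linearYoneda k 𝓛).obj z).map f.op (𝟙 z)) = _ at this
  rw [h2] at this
  exact this

theorem factorsLB_of_homotopy {K L : CochainComplex (Mat_ 𝓛) ℤ} (φ : K ⟶ L)
    (h : Homotopy φ 0) : Gen.FactorsLB (Zmap k φ) := by
  obtain ⟨z, hz⟩ := Cochain.equivHomotopy φ 0 h
  have h0 : φ.f 0 = z.v 0 (-1) (by lia) ≫ L.d (-1) 0 + K.d 0 1 ≫ z.v 1 0 (by lia) := by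
    have := Cochain.congr_v hz 0 0 rfl
    rw [Cochain.ofHom_v, Cochain.ofHom_zero, add_zero,
      δ_v (-1) 0 (neg_add_cancel 1) z 0 0 rfl (-1) 1 (by lia) (by lia)] at this
    simpa using this
  set s : K.X 0 ⟶ L.X (-1) := z.v 0 (-1) (by lia) with hs
  let G := L.X (-1)
  let e := Fintype.equivFin G.ι
  let a (i : G.ι) : Zobj k K ⟶ (linearYoneda k 𝓛).obj (G.X i) :=
    { app := fun w => ModuleCat.ofHom
        { toFun := fun u : cyc k K w.unop => (cmp (u.1 ≫ s) i : w.unop ⟶ G.X i)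
          map_add' := fun u v => by
            rw [Submodule.coe_add, Preadditive.add_comp, cmp_add]
          map_smul' := fun c u => by
            rw [Submodule.coe_smul, Linear.smul_comp]
            rfl }
      naturality := fun w w' f => by
        refine ModuleCat.hom_ext (LinearMap.ext fun u => ?_)
        change cmp ((Em f.unop ≫ u.1) ≫ s) i = f.unop ≫ cmp (u.1 ≫ s) i
        rw [Category.assoc, cmp_Em_comp] }
  let b (i : G.ι) : (linearYoneda k 𝓛).obj (G.X i) ⟶ Zobj k L :=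
    { app := fun w => ModuleCat.ofHom
        { toFun := fun f : w.unop ⟶ G.X i => (bd L (Em f ≫ matIn G i) : cyc k L w.unop)
          map_add' := fun f g => by
            apply Subtype.ext
            change (Em (f + g) ≫ matIn G i) ≫ _ = (Em f ≫ matIn G i) ≫ _ + (Em g ≫ matIn G i) ≫ _
            rw [Em_add, Preadditive.add_comp, Preadditive.add_comp]
          map_smul' := fun c f => by
            apply Subtype.ext
            change (Em (c • f) ≫ matIn G i) ≫ _ = c • ((Em f ≫ matIn G i) ≫ _)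
            rw [Em_smul, Linear.smul_comp, Linear.smul_comp] }
      naturality := fun w w' f => by
        refine ModuleCat.hom_ext (LinearMap.ext fun g => Subtype.ext ?_)
        change (Em (f.unop ≫ (g : w.unop ⟶ G.X i)) ≫ matIn G i) ≫ L.d (-1) 0 =
          Em f.unop ≫ (Em g ≫ matIn G i) ≫ L.d (-1) 0
        rw [Em, CategoryTheory.Functor.map_comp, Category.assoc, Category.assoc, Category.assoc] }
  refine ⟨Fintype.card G.ι, fun j => G.X (e.symm j), fun j => a (e.symm j),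
    fun j => b (e.symm j), ?_⟩
  rw [Equiv.sum_comp e.symm (fun i => a i ≫ b i), Zmap_eq_iff']
  intro w u
  have h1 : (appZZ (∑ i, a i ≫ b i) w u).1 = ∑ i, (Em (cmp (u.1 ≫ s) i) ≫ matIn G i) ≫
      L.d (-1) 0 := by
    have h2 : (appZZ (∑ i, a i ≫ b i) w u) = ∑ i, appZZ (a i ≫ b i) w u := by
      change ((∑ i, a i ≫ b i).app (op w)).hom u = _
      rw [NatTrans.app_sum, ModuleCat.hom_sum, LinearMap.sum_apply]
      rfl
    rw [h2, Submodule.coe_sum]
    rfl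
  rw [h1, ← Preadditive.sum_comp, ← eq_sum_matIn, h0, Preadditive.comp_add, ← Category.assoc,
    ← Category.assoc, mem_cyc.1 u.2, zero_comp, add_zero]

/-- **Characterization**: a chain map is null homotopic if and only if it factors through line
bundles on cycles. -/
theorem homotopy_of_factorsLB {K L : CochainComplex (Mat_ 𝓛) ℤ}
    (hK : ∀ w, ExactFor (EE w) K) (hK' : ∀ w, CoexactFor K (EE w))
    (hL : ∀ w, ExactFor (EE w) L) (φ : K ⟶ L)
    (h : Gen.FactorsLB (Zmap k φ)) : Nonempty (Homotopy φ 0) := by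
  obtain ⟨r, z, a, b, hab⟩ := h
  choose α hα using fun j => exists_ext_Y hK hK' (a j)
  have hb : ∀ j, ∃ v : EE (z j) ⟶ L.X (-1), (b j).app (op (z j)) (𝟙 (z j)) = bd L v :=
    fun j => exists_bd hL _
  choose v hv using hb
  let s : K.X 0 ⟶ L.X (-1) := ∑ j, α j ≫ v j
  let zc : Cochain K L (-1) := Cochain.single s (-1)
  have hzc : δ 0 1 (δ (-1) 0 zc) = 0 := δ_δ _ _ _ _
  let ψ : K ⟶ L := Cocycle.homOf (Cocycle.mk (δ (-1) 0 zc) 1 (zero_add 1) hzc)
  have hψ : Cochain.ofHom ψ = δ (-1) 0 zc := by simp [ψ]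
  have hψ0 : ψ.f 0 = s ≫ L.d (-1) 0 := by
    have := Cochain.congr_v hψ 0 0 rfl
    rw [Cochain.ofHom_v, δ_v (-1) 0 (neg_add_cancel 1) zc 0 0 rfl (-1) 1 (by lia) (by lia)]
      at this
    rw [this, Cochain.single_v_eq_zero _ _ 1 0 _ (by lia)]
    simp [zc]
  have hψh : Nonempty (Homotopy ψ 0) :=
    ⟨(Cochain.equivHomotopy ψ 0).symm ⟨zc, by rw [hψ, Cochain.ofHom_zero, add_zero]⟩⟩
  have h0 : Zmap k (φ - ψ) = 0 := by
    rw [Zmap_eq_iff']
    intro w u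
    have h1 : (appZZ (Zmap k φ) w u).1 = u.1 ≫ φ.f 0 := rfl
    rw [hab] at h1
    have h2 : (appZZ (∑ j, a j ≫ b j) w u) = ∑ j, appZZ (a j ≫ b j) w u := by
      change ((∑ j, a j ≫ b j).app (op w)).hom u = _
      rw [NatTrans.app_sum, ModuleCat.hom_sum, LinearMap.sum_apply]
      rfl
    have h3 : ∀ j, (appZZ (a j ≫ b j) w u).1 = (u.1 ≫ α j) ≫ v j ≫ L.d (-1) 0 := by
      intro j
      have h4 : (appZZ (a j ≫ b j) w u) = cycMap L (appY (a j) w u) (bd L (v j)) := by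
        change ((b j).app (op w)).hom (appY (a j) w u) = _
        rw [yoneda_app]
        have h5 : ((b j).app (op (z j))).hom (𝟙 (z j)) = bd L (v j) := hv j
        rw [h5]
        rfl
      have h6 : Em (appY (a j) w u) = u.1 ≫ α j := by
        rw [hα]
        rfl
      rw [h4, cycMap_coe, h6]
      rfl
    rw [h2, Submodule.coe_sum, Finset.sum_congr rfl fun j _ => h3 j] at h1
    have h7 : u.1 ≫ ψ.f 0 = ∑ j, (u.1 ≫ α j) ≫ v j ≫ L.d (-1) 0 := by
      rw [hψ0]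
      simp only [s, Preadditive.sum_comp, Preadditive.comp_sum, Category.assoc]
    have h8 : (φ - ψ).f 0 = φ.f 0 - ψ.f 0 := rfl
    rw [h8, Preadditive.comp_sub, ← h1, h7, sub_self]
    rfl
  obtain ⟨H⟩ := homotopy_of_Zmap_eq_zero hK' hL _ h0
  obtain ⟨H'⟩ := hψh
  exact ⟨((Homotopy.ofEq (by abel)).trans (H.add H')).trans (Homotopy.ofEq (by simp))⟩

end Full

end Lens
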