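import Pool.Agent.Lens.Lit3a
import Pool.Agent.Lens.Rlam
import Pool.Agent.Lens.D1
import Pool.Agent.Lens.DcL
import Pool.Agent.Lens.Glue
import Pool.Agent.Lens.DSplice

/-!
# Every vector bundle is the module of cycles of an acyclic complex of line bundles
-/

open CategoryTheory CategoryTheory.Limits Opposite
open scoped symmDiff

namespace Lens

universe u

variable {k : Type u} [Field k] {n : ℕ} {lam : Fin n → Fin 2 → k}

namespace LitD

/-! ### Coefficients -/

theorem iota_coef_mem {d : LG n} {f : S lam} (hf : f ∈ piece lam d) (I : Finset (Fin n)) :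
    iota lam (coef lam I f) ∈ piece lam (d - LG.xs I) := by
  by_cases hd : d.a < 0
  · rw [eq_zero_of_mem_piece lam hd hf, map_zero, map_zero]
    exact Submodule.zero_mem _
  · obtain ⟨m, hm⟩ := Int.eq_ofNat_of_zero_le (not_lt.1 hd)
    obtain ⟨r, hr, rfl⟩ := (mem_piece_iff lam d m hm f).1 hf
    rw [coef_xI_mul_iota]
    by_cases hI : d.I = I
    · rw [if_pos hI]
      have : d - LG.xs I = m • LG.c := by
        rw [LG.nsmul_c]
        ext1
        · rw [LG.sub_I, LG.xs_I, hI, symmDiff_self]; rfl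
        · rw [LG.sub_a, LG.xs_I, LG.xs_a, hI, Finset.sdiff_self, Finset.card_empty, hm]
          simp
      rw [this]
      exact iota_mem_piece lam hr
    · rw [if_neg hI, map_zero]
      exact Submodule.zero_mem _

theorem coef_xI_mul (J : Finset (Fin n)) (f : S lam) :
    coef lam Finset.univ (xI lam J * f) = coef lam Jᶜ f := by
  conv_lhs => rw [eq_sum_coef lam f, Finset.mul_sum, map_sum]
  rw [Finset.sum_eq_single Jᶜ]
  · rw [← mul_assoc, xI_mul_xI_of_disjoint lam disjoint_compl_right, Finset.union_compl,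
      coef_xI_mul_iota, if_pos rfl]
  · intro I _ hI
    rw [← mul_assoc, xI_mul_xI, mul_assoc, ← map_mul, coef_xI_mul_iota, if_neg]
    intro h
    apply hI
    rw [← Finset.top_eq_univ] at h
    exact ((symmDiff_eq_top _ _).1 h).compl_eq.symm
  · intro h
    exact absurd (Finset.mem_univ _) h

/-! ### The `R`-basis of a finite sum of line bundles -/

/-- the monomial `x_I : 𝒪(z - x_I) ⟶ 𝒪(z)` -/
noncomputable def xm (I : Finset (Fin n)) (Y : LB lam) : (⟨Y.z - LG.xs I⟩ : LB lam) ⟶ Y :=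
  LB.homMk (xI lam I) (by
    have h := xI_mem_piece lam I
    rwa [show Y.z - (⟨Y.z - LG.xs I⟩ : LB lam).z = LG.xs I from by simp])

/-- coefficient of a morphism -/
noncomputable def rc (I : Finset (Fin n)) {w Y : LB lam} (f : w ⟶ Y) :
    w ⟶ (⟨Y.z - LG.xs I⟩ : LB lam) :=
  LB.homMk (iota lam (coef lam I (LB.Hom.f f))) (by
    have h := iota_coef_mem (LB.Hom.mem f) I
    rwa [show Y.z - w.z - LG.xs I = (⟨Y.z - LG.xs I⟩ : LB lam).z - w.z from by
      simp only; abel] at h)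

theorem eq_sum_rc {w Y : LB lam} (f : w ⟶ Y) : f = ∑ I, rc I f ≫ xm I Y := by
  apply LB.hom_ext
  rw [LB.sum_f]
  conv_lhs => rw [eq_sum_coef lam (LB.Hom.f f)]
  refine Finset.sum_congr rfl fun I _ => ?_
  rw [LB.comp_f]
  exact mul_comm _ _

theorem rc_add (I : Finset (Fin n)) {w Y : LB lam} (f g : w ⟶ Y) :
    rc I (f + g) = rc I f + rc I g := by
  apply LB.hom_ext
  simp [rc]

theorem rc_zero (I : Finset (Fin n)) {w Y : LB lam} : rc I (0 : w ⟶ Y) = 0 := by
  apply LB.hom_ext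
  simp [rc]

/-- morphisms given by elements of `R = k[T₀, T₁]` -/
def Rl ⦃y z : LB lam⦄ (f : y ⟶ z) : Prop := LB.Hom.f f ∈ (iota lam).range

theorem Rl_rc (I : Finset (Fin n)) {w Y : LB lam} (f : w ⟶ Y) : Rl (rc I f) := ⟨_, rfl⟩

theorem rc_comp (I : Finset (Fin n)) {w w' Y : LB lam} (e : w' ⟶ w) (he : Rl e) (f : w ⟶ Y) :
    rc I (e ≫ f) = e ≫ rc I f := by
  apply LB.hom_ext
  obtain ⟨r, hr⟩ := he
  have hr' : iota lam r = LB.Hom.f e := hr
  simp [rc, ← hr', coef_iota_mul]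

theorem rc_xm_self (I : Finset (Fin n)) (Y : LB lam) : rc I (xm I Y) = 𝟙 _ := by
  apply LB.hom_ext
  have := coef_xI_mul_iota lam I I 1
  rw [map_one, mul_one, if_pos rfl] at this
  simp [rc, xm, this]

theorem rc_xm_ne {I J : Finset (Fin n)} (h : J ≠ I) (Y : LB lam) : rc I (xm J Y) = 0 := by
  apply LB.hom_ext
  have := coef_xI_mul_iota lam I J 1
  rw [map_one, mul_one, if_neg h] at this
  simp [rc, xm, this]

/-! ### Matrices -/

theorem mat_sum_apply {𝓛 : Type*} [Category 𝓛] [Preadditive 𝓛] {ι : Type*} (s : Finset ι)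
    {M N : Mat_ 𝓛} (f : ι → (M ⟶ N)) (i : M.ι) (j : N.ι) :
    (∑ a ∈ s, f a : M ⟶ N) i j = ∑ a ∈ s, f a i j := by
  classical
  induction s using Finset.induction_on with
  | empty => rfl
  | insert a s ha ih => rw [Finset.sum_insert ha, Finset.sum_insert ha, Mat_.add_apply, ih]

/-- component -/
def cp {w : LB lam} {F : Mat_ (LB lam)} (u : EE w ⟶ F) (i : F.ι) : w ⟶ F.X i := u PUnit.unit i

theorem Em_comp_apply {w w' : LB lam} {F : Mat_ (LB lam)} (e : w' ⟶ w) (u : EE w ⟶ F)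
    (a : PUnit) (i : F.ι) : (Em e ≫ u) a i = e ≫ cp u i := by
  rw [Mat_.comp_apply]
  exact Fintype.sum_eq_single (PUnit.unit : PUnit) fun x hx =>
    absurd (Subsingleton.elim (α := PUnit) x PUnit.unit) hx

theorem cp_comp {w w' : LB lam} {F : Mat_ (LB lam)} (e : w' ⟶ w) (u : EE w ⟶ F) (i : F.ι) :
    cp (Em e ≫ u) i = e ≫ cp u i := Em_comp_apply _ _ _ _

theorem cp_add {w : LB lam} {F : Mat_ (LB lam)} (u v : EE w ⟶ F) (i : F.ι) :
    cp (u + v) i = cp u i + cp v i := rfl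

theorem cp_smul {w : LB lam} {F : Mat_ (LB lam)} (a : k) (u : EE w ⟶ F) (i : F.ι) :
    cp (a • u) i = a • cp u i := rfl

theorem cp_ext {w : LB lam} {F : Mat_ (LB lam)} {u v : EE w ⟶ F} (h : ∀ i, cp u i = cp v i) :
    u = v := by
  funext a i
  exact h i

/-- the inclusion of a summand -/
noncomputable def inc (F : Mat_ (LB lam)) (i : F.ι) : EE (F.X i) ⟶ F :=
  fun _ j => (𝟙 F : F ⟶ F) i j

theorem eq_sum_inc {w : LB lam} {F : Mat_ (LB lam)} (u : EE w ⟶ F) :
    u = ∑ i, Em (cp u i) ≫ inc F i := by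
  conv_lhs => rw [← Category.comp_id u]
  funext a j
  rw [mat_sum_apply, Mat_.comp_apply]
  refine Finset.sum_congr rfl fun i _ => ?_
  rw [Em_comp_apply]
  rfl

/-- the index set of the `R`-basis of `F` -/
abbrev BI (F : Mat_ (LB lam)) : Type := Finset (Fin n) × F.ι

/-- the degrees of the `R`-basis of `F` -/
abbrev bo (F : Mat_ (LB lam)) (p : BI F) : LB lam := ⟨(F.X p.2).z - LG.xs p.1⟩

/-- the `R`-basis of `F` -/
noncomputable def bv (F : Mat_ (LB lam)) (p : BI F) : EE (bo F p) ⟶ F :=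
  Em (xm p.1 (F.X p.2)) ≫ inc F p.2

/-- the coordinates -/
noncomputable def co {w : LB lam} {F : Mat_ (LB lam)} (u : EE w ⟶ F) (p : BI F) : w ⟶ bo F p :=
  rc p.1 (cp u p.2)

theorem eq_sum_co {w : LB lam} {F : Mat_ (LB lam)} (u : EE w ⟶ F) :
    u = ∑ p, Em (co u p) ≫ bv F p := by
  conv_lhs => rw [eq_sum_inc u]
  rw [Fintype.sum_prod_type_right]
  refine Finset.sum_congr rfl fun i _ => ?_
  conv_lhs => rw [eq_sum_rc (cp u i), Em, CategoryTheory.Functor.map_sum,
    Preadditive.sum_comp]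
  refine Finset.sum_congr rfl fun I _ => ?_
  rw [CategoryTheory.Functor.map_comp, Category.assoc]
  rfl

theorem co_Rl {w : LB lam} {F : Mat_ (LB lam)} (u : EE w ⟶ F) (p : BI F) : Rl (co u p) :=
  Rl_rc _ _

theorem co_add {w : LB lam} {F : Mat_ (LB lam)} (u v : EE w ⟶ F) (p : BI F) :
    co (u + v) p = co u p + co v p := rc_add _ _ _

theorem co_zero {w : LB lam} {F : Mat_ (LB lam)} (p : BI F) : co (0 : EE w ⟶ F) p = 0 := rc_zero _

theorem co_comp {w w' : LB lam} {F : Mat_ (LB lam)} (e : w' ⟶ w) (he : Rl e) (u : EE w ⟶ F)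
    (p : BI F) : co (Em e ≫ u) p = e ≫ co u p := by
  rw [co, cp_comp, rc_comp _ _ he]
  rfl

theorem bv_apply (F : Mat_ (LB lam)) (p : BI F) (j : F.ι) :
    cp (bv F p) j = xm p.1 (F.X p.2) ≫ (𝟙 F : F ⟶ F) p.2 j := cp_comp _ _ _

theorem co_bv_self (F : Mat_ (LB lam)) (p : BI F) : co (bv F p) p = 𝟙 _ := by
  rw [co, bv_apply, Mat_.id_apply_self, Category.comp_id]
  exact rc_xm_self _ _

theorem co_bv_ne (F : Mat_ (LB lam)) {p q : BI F} (h : p ≠ q) : co (bv F p) q = 0 := by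
  rw [co, bv_apply]
  by_cases h2 : p.2 = q.2
  · obtain ⟨I, i⟩ := p
    obtain ⟨J, j⟩ := q
    obtain rfl : i = j := h2
    rw [Mat_.id_apply_self, Category.comp_id]
    exact rc_xm_ne (fun h' => h (Prod.ext h' rfl)) _
  · rw [Mat_.id_apply_of_ne _ _ _ h2, comp_zero]
    exact rc_zero _

/-! ### `R`-linear maps -/

/-- homogeneous `R`-linear maps between finite sums of line bundles -/
structure RLin (F G : Mat_ (LB lam)) where
  f : ∀ {w : LB lam}, (EE w ⟶ F) → (EE w ⟶ G)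
  add : ∀ {w : LB lam} (u v : EE w ⟶ F), f (u + v) = f u + f v
  comp : ∀ {w w' : LB lam} (e : w' ⟶ w) (_ : Rl e) (u : EE w ⟶ F), f (Em e ≫ u) = Em e ≫ f u

namespace RLin

variable {F G H : Mat_ (LB lam)}

theorem zero (φ : RLin F G) {w : LB lam} : φ.f (0 : EE w ⟶ F) = 0 := by
  have := φ.add (w := w) 0 0
  rwa [add_zero, left_eq_add] at this

theorem sum (φ : RLin F G) {w : LB lam} {ι : Type*} (s : Finset ι) (u : ι → (EE w ⟶ F)) :
    φ.f (∑ a ∈ s, u a) = ∑ a ∈ s, φ.f (u a) := by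
  classical
  induction s using Finset.induction_on with
  | empty => rw [Finset.sum_empty, Finset.sum_empty, φ.zero]
  | insert a s ha ih => rw [Finset.sum_insert ha, Finset.sum_insert ha, φ.add, ih]

theorem eq_sum (φ : RLin F G) {w : LB lam} (u : EE w ⟶ F) :
    φ.f u = ∑ p, Em (co u p) ≫ φ.f (bv F p) := by
  conv_lhs => rw [eq_sum_co u, φ.sum]
  exact Finset.sum_congr rfl fun p _ => φ.comp _ (co_Rl _ _) _

/-- an `R`-linear map with given values on the basis -/
noncomputable def ofBasis (c : ∀ p : BI F, EE (bo F p) ⟶ G) : RLin F G where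
  f u := ∑ p, Em (co u p) ≫ c p
  add u v := by
    rw [← Finset.sum_add_distrib]
    refine Finset.sum_congr rfl fun p _ => ?_
    rw [co_add, Em_add, Preadditive.add_comp]
  comp e he u := by
    rw [Preadditive.comp_sum]
    refine Finset.sum_congr rfl fun p _ => ?_
    rw [co_comp e he, Em, CategoryTheory.Functor.map_comp, Category.assoc]

theorem ofBasis_bv (c : ∀ p : BI F, EE (bo F p) ⟶ G) (p : BI F) :
    (ofBasis c).f (bv F p) = c p := by
  classical
  change ∑ q, Em (co (bv F p) q) ≫ c q = c p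
  rw [Finset.sum_eq_single p]
  · rw [co_bv_self, Em, CategoryTheory.Functor.map_id, Category.id_comp]
  · intro q _ hq
    rw [co_bv_ne F hq.symm, Em, CategoryTheory.Functor.map_zero, zero_comp]
  · intro h
    exact absurd (Finset.mem_univ _) h

/-- postcomposition with an `S`-linear map -/
noncomputable def post (φ : RLin F G) (d : G ⟶ H) : RLin F H where
  f u := φ.f u ≫ d
  add u v := by rw [φ.add, Preadditive.add_comp]
  comp e he u := by rw [φ.comp e he, Category.assoc]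

/-- precomposition with an `S`-linear map -/
noncomputable def pre (d : F ⟶ G) (φ : RLin G H) : RLin F H where
  f u := φ.f (u ≫ d)
  add u v := by rw [Preadditive.add_comp, φ.add]
  comp e he u := by rw [Category.assoc, φ.comp e he]

/-- `1 - φ` -/
noncomputable def oneSub (φ : RLin F F) : RLin F F where
  f u := u - φ.f u
  add u v := by rw [φ.add]; abel
  comp e he u := by rw [φ.comp e he, Preadditive.comp_sub]

theorem ext_bv (φ ψ : RLin F G) (h : ∀ p, φ.f (bv F p) = ψ.f (bv F p)) {w : LB lam}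
    (u : EE w ⟶ F) : φ.f u = ψ.f u := by
  rw [φ.eq_sum, ψ.eq_sum]
  exact Finset.sum_congr rfl fun p _ => by rw [h]

/-- lifting `R`-linear maps -/
theorem exists_lift (φ : RLin F H) (d : G ⟶ H)
    (h : ∀ {w : LB lam} (u : EE w ⟶ F), ∃ v : EE w ⟶ G, v ≫ d = φ.f u) :
    ∃ ψ : RLin F G, ∀ {w : LB lam} (u : EE w ⟶ F), ψ.f u ≫ d = φ.f u := by
  choose c hc using fun p => h (bv F p)
  refine ⟨ofBasis c, fun u => ?_⟩
  exact ext_bv ((ofBasis c).post d) φ (fun p => by
    change (ofBasis c).f (bv F p) ≫ d = _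
    rw [ofBasis_bv, hc]) u

end RLin

/-! ### Relative duality -/

/-- the functional `coefficient of x_[n]` on maps into a line bundle -/
noncomputable def tc {w Y : LB lam} (f : EE w ⟶ EE Y) : R k :=
  coef lam Finset.univ (LB.Hom.f (cp f PUnit.unit))

theorem tc_add {w Y : LB lam} (f g : EE w ⟶ EE Y) : tc (f + g) = tc f + tc g := by
  rw [tc, cp_add, LB.add_f, map_add]
  rfl

theorem tc_zero {w Y : LB lam} : tc (0 : EE w ⟶ EE Y) = 0 := by
  change coef lam Finset.univ (LB.Hom.f (0 : w ⟶ Y)) = 0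
  rw [LB.zero_f, map_zero]

theorem tc_comp {w w' Y : LB lam} (e : w' ⟶ w) (r : R k) (he : LB.Hom.f e = iota lam r)
    (f : EE w ⟶ EE Y) : tc (Em e ≫ f) = r * tc f := by
  rw [tc, cp_comp, LB.comp_f, he, coef_iota_mul]
  rfl

theorem inc_comp_apply {F G : Mat_ (LB lam)} (i : F.ι) (g : F ⟶ G) (b : G.ι) :
    cp (inc F i ≫ g) b = g i b := by
  have := congrFun (congrFun (Category.id_comp g) i) b
  rw [Mat_.comp_apply] at this
  exact (Mat_.comp_apply (inc F i) g PUnit.unit b).trans this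

/-- the value of `tc` on the basis -/
theorem tc_bv {F : Mat_ (LB lam)} {Y : LB lam} (p : BI F) (g : F ⟶ EE Y) :
    tc (bv F p ≫ g) = coef lam p.1ᶜ (LB.Hom.f (g p.2 PUnit.unit)) := by
  have h : cp (bv F p ≫ g) PUnit.unit = xm p.1 (F.X p.2) ≫ g p.2 PUnit.unit := by
    rw [bv, Category.assoc, cp_comp, inc_comp_apply]
  unfold tc
  rw [h]
  exact coef_xI_mul _ _

/-- the morphism `∑ r_I x_I` with prescribed coefficients -/
theorem exists_hom {Z Y : LB lam} (c : Finset (Fin n) → R k)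
    (hc : ∀ J, iota lam (c J) ∈ piece lam (Y.z - Z.z + LG.xs J - LG.xs Finset.univ)) :
    ∃ g : Z ⟶ Y, ∀ J, coef lam Jᶜ (LB.Hom.f g) = c J := by
  have hmem : ∑ J, xI lam Jᶜ * iota lam (c J) ∈ piece lam (Y.z - Z.z) := by
    refine Submodule.sum_mem _ fun J _ => ?_
    have h := mul_mem_piece lam (xI_mem_piece lam Jᶜ) (hc J)
    have h2 : LG.xs Jᶜ + LG.xs J = LG.xs (Finset.univ : Finset (Fin n)) := by
      ext1
      · rw [LG.add_I, LG.xs_I, LG.xs_I, LG.xs_I]
        exact compl_symmDiff_self J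
      · simp [Finset.inter_comm, Finset.inter_compl]
    have h3 : LG.xs Jᶜ + (Y.z - Z.z + LG.xs J - LG.xs Finset.univ) = Y.z - Z.z := by
      rw [← h2]; abel
    rwa [h3] at h
  refine ⟨LB.homMk _ hmem, fun J => ?_⟩
  rw [LB.homMk_f, map_sum, Finset.sum_eq_single J]
  · rw [coef_xI_mul_iota, if_pos rfl]
  · intro K _ hK
    rw [coef_xI_mul_iota, if_neg fun h => hK (compl_injective h)]
  · intro h
    exact absurd (Finset.mem_univ _) h

/-- maps into a line bundle are determined by the functional -/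
theorem eq_of_tc {F : Mat_ (LB lam)} {Y : LB lam} (g g' : F ⟶ EE Y)
    (h : ∀ {w : LB lam} (u : EE w ⟶ F), tc (u ≫ g) = tc (u ≫ g')) : g = g' := by
  funext i a
  apply LB.hom_ext
  apply ext_coef
  intro J
  have := h (bv F (Jᶜ, i))
  rw [tc_bv, tc_bv] at this
  change coef lam Jᶜᶜ _ = coef lam Jᶜᶜ _ at this
  rw [compl_compl] at this
  exact this

theorem tc_iota_mem {w Y : LB lam} (f : EE w ⟶ EE Y) :
    iota lam (tc f) ∈ piece lam (Y.z - w.z - LG.xs Finset.univ) :=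
  iota_coef_mem (LB.Hom.mem (cp f PUnit.unit)) _

/-- every `R`-linear map into a line bundle agrees with an `S`-linear one after applying the
functional -/
theorem exists_dual {F : Mat_ (LB lam)} {Y : LB lam} (φ : RLin F (EE Y)) :
    ∃ g : F ⟶ EE Y, ∀ {w : LB lam} (u : EE w ⟶ F), tc (u ≫ g) = tc (φ.f u) := by
  have h1 (i : F.ι) : ∃ g : F.X i ⟶ Y, ∀ J, coef lam Jᶜ (LB.Hom.f g) = tc (φ.f (bv F (J, i))) := by
    refine exists_hom _ fun J => ?_
    have := tc_iota_mem (φ.f (bv F (J, i)))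
    rwa [show Y.z - (bo F (J, i)).z - LG.xs Finset.univ =
      Y.z - (F.X i).z + LG.xs J - LG.xs Finset.univ from by simp only; abel] at this
  choose g hg using h1
  refine ⟨fun i _ => g i, fun {w} u => ?_⟩
  have key (p : BI F) : tc (bv F p ≫ (fun i _ => g i : F ⟶ EE Y)) = tc (φ.f (bv F p)) := by
    rw [tc_bv]
    exact hg _ _
  have tc_sum {ι : Type} (s : Finset ι) (v : ι → (EE w ⟶ EE Y)) :
      tc (∑ a ∈ s, v a) = ∑ a ∈ s, tc (v a) := by
    classical
    induction s using Finset.induction_on with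
    | empty => rw [Finset.sum_empty, Finset.sum_empty, tc_zero]
    | insert a s ha ih => rw [Finset.sum_insert ha, Finset.sum_insert ha, tc_add, ih]
  conv_lhs => rw [eq_sum_co u, Preadditive.sum_comp, tc_sum]
  rw [φ.eq_sum, tc_sum]
  refine Finset.sum_congr rfl fun p _ => ?_
  obtain ⟨r, hr⟩ := co_Rl u p
  rw [Category.assoc, tc_comp _ r hr.symm, tc_comp _ r hr.symm, key]

/-! ### Pseudo-inverses of the differential -/

/-- there is an `R`-linear `h : X^k → X^j` with `d h d = d` -/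
def PInv (X : CochainComplex (Mat_ (LB lam)) ℤ) (j k : ℤ) : Prop :=
  ∃ h : RLin (X.X k) (X.X j), ∀ {w : LB lam} (u : EE w ⟶ X.X j),
    h.f (u ≫ X.d j k) ≫ X.d j k = u ≫ X.d j k

theorem PInv.step {X : CochainComplex (Mat_ (LB lam)) ℤ} {i j l : ℤ} (hi : i + 1 = j)
    (hj : j + 1 = l) (h : PInv X j l) (hX : ∀ Y : LB lam, ExactAtFor (emb Y) X j) :
    PInv X i j := by
  obtain ⟨h, hh⟩ := h
  obtain ⟨ψ, hψ⟩ := RLin.exists_lift (h.pre (X.d j l)).oneSub (X.d i j) (fun {w} u => by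
    refine hX w i l hi hj (u - h.f (u ≫ X.d j l)) ?_
    rw [Preadditive.sub_comp, hh, sub_self])
  refine ⟨ψ, fun u => ?_⟩
  rw [hψ]
  change u ≫ X.d i j - h.f ((u ≫ X.d i j) ≫ X.d j l) = u ≫ X.d i j
  rw [Category.assoc, X.d_comp_d, comp_zero, h.zero, sub_zero]

theorem PInv.coexactAt {X : CochainComplex (Mat_ (LB lam)) ℤ} {j l : ℤ}
    (hj : j + 1 = l) (h : PInv X j l) (hX : ∀ Y : LB lam, ExactAtFor (emb Y) X j) (Y : LB lam) :
    CoexactAtFor X (emb Y) j := by
  intro i l' hi hl' f hf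
  obtain rfl : l = l' := hj.symm.trans hl'
  obtain ⟨h, hh⟩ := h
  obtain ⟨g, hg⟩ := exists_dual (h.post f)
  refine ⟨g, eq_of_tc _ _ fun {w} u => ?_⟩
  rw [← Category.assoc, hg]
  change tc (h.f (u ≫ X.d j l) ≫ f) = _
  obtain ⟨v, hv⟩ := hX w i l hi hl' (u - h.f (u ≫ X.d j l)) (by
    rw [Preadditive.sub_comp, hh, sub_self])
  have h1 : (u - h.f (u ≫ X.d j l)) ≫ f = 0 := by
    rw [← hv, Category.assoc, hf, comp_zero]
  rw [Preadditive.sub_comp, sub_eq_zero] at h1
  rw [h1]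

theorem PInv.of_isos {F G : Mat_ (LB lam)} (d : F ⟶ G) (h : RLin G F)
    (hh : ∀ {w : LB lam} (u : EE w ⟶ F), h.f (u ≫ d) ≫ d = u ≫ d)
    {X : CochainComplex (Mat_ (LB lam)) ℤ} {j l : ℤ} (a : F ≅ X.X j) (b : G ≅ X.X l)
    (hab : a.hom ≫ X.d j l = d ≫ b.hom) : PInv X j l := by
  refine ⟨(h.pre b.inv).post a.hom, fun {w} u => ?_⟩
  change (h.f ((u ≫ X.d j l) ≫ b.inv) ≫ a.hom) ≫ X.d j l = u ≫ X.d j l
  have h1 : X.d j l ≫ b.inv = a.inv ≫ d := by
    rw [Iso.comp_inv_eq, Category.assoc, ← hab, Iso.inv_hom_id_assoc]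
  have h2 : X.d j l = a.inv ≫ d ≫ b.hom := by rw [← hab, Iso.inv_hom_id_assoc]
  rw [Category.assoc, hab, Category.assoc, h1, ← Category.assoc u, ← Category.assoc, hh, h2]
  simp only [Category.assoc]

/-! ### The presentation of a vector bundle -/

section Pres

variable {M : (LB lam)ᵒᵖ ⥤ ModuleCat.{u} k} (hgr : Gen.IsGr M) {r : ℕ} {z : Fin r → LB lam}
  (m : ∀ j, M.obj (op (z j)))

/-- the free module on the basis -/
abbrev F0 (z : Fin r → LB lam) : Mat_ (LB lam) := ⟨Fin r, z⟩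

/-- the map `F₀ → M` -/
noncomputable def eps {w : LB lam} (u : EE w ⟶ F0 z) : M.obj (op w) :=
  ∑ j, M.map (cp u j).op (m j)

theorem Rl_add {y z : LB lam} {e f : y ⟶ z} (he : Rl e) (hf : Rl f) : Rl (e + f) :=
  add_mem he hf

theorem Rl_comp {x y z : LB lam} {e : x ⟶ y} {f : y ⟶ z} (he : Rl e) (hf : Rl f) : Rl (e ≫ f) :=
  mul_mem he hf

include hgr in
theorem eps_add {w : LB lam} (u v : EE w ⟶ F0 z) : eps m (u + v) = eps m u + eps m v := by
  unfold eps
  rw [← Finset.sum_add_distrib]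
  refine Finset.sum_congr rfl fun j _ => ?_
  rw [cp_add, hgr.1]
  rfl

theorem eps_comp {w w' : LB lam} (e : w' ⟶ w) (u : EE w ⟶ F0 z) :
    eps m (Em e ≫ u) = M.map e.op (eps m u) := by
  unfold eps
  rw [map_sum]
  refine Finset.sum_congr rfl fun j _ => ?_
  rw [cp_comp, op_comp, M.map_comp]
  rfl

include hgr in
theorem eps_smul {w : LB lam} (a : k) (u : EE w ⟶ F0 z) : eps m (a • u) = a • eps m u := by
  unfold eps
  rw [Finset.smul_sum]
  refine Finset.sum_congr rfl fun j _ => ?_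
  rw [cp_smul, hgr.2]
  rfl

variable (hm : ∀ (w : LB lam) (x : M.obj (op w)), ∃! f : ∀ j, w ⟶ z j,
  (∀ j, Rl (f j)) ∧ x = ∑ j, M.map (f j).op (m j))

/-- the `R`-linear section of `F₀ → M` -/
noncomputable def sig {w : LB lam} (x : M.obj (op w)) : EE w ⟶ F0 z :=
  fun _ j => (hm w x).choose j

theorem sig_Rl {w : LB lam} (x : M.obj (op w)) (j : Fin r) :
    Rl (cp (sig m hm x) j) := (hm w x).choose_spec.1.1 j

theorem eps_sig {w : LB lam} (x : M.obj (op w)) : eps m (sig m hm x) = x :=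
  (hm w x).choose_spec.1.2.symm

theorem sig_eps {w : LB lam} (u : EE w ⟶ F0 z) (hu : ∀ j : Fin r, Rl (cp u j)) :
    sig m hm (eps m u) = u := by
  have h := (hm w (eps m u)).choose_spec.2 (fun j => cp u j) ⟨hu, rfl⟩
  exact cp_ext fun j => (congrFun h j).symm

include hgr in
theorem sig_add {w : LB lam} (x y : M.obj (op w)) :
    sig m hm (x + y) = sig m hm x + sig m hm y := by
  conv_lhs => rw [← eps_sig m hm x, ← eps_sig m hm y, ← eps_add hgr m]
  exact sig_eps m hm _ fun j => Rl_add (sig_Rl m hm x j) (sig_Rl m hm y j)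

theorem sig_comp {w w' : LB lam} (e : w' ⟶ w) (he : Rl e) (x : M.obj (op w)) :
    sig m hm (M.map e.op x) = Em e ≫ sig m hm x := by
  conv_lhs => rw [← eps_sig m hm x, ← eps_comp]
  refine sig_eps m hm _ fun j => ?_
  rw [cp_comp]
  exact Rl_comp he (sig_Rl m hm x j)

include hgr in
theorem sig_zero {w : LB lam} : sig m hm (0 : M.obj (op w)) = 0 := by
  have := sig_add hgr m hm (0 : M.obj (op w)) 0
  rwa [add_zero, left_eq_add] at this

/-- `R`-linear projector -/
noncomputable def rho : RLin (F0 z) (F0 z) where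
  f u := sig m hm (eps m u)
  add u v := by rw [eps_add hgr, sig_add hgr]
  comp e he u := by rw [eps_comp, sig_comp m hm e he]

/-- the relations -/
abbrev F1 (z : Fin r → LB lam) : Mat_ (LB lam) := ⟨BI (F0 z), bo (F0 z)⟩

/-- the relation matrix -/
noncomputable def dd : F1 z ⟶ F0 z := fun p j =>
  cp (bv (F0 z) p - (rho hgr m hm).f (bv (F0 z) p)) j

theorem inc_dd (p : BI (F0 z)) : inc (F1 z) p ≫ dd hgr m hm =
    bv (F0 z) p - (rho hgr m hm).f (bv (F0 z) p) := by
  exact cp_ext fun j => inc_comp_apply (F := F1 z) p _ j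

/-- the `R`-linear map `F₀ → F₁` with `h d = 1 - ρ` -/
noncomputable def hh (z : Fin r → LB lam) : RLin (F0 z) (F1 z) := RLin.ofBasis fun p => inc (F1 z) p

theorem hh_dd {w : LB lam} (u : EE w ⟶ F0 z) :
    (hh z).f u ≫ dd hgr m hm = u - sig m hm (eps m u) :=
  RLin.ext_bv ((hh z).post (dd hgr m hm)) (rho hgr m hm).oneSub (fun p => by
    change (hh z).f (bv (F0 z) p) ≫ _ = _
    rw [hh, RLin.ofBasis_bv, inc_dd]
    rfl) u

theorem eps_dd {w : LB lam} (v : EE w ⟶ F1 z) : eps m (v ≫ dd hgr m hm) = 0 := by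
  have hsum {ι : Type} (s : Finset ι) (u : ι → (EE w ⟶ F0 z)) :
      eps m (∑ a ∈ s, u a) = ∑ a ∈ s, eps m (u a) := by
    classical
    induction s using Finset.induction_on with
    | empty =>
      rw [Finset.sum_empty, Finset.sum_empty]
      have := eps_add hgr m (w := w) 0 0
      rwa [add_zero, left_eq_add] at this
    | insert a s ha ih => rw [Finset.sum_insert ha, Finset.sum_insert ha, eps_add hgr, ih]
  conv_lhs => rw [eq_sum_inc v, Preadditive.sum_comp, hsum]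
  refine Finset.sum_eq_zero fun p _ => ?_
  rw [Category.assoc, inc_dd, eps_comp]
  have h : eps m (bv (F0 z) p - (rho hgr m hm).f (bv (F0 z) p)) = 0 := by
    have h1 := eps_add hgr m (bv (F0 z) p - (rho hgr m hm).f (bv (F0 z) p))
      ((rho hgr m hm).f (bv (F0 z) p))
    rw [sub_add_cancel] at h1
    change _ = _ + eps m (sig m hm (eps m (bv (F0 z) p))) at h1
    rw [eps_sig] at h1
    exact right_eq_add.1 h1 
  rw [h, map_zero]

theorem exact_F0 {w : LB lam} (u : EE w ⟶ F0 z) (hu : eps m u = 0) :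
    ∃ v : EE w ⟶ F1 z, v ≫ dd hgr m hm = u :=
  ⟨(hh z).f u, by rw [hh_dd, hu, sig_zero hgr, sub_zero]⟩

theorem hh_inv {w : LB lam} (v : EE w ⟶ F1 z) :
    (hh z).f (v ≫ dd hgr m hm) ≫ dd hgr m hm = v ≫ dd hgr m hm := by
  rw [hh_dd, eps_dd, sig_zero hgr, sub_zero]

end Pres

/-! ### The complex -/

theorem exists_complex (hl : Indep lam) (hn : 2 ≤ n) {F G : Mat_ (LB lam)} (d : F ⟶ G)
    (h : RLin G F) (hh : ∀ {w : LB lam} (u : EE w ⟶ F), h.f (u ≫ d) ≫ d = u ≫ d) :
    ∃ (X : CochainComplex (Mat_ (LB lam)) ℤ) (e₀ : G ≅ X.X (-1)) (e₁ : F ≅ X.X (-2)),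
      Ac X ∧ e₁.hom ≫ X.d (-2) (-1) = d ≫ e₀.hom := by
  have hrel : (ComplexShape.up ℤ).Rel (-2) (-1) := by simp
  have hne : (-2 : ℤ) ≠ -1 := by omega
  obtain ⟨X₁, φ, h1, -, -, hex⟩ := exists_glueLeft (V := Mat_ (LB lam)) (fun _ _ => True)
    (fun _ _ => True) (fun _ F G f _ => by
      obtain ⟨F', g, h1, h2, -⟩ := LB.exists_weakKernel f
      exact ⟨F', g, h1, h2, trivial, trivial⟩) (HomologicalComplex.double d hrel) (-2) trivial
  have i1 : IsIso (φ.f (-2)) := h1 _ (by omega)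
  have i2 : IsIso (φ.f (-1)) := h1 _ (by omega)
  let a : F ≅ X₁.X (-2) := (HomologicalComplex.doubleXIso₀ d hrel).symm ≪≫ asIso (φ.f (-2))
  let b : G ≅ X₁.X (-1) := (HomologicalComplex.doubleXIso₁ d hrel hne).symm ≪≫ asIso (φ.f (-1))
  have hab : a.hom ≫ X₁.d (-2) (-1) = d ≫ b.hom := by
    simp only [a, b, Iso.trans_hom, Iso.symm_hom, asIso_hom, Category.assoc]
    rw [φ.comm, HomologicalComplex.double_d d hrel hne]
    simp
  have hP : ∀ n : ℕ, PInv X₁ (-2 - n) (-1 - n) := by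
    intro n
    induction n with
    | zero => simpa using PInv.of_isos d h hh a b hab
    | succ n ih =>
      have h2 := PInv.step (i := -2 - (n + 1 : ℕ)) (j := -2 - n) (l := -1 - n)
        (by push_cast; ring) (by ring) ih (fun Y => hex _ _ (by omega))
      convert h2 using 1
      push_cast
      ring
  obtain ⟨X₂, ψ, g1, -, -, hco⟩ := exists_glueRight (V := Mat_ (LB lam)) (fun _ _ => True)
    (fun _ _ => True) (fun _ F G g _ => by
      obtain ⟨G', g', h1, h2, -⟩ := LB.exists_weakCokernel g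
      exact ⟨G', g', ⟨h1, h2⟩, trivial, trivial⟩) X₁ (-1) trivial
  have i3 : IsIso (ψ.f (-2)) := g1 _ (by omega)
  have i4 : IsIso (ψ.f (-1)) := g1 _ (by omega)
  refine ⟨X₂, b ≪≫ (asIso (ψ.f (-1))).symm, a ≪≫ (asIso (ψ.f (-2))).symm,
    ac_of_coexact hl hn fun Y => (coexactFor_iff _ _).2 fun j => ?_, ?_⟩
  · rcases lt_or_ge j (-1) with hj | hj
    · refine coexactAt_of_isIso ψ _ j (g1 j (by omega)) (g1 (j - 1) (by omega)) ?_
      obtain ⟨n, hn⟩ := Int.eq_ofNat_of_zero_le (show 0 ≤ -2 - j by omega)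
      have h3 := hP n
      rw [show (-2 : ℤ) - n = j by omega, show (-1 : ℤ) - n = j + 1 by omega] at h3
      exact h3.coexactAt rfl (fun Y => hex _ _ (by omega)) Y
    · exact hco _ j hj
  · simp only [Iso.trans_hom, Iso.symm_hom, asIso_inv, Category.assoc]
    have h4 : inv (ψ.f (-2)) ≫ X₂.d (-2) (-1) = X₁.d (-2) (-1) ≫ inv (ψ.f (-1)) := by
      rw [IsIso.inv_comp_eq, ← Category.assoc, ψ.comm, Category.assoc, IsIso.hom_inv_id,
        Category.comp_id]
    rw [h4, ← Category.assoc, hab, Category.assoc]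

/-! ### The isomorphism -/

section Final

variable {M : (LB lam)ᵒᵖ ⥤ ModuleCat.{u} k} (hgr : Gen.IsGr M) {r : ℕ} {z : Fin r → LB lam}
  (m : ∀ j, M.obj (op (z j))) (hm : ∀ (w : LB lam) (x : M.obj (op w)), ∃! f : ∀ j, w ⟶ z j,
  (∀ j, Rl (f j)) ∧ x = ∑ j, M.map (f j).op (m j))

include hgr in
theorem sig_smul {w : LB lam} (a : k) (x : M.obj (op w)) :
    sig m hm (a • x) = a • sig m hm x := by
  conv_lhs => rw [← eps_sig m hm x, ← eps_smul hgr m]
  exact sig_eps m hm _ fun j => Subalgebra.smul_mem _ (sig_Rl m hm x j) a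

variable {X : CochainComplex (Mat_ (LB lam)) ℤ} (e₀ : F0 z ≅ X.X (-1)) (e₁ : F1 z ≅ X.X (-2))
  (he : e₁.hom ≫ X.d (-2) (-1) = dd hgr m hm ≫ e₀.hom)

include he in
theorem kill {w : LB lam} (u : EE w ⟶ F0 z) (hu : eps m u = 0) :
    (u ≫ e₀.hom) ≫ X.d (-1) 0 = 0 := by
  obtain ⟨v, rfl⟩ := exact_F0 hgr m hm u hu
  rw [Category.assoc v, ← he]
  simp

/-- the map `M → Z⁰` -/
noncomputable def zet (w : LB lam) : M.obj (op w) →ₗ[k] cyc k X w where
  toFun x := ⟨(sig m hm x ≫ e₀.hom) ≫ X.d (-1) 0, by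
    rw [mem_cyc, Category.assoc, X.d_comp_d, comp_zero]⟩
  map_add' x y := Subtype.ext (by
    simp only [sig_add hgr, Preadditive.add_comp, Submodule.coe_add])
  map_smul' a x := Subtype.ext (by
    simp only [sig_smul hgr, Linear.smul_comp, Submodule.coe_smul, RingHom.id_apply])

include he in
theorem zet_bij (hX : Ac X) (w : LB lam) : Function.Bijective (zet hgr m hm e₀ w) := by
  constructor
  · rw [injective_iff_map_eq_zero]
    intro x hx
    have hx' : (sig m hm x ≫ e₀.hom) ≫ X.d (-1) 0 = 0 := congrArg Subtype.val hx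
    obtain ⟨v, hv⟩ := hX w (-2) (-1) 0 (by omega) (by omega) _ hx'
    have h1 : (v ≫ e₁.inv) ≫ dd hgr m hm = sig m hm x := by
      rw [← cancel_mono e₀.hom, Category.assoc, ← he, ← hv]
      simp
    rw [← eps_sig m hm x, ← h1, eps_dd]
  · rintro ⟨u, hu⟩
    obtain ⟨v, hv⟩ := hX w (-1) 0 1 (by omega) (by omega) u (mem_cyc.1 hu)
    refine ⟨eps m (v ≫ e₀.inv), Subtype.ext ?_⟩
    change (sig m hm (eps m (v ≫ e₀.inv)) ≫ e₀.hom) ≫ X.d (-1) 0 = u
    have h1 := kill hgr m hm e₀ e₁ he (sig m hm (eps m (v ≫ e₀.inv)) - v ≫ e₀.inv) (by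
      have h2 := eps_add hgr m (sig m hm (eps m (v ≫ e₀.inv)) - v ≫ e₀.inv) (v ≫ e₀.inv)
      rw [sub_add_cancel, eps_sig] at h2
      exact right_eq_add.1 h2)
    rw [Preadditive.sub_comp, Preadditive.sub_comp, sub_eq_zero] at h1
    rw [h1, ← hv]
    simp

include he in
theorem zet_nat {w w' : LB lam} (e : w' ⟶ w) (x : M.obj (op w)) :
    zet hgr m hm e₀ w' (M.map e.op x) = cycMap X e (zet hgr m hm e₀ w x) := by
  apply Subtype.ext
  change (sig m hm (M.map e.op x) ≫ e₀.hom) ≫ X.d (-1) 0 =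
    Em e ≫ (sig m hm x ≫ e₀.hom) ≫ X.d (-1) 0
  have h1 := kill hgr m hm e₀ e₁ he (sig m hm (M.map e.op x) - Em e ≫ sig m hm x) (by
    have h2 := eps_add hgr m (sig m hm (M.map e.op x) - Em e ≫ sig m hm x) (Em e ≫ sig m hm x)
    rw [sub_add_cancel, eps_sig, eps_comp, eps_sig] at h2
    exact right_eq_add.1 h2)
  rw [Preadditive.sub_comp, Preadditive.sub_comp, sub_eq_zero] at h1
  rw [h1]
  simp only [Category.assoc]

/-- `M ≅ Z⁰` -/
noncomputable def zetIso (hX : Ac X) : M ≅ Zobj k X :=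
  NatIso.ofComponents (fun w => (LinearEquiv.ofBijective (zet hgr m hm e₀ w.unop)
    (zet_bij hgr m hm e₀ e₁ he hX w.unop)).toModuleIso) (by
    intro w w' f
    refine ModuleCat.hom_ext (LinearMap.ext fun x => ?_)
    exact zet_nat hgr m hm e₀ e₁ he f.unop x)

end Final

end LitD

open LitD in
/-- Every vector bundle is the module of cycles of an acyclic complex of finite direct sums of
line bundles. -/
theorem exists_Z_iso (hl : Indep lam) (hn : 2 ≤ n) (M : (LB lam)ᵒᵖ ⥤ ModuleCat.{u} k)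
    (hM : Gen.IsVect Rlam M) :
    ∃ K : CochainComplex (Mat_ (LB lam)) ℤ, Ac K ∧ Nonempty (Zobj k K ≅ M) := by
  obtain ⟨hgr, r, z, m, hm⟩ := hM
  obtain ⟨X, e₀, e₁, hX, he⟩ := exists_complex hl hn (dd hgr m hm) (hh z)
    (fun v => hh_inv hgr m hm v)
  exact ⟨X, hX, ⟨(zetIso hgr m hm e₀ e₁ he hX).symm⟩⟩

end Lens
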