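import Pool.Agent.Lens.Lit3a

/-!
# Cycles of degreewise split exact sequences; cycles of a shifted complex

* `cyc_split_exact`: for a degreewise split short exact sequence `K → L → Q` with `K` exact the
  cycles `0 → Z⁰ K → Z⁰ L → Z⁰ Q → 0` are exact at every line bundle.
* `Yobj F`: the functor `Hom (-, F)`; `0 → Z⁰ K → Hom (-, K⁰) → Z⁰ (K⟦1⟧) → 0` is exact if `K` is
  exact.
-/

open CategoryTheory CategoryTheory.Limits CategoryTheory.Pretriangulated Opposite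

namespace Lens

universe w v u u'

section

variable {V : Type*} [Category V] [Preadditive V]

/-- degreewise split short exact sequences of complexes, in elementary form -/
structure SplitSeq {K L Q : CochainComplex V ℤ} (f : K ⟶ L) (g : L ⟶ Q) where
  r : ∀ n, L.X n ⟶ K.X n
  s : ∀ n, Q.X n ⟶ L.X n
  fr : ∀ n, f.f n ≫ r n = 𝟙 _
  sg : ∀ n, s n ≫ g.f n = 𝟙 _
  id : ∀ n, r n ≫ f.f n + g.f n ≫ s n = 𝟙 _
  fg : ∀ n, f.f n ≫ g.f n = 0

/-- from Mathlib's form -/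
def SplitSeq.of (S : ShortComplex (CochainComplex V ℤ))
    (σ : ∀ n : ℤ, (S.map (HomologicalComplex.eval V _ n)).Splitting) : SplitSeq S.f S.g where
  r n := (σ n).r
  s n := (σ n).s
  fr n := (σ n).f_r
  sg n := (σ n).s_g
  id n := (σ n).id
  fg n := by
    rw [← HomologicalComplex.comp_f, S.zero]
    rfl

variable {K L Q : CochainComplex V ℤ} {f : K ⟶ L} {g : L ⟶ Q} (σ : SplitSeq f g)

namespace SplitSeq

include σ

theorem inj (n : ℤ) {A : V} {u v : A ⟶ K.X n} (h : u ≫ f.f n = v ≫ f.f n) : u = v := by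
  have := congrArg (· ≫ σ.r n) h
  simpa only [Category.assoc, σ.fr, Category.comp_id] using this

theorem lift_f (n : ℤ) {A : V} (v : A ⟶ L.X n) (h : v ≫ g.f n = 0) :
    ∃ u : A ⟶ K.X n, u ≫ f.f n = v := by
  refine ⟨v ≫ σ.r n, ?_⟩
  have := congrArg (v ≫ ·) (σ.id n)
  simp only [Preadditive.comp_add, Category.comp_id] at this
  rw [← Category.assoc, ← Category.assoc, h, zero_comp, add_zero] at this
  exact this

theorem lift_g (n : ℤ) {A : V} (q : A ⟶ Q.X n) : ∃ u : A ⟶ L.X n, u ≫ g.f n = q :=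
  ⟨q ≫ σ.s n, by rw [Category.assoc, σ.sg, Category.comp_id]⟩

/-- cycles in the kernel of `g` come from cycles -/
theorem cyc_lift_f (n m : ℤ) {A : V} (v : A ⟶ L.X n) (h0 : v ≫ L.d n m = 0)
    (h : v ≫ g.f n = 0) : ∃ u : A ⟶ K.X n, u ≫ K.d n m = 0 ∧ u ≫ f.f n = v := by
  obtain ⟨u, hu⟩ := σ.lift_f n v h
  refine ⟨u, σ.inj m ?_, hu⟩
  rw [zero_comp, Category.assoc, ← f.comm, ← Category.assoc, hu, h0]

/-- cycles lift to cycles -/
theorem cyc_lift_g {A : V} (hK : ExactFor A K) (q : A ⟶ Q.X 0) (hq : q ≫ Q.d 0 1 = 0) :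
    ∃ v : A ⟶ L.X 0, v ≫ L.d 0 1 = 0 ∧ v ≫ g.f 0 = q := by
  obtain ⟨u, hu⟩ := σ.lift_g 0 q
  obtain ⟨a, ha⟩ := σ.lift_f 1 (u ≫ L.d 0 1) (by
    rw [Category.assoc, ← g.comm, ← Category.assoc, hu, hq])
  obtain ⟨b, hb⟩ := hK 0 1 2 rfl rfl a (by
    refine σ.inj 2 ?_
    rw [zero_comp, Category.assoc, ← f.comm, ← Category.assoc, ha, Category.assoc,
      HomologicalComplex.d_comp_d, comp_zero])
  refine ⟨u - b ≫ f.f 0, ?_, ?_⟩
  · rw [Preadditive.sub_comp, Category.assoc, f.comm, ← Category.assoc, hb, ha, sub_self]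
  · rw [Preadditive.sub_comp, Category.assoc, σ.fg, comp_zero, sub_zero, hu]

end SplitSeq

end

section

variable {k : Type v} [Field k] {𝓛 : Type u} [Category.{v} 𝓛] [Preadditive 𝓛] [Linear k 𝓛]

/-- cycles of a degreewise split exact sequence -/
theorem SplitSeq.cyc_exact {K L Q : CochainComplex (Mat_ 𝓛) ℤ} {f : K ⟶ L} {g : L ⟶ Q}
    (σ : SplitSeq f g) (w : 𝓛) (hK : ExactFor (EE w) K) :
    Function.Injective ((Zmap k f).app (op w)) ∧
      Function.Exact ((Zmap k f).app (op w)) ((Zmap k g).app (op w)) ∧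
      Function.Surjective ((Zmap k g).app (op w)) := by
  refine ⟨fun u v h => Subtype.ext (σ.inj 0 (congrArg Subtype.val h)), fun v => ⟨fun h => ?_, ?_⟩,
    fun q => ?_⟩
  · obtain ⟨u, hu, hu'⟩ := σ.cyc_lift_f 0 1 v.1 (mem_cyc.1 v.2) (congrArg Subtype.val h)
    exact ⟨⟨u, mem_cyc.2 hu⟩, Subtype.ext hu'⟩
  · rintro ⟨u, rfl⟩
    refine Subtype.ext ?_
    change (u.1 ≫ f.f 0) ≫ g.f 0 = 0
    rw [Category.assoc, σ.fg, comp_zero]
  · obtain ⟨v, hv, hv'⟩ := σ.cyc_lift_g hK q.1 (mem_cyc.1 q.2)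
    exact ⟨⟨v, mem_cyc.2 hv⟩, Subtype.ext hv'⟩

/-- cycles of a degreewise split exact sequence, Mathlib's form -/
theorem cyc_split_exact (S : ShortComplex (CochainComplex (Mat_ 𝓛) ℤ))
    (σ : ∀ n : ℤ, (S.map (HomologicalComplex.eval (Mat_ 𝓛) _ n)).Splitting) (w : 𝓛)
    (hK : ExactFor (EE w) S.X₁) :
    Function.Injective ((Zmap k S.f).app (op w)) ∧
      Function.Exact ((Zmap k S.f).app (op w)) ((Zmap k S.g).app (op w)) ∧
      Function.Surjective ((Zmap k S.g).app (op w)) :=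
  (SplitSeq.of S σ).cyc_exact w hK

variable (k) in
/-- the functor `Hom (-, F)` -/
noncomputable def Yobj (F : Mat_ 𝓛) : 𝓛ᵒᵖ ⥤ ModuleCat.{v} k where
  obj w := ModuleCat.of k (EE w.unop ⟶ F)
  map f := ModuleCat.ofHom (Linear.leftComp k F (Em f.unop))
  map_id w := by
    refine ModuleCat.hom_ext (LinearMap.ext fun u => ?_)
    change Em (𝟙 w.unop) ≫ u = u
    rw [Em, CategoryTheory.Functor.map_id, Category.id_comp]
  map_comp f g := by
    refine ModuleCat.hom_ext (LinearMap.ext fun u => ?_)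
    change Em (g.unop ≫ f.unop) ≫ u = Em g.unop ≫ Em f.unop ≫ u
    rw [Em, Em, Em, CategoryTheory.Functor.map_comp, Category.assoc]

theorem Yobj_map_apply (F : Mat_ 𝓛) {w w' : 𝓛} (f : w' ⟶ w) (u : EE w ⟶ F) :
    (Yobj k F).map f.op u = Em f ≫ u := rfl

variable (k) in
/-- the inclusion of the cycles -/
noncomputable def cycInc (K : CochainComplex (Mat_ 𝓛) ℤ) : Zobj k K ⟶ Yobj k (K.X 0) where
  app w := ModuleCat.ofHom (cyc k K w.unop).subtype
  naturality _ _ _ := rfl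

theorem cycInc_app (K : CochainComplex (Mat_ 𝓛) ℤ) (w : 𝓛) (u : cyc k K w) :
    (cycInc k K).app (op w) u = u.1 := rfl

theorem mem_cyc_shift {K : CochainComplex (Mat_ 𝓛) ℤ} {w : 𝓛} {u : EE w ⟶ K.X 1} :
    u ∈ cyc k (K⟦(1 : ℤ)⟧) w ↔ u ≫ K.d 1 2 = 0 := by
  refine mem_cyc.trans ?_
  change u ≫ ((1 : ℤ).negOnePow • K.d 1 2) = 0 ↔ _
  rw [Linear.comp_units_smul, Int.negOnePow_one, Units.neg_smul, one_smul, neg_eq_zero]

variable (k) in
/-- the differential `K⁰ → Z¹ K`, with values in the cycles of the shifted complex -/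
noncomputable def cycD (K : CochainComplex (Mat_ 𝓛) ℤ) :
    Yobj k (K.X 0) ⟶ Zobj k (K⟦(1 : ℤ)⟧) where
  app w := ModuleCat.ofHom
    { toFun := fun u => (⟨(u ≫ K.d 0 1 : EE w.unop ⟶ K.X 1), mem_cyc_shift.2 (by
        rw [Category.assoc, HomologicalComplex.d_comp_d, comp_zero])⟩ :
          cyc k (K⟦(1 : ℤ)⟧) w.unop)
      map_add' := fun u v => Subtype.ext (Preadditive.add_comp _ _ _ _ _ _)
      map_smul' := fun a u => Subtype.ext (Linear.smul_comp _ _ _ _ _ _) }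
  naturality w w' f := by
    refine ModuleCat.hom_ext (LinearMap.ext fun u => Subtype.ext ?_)
    change (Em f.unop ≫ u) ≫ K.d 0 1 = Em f.unop ≫ (u ≫ K.d 0 1)
    rw [Category.assoc]

theorem cycD_coe (K : CochainComplex (Mat_ 𝓛) ℤ) (w : 𝓛) (u : EE w ⟶ K.X 0) :
    Subtype.val (p := fun x => x ∈ cyc k (K⟦(1 : ℤ)⟧) w) ((cycD k K).app (op w) u) =
      u ≫ K.d 0 1 := rfl

/-- `0 → Z⁰ K → Hom (-, K⁰) → Z⁰ (K⟦1⟧) → 0` is exact -/
theorem cyc_shift_exact (K : CochainComplex (Mat_ 𝓛) ℤ) (w : 𝓛) (hK : ExactFor (EE w) K) :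
    Function.Injective ((cycInc k K).app (op w)) ∧
      Function.Exact ((cycInc k K).app (op w)) ((cycD k K).app (op w)) ∧
      Function.Surjective ((cycD k K).app (op w)) := by
  refine ⟨fun u v h => Subtype.ext h, fun v => ⟨fun h => ?_, ?_⟩, fun q => ?_⟩
  · exact ⟨⟨v, mem_cyc.2 (congrArg Subtype.val h)⟩, rfl⟩
  · rintro ⟨u, rfl⟩
    exact Subtype.ext (mem_cyc.1 u.2)
  · obtain ⟨b, hb⟩ := hK 0 1 2 rfl rfl q.1 (mem_cyc_shift.1 q.2)
    exact ⟨b, Subtype.ext hb⟩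

end

end Lens
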