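import Mathlib
import Pool.Agent.Lens.Lit3b
import Pool.Agent.Lens.Rlam
import Pool.Agent.Lens.Tac

/-!
# The functor `q₀` from vector bundles to acyclic complexes
-/

open CategoryTheory CategoryTheory.Limits CategoryTheory.Preadditive Opposite

namespace Lens

universe u

variable {k : Type u} [Field k] {n : ℕ} {lam : Fin n → Fin 2 → k}

/-- the data needed for the functor `q₀`: complete resolutions of vector bundles -/
structure Q0 (lam : Fin n → Fin 2 → k) where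
  coex : ∀ {K : CochainComplex (Mat_ (LB lam)) ℤ}, Ac K → ∀ w : LB lam, CoexactFor K (EE w)
  vect : ∀ {K : CochainComplex (Mat_ (LB lam)) ℤ}, Ac K →
    Gen.IsVect (k := k) (Rlam (lam := lam)) (Zobj k K)
  /-- complete resolution -/
  K : VectL lam → CochainComplex (Mat_ (LB lam)) ℤ
  ac : ∀ M, Ac (K M)
  /-- the identification of the cycles -/
  e : ∀ M, Zobj k (K M) ≅ M.obj

namespace Q0

variable (D : Q0 lam)

/-- the image of an acyclic complex in `Tac` -/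
noncomputable def tac {K : CochainComplex (Mat_ (LB lam)) ℤ} (hK : Ac K) : Tac lam :=
  ⟨(HomotopyCategory.quotient _ _).obj K, hK⟩

/-- the morphism of `Tac` given by a chain map -/
noncomputable def tmap {K L : CochainComplex (Mat_ (LB lam)) ℤ} (hK : Ac K) (hL : Ac L)
    (φ : K ⟶ L) : tac hK ⟶ tac hL :=
  ObjectProperty.homMk ((HomotopyCategory.quotient _ _).map φ)

theorem tmap_surjective {K L : CochainComplex (Mat_ (LB lam)) ℤ} (hK : Ac K) (hL : Ac L)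
    (f : tac hK ⟶ tac hL) : ∃ φ, tmap hK hL φ = f := by
  obtain ⟨φ, hφ⟩ := (HomotopyCategory.quotient _ _).map_surjective f.hom
  exact ⟨φ, ObjectProperty.hom_ext _ hφ⟩

theorem tmap_eq_zero_iff {K L : CochainComplex (Mat_ (LB lam)) ℤ} (hK : Ac K) (hL : Ac L)
    (φ : K ⟶ L) : tmap hK hL φ = 0 ↔ Nonempty (Homotopy φ 0) := by
  constructor
  · intro h
    have h1 : (HomotopyCategory.quotient _ _).map φ = 0 := congrArg (fun f => f.hom) h
    rw [← Functor.map_zero (HomotopyCategory.quotient (Mat_ (LB lam)) (ComplexShape.up ℤ)) K L]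
      at h1
    exact ⟨HomotopyCategory.homotopyOfEq _ _ h1⟩
  · rintro ⟨h⟩
    refine ObjectProperty.hom_ext _ ?_
    change (HomotopyCategory.quotient _ _).map φ = 0
    rw [← Functor.map_zero (HomotopyCategory.quotient (Mat_ (LB lam)) (ComplexShape.up ℤ)) K L]
    exact HomotopyCategory.eq_of_homotopy _ _ h

theorem tmap_sub {K L : CochainComplex (Mat_ (LB lam)) ℤ} (hK : Ac K) (hL : Ac L)
    (φ ψ : K ⟶ L) : tmap hK hL (φ - ψ) = tmap hK hL φ - tmap hK hL ψ := by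
  refine ObjectProperty.hom_ext _ ?_
  exact (HomotopyCategory.quotient (Mat_ (LB lam)) (ComplexShape.up ℤ)).map_sub

theorem tmap_add {K L : CochainComplex (Mat_ (LB lam)) ℤ} (hK : Ac K) (hL : Ac L)
    (φ ψ : K ⟶ L) : tmap hK hL (φ + ψ) = tmap hK hL φ + tmap hK hL ψ := by
  refine ObjectProperty.hom_ext _ ?_
  exact (HomotopyCategory.quotient (Mat_ (LB lam)) (ComplexShape.up ℤ)).map_add

theorem tmap_smul {K L : CochainComplex (Mat_ (LB lam)) ℤ} (hK : Ac K) (hL : Ac L)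
    (a : k) (φ : K ⟶ L) : tmap hK hL (a • φ) = a • tmap hK hL φ := by
  refine ObjectProperty.hom_ext _ ?_
  exact (HomotopyCategory.quotient (Mat_ (LB lam)) (ComplexShape.up ℤ)).map_smul a φ

theorem tmap_comp {K L M : CochainComplex (Mat_ (LB lam)) ℤ} (hK : Ac K) (hL : Ac L) (hM : Ac M)
    (φ : K ⟶ L) (ψ : L ⟶ M) : tmap hK hM (φ ≫ ψ) = tmap hK hL φ ≫ tmap hL hM ψ := by
  refine ObjectProperty.hom_ext _ ?_
  exact (HomotopyCategory.quotient (Mat_ (LB lam)) (ComplexShape.up ℤ)).map_comp φ ψ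

theorem tmap_id {K : CochainComplex (Mat_ (LB lam)) ℤ} (hK : Ac K) :
    tmap hK hK (𝟙 K) = 𝟙 _ := by
  refine ObjectProperty.hom_ext _ ?_
  exact (HomotopyCategory.quotient (Mat_ (LB lam)) (ComplexShape.up ℤ)).map_id K

include D in
theorem tmap_eq_of_Zmap {K L : CochainComplex (Mat_ (LB lam)) ℤ} (hK : Ac K) (hL : Ac L)
    {φ ψ : K ⟶ L} (h : Zmap k φ = Zmap k ψ) : tmap hK hL φ = tmap hK hL ψ := by
  rw [← sub_eq_zero, ← tmap_sub, tmap_eq_zero_iff]
  refine homotopy_of_Zmap_eq_zero (k := k) (D.coex hK) (fun w => hL w) _ ?_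
  rw [Zmap_eq_iff']
  intro w u
  have h1 := (Zmap_eq_iff' (k := k) _ φ).1 h w u
  have h2 : (φ - ψ).f 0 = φ.f 0 - ψ.f 0 := rfl
  rw [h2, Preadditive.comp_sub, ← h1]
  change 0 = u.1 ≫ ψ.f 0 - u.1 ≫ ψ.f 0
  rw [sub_self]

theorem exists_lift {M N : VectL lam} (f : M ⟶ N) :
    ∃ φ : D.K M ⟶ D.K N, Zmap k φ = (D.e M).hom ≫ f.hom ≫ (D.e N).inv :=
  Zmap_surjective (fun w => D.ac M w) (D.coex (D.ac M)) (fun w => D.ac N w) _

/-- the functor `q₀` -/
noncomputable def q : VectL lam ⥤ Tac lam where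
  obj M := tac (D.ac M)
  map {M N} f := tmap (D.ac M) (D.ac N) (D.exists_lift f).choose
  map_id M := by
    rw [← tmap_id]
    refine D.tmap_eq_of_Zmap _ _ ?_
    rw [(D.exists_lift (𝟙 M)).choose_spec]
    change (D.e M).hom ≫ 𝟙 _ ≫ (D.e M).inv = (Zf k (LB lam)).map (𝟙 _)
    rw [CategoryTheory.Functor.map_id, Category.id_comp, Iso.hom_inv_id]
    rfl
  map_comp {M N P} f g := by
    rw [← tmap_comp]
    refine D.tmap_eq_of_Zmap _ _ ?_
    have h1 : Zmap k ((D.exists_lift f).choose ≫ (D.exists_lift g).choose) =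
        Zmap k (D.exists_lift f).choose ≫ Zmap k (D.exists_lift g).choose :=
      (Zf k (LB lam)).map_comp _ _
    rw [h1, (D.exists_lift f).choose_spec, (D.exists_lift g).choose_spec,
      (D.exists_lift (f ≫ g)).choose_spec]
    simp

/-- the morphism `q₀ f` in terms of any lift -/
theorem q_map_eq {M N : VectL lam} (f : M ⟶ N) (φ : D.K M ⟶ D.K N)
    (h : Zmap k φ = (D.e M).hom ≫ f.hom ≫ (D.e N).inv) :
    D.q.map f = tmap (D.ac M) (D.ac N) φ :=
  D.tmap_eq_of_Zmap _ _ ((D.exists_lift f).choose_spec.trans h.symm)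

theorem Zmap_add' {K L : CochainComplex (Mat_ (LB lam)) ℤ} (φ ψ : K ⟶ L) :
    Zmap k (φ + ψ) = Zmap k φ + Zmap k ψ := by
  rw [Zmap_eq_iff']
  intro w u
  exact (Preadditive.comp_add _ _ _ u.1 (φ.f 0) (ψ.f 0)).symm

theorem Zmap_smul' {K L : CochainComplex (Mat_ (LB lam)) ℤ} (a : k) (φ : K ⟶ L) :
    Zmap k (a • φ) = a • Zmap k φ := by
  rw [Zmap_eq_iff']
  intro w u
  exact (Linear.comp_smul _ _ _ u.1 a (φ.f 0)).symm

theorem q_map_add {M N : VectL lam} (f g : M ⟶ N) :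
    D.q.map (f + g) = D.q.map f + D.q.map g := by
  obtain ⟨φ, hφ⟩ := D.exists_lift f
  obtain ⟨ψ, hψ⟩ := D.exists_lift g
  have h1 : D.q.map (f + g) = tmap (D.ac M) (D.ac N) (φ + ψ) := by
    refine D.q_map_eq _ _ ?_
    rw [Zmap_add', hφ, hψ]
    change _ = (D.e M).hom ≫ (f.hom + g.hom) ≫ (D.e N).inv
    simp
  rw [h1, D.q_map_eq f φ hφ, D.q_map_eq g ψ hψ]
  exact tmap_add _ _ _ _

theorem q_map_smul {M N : VectL lam} (a : k) (f : M ⟶ N) :
    D.q.map (a • f) = a • D.q.map f := by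
  obtain ⟨φ, hφ⟩ := D.exists_lift f
  have h1 : D.q.map (a • f) = tmap (D.ac M) (D.ac N) (a • φ) := by
    refine D.q_map_eq _ _ ?_
    rw [Zmap_smul', hφ]
    change _ = (D.e M).hom ≫ (a • f.hom) ≫ (D.e N).inv
    simp
  rw [h1, D.q_map_eq f φ hφ]
  exact tmap_smul _ _ _ _

theorem q_full {M N : VectL lam} (g : D.q.obj M ⟶ D.q.obj N) : ∃ f : M ⟶ N, D.q.map f = g := by
  obtain ⟨φ, rfl⟩ := tmap_surjective (D.ac M) (D.ac N) g
  refine ⟨ObjectProperty.homMk ((D.e M).inv ≫ Zmap k φ ≫ (D.e N).hom), D.q_map_eq _ _ ?_⟩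
  change _ = (D.e M).hom ≫ ((D.e M).inv ≫ Zmap k φ ≫ (D.e N).hom) ≫ (D.e N).inv
  simp

theorem q_map_eq_zero_iff {M N : VectL lam} (f : M ⟶ N) :
    D.q.map f = 0 ↔ Gen.FactorsLB f.hom := by
  obtain ⟨φ, hφ⟩ := D.exists_lift f
  rw [D.q_map_eq f φ hφ]
  refine (tmap_eq_zero_iff _ _ φ).trans ?_
  constructor
  · rintro ⟨h⟩
    obtain ⟨r, z, a, b, hab⟩ := factorsLB_of_homotopy (k := k) φ h
    refine ⟨r, z, fun j => (D.e M).inv ≫ a j, fun j => b j ≫ (D.e N).hom, ?_⟩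
    have h1 : f.hom = (D.e M).inv ≫ Zmap k φ ≫ (D.e N).hom := by rw [hφ]; simp
    rw [h1, hab]
    simp [Preadditive.sum_comp, Preadditive.comp_sum]
  · rintro ⟨r, z, a, b, hab⟩
    refine homotopy_of_factorsLB (k := k) (fun w => D.ac M w) (D.coex (D.ac M))
      (fun w => D.ac N w) φ
      ⟨r, z, fun j => (D.e M).hom ≫ a j, fun j => b j ≫ (D.e N).inv, ?_⟩
    rw [hφ, hab]
    simp [Preadditive.sum_comp, Preadditive.comp_sum]

include D in
/-- isomorphic cycles give isomorphic complexes -/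
theorem exists_iso {K L : CochainComplex (Mat_ (LB lam)) ℤ} (hK : Ac K) (hL : Ac L)
    (e : Zobj k K ≅ Zobj k L) : ∃ f : tac hK ≅ tac hL, ∃ φ, Zmap k φ = e.hom ∧
      f.hom = tmap hK hL φ := by
  obtain ⟨φ, hφ⟩ := Zmap_surjective (fun w => hK w) (D.coex hK) (fun w => hL w) e.hom
  obtain ⟨ψ, hψ⟩ := Zmap_surjective (fun w => hL w) (D.coex hL) (fun w => hK w) e.inv
  refine ⟨⟨tmap hK hL φ, tmap hL hK ψ, ?_, ?_⟩, φ, hφ, rfl⟩
  · rw [← tmap_comp, ← tmap_id]
    refine D.tmap_eq_of_Zmap _ _ ?_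
    change (Zf k (LB lam)).map (φ ≫ ψ) = (Zf k (LB lam)).map (𝟙 _)
    rw [CategoryTheory.Functor.map_comp, CategoryTheory.Functor.map_id]
    change Zmap k φ ≫ Zmap k ψ = _
    rw [hφ, hψ, Iso.hom_inv_id]
    rfl
  · rw [← tmap_comp, ← tmap_id]
    refine D.tmap_eq_of_Zmap _ _ ?_
    change (Zf k (LB lam)).map (ψ ≫ φ) = (Zf k (LB lam)).map (𝟙 _)
    rw [CategoryTheory.Functor.map_comp, CategoryTheory.Functor.map_id]
    change Zmap k ψ ≫ Zmap k φ = _
    rw [hφ, hψ, Iso.inv_hom_id]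
    rfl

/-- the vector bundle of cycles -/
noncomputable def Zv {K : CochainComplex (Mat_ (LB lam)) ℤ} (hK : Ac K) : VectL lam :=
  ⟨Zobj k K, D.vect hK⟩

theorem q_surj (Y : Tac lam) : ∃ M : VectL lam, Nonempty (D.q.obj M ≅ Y) := by
  have hY : Ac Y.obj.as := Y.property
  obtain ⟨f, -⟩ := D.exists_iso (D.ac (D.Zv hY)) hY (D.e (D.Zv hY))
  exact ⟨D.Zv hY, ⟨f⟩⟩

/-- `q₀` is a stable model as soon as it sends exact sequences to triangles -/
theorem q_isStableModel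
    (h : ∀ {M₁ M₂ M₃ : VectL lam} (f : M₁ ⟶ M₂) (g : M₂ ⟶ M₃), Gen.IsExact f g →
      ∃ h : D.q.obj M₃ ⟶ (D.q.obj M₁)⟦(1 : ℤ)⟧,
        Pretriangulated.Triangle.mk (D.q.map f) (D.q.map g) h ∈ Pretriangulated.distinguishedTriangles) :
    Gen.IsStableModel D.q where
  surj := D.q_surj
  full := D.q_full
  map_add := D.q_map_add
  map_smul := D.q_map_smul
  map_eq_zero_iff := D.q_map_eq_zero_iff
  triangle := h

end Q0

end Lens
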