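import Mathlib
import Pool.Agent.Lens.Lit3a

/-!
# Short exact sequences of cycles and mapping cones

Let `K`, `K'` be exact complexes and `0 → Z K → M → Z (K'⟦1⟧) → 0` an exact sequence of graded
modules. Then `M` is isomorphic, as an extension, to the cycles of the mapping cone of a chain map
`φ : K' ⟶ K`.
-/

open CategoryTheory CategoryTheory.Limits CategoryTheory.Pretriangulated Opposite
open CochainComplex CochainComplex.HomComplex

namespace Lens

universe v u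

namespace LitT

variable {k : Type v} [Field k] {𝓛 : Type u} [Category.{v} 𝓛] [Preadditive 𝓛] [Linear k 𝓛]

/-! ### maps out of a finite sum of line bundles -/

/-- the inclusion of the summand `i` of `F` -/
noncomputable def inc (F : Mat_ 𝓛) (i : F.ι) : EE (F.X i) ⟶ F := by
  classical
  exact fun _ j => if h : i = j then eqToHom (congr_arg F.X h) else 0

/-- the coordinate `i` of a map `E z ⟶ F` -/
def co {F : Mat_ 𝓛} {z : 𝓛} (u : EE z ⟶ F) (i : F.ι) : z ⟶ F.X i := u PUnit.unit i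

theorem co_add {F : Mat_ 𝓛} {z : 𝓛} (u v : EE z ⟶ F) (i : F.ι) :
    co (u + v) i = co u i + co v i := rfl

theorem co_smul {F : Mat_ 𝓛} {z : 𝓛} (a : k) (u : EE z ⟶ F) (i : F.ι) :
    co (a • u) i = a • co u i := rfl

theorem co_Em_comp {F : Mat_ 𝓛} {z w : 𝓛} (f : w ⟶ z) (u : EE z ⟶ F) (i : F.ι) :
    co (Em f ≫ u) i = f ≫ co u i := by
  have h := congr_fun (congr_fun (Mat_.comp_def (Em f) u) PUnit.unit) i
  exact h.trans (Finset.sum_singleton _ _)

/-- decomposition of a map to `F` -/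
theorem decomp {F : Mat_ 𝓛} {z : 𝓛} (u : EE z ⟶ F) :
    u = ∑ i, Em (co u i) ≫ inc F i := by
  classical
  ext a j
  change co u j = (∑ i, Em (co u i) ≫ inc F i) a j
  have h1 : (∑ i, Em (co u i) ≫ inc F i) a j = ∑ i, co (Em (co u i) ≫ inc F i) j := by
    have h2 : ∀ (s : Finset F.ι), (∑ i ∈ s, Em (co u i) ≫ inc F i) a j =
        ∑ i ∈ s, co (Em (co u i) ≫ inc F i) j := by
      intro s
      induction s using Finset.induction_on with
      | empty => rfl
      | insert i s hi ih =>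
        rw [Finset.sum_insert hi, Finset.sum_insert hi, ← ih]
        rfl
    exact h2 _
  rw [h1, Finset.sum_eq_single j]
  · rw [co_Em_comp]
    have : co (inc F j) j = 𝟙 _ := by
      simp [co, inc]
      rfl
    rw [this, Category.comp_id]
  · intro i _ hi
    rw [co_Em_comp]
    have : co (inc F i) j = 0 := by
      simp [co, inc, hi]
      rfl
    rw [this, comp_zero]
  · intro h
    exact absurd (Finset.mem_univ _) h

/-- the map out of the functor of `F` attached to elements `m i` -/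
noncomputable def yo {M : 𝓛ᵒᵖ ⥤ ModuleCat.{v} k} (hM : Gen.IsGr M) (F : Mat_ 𝓛)
    (m : ∀ i : F.ι, M.obj (op (F.X i))) (z : 𝓛) : (EE z ⟶ F) →ₗ[k] M.obj (op z) where
  toFun u := ∑ i, M.map (co u i).op (m i)
  map_add' u v := by
    rw [← Finset.sum_add_distrib]
    refine Finset.sum_congr rfl fun i _ => ?_
    rw [co_add, hM.1]
    rfl
  map_smul' a u := by
    rw [RingHom.id_apply, Finset.smul_sum]
    refine Finset.sum_congr rfl fun i _ => ?_
    rw [co_smul, hM.2]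
    rfl

theorem yo_apply {M : 𝓛ᵒᵖ ⥤ ModuleCat.{v} k} (hM : Gen.IsGr M) (F : Mat_ 𝓛)
    (m : ∀ i : F.ι, M.obj (op (F.X i))) {z : 𝓛} (u : EE z ⟶ F) :
    yo hM F m z u = ∑ i, M.map (co u i).op (m i) := rfl

theorem yo_nat {M : 𝓛ᵒᵖ ⥤ ModuleCat.{v} k} (hM : Gen.IsGr M) (F : Mat_ 𝓛)
    (m : ∀ i : F.ι, M.obj (op (F.X i))) {z w : 𝓛} (f : w ⟶ z) (u : EE z ⟶ F) :
    yo hM F m w (Em f ≫ u) = M.map f.op (yo hM F m z u) := by
  rw [yo_apply, yo_apply, map_sum]
  refine Finset.sum_congr rfl fun i _ => ?_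
  rw [co_Em_comp, op_comp, M.map_comp]
  rfl

/-- **Lifting**: a natural map `ν` from the functor of `F` to `N` lifts along `g : M ⟶ N` if `g`
is surjective in every degree. -/
theorem exists_lift {M N : 𝓛ᵒᵖ ⥤ ModuleCat.{v} k} (hM : Gen.IsGr M) (g : M ⟶ N)
    (hg : ∀ z : 𝓛, Function.Surjective (g.app (op z))) (F : Mat_ 𝓛)
    (ν : ∀ z : 𝓛, (EE z ⟶ F) →ₗ[k] N.obj (op z))
    (hν : ∀ {z w : 𝓛} (f : w ⟶ z) (u : EE z ⟶ F), ν w (Em f ≫ u) = N.map f.op (ν z u)) :
    ∃ e : ∀ z : 𝓛, (EE z ⟶ F) →ₗ[k] M.obj (op z),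
      (∀ {z w : 𝓛} (f : w ⟶ z) (u : EE z ⟶ F), e w (Em f ≫ u) = M.map f.op (e z u)) ∧
      ∀ (z : 𝓛) (u : EE z ⟶ F), g.app (op z) (e z u) = ν z u := by
  choose m hm using fun i : F.ι => hg (F.X i) (ν _ (inc F i))
  refine ⟨yo hM F m, fun f u => yo_nat hM F m f u, fun z u => ?_⟩
  rw [yo_apply, map_sum]
  conv_rhs => rw [decomp u, map_sum]
  refine Finset.sum_congr rfl fun i _ => ?_
  rw [hν, ← hm]
  exact NatTrans.naturality_apply g _ _

/-! ### exactness of the cone -/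

theorem exactFor_cone {V : Type*} [Category V] [Preadditive V] [HasBinaryBiproducts V]
    {K' K : CochainComplex V ℤ} (φ : K' ⟶ K) (P : V) (h' : ExactFor P K') (h : ExactFor P K) :
    ExactFor P (mappingCone φ) := by
  intro i j l hij hjl w hw
  obtain ⟨v₁, hv₁⟩ := h' j l (l + 1) hjl rfl (w ≫ (mappingCone.fst φ).1.v j l hjl) (by
    have h1 := mappingCone.d_fst_v φ j l (l + 1) hjl rfl
    have h2 : w ≫ (mappingCone φ).d j l ≫ (mappingCone.fst φ).1.v l (l + 1) rfl = 0 := by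
      rw [← Category.assoc, hw, zero_comp]
    rw [h1] at h2
    simpa using h2)
  have h3 : (w ≫ (mappingCone.fst φ).1.v j l hjl) ≫ φ.f l +
      (w ≫ (mappingCone.snd φ).v j j (add_zero j)) ≫ K.d j l = 0 := by
    have h1 := mappingCone.d_snd_v φ j l hjl
    have h2 : w ≫ (mappingCone φ).d j l ≫ (mappingCone.snd φ).v l l (add_zero l) = 0 := by
      rw [← Category.assoc, hw, zero_comp]
    rw [h1] at h2
    simpa using h2
  obtain ⟨v₂, hv₂⟩ := h i j l hij hjl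
    (v₁ ≫ φ.f j + w ≫ (mappingCone.snd φ).v j j (add_zero j)) (by
      rw [Preadditive.add_comp, Category.assoc, φ.comm, ← Category.assoc, hv₁]
      exact h3)
  have hji : j + (-1) = i := by omega
  refine ⟨-v₁ ≫ (mappingCone.inl φ).v j i hji + v₂ ≫ (mappingCone.inr φ).f i, ?_⟩
  apply mappingCone.ext_to φ j l hjl
  · rw [Category.assoc, mappingCone.d_fst_v φ i j l hij hjl]
    simp [hv₁]
  · rw [Category.assoc, mappingCone.d_snd_v φ i j hij]
    simp [hv₂]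

/-! ### the construction -/

/-- the boundary map `(E z ⟶ K.X (-1)) → Z K` -/
noncomputable def bnd (K : CochainComplex (Mat_ 𝓛) ℤ) (z : 𝓛) :
    (EE z ⟶ K.X (-1)) →ₗ[k] (Zobj k K).obj (op z) :=
  LinearMap.codRestrict (cyc k K z) (Linear.rightComp k (EE z) (K.d (-1) 0)) (by
    intro u
    rw [mem_cyc]
    simp)

theorem bnd_coe (K : CochainComplex (Mat_ 𝓛) ℤ) (z : 𝓛) (u : EE z ⟶ K.X (-1)) :
    Subtype.val (p := fun x => x ∈ cyc k K z) (bnd K z u) = u ≫ K.d (-1) 0 := rfl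

/-- the map `(E z ⟶ K'.X 0) → Z (K'⟦1⟧)` -/
noncomputable def bd (K' : CochainComplex (Mat_ 𝓛) ℤ) (z : 𝓛) :
    (EE z ⟶ K'.X 0) →ₗ[k] (Zobj k (K'⟦(1 : ℤ)⟧)).obj (op z) :=
  LinearMap.codRestrict (cyc k (K'⟦(1 : ℤ)⟧) z)
    (Linear.rightComp k (EE z) (K'.d 0 (0 + 1))) (by
    intro u
    rw [mem_cyc]
    change (u ≫ K'.d 0 (0 + 1)) ≫ (K'⟦(1 : ℤ)⟧).d 0 1 = 0
    rw [shiftFunctor_obj_d']
    simp
    rfl)

theorem bd_coe (K' : CochainComplex (Mat_ 𝓛) ℤ) (z : 𝓛) (u : EE z ⟶ K'.X 0) :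
    Subtype.val (p := fun x => x ∈ cyc k (K'⟦(1 : ℤ)⟧) z) (bd K' z u) =
      u ≫ K'.d 0 (0 + 1) := rfl

theorem shift_cyc (K' : CochainComplex (Mat_ 𝓛) ℤ) (z : 𝓛)
    (x : cyc k (K'⟦(1 : ℤ)⟧) z) : (show EE z ⟶ K'.X (0 + 1) from x.1) ≫ K'.d (0 + 1) (1 + 1) = 0 := by
  have h0 : x.1 ≫ (K'⟦(1 : ℤ)⟧).d 0 1 = 0 := mem_cyc.1 x.2
  have h2 : (K'⟦(1 : ℤ)⟧).d 0 1 = -K'.d (0 + 1) (1 + 1) := by
    rw [shiftFunctor_obj_d']
    simp
  have h3 : x.1 ≫ (K'⟦(1 : ℤ)⟧).d 0 1 =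
      -((show EE z ⟶ K'.X (0 + 1) from x.1) ≫ K'.d (0 + 1) (1 + 1)) := by
    rw [h2]
    exact Preadditive.comp_neg _ _
  rw [h3] at h0
  exact neg_eq_zero.1 h0

theorem mor3_f {K K' : CochainComplex (Mat_ 𝓛) ℤ} (φ : K' ⟶ K) :
    (mappingCone.triangle φ).mor₃.f 0 = -(mappingCone.fst φ).1.v 0 (0 + 1) rfl := by
  apply mappingCone.ext_from φ (0 + 1) 0 rfl
  · rw [mappingCone.inl_v_triangle_mor₃_f]
    refine Eq.trans ?_ (Preadditive.comp_neg _ _).symm
    exact (congrArg (fun x => -x) (mappingCone.inl_v_fst_v φ (0 + 1) 0 rfl)).symm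
  · rw [mappingCone.inr_f_triangle_mor₃_f]
    refine Eq.trans ?_ (Preadditive.comp_neg _ _).symm
    exact ((congrArg (fun x => -x) (mappingCone.inr_f_fst_v φ 0 (0 + 1) rfl)).trans
      neg_zero).symm

section Core

variable {K K' : CochainComplex (Mat_ 𝓛) ℤ} (φ : K' ⟶ K) {M : 𝓛ᵒᵖ ⥤ ModuleCat.{v} k}
  (f : Zobj k K ⟶ M) (g : M ⟶ Zobj k (K'⟦(1 : ℤ)⟧))
  (e : ∀ z : 𝓛, (EE z ⟶ K'.X 0) →ₗ[k] M.obj (op z))

/-- the map `(E z ⟶ L.X (-1)) → M` -/
noncomputable def pim (z : 𝓛) : (EE z ⟶ (mappingCone φ).X (-1)) →ₗ[k] M.obj (op z) :=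
  e z ∘ₗ Linear.rightComp k (EE z) ((mappingCone.fst φ).1.v (-1) 0 (by omega)) +
    (f.app (op z)).hom ∘ₗ bnd K z ∘ₗ
      Linear.rightComp k (EE z) ((mappingCone.snd φ).v (-1) (-1) (add_zero _))

theorem pim_apply (z : 𝓛) (w : EE z ⟶ (mappingCone φ).X (-1)) :
    pim φ f e z w = e z (w ≫ (mappingCone.fst φ).1.v (-1) 0 (by omega)) +
      f.app (op z) (bnd K z (w ≫ (mappingCone.snd φ).v (-1) (-1) (add_zero _))) := rfl

variable (hK : ∀ z : 𝓛, ExactFor (EE z) K) (hK' : ∀ z : 𝓛, ExactFor (EE z) K')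
  (he : ∀ {z w : 𝓛} (a : w ⟶ z) (u : EE z ⟶ K'.X 0), e w (Em a ≫ u) = M.map a.op (e z u))
  (hge : ∀ (z : 𝓛) (u : EE z ⟶ K'.X 0), g.app (op z) (e z u) = bd K' z u)
  (hfe : ∀ (z : 𝓛) (c : cyc k K' z), f.app (op z) (cycPost φ z c) = e z c.1)
  (hinj : ∀ z : 𝓛, Function.Injective (f.app (op z)))
  (hex : ∀ z : 𝓛, Function.Exact (f.app (op z)) (g.app (op z)))

include hK hK' hfe in
theorem pim_eq_zero (z : 𝓛) (w : EE z ⟶ (mappingCone φ).X (-1))
    (hw : w ≫ (mappingCone φ).d (-1) 0 = 0) : pim φ f e z w = 0 := by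
  obtain ⟨w', rfl⟩ := exactFor_cone φ (EE z) (hK' z) (hK z) (-2) (-1) 0 (by omega) (by omega) w hw
  rw [pim_apply]
  have h1 : (w' ≫ (mappingCone φ).d (-2) (-1)) ≫ (mappingCone.fst φ).1.v (-1) 0 (by omega) =
      -((w' ≫ (mappingCone.fst φ).1.v (-2) (-1) (by omega)) ≫ K'.d (-1) 0) := by
    rw [Category.assoc, mappingCone.d_fst_v φ (-2) (-1) 0 (by omega) (by omega)]
    simp
  have h2 : (w' ≫ (mappingCone φ).d (-2) (-1)) ≫
      (mappingCone.snd φ).v (-1) (-1) (add_zero _) =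
      (w' ≫ (mappingCone.fst φ).1.v (-2) (-1) (by omega)) ≫ φ.f (-1) +
      (w' ≫ (mappingCone.snd φ).v (-2) (-2) (add_zero _)) ≫ K.d (-2) (-1) := by
    rw [Category.assoc, mappingCone.d_snd_v φ (-2) (-1) (by omega)]
    simp
  rw [h1, h2]
  set a := w' ≫ (mappingCone.fst φ).1.v (-2) (-1) (by omega) with ha
  have h3 : bnd K z (a ≫ φ.f (-1) + (w' ≫ (mappingCone.snd φ).v (-2) (-2) (add_zero _)) ≫
      K.d (-2) (-1)) = cycPost (k := k) φ z (bnd K' z a) := by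
    apply Subtype.ext
    change (a ≫ φ.f (-1) + (w' ≫ (mappingCone.snd φ).v (-2) (-2) (add_zero _)) ≫
      K.d (-2) (-1)) ≫ K.d (-1) 0 = (a ≫ K'.d (-1) 0) ≫ φ.f 0
    simp
  rw [h3, hfe, map_neg]
  exact neg_add_cancel _

include hge hfe hinj hex in
theorem d_eq_zero (z : 𝓛) (w : EE z ⟶ (mappingCone φ).X (-1)) (hw : pim φ f e z w = 0) :
    w ≫ (mappingCone φ).d (-1) 0 = 0 := by
  rw [pim_apply] at hw
  set w₁ := w ≫ (mappingCone.fst φ).1.v (-1) 0 (by omega) with hw₁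
  set w₂ := w ≫ (mappingCone.snd φ).v (-1) (-1) (add_zero _) with hw₂
  have h1 : w₁ ≫ K'.d 0 1 = 0 := by
    have h2 := congrArg (g.app (op z)) hw
    rw [map_add, hge, (hex z).apply_apply_eq_zero, add_zero, map_zero] at h2
    exact congrArg Subtype.val h2
  have h2 : w₁ ≫ φ.f 0 + w₂ ≫ K.d (-1) 0 = 0 := by
    have h3 := hfe z ⟨w₁, by rwa [mem_cyc]⟩
    rw [← h3, ← map_add] at hw
    have h4 := hinj z (hw.trans (map_zero _).symm)
    exact congrArg Subtype.val h4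
  apply mappingCone.ext_to φ 0 1 (by omega)
  · rw [Category.assoc, mappingCone.d_fst_v φ (-1) 0 1 (by omega) (by omega), zero_comp]
    rw [Preadditive.comp_neg, ← Category.assoc, ← hw₁, neg_eq_zero]
    exact h1
  · rw [Category.assoc, mappingCone.d_snd_v φ (-1) 0 (by omega), zero_comp]
    rw [Preadditive.comp_add, ← Category.assoc, ← Category.assoc, ← hw₁, ← hw₂]
    exact h2

include hK hK' hge hex in
theorem pim_surj (z : 𝓛) : Function.Surjective (pim φ f e z) := by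
  intro m
  have h1 : (g.app (op z) m).1 ≫ K'.d (0 + 1) (1 + 1) = 0 :=
    shift_cyc K' z (g.app (op z) m)
  obtain ⟨u, hu⟩ := hK' z 0 (0 + 1) (1 + 1) (by omega) (by omega) _ h1
  have h2 : g.app (op z) (m - e z u) = 0 := by
    rw [map_sub, hge, sub_eq_zero]
    exact Subtype.ext hu.symm
  obtain ⟨c, hc⟩ := (hex z _).1 h2
  obtain ⟨v, hv⟩ := hK z (-1) 0 1 (by omega) (by omega) c.1 (mem_cyc.1 c.2)
  refine ⟨u ≫ (mappingCone.inl φ).v 0 (-1) (by omega) + v ≫ (mappingCone.inr φ).f (-1), ?_⟩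
  rw [pim_apply]
  have h3 : (u ≫ (mappingCone.inl φ).v 0 (-1) (by omega) + v ≫ (mappingCone.inr φ).f (-1)) ≫
      (mappingCone.fst φ).1.v (-1) 0 (by omega) = u := by simp
  have h4 : (u ≫ (mappingCone.inl φ).v 0 (-1) (by omega) + v ≫ (mappingCone.inr φ).f (-1)) ≫
      (mappingCone.snd φ).v (-1) (-1) (add_zero _) = v := by simp
  have h5 : bnd K z v = c := Subtype.ext hv
  rw [h3, h4, h5, hc]
  abel

include he in
theorem pim_nat {z w : 𝓛} (a : w ⟶ z) (x : EE z ⟶ (mappingCone φ).X (-1)) :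
    pim φ f e w (Em a ≫ x) = M.map a.op (pim φ f e z x) := by
  rw [pim_apply, pim_apply, map_add, Category.assoc, Category.assoc, he]
  congr 1
  have h1 : bnd K w (Em a ≫ x ≫ (mappingCone.snd φ).v (-1) (-1) (add_zero _)) =
      (Zobj k K).map a.op (bnd K z (x ≫ (mappingCone.snd φ).v (-1) (-1) (add_zero _))) := by
    apply Subtype.ext
    change (Em a ≫ x ≫ (mappingCone.snd φ).v (-1) (-1) (add_zero _)) ≫ K.d (-1) 0 =
      Em a ≫ (x ≫ (mappingCone.snd φ).v (-1) (-1) (add_zero _)) ≫ K.d (-1) 0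
    simp only [Category.assoc]
  rw [h1]
  exact NatTrans.naturality_apply f _ _

include hK hK' in
theorem exists_bnd (z : 𝓛) (c : cyc k (mappingCone φ) z) :
    ∃ w : EE z ⟶ (mappingCone φ).X (-1), w ≫ (mappingCone φ).d (-1) 0 = c.1 :=
  exactFor_cone φ (EE z) (hK' z) (hK z) (-1) 0 1 (by omega) (by omega) c.1 (mem_cyc.1 c.2)

/-- the value of `β` on a cycle -/
noncomputable def bet (z : 𝓛) (c : cyc k (mappingCone φ) z) : M.obj (op z) :=
  pim φ f e z (exists_bnd φ hK hK' z c).choose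

include hfe in
theorem bet_eq (z : 𝓛) (c : cyc k (mappingCone φ) z) (w : EE z ⟶ (mappingCone φ).X (-1))
    (hw : w ≫ (mappingCone φ).d (-1) 0 = c.1) :
    bet φ f e hK hK' z c = pim φ f e z w := by
  rw [bet, ← sub_eq_zero, ← map_sub]
  apply pim_eq_zero φ f e hK hK' hfe
  rw [Preadditive.sub_comp, hw, (exists_bnd φ hK hK' z c).choose_spec, sub_self]

/-- `β : Z L ⟶ M` -/
noncomputable def beta : Zobj k (mappingCone φ) ⟶ M where
  app z := ModuleCat.ofHom
    { toFun := bet φ f e hK hK' z.unop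
      map_add' := fun c c' => by
        obtain ⟨w, hw⟩ := exists_bnd φ hK hK' z.unop c
        obtain ⟨w', hw'⟩ := exists_bnd φ hK hK' z.unop c'
        rw [bet_eq φ f e hK hK' hfe _ c w hw, bet_eq φ f e hK hK' hfe _ c' w' hw',
          bet_eq φ f e hK hK' hfe _ (c + c') (w + w') (by
            rw [Preadditive.add_comp, hw, hw']; rfl), map_add]
      map_smul' := fun a c => by
        obtain ⟨w, hw⟩ := exists_bnd φ hK hK' z.unop c
        rw [bet_eq φ f e hK hK' hfe _ c w hw,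
          bet_eq φ f e hK hK' hfe _ (a • c) (a • w) (by
            rw [Linear.smul_comp, hw]; rfl), map_smul, RingHom.id_apply] }
  naturality z w a := by
    refine ModuleCat.hom_ext (LinearMap.ext fun c => ?_)
    obtain ⟨x, hx⟩ := exists_bnd φ hK hK' z.unop c
    change bet φ f e hK hK' w.unop (cycMap _ a.unop c) =
      M.map a (bet φ f e hK hK' z.unop c)
    rw [bet_eq φ f e hK hK' hfe _ c x hx,
      bet_eq φ f e hK hK' hfe _ _ (Em a.unop ≫ x) (by
        rw [Category.assoc, hx]; rfl)]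
    exact pim_nat φ f e he a.unop x

theorem beta_apply (z : 𝓛) (c : cyc k (mappingCone φ) z)
    (w : EE z ⟶ (mappingCone φ).X (-1)) (hw : w ≫ (mappingCone φ).d (-1) 0 = c.1) :
    (beta φ f e hK hK' he hfe).app (op z) c = pim φ f e z w :=
  bet_eq φ f e hK hK' hfe z c w hw

include hge hinj hex in
theorem isIso_beta : IsIso (beta φ f e hK hK' he hfe) := by
  rw [NatTrans.isIso_iff_isIso_app]
  intro z
  rw [ConcreteCategory.isIso_iff_bijective]
  constructor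
  · rw [← AddMonoidHom.coe_coe, injective_iff_map_eq_zero]
    intro c hc
    obtain ⟨w, hw⟩ := exists_bnd φ hK hK' z.unop c
    have h1 := (beta_apply φ f e hK hK' he hfe z.unop c w hw).symm.trans hc
    have h2 := d_eq_zero φ f g e hge hfe hinj hex z.unop w h1
    apply Subtype.ext
    rw [← hw, h2]
    rfl
  · intro m
    obtain ⟨w, rfl⟩ := pim_surj φ f g e hK hK' hge hex z.unop m
    exact ⟨bnd (mappingCone φ) z.unop w, beta_apply φ f e hK hK' he hfe z.unop _ w rfl⟩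

theorem Zmap_inr_beta : Zmap k (mappingCone.inr φ) ≫ beta φ f e hK hK' he hfe = f := by
  refine Z_hom_ext fun z c => ?_
  obtain ⟨v, hv⟩ := hK z (-1) 0 1 (by omega) (by omega) c.1 (mem_cyc.1 c.2)
  have h1 : (v ≫ (mappingCone.inr φ).f (-1)) ≫ (mappingCone φ).d (-1) 0 =
      (cycPost (k := k) (mappingCone.inr φ) z c).1 := by
    change _ = c.1 ≫ (mappingCone.inr φ).f 0
    rw [Category.assoc, mappingCone.inr_f_d, ← Category.assoc, hv]
  refine (beta_apply φ f e hK hK' he hfe z _ _ h1).trans ?_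
  rw [pim_apply]
  have h5 : bnd K z v = c := Subtype.ext hv
  have h3 : (v ≫ (mappingCone.inr φ).f (-1)) ≫
      (mappingCone.fst φ).1.v (-1) 0 (by omega) = 0 := by simp
  have h4 : (v ≫ (mappingCone.inr φ).f (-1)) ≫
      (mappingCone.snd φ).v (-1) (-1) (add_zero _) = v := by simp
  rw [h3, h4, h5, map_zero, zero_add]

include hge hex in
theorem beta_g : beta φ f e hK hK' he hfe ≫ g = Zmap k (mappingCone.triangle φ).mor₃ := by
  refine Z_hom_ext fun z c => ?_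
  obtain ⟨w, hw⟩ := exists_bnd φ hK hK' z c
  have h1 : g.app (op z) ((beta φ f e hK hK' he hfe).app (op z) c) =
      bd K' z (w ≫ (mappingCone.fst φ).1.v (-1) 0 (by omega)) := by
    rw [beta_apply φ f e hK hK' he hfe z c w hw, pim_apply, map_add, hge,
      (hex z).apply_apply_eq_zero, add_zero]
  refine h1.trans (Subtype.ext ?_)
  change (w ≫ (mappingCone.fst φ).1.v (-1) 0 (by omega)) ≫ K'.d 0 (0 + 1) =
    c.1 ≫ (mappingCone.triangle φ).mor₃.f 0
  have h2 := mappingCone.d_fst_v φ (-1) 0 1 (by omega) (by omega)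
  rw [← hw, mor3_f]
  refine Eq.trans ?_ (Preadditive.comp_neg _ _).symm
  have h3 : (w ≫ (mappingCone φ).d (-1) 0) ≫ (mappingCone.fst φ).1.v 0 (0 + 1) rfl =
      -((w ≫ (mappingCone.fst φ).1.v (-1) 0 (by omega)) ≫ K'.d 0 (0 + 1)) := by
    rw [Category.assoc]
    refine (congrArg (w ≫ ·) h2).trans ?_
    refine (Preadditive.comp_neg _ _).trans ?_
    rw [Category.assoc]
    rfl
  exact (neg_eq_iff_eq_neg.2 h3).symm

end Core

theorem bd_nat (K' : CochainComplex (Mat_ 𝓛) ℤ) {z w : 𝓛} (a : w ⟶ z) (u : EE z ⟶ K'.X 0) :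
    bd (k := k) K' w (Em a ≫ u) = (Zobj k (K'⟦(1 : ℤ)⟧)).map a.op (bd K' z u) := by
  apply Subtype.ext
  change (Em a ≫ u) ≫ K'.d 0 (0 + 1) = Em a ≫ (u ≫ K'.d 0 (0 + 1))
  rw [Category.assoc]

theorem bd_eq_zero (K' : CochainComplex (Mat_ 𝓛) ℤ) {z : 𝓛} (c : cyc k K' z) :
    bd (k := k) K' z c.1 = 0 := by
  apply Subtype.ext
  exact mem_cyc.1 c.2

/-- Every extension of `Z (K'⟦1⟧)` by `Z K` is the cycles of a mapping cone. -/
theorem exists_cone {K K' : CochainComplex (Mat_ 𝓛) ℤ} (hK : ∀ z : 𝓛, ExactFor (EE z) K)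
    (hK' : ∀ z : 𝓛, ExactFor (EE z) K') {M : 𝓛ᵒᵖ ⥤ ModuleCat.{v} k} (hM : Gen.IsGr M)
    (f : Zobj k K ⟶ M) (g : M ⟶ Zobj k (K'⟦(1 : ℤ)⟧))
    (hinj : ∀ z : 𝓛, Function.Injective (f.app (op z)))
    (hex : ∀ z : 𝓛, Function.Exact (f.app (op z)) (g.app (op z)))
    (hsurj : ∀ z : 𝓛, Function.Surjective (g.app (op z)))
    (full : ∀ θ : Zobj k K' ⟶ Zobj k K, ∃ φ : K' ⟶ K, Zmap k φ = θ) :
    ∃ (φ : K' ⟶ K) (β : Zobj k (mappingCone φ) ≅ M),
      Zmap k (mappingCone.inr φ) ≫ β.hom = f ∧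
      β.hom ≫ g = Zmap k (mappingCone.triangle φ).mor₃ := by
  obtain ⟨e, he, hge⟩ := exists_lift hM g hsurj (K'.X 0) (fun z => bd K' z)
    (fun a u => bd_nat K' a u)
  have h1 : ∀ (z : 𝓛) (c : cyc k K' z), ∃ b, f.app (op z) b = e z c.1 := fun z c =>
    (hex z _).1 (by rw [hge, bd_eq_zero])
  choose t ht using h1
  have hadd : ∀ (z : 𝓛) (c c' : cyc k K' z), t z (c + c') = t z c + t z c' := by
    intro z c c'
    apply hinj z
    rw [map_add, ht, ht, ht, ← map_add]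
    rfl
  have hsmul : ∀ (z : 𝓛) (a : k) (c : cyc k K' z), t z (a • c) = a • t z c := by
    intro z a c
    apply hinj z
    rw [map_smul, ht, ht, ← map_smul]
    rfl
  let θ : Zobj k K' ⟶ Zobj k K :=
    { app := fun z => ModuleCat.ofHom
        { toFun := t z.unop
          map_add' := hadd z.unop
          map_smul' := hsmul z.unop }
      naturality := fun z w a => by
        refine ModuleCat.hom_ext (LinearMap.ext fun c => ?_)
        change t w.unop (cycMap _ a.unop c) = (Zobj k K).map a (t z.unop c)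
        apply hinj w.unop
        rw [ht]
        refine (he a.unop c.1).trans ?_
        rw [← ht]
        exact (NatTrans.naturality_apply f a _).symm }
  obtain ⟨φ, hφ⟩ := full θ
  have hfe : ∀ (z : 𝓛) (c : cyc k K' z), f.app (op z) (cycPost φ z c) = e z c.1 := by
    intro z c
    rw [← ht]
    congr 1
    exact congrArg (fun η : Zobj k K' ⟶ Zobj k K => η.app (op z) c) hφ
  have hiso := isIso_beta φ f g e hK hK' he hge hfe hinj hex
  exact ⟨φ, asIso (beta φ f e hK hK' he hfe), Zmap_inr_beta φ f e hK hK' he hfe,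
    beta_g φ f g e hK hK' he hge hfe hex⟩

end LitT

end Lens
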