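import Mathlib

/-!
# Uniqueness of the stable category

Two full and essentially surjective functors `q₀ : V ⥤ T₀`, `q : V ⥤ T` which kill the same
morphisms induce an equivalence `F : T₀ ⥤ T` with `q₀ ⋙ F ≅ q`. If `T₀` and `T` are
pretriangulated, if both functors send a class of short exact sequences to distinguished
triangles and if every distinguished triangle of `T₀` comes from a short exact sequence, then `F`
commutes objectwise with the shift and sends distinguished triangles `(f, g, h)` to distinguished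
triangles `(F f, F g, h')` for some `h'`.
-/

open CategoryTheory CategoryTheory.Limits CategoryTheory.Pretriangulated

namespace Lens

universe w v v₀ v₁ u u₀ u₁

namespace LitU

section

variable {V : Type u} [Category.{v} V] [Preadditive V]
  {T₀ : Type u₀} [Category.{v₀} T₀] [Preadditive T₀]
  {T : Type u₁} [Category.{v₁} T] [Preadditive T]
  (q₀ : V ⥤ T₀) (q : V ⥤ T)

/-- `q` kills every morphism which is killed by `q₀` -/
def KerLE : Prop := ∀ {X Y : V} (f : X ⟶ Y), q₀.map f = 0 → q.map f = 0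

/-- the two functors kill the same morphisms -/
def SameKer : Prop := ∀ {X Y : V} (f : X ⟶ Y), q₀.map f = 0 ↔ q.map f = 0

variable {q₀ q}

omit [Preadditive V] in
theorem SameKer.le (h : SameKer q₀ q) : KerLE q₀ q := fun f => (h f).1

omit [Preadditive V] in
theorem SameKer.ge (h : SameKer q₀ q) : KerLE q q₀ := fun f => (h f).2

theorem KerLE.eq [q₀.Additive] [q.Additive] (h : KerLE q₀ q) {X Y : V} {f g : X ⟶ Y}
    (hfg : q₀.map f = q₀.map g) : q.map f = q.map g := by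
  have := h (f - g)
  rw [Functor.map_sub, Functor.map_sub, sub_eq_zero, sub_eq_zero] at this
  exact this hfg

variable [q₀.Additive] [q.Additive] [q₀.Full] [q₀.EssSurj] (hk : KerLE q₀ q)

/-- the induced functor -/
noncomputable def ind : T₀ ⥤ T where
  obj X := q.obj (q₀.objPreimage X)
  map {X Y} f := q.map (q₀.preimage
    ((q₀.objObjPreimageIso X).hom ≫ f ≫ (q₀.objObjPreimageIso Y).inv))
  map_id X := by
    rw [← q.map_id]
    apply hk.eq
    simp
  map_comp f g := by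
    rw [← q.map_comp]
    apply hk.eq
    simp

theorem ind_map {X Y : T₀} (f : X ⟶ Y) (a : q₀.objPreimage X ⟶ q₀.objPreimage Y)
    (ha : q₀.map a = (q₀.objObjPreimageIso X).hom ≫ f ≫ (q₀.objObjPreimageIso Y).inv) :
    (ind hk).map f = q.map a := by
  dsimp only [ind]
  apply hk.eq
  rw [ha, Functor.map_preimage]

instance : (ind hk).Additive where
  map_add {X Y f g} := by
    rw [ind_map hk (f + g) (q₀.preimage
        ((q₀.objObjPreimageIso X).hom ≫ f ≫ (q₀.objObjPreimageIso Y).inv) + q₀.preimage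
        ((q₀.objObjPreimageIso X).hom ≫ g ≫ (q₀.objObjPreimageIso Y).inv)) (by simp)]
    rw [Functor.map_add]
    rfl

theorem ind_faithful (hk' : KerLE q q₀) : (ind hk).Faithful where
  map_injective {X Y f g} h := by
    have h1 := hk'.eq h
    simpa using h1

instance [q.Full] : (ind hk).Full where
  map_surjective {X Y} φ := by
    refine ⟨(q₀.objObjPreimageIso X).inv ≫ q₀.map (q.preimage φ) ≫
      (q₀.objObjPreimageIso Y).hom, ?_⟩
    rw [ind_map hk _ (q.preimage φ) (by simp), Functor.map_preimage]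

omit [q₀.EssSurj] in
/-- isomorphisms in `T₀` give isomorphisms in `T` -/
noncomputable def transIso {A B : V} (e : q₀.obj A ≅ q₀.obj B) : q.obj A ≅ q.obj B where
  hom := q.map (q₀.preimage e.hom)
  inv := q.map (q₀.preimage e.inv)
  hom_inv_id := by
    rw [← q.map_comp, ← q.map_id]
    apply hk.eq
    simp
  inv_hom_id := by
    rw [← q.map_comp, ← q.map_id]
    apply hk.eq
    simp

/-- `q₀ ⋙ F ≅ q` -/
noncomputable def indIso : q₀ ⋙ ind hk ≅ q :=
  NatIso.ofComponents (fun A => transIso hk (q₀.objObjPreimageIso (q₀.obj A))) (by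
    intro A B f
    dsimp [ind, transIso]
    rw [← q.map_comp, ← q.map_comp]
    apply hk.eq
    simp)

instance [q.EssSurj] : (ind hk).EssSurj where
  mem_essImage Y := ⟨q₀.obj (q.objPreimage Y),
    ⟨(indIso hk).app _ ≪≫ q.objObjPreimageIso Y⟩⟩

theorem ind_isEquivalence [q.Full] [q.EssSurj] (hk' : KerLE q q₀) :
    (ind hk).IsEquivalence := by
  have := ind_faithful hk hk'
  exact { }

instance ind_linear (k : Type w) [Semiring k] [Linear k V] [Linear k T₀] [Linear k T]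
    [q₀.Linear k] [q.Linear k] : (ind hk).Linear k where
  map_smul {X Y} f r := by
    rw [ind_map hk (r • f) (r • q₀.preimage
        ((q₀.objObjPreimageIso X).hom ≫ f ≫ (q₀.objObjPreimageIso Y).inv)) (by simp)]
    rw [Functor.map_smul]
    rfl

/-- `F` kills `q₀.map f` iff `q` kills `f` -/
theorem ind_map_map_eq_zero_iff {A B : V} (f : A ⟶ B) :
    (ind hk).map (q₀.map f) = 0 ↔ q.map f = 0 := by
  have h := (indIso hk).hom.naturality f
  dsimp at h
  constructor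
  · intro h0
    rw [h0, zero_comp] at h
    rw [← cancel_epi ((indIso hk).hom.app A), ← h, comp_zero]
  · intro h0
    rw [h0, comp_zero] at h
    rw [← cancel_mono ((indIso hk).hom.app B), h, zero_comp]

end

section

variable {V : Type u} [Category.{v} V] [Preadditive V]
  {T₀ : Type u₀} [Category.{v₀} T₀] [Preadditive T₀] [HasZeroObject T₀] [HasShift T₀ ℤ]
  [∀ n : ℤ, (shiftFunctor T₀ n).Additive] [Pretriangulated T₀]
  {T : Type u₁} [Category.{v₁} T] [Preadditive T] [HasZeroObject T] [HasShift T ℤ]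
  [∀ n : ℤ, (shiftFunctor T n).Additive] [Pretriangulated T]

/-- `q` sends short exact sequences to distinguished triangles -/
def SendsSES (SES : ∀ {A B C : V}, (A ⟶ B) → (B ⟶ C) → Prop) (q : V ⥤ T) : Prop :=
  ∀ {A B C : V} (f : A ⟶ B) (g : B ⟶ C), SES f g →
    ∃ h : q.obj C ⟶ (q.obj A)⟦(1 : ℤ)⟧, Triangle.mk (q.map f) (q.map g) h ∈ distTriang T

/-- every distinguished triangle is isomorphic to one coming from a short exact sequence -/
def FromSES (SES : ∀ {A B C : V}, (A ⟶ B) → (B ⟶ C) → Prop) (q : V ⥤ T) : Prop :=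
  ∀ (t : Triangle T), t ∈ distTriang T → ∃ (A B C : V) (f : A ⟶ B) (g : B ⟶ C)
    (h : q.obj C ⟶ (q.obj A)⟦(1 : ℤ)⟧), SES f g ∧ Nonempty (t ≅ Triangle.mk (q.map f) (q.map g) h)

variable {SES : ∀ {A B C : V}, (A ⟶ B) → (B ⟶ C) → Prop} {q₀ : V ⥤ T₀} {q : V ⥤ T}

omit [Preadditive V] in
/-- weak compatibility of `F` with distinguished triangles -/
theorem weak_dist (hq : SendsSES SES q) (h₀ : FromSES SES q₀) (F : T₀ ⥤ T) (e : q₀ ⋙ F ≅ q)
    {X Y Z : T₀} (f : X ⟶ Y) (g : Y ⟶ Z) (h : Z ⟶ X⟦(1 : ℤ)⟧)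
    (hT : Triangle.mk f g h ∈ distTriang T₀) :
    ∃ h' : F.obj Z ⟶ (F.obj X)⟦(1 : ℤ)⟧, Triangle.mk (F.map f) (F.map g) h' ∈ distTriang T := by
  obtain ⟨A, B, C, a, b, c, hs, ⟨i⟩⟩ := h₀ _ hT
  obtain ⟨d, hd⟩ := hq a b hs
  obtain ⟨i₁, i₂, i₃, h1, h2⟩ : ∃ (i₁ : X ≅ q₀.obj A) (i₂ : Y ≅ q₀.obj B) (i₃ : Z ≅ q₀.obj C),
      f ≫ i₂.hom = i₁.hom ≫ q₀.map a ∧ g ≫ i₃.hom = i₂.hom ≫ q₀.map b :=
    ⟨Triangle.π₁.mapIso i, Triangle.π₂.mapIso i, Triangle.π₃.mapIso i, i.hom.comm₁, i.hom.comm₂⟩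
  obtain ⟨e₁, he₁⟩ : ∃ e₁ : F.obj X ≅ q.obj A, e₁.hom = F.map i₁.hom ≫ e.hom.app A :=
    ⟨F.mapIso i₁ ≪≫ e.app A, rfl⟩
  obtain ⟨e₂, he₂⟩ : ∃ e₂ : F.obj Y ≅ q.obj B, e₂.hom = F.map i₂.hom ≫ e.hom.app B :=
    ⟨F.mapIso i₂ ≪≫ e.app B, rfl⟩
  obtain ⟨e₃, he₃⟩ : ∃ e₃ : F.obj Z ≅ q.obj C, e₃.hom = F.map i₃.hom ≫ e.hom.app C :=
    ⟨F.mapIso i₃ ≪≫ e.app C, rfl⟩
  have c1 : F.map f ≫ e₂.hom = e₁.hom ≫ q.map a := by
    have h3 : F.map (q₀.map a) ≫ e.hom.app B = e.hom.app A ≫ q.map a := e.hom.naturality a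
    rw [he₁, he₂, ← Category.assoc, ← F.map_comp, h1, F.map_comp, Category.assoc, h3,
      Category.assoc]
  have c2 : F.map g ≫ e₃.hom = e₂.hom ≫ q.map b := by
    have h3 : F.map (q₀.map b) ≫ e.hom.app C = e.hom.app B ≫ q.map b := e.hom.naturality b
    rw [he₂, he₃, ← Category.assoc, ← F.map_comp, h2, F.map_comp, Category.assoc, h3,
      Category.assoc]
  refine ⟨e₃.hom ≫ d ≫ e₁.inv⟦(1 : ℤ)⟧', ?_⟩
  refine isomorphic_distinguished _ hd _ (Triangle.isoMk _ _ e₁ e₂ e₃ c1 c2 ?_)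
  change (e₃.hom ≫ d ≫ (shiftFunctor T (1 : ℤ)).map e₁.inv) ≫
    (shiftFunctor T (1 : ℤ)).map e₁.hom = e₃.hom ≫ d
  rw [Category.assoc, Category.assoc, ← Functor.map_comp, Iso.inv_hom_id, CategoryTheory.Functor.map_id,
    Category.comp_id]

open scoped ZeroObject in
/-- objectwise compatibility of `F` with the shift -/
theorem shift_iso (F : T₀ ⥤ T) [F.Additive]
    (hF : ∀ {X Y Z : T₀} (f : X ⟶ Y) (g : Y ⟶ Z) (h : Z ⟶ X⟦(1 : ℤ)⟧),
      Triangle.mk f g h ∈ distTriang T₀ →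
      ∃ h' : F.obj Z ⟶ (F.obj X)⟦(1 : ℤ)⟧, Triangle.mk (F.map f) (F.map g) h' ∈ distTriang T)
    (X : T₀) : Nonempty (F.obj (X⟦(1 : ℤ)⟧) ≅ (F.obj X)⟦(1 : ℤ)⟧) := by
  obtain ⟨h', hh⟩ := hF _ _ _ (contractible_distinguished₂ X)
  have h0 : IsZero (F.obj (0 : T₀)) := F.map_isZero (isZero_zero T₀)
  have : IsIso h' := ((Triangle.mk (F.map (0 : X ⟶ 0)) (F.map (0 : 0 ⟶ X⟦(1 : ℤ)⟧))
    h').isZero₂_iff_isIso₃ hh).1 h0
  exact ⟨asIso h'⟩

/-- **Uniqueness of the stable category.** -/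
theorem exists_equivalence (k : Type w) [Semiring k] [Linear k V] [Linear k T₀] [Linear k T]
    (q₀ : V ⥤ T₀) (q : V ⥤ T) [q₀.Additive] [q.Additive] [q₀.Linear k] [q.Linear k]
    [q₀.Full] [q₀.EssSurj] [q.Full] [q.EssSurj] (hk : SameKer q₀ q)
    (hq : SendsSES SES q) (h₀ : FromSES SES q₀) :
    ∃ F : T₀ ⥤ T, F.IsEquivalence ∧ F.Additive ∧ F.Linear k ∧ Nonempty (q₀ ⋙ F ≅ q) ∧
      (∀ X, Nonempty (F.obj (X⟦(1 : ℤ)⟧) ≅ (F.obj X)⟦(1 : ℤ)⟧)) ∧
      ∀ {X Y Z : T₀} (f : X ⟶ Y) (g : Y ⟶ Z) (h : Z ⟶ X⟦(1 : ℤ)⟧),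
        Triangle.mk f g h ∈ distTriang T₀ →
        ∃ h' : F.obj Z ⟶ (F.obj X)⟦(1 : ℤ)⟧,
          Triangle.mk (F.map f) (F.map g) h' ∈ distTriang T := by
  have hw := fun {X Y Z : T₀} (f : X ⟶ Y) (g : Y ⟶ Z) (h : Z ⟶ X⟦(1 : ℤ)⟧) =>
    weak_dist hq h₀ (ind hk.le) (indIso hk.le) f g h
  exact ⟨ind hk.le, ind_isEquivalence hk.le hk.ge, inferInstance, inferInstance,
    ⟨indIso hk.le⟩, shift_iso (ind hk.le) hw, hw⟩

end

end LitU

end Lens
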