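import Pool.Agent.Lens.Lit3e
import Pool.Agent.Lens.LitU

/-!
# Every distinguished triangle of acyclic complexes comes from a short exact sequence of cycles
-/

open CategoryTheory CategoryTheory.Limits CategoryTheory.Pretriangulated Opposite

namespace Lens

universe w v u u'

section Lift

variable {T : Type u} [Category.{v} T] [Preadditive T]
  [HasZeroObject T] [HasShift T ℤ] [∀ n : ℤ, (shiftFunctor T n).Additive] [Pretriangulated T]
  (R : ObjectProperty T) [R.IsTriangulated]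

/-- a triangle with vertices in a full subcategory, as a triangle of the full subcategory -/
noncomputable def liftTri {X Y Z : R.FullSubcategory} (f : X.obj ⟶ Y.obj) (g : Y.obj ⟶ Z.obj)
    (h : Z.obj ⟶ X.obj⟦(1 : ℤ)⟧) : Triangle R.FullSubcategory :=
  Triangle.mk (X := X) (Y := Y) (Z := Z) ⟨f⟩ ⟨g⟩ (R.fullyFaithfulι.preimage
          (h ≫ (R.ι.commShiftIso (1 : ℤ)).inv.app X))

/-- the triangle of the big category underlying `liftTri` -/
noncomputable def liftTriIso {X Y Z : R.FullSubcategory} (f : X.obj ⟶ Y.obj) (g : Y.obj ⟶ Z.obj)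
    (h : Z.obj ⟶ X.obj⟦(1 : ℤ)⟧) :
    R.ι.mapTriangle.obj (liftTri R f g h) ≅ Triangle.mk f g h := by
  refine Triangle.isoMk _ _ (Iso.refl _) (Iso.refl _) (Iso.refl _) ?_ ?_ ?_
  · exact (Category.comp_id _).trans (Category.id_comp _).symm
  · exact (Category.comp_id _).trans (Category.id_comp _).symm
  · refine (congrArg (_ ≫ ·) (CategoryTheory.Functor.map_id _ _)).trans ?_
    refine (Category.comp_id _).trans (Eq.trans ?_ (Category.id_comp _).symm)
    change (h ≫ (R.ι.commShiftIso (1 : ℤ)).inv.app X) ≫ (R.ι.commShiftIso (1 : ℤ)).hom.app X = h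
    rw [Category.assoc, Iso.inv_hom_id_app]
    exact Category.comp_id _

/-- a triangle of a full subcategory is determined by the underlying triangle -/
theorem exists_iso_liftTri (t : Triangle R.FullSubcategory) {X Y Z : R.FullSubcategory}
    (f : X.obj ⟶ Y.obj) (g : Y.obj ⟶ Z.obj) (h : Z.obj ⟶ X.obj⟦(1 : ℤ)⟧)
    (e : R.ι.mapTriangle.obj t ≅ Triangle.mk f g h) : Nonempty (t ≅ liftTri R f g h) :=
  ⟨R.ι.mapTriangle.preimageIso (e ≪≫ (liftTriIso R f g h).symm)⟩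

omit R [R.IsTriangulated] [Preadditive T] [HasZeroObject T]
  [∀ n : ℤ, (shiftFunctor T n).Additive] [Pretriangulated T] in
/-- changing the objects of a triangle -/
theorem exists_mk_iso {X Y Z X' Y' Z' : T} (f : X ⟶ Y) (g : Y ⟶ Z) (h : Z ⟶ X⟦(1 : ℤ)⟧)
    (e₁ : X' ≅ X) (e₂ : Y' ≅ Y) (e₃ : Z' ≅ Z) (f' : X' ⟶ Y') (g' : Y' ⟶ Z')
    (h1 : f' ≫ e₂.hom = e₁.hom ≫ f) (h2 : g' ≫ e₃.hom = e₂.hom ≫ g) :
    ∃ h' : Z' ⟶ X'⟦(1 : ℤ)⟧, Nonempty (Triangle.mk f g h ≅ Triangle.mk f' g' h') := by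
  refine ⟨e₃.hom ≫ h ≫ e₁.inv⟦(1 : ℤ)⟧', ⟨(Triangle.isoMk _ _ e₁ e₂ e₃ h1 h2 ?_).symm⟩⟩
  change (e₃.hom ≫ h ≫ (shiftFunctor T (1 : ℤ)).map e₁.inv) ≫
    (shiftFunctor T (1 : ℤ)).map e₁.hom = e₃.hom ≫ h
  rw [Category.assoc, Category.assoc, ← Functor.map_comp, Iso.inv_hom_id,
    CategoryTheory.Functor.map_id, Category.comp_id]

end Lift

section

variable {k : Type v} [Field k] {𝓛 : Type u} [Category.{v} 𝓛] [Preadditive 𝓛] [Linear k 𝓛]
  {Rm : ∀ ⦃y z : 𝓛⦄, (y ⟶ z) → Prop}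
  (R : ObjectProperty (HomotopyCategory (Mat_ 𝓛) (ComplexShape.up ℤ))) [R.IsTriangulated]

/-- the image of a complex in the full subcategory -/
noncomputable abbrev inR (K : CochainComplex (Mat_ 𝓛) ℤ)
    (hK : R ((HomotopyCategory.quotient (Mat_ 𝓛) (ComplexShape.up ℤ)).obj K)) :
    R.FullSubcategory := ⟨(HomotopyCategory.quotient (Mat_ 𝓛) (ComplexShape.up ℤ)).obj K, hK⟩

/-- morphisms in the full subcategory given by chain maps -/
noncomputable abbrev inRmap {K L : CochainComplex (Mat_ 𝓛) ℤ}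
    {hK : R ((HomotopyCategory.quotient (Mat_ 𝓛) (ComplexShape.up ℤ)).obj K)}
    {hL : R ((HomotopyCategory.quotient (Mat_ 𝓛) (ComplexShape.up ℤ)).obj L)} (φ : K ⟶ L) :
    inR R K hK ⟶ inR R L hL :=
  ObjectProperty.homMk ((HomotopyCategory.quotient (Mat_ 𝓛) (ComplexShape.up ℤ)).map φ)

variable {R} in
/-- every distinguished triangle of the full subcategory comes from a degreewise split exact
sequence of complexes -/
theorem exists_split_triangle [R.IsClosedUnderIsomorphisms] (t : Triangle R.FullSubcategory)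
    (ht : t ∈ distTriang _) :
    ∃ (K L Q : CochainComplex (Mat_ 𝓛) ℤ)
      (hK : R ((HomotopyCategory.quotient (Mat_ 𝓛) (ComplexShape.up ℤ)).obj K))
      (hL : R ((HomotopyCategory.quotient (Mat_ 𝓛) (ComplexShape.up ℤ)).obj L))
      (hQ : R ((HomotopyCategory.quotient (Mat_ 𝓛) (ComplexShape.up ℤ)).obj Q))
      (f : K ⟶ L) (g : L ⟶ Q) (h : inR R Q hQ ⟶ (inR R K hK)⟦(1 : ℤ)⟧),
      Nonempty (SplitSeq f g) ∧ Nonempty (t ≅ Triangle.mk
        (inRmap R f : inR R K hK ⟶ inR R L hL) (inRmap R g : inR R L hL ⟶ inR R Q hQ) h) := by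
  obtain ⟨S, σ, ⟨i⟩⟩ :=
    (HomotopyCategory.distinguished_iff_iso_trianglehOfDegreewiseSplit _).1
      (show R.ι.mapTriangle.obj t ∈ distTriang _ from ht)
  have h1 : R ((HomotopyCategory.quotient (Mat_ 𝓛) (ComplexShape.up ℤ)).obj S.X₁) :=
    R.prop_of_iso (Triangle.π₁.mapIso i) t.obj₁.property
  have h2 : R ((HomotopyCategory.quotient (Mat_ 𝓛) (ComplexShape.up ℤ)).obj S.X₂) :=
    R.prop_of_iso (Triangle.π₂.mapIso i) t.obj₂.property
  have h3 : R ((HomotopyCategory.quotient (Mat_ 𝓛) (ComplexShape.up ℤ)).obj S.X₃) :=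
    R.prop_of_iso (Triangle.π₃.mapIso i) t.obj₃.property
  obtain ⟨j⟩ := exists_iso_liftTri R t (X := inR R S.X₁ h1) (Y := inR R S.X₂ h2)
    (Z := inR R S.X₃ h3) ((HomotopyCategory.quotient (Mat_ 𝓛) (ComplexShape.up ℤ)).map S.f)
    ((HomotopyCategory.quotient (Mat_ 𝓛) (ComplexShape.up ℤ)).map S.g) _ i
  exact ⟨S.X₁, S.X₂, S.X₃, h1, h2, h3, S.f, S.g, _, ⟨SplitSeq.of S σ⟩, ⟨j⟩⟩

/-- the cycles as a vector bundle -/
noncomputable abbrev inV (K : CochainComplex (Mat_ 𝓛) ℤ) (hK : Gen.IsVect Rm (Zobj k K)) :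
    Gen.Vect (k := k) Rm := ⟨Zobj k K, hK⟩

variable {R} in
/-- **FromSES**: every distinguished triangle of `T_ac` comes from a distinguished exact
sequence. -/
theorem fromSES [R.IsClosedUnderIsomorphisms]
    (hR : ∀ X, R X → ∀ w, ExactFor (EE w) X.as)
    (q₀ : Gen.Vect (k := k) Rm ⥤ R.FullSubcategory)
    (hV : ∀ K : CochainComplex (Mat_ 𝓛) ℤ,
      R ((HomotopyCategory.quotient (Mat_ 𝓛) (ComplexShape.up ℤ)).obj K) →
        Gen.IsVect Rm (Zobj k K))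
    (e : ∀ (K : CochainComplex (Mat_ 𝓛) ℤ)
      (hK : R ((HomotopyCategory.quotient (Mat_ 𝓛) (ComplexShape.up ℤ)).obj K)),
        q₀.obj (inV K (hV K hK)) ≅ inR R K hK)
    (he : ∀ (K L : CochainComplex (Mat_ 𝓛) ℤ)
      (hK : R ((HomotopyCategory.quotient (Mat_ 𝓛) (ComplexShape.up ℤ)).obj K))
      (hL : R ((HomotopyCategory.quotient (Mat_ 𝓛) (ComplexShape.up ℤ)).obj L)) (φ : K ⟶ L),
        q₀.map (ObjectProperty.homMk (Zmap k φ) : inV K (hV K hK) ⟶ inV L (hV L hL)) ≫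
          (e L hL).hom = (e K hK).hom ≫ inRmap R φ) :
    LitU.FromSES (fun f g => Gen.IsExact f g) q₀ := by
  intro t ht
  obtain ⟨K, L, Q, h1, h2, h3, f, g, h, ⟨σ⟩, ⟨j⟩⟩ := exists_split_triangle t ht
  obtain ⟨h', ⟨j'⟩⟩ := exists_mk_iso (X := inR R K h1) (Y := inR R L h2)
    (Z := inR R Q h3) _ _ h (e _ h1) (e _ h2) (e _ h3) _ _ (he _ _ h1 h2 f)
    (he _ _ h2 h3 g)
  exact ⟨inV K (hV _ h1), inV L (hV _ h2), inV Q (hV _ h3),
    ObjectProperty.homMk (Zmap k f), ObjectProperty.homMk (Zmap k g), h',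
    fun w => σ.cyc_exact w (hR _ h1 w), ⟨j ≪≫ j'⟩⟩

end

end Lens
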