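import Mathlib
import Pool.Agent.Lens.Lit3f
import Pool.Agent.Lens.LitT
import Pool.Agent.Lens.LitTS

/-!
# `q₀` sends exact sequences to triangles, and every triangle comes from an exact sequence
-/

open CategoryTheory CategoryTheory.Limits CategoryTheory.Preadditive
  CategoryTheory.Pretriangulated Opposite

namespace Lens

universe u

variable {k : Type u} [Field k] {n : ℕ} {lam : Fin n → Fin 2 → k}

namespace Q0

variable (D : Q0 lam)

theorem Zmap_comp' {K L M : CochainComplex (Mat_ (LB lam)) ℤ} (φ : K ⟶ L) (ψ : L ⟶ M) :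
    Zmap k (φ ≫ ψ) = Zmap k φ ≫ Zmap k ψ := (Zf k (LB lam)).map_comp φ ψ

/-- complete resolutions of cycles -/
noncomputable def eZ {K : CochainComplex (Mat_ (LB lam)) ℤ} (hK : Ac K) :
    D.q.obj (D.Zv hK) ≅ tac hK := (D.exists_iso (D.ac (D.Zv hK)) hK (D.e (D.Zv hK))).choose

theorem eZ_spec {K : CochainComplex (Mat_ (LB lam)) ℤ} (hK : Ac K) :
    ∃ φ : D.K (D.Zv hK) ⟶ K, Zmap k φ = (D.e (D.Zv hK)).hom ∧
      (D.eZ hK).hom = tmap (D.ac (D.Zv hK)) hK φ :=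
  (D.exists_iso (D.ac (D.Zv hK)) hK (D.e (D.Zv hK))).choose_spec

theorem eZ_nat {K L : CochainComplex (Mat_ (LB lam)) ℤ} (hK : Ac K) (hL : Ac L) (φ : K ⟶ L) :
    D.q.map (ObjectProperty.homMk (Zmap k φ) : D.Zv hK ⟶ D.Zv hL) ≫ (D.eZ hL).hom =
      (D.eZ hK).hom ≫ tmap hK hL φ := by
  obtain ⟨a, ha, ha'⟩ := D.eZ_spec hK
  obtain ⟨b, hb, hb'⟩ := D.eZ_spec hL
  obtain ⟨ψ, hψ⟩ := D.exists_lift (ObjectProperty.homMk (Zmap k φ) : D.Zv hK ⟶ D.Zv hL)
  rw [D.q_map_eq _ ψ hψ, ha', hb']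
  refine (tmap_comp _ _ _ ψ b).symm.trans (Eq.trans ?_ (tmap_comp _ _ _ a φ))
  refine D.tmap_eq_of_Zmap _ _ ?_
  rw [Zmap_comp', Zmap_comp', hψ, hb, ha]
  have aux : ∀ {A B C C' : (LB lam)ᵒᵖ ⥤ ModuleCat.{u} k} (x : A ⟶ B) (y : B ⟶ C) (e : C' ≅ C),
      (x ≫ y ≫ e.inv) ≫ e.hom = x ≫ y := by
    intros
    simp
  exact aux _ _ _

theorem q_fromSES : LitU.FromSES (fun f g => Gen.IsExact f g) D.q :=
  fromSES (R := acP lam) (fun _ hX w => hX w) D.q (fun _ hK => D.vect hK)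
    (fun _ hK => D.eZ hK) (fun _ _ hK hL φ => D.eZ_nat hK hL φ)

theorem ac_shift {K : CochainComplex (Mat_ (LB lam)) ℤ} (hK : Ac K) (a : ℤ) : Ac (K⟦a⟧) := by
  have h1 : acP lam ((HomotopyCategory.quotient _ _).obj K) := hK
  have h2 : acP lam (((HomotopyCategory.quotient _ _).obj K)⟦a⟧) :=
    (acP lam).le_shift a _ h1
  exact (acP lam).prop_of_iso
    (((HomotopyCategory.quotient (Mat_ (LB lam)) (ComplexShape.up ℤ)).commShiftIso a).app K).symm h2

theorem exists_triangle_inr {K K' : CochainComplex (Mat_ (LB lam)) ℤ} (hK : Ac K) (φ : K' ⟶ K)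
    (hC : Ac (CochainComplex.mappingCone φ)) (hK' : Ac (K'⟦(1 : ℤ)⟧)) :
    ∃ h : tac hK' ⟶ (tac hK)⟦(1 : ℤ)⟧,
      Triangle.mk (tmap hK hC (CochainComplex.mappingCone.inr φ))
        (tmap hC hK' (CochainComplex.mappingCone.triangle φ).mor₃) h ∈ distTriang (Tac lam) := by
  have h1 := rot_of_distTriang _ (HomotopyCategory.mappingCone_triangleh_distinguished φ)
  let Q := HomotopyCategory.quotient (Mat_ (LB lam)) (ComplexShape.up ℤ)
  obtain ⟨h2, ⟨i⟩⟩ := exists_mk_iso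
    (CochainComplex.mappingCone.triangleh φ).rotate.mor₁
    (CochainComplex.mappingCone.triangleh φ).rotate.mor₂
    (CochainComplex.mappingCone.triangleh φ).rotate.mor₃
    (Iso.refl (Q.obj K)) (Iso.refl (Q.obj (CochainComplex.mappingCone φ)))
    ((Q.commShiftIso (1 : ℤ)).app K')
    (Q.map (CochainComplex.mappingCone.inr φ))
    (Q.map (CochainComplex.mappingCone.triangle φ).mor₃)
    ((Category.comp_id _).trans (Category.id_comp _).symm)
    (Category.id_comp _).symm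
  have h3 : Triangle.mk (Q.map (CochainComplex.mappingCone.inr φ))
      (Q.map (CochainComplex.mappingCone.triangle φ).mor₃) h2 ∈ distTriang (KMl lam) :=
    isomorphic_distinguished _ h1 _ i.symm
  have h4 : (acP lam).ι.mapTriangle.obj (liftTri (acP lam) (X := tac hK) (Y := tac hC)
      (Z := tac hK') (Q.map (CochainComplex.mappingCone.inr φ))
      (Q.map (CochainComplex.mappingCone.triangle φ).mor₃) h2) ∈ distTriang (KMl lam) :=
    isomorphic_distinguished _ h3 _ (liftTriIso (acP lam) _ _ _)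
  exact ⟨_, h4⟩

theorem q_sendsSES {M₁ M₂ M₃ : VectL lam} (f : M₁ ⟶ M₂) (g : M₂ ⟶ M₃)
    (hfg : Gen.IsExact f g) : ∃ h : D.q.obj M₃ ⟶ (D.q.obj M₁)⟦(1 : ℤ)⟧,
      Triangle.mk (D.q.map f) (D.q.map g) h ∈ distTriang (Tac lam) := by
  let K := D.K M₁
  let K' : CochainComplex (Mat_ (LB lam)) ℤ := (D.K M₃)⟦(-1 : ℤ)⟧
  have hK : Ac K := D.ac M₁
  have hK' : Ac K' := ac_shift (D.ac M₃) _
  have hK'1 : Ac (K'⟦(1 : ℤ)⟧) := ac_shift hK' _
  let c : K'⟦(1 : ℤ)⟧ ≅ D.K M₃ :=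
    (shiftFunctorCompIsoId (CochainComplex (Mat_ (LB lam)) ℤ) (-1 : ℤ) 1 (by lia)).app (D.K M₃)
  have hc1 : Zmap k c.hom ≫ Zmap k c.inv = 𝟙 _ := by
    rw [← Zmap_comp', c.hom_inv_id]
    exact (Zf k (LB lam)).map_id _
  have hc2 : Zmap k c.inv ≫ Zmap k c.hom = 𝟙 _ := by
    rw [← Zmap_comp', c.inv_hom_id]
    exact (Zf k (LB lam)).map_id _
  let cz : Zobj k (K'⟦(1 : ℤ)⟧) ≅ Zobj k (D.K M₃) := ⟨Zmap k c.hom, Zmap k c.inv, hc1, hc2⟩
  let f' : Zobj k K ⟶ M₂.obj := (D.e M₁).hom ≫ f.hom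
  let g' : M₂.obj ⟶ Zobj k (K'⟦(1 : ℤ)⟧) := g.hom ≫ (D.e M₃).inv ≫ Zmap k c.inv
  have hb1 : ∀ z : LB lam, Function.Bijective ((D.e M₁).hom.app (op z)) := fun z =>
    (ConcreteCategory.isIso_iff_bijective _).1 inferInstance
  have hb3 : ∀ z : LB lam, Function.Bijective (((D.e M₃).inv ≫ Zmap k c.inv).app (op z)) :=
    fun z => (ConcreteCategory.isIso_iff_bijective _).1
      (inferInstanceAs (IsIso (((D.e M₃).symm ≪≫ cz.symm).hom.app (op z))))
  obtain ⟨φ, β, h1, h2⟩ := LitT.exists_cone (k := k) (K := K) (K' := K') (fun z => hK z)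
    (fun z => hK' z) M₂.property.1 f' g'
    (fun z => by
      have := (hfg z).1.comp (hb1 z).1
      exact this)
    (fun z x => by
      have h3 : g'.app (op z) x = ((D.e M₃).inv ≫ Zmap k c.inv).app (op z) (g.hom.app (op z) x) :=
        rfl
      rw [h3]
      constructor
      · intro h4
        have h5 : g.hom.app (op z) x = 0 := (hb3 z).1 (by rw [h4, map_zero])
        obtain ⟨y, hy⟩ := ((hfg z).2.1 x).1 h5
        obtain ⟨w, hw⟩ := (hb1 z).2 y
        exact ⟨w, by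
          change f.hom.app (op z) ((D.e M₁).hom.app (op z) w) = x
          rw [hw, hy]⟩
      · rintro ⟨w, rfl⟩
        have h5 : g.hom.app (op z) (f'.app (op z) w) = 0 :=
          ((hfg z).2.1 _).2 ⟨(D.e M₁).hom.app (op z) w, rfl⟩
        rw [h5, map_zero])
    (fun z => by
      have := (hb3 z).2.comp (hfg z).2.2
      exact this)
    (fun θ => Zmap_surjective (fun z => hK' z) (D.coex hK') (fun z => hK z) θ)
  have hC : Ac (CochainComplex.mappingCone φ) := fun z => LitT.exactFor_cone φ _ (hK' z) (hK z)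
  obtain ⟨h, hh⟩ := exists_triangle_inr hK φ hC hK'1
  obtain ⟨e2, φ2, hφ2, he2⟩ := D.exists_iso (D.ac M₂) hC (D.e M₂ ≪≫ β.symm)
  obtain ⟨ψf, hψf⟩ := D.exists_lift f
  obtain ⟨ψg, hψg⟩ := D.exists_lift g
  let e3 : D.q.obj M₃ ≅ tac hK'1 :=
    ⟨tmap (D.ac M₃) hK'1 c.inv, tmap hK'1 (D.ac M₃) c.hom,
      (tmap_comp _ _ _ _ _).symm.trans ((congrArg _ c.inv_hom_id).trans (tmap_id _)),
      (tmap_comp _ _ _ _ _).symm.trans ((congrArg _ c.hom_inv_id).trans (tmap_id _))⟩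
  obtain ⟨h', ⟨j⟩⟩ := exists_mk_iso (tmap hK hC (CochainComplex.mappingCone.inr φ))
    (tmap hC hK'1 (CochainComplex.mappingCone.triangle φ).mor₃) h
    (Iso.refl (D.q.obj M₁)) e2 e3 (D.q.map f) (D.q.map g) (by
      rw [D.q_map_eq f ψf hψf, he2]
      refine (tmap_comp _ _ _ _ _).symm.trans (Eq.trans ?_ (Category.id_comp _).symm)
      refine D.tmap_eq_of_Zmap _ _ ?_
      rw [Zmap_comp', hψf, hφ2]
      have h3 : Zmap k (CochainComplex.mappingCone.inr φ) = f' ≫ β.inv := by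
        rw [← h1]; simp
      rw [h3]
      simp [f']) (by
      rw [D.q_map_eq g ψg hψg, he2]
      refine (tmap_comp _ _ _ _ _).symm.trans (Eq.trans ?_ (tmap_comp _ _ _ _ _))
      refine D.tmap_eq_of_Zmap _ _ ?_
      rw [Zmap_comp', Zmap_comp', hψg, hφ2]
      refine Eq.trans ?_ (congrArg ((D.e M₂ ≪≫ β.symm).hom ≫ ·) h2)
      simp [g'])
  exact ⟨h', isomorphic_distinguished _ hh _ j.symm⟩

/-- **`T_ac` is the stable category of vector bundles.** -/
theorem isStableModel : Gen.IsStableModel D.q := D.q_isStableModel D.q_sendsSES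

end Q0

end Lens
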