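import Mathlib
import Pool.Agent.Lens.Lit3a
import Pool.Agent.Lens.DVoc
import Pool.Agent.Lens.D1c
import Pool.Agent.Lens.Basis
import Pool.Agent.Lens.Rlam

/-!
# The cycles of an exact complex are finite and free over `k[T₀, T₁]`
-/

open CategoryTheory CategoryTheory.Limits Opposite

namespace Lens

universe u

variable {k : Type u} [Field k] {n : ℕ} {lam : Fin n → Fin 2 → k}

namespace LitZV

/-- a nonzero element is homogeneous of at most one degree -/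
theorem piece_unique {y z : LG n} {f : S lam} (hf : f ≠ 0) (hy : f ∈ piece lam y)
    (hz : f ∈ piece lam z) : y = z := by
  obtain ⟨r, hr, rfl⟩ := (mem_piece_iff' _ _).1 hy
  obtain ⟨s, hs, hrs⟩ := (mem_piece_iff' _ _).1 hz
  have hr0 : r ≠ 0 := by
    rintro rfl
    simp at hf
  have h1 := congrArg (coef lam y.I) hrs
  rw [coef_xI_mul_iota, coef_xI_mul_iota, if_pos rfl] at h1
  by_cases hI : z.I = y.I
  · rw [if_pos hI] at h1
    subst h1
    refine LG.ext hI.symm ?_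
    have ha : 0 ≤ y.a := by
      by_contra h
      exact hr0 (hr.1 (not_le.1 h))
    have hb : 0 ≤ z.a := by
      by_contra h
      exact hr0 (hs.1 (not_le.1 h))
    obtain ⟨a, ha⟩ := Int.eq_ofNat_of_zero_le ha
    obtain ⟨b, hb⟩ := Int.eq_ofNat_of_zero_le hb
    rw [ha, hb, (hr.2 a ha).inj_right (hs.2 b hb) hr0]
  · rw [if_neg hI] at h1
    exact absurd h1 hr0

theorem tt_mem (j : Fin 2) : tt lam j ∈ piece lam LG.c := by
  fin_cases j
  · exact kosS_tt.hu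
  · exact kosS_tt.hv

theorem tt_ne_zero (j : Fin 2) : tt lam j ≠ 0 := by
  rw [tt_eq]
  intro h
  exact MvPolynomial.X_ne_zero j (iota_injective lam (h.trans (map_zero _).symm))

/-- the map `T_j : 𝒪(w') → 𝒪(w)`, `w = w' + c` -/
noncomputable def tMor (j : Fin 2) {w w' : LG n} (h : w = w' + LG.c) :
    (⟨w'⟩ : LB lam) ⟶ ⟨w⟩ :=
  LB.homMk (tt lam j) (mem_piece_of_eq (tt_mem j) (by rw [h]; simp))

/-- the entries of a morphism `𝒪(w) → F` -/
def ent {w : LB lam} {F : Mat_ (LB lam)} (p : EE w ⟶ F) (b : F.ι) : w ⟶ F.X b :=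
  (p : Mat_.Hom (EE w) F) (PUnit.unit : (EE w).ι) b

/-- a morphism `𝒪(w) → F` with given entries -/
def ofEnt {w : LB lam} {F : Mat_ (LB lam)} (e : ∀ b : F.ι, w ⟶ F.X b) : EE w ⟶ F :=
  (fun _ b => e b : Mat_.Hom (EE w) F)

@[simp] theorem ent_ofEnt {w : LB lam} {F : Mat_ (LB lam)} (e : ∀ b : F.ι, w ⟶ F.X b) (b : F.ι) :
    ent (ofEnt e) b = e b := rfl

theorem ent_comp {w w' : LB lam} (f : w' ⟶ w) {F : Mat_ (LB lam)} (p : EE w ⟶ F) (b : F.ι) :
    ent (Em f ≫ p) b = f ≫ ent p b :=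
  (Mat_.comp_apply (M := EE w') (N := EE w) (K := F) (Em f) p (PUnit.unit : PUnit) b).trans
    (Fintype.sum_unique (ι := PUnit) _)

theorem ent_add {w : LB lam} {F : Mat_ (LB lam)} (p q : EE w ⟶ F) (b : F.ι) :
    ent (p + q) b = ent p b + ent q b := rfl

theorem ent_neg {w : LB lam} {F : Mat_ (LB lam)} (p : EE w ⟶ F) (b : F.ι) :
    ent (-p) b = - ent p b := rfl

theorem ent_zero {w : LB lam} {F : Mat_ (LB lam)} (b : F.ι) :
    ent (0 : EE w ⟶ F) b = 0 := rfl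

theorem ent_ext {w : LB lam} {F : Mat_ (LB lam)} {p q : EE w ⟶ F}
    (h : ∀ b : F.ι, ent p b = ent q b) : p = q :=
  Mat_.hom_ext _ _ fun _ b => h b

/-- the family `w ↦ Hom (𝒪(w), F)` with the operators `T₀`, `T₁` -/
noncomputable abbrev hUV (F : Mat_ (LB lam)) : UV k (LG.c : LG n) (LG.c : LG n) where
  M w := EE (⟨w⟩ : LB lam) ⟶ F
  U w w' h := Linear.leftComp k F (Em (tMor 0 h))
  V w w' h := Linear.leftComp k F (Em (tMor 1 h))
  comm w w₁ w₂ w₃ h₁ h₂ h₃ h₄ x := by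
    change Em (tMor 1 h₃) ≫ Em (tMor 0 h₁) ≫ x = Em (tMor 0 h₄) ≫ Em (tMor 1 h₂) ≫ x
    rw [← Category.assoc, ← Category.assoc]
    congr 1
    rw [Em, Em, Em, Em, ← Functor.map_comp, ← Functor.map_comp]
    congr 1
    apply LB.hom_ext
    exact mul_comm _ _

theorem hUV_koszul (F : Mat_ (LB lam)) : (hUV F).Koszul := by
  intro w' w₁ w₂ w h₁ h₂ h₁' h₂' (p : EE (⟨w₁⟩ : LB lam) ⟶ F) (q : EE (⟨w₂⟩ : LB lam) ⟶ F) hpq
  change Em (tMor 0 h₁) ≫ p + Em (tMor 1 h₂) ≫ q = 0 at hpq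
  have key : ∀ b : F.ι, ∃ t ∈ piece lam ((F.X b).z - w),
      LB.Hom.f (ent p b) = tt lam 1 * t ∧ LB.Hom.f (ent q b) = - (tt lam 0 * t) := by
    intro b
    refine kosS_tt.kos ((F.X b).z - w) _ _ ?_ ?_ ?_
    · exact mem_piece_of_eq (ent p b).mem (by rw [h₁']; abel)
    · exact mem_piece_of_eq (ent q b).mem (by rw [h₂']; abel)
    · have h0 : ent (Em (tMor 0 h₁) ≫ p + Em (tMor 1 h₂) ≫ q) b = 0 := by
        rw [hpq]; rfl
      rw [ent_add, ent_comp, ent_comp] at h0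
      exact congrArg LB.Hom.f h0
  choose t ht htp htq using key
  refine ⟨(ofEnt fun b => LB.homMk (t b) (ht b) : EE (⟨w⟩ : LB lam) ⟶ F), ?_, ?_⟩
  · refine ent_ext fun b => ?_
    refine Eq.trans ?_ (ent_comp _ _ _).symm
    exact LB.hom_ext (htp b)
  · refine ent_ext fun b => ?_
    refine Eq.trans ?_ (congrArg Neg.neg (ent_comp _ _ _)).symm
    exact LB.hom_ext (htq b)

theorem hUV_inj (F : Mat_ (LB lam)) (w w' : LG n) (h) (x : (hUV F).M w)
    (hx : (hUV F).V w w' h x = 0) : x = 0 := by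
  change EE (⟨w⟩ : LB lam) ⟶ F at x
  change Em (tMor 1 h) ≫ x = 0 at hx
  change x = 0
  refine ent_ext fun b => LB.hom_ext (kosS_tt.inj_v _ ?_)
  have h0 : ent (Em (tMor 1 h) ≫ x) b = 0 := by
    rw [hx]; rfl
  rw [ent_comp] at h0
  exact congrArg LB.Hom.f h0

theorem hUV_bdd (F : Mat_ (LB lam)) :
    ∃ N : ℤ, ∀ w, N < dgHom n w → ∀ z : (hUV F).M w, z = 0 := by
  refine ⟨∑ a, |((F.X a).z).dg|, fun w hw x => ?_⟩
  change EE (⟨w⟩ : LB lam) ⟶ F at x
  change x = 0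
  refine ent_ext fun a => LB.hom_ext ?_
  refine eq_zero_of_dg_neg ?_ (ent x a).mem
  change LG.dg ((F.X a).z - w) < 0
  rw [LG.dg_sub]
  have h1 : |((F.X a).z).dg| ≤ ∑ a, |((F.X a).z).dg| :=
    Finset.single_le_sum (f := fun a => |((F.X a).z).dg|) (fun i _ => abs_nonneg _)
      (Finset.mem_univ a)
  have h2 := le_abs_self ((F.X a).z).dg
  simp only [dgHom_apply] at hw
  linarith

/-- the differential on the families -/
noncomputable abbrev hDif (K : CochainComplex (Mat_ (LB lam)) ℤ) (i j : ℤ) :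
    UV.Hom (hUV (K.X i)) (hUV (K.X j)) where
  f w := Linear.rightComp k (EE (⟨w⟩ : LB lam)) (K.d i j)
  hU w _ h x := Category.assoc (Em (tMor 0 h)) (x : EE (⟨w⟩ : LB lam) ⟶ K.X i) (K.d i j)
  hV w _ h x := Category.assoc (Em (tMor 1 h)) (x : EE (⟨w⟩ : LB lam) ⟶ K.X i) (K.d i j)

/-- The cycles of an exact complex are a retract over `k[T₀, T₁]`. -/
theorem exists_retraction {K : CochainComplex (Mat_ (LB lam)) ℤ} (hK : Ac K) (i : ℤ) :
    ∃ pi : ∀ w : LB lam, (EE w ⟶ K.X (i + 1)) →ₗ[k] (EE w ⟶ K.X (i + 1)),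
      (∀ w u, pi w u ≫ K.d (i + 1) (i + 1 + 1) = 0) ∧
      (∀ w u, u ≫ K.d (i + 1) (i + 1 + 1) = 0 → pi w u = u) ∧
      (∀ (j : Fin 2) (w w' : LB lam) (f : w' ⟶ w), LB.Hom.f f = tt lam j →
        ∀ u, pi w' (Em f ≫ u) = Em f ≫ pi w u) := by
  obtain ⟨h, h1, h2, h3⟩ := UV.exists_contraction (fun i => hUV (K.X i))
    (fun i => hDif K i (i + 1))
    (fun i w x => by
      change (x ≫ K.d i (i + 1)) ≫ K.d (i + 1) (i + 1 + 1) = 0
      rw [Category.assoc, K.d_comp_d, comp_zero])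
    (fun i w x hx => hK ⟨w⟩ i (i + 1) (i + 1 + 1) rfl rfl x hx)
    (fun i => hUV_koszul _) (fun i => hUV_inj _) (dgHom n) (by simp [LG.dg]) (by simp [LG.dg])
    (fun i => hUV_bdd _)
  refine ⟨fun w => (Linear.rightComp k (EE w) (K.d i (i + 1))).comp (h i w.z), ?_, ?_, ?_⟩
  · intro w u
    change (h i w.z u ≫ K.d i (i + 1)) ≫ K.d (i + 1) (i + 1 + 1) = 0
    rw [Category.assoc, K.d_comp_d, comp_zero]
  · intro w u hu
    have e1 := h1 i w.z u
    have e2 : (hDif K (i + 1) (i + 1 + 1)).f w.z u = 0 := hu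
    rw [e2, map_zero, add_zero] at e1
    exact e1
  · intro j w w' f hf u
    have hw : w.z = w'.z + LG.c := by
      have e1 : tt lam j ∈ piece lam (w.z - w'.z) := hf ▸ f.mem
      have e2 := piece_unique (tt_ne_zero j) e1 (tt_mem j)
      rw [← e2]
      abel
    change h i w'.z (Em f ≫ u) ≫ K.d i (i + 1) = Em f ≫ h i w.z u ≫ K.d i (i + 1)
    rw [← Category.assoc]
    congr 1
    have e3 : f = tMor j hw := LB.hom_ext hf
    rw [e3]
    fin_cases j
    · exact h2 i w.z w'.z hw u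
    · exact h3 i w.z w'.z hw u

end LitZV

open LitZV in
/-- The cycles of an exact complex are a vector bundle. -/
theorem Z_isVect {K : CochainComplex (Mat_ (LB lam)) ℤ} (hK : Ac K) :
    Gen.IsVect Rlam (Zobj k K) := by
  obtain ⟨pi, h1, h2, h3⟩ := exists_retraction hK (-1)
  obtain ⟨r, z, m, hm, hb⟩ := exists_basis_of_retract (K.X 0) (fun w => cyc k K w)
    (fun f u hu => by
      rw [mem_cyc] at hu ⊢
      rw [Category.assoc, hu, comp_zero])
    pi (fun w u => mem_cyc.2 (h1 w u)) (fun w u hu => h2 w u (mem_cyc.1 hu)) h3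
  refine ⟨Zobj_isGr K, r, z, fun j => ⟨m j, hm j⟩, fun w u => ?_⟩
  obtain ⟨f, ⟨hf1, hf2⟩, hf3⟩ := hb w (Subtype.val (p := fun x => x ∈ cyc k K w) u)
    (Subtype.property (p := fun x => x ∈ cyc k K w) u)
  have hval : ∀ g : ∀ j, w ⟶ z j, Subtype.val (p := fun x => x ∈ cyc k K w)
      (∑ j, (Zobj k K).map (g j).op (⟨m j, hm j⟩ : cyc k K (z j))) = ∑ j, Em (g j) ≫ m j := by
    intro g
    exact map_sum (cyc k K w).subtype _ _
  refine ⟨f, ⟨hf1, Subtype.ext ?_⟩, fun g hg => hf3 g ⟨hg.1, ?_⟩⟩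
  · exact hf2.trans (hval f).symm
  · rw [← hval g]
    exact congrArg (Subtype.val (p := fun x => x ∈ cyc k K w)) hg.2

end Lens
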