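import Mathlib
import Pool.Agent.Lens.Lit3g
import Pool.Agent.Lens.Lit3d
import Pool.Agent.Lens.LitZV
import Pool.Agent.Lens.D1

/-!
# `T_ac` is the stable category of vector bundles over `LB lam`
-/

open CategoryTheory CategoryTheory.Limits Opposite

namespace Lens

universe u

variable {k : Type u} [Field k] {n : ℕ} {lam : Fin n → Fin 2 → k}

/-- the complete resolutions -/
noncomputable def q0data (hl : Indep lam) (hn : 2 ≤ n) : Q0 lam where
  coex hK w := hK.coexact hl hn w
  vect hK := Z_isVect hK
  K M := (exists_Z_iso hl hn M.obj M.property).choose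
  ac M := (exists_Z_iso hl hn M.obj M.property).choose_spec.1
  e M := (exists_Z_iso hl hn M.obj M.property).choose_spec.2.some

/-- the functor from vector bundles to `T_ac` -/
noncomputable def q0 (hl : Indep lam) (hn : 2 ≤ n) : VectL lam ⥤ Tac lam := (q0data hl hn).q

theorem q0_isStableModel (hl : Indep lam) (hn : 2 ≤ n) : Gen.IsStableModel (q0 hl hn) :=
  (q0data hl hn).isStableModel

theorem q0_fromSES (hl : Indep lam) (hn : 2 ≤ n) :
    LitU.FromSES (fun f g => Gen.IsExact f g) (q0 hl hn) :=
  (q0data hl hn).q_fromSES

end Lens
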