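import Pool.Agent.Lens.Bridge
import Pool.Agent.Lens.DVoc
import Pool.Agent.Lens.F

/-!
# The weighted projective line `X(2, …, 2)` with the points `a 0, …, a (n - 1)`
-/

open CategoryTheory

namespace Lens

universe u

variable {k : Type u} [Field k] {n : ℕ}

/-- the weighted projective line with the points `T₁ = a i T₀` and all weights `2` -/
def XP (a : Fin n → k) (ha : Function.Injective a) : WPL k where
  t := n
  p _ := 2
  two_le _ := le_rfl
  a i := -(a i)
  b _ := 1
  ne _ := Or.inr one_ne_zero
  indep i j hij := by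
    rw [mul_one, mul_one]
    intro h
    exact hij (ha (neg_injective h))

variable (a : Fin n → k) (ha : Function.Injective a)

theorem XP_t : (XP a ha).t = n := rfl

theorem XP_p (i : Fin (XP a ha).t) : (XP a ha).p i = 2 := rfl

theorem XP_chi : (XP a ha).chi = 2 - n / 2 := by
  have h : (XP a ha).chi = 2 - ∑ i : Fin n, (1 - 1 / ((2 : ℕ) : ℚ)) := rfl
  rw [h, Finset.sum_const, Finset.card_univ, Fintype.card_fin, nsmul_eq_mul]
  push_cast
  ring

theorem XP_chi_neg (hn : 5 ≤ n) : (XP a ha).chi < 0 := by
  rw [XP_chi]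
  have : (5 : ℚ) ≤ n := by exact_mod_cast hn
  linarith

/-- the points as linear forms `- a i T₀ + T₁` -/
def lamP (a : Fin n → k) : Fin n → Fin 2 → k := fun i => ![-(a i), 1]

theorem XP_lam : (XP a ha).lam = lamP a := rfl

theorem lamP_zero (i : Fin n) : lamP a i 0 = -(a i) := rfl

theorem lamP_one (i : Fin n) : lamP a i 1 = 1 := rfl

include ha in
theorem lamP_indep : Indep (lamP a) := (XP a ha).indep

theorem lamP_fixes (s : k ≃+* k) (hs : ∀ i, s (a i) = a i) : Fixes (lamP a) s := by
  intro i j
  fin_cases j
  · exact (map_neg s _).trans (congrArg _ (hs i))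
  · exact map_one s

end Lens
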