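import Pool.Agent.Lens.Lit3h
import Pool.Agent.Lens.Lit2
import Pool.Agent.Lens.BridgeV
import Pool.Agent.Lens.X12
import Pool.Agent.Lens.Thick

/-!
# From `T_ac` to every model of the stable category of vector bundles
-/

open CategoryTheory CategoryTheory.Limits CategoryTheory.Pretriangulated Opposite

namespace Lens

universe w v u

section

variable {k : Type u} [Field k] {n : ℕ} {lam : Fin n → Fin 2 → k}

variable {T : Type w} [Category.{v} T] [Preadditive T] [Linear k T]
  [HasZeroObject T] [HasShift T ℤ] [∀ n : ℤ, (shiftFunctor T n).Additive] [Pretriangulated T]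

/-- **Uniqueness**: every model of the stable category of vector bundles over `LB lam` is
equivalent to `T_ac`. -/
theorem exists_weakTri (hl : Indep lam) (hn : 2 ≤ n) (q : VectL lam ⥤ T)
    (hq : Gen.IsStableModel q) :
    ∃ F : Tac lam ⥤ T, F.IsEquivalence ∧ F.Additive ∧ F.Linear k ∧ WeakTri F := by
  have h0 := q0_isStableModel hl hn
  have i1 : (q0 hl hn).Additive := ⟨h0.map_add _ _⟩
  have i2 : q.Additive := ⟨hq.map_add _ _⟩
  have i3 : (q0 hl hn).Linear k := ⟨fun f a => h0.map_smul a f⟩
  have i4 : q.Linear k := ⟨fun f a => hq.map_smul a f⟩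
  have i5 : (q0 hl hn).Full := ⟨h0.full⟩
  have i6 : (q0 hl hn).EssSurj := ⟨h0.surj⟩
  have i7 : q.Full := ⟨hq.full⟩
  have i8 : q.EssSurj := ⟨hq.surj⟩
  obtain ⟨F, h1, h2, h3, -, h5, h6⟩ := LitU.exists_equivalence
    (SES := fun f g => Gen.IsExact f g) k (q0 hl hn) q
    (fun f => (h0.map_eq_zero_iff f).trans (hq.map_eq_zero_iff f).symm) hq.triangle
    (q0_fromSES hl hn)
  exact ⟨F, h1, h2, h3, ⟨h5, h6⟩⟩

theorem not_transitive_of_stable (hl : Indep lam) (hn : 2 ≤ n)
    (hmain : ¬ BraidTransitive k (Tac lam)) (q : VectL lam ⥤ T)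
    (hq : Gen.IsStableModel q) : ¬ BraidTransitive k T := by
  obtain ⟨F, h1, h2, h3, h4⟩ := exists_weakTri hl hn q hq
  exact fun h => hmain (h.of_weak F h4)

end

/-- the reduction of the literal statement to `T_ac` -/
theorem notTransitive_of_Tac {k : Type u} [Field k] {n : ℕ} (hn : 5 ≤ n) (a : Fin n → k)
    (ha : Function.Injective a) (hmain : ¬ BraidTransitive k (Tac (lamP a))) :
    NotTransitive.{w, v, u} k := by
  have hl : Indep (XP a ha).lam := lamP_indep a ha
  have hn2 : 2 ≤ (XP a ha).t := (show 2 ≤ 5 by norm_num).trans hn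
  refine ⟨XP a ha, XP_chi_neg a ha hn, ?_, ?_⟩
  · obtain ⟨q, hq⟩ := (XP a ha).exists_stable (XP_p a ha) (q0 hl hn2) (q0_isStableModel hl hn2)
    exact ⟨Tac (XP a ha).lam, inferInstance, inferInstance, inferInstance, inferInstance,
      inferInstance, inferInstance, inferInstance, inferInstance, inferInstance, q, hq⟩
  · intro T _ _ _ _ _ _ _ _ q hq
    exact not_transitive_of_stable hl hn2 hmain _ ((XP a ha).stable_lam (XP_p a ha) q hq)

end Lens
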