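import Pool.Agent.Lens.TAStk
import Pool.Agent.Lens.G3
import Pool.Agent.Lens.LitFin
import Pool.Agent.Lens.DEquiv

/-!
# Main theorem: every algebraically closed field
-/

set_option autoImplicit false

namespace Lens

universe w v u

/-- Let `k` be an algebraically closed field. For some weighted projective line over `k` with
`χ < 0`, the braid group action on complete exceptional sequences in the stable category of
vector bundles is not transitive. -/
theorem notTransitive (k : Type u) [Field k] [IsAlgClosed k] : NotTransitive.{w, v, u} k := by
  obtain ⟨r, hr3, hrk, h⟩ := exists_points_all k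
  obtain ⟨s, z, a, hz, hne, ha, hs⟩ := h (9 * (r + 3))
  have hn : Fact (3 ≤ 9 * (r + 3)) := ⟨by omega⟩
  exact notTransitive_of_Tac (by omega) a ha (not_braidTransitive_Tac_of_TA (lamP_indep a ha)
    (not_braidTransitive_TA_stk (by omega) hrk s (lamP_fixes a s hs) z hz hne))

end Lens
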