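import Pool.Agent.Lens.SC
import Pool.Agent.Lens.Elim

/-!
# Acyclic matchings of stars, and their transfer along local isomorphisms
-/

set_option autoImplicit false

open Finset

namespace Lens

namespace Cells

/-- an acyclic matching of the star of `τ` with the facet `t` as its only critical cell -/
def Match (Z : Cells) (τ t : Z.N) : Prop :=
  (Z.le τ t ∧ Z.dim t = 3) ∧ ∃ P : List (Z.N × Z.N),
    (∀ p ∈ P, Z.inc p.2 p.1 ≠ 0 ∧ Z.le τ p.1) ∧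
    P.Pairwise (fun p q => Z.inc p.2 q.1 = 0) ∧
    ∀ σ, Z.le τ σ → σ = t ∨ ∃ p ∈ P, σ = p.1 ∨ σ = p.2

/-- the field `upper` from a matching -/
theorem Match.upper {Z : Cells} {τ t : Z.N} (h : Z.Match τ t) (hdim : ∀ σ, Z.dim σ ≤ 3)
    {k : Type*} [Field k] (d : ℕ) (φ : Z.N → k) (hφ : ∀ σ, φ σ ≠ 0 → Z.le τ σ ∧ Z.dim σ = d)
    (hc : ∀ i, Z.le τ i → ∑ l, (Z.inc i l : k) * φ l = 0) :
    ∃ ψ : Z.N → k, (∀ σ, ψ σ ≠ 0 → Z.le τ σ ∧ Z.dim σ + 1 = d) ∧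
      ∀ i, Z.le τ i → (d = 3 → i ≠ t) → φ i = ∑ l, (Z.inc i l : k) * ψ l := by
  obtain ⟨⟨_, h1⟩, P, h2, h3, h4⟩ := h
  exact Z.upper_of_matching hdim τ t h1 P h2 h3 h4 d φ hφ hc

/-- transfer of a matching along an isomorphism of stars -/
theorem Match.transfer {Z Z' : Cells} {τ' t' : Z'.N} (h : Z'.Match τ' t') {τ : Z.N}
    (g : Z'.N → Z.N) (hg : ∀ σ', Z'.le τ' σ' → Z.le τ (g σ') ∧ Z.dim (g σ') = Z'.dim σ')
    (hs : ∀ σ, Z.le τ σ → ∃ σ', Z'.le τ' σ' ∧ g σ' = σ)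
    (hi : ∀ σ' ρ', Z'.le τ' σ' → Z'.le τ' ρ' → (Z.inc (g σ') (g ρ') ≠ 0 ↔ Z'.inc σ' ρ' ≠ 0)) :
    Z.Match τ (g t') := by
  obtain ⟨⟨h0, h1⟩, P, h2, h3, h4⟩ := h
  have h5 : ∀ p ∈ P, Z'.le τ' p.2 := fun p hp =>
    Z'.le_trans _ _ _ (h2 p hp).2 (Z'.inc_le _ _ (h2 p hp).1).1
  refine ⟨⟨(hg t' h0).1, by rw [(hg t' h0).2, h1]⟩, P.map (fun p => (g p.1, g p.2)), ?_, ?_, ?_⟩
  · intro p hp
    obtain ⟨q, hq, rfl⟩ := List.mem_map.1 hp
    exact ⟨(hi _ _ (h5 q hq) (h2 q hq).2).2 (h2 q hq).1, (hg _ (h2 q hq).2).1⟩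
  · rw [List.pairwise_map]
    refine (List.Pairwise.and_mem.1 h3).imp ?_
    rintro p q ⟨hp, hq, hpq⟩
    by_contra h
    exact (hi _ _ (h5 p hp) (h2 q hq).2).1 h hpq
  · intro σ hσ
    obtain ⟨σ', hσ', rfl⟩ := hs σ hσ
    rcases h4 σ' hσ' with h6 | ⟨p, hp, h6⟩
    · exact Or.inl (by rw [h6])
    · refine Or.inr ⟨(g p.1, g p.2), List.mem_map.2 ⟨p, hp, rfl⟩, ?_⟩
      rcases h6 with h6 | h6
      · exact Or.inl (by rw [h6])
      · exact Or.inr (by rw [h6])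

end Cells

namespace SC

/-- transfer of a matching along an isomorphism of stars of simplicial complexes -/
theorem match_transfer {n m : ℕ} (X : SC n) (Y : SC m) (f : Fin m ↪ Fin n) {τ : X.N} {τ' t' : Y.N}
    (hτ : X.verts τ = (Y.verts τ').map f)
    (h1 : ∀ σ, X.verts τ ⊆ X.verts σ → ∃ σ', X.verts σ = (Y.verts σ').map f)
    (h2 : ∀ σ', Y.verts τ' ⊆ Y.verts σ' → ∃ σ, X.verts σ = (Y.verts σ').map f)
    (h : Y.toCells.Match τ' t') : ∃ t, X.toCells.Match τ t := by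
  classical
  obtain ⟨g, hg⟩ : ∃ g : Y.N → X.N, ∀ σ', Y.verts τ' ⊆ Y.verts σ' →
      X.verts (g σ') = (Y.verts σ').map f := by
    refine ⟨fun σ' => if h : Y.verts τ' ⊆ Y.verts σ' then (h2 σ' h).choose else τ, fun σ' hσ => ?_⟩
    simp only [dif_pos hσ]
    exact (h2 σ' hσ).choose_spec
  refine ⟨g t', Cells.Match.transfer (Z := X.toCells) (Z' := Y.toCells) h g ?_ ?_ ?_⟩
  · intro σ' hσ'
    have h3 := hg σ' hσ'
    constructor
    · change X.verts τ ⊆ X.verts (g σ')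
      rw [hτ, h3]
      exact map_subset_map.2 hσ'
    · change (X.verts (g σ')).card - 1 = (Y.verts σ').card - 1
      rw [h3, card_map]
  · intro σ hσ
    obtain ⟨σ', hσ'⟩ := h1 σ hσ
    have h3 : Y.verts τ' ⊆ Y.verts σ' := by
      have h4 : X.verts τ ⊆ X.verts σ := hσ
      rw [hτ, hσ', map_subset_map] at h4
      exact h4
    exact ⟨σ', h3, X.inj ((hg σ' h3).trans hσ'.symm)⟩
  · intro σ' ρ' hσ' hρ'
    have h3 := X.inc_ne_iff (g σ') (g ρ')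
    rw [hg σ' hσ', hg ρ' hρ', map_subset_map, card_map, card_map] at h3
    exact h3.trans (Y.inc_ne_iff σ' ρ').symm

end SC

end Lens
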