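import Pool.Agent.Lens.SCFacts
import Pool.Agent.Lens.Elim

/-!
# Stars of cells from a certificate in terms of bit masks
-/

set_option autoImplicit false

open Finset

namespace Lens

/-- number of the first `n` bits of `m` which are one -/
def pcn : ℕ → ℕ → ℕ
  | 0, _ => 0
  | n + 1, m => m % 2 + pcn n (m / 2)

theorem card_filter_testBit (n m : ℕ) :
    (univ.filter (fun a : Fin n => m.testBit a)).card = pcn n m := by
  induction n generalizing m with
  | zero => simp [pcn]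
  | succ n ih =>
    rw [Fin.card_filter_univ_succ]
    have h1 : (univ.filter (fun a : Fin n => m.testBit a.succ)) =
        univ.filter (fun a : Fin n => (m / 2).testBit a) := by
      ext a
      simp [Nat.testBit_succ]
    rw [h1, ih, pcn]
    have h2 : (m.testBit ((0 : Fin (n + 1)) : ℕ) = true) ↔ m % 2 = 1 := by
      simp [Nat.testBit_zero]
    have h3 : m % 2 = 0 ∨ m % 2 = 1 := by omega
    rcases h3 with h3 | h3
    · rw [if_neg (by rw [h2, h3]; omega), h3, zero_add]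
    · rw [if_pos (by rw [h2, h3]), h3, add_comm]

theorem filter_testBit_subset {n m m' : ℕ} (hm : m < 2 ^ n) :
    (univ.filter (fun a : Fin n => m.testBit a)) ⊆ (univ.filter (fun a : Fin n => m'.testBit a)) ↔
      m &&& m' = m := by
  constructor
  · intro h
    apply Nat.eq_of_testBit_eq
    intro i
    rw [Nat.testBit_and]
    by_cases hi : i < n
    · cases h1 : m.testBit i with
      | false => rfl
      | true =>
        have h2 : (⟨i, hi⟩ : Fin n) ∈ univ.filter (fun a : Fin n => m'.testBit a) :=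
          h (mem_filter.2 ⟨mem_univ _, h1⟩)
        have h3 : m'.testBit i = true := (mem_filter.1 h2).2
        rw [h3]
        rfl
    · have h1 : m.testBit i = false := Nat.testBit_lt_two_pow
        (lt_of_lt_of_le hm (Nat.pow_le_pow_right (by norm_num) (not_lt.1 hi)))
      rw [h1]
      rfl
  · intro h a ha
    have h1 := (mem_filter.1 ha).2
    refine mem_filter.2 ⟨mem_univ _, ?_⟩
    rw [← h, Nat.testBit_and] at h1
    exact (Bool.and_eq_true_iff.1 h1).2

/-- one entry of the certificate: the cell `e.1`, its critical facet `e.2.1`, its matching `e.2.2` -/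
def EntryOk (n : ℕ) (L : List ℕ) (e : ℕ × ℕ × List (ℕ × ℕ)) : Prop :=
  (e.2.1 ∈ L ∧ pcn n e.2.1 = 4 ∧ e.1 &&& e.2.1 = e.1) ∧
  (∀ p ∈ e.2.2, p.1 ∈ L ∧ p.2 ∈ L ∧ e.1 &&& p.1 = e.1 ∧ p.1 &&& p.2 = p.1 ∧
    pcn n p.2 = pcn n p.1 + 1) ∧
  e.2.2.Pairwise (fun p q => q.1 &&& p.2 ≠ q.1) ∧
  ∀ s ∈ L, e.1 &&& s = e.1 → s = e.2.1 ∨ ∃ p ∈ e.2.2, s = p.1 ∨ s = p.2

instance (n : ℕ) (L : List ℕ) (e : ℕ × ℕ × List (ℕ × ℕ)) : Decidable (EntryOk n L e) := by
  unfold EntryOk
  infer_instance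

namespace SC

variable {n : ℕ} (X : SC n)

/-- the critical facets of a certificate -/
theorem exists_crit (mask : X.N → ℕ) (L : List ℕ) (hL : ∀ m ∈ L, ∃ i, mask i = m)
    (hL' : ∀ i, mask i ∈ L) (cert : List (ℕ × ℕ × List (ℕ × ℕ))) (hc : cert.map Prod.fst = L)
    (hok : ∀ e ∈ cert, EntryOk n L e) :
    ∃ t : X.N → X.N, ∀ τ, ∃ e ∈ cert, e.1 = mask τ ∧ mask (t τ) = e.2.1 := by
  have hex : ∀ τ : X.N, ∃ e ∈ cert, e.1 = mask τ := by
    intro τ
    have h := hL' τ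
    rw [← hc] at h
    obtain ⟨e, he, h1⟩ := List.mem_map.1 h
    exact ⟨e, he, h1⟩
  choose e he het using hex
  choose t ht using fun τ : X.N => hL _ (hok (e τ) (he τ)).1.1
  exact ⟨t, fun τ => ⟨e τ, he τ, het τ, ht τ⟩⟩

theorem crit_le (mask : X.N → ℕ)
    (hv : ∀ i, X.verts i = univ.filter (fun a : Fin n => (mask i).testBit a))
    (hlt : ∀ i, mask i < 2 ^ n) (L : List ℕ) (cert : List (ℕ × ℕ × List (ℕ × ℕ)))
    (hok : ∀ e ∈ cert, EntryOk n L e) (t : X.N → X.N)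
    (ht : ∀ τ, ∃ e ∈ cert, e.1 = mask τ ∧ mask (t τ) = e.2.1) (τ : X.N) :
    X.toCells.le τ (t τ) ∧ X.toCells.dim (t τ) = 3 := by
  obtain ⟨e, he, h1, h2⟩ := ht τ
  constructor
  · change X.verts τ ⊆ X.verts (t τ)
    rw [hv, hv, filter_testBit_subset (hlt τ), h2, ← h1]
    exact (hok e he).1.2.2
  · change (X.verts (t τ)).card - 1 = 3
    rw [hv, card_filter_testBit, h2, (hok e he).1.2.1]

/-- the field `upper` from a certificate -/
theorem upper_of_cert (mask : X.N → ℕ)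
    (hv : ∀ i, X.verts i = univ.filter (fun a : Fin n => (mask i).testBit a))
    (hlt : ∀ i, mask i < 2 ^ n) (L : List ℕ) (hL : ∀ m ∈ L, ∃ i, mask i = m)
    (hL' : ∀ i, mask i ∈ L) (hdim : ∀ i, (X.verts i).card ≤ 4)
    (cert : List (ℕ × ℕ × List (ℕ × ℕ))) (hok : ∀ e ∈ cert, EntryOk n L e) (t : X.N → X.N)
    (ht : ∀ τ, ∃ e ∈ cert, e.1 = mask τ ∧ mask (t τ) = e.2.1)
    {k : Type*} [Field k] (τ : X.N) (d : ℕ) (φ : X.N → k)
    (hφ : ∀ σ, φ σ ≠ 0 → X.toCells.le τ σ ∧ X.toCells.dim σ = d)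
    (hcc : ∀ i, X.toCells.le τ i → ∑ l, (X.toCells.inc i l : k) * φ l = 0) :
    ∃ ψ : X.N → k, (∀ σ, ψ σ ≠ 0 → X.toCells.le τ σ ∧ X.toCells.dim σ + 1 = d) ∧
      ∀ i, X.toCells.le τ i → (d = 3 → i ≠ t τ) →
        φ i = ∑ l, (X.toCells.inc i l : k) * ψ l := by
  classical
  have hle : ∀ i j, X.verts i ⊆ X.verts j ↔ mask i &&& mask j = mask i := by
    intro i j
    rw [hv i, hv j]
    exact filter_testBit_subset (hlt i)
  have hcard : ∀ i, (X.verts i).card = pcn n (mask i) := by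
    intro i
    rw [hv i]
    exact card_filter_testBit n (mask i)
  have hinj : ∀ i j, mask i = mask j → i = j := by
    intro i j h
    apply X.inj
    rw [hv i, hv j, h]
  obtain ⟨ix, hix⟩ : ∃ ix : ℕ → X.N, ∀ m ∈ L, mask (ix m) = m := by
    refine ⟨fun m => if h : m ∈ L then (hL m h).choose else τ, fun m hm => ?_⟩
    simp only [dif_pos hm]
    exact (hL m hm).choose_spec
  obtain ⟨e, he, het, hte⟩ := ht τ
  obtain ⟨⟨h1, h2, h3⟩, h4, h5, h6⟩ := hok e he
  rw [het] at h3 h4 h6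
  refine X.toCells.upper_of_matching (fun σ => ?_) τ (t τ) ?_
    (e.2.2.map fun p => (ix p.1, ix p.2)) ?_ ?_ ?_ d φ hφ hcc
  · change (X.verts σ).card - 1 ≤ 3
    have := hdim σ
    omega
  · change (X.verts (t τ)).card - 1 = 3
    rw [hcard, hte, h2]
  · intro p hp
    obtain ⟨q, hq, rfl⟩ := List.mem_map.1 hp
    obtain ⟨g1, g2, g3, g4, g5⟩ := h4 q hq
    refine ⟨(X.inc_ne_iff _ _).2 ⟨(hle _ _).2 ?_, ?_⟩, (hle _ _).2 ?_⟩
    · rw [hix _ g1, hix _ g2, g4]
    · rw [hcard, hcard, hix _ g1, hix _ g2, g5]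
    · rw [hix _ g1, g3]
  · rw [List.pairwise_map]
    refine (List.Pairwise.and_mem.1 h5).imp ?_
    rintro p q ⟨hp, hq, hpq⟩
    by_contra h
    have h7 := (hle _ _).1 ((X.inc_ne_iff _ _).1 h).1
    rw [hix _ (h4 p hp).2.1, hix _ (h4 q hq).1] at h7
    exact hpq h7
  · intro σ hσ
    rcases h6 (mask σ) (hL' σ) ((hle _ _).1 hσ) with h7 | ⟨p, hp, h7⟩
    · left
      apply hinj
      rw [h7, hte]
    · right
      refine ⟨(ix p.1, ix p.2), List.mem_map.2 ⟨p, hp, rfl⟩, ?_⟩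
      rcases h7 with h7 | h7
      · left
        apply hinj
        rw [h7, hix _ (h4 p hp).1]
      · right
        apply hinj
        rw [h7, hix _ (h4 p hp).2.1]

end SC

end Lens
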