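import Pool.Agent.Lens.Match
import Pool.Agent.Lens.UpperGen

/-!
# Acyclic matchings of all stars of a simplicial complex given by its facets, from a certificate
-/

set_option autoImplicit false

open Finset

namespace Lens

namespace MG

/-- `x` is a submask of `y` -/
def sub (x y : ℕ) : Bool := Nat.beq (Nat.land x y) x

/-- membership in a list of natural numbers -/
def mem (L : List ℕ) (x : ℕ) : Bool := L.any (fun y => Nat.beq y x)

/-- all components of a matching and the critical facet -/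
def comps (t : ℕ) : List (ℕ × ℕ) → List ℕ
  | [] => [t]
  | p :: P => p.1 :: p.2 :: comps t P

/-- an earlier bigger cell does not contain a later smaller cell -/
def ord : List (ℕ × ℕ) → Bool
  | [] => true
  | p :: P => P.all (fun q => !(sub q.1 p.2)) && ord P

/-- closure under the removal of vertices outside of `m` -/
def closed (n m : ℕ) (S : List ℕ) : Bool :=
  S.all (fun s => (List.range n).all
    (fun a => !(s.testBit a) || (m.testBit a || mem S (Nat.xor s (2 ^ a)))))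

/-- the check of one entry `(m, t, P)` -/
def chk (n : ℕ) (Fs : List ℕ) (e : ℕ × ℕ × List (ℕ × ℕ)) : Bool :=
  (mem Fs e.2.1 && (sub e.1 e.2.1 && Nat.beq (pcn n e.2.1) 4)) &&
  (e.2.2.all (fun p => sub e.1 p.1 && (sub p.1 p.2 && (Nat.beq (pcn n p.2) (pcn n p.1 + 1) &&
    Fs.any (sub p.2)))) &&
  (ord e.2.2 && (Fs.all (fun f => !(sub e.1 f) || mem (comps e.2.1 e.2.2) f) &&
    closed n e.1 (comps e.2.1 e.2.2))))

theorem sub_iff {x y : ℕ} : sub x y = true ↔ x &&& y = x := by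
  rw [sub, Nat.beq_eq]
  rfl

theorem mem_iff {L : List ℕ} {x : ℕ} : mem L x = true ↔ x ∈ L := by
  rw [mem, List.any_eq_true]
  constructor
  · rintro ⟨y, hy, h⟩
    rw [Nat.beq_eq] at h
    exact h ▸ hy
  · intro h
    exact ⟨x, h, by rw [Nat.beq_eq]⟩

theorem mem_comps {t x : ℕ} {P : List (ℕ × ℕ)} :
    x ∈ comps t P ↔ x = t ∨ ∃ p ∈ P, x = p.1 ∨ x = p.2 := by
  induction P with
  | nil => simp [comps]
  | cons p P ih =>
    rw [comps, List.mem_cons, List.mem_cons, ih]
    constructor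
    · rintro (h | h | h | ⟨q, hq, h⟩)
      · exact Or.inr ⟨p, List.mem_cons_self, Or.inl h⟩
      · exact Or.inr ⟨p, List.mem_cons_self, Or.inr h⟩
      · exact Or.inl h
      · exact Or.inr ⟨q, List.mem_cons_of_mem _ hq, h⟩
    · rintro (h | ⟨q, hq, h⟩)
      · exact Or.inr (Or.inr (Or.inl h))
      · rcases List.mem_cons.1 hq with rfl | hq
        · rcases h with h | h
          · exact Or.inl h
          · exact Or.inr (Or.inl h)
        · exact Or.inr (Or.inr (Or.inr ⟨q, hq, h⟩))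

theorem ord_iff {P : List (ℕ × ℕ)} :
    ord P = true ↔ P.Pairwise (fun p q => ¬ (q.1 &&& p.2 = q.1)) := by
  induction P with
  | nil => simp [ord]
  | cons p P ih =>
    rw [ord, Bool.and_eq_true, ih, List.pairwise_cons, List.all_eq_true]
    simp only [Bool.not_eq_true', ← Bool.not_eq_true, sub_iff]

theorem closed_iff {n m : ℕ} {S : List ℕ} : closed n m S = true ↔
    ∀ s ∈ S, ∀ a < n, s.testBit a = true → m.testBit a = false → s ^^^ 2 ^ a ∈ S := by
  rw [closed, List.all_eq_true]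
  refine forall₂_congr fun s _ => ?_
  rw [List.all_eq_true]
  simp only [List.mem_range, Bool.or_eq_true, Bool.not_eq_true', mem_iff]
  refine forall₂_congr fun a _ => ?_
  cases h1 : s.testBit a <;> cases h2 : m.testBit a <;> simp

end MG

namespace SC

variable {n : ℕ} (X : SC n)

theorem bit_mem {s a : ℕ} (ha : a < n) :
    (⟨a, ha⟩ : Fin n) ∈ univ.filter (fun a : Fin n => s.testBit a) ↔ s.testBit a = true := by
  simp

/-- removing one vertex -/
theorem filter_xor {s : ℕ} {a : Fin n} (h : s.testBit a = true) :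
    univ.filter (fun b : Fin n => (s ^^^ 2 ^ (a : ℕ)).testBit b) =
      (univ.filter (fun b : Fin n => s.testBit b)).erase a := by
  ext b
  rw [mem_erase, mem_filter, mem_filter, Nat.testBit_xor, Nat.testBit_two_pow]
  by_cases hab : a = b
  · subst hab
    simp [h]
  · have h' : (a : ℕ) ≠ b := fun h1 => hab (Fin.ext h1)
    simp [h', Ne.symm hab]

/-- the masks below a facet which contain `m` are reached by removing vertices -/
theorem closed_mem {m f : ℕ} {S : List ℕ} (hS : MG.closed n m S = true) (hf : f ∈ S)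
    (hfn : f < 2 ^ n) :
    ∀ A : Finset (Fin n), univ.filter (fun b : Fin n => m.testBit b) ⊆ A →
      A ⊆ univ.filter (fun b : Fin n => f.testBit b) →
      ∃ s ∈ S, s < 2 ^ n ∧ univ.filter (fun b : Fin n => s.testBit b) = A := by
  have h0 := MG.closed_iff.1 hS
  have key : ∀ (c : ℕ) (A : Finset (Fin n)),
      (univ.filter (fun b : Fin n => f.testBit b) \ A).card = c →
      univ.filter (fun b : Fin n => m.testBit b) ⊆ A →
      A ⊆ univ.filter (fun b : Fin n => f.testBit b) →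
      ∃ s ∈ S, s < 2 ^ n ∧ univ.filter (fun b : Fin n => s.testBit b) = A := by
    intro c
    induction c with
    | zero =>
      intro A h1 _ h2
      refine ⟨f, hf, hfn, Subset.antisymm ?_ h2⟩
      exact sdiff_eq_empty_iff_subset.1 (card_eq_zero.1 h1)
    | succ c ih =>
      intro A h1 h2 h3
      obtain ⟨a, ha⟩ : (univ.filter (fun b : Fin n => f.testBit b) \ A).Nonempty :=
        card_pos.1 (by omega)
      obtain ⟨ha1, ha2⟩ := mem_sdiff.1 ha
      obtain ⟨s, hs, hsn, h4⟩ := ih (insert a A) (by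
          have h5 : univ.filter (fun b : Fin n => f.testBit b) \ insert a A =
              (univ.filter (fun b : Fin n => f.testBit b) \ A).erase a := by
            ext b
            simp only [mem_sdiff, mem_erase, mem_insert]
            tauto
          rw [h5, card_erase_of_mem ha, h1]
          rfl)
        (h2.trans (subset_insert _ _)) (insert_subset ha1 h3)
      have h6 : s.testBit a = true := by
        have h7 : a ∈ univ.filter (fun b : Fin n => s.testBit b) := by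
          rw [h4]
          exact mem_insert_self _ _
        exact (mem_filter.1 h7).2
      have h8 : m.testBit a = false := by
        by_contra h9
        rw [Bool.not_eq_false] at h9
        exact ha2 (h2 (mem_filter.2 ⟨mem_univ _, h9⟩))
      refine ⟨s ^^^ 2 ^ (a : ℕ), h0 s hs a a.2 h6 h8, Nat.xor_lt_two_pow hsn
        (Nat.pow_lt_pow_right (by norm_num) a.2), ?_⟩
      rw [filter_xor h6, h4, erase_insert ha2]
  exact fun A h1 h2 => key _ A rfl h1 h2

theorem lt_of_sub {s f : ℕ} (h : s &&& f = s) (hf : f < 2 ^ n) : s < 2 ^ n := by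
  rw [← h]
  exact lt_of_le_of_lt Nat.and_le_right hf

/-- one matching from one entry of the certificate -/
theorem match_of_entry (Fs : List ℕ) (hF : ∀ f ∈ Fs, f < 2 ^ n)
    (hX : ∀ A : Finset (Fin n), (∃ i, X.verts i = A) ↔
      A.Nonempty ∧ ∃ f ∈ Fs, A ⊆ univ.filter (fun a : Fin n => f.testBit a))
    (τ : X.N) (e : ℕ × ℕ × List (ℕ × ℕ)) (he : MG.chk n Fs e = true) (hm : e.1 < 2 ^ n)
    (hτ : X.verts τ = univ.filter (fun a : Fin n => e.1.testBit a)) :
    ∃ t, X.toCells.Match τ t := by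
  classical
  obtain ⟨m, t, P⟩ := e
  rw [MG.chk] at he
  simp only [Bool.and_eq_true] at he
  obtain ⟨⟨h1, h2, h3⟩, h4, h5, h6, h7⟩ := he
  change m < 2 ^ n at hm
  change X.verts τ = univ.filter (fun a : Fin n => m.testBit a) at hτ
  rw [MG.mem_iff] at h1
  rw [MG.sub_iff] at h2
  rw [Nat.beq_eq] at h3
  rw [MG.ord_iff] at h5
  rw [List.all_eq_true] at h4 h6
  have h4' : ∀ p ∈ P, m &&& p.1 = m ∧ p.1 &&& p.2 = p.1 ∧ pcn n p.2 = pcn n p.1 + 1 ∧
      ∃ f ∈ Fs, p.2 &&& f = p.2 := by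
    intro p hp
    have h := h4 p hp
    simp only [Bool.and_eq_true] at h
    obtain ⟨g1, g2, g3, g4⟩ := h
    rw [MG.sub_iff] at g1 g2
    rw [Nat.beq_eq] at g3
    rw [List.any_eq_true] at g4
    obtain ⟨f, hf, g5⟩ := g4
    exact ⟨g1, g2, g3, f, hf, MG.sub_iff.1 g5⟩
  -- all components are simplices containing `m`
  have hand : ∀ x y z : ℕ, x &&& y = x → y &&& z = y → x &&& z = x := by
    intro x y z hxy hyz
    rw [← hxy, Nat.and_assoc, hyz]
  have hcomp : ∀ s, (s = t ∨ ∃ p ∈ P, s = p.1 ∨ s = p.2) →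
      m &&& s = m ∧ ∃ f ∈ Fs, s &&& f = s := by
    rintro s (rfl | ⟨p, hp, rfl | rfl⟩)
    · exact ⟨h2, s, h1, Nat.and_self s⟩
    · obtain ⟨g1, g2, _, f, hf, g4⟩ := h4' p hp
      exact ⟨g1, f, hf, hand _ _ _ g2 g4⟩
    · obtain ⟨g1, g2, _, f, hf, g4⟩ := h4' p hp
      exact ⟨hand _ _ _ g1 g2, f, hf, g4⟩
  have hsub : ∀ x y : ℕ, x < 2 ^ n → (univ.filter (fun a : Fin n => x.testBit a) ⊆
      univ.filter (fun a : Fin n => y.testBit a) ↔ x &&& y = x) :=
    fun x y hx => filter_testBit_subset hx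
  obtain ⟨ix, hix⟩ : ∃ ix : ℕ → X.N, ∀ s, (s = t ∨ ∃ p ∈ P, s = p.1 ∨ s = p.2) →
      X.verts (ix s) = univ.filter (fun a : Fin n => s.testBit a) := by
    have hex : ∀ s, (s = t ∨ ∃ p ∈ P, s = p.1 ∨ s = p.2) →
        ∃ i, X.verts i = univ.filter (fun a : Fin n => s.testBit a) := by
      intro s hs
      obtain ⟨g1, f, hf, g2⟩ := hcomp s hs
      refine (hX _).2 ⟨?_, f, hf, (hsub _ _ (lt_of_sub g2 (hF f hf))).2 g2⟩
      refine (X.ne τ).mono ?_
      rw [hτ]
      exact (hsub _ _ hm).2 g1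
    refine ⟨fun s => if h : (s = t ∨ ∃ p ∈ P, s = p.1 ∨ s = p.2) then (hex s h).choose else τ,
      fun s hs => ?_⟩
    simp only [dif_pos hs]
    exact (hex s hs).choose_spec
  have hlt : ∀ s, (s = t ∨ ∃ p ∈ P, s = p.1 ∨ s = p.2) → s < 2 ^ n := by
    intro s hs
    obtain ⟨_, f, hf, g2⟩ := hcomp s hs
    exact lt_of_sub g2 (hF f hf)
  have ht : t = t ∨ ∃ p ∈ P, t = p.1 ∨ t = p.2 := Or.inl rfl
  have hp1 : ∀ p ∈ P, p.1 = t ∨ ∃ q ∈ P, p.1 = q.1 ∨ p.1 = q.2 :=
    fun p hp => Or.inr ⟨p, hp, Or.inl rfl⟩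
  have hp2 : ∀ p ∈ P, p.2 = t ∨ ∃ q ∈ P, p.2 = q.1 ∨ p.2 = q.2 :=
    fun p hp => Or.inr ⟨p, hp, Or.inr rfl⟩
  refine ⟨ix t, ⟨?_, ?_⟩, P.map (fun p => (ix p.1, ix p.2)), ?_, ?_, ?_⟩
  · change X.verts τ ⊆ X.verts (ix t)
    rw [hτ, hix t ht]
    exact (hsub _ _ hm).2 h2
  · change (X.verts (ix t)).card - 1 = 3
    rw [hix t ht, card_filter_testBit, h3]
  · intro p hp
    obtain ⟨q, hq, rfl⟩ := List.mem_map.1 hp
    obtain ⟨g1, g2, g3, _⟩ := h4' q hq
    refine ⟨(X.inc_ne_iff _ _).2 ⟨?_, ?_⟩, ?_⟩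
    · change X.verts (ix q.1) ⊆ X.verts (ix q.2)
      rw [hix _ (hp1 q hq), hix _ (hp2 q hq)]
      exact (hsub _ _ (hlt _ (hp1 q hq))).2 g2
    · change (X.verts (ix q.2)).card = (X.verts (ix q.1)).card + 1
      rw [hix _ (hp1 q hq), hix _ (hp2 q hq), card_filter_testBit, card_filter_testBit, g3]
    · change X.verts τ ⊆ X.verts (ix q.1)
      rw [hτ, hix _ (hp1 q hq)]
      exact (hsub _ _ hm).2 g1
  · rw [List.pairwise_map]
    refine (List.Pairwise.and_mem.1 h5).imp ?_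
    rintro p q ⟨hp, hq, hpq⟩
    by_contra h
    have h8 := ((X.inc_ne_iff _ _).1 h).1
    rw [hix _ (hp2 p hp), hix _ (hp1 q hq)] at h8
    exact hpq ((hsub _ _ (hlt _ (hp1 q hq))).1 h8)
  · intro σ hσ
    change X.verts τ ⊆ X.verts σ at hσ
    obtain ⟨_, f, hf, h8⟩ := (hX (X.verts σ)).1 ⟨σ, rfl⟩
    rw [hτ] at hσ
    have h9 : f ∈ MG.comps t P := by
      have h10 := h6 f hf
      have h11 : MG.sub m f = true := MG.sub_iff.2 ((hsub _ _ hm).1 (hσ.trans h8))
      rw [h11, Bool.not_true, Bool.false_or, MG.mem_iff] at h10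
      exact h10
    obtain ⟨s, hs, _, h12⟩ := closed_mem h7 h9 (hF f hf) _ hσ h8
    have h13 := MG.mem_comps.1 hs
    have h14 : σ = ix s := X.inj (h12.symm.trans (hix s h13).symm)
    rcases h13 with h13 | ⟨p, hp, h13⟩
    · exact Or.inl (by rw [h14, h13])
    · refine Or.inr ⟨(ix p.1, ix p.2), List.mem_map.2 ⟨p, hp, rfl⟩, ?_⟩
      rcases h13 with h13 | h13
      · exact Or.inl (by rw [h14, h13])
      · exact Or.inr (by rw [h14, h13])

/-- all matchings from a certificate -/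
theorem match_of_cert (Fs : List ℕ) (hF : ∀ f ∈ Fs, f < 2 ^ n)
    (hX : ∀ A : Finset (Fin n), (∃ i, X.verts i = A) ↔
      A.Nonempty ∧ ∃ f ∈ Fs, A ⊆ univ.filter (fun a : Fin n => f.testBit a))
    (cert : List (ℕ × ℕ × List (ℕ × ℕ))) (hok : ∀ e ∈ cert, MG.chk n Fs e = true)
    (hFs : ∀ f ∈ Fs, f ∈ 0 :: cert.map Prod.fst)
    (hcl : MG.closed n 0 (0 :: cert.map Prod.fst) = true) (τ : X.N) :
    ∃ t, X.toCells.Match τ t := by
  obtain ⟨hne, f, hf, h1⟩ := (hX (X.verts τ)).1 ⟨τ, rfl⟩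
  obtain ⟨s, hs, hsn, h2⟩ := closed_mem hcl (hFs f hf) (hF f hf) (X.verts τ) (by simp) h1
  rcases List.mem_cons.1 hs with rfl | hs
  · exfalso
    rw [← h2] at hne
    simp at hne
  · obtain ⟨e, he, rfl⟩ := List.mem_map.1 hs
    exact X.match_of_entry Fs hF hX τ e (hok e he) hsn h2.symm

end SC

end Lens
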