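import Pool.Agent.Lens.HomFacts
import Pool.Agent.Lens.TwErase

/-!
# The punctured complexes for different roots of unity are not isomorphic
-/

open CategoryTheory CategoryTheory.Limits CategoryTheory.Pretriangulated

namespace Lens

universe w v u

/-- two fibres of the same morphism are isomorphic -/
theorem fiber_iso {T : Type*} [Category T] [Preadditive T] [HasZeroObject T] [HasShift T ℤ]
    [∀ n : ℤ, (shiftFunctor T n).Additive] [Pretriangulated T] {X Y K K' : T} (b : X ⟶ Y)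
    (u : K ⟶ X) (w : Y ⟶ K⟦(1 : ℤ)⟧) (hT : Triangle.mk u b w ∈ distTriang T)
    (u' : K' ⟶ X) (w' : Y ⟶ K'⟦(1 : ℤ)⟧) (hT' : Triangle.mk u' b w' ∈ distTriang T) :
    Nonempty (K ≅ K') := by
  obtain ⟨e, -, -⟩ := exists_iso_of_arrow_iso _ _ (rot_of_distTriang _ hT)
    (rot_of_distTriang _ hT') (Iso.refl (Arrow.mk b))
  exact ⟨(shiftFunctor T (1 : ℤ)).preimageIso (Triangle.π₃.mapIso e)⟩

variable {k : Type w} [Field k] {𝓐 : Type u} [Category.{v} 𝓐] [Preadditive 𝓐] [Linear k 𝓐]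

namespace Tw

/-- removing an element without incoming arrows, with the class of the projection -/
theorem erase_triangle' (A : Tw 𝓐) (t : A.ι) (ht : ∀ i, A.D i t = 0) (m : ℤ)
    (hm : m = - A.deg t) (b : Coc A (single (A.P t)) m)
    (hb : b.f t () = 𝟙 _) (hb' : ∀ i, i ≠ t → b.f i () = 0) :
    ∃ (u : (A.erase t ht).toK ⟶ A.toK)
      (w : (single (A.P t)).toK⟦m⟧ ⟶ (A.erase t ht).toK⟦(1 : ℤ)⟧),
      Triangle.mk u b.cls w ∈ distTriang _ := by
  subst hm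
  obtain ⟨w, hw⟩ := A.triangle_proj t ht
  have h1 : A.projE t ht = b.hom := by
    ext n i j
    rw [Coc.hom_f]
    change sel A.P (A.ia n) (A.it t n) i j = b.f i.1 j.1
    by_cases h : A.ia n i = t
    · rw [sel_of_eq (j := j) (by exact h)]
      obtain ⟨i, hi⟩ := i
      subst h
      exact hb.symm
    · rw [sel_of_ne (j := j) (by exact h)]
      exact (hb' _ h).symm
  rw [h1] at hw
  exact ⟨_, w, hw⟩

end Tw

namespace PRep

variable {Z : Cells} (R : PRep k 𝓐 Z)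

/-- nothing maps to a cell of top dimension -/
theorem D_top (F : Z.Facts k) (t : Z.N) (h3 : Z.dim t = 3) (i : Z.N) : R.tw.D i t = 0 := by
  have h0 : Z.inc i t = 0 := by
    by_contra h
    have h1 := (Z.inc_le i t h).2
    have h2 := F.dim_le i
    omega
  show (Z.inc i t : k) • R.e i t = 0
  rw [h0, Int.cast_zero, zero_smul]

section Punctured

variable (t : Z.N) (ht : ∀ i, R.tw.D i t = 0) (v : Z.N) (hv : Z.dim v = 0)

include hv in
theorem eq_of_le_vertex (l : Z.N) (h : Z.le l v) : l = v :=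
  Z.le_eq l v h (by have := Z.le_dim l v h; omega)

/-- the matrix entry of the map from a vertex to the punctured complex -/
noncomputable def vent (v j : Z.N) : R.P v ⟶ R.P j := if j = v then R.e v j else 0

theorem vent_self : R.vent v v = R.e v v := if_pos rfl

theorem vent_of_ne {j : Z.N} (h : j ≠ v) : R.vent v j = 0 := if_neg h

/-- the map from a vertex to the punctured complex -/
noncomputable def vmap : Tw.Coc (Tw.single (R.P v)) (R.tw.erase t ht) 0 where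
  f _ j := R.vent v j.1
  deg i j h := by
    refine R.vent_of_ne v fun h1 => h ?_
    show -(Z.dim j.1 : ℤ) = 0 + 0
    rw [h1, hv]
    simp
  coc i j := by
    refine (Finset.sum_eq_zero fun l _ => ?_).trans (Eq.symm ?_)
    · by_cases h1 : l.1 = v
      · have h2 : (R.tw.erase t ht).D l j = 0 := by
          have h3 : Z.inc l.1 j.1 = 0 := by
            by_contra h
            have h4 := (Z.inc_le _ _ h).2
            rw [h1, hv] at h4
            omega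
          show (Z.inc l.1 j.1 : k) • R.e l.1 j.1 = 0
          rw [h3, Int.cast_zero, zero_smul]
        rw [h2, comp_zero]
      · exact (congrArg (· ≫ (R.tw.erase t ht).D l j) (R.vent_of_ne v h1)).trans zero_comp
    · rw [Finset.sum_eq_zero, smul_zero]
      intro l _
      exact zero_comp

theorem vmap_ne (hvt : v ≠ t) : (R.vmap t ht v hv).cls₀ ≠ 0 := by
  intro h0
  obtain ⟨h, hh, hf⟩ := (Tw.Coc.cls₀_eq_zero_iff _).1 h0
  have h1 := hf () ⟨v, hvt⟩
  have h2 : ∀ l, h () l = 0 := by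
    intro l
    by_cases h3 : Z.le l.1 v
    · refine hh () l fun h4 => ?_
      have h5 : -(Z.dim l.1 : ℤ) = 0 - 1 := h4
      rw [eq_of_le_vertex v hv l.1 h3, hv] at h5
      omega
    · exact R.zero v l.1 h3 _
  rw [Finset.sum_eq_zero (fun l _ => by rw [h2 l, zero_comp]), Finset.sum_eq_zero, add_zero] at h1
  · exact R.nz v v (Z.le_refl v) ((R.vent_self v).symm.trans h1)
  · intro l _
    exact zero_comp

include hv in
theorem vertex_zero (m : ℤ) (hm : m ≠ 0) (g : (Tw.single (R.P v)).toK ⟶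
    (R.tw.erase t ht).toK⟦m⟧) : g = 0 := by
  obtain ⟨f, rfl⟩ := Tw.Coc.cls_surj g
  rw [Tw.Coc.cls_eq_zero_iff]
  refine ⟨fun _ _ => 0, fun _ _ _ => rfl, fun i j => ?_⟩
  rw [Finset.sum_eq_zero (fun l _ => zero_comp), Finset.sum_eq_zero (fun l _ => comp_zero),
    smul_zero, add_zero]
  by_cases h3 : Z.le j.1 v
  · refine f.deg i j fun h4 => hm ?_
    have h5 : -(Z.dim j.1 : ℤ) = 0 + m := h4
    rw [eq_of_le_vertex v hv j.1 h3, hv] at h5
    omega
  · exact R.zero v j.1 h3 _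

end Punctured

theorem fiber_punctured (F : Z.Facts k) (t : Z.N) (h3 : Z.dim t = 3) (ht : F.t t = t)
    (H : R.HomFacts F) (K : KM 𝓐) (u : K ⟶ R.tw.toK) (w : (R.PK t)⟦(3 : ℤ)⟧ ⟶ K⟦(1 : ℤ)⟧)
    (hT : Triangle.mk u (H.b t) w ∈ distTriang _) :
    Nonempty (K ≅ (R.tw.erase t (R.D_top F t h3)).toK) := by
  obtain ⟨c, hc, hc'⟩ := H.b_eq t
  obtain ⟨u', w', hT'⟩ := R.tw.erase_triangle' t (R.D_top F t h3) 3
    (by show (3 : ℤ) = - (-(Z.dim t : ℤ)); rw [h3]; norm_num) c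
    ((hc' t).trans ((if_pos ht.symm).trans (R.e_self t)))
    (fun i hi => (hc' i).trans (if_neg fun h => hi (h.trans ht)))
  exact fiber_iso c.cls u w (hc.symm ▸ hT) u' w' hT'

/-- the diagonal argument -/
theorem diag_zero {r : ℕ} (Λ : Z.Loop k r) (z z' : k) (hz : z ^ r = 1) (hz' : z' ^ r = 1) (hne : z ≠ z')
    [Fintype {i : Z.N // i ≠ Λ.t₀}] (f : ∀ i j : {i : Z.N // i ≠ Λ.t₀}, R.P i.1 ⟶ R.P j.1)
    (hdeg : ∀ i j, Z.dim j.1 ≠ Z.dim i.1 → f i j = 0)
    (hcoc : ∀ i j, ∑ l, f i l ≫ ((Z.inc l.1 j.1 : k) • z ^ (Λ.G l.1 j.1) • R.e l.1 j.1) =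
      ∑ l, ((Z.inc i.1 l.1 : k) • z' ^ (Λ.G i.1 l.1) • R.e i.1 l.1) ≫ f l j)
    (i j : {i : Z.N // i ≠ Λ.t₀}) : f i j = 0 := by
  -- the matrix is diagonal
  have hd : ∀ i j, i ≠ j → f i j = 0 := by
    intro i j hij
    by_cases h1 : Z.le j.1 i.1
    · refine hdeg i j fun h2 => hij ?_
      exact Subtype.ext (Z.le_eq j.1 i.1 h1 h2).symm
    · exact R.zero i.1 j.1 h1 _
  have hs : ∀ i, ∃ a : k, f i i = a • R.e i.1 i.1 := fun i => R.span i.1 i.1 (f i i)
  choose a ha using hs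
  have hcoc' : ∀ i j : {i : Z.N // i ≠ Λ.t₀}, Z.inc i.1 j.1 ≠ 0 →
      a i = (z' / z) ^ (Λ.G i.1 j.1) * a j := by
    intro i j hij
    have h1 := hcoc i j
    rw [Finset.sum_eq_single i (fun l _ hl => by rw [hd i l hl.symm, zero_comp])
      (fun h => absurd (Finset.mem_univ _) h),
      Finset.sum_eq_single j (fun l _ hl => by rw [hd l j hl, comp_zero])
      (fun h => absurd (Finset.mem_univ _) h), ha i, ha j] at h1
    have h3 := Z.inc_le i.1 j.1 hij
    simp only [Linear.smul_comp, Linear.comp_smul, smul_smul] at h1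
    rw [R.e_comp _ _ _ (Z.le_refl _) h3.1, R.e_comp _ _ _ h3.1 (Z.le_refl _)] at h1
    have h4 := smul_left_injective k (R.nz _ _ h3.1) h1
    have h5 : (Z.inc i.1 j.1 : k) ≠ 0 := by
      rcases Z.le_inc _ _ h3.1 h3.2 with h | h <;> rw [h] <;> simp
    have h6 : z ^ (Λ.G i.1 j.1) ≠ 0 := pow_ne_zero _ (ne_zero_of_pow Λ.pos hz)
    rw [div_pow, div_mul_eq_mul_div, eq_div_iff h6]
    apply mul_left_cancel₀ h5
    linear_combination h4
  have h0 : ∀ i, a i = 0 := by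
    have h1 := Λ.loop (z' / z) (by rw [div_pow, hz, hz', div_one])
      (fun h => hne (by rw [div_eq_one_iff_eq (ne_zero_of_pow Λ.pos hz)] at h; exact h.symm))
      (fun i => if h : i ≠ Λ.t₀ then a ⟨i, h⟩ else 0) (fun i j hi hj hij => by
        rw [dif_pos hi, dif_pos hj]
        exact hcoc' ⟨i, hi⟩ ⟨j, hj⟩ hij)
    intro i
    have h2 := h1 i.1 i.2
    rwa [dif_pos i.2] at h2
  by_cases hij : i = j
  · subst hij
    rw [ha, h0, zero_smul]
  · exact hd i j hij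

/-- BLOCK N (non-isomorphism). If `t₀` is the chosen facet of itself, the fibres of
`b t₀ : C → P_{t₀}⟦3⟧` for two different roots of unity `z ≠ z'` are not isomorphic up to
shift. -/
theorem not_iso (F : Z.Facts k) {r : ℕ} (Λ : Z.Loop k r) (ht : F.t Λ.t₀ = Λ.t₀) (z z' : k)
    (hz : z ^ r = 1) (hz' : z' ^ r = 1) (hne : z ≠ z') (hv : ∃ v, Z.dim v = 0)
    (H : (R.twist Λ z hz).HomFacts F) (H' : (R.twist Λ z' hz').HomFacts F)
    (K K' : KM 𝓐)
    (u : K ⟶ (R.twist Λ z hz).tw.toK) (w : ((R.twist Λ z hz).PK Λ.t₀)⟦(3 : ℤ)⟧ ⟶ K⟦(1 : ℤ)⟧)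
    (hT : Triangle.mk u (H.b Λ.t₀) w ∈ distTriang _)
    (u' : K' ⟶ (R.twist Λ z' hz').tw.toK)
    (w' : ((R.twist Λ z' hz').PK Λ.t₀)⟦(3 : ℤ)⟧ ⟶ K'⟦(1 : ℤ)⟧)
    (hT' : Triangle.mk u' (H'.b Λ.t₀) w' ∈ distTriang _) (m : ℤ) (i : K' ≅ K⟦m⟧) : False := by
  obtain ⟨v, hv⟩ := hv
  have hvt : v ≠ Λ.t₀ := by
    rintro rfl
    have := Λ.dim_t₀
    omega
  obtain ⟨e⟩ := (R.twist Λ z hz).fiber_punctured F Λ.t₀ Λ.dim_t₀ ht H K u w hT
  obtain ⟨e'⟩ := (R.twist Λ z' hz').fiber_punctured F Λ.t₀ Λ.dim_t₀ ht H' K' u' w' hT'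
  have j := e'.symm ≪≫ i ≪≫ (shiftFunctor (KM 𝓐) m).mapIso e
  clear hT hT' u u' w w' H H' i
  obtain ⟨g, hg⟩ : ∃ g : (Tw.single (R.P v)).toK ⟶ ((R.twist Λ z' hz').tw.erase Λ.t₀
      ((R.twist Λ z' hz').D_top F Λ.t₀ Λ.dim_t₀)).toK, g ≠ 0 :=
    ⟨_, (R.twist Λ z' hz').vmap_ne Λ.t₀ ((R.twist Λ z' hz').D_top F Λ.t₀ Λ.dim_t₀) v hv hvt⟩
  by_cases hm : m = 0
  · subst hm
    have j₀ := j ≪≫ (shiftFunctorZero (KM 𝓐) ℤ).app _
    obtain ⟨f, hf⟩ := Tw.Coc.cls₀_surj j₀.hom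
    have hd : ∀ i j, f.f i j = 0 := by
      let : Fintype {i : Z.N // i ≠ Λ.t₀} := ((R.twist Λ z hz).tw.erase Λ.t₀
        ((R.twist Λ z hz).D_top F Λ.t₀ Λ.dim_t₀)).fin
      refine R.diag_zero Λ z z' hz hz' hne f.f (fun i j h => f.deg i j fun h2 => h ?_)
        (fun i j => ?_)
      · have h3 : -(Z.dim j.1 : ℤ) = -(Z.dim i.1 : ℤ) + 0 := h2
        omega
      · refine (f.coc i j).trans ?_
        rw [Int.negOnePow_zero, one_smul]
        rfl
    have hf0 : f.cls₀ = 0 := by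
      rw [Tw.Coc.cls₀_eq_zero_iff]
      refine ⟨fun _ _ => 0, fun _ _ _ => rfl, fun i j => ?_⟩
      rw [Finset.sum_eq_zero (fun l _ => zero_comp), Finset.sum_eq_zero (fun l _ => comp_zero),
        add_zero]
      exact hd i j
    exact hg ((cancel_mono j₀.hom).1 (((congrArg (g ≫ ·) (hf.symm.trans hf0)).trans
      comp_zero).trans zero_comp.symm))
  · have h1 := (R.twist Λ z hz).vertex_zero Λ.t₀ ((R.twist Λ z hz).D_top F Λ.t₀ Λ.dim_t₀) v hv m hm
      (g ≫ j.hom)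
    exact hg ((cancel_mono j.hom).1 (h1.trans zero_comp.symm))

end PRep

end Lens
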