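import Pool.Agent.Lens.Comb

/-!
# Finite simplicial complexes as cell complexes

The general (certificate free) part of block B: `∂² = 0`, acyclicity of simplices, the diamond
property, connectedness.
-/

set_option autoImplicit false

open Finset

namespace Lens

/-- A finite simplicial complex with vertices in `Fin n` (nonempty simplices only). -/
structure SC (n : ℕ) where
  N : Type
  [fin : Fintype N]
  [dec : DecidableEq N]
  verts : N → Finset (Fin n)
  inj : Function.Injective verts
  ne : ∀ σ, (verts σ).Nonempty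
  down : ∀ σ (A : Finset (Fin n)), A ⊆ verts σ → A.Nonempty → ∃ τ, verts τ = A

attribute [instance] SC.fin SC.dec

namespace SC

variable {n : ℕ}

/-- the sign of the vertex `a` in `A` -/
def sgn (A : Finset (Fin n)) (a : Fin n) : ℤ := (-1) ^ (A.filter (· < a)).card

/-- incidence number of vertex sets -/
def incF (A B : Finset (Fin n)) : ℤ := ∑ a ∈ A, if A.erase a = B then sgn A a else 0

theorem sgn_cases (A : Finset (Fin n)) (a : Fin n) : sgn A a = 1 ∨ sgn A a = -1 :=
  neg_one_pow_eq_or ℤ _

theorem sgn_ne (A : Finset (Fin n)) (a : Fin n) : sgn A a ≠ 0 := by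
  rcases sgn_cases A a with h | h <;> rw [h] <;> norm_num

theorem incF_erase {A : Finset (Fin n)} {a : Fin n} (ha : a ∈ A) :
    incF A (A.erase a) = sgn A a := by
  rw [incF, sum_eq_single a]
  · rw [if_pos rfl]
  · intro b hb hba
    refine if_neg fun h => ?_
    have h1 : b ∈ A.erase a := mem_erase.2 ⟨hba, hb⟩
    rw [← h] at h1
    exact notMem_erase b A h1
  · intro h
    exact absurd ha h

theorem incF_insert {B : Finset (Fin n)} {a : Fin n} (ha : a ∉ B) :
    incF (insert a B) B = sgn (insert a B) a := by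
  have h := incF_erase (mem_insert_self a B)
  rwa [erase_insert ha] at h

theorem incF_ne {A B : Finset (Fin n)} (h : incF A B ≠ 0) : ∃ a ∈ A, A.erase a = B := by
  obtain ⟨a, ha, h1⟩ := exists_ne_zero_of_sum_ne_zero h
  refine ⟨a, ha, ?_⟩
  by_contra h2
  exact h1 (if_neg h2)

theorem incF_ne' {A B : Finset (Fin n)} (h : incF A B ≠ 0) : ∃ a, a ∉ B ∧ A = insert a B := by
  obtain ⟨a, ha, h1⟩ := incF_ne h
  refine ⟨a, ?_, ?_⟩
  · rw [← h1]
    exact notMem_erase a A
  · rw [← h1, insert_erase ha]

theorem sgn_insert_lt {A : Finset (Fin n)} {a b : Fin n} (h : b < a) (hb : b ∉ A) :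
    sgn (insert b A) a = - sgn A a := by
  rw [sgn, sgn, filter_insert, if_pos h, card_insert_of_notMem, pow_succ]
  · ring
  · intro h1
    exact hb (mem_filter.1 h1).1

theorem sgn_insert_ge {A : Finset (Fin n)} {a b : Fin n} (h : a ≤ b) :
    sgn (insert b A) a = sgn A a := by
  rw [sgn, sgn, filter_insert, if_neg (not_lt.2 h)]

/-- the exchange rule -/
theorem sgn_swap {A : Finset (Fin n)} {a b : Fin n} (ha : a ∈ A) (hb : b ∈ A) (h : a ≠ b) :
    sgn A a * sgn (A.erase a) b = - (sgn A b * sgn (A.erase b) a) := by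
  wlog hab : a < b generalizing a b
  · have h1 : b < a := lt_of_le_of_ne (not_lt.1 hab) (Ne.symm h)
    rw [this hb ha (Ne.symm h) h1, neg_neg]
  have h1 : sgn A a = sgn (A.erase b) a := by
    conv_lhs => rw [← insert_erase hb]
    exact sgn_insert_ge hab.le
  have h2 : sgn A b = - sgn (A.erase a) b := by
    conv_lhs => rw [← insert_erase ha]
    exact sgn_insert_lt hab (notMem_erase a A)
  rw [h1, h2]
  ring

variable (X : SC n)

section sums

variable {k : Type*} [Ring k]

/-- extension by zero of a function on simplices to all vertex sets -/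
def ext (φ : X.N → k) (A : Finset (Fin n)) : k := ∑ σ, if X.verts σ = A then φ σ else 0

theorem ext_verts (φ : X.N → k) (σ : X.N) : X.ext φ (X.verts σ) = φ σ := by
  rw [ext, sum_eq_single σ]
  · rw [if_pos rfl]
  · intro τ _ h
    exact if_neg fun h1 => h (X.inj h1)
  · intro h
    exact absurd (mem_univ _) h

theorem ext_of_eq (φ : X.N → k) {σ : X.N} {A : Finset (Fin n)} (h : X.verts σ = A) :
    X.ext φ A = φ σ := by rw [← h, ext_verts]

theorem ext_eq_zero (φ : X.N → k) {A : Finset (Fin n)} (h : ∀ σ, X.verts σ = A → φ σ = 0) :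
    X.ext φ A = 0 := by
  refine sum_eq_zero fun σ _ => ?_
  split_ifs with h1
  · exact h σ h1
  · rfl

/-- sum over the facets -/
theorem sum_inc_right (φ : X.N → k) (A : Finset (Fin n)) :
    ∑ l, (incF A (X.verts l) : k) * φ l = ∑ a ∈ A, (sgn A a : k) * X.ext φ (A.erase a) := by
  have h1 : ∀ l, (incF A (X.verts l) : k) * φ l =
      ∑ a ∈ A, (sgn A a : k) * (if X.verts l = A.erase a then φ l else 0) := by
    intro l
    rw [incF, Int.cast_sum, sum_mul]
    refine sum_congr rfl fun a _ => ?_
    by_cases h : A.erase a = X.verts l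
    · rw [if_pos h, if_pos h.symm]
    · rw [if_neg h, if_neg (fun h' => h h'.symm), Int.cast_zero, zero_mul, mul_zero]
  rw [sum_congr rfl fun l _ => h1 l, sum_comm]
  refine sum_congr rfl fun a _ => ?_
  rw [← mul_sum]
  rfl

/-- sum over the cofacets -/
theorem sum_inc_left (φ : X.N → k) (B : Finset (Fin n)) :
    ∑ l, φ l * (incF (X.verts l) B : k) =
      ∑ a ∈ univ.filter (· ∉ B), X.ext φ (insert a B) * (sgn (insert a B) a : k) := by
  have h1 : ∀ l, φ l * (incF (X.verts l) B : k) =
      ∑ a ∈ univ.filter (· ∉ B), (if X.verts l = insert a B then φ l else 0) *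
        (sgn (insert a B) a : k) := by
    intro l
    rw [incF, Int.cast_sum, mul_sum]
    have h2 : ∀ a ∈ X.verts l, φ l * (((if (X.verts l).erase a = B then sgn (X.verts l) a else 0 : ℤ) : ℤ) : k) ≠ 0 →
        a ∉ B ∧ X.verts l = insert a B := by
      intro a ha h
      have h3 : (X.verts l).erase a = B := by
        by_contra h4
        rw [if_neg h4, Int.cast_zero, mul_zero] at h
        exact h rfl
      rw [← h3]
      exact ⟨notMem_erase _ _, (insert_erase ha).symm⟩
    refine sum_bij_ne_zero (fun a _ _ => a) (fun a ha h => mem_filter.2 ⟨mem_univ _, (h2 a ha h).1⟩)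
      (fun _ _ _ _ _ _ h => h) ?_ ?_
    · intro a ha h
      have h4 : X.verts l = insert a B := by
        by_contra h5
        rw [if_neg h5, zero_mul] at h
        exact h rfl
      have h5 := (mem_filter.1 ha).2
      have h6 : (X.verts l).erase a = B := by rw [h4, erase_insert h5]
      refine ⟨a, h4 ▸ mem_insert_self a B, ?_, rfl⟩
      rw [if_pos h6]
      rw [if_pos h4] at h
      rw [h4]
      exact h
    · intro a ha h
      obtain ⟨h3, h4⟩ := h2 a ha h
      have h6 : (X.verts l).erase a = B := by rw [h4, erase_insert h3]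
      rw [if_pos h6, if_pos h4, ← h4]
  rw [sum_congr rfl fun l _ => h1 l, sum_comm]
  refine sum_congr rfl fun a _ => ?_
  rw [← sum_mul]
  rfl

end sums

/-- incidence number of simplices -/
def inc (σ τ : X.N) : ℤ := incF (X.verts σ) (X.verts τ)

theorem inc_ne_iff (σ τ : X.N) : X.inc σ τ ≠ 0 ↔
    X.verts τ ⊆ X.verts σ ∧ (X.verts σ).card = (X.verts τ).card + 1 := by
  constructor
  · intro h
    obtain ⟨a, ha, h1⟩ := incF_ne' h
    rw [h1]
    exact ⟨subset_insert _ _, card_insert_of_notMem ha⟩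
  · rintro ⟨h1, h2⟩
    have h3 : (X.verts σ \ X.verts τ).card = 1 := by
      rw [card_sdiff_of_subset h1]; omega
    obtain ⟨a, ha⟩ := card_eq_one.1 h3
    have h4 : a ∈ X.verts σ \ X.verts τ := by rw [ha]; exact mem_singleton_self a
    have h5 : X.verts σ = insert a (X.verts τ) := by
      ext b
      rw [mem_insert]
      constructor
      · intro hb
        by_cases hb' : b ∈ X.verts τ
        · exact Or.inr hb'
        · left
          have : b ∈ X.verts σ \ X.verts τ := mem_sdiff.2 ⟨hb, hb'⟩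
          rw [ha] at this
          exact mem_singleton.1 this
      · rintro (rfl | hb)
        · exact (mem_sdiff.1 h4).1
        · exact h1 hb
    rw [inc, h5, incF_insert (mem_sdiff.1 h4).2]
    exact sgn_ne _ _

theorem inc_cases (σ τ : X.N) (h : X.verts τ ⊆ X.verts σ)
    (h' : (X.verts σ).card = (X.verts τ).card + 1) : X.inc σ τ = 1 ∨ X.inc σ τ = -1 := by
  have h1 := (X.inc_ne_iff σ τ).2 ⟨h, h'⟩
  obtain ⟨a, ha, h2⟩ := incF_ne' h1
  rw [inc, h2, incF_insert ha]
  exact sgn_cases _ _

/-- `∂² = 0` -/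
theorem sq (σ ρ : X.N) : ∑ τ, X.inc σ τ * X.inc τ ρ = 0 := by
  have h1 : ∑ τ, X.inc σ τ * X.inc τ ρ =
      ∑ τ, ((incF (X.verts σ) (X.verts τ) : ℤ) : ℤ) * X.inc τ ρ := rfl
  have h2 := X.sum_inc_right (k := ℤ) (fun τ => X.inc τ ρ) (X.verts σ)
  simp only [Int.cast_id] at h2
  rw [h1, h2]
  have h3 : ∀ a ∈ X.verts σ, sgn (X.verts σ) a * X.ext (fun τ => X.inc τ ρ) ((X.verts σ).erase a) =
      ∑ b ∈ X.verts σ, if a ≠ b ∧ ((X.verts σ).erase a).erase b = X.verts ρ then
        sgn (X.verts σ) a * sgn ((X.verts σ).erase a) b else 0 := by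
    intro a ha
    have h4 : X.ext (fun τ => X.inc τ ρ) ((X.verts σ).erase a) =
        incF ((X.verts σ).erase a) (X.verts ρ) := by
      by_cases h5 : ((X.verts σ).erase a).Nonempty
      · obtain ⟨τ, hτ⟩ := X.down σ _ (erase_subset a _) h5
        rw [X.ext_of_eq _ hτ, ← hτ]
        rfl
      · rw [not_nonempty_iff_eq_empty] at h5
        rw [h5, X.ext_eq_zero]
        · rfl
        · intro τ hτ
          exact absurd (X.ne τ) (by rw [hτ]; exact not_nonempty_empty)
    rw [h4, incF, mul_sum, ← sum_erase_add _ _ ha]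
    rw [if_neg (by simp), add_zero]
    refine sum_congr rfl fun b hb => ?_
    have hb' := mem_erase.1 hb
    by_cases h5 : ((X.verts σ).erase a).erase b = X.verts ρ
    · rw [if_pos h5, if_pos ⟨Ne.symm hb'.1, h5⟩]
    · rw [if_neg h5, if_neg (fun h6 => h5 h6.2), mul_zero]
  rw [sum_congr rfl h3]
  have h5 : ∀ F : Fin n → Fin n → ℤ, (∀ a ∈ X.verts σ, ∀ b ∈ X.verts σ, F a b = - F b a) →
      ∑ a ∈ X.verts σ, ∑ b ∈ X.verts σ, F a b = 0 := by
    intro F hF
    have h6 : ∑ a ∈ X.verts σ, ∑ b ∈ X.verts σ, F a b =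
        - ∑ a ∈ X.verts σ, ∑ b ∈ X.verts σ, F a b := by
      conv_lhs => rw [sum_comm]
      rw [← sum_neg_distrib]
      refine sum_congr rfl fun b hb => ?_
      rw [← sum_neg_distrib]
      exact sum_congr rfl fun a ha => hF a ha b hb
    omega
  refine h5 _ fun a ha b hb => ?_
  by_cases hab : a = b
  · subst hab
    simp
  · rw [erase_right_comm]
    by_cases h6 : ((X.verts σ).erase b).erase a = X.verts ρ
    · rw [if_pos ⟨hab, h6⟩, if_pos ⟨Ne.symm hab, h6⟩, sgn_swap ha hb hab]
    · rw [if_neg (fun h7 => h6 h7.2), if_neg (fun h7 => h6 h7.2), neg_zero]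

/-- a finite simplicial complex as a cell complex -/
def toCells : Cells where
  N := X.N
  le τ σ := X.verts τ ⊆ X.verts σ
  dim σ := (X.verts σ).card - 1
  inc := X.inc
  le_refl _ := Subset.refl _
  le_trans _ _ _ h h' := h.trans h'
  le_dim _ _ h := Nat.sub_le_sub_right (card_le_card h) 1
  le_eq τ σ h h' := by
    have h1 := card_pos.2 (X.ne τ)
    have h2 := card_pos.2 (X.ne σ)
    exact X.inj (eq_of_subset_of_card_le h (by omega))
  inc_le σ τ h := by
    obtain ⟨h1, h2⟩ := (X.inc_ne_iff σ τ).1 h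
    have h3 := card_pos.2 (X.ne τ)
    exact ⟨h1, by omega⟩
  le_inc σ τ h h' := by
    have h1 := card_pos.2 (X.ne τ)
    have h2 := card_pos.2 (X.ne σ)
    exact X.inc_cases σ τ h (by omega)
  sq := X.sq

end SC

end Lens
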