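import Pool.Agent.Lens.SC

/-!
# Simplicial complexes: acyclicity of simplices, diamond property, connectedness
-/

set_option autoImplicit false

open Finset

namespace Lens

namespace SC

variable {n : ℕ} (X : SC n)

theorem exists_vertex (τ : X.N) : ∃ v, X.verts v = {(X.verts τ).min' (X.ne τ)} :=
  X.down τ _ (singleton_subset_iff.2 (min'_mem _ _)) (singleton_nonempty _)

/-- the smallest vertex of a simplex -/
noncomputable def vtx (τ : X.N) : X.N := (X.exists_vertex τ).choose

theorem verts_vtx (τ : X.N) : X.verts (X.vtx τ) = {(X.verts τ).min' (X.ne τ)} :=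
  (X.exists_vertex τ).choose_spec

theorem v_le (τ : X.N) : X.toCells.le (X.vtx τ) τ ∧ X.toCells.dim (X.vtx τ) = 0 := by
  constructor
  · change X.verts (X.vtx τ) ⊆ X.verts τ
    rw [verts_vtx]
    exact singleton_subset_iff.2 (min'_mem _ _)
  · change (X.verts (X.vtx τ)).card - 1 = 0
    rw [verts_vtx, card_singleton]

theorem sgn_min {A : Finset (Fin n)} {a : Fin n} (h : ∀ b ∈ A, a ≤ b) : sgn A a = 1 := by
  rw [sgn, filter_eq_empty_iff.2, card_empty, pow_zero]
  intro b hb
  exact not_lt.2 (h b hb)

/-- simplices are acyclic -/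
theorem lower {k : Type*} [Field k] (τ : X.N) (d : ℕ) (φ : X.N → k)
    (hφ : ∀ σ, φ σ ≠ 0 → X.toCells.le σ τ ∧ X.toCells.dim σ = d)
    (hc : ∀ j, X.toCells.le j τ → ∑ l, φ l * (X.toCells.inc l j : k) = 0) :
    ∃ ψ : X.N → k, (∀ σ, ψ σ ≠ 0 → X.toCells.le σ τ ∧ X.toCells.dim σ = d + 1) ∧
      ∀ j, X.toCells.le j τ → (d = 0 → j ≠ X.vtx τ) →
        φ j = ∑ l, ψ l * (X.toCells.inc l j : k) := by
  classical
  obtain ⟨v₀, hv₀⟩ : ∃ v₀, v₀ = (X.verts τ).min' (X.ne τ) := ⟨_, rfl⟩
  have hv : v₀ ∈ X.verts τ := hv₀ ▸ min'_mem _ _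
  have hmin : ∀ b ∈ X.verts τ, v₀ ≤ b := fun b hb => hv₀ ▸ min'_le _ b hb
  obtain ⟨ψ, hψ⟩ : ∃ ψ : X.N → k, ψ = fun σ =>
    if v₀ ∈ X.verts σ ∧ X.verts σ ⊆ X.verts τ then X.ext φ ((X.verts σ).erase v₀) else 0 :=
    ⟨_, rfl⟩
  have hext : ∀ A : Finset (Fin n), X.ext φ A ≠ 0 → A ⊆ X.verts τ ∧ A.card = d + 1 := by
    intro A hA
    by_contra h
    refine hA (X.ext_eq_zero φ fun σ hσ => ?_)
    by_contra h1
    obtain ⟨h2, h3⟩ := hφ σ h1
    have h4 := card_pos.2 (X.ne σ)
    change (X.verts σ).card - 1 = d at h3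
    change X.verts σ ⊆ X.verts τ at h2
    rw [hσ] at h2 h3 h4
    exact h ⟨h2, by omega⟩
  have hψ1 : ∀ (J : Finset (Fin n)) (a : Fin n), a ∉ J → insert a J ⊆ X.verts τ →
      X.ext ψ (insert a J) = if v₀ ∈ insert a J then X.ext φ ((insert a J).erase v₀) else 0 := by
    intro J a _ hJ
    obtain ⟨σ, hσ⟩ := X.down τ _ hJ (insert_nonempty a J)
    rw [X.ext_of_eq ψ hσ, hψ]
    change (if v₀ ∈ X.verts σ ∧ X.verts σ ⊆ X.verts τ then X.ext φ ((X.verts σ).erase v₀) else 0) =
      _
    rw [hσ]
    by_cases h : v₀ ∈ insert a J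
    · rw [if_pos h, if_pos ⟨h, hJ⟩]
    · rw [if_neg h, if_neg (fun h' => h h'.1)]
  have hψ2 : ∀ (J : Finset (Fin n)) (a : Fin n), a ∉ X.verts τ → X.ext ψ (insert a J) = 0 := by
    intro J a ha
    refine X.ext_eq_zero ψ fun σ hσ => ?_
    rw [hψ]
    refine if_neg fun h => ha (h.2 ?_)
    rw [hσ]
    exact mem_insert_self a J
  refine ⟨ψ, ?_, ?_⟩
  · intro σ hσ
    rw [hψ] at hσ
    have h1 : v₀ ∈ X.verts σ ∧ X.verts σ ⊆ X.verts τ := by
      by_contra h
      exact hσ (if_neg h)
    have h2 : X.ext φ ((X.verts σ).erase v₀) ≠ 0 := by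
      intro h
      refine hσ ?_
      change (if v₀ ∈ X.verts σ ∧ X.verts σ ⊆ X.verts τ then
        X.ext φ ((X.verts σ).erase v₀) else 0) = 0
      rw [if_pos h1, h]
    have h3 := (hext _ h2).2
    rw [card_erase_of_mem h1.1] at h3
    refine ⟨h1.2, ?_⟩
    change (X.verts σ).card - 1 = d + 1
    omega
  · intro j hj hjd
    change X.verts j ⊆ X.verts τ at hj
    have hs := X.sum_inc_left ψ (X.verts j)
    refine Eq.trans ?_ hs.symm
    by_cases hvj : v₀ ∈ X.verts j
    · by_cases hJ : ((X.verts j).erase v₀).Nonempty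
      · obtain ⟨j', hj'⟩ := X.down j _ (erase_subset v₀ _) hJ
        have h1 := hc j' (by
          change X.verts j' ⊆ X.verts τ
          rw [hj']
          exact (erase_subset _ _).trans hj)
        have h2 := X.sum_inc_left φ (X.verts j')
        rw [hj'] at h2
        have h3 : univ.filter (· ∉ (X.verts j).erase v₀) =
            insert v₀ (univ.filter (· ∉ X.verts j)) := by
          ext b
          simp only [mem_filter, mem_univ, true_and, mem_erase, mem_insert, not_and]
          constructor
          · intro h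
            by_cases hb : b = v₀
            · exact Or.inl hb
            · exact Or.inr (h hb)
          · rintro (h | h)
            · exact fun h' => absurd h h'
            · exact fun _ => h
        have h4 : v₀ ∉ univ.filter (· ∉ X.verts j) := by
          simp [hvj]
        rw [h3, sum_insert h4, insert_erase hvj, X.ext_verts, sgn_min (fun b hb => hmin b (hj hb)),
          Int.cast_one, mul_one] at h2
        have h5 : ∑ l, φ l * (incF (X.verts l) ((X.verts j).erase v₀) : k) = 0 := by
          rw [← hj']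
          exact h1
        rw [h5] at h2
        have h6 : φ j = - ∑ a ∈ univ.filter (· ∉ X.verts j),
            X.ext φ (insert a ((X.verts j).erase v₀)) *
              (sgn (insert a ((X.verts j).erase v₀)) a : k) := by
          rw [eq_neg_iff_add_eq_zero]
          exact h2.symm
        rw [h6, ← sum_neg_distrib]
        refine sum_congr rfl fun a ha => ?_
        have ha' := (mem_filter.1 ha).2
        have hav : a ≠ v₀ := fun h => ha' (h ▸ hvj)
        by_cases hat : a ∈ X.verts τ
        · rw [hψ1 _ a ha' (insert_subset hat hj), if_pos (mem_insert_of_mem hvj)]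
          have h7 : (insert a (X.verts j)).erase v₀ = insert a ((X.verts j).erase v₀) := by
            rw [erase_insert_of_ne hav]
          rw [h7]
          have h8 : insert a (X.verts j) = insert v₀ (insert a ((X.verts j).erase v₀)) := by
            rw [Finset.insert_comm, insert_erase hvj]
          rw [h8, sgn_insert_lt (lt_of_le_of_ne (hmin a hat) (Ne.symm hav))]
          · push_cast
            ring
          · simp [Ne.symm hav]
        · rw [hψ2 _ a hat, zero_mul]
          have h7 : X.ext φ (insert a ((X.verts j).erase v₀)) = 0 := by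
            by_contra h
            exact hat ((hext _ h).1 (mem_insert_self a _))
          rw [h7, zero_mul, neg_zero]
      · rw [not_nonempty_iff_eq_empty] at hJ
        have h1 : X.verts j = {v₀} := by
          rw [← insert_erase hvj, hJ]
          rfl
        have h2 : j = X.vtx τ := by
          apply X.inj
          rw [verts_vtx, h1, hv₀]
        have hd : d ≠ 0 := fun h => hjd h h2
        have h3 : φ j = 0 := by
          by_contra h
          have h4 := (hφ j h).2
          change (X.verts j).card - 1 = d at h4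
          rw [h1, card_singleton] at h4
          omega
        rw [h3]
        refine (sum_eq_zero fun a ha => ?_).symm
        have ha' := (mem_filter.1 ha).2
        by_cases hat : a ∈ X.verts τ
        · rw [hψ1 _ a ha' (insert_subset hat hj), if_pos (mem_insert_of_mem hvj)]
          have h5 : X.ext φ ((insert a (X.verts j)).erase v₀) = 0 := by
            by_contra h
            have h6 := (hext _ h).2
            rw [card_erase_of_mem (mem_insert_of_mem hvj), card_insert_of_notMem ha', h1,
              card_singleton] at h6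
            omega
          rw [h5, zero_mul]
        · rw [hψ2 _ a hat, zero_mul]
    · rw [sum_eq_single v₀]
      · rw [hψ1 _ v₀ hvj (insert_subset hv hj), if_pos (mem_insert_self _ _), erase_insert hvj,
          X.ext_verts, sgn_min (fun b hb => hmin b (insert_subset hv hj hb)), Int.cast_one, mul_one]
      · intro a ha hav
        have ha' := (mem_filter.1 ha).2
        by_cases hat : a ∈ X.verts τ
        · rw [hψ1 _ a ha' (insert_subset hat hj), if_neg, zero_mul]
          intro h
          rcases mem_insert.1 h with h | h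
          · exact hav h.symm
          · exact hvj h
        · rw [hψ2 _ a hat, zero_mul]
      · intro h
        exfalso
        exact h (mem_filter.2 ⟨mem_univ v₀, hvj⟩)

/-- the diamond property -/
theorem dia (i j l l' l'' : X.N) (h1 : X.toCells.inc i l ≠ 0) (h2 : X.toCells.inc l j ≠ 0)
    (h1' : X.toCells.inc i l' ≠ 0) (h2' : X.toCells.inc l' j ≠ 0)
    (h1'' : X.toCells.inc i l'' ≠ 0) (h2'' : X.toCells.inc l'' j ≠ 0) :
    l = l' ∨ l = l'' ∨ l' = l'' := by
  classical
  have key : ∀ m : X.N, X.toCells.inc i m ≠ 0 → X.toCells.inc m j ≠ 0 →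
      ∃ a ∈ X.verts i \ X.verts j, X.verts m = insert a (X.verts j) := by
    intro m hm hm'
    obtain ⟨a, ha, h⟩ := incF_ne' hm'
    refine ⟨a, mem_sdiff.2 ⟨((X.inc_ne_iff i m).1 hm).1 ?_, ha⟩, h⟩
    rw [h]
    exact mem_insert_self _ _
  have hcard : (X.verts i \ X.verts j).card = 2 := by
    have e1 := (X.inc_ne_iff i l).1 h1
    have e2 := (X.inc_ne_iff l j).1 h2
    rw [card_sdiff_of_subset (e2.1.trans e1.1)]
    omega
  obtain ⟨a, ha, ea⟩ := key l h1 h2
  obtain ⟨b, hb, eb⟩ := key l' h1' h2'
  obtain ⟨c, hc, ec⟩ := key l'' h1'' h2''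
  by_contra h
  push Not at h
  have hab : a ≠ b := fun e => h.1 (X.inj (by rw [ea, eb, e]))
  have hac : a ≠ c := fun e => h.2.1 (X.inj (by rw [ea, ec, e]))
  have hbc : b ≠ c := fun e => h.2.2 (X.inj (by rw [eb, ec, e]))
  have h3 : ({a, b, c} : Finset (Fin n)).card = 3 := card_eq_three.2 ⟨a, b, c, hab, hac, hbc, rfl⟩
  have h4 : ({a, b, c} : Finset (Fin n)) ⊆ X.verts i \ X.verts j := by
    intro x hx
    simp only [mem_insert, mem_singleton] at hx
    rcases hx with rfl | rfl | rfl
    · exact ha
    · exact hb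
    · exact hc
  have h5 := card_le_card h4
  omega

/-- an edge has one positive and one negative vertex -/
theorem o1 (e : X.N) (he : X.toCells.dim e = 1) : ∑ v, X.toCells.inc e v = 0 := by
  have h1 : (X.verts e).card = 2 := by
    have h2 := card_pos.2 (X.ne e)
    change (X.verts e).card - 1 = 1 at he
    omega
  obtain ⟨x, y, hxy, hE⟩ := card_eq_two.1 h1
  have h3 := X.sum_inc_right (k := ℤ) (fun _ => 1) (X.verts e)
  simp only [Int.cast_id, mul_one] at h3
  refine Eq.trans h3 ?_
  have h4 : ∀ a ∈ X.verts e, X.ext (fun _ => (1 : ℤ)) ((X.verts e).erase a) = 1 := by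
    intro a ha
    obtain ⟨τ, hτ⟩ := X.down e ((X.verts e).erase a) (erase_subset _ _) (by
      rw [← card_pos, card_erase_of_mem ha, h1]; norm_num)
    exact X.ext_of_eq _ hτ
  rw [sum_congr rfl fun a ha => by rw [h4 a ha, mul_one], hE, sum_pair hxy]
  have h5 := sgn_swap (A := ({x, y} : Finset (Fin n))) (mem_insert_self x {y})
    (mem_insert_of_mem (mem_singleton_self y)) hxy
  have h6 : ({x, y} : Finset (Fin n)).erase x = {y} := by
    rw [erase_insert]
    simpa using hxy
  have h7 : ({x, y} : Finset (Fin n)).erase y = {x} := by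
    rw [Finset.pair_comm, erase_insert]
    simpa using hxy.symm
  rw [h6, h7, sgn_min (A := {y}) (by simp), sgn_min (A := {x}) (by simp)] at h5
  omega

/-- connectedness of a complex with a complete graph as `1`-skeleton -/
theorem conn (hE : ∀ a b : Fin n, a ≠ b → ∃ σ, X.verts σ = {a, b}) {k : Type*} (φ : X.N → k)
    (h : ∀ i j, X.toCells.inc i j ≠ 0 → φ i = φ j) (i j : X.N) : φ i = φ j := by
  have h1 : ∀ (m : ℕ) (σ : X.N), (X.verts σ).card = m + 1 →
      ∃ v a, X.verts v = {a} ∧ φ σ = φ v := by
    intro m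
    induction m with
    | zero =>
      intro σ hσ
      obtain ⟨a, ha⟩ := card_eq_one.1 hσ
      exact ⟨σ, a, ha, rfl⟩
    | succ m ih =>
      intro σ hσ
      obtain ⟨a, ha⟩ := X.ne σ
      have h2 : ((X.verts σ).erase a).card = m + 1 := by
        rw [card_erase_of_mem ha, hσ]
        rfl
      obtain ⟨τ, hτ⟩ := X.down σ _ (erase_subset a _) (card_pos.1 (by omega))
      obtain ⟨v, b, hv, hb⟩ := ih τ (by rw [hτ, h2])
      refine ⟨v, b, hv, Eq.trans (h σ τ ?_) hb⟩
      refine (X.inc_ne_iff σ τ).2 ⟨?_, ?_⟩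
      · rw [hτ]
        exact erase_subset _ _
      · rw [hτ, h2, hσ]
  have h2 : ∀ u v a b, X.verts u = {a} → X.verts v = {b} → φ u = φ v := by
    intro u v a b hu hv
    by_cases hab : a = b
    · subst hab
      rw [X.inj (hu.trans hv.symm)]
    · obtain ⟨σ, hσ⟩ := hE a b hab
      have h3 : φ σ = φ u := by
        refine h σ u ((X.inc_ne_iff σ u).2 ⟨?_, ?_⟩)
        · rw [hσ, hu]
          simp
        · rw [hσ, hu, card_pair hab, card_singleton]
      have h4 : φ σ = φ v := by
        refine h σ v ((X.inc_ne_iff σ v).2 ⟨?_, ?_⟩)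
        · rw [hσ, hv]
          simp
        · rw [hσ, hv, card_pair hab, card_singleton]
      exact h3.symm.trans h4
  have hi := card_pos.2 (X.ne i)
  have hj := card_pos.2 (X.ne j)
  obtain ⟨u, a, hu, hu'⟩ := h1 ((X.verts i).card - 1) i (by omega)
  obtain ⟨v, b, hv, hv'⟩ := h1 ((X.verts j).card - 1) j (by omega)
  rw [hu', hv']
  exact h2 u v a b hu hv

end SC

end Lens
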