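import Pool.Agent.Lens.SCFacts

/-!
# Isomorphisms of stars
-/

set_option autoImplicit false

open Finset

namespace Lens

namespace Cells

/-- exactness of the star of `τ`, up to the facet `t` -/
def UpperAt (Z : Cells) (k : Type*) [Field k] (τ t : Z.N) : Prop :=
  ∀ (d : ℕ) (φ : Z.N → k), (∀ σ, φ σ ≠ 0 → Z.le τ σ ∧ Z.dim σ = d) →
    (∀ i, Z.le τ i → ∑ l, (Z.inc i l : k) * φ l = 0) →
    ∃ ψ : Z.N → k, (∀ σ, ψ σ ≠ 0 → Z.le τ σ ∧ Z.dim σ + 1 = d) ∧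
      ∀ i, Z.le τ i → (d = 3 → i ≠ t) → φ i = ∑ l, (Z.inc i l : k) * ψ l

/-- an isomorphism of stars -/
structure StarIso (Z Z' : Cells) (τ : Z.N) (τ' : Z'.N) where
  e : {σ // Z.le τ σ} ≃ {σ // Z'.le τ' σ}
  dim : ∀ σ, Z'.dim (e σ).1 = Z.dim σ.1
  inc : ∀ σ ρ, Z'.inc (e σ).1 (e ρ).1 = Z.inc σ.1 ρ.1

theorem sum_star (Z : Cells) (τ : Z.N) [Fintype {σ // Z.le τ σ}] {M : Type*} [AddCommMonoid M]
    (f : Z.N → M) (hf : ∀ σ, ¬ Z.le τ σ → f σ = 0) :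
    ∑ σ : {σ // Z.le τ σ}, f σ.1 = ∑ σ, f σ := by
  classical
  rw [← Finset.sum_subset (Finset.subset_univ (Finset.univ.filter fun i => Z.le τ i))]
  · exact (Finset.sum_subtype _ (by simp) f).symm
  · intro i _ hi
    exact hf i (by simpa using hi)

variable {Z Z' : Cells} {τ : Z.N} {τ' : Z'.N}

theorem StarIso.sum_eq (I : StarIso Z Z' τ τ') {M : Type*} [AddCommMonoid M] (f : Z.N → M)
    (f' : Z'.N → M) (hf : ∀ σ, ¬ Z.le τ σ → f σ = 0) (hf' : ∀ σ, ¬ Z'.le τ' σ → f' σ = 0)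
    (h : ∀ σ, f' (I.e σ).1 = f σ.1) : ∑ σ, f' σ = ∑ σ, f σ := by
  classical
  rw [← Z.sum_star τ f hf, ← Z'.sum_star τ' f' hf', ← I.e.sum_comp]
  exact sum_congr rfl fun σ _ => h σ

theorem StarIso.upperAt (I : StarIso Z Z' τ τ') {k : Type*} [Field k]
    (t' : {σ // Z'.le τ' σ}) (h : Z'.UpperAt k τ' t'.1) : Z.UpperAt k τ (I.e.symm t').1 := by
  classical
  intro d φ hφ hc
  obtain ⟨φ', hφ'⟩ : ∃ φ' : Z'.N → k, ∀ σ', φ' σ' =
      if h : Z'.le τ' σ' then φ (I.e.symm ⟨σ', h⟩).1 else 0 := ⟨_, fun _ => rfl⟩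
  have e1 : ∀ σ, φ' (I.e σ).1 = φ σ.1 := by
    intro σ
    rw [hφ', dif_pos (I.e σ).2]
    exact congrArg (fun x => φ x.1) (I.e.symm_apply_apply σ)
  have z1 : ∀ σ, ¬ Z.le τ σ → φ σ = 0 := by
    intro σ hσ
    by_contra h'
    exact hσ (hφ σ h').1
  have z1' : ∀ σ, ¬ Z'.le τ' σ → φ' σ = 0 := fun σ hσ => by rw [hφ', dif_neg hσ]
  obtain ⟨ψ', h1, h2⟩ := h d φ' (by
    intro σ' hσ'
    have hl : Z'.le τ' σ' := by
      by_contra hl
      exact hσ' (z1' σ' hl)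
    refine ⟨hl, ?_⟩
    rw [hφ', dif_pos hl] at hσ'
    have h3 := (hφ _ hσ').2
    rw [← I.dim, Equiv.apply_symm_apply] at h3
    exact h3) (by
    intro i' hi'
    obtain ⟨i, hi⟩ := I.e.surjective ⟨i', hi'⟩
    have h3 := hc i.1 i.2
    rw [← h3]
    refine I.sum_eq _ _ (fun σ hσ => by rw [z1 σ hσ, mul_zero])
      (fun σ hσ => by rw [z1' σ hσ, mul_zero]) fun σ => ?_
    have h4 : i' = (I.e i).1 := by rw [hi]
    rw [e1, h4, I.inc])
  have z2' : ∀ σ, ¬ Z'.le τ' σ → ψ' σ = 0 := by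
    intro σ hσ
    by_contra h'
    exact hσ (h1 σ h').1
  obtain ⟨ψ, hψ⟩ : ∃ ψ : Z.N → k, ∀ σ, ψ σ =
      if h : Z.le τ σ then ψ' (I.e ⟨σ, h⟩).1 else 0 := ⟨_, fun _ => rfl⟩
  have z2 : ∀ σ, ¬ Z.le τ σ → ψ σ = 0 := fun σ hσ => by rw [hψ, dif_neg hσ]
  have e2 : ∀ σ : {σ // Z.le τ σ}, ψ' (I.e σ).1 = ψ σ.1 := by
    intro σ
    rw [hψ, dif_pos σ.2]
  refine ⟨ψ, ?_, ?_⟩
  · intro σ hσ
    have hl : Z.le τ σ := by
      by_contra hl
      exact hσ (z2 σ hl)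
    refine ⟨hl, ?_⟩
    rw [hψ, dif_pos hl] at hσ
    have h3 := (h1 _ hσ).2
    rw [I.dim] at h3
    exact h3
  · intro i hi hit
    have h3 := h2 (I.e ⟨i, hi⟩).1 (I.e ⟨i, hi⟩).2 (by
      intro hd h4
      have h5 : I.e ⟨i, hi⟩ = t' := Subtype.ext h4
      refine hit hd ?_
      rw [← h5, Equiv.symm_apply_apply])
    rw [e1] at h3
    refine h3.trans ?_
    refine I.sum_eq _ _ (fun σ hσ => by rw [z2 σ hσ, mul_zero])
      (fun σ hσ => by rw [z2' σ hσ, mul_zero]) fun σ => ?_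
    rw [e2, I.inc]

end Cells

namespace SC

theorem sgn_map {n m : ℕ} (f : Fin n ↪o Fin m) (A : Finset (Fin n)) (a : Fin n) :
    sgn (A.map f.toEmbedding) (f a) = sgn A a := by
  rw [sgn, sgn, filter_map, card_map]
  congr 2
  refine filter_congr fun b _ => ?_
  exact f.lt_iff_lt

theorem incF_map {n m : ℕ} (f : Fin n ↪o Fin m) (A B : Finset (Fin n)) :
    incF (A.map f.toEmbedding) (B.map f.toEmbedding) = incF A B := by
  rw [incF, incF, sum_map]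
  refine sum_congr rfl fun a _ => ?_
  have h1 : (A.map f.toEmbedding).erase (f.toEmbedding a) = (A.erase a).map f.toEmbedding :=
    (map_erase _ _ _).symm
  rw [h1]
  have h2 : sgn (A.map f.toEmbedding) (f.toEmbedding a) = sgn A a := sgn_map f A a
  rw [h2]
  by_cases h : A.erase a = B
  · rw [if_pos h, if_pos (by rw [h])]
  · rw [if_neg h, if_neg (fun h' => h (map_injective _ h'))]

section

variable {n m : ℕ} (X : SC n) (Y : SC m) (f : Fin n ↪o Fin m) (τ : Y.N) (τ' : X.N)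
  (hτ : Y.verts τ = (X.verts τ').map f.toEmbedding)
  (H1 : ∀ σ, Y.verts τ ⊆ Y.verts σ → ∃ σ', Y.verts σ = (X.verts σ').map f.toEmbedding)
  (H2 : ∀ σ', X.verts τ' ⊆ X.verts σ' → ∃ σ, Y.verts σ = (X.verts σ').map f.toEmbedding)

/-- the map of stars -/
noncomputable def starFwd (σ : {σ // Y.toCells.le τ σ}) : {σ' // X.toCells.le τ' σ'} :=
  ⟨(H1 σ.1 σ.2).choose, by
    have h := (H1 σ.1 σ.2).choose_spec
    have h1 : Y.verts τ ⊆ Y.verts σ.1 := σ.2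
    rw [hτ, h, map_subset_map] at h1
    exact h1⟩

theorem starFwd_spec (σ : {σ // Y.toCells.le τ σ}) :
    Y.verts σ.1 = (X.verts (starFwd X Y f τ τ' hτ H1 σ).1).map f.toEmbedding :=
  (H1 σ.1 σ.2).choose_spec

/-- the inverse map of stars -/
noncomputable def starBwd (σ' : {σ' // X.toCells.le τ' σ'}) : {σ // Y.toCells.le τ σ} :=
  ⟨(H2 σ'.1 σ'.2).choose, by
    have h := (H2 σ'.1 σ'.2).choose_spec
    change Y.verts τ ⊆ Y.verts (H2 σ'.1 σ'.2).choose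
    rw [hτ, h, map_subset_map]
    exact σ'.2⟩

theorem starBwd_spec (σ' : {σ' // X.toCells.le τ' σ'}) :
    Y.verts (starBwd X Y f τ τ' hτ H2 σ').1 = (X.verts σ'.1).map f.toEmbedding :=
  (H2 σ'.1 σ'.2).choose_spec

/-- the isomorphism of stars given by an order embedding of the vertices -/
noncomputable def starIso : Cells.StarIso Y.toCells X.toCells τ τ' where
  e :=
    { toFun := starFwd X Y f τ τ' hτ H1
      invFun := starBwd X Y f τ τ' hτ H2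
      left_inv := fun σ => Subtype.ext (Y.inj (by
        rw [starBwd_spec, ← starFwd_spec]))
      right_inv := fun σ' => Subtype.ext (X.inj (map_injective f.toEmbedding (by
        rw [← starFwd_spec, starBwd_spec]))) }
  dim σ := by
    change (X.verts (starFwd X Y f τ τ' hτ H1 σ).1).card - 1 = (Y.verts σ.1).card - 1
    rw [starFwd_spec X Y f τ τ' hτ H1 σ, card_map]
  inc σ ρ := by
    change incF (X.verts (starFwd X Y f τ τ' hτ H1 σ).1)
      (X.verts (starFwd X Y f τ τ' hτ H1 ρ).1) = incF (Y.verts σ.1) (Y.verts ρ.1)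
    rw [starFwd_spec X Y f τ τ' hτ H1 σ, starFwd_spec X Y f τ τ' hτ H1 ρ, incF_map]

theorem starIso_spec (σ : {σ // Y.toCells.le τ σ}) :
    Y.verts σ.1 = (X.verts ((starIso X Y f τ τ' hτ H1 H2).e σ).1).map f.toEmbedding :=
  starFwd_spec X Y f τ τ' hτ H1 σ

end

end SC

end Lens
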