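import Pool.Agent.Lens.StkData
import Pool.Agent.Lens.Star

/-!
# The stacked lens spaces: the complex, the window lemma
-/

set_option autoImplicit false

open Finset

namespace Lens

namespace Stk

/-! ### facets -/

theorem typ_facts : (∀ F ∈ FBp ++ FBn, F.length = 4 ∧ ∀ x ∈ F, x < 18) ∧
    (∀ F ∈ FMp ++ FMn, F.length = 4 ∧ ∀ x ∈ F, x < 18) ∧
    (∀ F ∈ FTp ++ FTn, F.length = 4 ∧ ∀ x ∈ F, x < 18) := by
  refine ⟨?_, ?_, ?_⟩ <;> decide

theorem typ_fact {R β : ℕ} {F : List ℕ} (hF : F ∈ typ R β) :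
    F.length = 4 ∧ ∀ x ∈ F, x < 18 := by
  obtain ⟨h1, h2, h3⟩ := typ_facts
  unfold typ typp typn at hF
  split_ifs at hF with ha hb hc
  · exact h1 F hF
  · exact h2 F hF
  · exact h3 F hF
  · exact absurd hF (by simp)

theorem typ_le {R β : ℕ} {F : List ℕ} (hF : F ∈ typ R β) : β ≤ R + 1 := by
  unfold typ typp typn at hF
  split_ifs at hF with ha hb hc
  · omega
  · omega
  · omega
  · exact absurd hF (by simp)

/-- the shift which makes the block `b` look like a block of `Stk 2` -/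
def sh (R b : ℕ) : ℕ := min (b - 2) (R - 2)

theorem sh_add_two_le {R : ℕ} (hR : 2 ≤ R) (b : ℕ) : sh R b + 2 ≤ R := by
  unfold sh
  omega

theorem sh_le {R b β : ℕ} (hβ : β = b ∨ β + 1 = b) : sh R b ≤ β := by
  unfold sh
  omega

theorem typp_window {R b β : ℕ} (hR : 2 ≤ R) (hβ : β = b ∨ β + 1 = b) :
    typp R β = typp 2 (β - sh R b) := by
  unfold typp sh
  split_ifs <;> first | rfl | omega

theorem typn_window {R b β : ℕ} (hR : 2 ≤ R) (hβ : β = b ∨ β + 1 = b) :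
    typn R β = typn 2 (β - sh R b) := by
  unfold typn sh
  split_ifs <;> first | rfl | omega

theorem typ_window {R b β : ℕ} (hR : 2 ≤ R) (hβ : β = b ∨ β + 1 = b) :
    typ R β = typ 2 (β - sh R b) := by
  rw [typ, typ, typp_window hR hβ, typn_window hR hβ]

/-! ### simplices -/

theorem IsS.mono {R : ℕ} {A B : Finset ℕ} (h : IsS R A) (hB : B ⊆ A) (hne : B.Nonempty) :
    IsS R B := by
  obtain ⟨_, β, F, hF, h1⟩ := h
  exact ⟨hne, β, F, hF, fun a ha => h1 a (hB ha)⟩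

theorem IsS.lt {R : ℕ} {A : Finset ℕ} (h : IsS R A) {a : ℕ} (ha : a ∈ A) :
    a < 9 * (R + 3) := by
  obtain ⟨_, β, F, hF, h1⟩ := h
  obtain ⟨b, hb, rfl⟩ := h1 a ha
  have h2 := typ_le hF
  have h3 := (typ_fact hF).2 b hb
  omega

theorem IsS.card_le {R : ℕ} {A : Finset ℕ} (h : IsS R A) : A.card ≤ 4 := by
  obtain ⟨_, β, F, hF, h1⟩ := h
  have h2 : A ⊆ (F.map (fun b => 9 * β + b)).toFinset := by
    intro a ha
    obtain ⟨b, hb, rfl⟩ := h1 a ha
    exact List.mem_toFinset.2 (List.mem_map.2 ⟨b, hb, rfl⟩)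
  refine (Finset.card_le_card h2).trans ((List.toFinset_card_le _).trans ?_)
  rw [List.length_map, (typ_fact hF).1]

/-- window lemma, first half -/
theorem window₁ {R : ℕ} (hR : 2 ≤ R) {v : ℕ} {A : Finset ℕ} (hv : v ∈ A) (hA : IsS R A) :
    ∃ B : Finset ℕ, IsS 2 B ∧ A = B.image (· + 9 * sh R (v / 9)) := by
  obtain ⟨hne, β, F, hF, h1⟩ := hA
  obtain ⟨f, hf, hvf⟩ := h1 v hv
  have h2 := (typ_fact hF).2 f hf
  have h3 : β = v / 9 ∨ β + 1 = v / 9 := by omega
  have h4 : sh R (v / 9) ≤ β := sh_le h3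
  refine ⟨A.image (· - 9 * sh R (v / 9)), ⟨hne.image _, β - sh R (v / 9), F, ?_, ?_⟩, ?_⟩
  · rw [← typ_window hR h3]
    exact hF
  · intro a ha
    obtain ⟨c, hc, rfl⟩ := Finset.mem_image.1 ha
    obtain ⟨b, hb, rfl⟩ := h1 c hc
    exact ⟨b, hb, by omega⟩
  · rw [Finset.image_image]
    have h5 : ∀ a ∈ A, ((· + 9 * sh R (v / 9)) ∘ (· - 9 * sh R (v / 9))) a = id a := by
      intro a ha
      obtain ⟨b, hb, rfl⟩ := h1 a ha
      change 9 * β + b - 9 * sh R (v / 9) + 9 * sh R (v / 9) = 9 * β + b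
      omega
    rw [Finset.image_congr h5, Finset.image_id]

/-- window lemma, second half -/
theorem window₂ {R : ℕ} (hR : 2 ≤ R) {v : ℕ} {B : Finset ℕ}
    (hv : v ∈ B.image (· + 9 * sh R (v / 9))) (hB : IsS 2 B) :
    IsS R (B.image (· + 9 * sh R (v / 9))) := by
  obtain ⟨hne, β, F, hF, h1⟩ := hB
  obtain ⟨c, hc, hcv⟩ := Finset.mem_image.1 hv
  obtain ⟨f, hf, hcf⟩ := h1 c hc
  have h2 := (typ_fact hF).2 f hf
  change c + 9 * sh R (v / 9) = v at hcv
  have h3 : β + sh R (v / 9) = v / 9 ∨ β + sh R (v / 9) + 1 = v / 9 := by omega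
  refine ⟨hne.image _, β + sh R (v / 9), F, ?_, ?_⟩
  · rw [typ_window hR h3, Nat.add_sub_cancel]
    exact hF
  · intro a ha
    obtain ⟨c', hc', rfl⟩ := Finset.mem_image.1 ha
    obtain ⟨b, hb, rfl⟩ := h1 c' hc'
    exact ⟨b, hb, by omega⟩

/-! ### orientation -/

/-- the vertices of a facet -/
def fac (β : ℕ) (F : List ℕ) : Finset ℕ := (F.map (fun b => 9 * β + b)).toFinset

/-- `A` is a facet of the list `t` -/
def IsF (t : ℕ → List (List ℕ)) (A : Finset ℕ) : Prop := ∃ β, ∃ F ∈ t β, A = fac β F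

theorem mem_fac {β : ℕ} {F : List ℕ} {a : ℕ} : a ∈ fac β F ↔ ∃ b ∈ F, 9 * β + b = a := by
  simp [fac]

open scoped Classical in
/-- the orientation -/
noncomputable def epsF (R : ℕ) (A : Finset ℕ) : ℤ :=
  if IsF (typp R) A then 1 else if IsF (typn R) A then -1 else 0

theorem mem_typ_of_typp {R β : ℕ} {F : List ℕ} (h : F ∈ typp R β) : F ∈ typ R β :=
  List.mem_append_left _ h

theorem mem_typ_of_typn {R β : ℕ} {F : List ℕ} (h : F ∈ typn R β) : F ∈ typ R β :=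
  List.mem_append_right _ h

theorem epsF_ne {R : ℕ} {A : Finset ℕ} (h : IsS R A) (h4 : A.card = 4) :
    epsF R A = 1 ∨ epsF R A = -1 := by
  obtain ⟨_, β, F, hF, h1⟩ := h
  have h2 : A ⊆ fac β F := by
    intro a ha
    obtain ⟨b, hb, rfl⟩ := h1 a ha
    exact mem_fac.2 ⟨b, hb, rfl⟩
  have h3 : A = fac β F := by
    refine Finset.eq_of_subset_of_card_le h2 ?_
    rw [h4]
    refine (List.toFinset_card_le _).trans ?_
    rw [List.length_map, (typ_fact hF).1]
  rcases List.mem_append.1 hF with hF | hF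
  · left
    exact if_pos ⟨β, F, hF, h3⟩
  · by_cases h5 : IsF (typp R) A
    · left
      exact if_pos h5
    · right
      rw [epsF, if_neg h5, if_pos ⟨β, F, hF, h3⟩]

theorem fac_image (β s : ℕ) (F : List ℕ) : (fac β F).image (· + 9 * s) = fac (β + s) F := by
  ext a
  rw [Finset.mem_image, mem_fac]
  constructor
  · rintro ⟨c, hc, rfl⟩
    obtain ⟨b, hb, rfl⟩ := mem_fac.1 hc
    exact ⟨b, hb, by ring⟩
  · rintro ⟨b, hb, rfl⟩
    exact ⟨9 * β + b, mem_fac.2 ⟨b, hb, rfl⟩, by ring⟩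

theorem isF_window {v s : ℕ} {t t2 : ℕ → List (List ℕ)}
    (ht : ∀ β F, F ∈ t β → ∀ x ∈ F, x < 18) (ht2 : ∀ β F, F ∈ t2 β → ∀ x ∈ F, x < 18)
    (hw : ∀ β, (β = v / 9 ∨ β + 1 = v / 9) → s ≤ β ∧ t β = t2 (β - s)) {B : Finset ℕ}
    (hv : v ∈ B.image (· + 9 * s)) :
    IsF t (B.image (· + 9 * s)) ↔ IsF t2 B := by
  have hinj : Function.Injective (fun x : ℕ => x + 9 * s) := fun a b h => by
    change a + 9 * s = b + 9 * s at h
    omega
  constructor
  · rintro ⟨β, F, hF, h⟩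
    rw [h] at hv
    obtain ⟨f, hf, hvf⟩ := mem_fac.1 hv
    have h2 := ht β F hF f hf
    obtain ⟨h3, h4⟩ := hw β (by omega)
    refine ⟨β - s, F, h4 ▸ hF, Finset.image_injective hinj ?_⟩
    change B.image (· + 9 * s) = (fac (β - s) F).image (· + 9 * s)
    rw [h, fac_image, Nat.sub_add_cancel h3]
  · rintro ⟨β, F, hF, h⟩
    rw [h, fac_image] at hv
    obtain ⟨f, hf, hvf⟩ := mem_fac.1 hv
    have h2 := ht2 β F hF f hf
    obtain ⟨h3, h4⟩ := hw (β + s) (by omega)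
    refine ⟨β + s, F, ?_, by rw [h, fac_image]⟩
    rw [h4, Nat.add_sub_cancel]
    exact hF

theorem epsF_window {R : ℕ} (hR : 2 ≤ R) {v : ℕ} {B : Finset ℕ}
    (hv : v ∈ B.image (· + 9 * sh R (v / 9))) :
    epsF R (B.image (· + 9 * sh R (v / 9))) = epsF 2 B := by
  have e1 : IsF (typp R) (B.image (· + 9 * sh R (v / 9))) ↔ IsF (typp 2) B :=
    isF_window (t := typp R) (t2 := typp 2)
      (fun β F hF => (typ_fact (mem_typ_of_typp hF)).2)
      (fun β F hF => (typ_fact (mem_typ_of_typp hF)).2)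
      (fun β hβ => ⟨sh_le hβ, typp_window hR hβ⟩) hv
  have e2 : IsF (typn R) (B.image (· + 9 * sh R (v / 9))) ↔ IsF (typn 2) B :=
    isF_window (t := typn R) (t2 := typn 2)
      (fun β F hF => (typ_fact (mem_typ_of_typn hF)).2)
      (fun β F hF => (typ_fact (mem_typ_of_typn hF)).2)
      (fun β hβ => ⟨sh_le hβ, typn_window hR hβ⟩) hv
  rw [epsF, epsF]
  by_cases h : IsF (typp R) (B.image (· + 9 * sh R (v / 9)))
  · rw [if_pos h, if_pos (e1.1 h)]
  · rw [if_neg h, if_neg (fun h' => h (e1.2 h'))]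
    by_cases h' : IsF (typn R) (B.image (· + 9 * sh R (v / 9)))
    · rw [if_pos h', if_pos (e2.1 h')]
    · rw [if_neg h', if_neg (fun h'' => h' (e2.2 h''))]

end Stk

open Stk

/-! ### the complex -/

/-- the vertex set as a set of natural numbers -/
abbrev nat {n : ℕ} (A : Finset (Fin n)) : Finset ℕ := A.map Fin.valEmbedding

open scoped Classical in
/-- the stacked lens space `Stk R` -/
noncomputable def stk (R : ℕ) : SC (9 * (R + 3)) where
  N := {A : Finset (Fin (9 * (R + 3))) // IsS R (nat A)}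
  fin := inferInstance
  dec := inferInstance
  verts A := A.1
  inj := Subtype.val_injective
  ne A := by
    have h := A.2.1
    rwa [Finset.map_nonempty] at h
  down A B hB hne := ⟨⟨B, A.2.mono (Finset.map_subset_map.2 hB) (hne.map)⟩, rfl⟩

theorem stk_isS {R : ℕ} (σ : (stk R).N) : IsS R (nat ((stk R).verts σ)) := σ.2

theorem stk_exists {R : ℕ} {A : Finset (Fin (9 * (R + 3)))} (h : IsS R (nat A)) :
    ∃ σ, (stk R).verts σ = A := ⟨⟨A, h⟩, rfl⟩

theorem exists_verts_iff {R : ℕ} (A : Finset (Fin (9 * (R + 3)))) :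
    (∃ σ, (stk R).verts σ = A) ↔ IsS R (A.map Fin.valEmbedding) :=
  ⟨fun ⟨σ, h⟩ => h ▸ stk_isS σ, fun h => stk_exists h⟩

/-- a simplex given as a set of natural numbers -/
theorem stk_exists_nat {R : ℕ} {A : Finset ℕ} (h : IsS R A) :
    ∃ σ, nat ((stk R).verts σ) = A := by
  have h1 : (A.attachFin fun a ha => h.lt ha).map Fin.valEmbedding = A :=
    Finset.map_valEmbedding_attachFin _
  exact ⟨⟨A.attachFin fun a ha => h.lt ha, by rw [nat, h1]; exact h⟩, h1⟩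

theorem stk_dim_le {R : ℕ} (σ : (stk R).N) : (stk R).toCells.dim σ ≤ 3 := by
  have h := (stk_isS σ).card_le
  rw [Finset.card_map] at h
  change ((stk R).verts σ).card - 1 ≤ 3
  omega

/-- the shift of the vertices -/
def shE (R s : ℕ) (hs : s + 2 ≤ R) : Fin (9 * (2 + 3)) ↪o Fin (9 * (R + 3)) :=
  OrderEmbedding.ofStrictMono (fun b => ⟨b.1 + 9 * s, by have := b.2; omega⟩) (by
    intro a b h
    have h' : a.1 < b.1 := h
    change a.1 + 9 * s < b.1 + 9 * s
    omega)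

theorem nat_map_shE {R s : ℕ} (hs : s + 2 ≤ R) (B : Finset (Fin (9 * (2 + 3)))) :
    nat (B.map (shE R s hs).toEmbedding) = (nat B).image (· + 9 * s) := by
  ext a
  simp only [nat, Finset.mem_map, Finset.mem_image]
  constructor
  · rintro ⟨x, ⟨b, hb, rfl⟩, rfl⟩
    exact ⟨b.1, ⟨b, hb, rfl⟩, rfl⟩
  · rintro ⟨x, ⟨b, hb, rfl⟩, rfl⟩
    exact ⟨_, ⟨b, hb, rfl⟩, rfl⟩

/-- every star of `Stk R` is a star of `Stk 2` -/
theorem stk_star {R : ℕ} (hR : 2 ≤ R) (τ : (stk R).N) :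
    ∃ (s : ℕ) (hs : s + 2 ≤ R) (τ' : (stk 2).N),
      (stk R).verts τ = ((stk 2).verts τ').map (shE R s hs).toEmbedding ∧
      (∀ σ, (stk R).verts τ ⊆ (stk R).verts σ →
        ∃ σ', (stk R).verts σ = ((stk 2).verts σ').map (shE R s hs).toEmbedding) ∧
      (∀ σ', (stk 2).verts τ' ⊆ (stk 2).verts σ' →
        ∃ σ, (stk R).verts σ = ((stk 2).verts σ').map (shE R s hs).toEmbedding) ∧
      (∀ σ', (stk 2).verts τ' ⊆ (stk 2).verts σ' →
        epsF R (nat (((stk 2).verts σ').map (shE R s hs).toEmbedding)) =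
          epsF 2 (nat ((stk 2).verts σ'))) := by
  obtain ⟨v, hv⟩ := (stk R).ne τ
  have key : ∀ σ, v ∈ (stk R).verts σ → ∃ σ', (stk R).verts σ =
      ((stk 2).verts σ').map (shE R (sh R (v.1 / 9)) (sh_add_two_le hR _)).toEmbedding := by
    intro σ hσ
    obtain ⟨B, hB, h1⟩ := window₁ hR (v := v.1) (A := nat ((stk R).verts σ))
      (Finset.mem_map.2 ⟨v, hσ, rfl⟩) (stk_isS σ)
    obtain ⟨σ', h2⟩ := stk_exists_nat hB
    refine ⟨σ', Finset.map_injective Fin.valEmbedding ?_⟩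
    change nat ((stk R).verts σ) = nat (((stk 2).verts σ').map _)
    rw [nat_map_shE, h2, h1]
  obtain ⟨τ', hτ'⟩ := key τ hv
  have hv' : ∀ σ', (stk 2).verts τ' ⊆ (stk 2).verts σ' →
      v.1 ∈ (nat ((stk 2).verts σ')).image (· + 9 * sh R (v.1 / 9)) := by
    intro σ' h
    rw [← nat_map_shE (sh_add_two_le hR _)]
    refine Finset.mem_map.2 ⟨v, ?_, rfl⟩
    rw [hτ'] at hv
    exact (Finset.map_subset_map.2 h) hv
  refine ⟨sh R (v.1 / 9), sh_add_two_le hR _, τ', hτ', fun σ h => key σ (h hv), ?_, ?_⟩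
  · intro σ' h
    refine stk_exists ?_
    rw [nat_map_shE]
    exact window₂ hR (hv' σ' h) (stk_isS σ')
  · intro σ' h
    rw [nat_map_shE]
    exact epsF_window hR (hv' σ' h)

/-- `upper` for `Stk R` follows from `upper` for `Stk 2`. -/
theorem stk_upper {R : ℕ} (hR : 2 ≤ R) {k : Type*} [Field k]
    (h2 : ∀ τ : (stk 2).N, ∃ t, (stk 2).toCells.le τ t ∧ (stk 2).toCells.dim t = 3 ∧
      (stk 2).toCells.UpperAt k τ t) (τ : (stk R).N) :
    ∃ t, (stk R).toCells.le τ t ∧ (stk R).toCells.dim t = 3 ∧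
      (stk R).toCells.UpperAt k τ t := by
  obtain ⟨s, hs, τ', h1, h3, h4, _⟩ := stk_star hR τ
  obtain ⟨t', ht', hd, hu⟩ := h2 τ'
  have I := SC.starIso (stk 2) (stk R) (shE R s hs) τ τ' h1 h3 h4
  refine ⟨(I.e.symm ⟨t', ht'⟩).1, (I.e.symm ⟨t', ht'⟩).2, ?_, I.upperAt ⟨t', ht'⟩ hu⟩
  rw [← I.dim, Equiv.apply_symm_apply]
  exact hd

/-- the orientation of `Stk R` -/
noncomputable def stkEps (R : ℕ) (σ : (stk R).N) : ℤ := epsF R (nat ((stk R).verts σ))

theorem stkEps_cases {R : ℕ} (σ : (stk R).N) (h : (stk R).toCells.dim σ = 3) :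
    stkEps R σ = 1 ∨ stkEps R σ = -1 := by
  refine epsF_ne (stk_isS σ) ?_
  rw [Finset.card_map]
  have h1 := Finset.card_pos.2 ((stk R).ne σ)
  change ((stk R).verts σ).card - 1 = 3 at h
  omega

theorem stkEps_ne {R : ℕ} {k : Type*} [Field k] (σ : (stk R).N)
    (h : (stk R).toCells.dim σ = 3) : ((stkEps R σ : ℤ) : k) ≠ 0 := by
  rcases stkEps_cases σ h with h | h <;> rw [h] <;> simp

/-- the orientation condition for `Stk R` follows from the one for `Stk 2`. -/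
theorem stk_o2 {R : ℕ} (hR : 2 ≤ R) {k : Type*} [Field k]
    (h2 : ∀ r : (stk 2).N, (stk 2).toCells.dim r = 2 →
      ∑ σ, ((stkEps 2 σ : ℤ) : k) * ((stk 2).toCells.inc σ r : k) = 0)
    (r : (stk R).N) (hr : (stk R).toCells.dim r = 2) :
    ∑ σ, ((stkEps R σ : ℤ) : k) * ((stk R).toCells.inc σ r : k) = 0 := by
  obtain ⟨s, hs, r', h1, h3, h4, h5⟩ := stk_star hR r
  obtain ⟨I, hI⟩ : ∃ I : Cells.StarIso (stk R).toCells (stk 2).toCells r r',
      ∀ σ : {σ // (stk R).toCells.le r σ}, (stk R).verts σ.1 =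
        ((stk 2).verts (I.e σ).1).map (shE R s hs).toEmbedding :=
    ⟨SC.starIso (stk 2) (stk R) (shE R s hs) r r' h1 h3 h4,
      fun σ => SC.starIso_spec (stk 2) (stk R) (shE R s hs) r r' h1 h3 h4 σ⟩
  have er : (I.e ⟨r, (stk R).toCells.le_refl r⟩).1 = r' := by
    apply (stk 2).inj
    have h6 := hI ⟨r, (stk R).toCells.le_refl r⟩
    rw [h1] at h6
    exact (Finset.map_injective _ h6).symm
  have hr' : (stk 2).toCells.dim r' = 2 := by
    rw [← er, I.dim]
    exact hr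
  have z : ∀ σ, ¬ (stk R).toCells.le r σ → (stk R).toCells.inc σ r = 0 := by
    intro σ h
    by_contra h'
    exact h ((stk R).toCells.inc_le _ _ h').1
  have z' : ∀ σ, ¬ (stk 2).toCells.le r' σ → (stk 2).toCells.inc σ r' = 0 := by
    intro σ h
    by_contra h'
    exact h ((stk 2).toCells.inc_le _ _ h').1
  rw [← h2 r' hr']
  refine (I.sum_eq _ _ (fun σ hσ => by rw [z σ hσ, Int.cast_zero, mul_zero])
    (fun σ hσ => by rw [z' σ hσ, Int.cast_zero, mul_zero]) fun σ => ?_).symm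
  have e1 : stkEps 2 (I.e σ).1 = stkEps R σ.1 := by
    rw [stkEps, stkEps, hI σ]
    exact (h5 _ (I.e σ).2).symm
  have e2 : (stk 2).toCells.inc (I.e σ).1 r' = (stk R).toCells.inc σ.1 r := by
    exact (congrArg ((stk 2).toCells.inc (I.e σ).1) er).symm.trans
      (I.inc σ ⟨r, (stk R).toCells.le_refl r⟩)
  rw [e1, e2]

end Lens
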