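import Mathlib

/-!
# The stacked lens spaces: data

`Stk R` is a triangulation of the lens space `L(R, 1)`. Vertices are natural numbers
`a = 9 * b + p` (block `b`, position `p < 9`). Block `0` contains the core circle of a solid torus
(positions `6, 7, 8`), blocks `1, …, R + 1` contain a torus with `9` vertices (position
`3 * x + y`), block `R + 2` contains the core of another solid torus (positions `0, 1, 2`).
The facets of level `β` (between the blocks `β` and `β + 1`) are the sets `9 * β + F` with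
`F ∈ typ R β`.
-/

namespace Lens

namespace Stk

/-- positively oriented facets of the bottom solid torus (blocks `0` and `1`) -/
def FBp : List (List ℕ) :=
  [[6, 9, 10, 13], [6, 7, 12, 13], [6, 10, 11, 14], [6, 7, 13, 14], [6, 11, 12, 14], [7, 12,
   13, 16], [7, 8, 15, 16], [7, 13, 14, 17], [7, 8, 16, 17], [7, 14, 15, 17], [8, 10, 15, 16],
   [8, 11, 16, 17], [8, 9, 11, 17], [6, 8, 9, 11]]

/-- negatively oriented facets of the bottom solid torus -/
def FBn : List (List ℕ) :=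
  [[6, 9, 12, 13], [6, 10, 13, 14], [6, 9, 11, 12], [6, 7, 12, 14], [7, 12, 15, 16], [7, 13,
   16, 17], [7, 12, 14, 15], [7, 8, 15, 17], [8, 9, 10, 15], [6, 8, 9, 10], [8, 10, 11, 16],
   [6, 8, 10, 11], [8, 9, 15, 17]]

/-- positively oriented facets of a layer -/
def FMp : List (List ℕ) :=
  [[3, 4, 7, 13], [0, 3, 12, 13], [0, 9, 10, 13], [2, 7, 8, 14], [4, 7, 13, 14], [4, 10, 11,
   14], [0, 2, 8, 12], [2, 8, 12, 14], [8, 11, 12, 14], [0, 8, 9, 12], [1, 6, 7, 16], [3, 6,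
   15, 16], [3, 12, 13, 16], [1, 2, 5, 17], [2, 7, 14, 17], [7, 13, 14, 17], [2, 3, 5, 15], [2,
   14, 15, 17], [0, 1, 4, 10], [6, 10, 15, 16], [4, 5, 8, 11], [1, 4, 10, 11], [1, 5, 11, 17],
   [1, 11, 16, 17], [5, 6, 8, 9], [5, 9, 11, 17], [5, 6, 9, 15]]

/-- negatively oriented facets of a layer -/
def FMn : List (List ℕ) :=
  [[0, 3, 4, 13], [0, 9, 12, 13], [0, 4, 10, 13], [4, 7, 8, 14], [4, 10, 13, 14], [4, 8, 11,
   14], [0, 2, 3, 12], [8, 9, 11, 12], [3, 6, 7, 16], [3, 12, 15, 16], [3, 7, 13, 16], [1, 2,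
   7, 17], [1, 7, 16, 17], [7, 13, 16, 17], [3, 5, 6, 15], [2, 5, 15, 17], [2, 3, 12, 15], [2,
   12, 14, 15], [0, 1, 6, 10], [0, 6, 9, 10], [6, 9, 10, 15], [1, 6, 10, 16], [1, 4, 5, 11],
   [1, 10, 11, 16], [0, 6, 8, 9], [5, 8, 9, 11], [5, 9, 15, 17]]

/-- positively oriented facets of the top solid torus -/
def FTp : List (List ℕ) :=
  [[0, 1, 4, 9], [1, 2, 5, 9], [2, 3, 5, 9], [3, 5, 9, 10], [3, 4, 7, 10], [4, 5, 8, 10], [5,
   6, 8, 10], [6, 8, 10, 11], [1, 6, 7, 11], [0, 1, 9, 11], [2, 7, 8, 11], [1, 2, 9, 11], [0,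
   2, 8, 11]]

/-- negatively oriented facets of the top solid torus -/
def FTn : List (List ℕ) :=
  [[0, 3, 4, 9], [3, 4, 9, 10], [1, 4, 5, 9], [4, 5, 9, 10], [0, 2, 3, 9], [3, 6, 7, 10], [6,
   7, 10, 11], [4, 7, 8, 10], [7, 8, 10, 11], [3, 5, 6, 10], [0, 1, 6, 11], [1, 2, 7, 11], [0,
   6, 8, 11], [0, 2, 9, 11]]

/-- positively oriented facets of level `β` -/
def typp (R β : ℕ) : List (List ℕ) :=
  if β = 0 then FBp else if β ≤ R then FMp else if β = R + 1 then FTp else []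

/-- negatively oriented facets of level `β` -/
def typn (R β : ℕ) : List (List ℕ) :=
  if β = 0 then FBn else if β ≤ R then FMn else if β = R + 1 then FTn else []

/-- facets of level `β` -/
def typ (R β : ℕ) : List (List ℕ) := typp R β ++ typn R β

/-- `A` is contained in the facet `9 * β + F` -/
def Sub (A : Finset ℕ) (β : ℕ) (F : List ℕ) : Prop := ∀ a ∈ A, ∃ b ∈ F, a = 9 * β + b

/-- `A` is a simplex of `Stk R` -/
def IsS (R : ℕ) (A : Finset ℕ) : Prop := A.Nonempty ∧ ∃ β, ∃ F ∈ typ R β, Sub A β F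

/-! ### the winding numbers -/

/-- floor winding: `- ⌊z / 3⌋` -/
def fl (z : ℤ) : ℤ := - (z / 3)

/-- winding along a cycle of length 3 for an edge with difference `z` in `{-2, …, 2}` -/
def wr (z : ℤ) : ℤ := if z = -2 then 1 else if z = 2 then -1 else 0

/-- the first winding number of edges of `FM` (blocks `0, 1`), `u < v` -/
def gA (u v : ℕ) : ℤ :=
  if v < 9 then wr ((v / 3 : ℕ) - (u / 3 : ℕ))
  else if u < 9 then fl (((v - 9) / 3 : ℕ) + ((v - 9) % 3 : ℕ) - (u / 3 : ℕ))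
  else wr (((v - 9) / 3 : ℕ) - ((u - 9) / 3 : ℕ)) + wr (((v - 9) % 3 : ℕ) - ((u - 9) % 3 : ℕ))

/-- the second winding number of edges of `FM` (blocks `0, 1`), `u < v` -/
def gB (u v : ℕ) : ℤ :=
  if v < 9 then wr ((v % 3 : ℕ) - (u % 3 : ℕ))
  else if u < 9 then fl (((v - 9) % 3 : ℕ) - (u % 3 : ℕ))
  else wr (((v - 9) % 3 : ℕ) - ((u - 9) % 3 : ℕ))

/-- the winding number of edges of `FB`, `u < v` -/
def gBot (u v : ℕ) : ℤ :=
  if v < 9 then wr ((v : ℤ) - u)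
  else if u < 9 then fl (((v - 9) / 3 : ℕ) - ((u - 6 : ℕ) : ℤ))
  else wr (((v - 9) / 3 : ℕ) - ((u - 9) / 3 : ℕ))

/-- the winding number of edges of `FT`, `u < v` -/
def gTop (u v : ℕ) : ℤ :=
  if v < 9 then wr ((v / 3 : ℕ) - (u / 3 : ℕ))
  else if u < 9 then - fl ((u / 3 : ℕ) - ((v - 9 : ℕ) : ℤ))
  else wr ((v : ℤ) - u)

/-! ### elimination orders: in each triangle two edges are known before -/

/-- parents (level `0`): `(parent, vertex)` -/
def parB : List (ℕ × ℕ) :=   [(6, 7), (7, 8), (6, 9), (6, 10), (6, 11), (7, 12), (7, 13), (7, 14), (8, 15), (8, 16), (8,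
   17)]

/-- parents (layers) -/
def parM : List (ℕ × ℕ) :=   [(0, 9), (4, 10), (8, 11), (3, 12), (7, 13), (8, 14), (6, 15), (7, 16), (7, 17)]

/-- parents (top) -/
def parT : List (ℕ × ℕ) :=   [(0, 9), (3, 10), (6, 11)]

/-- level `0`: known edges: `parB` and `(6, 8)` -/
def elB : List (ℕ × ℕ × ℕ) :=
  [(6, 7, 12), (6, 7, 13), (6, 7, 14), (6, 8, 9), (6, 8, 10), (6, 8, 11), (6, 9, 10), (6, 9,
   11), (6, 9, 12), (6, 9, 13), (6, 10, 11), (6, 10, 13), (6, 10, 14), (6, 11, 12), (6, 11,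
   14), (6, 12, 13), (6, 12, 14), (6, 13, 14), (7, 8, 15), (7, 8, 16), (7, 8, 17), (7, 12, 15),
   (7, 12, 16), (7, 13, 16), (7, 13, 17), (7, 14, 15), (7, 14, 17), (7, 15, 16), (7, 15, 17),
   (7, 16, 17), (8, 9, 15), (8, 9, 17), (8, 10, 15), (8, 10, 16), (8, 11, 16), (8, 11, 17)]

/-- layers: known edges: those of the lower torus, and `parM` -/
def elM : List (ℕ × ℕ × ℕ) :=
  [(0, 3, 12), (0, 4, 10), (0, 6, 9), (0, 6, 10), (0, 8, 9), (0, 8, 12), (0, 9, 10), (0, 9,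
   12), (1, 4, 10), (1, 7, 16), (1, 7, 17), (1, 10, 16), (1, 16, 17), (2, 3, 12), (2, 7, 17),
   (2, 8, 14), (2, 12, 14), (2, 14, 17), (3, 6, 15), (3, 7, 13), (3, 7, 16), (3, 12, 13), (3,
   12, 15), (3, 12, 16), (3, 13, 16), (3, 15, 16), (4, 7, 13), (4, 8, 11), (4, 8, 14), (4, 10,
   11), (4, 10, 13), (4, 10, 14), (4, 11, 14), (4, 13, 14), (5, 6, 9), (5, 6, 15), (5, 8, 11),
   (5, 9, 11), (5, 9, 15), (6, 7, 16), (6, 10, 15), (7, 8, 14), (7, 13, 17), (8, 11, 12), (9,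
   10, 13), (10, 11, 16), (11, 16, 17), (12, 14, 15), (14, 15, 17), (0, 3, 13), (1, 4, 11), (1,
   5, 17), (2, 3, 15), (5, 9, 17)]

/-- top: known edges: those of the lower torus, and `parT` -/
def elT : List (ℕ × ℕ × ℕ) :=
  [(0, 1, 9), (0, 2, 9), (0, 3, 9), (0, 4, 9), (0, 6, 11), (0, 8, 11), (0, 9, 11), (1, 5, 9),
   (1, 6, 11), (1, 7, 11), (2, 7, 11), (3, 4, 10), (3, 5, 10), (3, 6, 10), (3, 7, 10), (3, 9,
   10), (4, 8, 10), (6, 10, 11)]

end Stk

end Lens
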