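import Pool.Agent.Lens.Stk

/-!
# The stacked lens spaces: orientation

For every `R` the signs of the lists `typp`, `typn` orient the complex `Stk R`: the boundary of the
chain of level `β` is `t (β + 1) - t β`, where `t b` is the fundamental chain of the torus in
block `b`.
-/

set_option autoImplicit false

open Finset

namespace Lens

namespace Stk

/-- how often `A` occurs among the sets `9 * β + F`, `F ∈ L` -/
def ind (β : ℕ) (L : List (List ℕ)) (A : Finset ℕ) : ℤ := ((L.map (fac β)).count A : ℤ)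

theorem ind_nil (β : ℕ) (A : Finset ℕ) : ind β [] A = 0 := by simp [ind]

theorem ind_cons (β : ℕ) (F : List ℕ) (L : List (List ℕ)) (A : Finset ℕ) :
    ind β (F :: L) A = (if fac β F = A then 1 else 0) + ind β L A := by
  rw [ind, ind, List.map_cons, List.count_cons]
  by_cases h : fac β F = A
  · rw [if_pos h, if_pos (by simpa using h)]
    push_cast
    ring
  · rw [if_neg h, if_neg (by simpa using h)]
    push_cast
    ring

theorem ind_append (β : ℕ) (L L' : List (List ℕ)) (A : Finset ℕ) :
    ind β (L ++ L') A = ind β L A + ind β L' A := by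
  rw [ind, ind, ind, List.map_append, List.count_append]
  push_cast
  rfl

theorem ind_perm {β : ℕ} {L L' : List (List ℕ)} (h : L.Perm L') (A : Finset ℕ) :
    ind β L A = ind β L' A := by
  rw [ind, ind, (h.map (fac β)).count_eq]

theorem ind_ne {β : ℕ} {L : List (List ℕ)} {A : Finset ℕ} (h : ind β L A ≠ 0) :
    ∃ F ∈ L, fac β F = A := by
  by_contra h1
  refine h ?_
  rw [ind, List.count_eq_zero_of_not_mem]
  · rfl
  · intro h2
    exact h1 (List.mem_map.1 h2)

/-- shift by 9 -/
def up (L : List (List ℕ)) : List (List ℕ) := L.map fun F => F.map (9 + ·)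

theorem ind_up (β : ℕ) (L : List (List ℕ)) (A : Finset ℕ) : ind β (up L) A = ind (β + 1) L A := by
  have h : ∀ F : List ℕ, fac β (F.map (9 + ·)) = fac (β + 1) F := by
    intro F
    rw [fac, fac, List.map_map]
    congr 2
    funext x
    simp only [Function.comp]
    ring
  rw [ind, ind, up, List.map_map]
  congr 2
  refine List.map_congr_left fun F _ => ?_
  exact h F

/-! ### boundaries -/

/-- sign of `a` in `A` -/
def sgnN (A : Finset ℕ) (a : ℕ) : ℤ := (-1) ^ (A.filter (· < a)).card

/-- incidence number -/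
def incN (A B : Finset ℕ) : ℤ := ∑ a ∈ A, if A.erase a = B then sgnN A a else 0

/-- positive faces of a facet -/
def fp : List ℕ → List (List ℕ)
  | [a, b, c, d] => [[b, c, d], [a, b, d]]
  | _ => []

/-- negative faces of a facet -/
def fn : List ℕ → List (List ℕ)
  | [a, b, c, d] => [[a, c, d], [a, b, c]]
  | _ => []

/-- sorted lists of length 4 -/
def Sorted4 (F : List ℕ) : Prop := ∃ a b c d : ℕ, F = [a, b, c, d] ∧ a < b ∧ b < c ∧ c < d

theorem incN_fac {β : ℕ} {F : List ℕ} (hF : Sorted4 F) (r : Finset ℕ) :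
    incN (fac β F) r = ind β (fp F) r - ind β (fn F) r := by
  obtain ⟨a, b, c, d, rfl, hab, hbc, hcd⟩ := hF
  have e : fac β [a, b, c, d] = {9 * β + a, 9 * β + b, 9 * β + c, 9 * β + d} := by
    ext x
    simp [mem_fac, eq_comm]
  have e1 : fac β [b, c, d] = {9 * β + b, 9 * β + c, 9 * β + d} := by
    ext x
    simp [mem_fac, eq_comm]
  have e2 : fac β [a, c, d] = {9 * β + a, 9 * β + c, 9 * β + d} := by
    ext x
    simp [mem_fac, eq_comm]
  have e3 : fac β [a, b, d] = {9 * β + a, 9 * β + b, 9 * β + d} := by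
    ext x
    simp [mem_fac, eq_comm]
  have e4 : fac β [a, b, c] = {9 * β + a, 9 * β + b, 9 * β + c} := by
    ext x
    simp [mem_fac, eq_comm]
  simp only [fp, fn, ind_cons, ind_nil, add_zero]
  rw [e, e1, e2, e3, e4]
  generalize 9 * β = N
  have n1 : N + a ∉ ({N + b, N + c, N + d} : Finset ℕ) := by
    simp only [mem_insert, mem_singleton]; omega
  have n2 : N + b ∉ ({N + c, N + d} : Finset ℕ) := by
    simp only [mem_insert, mem_singleton]; omega
  have n3 : N + c ∉ ({N + d} : Finset ℕ) := by
    simp only [mem_singleton]; omega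
  rw [incN, sum_insert n1, sum_insert n2, sum_insert n3, sum_singleton]
  have s1 : sgnN {N + a, N + b, N + c, N + d} (N + a) = 1 := by
    have h : ({N + a, N + b, N + c, N + d} : Finset ℕ).filter (· < N + a) = ∅ := by
      ext x
      simp only [mem_filter, mem_insert, mem_singleton, notMem_empty, iff_false]
      omega
    rw [sgnN, h]; rfl
  have s2 : sgnN {N + a, N + b, N + c, N + d} (N + b) = -1 := by
    have h : ({N + a, N + b, N + c, N + d} : Finset ℕ).filter (· < N + b) = {N + a} := by
      ext x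
      simp only [mem_filter, mem_insert, mem_singleton]
      omega
    rw [sgnN, h]; rfl
  have s3 : sgnN {N + a, N + b, N + c, N + d} (N + c) = 1 := by
    have h : ({N + a, N + b, N + c, N + d} : Finset ℕ).filter (· < N + c) = {N + a, N + b} := by
      ext x
      simp only [mem_filter, mem_insert, mem_singleton]
      omega
    rw [sgnN, h, card_pair (by omega)]; rfl
  have s4 : sgnN {N + a, N + b, N + c, N + d} (N + d) = -1 := by
    have h : ({N + a, N + b, N + c, N + d} : Finset ℕ).filter (· < N + d) =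
        {N + a, N + b, N + c} := by
      ext x
      simp only [mem_filter, mem_insert, mem_singleton]
      omega
    rw [sgnN, h, card_insert_of_notMem (by simp only [mem_insert, mem_singleton]; omega),
      card_pair (by omega)]
    rfl
  have r1 : ({N + a, N + b, N + c, N + d} : Finset ℕ).erase (N + a) = {N + b, N + c, N + d} := by
    ext x
    simp only [mem_erase, mem_insert, mem_singleton]
    omega
  have r2 : ({N + a, N + b, N + c, N + d} : Finset ℕ).erase (N + b) = {N + a, N + c, N + d} := by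
    ext x
    simp only [mem_erase, mem_insert, mem_singleton]
    omega
  have r3 : ({N + a, N + b, N + c, N + d} : Finset ℕ).erase (N + c) = {N + a, N + b, N + d} := by
    ext x
    simp only [mem_erase, mem_insert, mem_singleton]
    omega
  have r4 : ({N + a, N + b, N + c, N + d} : Finset ℕ).erase (N + d) = {N + a, N + b, N + c} := by
    ext x
    simp only [mem_erase, mem_insert, mem_singleton]
    omega
  rw [r1, r2, r3, r4, s1, s2, s3, s4]
  split_ifs <;> ring

/-- positive faces of positive facets and negative faces of negative facets -/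
def fpL (L : List (List ℕ)) : List (List ℕ) := L.flatMap fp

def fnL (L : List (List ℕ)) : List (List ℕ) := L.flatMap fn

theorem sum_incN {β : ℕ} {L : List (List ℕ)} (hL : ∀ F ∈ L, Sorted4 F) (r : Finset ℕ) :
    (L.map fun F => incN (fac β F) r).sum = ind β (fpL L) r - ind β (fnL L) r := by
  induction L with
  | nil => simp [fpL, fnL, ind_nil]
  | cons F L ih =>
    rw [List.map_cons, List.sum_cons, ih fun G hG => hL G (List.mem_cons_of_mem _ hG),
      incN_fac (hL F List.mem_cons_self)]
    simp only [fpL, fnL, List.flatMap_cons, ind_append]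
    ring

/-! ### the lists -/

/-- positive triangles of the torus -/
def Tp : List (List ℕ) :=
  [[0, 1, 4], [0, 2, 8], [1, 2, 5], [1, 6, 7], [2, 3, 5], [2, 7, 8], [3, 4, 7], [4, 5, 8],
   [5, 6, 8]]

/-- negative triangles of the torus -/
def Tn : List (List ℕ) :=
  [[0, 1, 6], [0, 2, 3], [0, 3, 4], [0, 6, 8], [1, 2, 7], [1, 4, 5], [3, 5, 6], [3, 6, 7],
   [4, 7, 8]]

theorem permB : (fpL FBp ++ fnL FBn ++ up Tn).Perm (fnL FBp ++ fpL FBn ++ up Tp) := by
  decide +kernel

theorem permM : (fpL FMp ++ fnL FMn ++ up Tn ++ Tp).Perm (fnL FMp ++ fpL FMn ++ up Tp ++ Tn) := by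
  decide +kernel

theorem permT : (fpL FTp ++ fnL FTn ++ Tp).Perm (fnL FTp ++ fpL FTn ++ Tn) := by
  decide +kernel

/-- the boundary of the chain with the lists `L` (positive), `L'` (negative) -/
def bdL (β : ℕ) (L L' : List (List ℕ)) (r : Finset ℕ) : ℤ :=
  (L.map fun F => incN (fac β F) r).sum - (L'.map fun F => incN (fac β F) r).sum

/-- the torus in block `b` -/
def tor (b : ℕ) (r : Finset ℕ) : ℤ := ind b Tp r - ind b Tn r

theorem bd_FB (β : ℕ) (r : Finset ℕ) (h : ∀ F ∈ FBp ++ FBn, Sorted4 F) :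
    bdL β FBp FBn r = tor (β + 1) r := by
  have h1 := ind_perm (β := β) permB r
  simp only [ind_append, ind_up] at h1
  rw [bdL, sum_incN fun F hF => h F (List.mem_append_left _ hF),
    sum_incN fun F hF => h F (List.mem_append_right _ hF), tor]
  linarith

theorem bd_FM (β : ℕ) (r : Finset ℕ) (h : ∀ F ∈ FMp ++ FMn, Sorted4 F) :
    bdL β FMp FMn r = tor (β + 1) r - tor β r := by
  have h1 := ind_perm (β := β) permM r
  simp only [ind_append, ind_up] at h1
  rw [bdL, sum_incN fun F hF => h F (List.mem_append_left _ hF),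
    sum_incN fun F hF => h F (List.mem_append_right _ hF), tor, tor]
  linarith

theorem bd_FT (β : ℕ) (r : Finset ℕ) (h : ∀ F ∈ FTp ++ FTn, Sorted4 F) :
    bdL β FTp FTn r = - tor β r := by
  have h1 := ind_perm (β := β) permT r
  simp only [ind_append] at h1
  rw [bdL, sum_incN fun F hF => h F (List.mem_append_left _ hF),
    sum_incN fun F hF => h F (List.mem_append_right _ hF), tor]
  linarith

/-- sorted, of length 4, below 18, meeting both blocks (decidable version) -/
def good : List ℕ → Bool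
  | [a, b, c, d] => a < b && b < c && c < d && a < 9 && 9 ≤ d && d < 18
  | _ => false

theorem good_all : ∀ F ∈ FBp ++ FBn ++ (FMp ++ FMn) ++ (FTp ++ FTn), good F = true := by
  decide +kernel

theorem good_cases {F : List ℕ} (h : good F = true) : ∃ a b c d : ℕ, F = [a, b, c, d] ∧ a < b ∧
    b < c ∧ c < d ∧ a < 9 ∧ 9 ≤ d ∧ d < 18 := by
  match F, h with
  | [], h => exact absurd h (by simp [good])
  | [_], h => exact absurd h (by simp [good])
  | [_, _], h => exact absurd h (by simp [good])
  | [_, _, _], h => exact absurd h (by simp [good])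
  | [a, b, c, d], h =>
    simp only [good, Bool.and_eq_true, decide_eq_true_eq] at h
    exact ⟨a, b, c, d, rfl, h.1.1.1.1.1, h.1.1.1.1.2, h.1.1.1.2, h.1.1.2, h.1.2, h.2⟩
  | (_ :: _ :: _ :: _ :: _ :: _), h => exact absurd h (by simp [good])

theorem typ_good {R β : ℕ} {F : List ℕ} (h : F ∈ typ R β) : good F = true := by
  refine good_all F ?_
  rw [typ, typp, typn] at h
  split_ifs at h
  · exact List.mem_append_left _ (List.mem_append_left _ h)
  · exact List.mem_append_left _ (List.mem_append_right _ h)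
  · exact List.mem_append_right _ h
  · exact absurd h List.not_mem_nil

theorem typ_sorted {R β : ℕ} {F : List ℕ} (h : F ∈ typ R β) : Sorted4 F := by
  obtain ⟨a, b, c, d, h1, h2, h3, h4, _⟩ := good_cases (typ_good h)
  exact ⟨a, b, c, d, h1, h2, h3, h4⟩

theorem card_fac {R β : ℕ} {F : List ℕ} (h : F ∈ typ R β) : (fac β F).card = 4 := by
  obtain ⟨a, b, c, d, rfl, h1, h2, h3, _⟩ := good_cases (typ_good h)
  rw [fac, List.toFinset_card_of_nodup]
  · rfl
  · simp only [List.map_cons, List.map_nil, List.nodup_cons, List.mem_cons, List.not_mem_nil,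
      or_false, not_false_iff, List.nodup_nil, and_true]
    omega

theorem fac_lt {R β : ℕ} {F : List ℕ} (h : F ∈ typ R β) {x : ℕ} (hx : x ∈ fac β F) :
    x < 9 * (R + 3) := by
  have h0 := typ_le h
  obtain ⟨a, b, c, d, rfl, h1, h2, h3, h4, h5, h6⟩ := good_cases (typ_good h)
  obtain ⟨y, hy, rfl⟩ := mem_fac.1 hx
  simp only [List.mem_cons, List.not_mem_nil, or_false] at hy
  omega

/-- the boundary of the level `β` -/
theorem bd_level (R β : ℕ) (h : β ≤ R + 1) (r : Finset ℕ) :
    bdL β (typp R β) (typn R β) r = (if β ≤ R then tor (β + 1) r else 0) -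
      (if β = 0 then 0 else tor β r) := by
  have hs := fun F (hF : F ∈ typ R β) => typ_sorted hF
  rw [typ, typp, typn] at hs
  rw [typp, typn]
  by_cases h0 : β = 0
  · rw [if_pos h0, if_pos h0] at hs
    rw [if_pos h0, if_pos h0, if_pos h0, if_pos (by omega), sub_zero]
    exact bd_FB β r hs
  · rw [if_neg h0, if_neg h0] at hs
    rw [if_neg h0, if_neg h0, if_neg h0]
    by_cases h1 : β ≤ R
    · rw [if_pos h1, if_pos h1] at hs
      rw [if_pos h1, if_pos h1, if_pos h1]
      exact bd_FM β r hs
    · have h2 : β = R + 1 := by omega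
      rw [if_neg h1, if_neg h1, if_pos h2, if_pos h2] at hs
      rw [if_neg h1, if_neg h1, if_neg h1, if_pos h2, if_pos h2, zero_sub]
      exact bd_FT β r hs

theorem sum_bd (R : ℕ) (r : Finset ℕ) :
    ∑ β ∈ range (R + 2), bdL β (typp R β) (typn R β) r = 0 := by
  rw [sum_congr rfl fun β hβ => bd_level R β (by have := mem_range.1 hβ; omega) r,
    sum_sub_distrib, sum_range_succ]
  have h1 : ∑ β ∈ range (R + 2), (if β = 0 then 0 else tor β r) =
      ∑ β ∈ range (R + 1), tor (β + 1) r := by
    rw [sum_range_succ']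
    simp
  have h2 : ∑ β ∈ range (R + 1), (if β ≤ R then tor (β + 1) r else 0) =
      ∑ β ∈ range (R + 1), tor (β + 1) r := by
    refine sum_congr rfl fun β hβ => if_pos ?_
    have := mem_range.1 hβ
    omega
  rw [h1, h2, if_neg (by omega)]
  ring

/-! ### the orientation -/

/-- the orientation: `1` on the positive facets, `-1` on the negative facets -/
def epsS (R : ℕ) (A : Finset ℕ) : ℤ :=
  ∑ β ∈ range (R + 2), (ind β (typp R β) A - ind β (typn R β) A)

theorem epsS_ne {R : ℕ} {A : Finset ℕ} (h : epsS R A ≠ 0) : ∃ β, ∃ F ∈ typ R β, fac β F = A := by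
  obtain ⟨β, _, h1⟩ := exists_ne_zero_of_sum_ne_zero h
  by_cases h2 : ind β (typp R β) A = 0
  · rw [h2, zero_sub] at h1
    obtain ⟨F, hF, h3⟩ := ind_ne (neg_ne_zero.1 h1)
    exact ⟨β, F, List.mem_append_right _ hF, h3⟩
  · obtain ⟨F, hF, h3⟩ := ind_ne h2
    exact ⟨β, F, List.mem_append_left _ hF, h3⟩

/-- sum over the vertices outside `r` -/
theorem sum_out {N β : ℕ} {L : List (List ℕ)} (hL : ∀ F ∈ L, fac β F ⊆ range N) (r : Finset ℕ) :
    ∑ a ∈ range N, (if a ∈ r then 0 else ind β L (insert a r) * sgnN (insert a r) a) =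
      (L.map fun F => incN (fac β F) r).sum := by
  induction L with
  | nil => simp [ind_nil]
  | cons F L ih =>
    rw [List.map_cons, List.sum_cons, ← ih fun G hG => hL G (List.mem_cons_of_mem _ hG)]
    have h1 : incN (fac β F) r = ∑ a ∈ range N, (if a ∈ r then 0 else
        (if fac β F = insert a r then 1 else 0) * sgnN (insert a r) a) := by
      rw [incN]
      have h2 : ∀ a ∈ range N, a ∉ fac β F → (if a ∈ r then (0 : ℤ) else
          (if fac β F = insert a r then 1 else 0) * sgnN (insert a r) a) = 0 := by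
        intro a _ ha
        by_cases h3 : a ∈ r
        · rw [if_pos h3]
        · rw [if_neg h3, if_neg, zero_mul]
          intro h4
          exact ha (h4 ▸ mem_insert_self a r)
      rw [← sum_subset (hL F List.mem_cons_self) h2]
      refine sum_congr rfl fun a ha => ?_
      by_cases h3 : a ∈ r
      · rw [if_pos h3, if_neg]
        intro h4
        rw [← h4] at h3
        exact notMem_erase _ _ h3
      · rw [if_neg h3]
        by_cases h4 : fac β F = insert a r
        · rw [if_pos h4, if_pos, one_mul, h4]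
          rw [h4, erase_insert h3]
        · rw [if_neg h4, zero_mul, if_neg]
          intro h5
          exact h4 (by rw [← h5, insert_erase ha])
    rw [h1, ← sum_add_distrib]
    refine sum_congr rfl fun a _ => ?_
    by_cases h3 : a ∈ r
    · rw [if_pos h3, if_pos h3, if_pos h3, add_zero]
    · rw [if_neg h3, if_neg h3, if_neg h3, ind_cons, add_mul]

theorem sum_epsS (R : ℕ) (r : Finset ℕ) :
    ∑ a ∈ range (9 * (R + 3)), (if a ∈ r then 0 else
      epsS R (insert a r) * sgnN (insert a r) a) = 0 := by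
  have h1 : ∀ β, ∀ F ∈ typ R β, fac β F ⊆ range (9 * (R + 3)) :=
    fun β F hF x hx => mem_range.2 (fac_lt hF hx)
  have h2 : ∀ a ∈ range (9 * (R + 3)), (if a ∈ r then 0 else
      epsS R (insert a r) * sgnN (insert a r) a) = ∑ β ∈ range (R + 2),
        ((if a ∈ r then 0 else ind β (typp R β) (insert a r) * sgnN (insert a r) a) -
        (if a ∈ r then 0 else ind β (typn R β) (insert a r) * sgnN (insert a r) a)) := by
    intro a _
    by_cases h3 : a ∈ r
    · simp [h3]
    · simp only [if_neg h3]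
      rw [epsS, sum_mul]
      refine sum_congr rfl fun β _ => ?_
      ring
  rw [sum_congr rfl h2, sum_comm]
  refine Eq.trans ?_ (sum_bd R r)
  refine sum_congr rfl fun β _ => ?_
  rw [sum_sub_distrib, sum_out fun F hF => h1 β F (List.mem_append_left _ hF),
    sum_out fun F hF => h1 β F (List.mem_append_right _ hF), bdL]

/-! ### comparison with `epsF` -/

theorem fac_inj {F F' : List ℕ} (hF : good F = true) (hF' : good F' = true) {β β' : ℕ}
    (h : fac β F = fac β' F') : β = β' ∧ F = F' := by
  obtain ⟨a, b, c, d, rfl, h1, h2, h3, h4, h5, h6⟩ := good_cases hF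
  obtain ⟨a', b', c', d', rfl, h1', h2', h3', h4', h5', h6'⟩ := good_cases hF'
  have key : ∀ x : ℕ, (x = 9 * β + a ∨ x = 9 * β + b ∨ x = 9 * β + c ∨ x = 9 * β + d) ↔
      (x = 9 * β' + a' ∨ x = 9 * β' + b' ∨ x = 9 * β' + c' ∨ x = 9 * β' + d') := by
    intro x
    have h7 : x ∈ fac β [a, b, c, d] ↔ x ∈ fac β' [a', b', c', d'] := by rw [h]
    rw [mem_fac, mem_fac] at h7
    simpa [eq_comm] using h7
  have ka := (key (9 * β + a)).1 (Or.inl rfl)
  have kb := (key (9 * β + b)).1 (Or.inr (Or.inl rfl))
  have kc := (key (9 * β + c)).1 (Or.inr (Or.inr (Or.inl rfl)))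
  have kd := (key (9 * β + d)).1 (Or.inr (Or.inr (Or.inr rfl)))
  have ka' := (key (9 * β' + a')).2 (Or.inl rfl)
  have kb' := (key (9 * β' + b')).2 (Or.inr (Or.inl rfl))
  have kc' := (key (9 * β' + c')).2 (Or.inr (Or.inr (Or.inl rfl)))
  have kd' := (key (9 * β' + d')).2 (Or.inr (Or.inr (Or.inr rfl)))
  have e1 : 9 * β + a = 9 * β' + a' := by
    have e2 : 9 * β' + a' ≤ 9 * β + a := by
      rcases ka with h | h | h | h <;> omega
    have e3 : 9 * β + a ≤ 9 * β' + a' := by
      rcases ka' with h | h | h | h <;> omega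
    omega
  have e2 : β = β' := by omega
  subst e2
  have e3 : a = a' := by omega
  subst e3
  have e4 : d = d' := by
    have e5 : d ≤ d' := by rcases kd with h | h | h | h <;> omega
    have e6 : d' ≤ d := by rcases kd' with h | h | h | h <;> omega
    omega
  subst e4
  have e5 : b = b' := by
    have e6 : b' ≤ b := by rcases kb with h | h | h | h <;> omega
    have e7 : b ≤ b' := by rcases kb' with h | h | h | h <;> omega
    omega
  subst e5
  have e6 : c = c' := by
    rcases kc with h | h | h | h <;> omega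
  subst e6
  exact ⟨rfl, rfl⟩

theorem ind_eq {L : List (List ℕ)} (hL : ∀ F ∈ L, good F = true) (hn : L.Nodup) (β : ℕ)
    {β₀ : ℕ} {F₀ : List ℕ} (h₀ : good F₀ = true) :
    ind β L (fac β₀ F₀) = if β = β₀ ∧ F₀ ∈ L then 1 else 0 := by
  by_cases h : β = β₀ ∧ F₀ ∈ L
  · rw [if_pos h, ind, List.count_eq_one_of_mem, Nat.cast_one]
    · exact hn.map_on fun F hF G hG e => (fac_inj (hL F hF) (hL G hG) e).2
    · exact List.mem_map.2 ⟨F₀, h.2, by rw [h.1]⟩
  · rw [if_neg h]
    by_contra h1
    obtain ⟨F, hF, h2⟩ := ind_ne h1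
    obtain ⟨h3, h4⟩ := fac_inj (hL F hF) h₀ h2
    exact h ⟨h3, h4 ▸ hF⟩

theorem nodup_all : (FBp ++ FBn).Nodup ∧ (FMp ++ FMn).Nodup ∧ (FTp ++ FTn).Nodup := by
  refine ⟨?_, ?_, ?_⟩ <;> decide +kernel

theorem typ_nodup (R β : ℕ) : (typ R β).Nodup := by
  obtain ⟨h1, h2, h3⟩ := nodup_all
  rw [typ, typp, typn]
  split_ifs
  · exact h1
  · exact h2
  · exact h3
  · exact List.nodup_nil

theorem epsS_fac {R β₀ : ℕ} {F₀ : List ℕ} (h : F₀ ∈ typ R β₀) :
    epsS R (fac β₀ F₀) = if F₀ ∈ typp R β₀ then 1 else -1 := by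
  have hg := typ_good h
  have hn : ∀ β, (typp R β).Nodup ∧ (typn R β).Nodup ∧ (typp R β).Disjoint (typn R β) :=
    fun β => List.nodup_append'.1 (typ_nodup R β)
  have e : ∀ β ∈ range (R + 2), ind β (typp R β) (fac β₀ F₀) - ind β (typn R β) (fac β₀ F₀) =
      if β = β₀ then (if F₀ ∈ typp R β₀ then 1 else -1) else 0 := by
    intro β _
    rw [ind_eq (fun F hF => typ_good (mem_typ_of_typp hF)) (hn β).1 β hg,
      ind_eq (fun F hF => typ_good (mem_typ_of_typn hF)) (hn β).2.1 β hg]
    by_cases h1 : β = β₀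
    · subst h1
      rw [if_pos rfl]
      rcases List.mem_append.1 h with h2 | h2
      · have h3 : F₀ ∉ typn R β := fun h3 => (hn β).2.2 h2 h3
        rw [if_pos ⟨rfl, h2⟩, if_neg (fun h4 => h3 h4.2), if_pos h2, sub_zero]
      · have h3 : F₀ ∉ typp R β := fun h3 => (hn β).2.2 h3 h2
        rw [if_neg (fun h4 => h3 h4.2), if_pos ⟨rfl, h2⟩, if_neg h3, zero_sub]
    · rw [if_neg (fun h2 => h1 h2.1), if_neg (fun h2 => h1 h2.1), if_neg h1, sub_zero]
  rw [epsS, sum_congr rfl e, sum_ite_eq' (range (R + 2)) β₀]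
  exact if_pos (mem_range.2 (by have := typ_le h; omega))

theorem epsF_eq (R : ℕ) (A : Finset ℕ) : epsF R A = epsS R A := by
  by_cases h : ∃ β, ∃ F ∈ typ R β, A = fac β F
  · obtain ⟨β₀, F₀, hF, rfl⟩ := h
    rw [epsS_fac hF, epsF]
    by_cases h1 : F₀ ∈ typp R β₀
    · rw [if_pos h1, if_pos ⟨β₀, F₀, h1, rfl⟩]
    · rw [if_neg h1, if_neg, if_pos]
      · rcases List.mem_append.1 hF with h2 | h2
        · exact absurd h2 h1
        · exact ⟨β₀, F₀, h2, rfl⟩
      · rintro ⟨β, F, hF', e⟩
        obtain ⟨rfl, rfl⟩ := fac_inj (typ_good hF) (typ_good (mem_typ_of_typp hF')) e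
        exact h1 hF'
  · rw [epsF, if_neg, if_neg]
    · by_contra h1
      obtain ⟨β, F, hF, h2⟩ := epsS_ne (Ne.symm h1)
      exact h ⟨β, F, hF, h2.symm⟩
    · rintro ⟨β, F, hF, e⟩
      exact h ⟨β, F, mem_typ_of_typn hF, e⟩
    · rintro ⟨β, F, hF, e⟩
      exact h ⟨β, F, mem_typ_of_typp hF, e⟩

theorem fac_isS {R β : ℕ} {F : List ℕ} (h : F ∈ typ R β) : IsS R (fac β F) := by
  refine ⟨?_, β, F, h, ?_⟩
  · rw [← card_pos, card_fac h]
    norm_num
  · intro a ha
    obtain ⟨b, hb, rfl⟩ := mem_fac.1 ha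
    exact ⟨b, hb, rfl⟩

theorem sgn_nat {n : ℕ} (A : Finset (Fin n)) (a : Fin n) : SC.sgn A a = sgnN (nat A) a.1 := by
  rw [SC.sgn, sgnN, nat, filter_map, card_map]
  rfl

end Stk

open Stk

/-- the orientation condition, for every `R` and every simplex `r` -/
theorem stk_o2_int (R : ℕ) (r : (stk R).N) :
    ∑ σ, stkEps R σ * (stk R).inc σ r = 0 := by
  have h1 := (stk R).sum_inc_left (k := ℤ) (stkEps R) ((stk R).verts r)
  simp only [Int.cast_id] at h1
  have h2 : ∑ σ, stkEps R σ * (stk R).inc σ r =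
      ∑ a ∈ univ.filter (· ∉ (stk R).verts r), (stk R).ext (stkEps R) (insert a ((stk R).verts r)) *
        SC.sgn (insert a ((stk R).verts r)) a := h1
  rw [h2, sum_filter]
  refine Eq.trans ?_ (sum_epsS R (nat ((stk R).verts r)))
  rw [← Fin.sum_univ_eq_sum_range (fun a => if a ∈ nat ((stk R).verts r) then 0 else
      epsS R (insert a (nat ((stk R).verts r))) * sgnN (insert a (nat ((stk R).verts r))) a)]
  refine sum_congr rfl fun a _ => ?_
  have h3 : a.1 ∈ nat ((stk R).verts r) ↔ a ∈ (stk R).verts r := by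
    rw [nat, mem_map]
    constructor
    · rintro ⟨b, hb, h⟩
      have : b = a := Fin.ext h
      exact this ▸ hb
    · exact fun h => ⟨a, h, rfl⟩
  by_cases h4 : a ∈ (stk R).verts r
  · rw [if_neg (not_not.2 h4), if_pos (h3.2 h4)]
  · rw [if_pos h4, if_neg (fun h => h4 (h3.1 h))]
    have h5 : nat (insert a ((stk R).verts r)) = insert a.1 (nat ((stk R).verts r)) := by
      rw [nat, map_insert]
      rfl
    have h6 : (stk R).ext (stkEps R) (insert a ((stk R).verts r)) =
        epsS R (nat (insert a ((stk R).verts r))) := by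
      by_cases h7 : ∃ σ, (stk R).verts σ = insert a ((stk R).verts r)
      · obtain ⟨σ, h8⟩ := h7
        rw [(stk R).ext_of_eq _ h8, stkEps, h8, epsF_eq]
      · rw [(stk R).ext_eq_zero _ fun σ h8 => absurd ⟨σ, h8⟩ h7]
        by_contra h8
        obtain ⟨β, F, hF, h9⟩ := epsS_ne (Ne.symm h8)
        refine h7 (stk_exists ?_)
        rw [← h9]
        exact fac_isS hF
    rw [h6, h5, sgn_nat, h5]

/-- the orientation condition, for every `R` -/
theorem stk_o2_all (R : ℕ) {k : Type*} [Field k] (r : (stk R).N) :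
    ∑ σ, ((stkEps R σ : ℤ) : k) * ((stk R).toCells.inc σ r : k) = 0 := by
  have h1 := congrArg (Int.cast : ℤ → k) (stk_o2_int R r)
  push_cast at h1
  exact h1

end Lens
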