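import Pool.Agent.Lens.StkUpper
import Pool.Agent.Lens.StkO2

/-!
# The facts about the stacked lens spaces, with `conn` and `h1` as arguments
-/

set_option autoImplicit false

open Finset

namespace Lens

/-- All the facts about `Stk R`, with the fields `conn` and `h1` as arguments. -/
noncomputable def stkFacts' {R : ℕ} (hR : 2 ≤ R) (k : Type*) [Field k]
    (conn : ∀ φ : (stk R).toCells.N → k,
      (∀ i j, (stk R).toCells.inc i j ≠ 0 → φ i = φ j) → ∀ i j, φ i = φ j)
    (h1 : ∀ w : (stk R).toCells.N → (stk R).toCells.N → k,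
      (∀ i l l' j, (stk R).toCells.inc i l ≠ 0 → (stk R).toCells.inc l j ≠ 0 →
        (stk R).toCells.inc i l' ≠ 0 → (stk R).toCells.inc l' j ≠ 0 →
          w i l + w l j = w i l' + w l' j) →
      ∃ h : (stk R).toCells.N → k, ∀ i j, (stk R).toCells.inc i j ≠ 0 → w i j = h i - h j) :
    (stk R).toCells.Facts k where
  v := (stk R).vtx
  t := stkT hR
  ε := fun σ => ((stkEps R σ : ℤ) : k)
  dim_le := stk_dim_le
  v_le := (stk R).v_le
  t_le := stkT_le hR
  lower := (stk R).lower
  upper := stkT_upper hR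
  dia := (stk R).dia
  conn := conn
  h1 := h1
  ε_ne := fun σ h => stkEps_ne σ h
  o1 := (stk R).o1
  o2 := fun r _ => stk_o2_all R r

theorem stkT_self {R : ℕ} (hR : 2 ≤ R) (τ : (stk R).toCells.N) (h : (stk R).toCells.dim τ = 3) :
    stkT hR τ = τ :=
  ((stk R).toCells.le_eq _ _ (stkT_le hR τ).1 (h.trans (stkT_le hR τ).2.symm)).symm

end Lens
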