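import Pool.Agent.Lens.Stk
import Pool.Agent.Lens.H1

/-!
# The stacked lens spaces: cocycles are coboundaries

`H¹(Stk R; k) = 0` if `R` is invertible in `k`.
-/

set_option autoImplicit false

namespace Lens

namespace Stk

namespace H1

/-! ### elimination and potentials -/

/-- if two edges of the triangle are known, the third one becomes known -/
def elimStep (K : List (ℕ × ℕ)) (t : ℕ × ℕ × ℕ) : List (ℕ × ℕ) :=
  if (t.1, t.2.1) ∈ K then
    if (t.2.1, t.2.2) ∈ K then (t.1, t.2.2) :: K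
    else if (t.1, t.2.2) ∈ K then (t.2.1, t.2.2) :: K else K
  else if (t.2.1, t.2.2) ∈ K ∧ (t.1, t.2.2) ∈ K then (t.1, t.2.1) :: K else K

theorem elim_foldl {k : Type*} [AddCommGroup k] (e : ℕ → ℕ → k) (T : List (ℕ × ℕ × ℕ))
    (hT : ∀ t ∈ T, e t.1 t.2.1 + e t.2.1 t.2.2 = e t.1 t.2.2) (K : List (ℕ × ℕ))
    (hK : ∀ p ∈ K, e p.1 p.2 = 0) : ∀ p ∈ T.foldl elimStep K, e p.1 p.2 = 0 := by
  induction T generalizing K with
  | nil => exact hK
  | cons t T ih =>
    refine ih (fun s hs => hT s (List.mem_cons_of_mem _ hs)) (elimStep K t) ?_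
    have ht := hT t List.mem_cons_self
    intro p hp
    unfold elimStep at hp
    split_ifs at hp with h1 h2 h3 h4
    · rcases List.mem_cons.1 hp with rfl | hp
      · have e1 := hK _ h1
        have e2 := hK _ h2
        simp only at e1 e2 ⊢
        rw [← ht, e1, e2, add_zero]
      · exact hK p hp
    · rcases List.mem_cons.1 hp with rfl | hp
      · have e1 := hK _ h1
        have e2 := hK _ h3
        simp only at e1 e2 ⊢
        rw [e1, e2, zero_add] at ht
        exact ht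
      · exact hK p hp
    · exact hK p hp
    · rcases List.mem_cons.1 hp with rfl | hp
      · have e1 := hK _ h4.1
        have e2 := hK _ h4.2
        simp only at e1 e2 ⊢
        rw [e1, e2, add_zero] at ht
        exact ht
      · exact hK p hp
    · exact hK p hp

/-- a potential with prescribed differences along a list of parents -/
theorem pot {k : Type*} [AddCommGroup k] (par : List (ℕ × ℕ))
    (hpar : par.Pairwise fun q r => r.2 ≠ q.1 ∧ r.2 ≠ q.2) (hne : ∀ q ∈ par, q.1 ≠ q.2)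
    (c : ℕ → ℕ → k) (h₀ : ℕ → k) :
    ∃ h : ℕ → k, (∀ q ∈ par, h q.2 = h q.1 + c q.1 q.2) ∧
      ∀ x, (∀ q ∈ par, q.2 ≠ x) → h x = h₀ x := by
  induction par generalizing h₀ with
  | nil => exact ⟨h₀, fun q hq => absurd hq List.not_mem_nil, fun _ _ => rfl⟩
  | cons q par ih =>
    obtain ⟨h1, h2⟩ := List.pairwise_cons.1 hpar
    obtain ⟨h, h3, h4⟩ := ih h2 (fun r hr => hne r (List.mem_cons_of_mem _ hr))
      (Function.update h₀ q.2 (h₀ q.1 + c q.1 q.2))
    refine ⟨h, fun r hr => ?_, fun x hx => ?_⟩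
    · rcases List.mem_cons.1 hr with rfl | hr
      · rw [h4 r.2 (fun s hs => (h1 s hs).2), h4 r.1 (fun s hs => (h1 s hs).1),
          Function.update_self, Function.update_of_ne (hne r List.mem_cons_self)]
      · exact h3 r hr
    · rw [h4 x (fun s hs => hx s (List.mem_cons_of_mem _ hs)),
        Function.update_of_ne (hx q List.mem_cons_self).symm]

/-! ### the certificates -/

/-- the facets of the bottom -/
def FB : List (List ℕ) := FBp ++ FBn
/-- the facets of a layer -/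
def FM : List (List ℕ) := FMp ++ FMn
/-- the facets of the top -/
def FT : List (List ℕ) := FTp ++ FTn

/-- `(u, v)` is an edge -/
def Edge (L : List (List ℕ)) (p : ℕ × ℕ) : Prop := p.1 < p.2 ∧ ∃ F ∈ L, p.1 ∈ F ∧ p.2 ∈ F

/-- `(u, v, w)` is a triangle -/
def Tri (L : List (List ℕ)) (t : ℕ × ℕ × ℕ) : Prop :=
  t.1 < t.2.1 ∧ t.2.1 < t.2.2 ∧ ∃ F ∈ L, t.1 ∈ F ∧ t.2.1 ∈ F ∧ t.2.2 ∈ F

instance (L : List (List ℕ)) : DecidablePred (Edge L) := fun p => by unfold Edge; infer_instance
instance (L : List (List ℕ)) : DecidablePred (Tri L) := fun p => by unfold Tri; infer_instance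

/-- the edges of the lower torus of a layer -/
def torE : List (ℕ × ℕ) :=
  [(0, 1), (0, 2), (0, 3), (0, 4), (0, 6), (0, 8), (1, 2), (1, 4), (1, 5), (1, 6), (1, 7), (2, 3),
   (2, 5), (2, 7), (2, 8), (3, 4), (3, 5), (3, 6), (3, 7), (4, 5), (4, 7), (4, 8), (5, 6), (5, 8),
   (6, 7), (6, 8), (7, 8)]

theorem elB_tri : ∀ t ∈ elB, Tri FB t := by decide +kernel
theorem elM_tri : ∀ t ∈ elM, Tri FM t := by decide +kernel
theorem elT_tri : ∀ t ∈ elT, Tri FT t := by decide +kernel

theorem elB_all : ∀ F ∈ FB, ∀ u ∈ F, ∀ v ∈ F, u < v →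
    (u, v) ∈ elB.foldl elimStep ([(6, 8)] ++ parB) := by decide +kernel
theorem elM_all : ∀ F ∈ FM, ∀ u ∈ F, ∀ v ∈ F, u < v →
    (u, v) ∈ elM.foldl elimStep (torE ++ parM) := by decide +kernel
theorem elT_all : ∀ F ∈ FT, ∀ u ∈ F, ∀ v ∈ F, u < v →
    (u, v) ∈ elT.foldl elimStep (torE ++ parT) := by decide +kernel

theorem gBot_cocycle : ∀ t ∈ elB, gBot t.1 t.2.1 + gBot t.2.1 t.2.2 = gBot t.1 t.2.2 := by
  decide +kernel
theorem gA_cocycle : ∀ t ∈ elM, gA t.1 t.2.1 + gA t.2.1 t.2.2 = gA t.1 t.2.2 := by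
  decide +kernel
theorem gB_cocycle : ∀ t ∈ elM, gB t.1 t.2.1 + gB t.2.1 t.2.2 = gB t.1 t.2.2 := by
  decide +kernel

theorem parB_ok : (parB.Pairwise fun q r => r.2 ≠ q.1 ∧ r.2 ≠ q.2) ∧ ∀ q ∈ parB, q.1 ≠ q.2 := by
  decide +kernel
theorem parM_ok : (parM.Pairwise fun q r => r.2 ≠ q.1 ∧ r.2 ≠ q.2) ∧ ∀ q ∈ parM, q.1 ≠ q.2 := by
  decide +kernel
theorem parT_ok : (parT.Pairwise fun q r => r.2 ≠ q.1 ∧ r.2 ≠ q.2) ∧ ∀ q ∈ parT, q.1 ≠ q.2 := by
  decide +kernel
theorem parM_nine : ∀ q ∈ parM, 9 ≤ q.2 := by decide +kernel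
theorem parT_nine : ∀ q ∈ parT, 9 ≤ q.2 := by decide +kernel

theorem torE_lt : ∀ p ∈ torE, p.1 < p.2 ∧ p.2 < 9 := by decide +kernel
theorem torE_FB : ∀ p ∈ torE, Edge FB (9 + p.1, 9 + p.2) := by decide +kernel
theorem torE_FM : ∀ p ∈ torE, Edge FM (9 + p.1, 9 + p.2) := by decide +kernel
theorem torE_gBot : ∀ p ∈ torE, gBot (9 + p.1) (9 + p.2) = gA p.1 p.2 := by decide +kernel
theorem torE_gA : ∀ p ∈ torE, gA (9 + p.1) (9 + p.2) = gA p.1 p.2 + gB p.1 p.2 := by
  decide +kernel
theorem torE_gB : ∀ p ∈ torE, gB (9 + p.1) (9 + p.2) = gB p.1 p.2 := by decide +kernel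

/-! ### one level -/

theorem level {k : Type*} [Field k] (L : List (List ℕ)) (par tor : List (ℕ × ℕ))
    (el : List (ℕ × ℕ × ℕ))
    (hpar : (par.Pairwise fun q r => r.2 ≠ q.1 ∧ r.2 ≠ q.2) ∧ ∀ q ∈ par, q.1 ≠ q.2)
    (hel : ∀ t ∈ el, Tri L t)
    (hall : ∀ F ∈ L, ∀ u ∈ F, ∀ v ∈ F, u < v → (u, v) ∈ el.foldl elimStep (tor ++ par))
    (e G : ℕ → ℕ → k) (he : ∀ t, Tri L t → e t.1 t.2.1 + e t.2.1 t.2.2 = e t.1 t.2.2)
    (hG : ∀ t ∈ el, G t.1 t.2.1 + G t.2.1 t.2.2 = G t.1 t.2.2) (h₀ : ℕ → k)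
    (h0 : ∀ h : ℕ → k, (∀ q ∈ par, h q.2 = h q.1 + (e q.1 q.2 - G q.1 q.2)) →
      (∀ x, (∀ q ∈ par, q.2 ≠ x) → h x = h₀ x) →
      ∀ p ∈ tor, e p.1 p.2 = h p.2 - h p.1 + G p.1 p.2) :
    ∃ h : ℕ → k, (∀ x, (∀ q ∈ par, q.2 ≠ x) → h x = h₀ x) ∧
      ∀ p, Edge L p → e p.1 p.2 = h p.2 - h p.1 + G p.1 p.2 := by
  obtain ⟨h, h1, h2⟩ := pot par hpar.1 hpar.2 (fun u v => e u v - G u v) h₀
  refine ⟨h, h2, fun p hp => ?_⟩
  obtain ⟨hlt, F, hF, hu, hv⟩ := hp
  have key := elim_foldl (fun u v => e u v - (h v - h u + G u v)) el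
    (fun t ht => by
      have e1 := he t (hel t ht)
      have e2 := hG t ht
      linear_combination e1 - e2)
    (tor ++ par) (fun q hq => by
      rcases List.mem_append.1 hq with hq | hq
      · rw [h0 h h1 h2 q hq, sub_self]
      · rw [h1 q hq]
        ring) (p.1, p.2) (hall F hF p.1 hu p.2 hv hlt)
  exact sub_eq_zero.1 key

/-- the winding number on level `β` -/
def Gw (β : ℕ) (u v : ℕ) : ℤ := if β = 0 then gBot u v else gA u v + ((β : ℤ) - 1) * gB u v

theorem Gw_tor (β : ℕ) : ∀ p ∈ torE, Gw β (9 + p.1) (9 + p.2) = gA p.1 p.2 + β * gB p.1 p.2 := by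
  intro p hp
  unfold Gw
  split_ifs with h
  · rw [torE_gBot p hp, h]
    simp
  · rw [torE_gA p hp, torE_gB p hp]
    ring

theorem typ_zero (R : ℕ) : typ R 0 = FB := rfl

theorem typ_mid {R β : ℕ} (h : β ≠ 0) (h' : β ≤ R) : typ R β = FM := by
  unfold typ typp typn
  rw [if_neg h, if_pos h', if_neg h, if_pos h']
  rfl

theorem typ_top (R : ℕ) : typ R (R + 1) = FT := by
  unfold typ typp typn
  rw [if_neg (by omega), if_neg (by omega), if_pos rfl, if_neg (by omega), if_neg (by omega),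
    if_pos rfl]
  rfl

theorem typ_big {R β : ℕ} (h : R + 1 < β) : typ R β = [] := by
  unfold typ typp typn
  rw [if_neg (by omega), if_neg (by omega), if_neg (by omega), if_neg (by omega),
    if_neg (by omega), if_neg (by omega)]
  rfl

theorem isS_triangle {R β : ℕ} {t : ℕ × ℕ × ℕ} (h : Tri (typ R β) t) :
    IsS R {9 * β + t.1, 9 * β + t.2.1, 9 * β + t.2.2} := by
  obtain ⟨_, _, F, hF, h1, h2, h3⟩ := h
  refine ⟨by simp, β, F, hF, fun a ha => ?_⟩
  simp only [Finset.mem_insert, Finset.mem_singleton] at ha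
  rcases ha with rfl | rfl | rfl
  · exact ⟨t.1, h1, rfl⟩
  · exact ⟨t.2.1, h2, rfl⟩
  · exact ⟨t.2.2, h3, rfl⟩

theorem edge_of_isS {R a b : ℕ} (hab : a < b) (h : IsS R {a, b}) :
    ∃ β u v, a = 9 * β + u ∧ b = 9 * β + v ∧ Edge (typ R β) (u, v) := by
  obtain ⟨_, β, F, hF, hs⟩ := h
  obtain ⟨u, hu, rfl⟩ := hs a (by simp)
  obtain ⟨v, hv, rfl⟩ := hs b (by simp)
  exact ⟨β, u, v, rfl, rfl, by omega, F, hF, hu, hv⟩

section main

variable {k : Type*} [Field k] (R : ℕ) (F : ℕ → ℕ → k)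
  (hT : ∀ a b c, a < b → b < c → IsS R {a, b, c} → F a b + F b c = F a c)

include hT

theorem he (β : ℕ) (t : ℕ × ℕ × ℕ) (ht : Tri (typ R β) t) :
    F (9 * β + t.1) (9 * β + t.2.1) + F (9 * β + t.2.1) (9 * β + t.2.2) =
      F (9 * β + t.1) (9 * β + t.2.2) :=
  hT _ _ _ (by have := ht.1; omega) (by have := ht.2.1; omega) (isS_triangle ht)

/-- levels `0, …, R` -/
theorem levels : ∃ α : k, ∀ β ≤ R, ∃ h : ℕ → k, ∀ β' ≤ β, ∀ p, Edge (typ R β') p →
    F (9 * β' + p.1) (9 * β' + p.2) =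
      h (9 * β' + p.2) - h (9 * β' + p.1) + α * (Gw β' p.1 p.2 : k) := by
  refine ⟨-(F 6 8 - F 6 7 - F 7 8), fun β => ?_⟩
  set α : k := -(F 6 8 - F 6 7 - F 7 8) with hα
  induction β with
  | zero =>
    intro _
    obtain ⟨h, _, h2⟩ := level FB parB [(6, 8)] elB parB_ok elB_tri elB_all
      (fun u v => F u v) (fun u v => α * (gBot u v : k))
      (fun t ht => by
        have := he R F hT 0 t (by rw [typ_zero]; exact ht)
        simpa using this)
      (fun t ht => by
        have := gBot_cocycle t ht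
        rw [← this]
        push_cast
        ring) (fun _ => 0) (fun h h1 _ p hp => by
        obtain rfl := List.mem_singleton.1 hp
        have e1 := h1 (6, 7) (by decide)
        have e2 := h1 (7, 8) (by decide)
        have g1 : gBot 6 7 = 0 := by decide +kernel
        have g2 : gBot 7 8 = 0 := by decide +kernel
        have g3 : gBot 6 8 = -1 := by decide +kernel
        simp only [g1, g2, g3, Int.cast_zero, Int.cast_neg, Int.cast_one, mul_zero, sub_zero]
          at e1 e2 ⊢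
        rw [e2, e1, hα]
        ring)
    refine ⟨h, fun β' hβ' p hp => ?_⟩
    obtain rfl : β' = 0 := Nat.le_zero.1 hβ'
    have := h2 p hp
    simpa [Gw] using this
  | succ β ih =>
    intro hβ
    obtain ⟨h, hh⟩ := ih (by omega)
    obtain ⟨g, g1, g2⟩ := level FM parM torE elM parM_ok elM_tri elM_all
      (fun u v => F (9 * (β + 1) + u) (9 * (β + 1) + v))
      (fun u v => α * (Gw (β + 1) u v : k))
      (fun t ht => he R F hT (β + 1) t (by rw [typ_mid (by omega) hβ]; exact ht))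
      (fun t ht => by
        have e1 := gA_cocycle t ht
        have e2 := gB_cocycle t ht
        have e3 : Gw (β + 1) t.1 t.2.1 + Gw (β + 1) t.2.1 t.2.2 = Gw (β + 1) t.1 t.2.2 := by
          simp only [Gw, if_neg (Nat.succ_ne_zero β)]
          push_cast
          linear_combination e1 + (β : ℤ) * e2
        rw [← e3]
        push_cast
        ring) (fun u => h (9 * (β + 1) + u))
      (fun h' _ h2 p hp => by
        have e1 := torE_lt p hp
        rw [h2 p.1 (fun q hq => by have := parM_nine q hq; omega),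
          h2 p.2 (fun q hq => by have := parM_nine q hq; omega)]
        have e2 := hh β le_rfl (9 + p.1, 9 + p.2) (by
          by_cases h0 : β = 0
          · subst h0
            exact torE_FB p hp
          · rw [typ_mid h0 (by omega)]
            exact torE_FM p hp)
        simp only at e2
        rw [Gw_tor β p hp] at e2
        have e3 : ∀ x, 9 * β + (9 + x) = 9 * (β + 1) + x := fun x => by ring
        rw [e3, e3] at e2
        rw [e2]
        simp only [Gw, if_neg (Nat.succ_ne_zero β)]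
        push_cast
        ring)
    refine ⟨fun x => if 9 * (β + 1) + 9 ≤ x then g (x - 9 * (β + 1)) else h x,
      fun β' hβ' p hp => ?_⟩
    have hg : ∀ u, (if 9 * (β + 1) + 9 ≤ 9 * (β + 1) + u then g (9 * (β + 1) + u - 9 * (β + 1))
        else h (9 * (β + 1) + u)) = g u := by
      intro u
      split_ifs with h1
      · rw [Nat.add_sub_cancel_left]
      · rw [g1 u fun q hq => by have := parM_nine q hq; omega]
    rcases Nat.lt_or_ge β' (β + 1) with h1 | h1
    · have hlt : p.2 < 18 := by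
        obtain ⟨_, F', hF', _, hv⟩ := hp
        have h18 : ∀ F' ∈ typ R β', ∀ v ∈ F', v < 18 := by
          by_cases h0 : β' = 0
          · subst h0
            rw [typ_zero]
            decide +kernel
          · rw [typ_mid h0 (by omega)]
            decide +kernel
        exact h18 F' hF' _ hv
      have hlt' := hp.1
      simp only
      rw [if_neg (by omega), if_neg (by omega)]
      exact hh β' (by omega) p hp
    · obtain rfl : β' = β + 1 := by omega
      simp only
      rw [hg, hg]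
      rw [typ_mid (by omega) hβ] at hp
      exact g2 p hp

theorem exists_potential (hR : (R : k) ≠ 0) :
    ∃ g : ℕ → k, ∀ a b, a < b → IsS R {a, b} → F a b = g b - g a := by
  have hR1 : 1 ≤ R := by
    rcases Nat.eq_zero_or_pos R with h | h
    · subst h
      exact absurd Nat.cast_zero hR
    · exact h
  obtain ⟨α, hα⟩ := levels R F hT
  obtain ⟨h, hh⟩ := hα R le_rfl
  -- the relations on the last torus
  have htor : ∀ p ∈ torE, F (9 * (R + 1) + p.1) (9 * (R + 1) + p.2) =
      h (9 * (R + 1) + p.2) - h (9 * (R + 1) + p.1) +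
        α * ((gA p.1 p.2 : k) + R * (gB p.1 p.2 : k)) := by
    intro p hp
    have e2 := hh R le_rfl (9 + p.1, 9 + p.2) (by
      rw [typ_mid (by omega) le_rfl]
      exact torE_FM p hp)
    simp only at e2
    rw [Gw_tor R p hp] at e2
    have e3 : ∀ x, 9 * R + (9 + x) = 9 * (R + 1) + x := fun x => by ring
    rw [e3, e3] at e2
    rw [e2]
    push_cast
    ring
  have hα0 : α = 0 := by
    have t1 := he R F hT (R + 1) (0, 1, 9) (by rw [typ_top]; decide +kernel)
    have t2 := he R F hT (R + 1) (1, 2, 9) (by rw [typ_top]; decide +kernel)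
    have t3 := he R F hT (R + 1) (0, 2, 9) (by rw [typ_top]; decide +kernel)
    have a1 := htor (0, 1) (by decide)
    have a2 := htor (1, 2) (by decide)
    have a3 := htor (0, 2) (by decide)
    have b1 : gA 0 1 = 0 := by decide +kernel
    have b2 : gA 1 2 = 0 := by decide +kernel
    have b3 : gA 0 2 = 0 := by decide +kernel
    have c1 : gB 0 1 = 0 := by decide +kernel
    have c2 : gB 1 2 = 0 := by decide +kernel
    have c3 : gB 0 2 = -1 := by decide +kernel
    simp only [b1, b2, b3, c1, c2, c3, Int.cast_zero, Int.cast_neg, Int.cast_one, mul_zero,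
      add_zero, zero_add] at t1 t2 t3 a1 a2 a3
    have : α * R = 0 := by linear_combination t1 + t2 - t3 - a1 - a2 + a3
    exact (mul_eq_zero.1 this).resolve_right hR
  subst hα0
  obtain ⟨g, g1, g2⟩ := level FT parT torE elT parT_ok elT_tri elT_all
    (fun u v => F (9 * (R + 1) + u) (9 * (R + 1) + v)) (fun _ _ => 0)
    (fun t ht => he R F hT (R + 1) t (by rw [typ_top]; exact ht))
    (fun t ht => add_zero 0) (fun u => h (9 * (R + 1) + u))
    (fun h' _ h2 p hp => by
      have e1 := torE_lt p hp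
      rw [h2 p.1 (fun q hq => by have := parT_nine q hq; omega),
        h2 p.2 (fun q hq => by have := parT_nine q hq; omega), htor p hp]
      ring)
  refine ⟨fun x => if 9 * (R + 1) + 9 ≤ x then g (x - 9 * (R + 1)) else h x,
    fun a b hab hs => ?_⟩
  have hg : ∀ u, (if 9 * (R + 1) + 9 ≤ 9 * (R + 1) + u then g (9 * (R + 1) + u - 9 * (R + 1))
      else h (9 * (R + 1) + u)) = g u := by
    intro u
    split_ifs with h1
    · rw [Nat.add_sub_cancel_left]
    · rw [g1 u fun q hq => by have := parT_nine q hq; omega]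
  obtain ⟨β, u, v, rfl, rfl, hE⟩ := edge_of_isS hab hs
  simp only
  rcases Nat.lt_trichotomy β (R + 1) with h1 | h1 | h1
  · have hlt : v < 18 := by
      obtain ⟨_, F', hF', _, hv⟩ := hE
      have h18 : ∀ F' ∈ typ R β, ∀ v ∈ F', v < 18 := by
        by_cases h0 : β = 0
        · subst h0
          rw [typ_zero]
          decide +kernel
        · rw [typ_mid h0 (by omega)]
          decide +kernel
      exact h18 F' hF' _ hv
    have e1 := hh β (by omega) (u, v) hE
    rw [if_neg (by omega), if_neg (by omega), e1]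
    simp
  · subst h1
    rw [hg, hg]
    rw [typ_top] at hE
    rw [g2 (u, v) hE, add_zero]
  · rw [typ_big h1] at hE
    obtain ⟨_, F', hF', _⟩ := hE
    exact absurd hF' List.not_mem_nil

end main

/-- `h1` for every simplicial complex with the simplices of `Stk R` -/
theorem h1_of_isS {k : Type*} [Field k] {R : ℕ} (hR : (R : k) ≠ 0) (X : SC (9 * (R + 3)))
    (hX : ∀ A : Finset (Fin (9 * (R + 3))), IsS R (A.map Fin.valEmbedding) ↔
      ∃ σ, X.verts σ = A) (w : X.N → X.N → k)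
    (hw : ∀ i l l' j, X.inc i l ≠ 0 → X.inc l j ≠ 0 → X.inc i l' ≠ 0 → X.inc l' j ≠ 0 →
      w i l + w l j = w i l' + w l' j) :
    ∃ h : X.N → k, ∀ i j, X.inc i j ≠ 0 → w i j = h i - h j := by
  refine X.h1_of_simplicial (fun F h0 ha hF => ?_) w hw
  let F' : ℕ → ℕ → k := fun a b =>
    if h : a < 9 * (R + 3) ∧ b < 9 * (R + 3) then F ⟨a, h.1⟩ ⟨b, h.2⟩ else 0
  have hF' : ∀ a b : Fin (9 * (R + 3)), F' a b = F a b := fun a b => by
    change (if h : (a : ℕ) < 9 * (R + 3) ∧ (b : ℕ) < 9 * (R + 3) then F ⟨a, h.1⟩ ⟨b, h.2⟩ else 0) = _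
    rw [dif_pos ⟨a.2, b.2⟩]
  obtain ⟨g, hg⟩ := exists_potential R F' (fun a b c hab hbc hs => by
    have h1 : a < 9 * (R + 3) := hs.lt (by simp)
    have h2 : b < 9 * (R + 3) := hs.lt (by simp)
    have h3 : c < 9 * (R + 3) := hs.lt (by simp)
    obtain ⟨σ, hσ⟩ := (hX {⟨a, h1⟩, ⟨b, h2⟩, ⟨c, h3⟩}).1 (by
      rw [Finset.map_insert, Finset.map_insert, Finset.map_singleton]
      exact hs)
    have h4 := hF ⟨a, h1⟩ ⟨b, h2⟩ ⟨c, h3⟩ σ hσ
    rw [← hF', ← hF', ← hF'] at h4
    exact h4) hR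
  refine ⟨fun a => g a, fun a b σ hσ => ?_⟩
  have hs : IsS R {(a : ℕ), (b : ℕ)} := by
    have h1 := (hX {a, b}).2 ⟨σ, hσ⟩
    rw [Finset.map_insert, Finset.map_singleton] at h1
    exact h1
  rcases lt_trichotomy (a : ℕ) (b : ℕ) with h | h | h
  · rw [← hF', hg a b h hs]
  · obtain rfl : a = b := Fin.ext h
    rw [h0, sub_self]
  · rw [ha a b, ← hF', hg b a h (by rwa [Finset.pair_comm] at hs), neg_sub]

end H1

end Stk

/-- `h1` of `Cells.Facts` for `Stk R` -/
theorem stk_h1 {k : Type*} [Field k] {R : ℕ} (hR : (R : k) ≠ 0)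
    (w : (stk R).toCells.N → (stk R).toCells.N → k)
    (hw : ∀ i l l' j, (stk R).toCells.inc i l ≠ 0 → (stk R).toCells.inc l j ≠ 0 →
      (stk R).toCells.inc i l' ≠ 0 → (stk R).toCells.inc l' j ≠ 0 →
      w i l + w l j = w i l' + w l' j) :
    ∃ h : (stk R).toCells.N → k, ∀ i j, (stk R).toCells.inc i j ≠ 0 → w i j = h i - h j :=
  Stk.H1.h1_of_isS hR (stk R) (fun A => (exists_verts_iff A).symm) w hw

end Lens
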