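import Pool.Agent.Lens.Stk

/-!
# The stacked lens spaces: the winding cocycle modulo `R`, connectedness
-/

set_option autoImplicit false

open Finset

namespace Lens

namespace StkL

open Stk

/-! ### facts about the lists, by computation -/

theorem FB_lt : ∀ F ∈ FBp ++ FBn, F.length = 4 ∧ ∀ a ∈ F, 6 ≤ a ∧ a < 18 := by decide +kernel

theorem FM_lt : ∀ F ∈ FMp ++ FMn, F.length = 4 ∧ ∀ a ∈ F, a < 18 := by decide +kernel

theorem FT_lt : ∀ F ∈ FTp ++ FTn, F.length = 4 ∧ ∀ a ∈ F, a < 12 := by decide +kernel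

theorem FB_par : ∀ c ∈ List.range 18, 6 < c → ∃ F ∈ FBp ++ FBn, c ∈ F ∧ ∃ p ∈ F, p < c := by
  decide +kernel

theorem FM_par : ∀ c ∈ List.range 18, 9 ≤ c → ∃ F ∈ FMp ++ FMn, c ∈ F ∧ ∃ p ∈ F, p < c := by
  decide +kernel

theorem FT_par : ∀ c ∈ List.range 12, 9 ≤ c → ∃ F ∈ FTp ++ FTn, c ∈ F ∧ ∃ p ∈ F, p < c := by
  decide +kernel

theorem FB_cocycle : ∀ F ∈ FBp ++ FBn, ∀ a ∈ F, ∀ b ∈ F, a ≤ b → ∀ c ∈ F, b ≤ c →
    gBot a b + gBot b c = gBot a c := by decide +kernel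

theorem FM_cocycle : ∀ F ∈ FMp ++ FMn, ∀ a ∈ F, ∀ b ∈ F, a ≤ b → ∀ c ∈ F, b ≤ c →
    gA a b + gA b c = gA a c ∧ gB a b + gB b c = gB a c := by decide +kernel

theorem FT_cocycle : ∀ F ∈ FTp ++ FTn, ∀ a ∈ F, ∀ b ∈ F, a ≤ b → ∀ c ∈ F, b ≤ c →
    gTop a b + gTop b c = gTop a c := by decide +kernel

/-! ### the facets -/

theorem typ_zero (R : ℕ) : typ R 0 = FBp ++ FBn := by simp [typ, typp, typn]

theorem typ_mid {R β : ℕ} (h : β ≠ 0) (h' : β ≤ R) : typ R β = FMp ++ FMn := by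
  simp [typ, typp, typn, h, h']

theorem typ_top (R : ℕ) : typ R (R + 1) = FTp ++ FTn := by simp [typ, typp, typn]

theorem typ_cases {R β : ℕ} {F : List ℕ} (h : F ∈ typ R β) :
    (β = 0 ∧ F ∈ FBp ++ FBn) ∨ (β ≠ 0 ∧ β ≤ R ∧ F ∈ FMp ++ FMn) ∨
      (β = R + 1 ∧ F ∈ FTp ++ FTn) := by
  by_cases h0 : β = 0
  · subst h0
    rw [typ_zero] at h
    exact Or.inl ⟨rfl, h⟩
  by_cases h1 : β ≤ R
  · rw [typ_mid h0 h1] at h
    exact Or.inr (Or.inl ⟨h0, h1, h⟩)
  by_cases h2 : β = R + 1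
  · subst h2
    rw [typ_top] at h
    exact Or.inr (Or.inr ⟨rfl, h⟩)
  · simp [typ, typp, typn, h0, h1, h2] at h

theorem typ_lt {R β : ℕ} {F : List ℕ} (h : F ∈ typ R β) :
    F.length = 4 ∧ β ≤ R + 1 ∧ ∀ a ∈ F, a < 18 := by
  rcases typ_cases h with ⟨h0, h1⟩ | ⟨h0, h1, h2⟩ | ⟨h0, h1⟩
  · obtain ⟨h2, h3⟩ := FB_lt F h1
    exact ⟨h2, by omega, fun a ha => (h3 a ha).2⟩
  · obtain ⟨h3, h4⟩ := FM_lt F h2
    exact ⟨h3, by omega, h4⟩
  · obtain ⟨h3, h4⟩ := FT_lt F h1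
    exact ⟨h3, by omega, fun a ha => (h4 a ha).trans (by norm_num)⟩

/-- a simplex from two vertices of a facet -/
theorem isS_pair {R β : ℕ} {F : List ℕ} (hF : F ∈ typ R β) {a b : ℕ} (ha : a ∈ F) (hb : b ∈ F) :
    IsS R {9 * β + a, 9 * β + b} := by
  refine ⟨insert_nonempty _ _, β, F, hF, ?_⟩
  intro x hx
  rw [mem_insert, mem_singleton] at hx
  rcases hx with rfl | rfl
  · exact ⟨a, ha, rfl⟩
  · exact ⟨b, hb, rfl⟩

/-- every vertex other than `6` has a smaller neighbour -/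
theorem exists_parent {R : ℕ} (hR : 1 ≤ R) {a : ℕ} (h : IsS R {a}) (ha : a ≠ 6) :
    ∃ p < a, IsS R {p, a} := by
  obtain ⟨-, β, F, hF, hs⟩ := h
  obtain ⟨c, hc, rfl⟩ := hs a (mem_singleton_self _)
  have key : ∀ β' c', 9 * β + c = 9 * β' + c' →
      (∃ F ∈ typ R β', c' ∈ F ∧ ∃ p ∈ F, p < c') → ∃ p < 9 * β + c, IsS R {p, 9 * β + c} := by
    rintro β' c' h1 ⟨F', h2, h3, p, h4, h5⟩
    refine ⟨9 * β' + p, by omega, ?_⟩
    rw [h1]
    exact isS_pair h2 h4 h3
  have kM : ∀ β' c', 9 * β + c = 9 * β' + c' → β' ≤ R → 9 ≤ c' → c' < 18 →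
      ∃ p < 9 * β + c, IsS R {p, 9 * β + c} := by
    intro β' c' h1 h2 h3 h4
    refine key β' c' h1 ?_
    by_cases h0 : β' = 0
    · subst h0
      rw [typ_zero]
      exact FB_par c' (List.mem_range.2 h4) (by omega)
    · rw [typ_mid h0 h2]
      exact FM_par c' (List.mem_range.2 h4) h3
  rcases typ_cases hF with ⟨h0, h1⟩ | ⟨h0, h1, h2⟩ | ⟨h0, h1⟩
  · have h3 := (FB_lt F h1).2 c hc
    refine key β c rfl ?_
    subst h0
    rw [typ_zero]
    exact FB_par c (List.mem_range.2 h3.2) (by omega)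
  · have h3 := (FM_lt F h2).2 c hc
    by_cases h4 : 9 ≤ c
    · exact kM β c rfl h1 h4 h3
    · exact kM (β - 1) (c + 9) (by omega) (by omega) (by omega) (by omega)
  · have h3 := (FT_lt F h1).2 c hc
    by_cases h4 : 9 ≤ c
    · refine key β c rfl ?_
      rw [h0, typ_top]
      exact FT_par c (List.mem_range.2 h3) h4
    · exact kM (β - 1) (c + 9) (by omega) (by omega) (by omega) (by omega)

/-! ### the winding cocycle -/

/-- the winding number at level `β` -/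
def gl (R β u v : ℕ) : ℤ :=
  if β = 0 then gBot u v else if β ≤ R then gA u v + (β - 1 : ℤ) * gB u v else gTop u v

/-- the winding number (meaningful modulo `R`) -/
def gS (R u v : ℕ) : ℤ :=
  gl R (min (u / 9) (R + 1)) (u - 9 * min (u / 9) (R + 1)) (v - 9 * min (u / 9) (R + 1))

theorem gA_self (u : ℕ) : gA u u = 0 := by
  unfold gA
  by_cases h : u < 9
  · simp [h, wr]
  · simp [h, wr]

theorem gB_self (u : ℕ) : gB u u = 0 := by
  unfold gB
  by_cases h : u < 9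
  · simp [h, wr]
  · simp [h, wr]

theorem gBot_self (u : ℕ) : gBot u u = 0 := by
  unfold gBot
  by_cases h : u < 9
  · simp [h, wr]
  · simp [h, wr]

theorem gTop_self (u : ℕ) : gTop u u = 0 := by
  unfold gTop
  by_cases h : u < 9
  · simp [h, wr]
  · simp [h, wr]

theorem gl_self (R β u : ℕ) : gl R β u u = 0 := by
  unfold gl
  split_ifs
  · exact gBot_self u
  · rw [gA_self, gB_self]; ring
  · exact gTop_self u

theorem gS_self (R u : ℕ) : gS R u u = 0 := gl_self _ _ _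

theorem gA_upper {a b : ℕ} (hb : b < 9) :
    gA (a + 9) (b + 9) = gA a b + gB a b := by
  unfold gA gB
  simp [hb]

theorem gB_upper {a b : ℕ} (hb : b < 9) : gB (a + 9) (b + 9) = gB a b := by
  unfold gB
  simp [hb]

theorem gBot_upper {a b : ℕ} (hb : b < 9) : gBot (a + 9) (b + 9) = gA a b := by
  unfold gBot gA
  simp [hb]

theorem gTop_lower {a b : ℕ} (hb : b < 9) : gTop a b = gA a b := by
  unfold gTop gA
  simp [hb]

theorem gl_zero (R u v : ℕ) : gl R 0 u v = gBot u v := by simp [gl]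

theorem gl_mid {R β : ℕ} (h : β ≠ 0) (h' : β ≤ R) (u v : ℕ) :
    gl R β u v = gA u v + (β - 1 : ℤ) * gB u v := by simp [gl, h, h']

theorem gl_top (R u v : ℕ) : gl R (R + 1) u v = gTop u v := by simp [gl]

theorem gS_of_lt {R β a b : ℕ} (hβ : β ≤ R + 1) (ha : a < 9) :
    gS R (9 * β + a) (9 * β + b) = gl R β a b := by
  have h1 : (9 * β + a) / 9 = β := by omega
  have h2 : min β (R + 1) = β := min_eq_left hβ
  rw [gS, h1, h2, Nat.add_sub_cancel_left, Nat.add_sub_cancel_left]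

/-- compatibility with the level formula -/
theorem gS_compat {R β : ℕ} (hR : 1 ≤ R) {F : List ℕ} (hF : F ∈ typ R β) {a b : ℕ} (ha : a ∈ F)
    (hb : b ∈ F) (hab : a ≤ b) : (R : ℤ) ∣ gS R (9 * β + a) (9 * β + b) - gl R β a b := by
  obtain ⟨-, hβ, hlt⟩ := typ_lt hF
  by_cases h9 : a < 9
  · rw [gS_of_lt hβ h9, sub_self]
    exact dvd_zero _
  obtain ⟨a, rfl⟩ : ∃ a', a = a' + 9 := ⟨a - 9, by omega⟩
  obtain ⟨b, rfl⟩ : ∃ b', b = b' + 9 := ⟨b - 9, by omega⟩
  have ha9 : a < 9 := by have := hlt _ ha; omega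
  have hb9 : b < 9 := by have := hlt _ hb; omega
  by_cases hT : β = R + 1
  · subst hT
    have h1 : (9 * (R + 1) + (a + 9)) / 9 = R + 2 := by omega
    have h2 : min (R + 2) (R + 1) = R + 1 := by omega
    rw [gS, h1, h2, Nat.add_sub_cancel_left, Nat.add_sub_cancel_left, sub_self]
    exact dvd_zero _
  · have e1 : 9 * β + (a + 9) = 9 * (β + 1) + a := by ring
    have e2 : 9 * β + (b + 9) = 9 * (β + 1) + b := by ring
    rw [e1, e2, gS_of_lt (by omega) ha9]
    by_cases h0 : β = 0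
    · subst h0
      rw [gl_mid (by omega) (by omega), gl_zero, gBot_upper hb9]
      simp
    · rw [gl_mid h0 (by omega), gA_upper hb9, gB_upper hb9]
      by_cases h1 : β = R
      · subst h1
        rw [gl_top, gTop_lower hb9]
        exact ⟨- gB a b, by ring⟩
      · rw [gl_mid (by omega) (by omega)]
        push_cast
        have : gA a b + ((β : ℤ) + 1 - 1) * gB a b -
            (gA a b + gB a b + ((β : ℤ) - 1) * gB a b) = 0 := by ring
        rw [this]
        exact dvd_zero _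

theorem gl_cocycle {R β : ℕ} {F : List ℕ} (hF : F ∈ typ R β) {a b c : ℕ} (ha : a ∈ F)
    (hb : b ∈ F) (hab : a ≤ b) (hc : c ∈ F) (hbc : b ≤ c) :
    gl R β a b + gl R β b c = gl R β a c := by
  rcases typ_cases hF with ⟨h0, h1⟩ | ⟨h0, h1, h2⟩ | ⟨h0, h1⟩
  · subst h0
    rw [gl_zero, gl_zero, gl_zero]
    exact FB_cocycle F h1 a ha b hb hab c hc hbc
  · obtain ⟨h3, h4⟩ := FM_cocycle F h2 a ha b hb hab c hc hbc
    rw [gl_mid h0 h1, gl_mid h0 h1, gl_mid h0 h1, ← h3, ← h4]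
    ring
  · subst h0
    rw [gl_top, gl_top, gl_top]
    exact FT_cocycle F h1 a ha b hb hab c hc hbc

/-- the cocycle condition modulo `R` on every simplex -/
theorem gS_cocycle {R : ℕ} (hR : 1 ≤ R) {A : Finset ℕ} (hA : IsS R A) {x y z : ℕ} (hx : x ∈ A)
    (hy : y ∈ A) (hxy : x ≤ y) (hz : z ∈ A) (hyz : y ≤ z) :
    (R : ℤ) ∣ gS R x y + gS R y z - gS R x z := by
  obtain ⟨-, β, F, hF, hs⟩ := hA
  obtain ⟨a, ha, rfl⟩ := hs x hx
  obtain ⟨b, hb, rfl⟩ := hs y hy
  obtain ⟨c, hc, rfl⟩ := hs z hz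
  have h1 := gS_compat hR hF ha hb (by omega)
  have h2 := gS_compat hR hF hb hc (by omega)
  have h3 := gS_compat hR hF ha hc (by omega)
  have h4 := gl_cocycle hF ha hb (by omega) hc (by omega)
  have h5 := dvd_sub (dvd_add h1 h2) h3
  have h6 : gS R (9 * β + a) (9 * β + b) + gS R (9 * β + b) (9 * β + c) -
      gS R (9 * β + a) (9 * β + c) = gS R (9 * β + a) (9 * β + b) - gl R β a b +
      (gS R (9 * β + b) (9 * β + c) - gl R β b c) -
      (gS R (9 * β + a) (9 * β + c) - gl R β a c) := by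
    rw [← h4]; ring
  rw [h6]
  exact h5

/-- the winding number modulo `R` as a natural number -/
def gN (R u v : ℕ) : ℕ := (gS R u v % R).toNat

theorem gN_cast {R : ℕ} (hR : 1 ≤ R) (u v : ℕ) : (gN R u v : ℤ) = gS R u v % R :=
  Int.toNat_of_nonneg (Int.emod_nonneg _ (by omega))

theorem gN_self (R u : ℕ) : gN R u u = 0 := by
  rw [gN, gS_self]
  simp

theorem gN_cocycle {R : ℕ} (hR : 1 ≤ R) {A : Finset ℕ} (hA : IsS R A) {x y z : ℕ} (hx : x ∈ A)
    (hy : y ∈ A) (hxy : x ≤ y) (hz : z ∈ A) (hyz : y ≤ z) :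
    (gN R x y + gN R y z) % R = gN R x z % R := by
  have h := gS_cocycle hR hA hx hy hxy hz hyz
  have h1 : (((gN R x y + gN R y z) % R : ℕ) : ℤ) = ((gN R x z % R : ℕ) : ℤ) := by
    push_cast
    rw [gN_cast hR, gN_cast hR, gN_cast hR, ← Int.add_emod, Int.emod_emod]
    exact Int.emod_eq_emod_iff_emod_sub_eq_zero.2 (Int.emod_eq_zero_of_dvd h)
  exact_mod_cast h1

/-! ### the parents give connectedness: induction over the vertices -/

/-- induction over the vertices: from `6` along the parents -/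
theorem vertex_ind {R : ℕ} (hR : 1 ≤ R) (P : ℕ → Prop) (h6 : P 6)
    (hP : ∀ p a, p < a → IsS R {p, a} → P p → P a) : ∀ a, IsS R {a} → P a := by
  intro a
  induction a using Nat.strong_induction_on with
  | _ a ih =>
    intro ha
    by_cases h : a = 6
    · rw [h]; exact h6
    · obtain ⟨p, hp, hs⟩ := exists_parent hR ha h
      exact hP p a hp hs (ih p hp (hs.mono (singleton_subset_iff.2 (mem_insert_self _ _))
        (singleton_nonempty _)))

theorem isS_edge_67 (R : ℕ) : IsS R {6, 7} := by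
  have h : [6, 7, 12, 13] ∈ typ R 0 := by rw [typ_zero]; decide
  exact isS_pair h (a := 6) (b := 7) (by decide) (by decide)

theorem isS_edge_78 (R : ℕ) : IsS R {7, 8} := by
  have h : [7, 8, 15, 16] ∈ typ R 0 := by rw [typ_zero]; decide
  exact isS_pair h (a := 7) (b := 8) (by decide) (by decide)

theorem isS_edge_68 (R : ℕ) : IsS R {6, 8} := by
  have h : [6, 8, 9, 11] ∈ typ R 0 := by rw [typ_zero]; decide
  exact isS_pair h (a := 6) (b := 8) (by decide) (by decide)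

/-- a facet -/
theorem isS_facet (R : ℕ) : IsS R {6, 7, 12, 13} := by
  have h : [6, 7, 12, 13] ∈ typ R 0 := by rw [typ_zero]; decide
  refine ⟨insert_nonempty _ _, 0, _, h, ?_⟩
  intro a ha
  simp only [mem_insert, mem_singleton] at ha
  refine ⟨a, ?_, by omega⟩
  simp only [List.mem_cons, List.not_mem_nil, or_false]
  exact ha

theorem gN_67 (R : ℕ) : gN R 6 7 = 0 := by
  have h : gS R 6 7 = 0 := by
    have h1 := gS_of_lt (R := R) (β := 0) (a := 6) (b := 7) (by omega) (by omega)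
    simp only [mul_zero, zero_add] at h1
    rw [h1, gl_zero]
    decide
  rw [gN, h]
  simp

theorem gN_78 (R : ℕ) : gN R 7 8 = 0 := by
  have h : gS R 7 8 = 0 := by
    have h1 := gS_of_lt (R := R) (β := 0) (a := 7) (b := 8) (by omega) (by omega)
    simp only [mul_zero, zero_add] at h1
    rw [h1, gl_zero]
    decide
  rw [gN, h]
  simp

theorem gN_68 {R : ℕ} (hR : 1 ≤ R) : gN R 6 8 + 1 = R := by
  have h : gS R 6 8 = -1 := by
    have h1 := gS_of_lt (R := R) (β := 0) (a := 6) (b := 8) (by omega) (by omega)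
    simp only [mul_zero, zero_add] at h1
    rw [h1, gl_zero]
    decide
  have h2 : (gN R 6 8 : ℤ) = R - 1 := by
    rw [gN_cast hR, h]
    have h3 : ((-1 : ℤ)) % (R : ℤ) = ((R : ℤ) - 1) % (R : ℤ) := by
      rw [show (R : ℤ) - 1 = -1 + R by ring, Int.add_emod_right]
    rw [h3]
    exact Int.emod_eq_of_lt (by omega) (by omega)
  omega

/-! ### the cells -/

section

variable {R : ℕ}

/-- the vertices of a cell as natural numbers -/
noncomputable def nv (σ : (stk R).N) : Finset ℕ := ((stk R).verts σ).map Fin.valEmbedding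

theorem isS_nv (σ : (stk R).N) : IsS R (nv σ) := σ.2

theorem nv_inj {σ τ : (stk R).N} (h : nv σ = nv τ) : σ = τ :=
  (stk R).inj (Finset.map_injective _ h)

theorem nv_subset {σ τ : (stk R).N} : nv τ ⊆ nv σ ↔ (stk R).verts τ ⊆ (stk R).verts σ :=
  Finset.map_subset_map

theorem card_nv (σ : (stk R).N) : (nv σ).card = ((stk R).verts σ).card := Finset.card_map _

theorem exists_nv {A : Finset ℕ} (h : IsS R A) : ∃ σ : (stk R).N, nv σ = A :=
  stk_exists_nat h

theorem nv_ne (σ : (stk R).N) : (nv σ).Nonempty := (isS_nv σ).1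

theorem nv_down (σ : (stk R).N) {A : Finset ℕ} (h : A ⊆ nv σ) (hA : A.Nonempty) :
    ∃ τ : (stk R).N, nv τ = A := exists_nv ((isS_nv σ).mono h hA)

/-- the smallest vertex -/
noncomputable def mn (σ : (stk R).N) : ℕ := (nv σ).min' (nv_ne σ)

theorem mn_mem (σ : (stk R).N) : mn σ ∈ nv σ := min'_mem _ _

theorem mn_le {σ τ : (stk R).N} (h : nv τ ⊆ nv σ) : mn σ ≤ mn τ := min'_subset _ h

theorem mn_singleton {σ : (stk R).N} {a : ℕ} (h : nv σ = {a}) : mn σ = a := by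
  have h1 := mn_mem σ
  rw [h] at h1
  exact mem_singleton.1 h1

theorem mn_pair {σ : (stk R).N} {a b : ℕ} (h : nv σ = {a, b}) (hab : a < b) : mn σ = a := by
  have h1 := mn_mem σ
  have h2 : mn σ ≤ a := min'_le _ _ (by rw [h]; simp)
  rw [h, mem_insert, mem_singleton] at h1
  omega

theorem inc_ne {σ τ : (stk R).N} (h : nv τ ⊆ nv σ) (hc : (nv σ).card = (nv τ).card + 1) :
    (stk R).toCells.inc σ τ ≠ 0 := by
  rw [card_nv, card_nv] at hc
  exact ((stk R).inc_ne_iff σ τ).2 ⟨nv_subset.1 h, hc⟩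

theorem inc_edge_left {σ τ : (stk R).N} {a b : ℕ} (h : nv σ = {a, b}) (hab : a < b)
    (h' : nv τ = {a}) : (stk R).toCells.inc σ τ ≠ 0 := by
  refine inc_ne ?_ ?_
  · rw [h, h']; simp
  · rw [h, h', card_pair hab.ne, card_singleton]

theorem inc_edge_right {σ τ : (stk R).N} {a b : ℕ} (h : nv σ = {a, b}) (hab : a < b)
    (h' : nv τ = {b}) : (stk R).toCells.inc σ τ ≠ 0 := by
  refine inc_ne ?_ ?_
  · rw [h, h']; simp
  · rw [h, h', card_pair hab.ne, card_singleton]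

/-- every cell which is not a vertex has a facet -/
theorem exists_facet {σ : (stk R).N} {c : ℕ} (h : (nv σ).card = c + 2) :
    ∃ τ : (stk R).N, (nv τ).card = c + 1 ∧ (stk R).toCells.inc σ τ ≠ 0 := by
  obtain ⟨a, ha⟩ := nv_ne σ
  have h1 : ((nv σ).erase a).card = c + 1 := by
    rw [card_erase_of_mem ha, h]; rfl
  obtain ⟨τ, hτ⟩ := nv_down σ (erase_subset a _) (card_pos.1 (by omega))
  refine ⟨τ, by rw [hτ, h1], inc_ne ?_ ?_⟩
  · rw [hτ]; exact erase_subset _ _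
  · rw [hτ, h1, h]

/-- Connectedness. -/
theorem conn (hR : 1 ≤ R) {X : Type*} (φ : (stk R).N → X)
    (h : ∀ i j, (stk R).toCells.inc i j ≠ 0 → φ i = φ j) : ∀ i j, φ i = φ j := by
  obtain ⟨σ₀, hσ₀⟩ := exists_nv (isS_edge_67 R)
  obtain ⟨v₀, hv₀⟩ := exists_nv (R := R) (A := {6}) ((isS_edge_67 R).mono
    (by simp : ({6} : Finset ℕ) ⊆ {6, 7}) (by simp))
  have hv : ∀ a, IsS R {a} → ∀ v : (stk R).N, nv v = {a} → φ v = φ v₀ := by
    refine vertex_ind hR _ ?_ ?_
    · intro v hv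
      rw [nv_inj (hv.trans hv₀.symm)]
    · intro p a hpa hs ih v hv
      obtain ⟨e, he⟩ := exists_nv hs
      obtain ⟨u, hu⟩ := exists_nv (R := R) (A := {p}) (hs.mono
        (by simp : ({p} : Finset ℕ) ⊆ {p, a}) (by simp))
      rw [← h e v (inc_edge_right he hpa hv), h e u (inc_edge_left he hpa hu)]
      exact ih u hu
  have key : ∀ (c : ℕ) (σ : (stk R).N), (nv σ).card = c + 1 → φ σ = φ v₀ := by
    intro c
    induction c with
    | zero =>
      intro σ hσ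
      obtain ⟨a, ha⟩ := card_eq_one.1 hσ
      exact hv a (by rw [← ha]; exact isS_nv σ) σ ha
    | succ c ih =>
      intro σ hσ
      obtain ⟨τ, hτ, hi⟩ := exists_facet hσ
      rw [h σ τ hi]
      exact ih τ hτ
  have key' : ∀ σ : (stk R).N, φ σ = φ v₀ := by
    intro σ
    have h1 := card_pos.2 (nv_ne σ)
    exact key ((nv σ).card - 1) σ (by omega)
  intro i j
  rw [key' i, key' j]

/-- the cocycle on pairs of cells -/
noncomputable def stkG (σ τ : (stk R).N) : ℕ := gN R (mn σ) (mn τ)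

theorem stkG_self (σ : (stk R).N) : stkG σ σ = 0 := gN_self _ _

theorem stkG_add (hR : 1 ≤ R) (σ τ ρ : (stk R).N) (h : (stk R).toCells.le τ σ)
    (h' : (stk R).toCells.le ρ τ) : (stkG σ τ + stkG τ ρ) % R = stkG σ ρ % R := by
  have h1 : nv τ ⊆ nv σ := nv_subset.2 h
  have h2 : nv ρ ⊆ nv τ := nv_subset.2 h'
  exact gN_cocycle hR (isS_nv σ) (mn_mem σ) (h1 (mn_mem τ)) (mn_le h1) (h1 (h2 (mn_mem ρ)))
    (mn_le h2)

/-- the chosen facet -/
noncomputable def stk_t₀ (R : ℕ) : (stk R).N := (exists_nv (isS_facet R)).choose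

theorem nv_t₀ : nv (stk_t₀ R) = {6, 7, 12, 13} := (exists_nv (isS_facet R)).choose_spec

theorem card_t₀ : (nv (stk_t₀ R)).card = 4 := by rw [nv_t₀]; rfl

theorem dim_t₀ : (stk R).toCells.dim (stk_t₀ R) = 3 := by
  change ((stk R).verts (stk_t₀ R)).card - 1 = 3
  rw [← card_nv, card_t₀]

theorem ne_stk_t₀ {σ : (stk R).N} (h : (nv σ).card ≤ 3) : σ ≠ stk_t₀ R := by
  rintro rfl
  rw [card_t₀] at h
  omega

theorem stkG_loop (hR : 1 ≤ R) {k : Type*} [Field k] (w : k) (hw : w ^ R = 1) (hw1 : w ≠ 1)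
    (φ : (stk R).N → k)
    (hφ : ∀ i j, i ≠ stk_t₀ R → j ≠ stk_t₀ R → (stk R).toCells.inc i j ≠ 0 →
      φ i = w ^ (stkG i j) * φ j) : ∀ i, i ≠ stk_t₀ R → φ i = 0 := by
  have hw0 : w ≠ 0 := by
    rintro rfl
    rw [zero_pow (by omega)] at hw
    exact zero_ne_one hw
  -- edges
  have hedge : ∀ a b, a < b → IsS R {a, b} → ∀ u v : (stk R).N, nv u = {a} → nv v = {b} →
      φ u = w ^ gN R a b * φ v := by
    intro a b hab hs u v hu hv
    obtain ⟨e, he⟩ := exists_nv hs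
    have hce : (nv e).card = 2 := by rw [he]; exact card_pair hab.ne
    have hcu : (nv u).card = 1 := by rw [hu]; rfl
    have hcv : (nv v).card = 1 := by rw [hv]; rfl
    have h1 := hφ e u (ne_stk_t₀ (by omega)) (ne_stk_t₀ (by omega)) (inc_edge_left he hab hu)
    have h2 := hφ e v (ne_stk_t₀ (by omega)) (ne_stk_t₀ (by omega)) (inc_edge_right he hab hv)
    rw [stkG, mn_pair he hab, mn_singleton hu, gN_self, pow_zero, one_mul] at h1
    rw [stkG, mn_pair he hab, mn_singleton hv] at h2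
    rw [← h1, h2]
  have sub : ∀ a b : ℕ, IsS R {a, b} → (∃ u : (stk R).N, nv u = {a}) ∧
      ∃ v : (stk R).N, nv v = {b} := fun a b h =>
    ⟨exists_nv (h.mono (by simp : ({a} : Finset ℕ) ⊆ {a, b}) (by simp)),
      exists_nv (h.mono (by simp : ({b} : Finset ℕ) ⊆ {a, b}) (by simp))⟩
  obtain ⟨⟨v6, h6⟩, ⟨v7, h7⟩⟩ := sub 6 7 (isS_edge_67 R)
  obtain ⟨-, ⟨v8, h8⟩⟩ := sub 7 8 (isS_edge_78 R)
  have e67 := hedge 6 7 (by norm_num) (isS_edge_67 R) v6 v7 h6 h7
  have e78 := hedge 7 8 (by norm_num) (isS_edge_78 R) v7 v8 h7 h8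
  have e68 := hedge 6 8 (by norm_num) (isS_edge_68 R) v6 v8 h6 h8
  rw [gN_67, pow_zero, one_mul] at e67
  rw [gN_78, pow_zero, one_mul] at e78
  have hp : w * w ^ gN R 6 8 = 1 := by
    rw [mul_comm, ← pow_succ, gN_68 hR, hw]
  have h0 : φ v6 = 0 := by
    have h1 : w * φ v6 = φ v6 := by
      conv_lhs => rw [e68, ← mul_assoc, hp, one_mul]
      rw [e67, e78]
    have h2 : (w - 1) * φ v6 = 0 := by rw [sub_mul, one_mul, h1, sub_self]
    rcases mul_eq_zero.1 h2 with h3 | h3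
    · exact absurd (sub_eq_zero.1 h3) hw1
    · exact h3
  have hv : ∀ a, IsS R {a} → ∀ v : (stk R).N, nv v = {a} → φ v = 0 := by
    refine vertex_ind hR _ ?_ ?_
    · intro v hv
      rw [nv_inj (hv.trans h6.symm)]
      exact h0
    · intro p a hpa hs ih v hv
      obtain ⟨⟨u, hu⟩, -⟩ := sub p a hs
      have h1 := hedge p a hpa hs u v hu hv
      rw [ih u hu] at h1
      rcases mul_eq_zero.1 h1.symm with h2 | h2
      · exact absurd h2 (pow_ne_zero _ hw0)
      · exact h2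
  have key : ∀ (c : ℕ) (σ : (stk R).N), (nv σ).card = c + 1 → σ ≠ stk_t₀ R → φ σ = 0 := by
    intro c
    induction c with
    | zero =>
      intro σ hσ _
      obtain ⟨a, ha⟩ := card_eq_one.1 hσ
      exact hv a (by rw [← ha]; exact isS_nv σ) σ ha
    | succ c ih =>
      intro σ hσ hσ0
      obtain ⟨τ, hτ, hi⟩ := exists_facet hσ
      have h4 := (isS_nv σ).card_le
      have h5 : τ ≠ stk_t₀ R := ne_stk_t₀ (by omega)
      rw [hφ σ τ hσ0 h5 hi, ih τ hτ h5, mul_zero]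
  intro i hi
  have h1 := card_pos.2 (nv_ne i)
  exact key ((nv i).card - 1) i (by omega) hi

end

end StkL

/-- The winding cocycle modulo `R` of the stacked lens space. -/
noncomputable def stkLoop {R : ℕ} (hR : 1 ≤ R) (k : Type*) [Field k] :
    (stk R).toCells.Loop k R where
  pos := hR
  G := StkL.stkG
  t₀ := StkL.stk_t₀ R
  dim_t₀ := StkL.dim_t₀
  self σ := by rw [StkL.stkG_self, Nat.zero_mod]
  add := StkL.stkG_add hR
  loop w hw hw1 φ hφ := StkL.stkG_loop hR w hw hw1 φ hφ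

/-- a facet which contains the chosen facet is the chosen facet -/
theorem stkLoop_t₀ {R : ℕ} (hR : 1 ≤ R) (k : Type*) [Field k] (τ : (stk R).N)
    (h : (stk R).toCells.le (stkLoop hR k).t₀ τ ∧ (stk R).toCells.dim τ = 3) :
    τ = (stkLoop hR k).t₀ :=
  ((stk R).toCells.le_eq _ _ h.1 ((stkLoop hR k).dim_t₀.trans h.2.symm)).symm

/-- Connectedness of the stacked lens space (the field `conn` of `Cells.Facts`). -/
theorem stk_conn {R : ℕ} (hR : 1 ≤ R) {X : Type*} (φ : (stk R).N → X)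
    (h : ∀ i j, (stk R).toCells.inc i j ≠ 0 → φ i = φ j) : ∀ i j, φ i = φ j :=
  StkL.conn hR φ h

theorem stk_exists_vertex (R : ℕ) : ∃ v : (stk R).N, (stk R).toCells.dim v = 0 :=
  ⟨(stk R).vtx (StkL.stk_t₀ R), ((stk R).v_le _).2⟩

end Lens
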