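import Pool.Agent.Lens.StkCert
import Pool.Agent.Lens.StkData

/-!
# The stars of `Stk 2` have acyclic matchings
-/

set_option autoImplicit false

open Finset

namespace Lens

namespace Stk

/-- the mask of the facet `9 * β + F` -/
def mk (β : ℕ) : List ℕ → ℕ
  | [] => 0
  | b :: F => 2 ^ (9 * β + b) ||| mk β F

theorem testBit_mk (β a : ℕ) (F : List ℕ) :
    (mk β F).testBit a = true ↔ ∃ b ∈ F, a = 9 * β + b := by
  induction F with
  | nil => simp [mk]
  | cons b F ih =>
    rw [mk, Nat.testBit_or, Bool.or_eq_true, ih, Nat.testBit_two_pow, decide_eq_true_eq]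
    constructor
    · rintro (h | ⟨c, hc, h⟩)
      · exact ⟨b, List.mem_cons_self, h.symm⟩
      · exact ⟨c, List.mem_cons_of_mem _ hc, h⟩
    · rintro ⟨c, hc, h⟩
      rcases List.mem_cons.1 hc with rfl | hc
      · exact Or.inl h.symm
      · exact Or.inr ⟨c, hc, h⟩

theorem stkFs_eq : (List.range 4).flatMap (fun β => (typ 2 β).map (mk β)) = stkFs := by
  decide +kernel

theorem typ_two (β : ℕ) (h : 4 ≤ β) : typ 2 β = [] := by
  have h1 : β ≠ 0 := by omega
  have h2 : ¬ β ≤ 2 := by omega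
  have h3 : β ≠ 2 + 1 := by omega
  rw [typ, typp, typn, if_neg h1, if_neg h2, if_neg h3, if_neg h1, if_neg h2, if_neg h3]
  rfl

theorem mem_stkFs (f : ℕ) : f ∈ stkFs ↔ ∃ β, ∃ F ∈ typ 2 β, f = mk β F := by
  rw [← stkFs_eq, List.mem_flatMap]
  constructor
  · rintro ⟨β, _, h⟩
    obtain ⟨F, hF, h1⟩ := List.mem_map.1 h
    exact ⟨β, F, hF, h1.symm⟩
  · rintro ⟨β, F, hF, rfl⟩
    refine ⟨β, List.mem_range.2 ?_, List.mem_map.2 ⟨F, hF, rfl⟩⟩
    by_contra h
    rw [typ_two β (by omega)] at hF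
    exact absurd hF List.not_mem_nil

/-- the simplices of `Stk 2` in terms of the masks of the facets -/
theorem isS_two_iff (A : Finset (Fin 45)) : IsS 2 (A.map Fin.valEmbedding) ↔
    A.Nonempty ∧ ∃ f ∈ stkFs, A ⊆ univ.filter (fun a : Fin 45 => f.testBit a) := by
  rw [IsS, map_nonempty]
  refine and_congr_right fun _ => ?_
  have h1 : ∀ (β : ℕ) (F : List ℕ), Sub (A.map Fin.valEmbedding) β F ↔
      A ⊆ univ.filter (fun a : Fin 45 => (mk β F).testBit a) := by
    intro β F
    constructor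
    · intro h a ha
      exact mem_filter.2 ⟨mem_univ _, (testBit_mk β a F).2
        (h a (mem_map.2 ⟨a, ha, rfl⟩))⟩
    · intro h x hx
      obtain ⟨a, ha, rfl⟩ := mem_map.1 hx
      exact (testBit_mk β a F).1 (mem_filter.1 (h ha)).2
  constructor
  · rintro ⟨β, F, hF, h⟩
    exact ⟨mk β F, (mem_stkFs _).2 ⟨β, F, hF, rfl⟩, (h1 β F).1 h⟩
  · rintro ⟨f, hf, h⟩
    obtain ⟨β, F, hF, rfl⟩ := (mem_stkFs f).1 hf
    exact ⟨β, F, hF, (h1 β F).2 h⟩

theorem stkFs_lt : ∀ f ∈ stkFs, f < 2 ^ 45 := by decide +kernel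

/-- the certificate -/
def stkCert : List (ℕ × ℕ × List (ℕ × ℕ)) :=
  stkCert0 ++ (stkCert1 ++ (stkCert2 ++ (stkCert3 ++ (stkCert4 ++ stkCert5))))

theorem ok0 : stkCert0.all (MG.chk 45 stkFs) = true := by decide +kernel

theorem ok1 : stkCert1.all (MG.chk 45 stkFs) = true := by decide +kernel

theorem ok2 : stkCert2.all (MG.chk 45 stkFs) = true := by decide +kernel

theorem ok3 : stkCert3.all (MG.chk 45 stkFs) = true := by decide +kernel

theorem ok4 : stkCert4.all (MG.chk 45 stkFs) = true := by decide +kernel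

theorem ok5 : stkCert5.all (MG.chk 45 stkFs) = true := by decide +kernel

theorem stkCert_ok (e : ℕ × ℕ × List (ℕ × ℕ)) (he : e ∈ stkCert) :
    MG.chk 45 stkFs e = true := by
  simp only [stkCert, List.mem_append] at he
  rcases he with h | h | h | h | h | h
  · exact List.all_eq_true.1 ok0 e h
  · exact List.all_eq_true.1 ok1 e h
  · exact List.all_eq_true.1 ok2 e h
  · exact List.all_eq_true.1 ok3 e h
  · exact List.all_eq_true.1 ok4 e h
  · exact List.all_eq_true.1 ok5 e h

theorem stkFs_mem : stkFs.all (MG.mem (0 :: stkCert.map Prod.fst)) = true := by decide +kernel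

theorem stk_closed : MG.closed 45 0 (0 :: stkCert.map Prod.fst) = true := by decide +kernel

/-- every star of a complex with the facets of `Stk 2` has an acyclic matching -/
theorem match_two (X : SC 45)
    (hX : ∀ A : Finset (Fin 45), (∃ i, X.verts i = A) ↔ IsS 2 (A.map Fin.valEmbedding))
    (τ : X.N) : ∃ t, X.toCells.Match τ t :=
  X.match_of_cert stkFs stkFs_lt (fun A => (hX A).trans (isS_two_iff A)) stkCert stkCert_ok
    (fun f hf => MG.mem_iff.1 (List.all_eq_true.1 stkFs_mem f hf)) stk_closed τ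

end Stk

end Lens
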