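import Pool.Agent.Lens.E
import Pool.Agent.Lens.Stk

/-!
# The cells of the stacked lens spaces are the faces of a simplicial complex
-/

set_option autoImplicit false

namespace Lens

/-- A simplicial complex whose simplices have at most `n - 3` vertices as a complex of faces. -/
def SC.simp {n : ℕ} (X : SC n) (h : ∀ σ, (X.verts σ).card + 3 ≤ n) : Simp n X.toCells where
  verts := X.verts
  le_iff _ _ := Iff.rfl
  inj := X.inj
  nonempty := X.ne
  card_le := h
  down := X.down

/-- The stacked lens space as a complex of faces. -/
noncomputable def stkSimp (R : ℕ) : Simp (9 * (R + 3)) (stk R).toCells :=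
  (stk R).simp fun σ => by
    have h := (stk_isS σ).card_le
    rw [Finset.card_map] at h
    omega

end Lens
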