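import Pool.Agent.Lens.StkMatch
import Pool.Agent.Lens.Stk

/-!
# Stars of the stacked lens spaces
-/

set_option autoImplicit false

open Finset

namespace Lens

theorem stk_match_two (τ : (stk 2).N) : ∃ t, (stk 2).toCells.Match τ t :=
  Stk.match_two (stk 2) (fun A => exists_verts_iff (R := 2) A) τ

/-- every star of `Stk R` has an acyclic matching with one critical facet -/
theorem stk_match {R : ℕ} (hR : 2 ≤ R) (τ : (stk R).N) : ∃ t, (stk R).toCells.Match τ t := by
  obtain ⟨s, hs, τ', h1, h3, h4, _⟩ := stk_star hR τ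
  obtain ⟨t', ht'⟩ := stk_match_two τ'
  exact SC.match_transfer (stk R) (stk 2) (shE R s hs).toEmbedding h1 h3 h4 ht'

/-- the critical facet of the star of a cell -/
noncomputable def stkT {R : ℕ} (hR : 2 ≤ R) (τ : (stk R).toCells.N) : (stk R).toCells.N :=
  (stk_match hR τ).choose

theorem stkT_match {R : ℕ} (hR : 2 ≤ R) (τ : (stk R).toCells.N) :
    (stk R).toCells.Match τ (stkT hR τ) := (stk_match hR τ).choose_spec

theorem stkT_le {R : ℕ} (hR : 2 ≤ R) (τ : (stk R).toCells.N) :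
    (stk R).toCells.le τ (stkT hR τ) ∧ (stk R).toCells.dim (stkT hR τ) = 3 :=
  (stkT_match hR τ).1

theorem stkT_upper {R : ℕ} (hR : 2 ≤ R) {k : Type*} [Field k] (τ : (stk R).toCells.N) (d : ℕ)
    (φ : (stk R).toCells.N → k)
    (hφ : ∀ σ, φ σ ≠ 0 → (stk R).toCells.le τ σ ∧ (stk R).toCells.dim σ = d)
    (hc : ∀ i, (stk R).toCells.le τ i → ∑ l, ((stk R).toCells.inc i l : k) * φ l = 0) :
    ∃ ψ : (stk R).toCells.N → k,
      (∀ σ, ψ σ ≠ 0 → (stk R).toCells.le τ σ ∧ (stk R).toCells.dim σ + 1 = d) ∧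
      ∀ i, (stk R).toCells.le τ i → (d = 3 → i ≠ stkT hR τ) →
        φ i = ∑ l, ((stk R).toCells.inc i l : k) * ψ l :=
  (stkT_match hR τ).upper stk_dim_le d φ hφ hc

end Lens
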