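import Pool.Agent.Lens.TierA
import Pool.Agent.Lens.C3
import Pool.Agent.Lens.E
import Pool.Agent.Lens.F

/-!
# The braid group action on complete exceptional sequences of `T_A` is not transitive
-/

open CategoryTheory CategoryTheory.Limits CategoryTheory.Pretriangulated

namespace Lens

universe u

variable {k : Type u} [Field k] {n : ℕ} {lam : Fin n → Fin 2 → k}

theorem gens_single (Y : KM (LB lam)) (h : gens lam Y) : ∃ x : LB lam, Y = (Tw.single x).toK := by
  obtain ⟨q, rfl⟩ := h
  exact ⟨_, rfl⟩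

theorem conj_faceMap {s : k ≃+* k} (hs : Fixes lam s) (K I : Finset (Fin n)) :
    (conj hs).map (faceMap lam K I) = faceMap lam K I := by
  by_cases h : K ⊆ I
  · rw [faceMap_of_subset h]
    exact conj_gen hs h
  · rw [faceMap, dif_neg h]
    exact (conj hs).map_zero _ _

variable [hn : Fact (3 ≤ n)]

/-- coefficient conjugation on `T_A` -/
noncomputable def conjTA {s : k ≃+* k} (hs : Fixes lam s) : TA lam ⥤ TA lam :=
  conjT (gens lam) gens_single hs

instance {s : k ≃+* k} (hs : Fixes lam s) : (conjTA hs).IsEquivalence :=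
  conjT_isEquivalence (gens lam) gens_single hs

noncomputable instance {s : k ≃+* k} (hs : Fixes lam s) : (conjTA hs).CommShift ℤ :=
  inferInstanceAs ((conjT (gens lam) gens_single hs).CommShift ℤ)

instance {s : k ≃+* k} (hs : Fixes lam s) : (conjTA hs).Additive :=
  inferInstanceAs (conjT (gens lam) gens_single hs).Additive

instance {s : k ≃+* k} (hs : Fixes lam s) : (conjTA hs).IsTriangulated :=
  inferInstanceAs (conjT (gens lam) gens_single hs).IsTriangulated

theorem TA_not_transitive {Z : Cells} (D : Simp n Z) (F : Z.Facts k)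
    {r : ℕ} (Λ : Z.Loop k r) (ht : F.t Λ.t₀ = Λ.t₀) (hv : ∃ v, Z.dim v = 0) (s : k ≃+* k)
    (hs : Fixes lam s) (z : k) (hz : z ^ r = 1) (hne : s z ≠ z) :
    ¬ BraidTransitive k (TA lam) := by
  classical
  have hz' : s z ^ r = 1 := by rw [← map_pow, hz, map_one]
  let c : Fin (JN n) → Z.N := fun i => if h : D.I i then h.choose else Λ.t₀
  have hc : ∀ σ, c (D.pos σ) = σ := fun σ => by
    have h : D.I (D.pos σ) := ⟨σ, rfl⟩
    have h1 : c (D.pos σ) = h.choose := dif_pos h
    rw [h1]
    exact (D.pos_inj h.choose_spec).symm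
  refine not_transitive_of_data (D.prep lam) (F := F) (Λ := Λ) ht hv hz hz' hne.symm
    (PRep.homFacts _ F) (PRep.homFacts _ F) (TAprop lam) (D.ces lam) D.I D.int c ?_
    (fun σ => ⟨D.pos σ, ⟨σ, rfl⟩, hc σ⟩) (conjK hs) (conjTA hs)
    (fun X => ⟨Iso.refl _⟩) ⟨eqToIso ?_⟩ ⟨eqToIso (conjK_single hs _)⟩ ?_
  · rintro i ⟨σ, rfl⟩
    rw [hc, D.ces_pos]
    rfl
  · exact conjK_twist hs (D.prep lam) (fun σ τ => conj_faceMap hs _ _) Λ z hz hz'
  · intro i
    refine ⟨0, ⟨eqToIso ?_ ≪≫ ((shiftFunctorZero (TA lam) ℤ).symm.app _)⟩⟩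
    exact conjT_single (gens lam) gens_single hs _ _

end Lens
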