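import Pool.Agent.Lens.TAMain
import Pool.Agent.Lens.StkFacts0
import Pool.Agent.Lens.StkH1
import Pool.Agent.Lens.StkLoop
import Pool.Agent.Lens.StkSimp

/-!
# The braid group action on complete exceptional sequences of `T_A` is not transitive, for
`9 (r + 3)` points fixed by an automorphism which moves an `r`-th root of unity
-/

set_option autoImplicit false

open CategoryTheory

namespace Lens

universe u

/-- All the facts about the stacked lens space. -/
noncomputable def stkFacts {R : ℕ} (hR : 2 ≤ R) (k : Type u) [Field k] (h : (R : k) ≠ 0) :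
    (stk R).toCells.Facts k :=
  stkFacts' hR k (fun φ hφ => stk_conn (by omega) φ hφ) (fun w hw => stk_h1 h w hw)

/-- The action on complete exceptional sequences of `T_A` is not transitive if the
`9 (r + 3)` points are fixed by an automorphism of `k` which moves an `r`-th root of unity. -/
theorem not_braidTransitive_TA_stk {k : Type u} [Field k] {r : ℕ} (hr : 2 ≤ r)
    (hrk : (r : k) ≠ 0) {lam : Fin (9 * (r + 3)) → Fin 2 → k} [Fact (3 ≤ 9 * (r + 3))]
    (s : k ≃+* k) (hs : Fixes lam s) (z : k) (hz : z ^ r = 1) (hne : s z ≠ z) :
    ¬ BraidTransitive k (TA lam) :=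
  TA_not_transitive (stkSimp r) (stkFacts hr k hrk) (stkLoop (by omega) k)
    (stkT_self hr _ (stkLoop (by omega) k).dim_t₀) (stk_exists_vertex r) s hs z hz hne

end Lens
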