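import Pool.Agent.Lens.Transfer
import Pool.Agent.Lens.NotIso

/-!
# Assembly: the braid group action is not transitive
-/

open CategoryTheory CategoryTheory.Limits CategoryTheory.Pretriangulated

set_option linter.unusedSectionVars false

namespace Lens

universe w v u

/-! ## Abstract form -/

section abstract

variable {k : Type w} [Field k] {T : Type u} [Category.{v} T] [Preadditive T] [Linear k T]
  [HasZeroObject T] [HasShift T ℤ] [∀ n : ℤ, (shiftFunctor T n).Additive]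
  [∀ n : ℤ, (shiftFunctor T n).Linear k] [Pretriangulated T] [IsTriangulated T]

theorem main_abstract {n : ℕ} (E : CES k T n) (D : TwistDatum k E.1)
    (hfin : ∀ i j, D.I i → D.I j → Module.Finite k (E.1 i ⟶ E.1 j) ∧
      ∀ m : ℤ, m ≠ 0 → ∀ f : E.1 i ⟶ (E.1 j)⟦m⟧, f = 0)
    (Φ : T ⥤ T) [Φ.IsEquivalence] [Φ.Additive] [Φ.CommShift ℤ] [Φ.IsTriangulated]
    (hI : ∀ i, ∃ m : ℤ, Nonempty (Φ.obj (E.1 i) ≅ (E.1 i)⟦m⟧)) (i₀ : Fin n) (h₀ : D.I i₀)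
    (hK : ∀ (K : T) (u : K ⟶ D.C) (w : (E.1 i₀)⟦(3 : ℤ)⟧ ⟶ K⟦(1 : ℤ)⟧),
      Triangle.mk u (D.b i₀) w ∈ distTriang T → ∀ m : ℤ, (Φ.obj K ≅ K⟦m⟧) → False) :
    ¬ BraidTransitive k T := by
  classical
  intro hB
  choose K u w hKt using fun i => distinguished_cocone_triangle₁ (D.b i)
  let E' : Fin n → T := fun i => if D.I i then K i else E.1 i
  have hE'i : ∀ i, D.I i → E' i = K i := fun i hi => if_pos hi
  have hTw : D.IsTwist E' := by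
    refine ⟨fun i hi => if_neg hi, fun i hi => ?_⟩
    rw [hE'i i hi]
    exact ⟨u i, w i, hKt i⟩
  have h1 := D.twist_exceptional E.2.1 E' hTw
  have h2 := D.twist_complete' E.2.1 E.2.2 hfin E' hTw
  have h3 : SameOrbit k E ⟨E', h1, h2⟩ := hB n E ⟨E', h1, h2⟩
  obtain ⟨m, ⟨i⟩⟩ := orbit_invariant Φ E ⟨E', h1, h2⟩ h3 hI i₀
  change Φ.obj (E' i₀) ≅ (E' i₀)⟦m⟧ at i
  rw [hE'i i₀ h₀] at i
  exact hK (K i₀) (u i₀) (w i₀) (hKt i₀) m i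

/-- rescaling the second map of a distinguished triangle -/
theorem dist_of_smul {A B C : T} {u : A ⟶ B} {b : B ⟶ C} {w : C ⟶ A⟦(1 : ℤ)⟧} {a : k}
    (ha : a ≠ 0) (h : Triangle.mk u (a • b) w ∈ distTriang T) :
    Triangle.mk u b (a • w) ∈ distTriang T := by
  refine isomorphic_distinguished _ h _ ?_
  let e : C ≅ C := ⟨a • 𝟙 C, a⁻¹ • 𝟙 C, by simp [smul_smul, ha], by simp [smul_smul, ha]⟩
  refine Triangle.isoMk _ _ (Iso.refl _) (Iso.refl _) e ?_ ?_ ?_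
  · show u ≫ 𝟙 _ = 𝟙 _ ≫ u
    simp
  · show b ≫ (a • 𝟙 C) = 𝟙 _ ≫ (a • b)
    simp
  · show (a • w) ≫ (𝟙 A)⟦(1 : ℤ)⟧' = (a • 𝟙 C) ≫ w
    simp

end abstract

/-! ## Morphisms between objects in degree `0` -/

section single

variable {k : Type w} [Field k] {𝓐 : Type u} [Category.{v} 𝓐] [Preadditive 𝓐] [Linear k 𝓐]

theorem single_shift_zero (X Y : 𝓐) (m : ℤ) (hm : m ≠ 0)
    (f : (Tw.single X).toK ⟶ (Tw.single Y).toK⟦m⟧) : f = 0 := by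
  obtain ⟨c, rfl⟩ := Tw.Coc.cls_surj f
  rw [Tw.Coc.cls_eq_zero_iff]
  refine ⟨fun _ _ => 0, fun _ _ _ => rfl, fun i j => ?_⟩
  rw [c.deg i j (fun h => hm (by
    have h' : (0 : ℤ) = 0 + m := h
    omega))]
  simp

theorem PRep.single_span {Z : Cells} (R : PRep k 𝓐 Z) (σ τ : Z.N) :
    ∃ g : R.PK σ ⟶ R.PK τ, ∀ f : R.PK σ ⟶ R.PK τ, ∃ a : k, f = a • g := by
  let g : Tw.Coc (Tw.single (R.P σ)) (Tw.single (R.P τ)) 0 :=
    { f := fun _ _ => R.e σ τ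
      deg := fun _ _ h => absurd rfl h
      coc := fun _ _ => (Finset.sum_eq_zero fun _ _ => comp_zero).trans
        ((congrArg _ (Finset.sum_eq_zero fun _ _ => zero_comp)).trans (smul_zero _)).symm }
  refine ⟨g.cls₀, fun f => ?_⟩
  obtain ⟨c, rfl⟩ := Tw.Coc.cls₀_surj f
  obtain ⟨a, ha⟩ := R.span σ τ (c.f () ())
  exact ⟨a, Tw.Coc.cls₀_smul a g c fun _ _ => ha⟩

end single

/-! ## The assembly -/

section assembly

variable {k : Type w} [Field k] {𝓐 : Type u} [Category.{v} 𝓐] [Preadditive 𝓐] [Linear k 𝓐]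
  {Z : Cells} (R : PRep k 𝓐 Z)

theorem PRep.HomFacts.b_ne {F : Z.Facts k} (H : R.HomFacts F) (τ : Z.N) : H.b τ ≠ 0 := by
  intro h
  apply H.hab τ
  rw [h, zero_comp, map_zero]

theorem not_transitive_of_data {F : Z.Facts k} {r : ℕ} {Λ : Z.Loop k r} (ht : F.t Λ.t₀ = Λ.t₀)
    (hv : ∃ v, Z.dim v = 0) {z z' : k} (hz : z ^ r = 1) (hz' : z' ^ r = 1) (hne : z ≠ z')
    (H : (R.twist Λ z hz).HomFacts F) (H' : (R.twist Λ z' hz').HomFacts F)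
    (Q : ObjectProperty (KM 𝓐)) [Q.IsTriangulated] [Q.IsStableUnderRetracts]
    {n : ℕ} (E : CES k Q.FullSubcategory n) (I : Fin n → Prop)
    (int : ∀ l, ¬ I l → (∀ j, I j → l < j) ∨ (∀ j, I j → j < l)) (c : Fin n → Z.N)
    (hc : ∀ i, I i → (E.1 i).obj = R.PK (c i)) (hsurj : ∀ σ, ∃ i, I i ∧ c i = σ)
    (Ψ : KM 𝓐 ⥤ KM 𝓐) [Ψ.Full] [Ψ.Faithful] [Ψ.Additive] [Ψ.CommShift ℤ] [Ψ.IsTriangulated]
    (Φ : Q.FullSubcategory ⥤ Q.FullSubcategory) [Φ.IsEquivalence] [Φ.Additive] [Φ.CommShift ℤ]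
    [Φ.IsTriangulated] (eΦ : ∀ X, Nonempty ((Φ.obj X).obj ≅ Ψ.obj X.obj))
    (hΨC : Nonempty (Ψ.obj (R.twist Λ z hz).tw.toK ≅ (R.twist Λ z' hz').tw.toK))
    (hΨP : Nonempty (Ψ.obj (R.PK Λ.t₀) ≅ R.PK Λ.t₀))
    (hI : ∀ i, ∃ m : ℤ, Nonempty (Φ.obj (E.1 i) ≅ (E.1 i)⟦m⟧)) :
    ¬ BraidTransitive k Q.FullSubcategory := by
  have hQP : ∀ σ, Q (R.PK σ) := fun σ => by
    obtain ⟨i, hi, rfl⟩ := hsurj σ
    rw [← hc i hi]
    exact (E.1 i).property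
  have hQC : Q (R.twist Λ z hz).tw.toK :=
    Tw.mem_of_terms _ Q fun σ => hQP σ
  let C : Q.FullSubcategory := ⟨(R.twist Λ z hz).tw.toK, hQC⟩
  have mem : ∀ P : ObjectProperty Q.FullSubcategory, P.IsTriangulated → P.IsStableUnderRetracts →
      (∀ i, I i → P (E.1 i)) → P C := by
    intro P h1 h2 hP
    have h3 : (P.map Q.ι) (R.twist Λ z hz).tw.toK := by
      refine Tw.mem_of_terms _ _ fun σ => ?_
      obtain ⟨i, hi, hσ⟩ := hsurj σ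
      refine ⟨E.1 i, hP i hi, ⟨eqToIso ?_⟩⟩
      rw [← hσ]
      exact hc i hi
    obtain ⟨Y, hY, ⟨e⟩⟩ := h3
    exact P.prop_of_iso (Q.ι.preimageIso (X := Y) (Y := C) e) hY
  let eP : ∀ i, I i → (Q.ι.obj (E.1 i) ≅ R.PK (c i)) := fun i hi => eqToIso (hc i hi)
  let D : TwistDatum k E.1 := mkDatum Q.ι E.1 I int C mem (Iso.refl _) eP H.end_C H.hom_neg
    H.hom_one H.tr (fun i => H.a (c i)) (fun i => H.b (c i)) (fun i => H.ha (c i))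
    (fun i => H.ha' (c i)) (fun i => H.hb (c i)) (fun i => H.hb' (c i)) (fun i => H.hab (c i))
  obtain ⟨i₀, h₀, hi₀⟩ := hsurj Λ.t₀
  refine main_abstract E D ?_ Φ hI i₀ h₀ ?_
  · intro i j hi hj
    constructor
    · obtain ⟨g, hg⟩ := R.single_span (c i) (c j)
      have h1 : ∀ f : E.1 i ⟶ E.1 j, ∃ a : k, f = a • untrn₀ Q.ι (eP i hi) (eP j hj) g := by
        intro f
        obtain ⟨a, ha⟩ := hg (trn₀ Q.ι (eP i hi) (eP j hj) f)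
        refine ⟨a, trn₀_inj Q.ι (eP i hi) (eP j hj) ?_⟩
        rw [ha, trn₀_smul, trn₀_untrn₀]
      refine Module.Finite.of_surjective
        (LinearMap.toSpanSingleton k _ (untrn₀ Q.ι (eP i hi) (eP j hj) g)) fun f => ?_
      obtain ⟨a, ha⟩ := h1 f
      exact ⟨a, ha.symm⟩
    · intro m hm
      exact eq_zero_of_trn Q.ι (eP i hi) (eP j hj) (single_shift_zero _ _ m hm)
  · intro K u w hT m e
    -- the triangle in the homotopy category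
    obtain ⟨w₁, hT₁⟩ := trn_triangle Q.ι (X := C) (Iso.refl _) (eP i₀ h₀) 3 u (D.b i₀) w hT
    have hb : trn Q.ι (Iso.refl (Q.ι.obj C)) (eP i₀ h₀) 3 (D.b i₀) = H.b (c i₀) := by
      have : D.b i₀ = untrn Q.ι (Iso.refl (Q.ι.obj C)) (eP i₀ h₀) 3 (H.b (c i₀)) := dif_pos h₀
      rw [this, trn_untrn]
    rw [hb] at hT₁
    have key : ∀ σ, σ = Λ.t₀ → ∀ w₁ : (R.PK σ)⟦(3 : ℤ)⟧ ⟶ (Q.ι.obj K)⟦(1 : ℤ)⟧,
        Triangle.mk (Q.ι.map u ≫ (Iso.refl (Q.ι.obj C)).hom) (H.b σ) w₁ ∈ distTriang (KM 𝓐) →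
        ∃ (u₂ : Q.ι.obj K ⟶ (R.twist Λ z hz).tw.toK)
          (w₂ : (R.PK Λ.t₀)⟦(3 : ℤ)⟧ ⟶ (Q.ι.obj K)⟦(1 : ℤ)⟧),
          Triangle.mk u₂ (H.b Λ.t₀) w₂ ∈ distTriang (KM 𝓐) := by
      rintro σ rfl w₁ h
      exact ⟨_, w₁, h⟩
    obtain ⟨u₂, w₂, hT₂⟩ := key (c i₀) hi₀ w₁ hT₁
    -- its image under `Ψ`
    obtain ⟨eC⟩ := hΨC
    obtain ⟨eP'⟩ := hΨP
    obtain ⟨w₃, hT₃⟩ := trn_triangle Ψ eC eP' 3 u₂ (H.b Λ.t₀) w₂ hT₂
    obtain ⟨a, ha⟩ := H'.hb Λ.t₀ (trn Ψ eC eP' 3 (H.b Λ.t₀))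
    have ha0 : a ≠ 0 := by
      rintro rfl
      rw [zero_smul] at ha
      exact trn_ne Ψ eC eP' (PRep.HomFacts.b_ne (R.twist Λ z hz) H Λ.t₀) ha
    rw [ha] at hT₃
    have hT₄ := dist_of_smul ha0 hT₃
    obtain ⟨eK⟩ := eΦ K
    exact R.not_iso F Λ ht z z' hz hz' hne hv H H' (Q.ι.obj K) (Ψ.obj (Q.ι.obj K)) u₂ w₂ hT₂ _ _
      hT₄ m (eK.symm ≪≫ Q.ι.mapIso e ≪≫ (Q.ι.commShiftIso m).app K)

end assembly

end Lens
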