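import Pool.Agent.Lens.A4
import Pool.Agent.Lens.Inv
import Pool.Agent.Lens.HomFacts
import Pool.Agent.Lens.Thick

/-!
# Transfer of twist data along a fully faithful triangulated functor
-/

open CategoryTheory CategoryTheory.Limits CategoryTheory.Pretriangulated

set_option linter.unusedSectionVars false

namespace Lens

universe w v u v' u'

/-! ## Transfer of morphisms -/

section trn

variable {k : Type w} [Field k] {T : Type u} [Category.{v} T] [Preadditive T] [Linear k T]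
  [HasShift T ℤ] [∀ n : ℤ, (shiftFunctor T n).Additive]
  [∀ n : ℤ, (shiftFunctor T n).Linear k]
  {K : Type u'} [Category.{v'} K] [Preadditive K] [Linear k K]
  [HasShift K ℤ] [∀ n : ℤ, (shiftFunctor K n).Additive]
  [∀ n : ℤ, (shiftFunctor K n).Linear k]
  (ι : T ⥤ K) [ι.Full] [ι.Faithful] [ι.Additive] [ι.Linear k] [ι.CommShift ℤ]

variable {X Y W : T} {X' Y' W' : K} (eX : ι.obj X ≅ X') (eY : ι.obj Y ≅ Y') (eW : ι.obj W ≅ W')

/-- transfer of a morphism of degree `m` -/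
noncomputable def trn (m : ℤ) (f : X ⟶ Y⟦m⟧) : X' ⟶ Y'⟦m⟧ :=
  eX.inv ≫ ι.map f ≫ (ι.commShiftIso m).hom.app Y ≫ eY.hom⟦m⟧'

/-- transfer back of a morphism of degree `m` -/
noncomputable def untrn (m : ℤ) (g : X' ⟶ Y'⟦m⟧) : X ⟶ Y⟦m⟧ :=
  ι.preimage (eX.hom ≫ g ≫ eY.inv⟦m⟧' ≫ (ι.commShiftIso m).inv.app Y)

/-- transfer of a morphism -/
noncomputable def trn₀ (f : X ⟶ Y) : X' ⟶ Y' := eX.inv ≫ ι.map f ≫ eY.hom

/-- transfer back of a morphism -/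
noncomputable def untrn₀ (g : X' ⟶ Y') : X ⟶ Y := ι.preimage (eX.hom ≫ g ≫ eY.inv)

theorem untrn_trn (m : ℤ) (f : X ⟶ Y⟦m⟧) : untrn ι eX eY m (trn ι eX eY m f) = f := by
  apply ι.map_injective
  rw [untrn, ι.map_preimage, trn]
  simp only [Category.assoc, Iso.hom_inv_id_assoc, ← Functor.map_comp_assoc, Iso.hom_inv_id]
  simp

theorem trn_untrn (m : ℤ) (g : X' ⟶ Y'⟦m⟧) : trn ι eX eY m (untrn ι eX eY m g) = g := by
  rw [untrn, trn, ι.map_preimage]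
  simp only [Category.assoc, Iso.inv_hom_id_app_assoc, Iso.inv_hom_id_assoc]
  rw [← Functor.map_comp, Iso.inv_hom_id]
  simp

theorem untrn₀_trn₀ (f : X ⟶ Y) : untrn₀ ι eX eY (trn₀ ι eX eY f) = f := by
  apply ι.map_injective
  rw [untrn₀, ι.map_preimage, trn₀]
  simp

theorem trn₀_untrn₀ (g : X' ⟶ Y') : trn₀ ι eX eY (untrn₀ ι eX eY g) = g := by
  rw [untrn₀, trn₀, ι.map_preimage]
  simp

theorem trn_smul (m : ℤ) (a : k) (f : X ⟶ Y⟦m⟧) :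
    trn ι eX eY m (a • f) = a • trn ι eX eY m f := by
  rw [trn, trn, Functor.map_smul, Linear.smul_comp, Linear.comp_smul]

theorem trn_add (m : ℤ) (f g : X ⟶ Y⟦m⟧) :
    trn ι eX eY m (f + g) = trn ι eX eY m f + trn ι eX eY m g := by
  rw [trn, trn, trn, Functor.map_add, Preadditive.add_comp, Preadditive.comp_add]

theorem trn₀_smul (a : k) (f : X ⟶ Y) : trn₀ ι eX eY (a • f) = a • trn₀ ι eX eY f := by
  rw [trn₀, trn₀, Functor.map_smul, Linear.smul_comp, Linear.comp_smul]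

theorem trn_zero (m : ℤ) : trn ι eX eY m (0 : X ⟶ Y⟦m⟧) = 0 := by
  rw [trn, Functor.map_zero, zero_comp, comp_zero]

theorem trn_inj {m : ℤ} {f g : X ⟶ Y⟦m⟧} (h : trn ι eX eY m f = trn ι eX eY m g) : f = g := by
  rw [← untrn_trn ι eX eY m f, h, untrn_trn]

theorem trn₀_inj {f g : X ⟶ Y} (h : trn₀ ι eX eY f = trn₀ ι eX eY g) : f = g := by
  rw [← untrn₀_trn₀ ι eX eY f, h, untrn₀_trn₀]

theorem trn_ne {m : ℤ} {f : X ⟶ Y⟦m⟧} (hf : f ≠ 0) : trn ι eX eY m f ≠ 0 := fun h =>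
  hf (trn_inj ι eX eY (h.trans (trn_zero ι eX eY m).symm))

include ι eX eY in
theorem eq_zero_of_trn {m : ℤ} (h : ∀ g : X' ⟶ Y'⟦m⟧, g = 0) (f : X ⟶ Y⟦m⟧) : f = 0 :=
  trn_inj ι eX eY (by rw [h (trn ι eX eY m f), h (trn ι eX eY m 0)])

theorem trn_comp (m : ℤ) (f : X ⟶ Y⟦m⟧) (g : Y ⟶ W) :
    trn ι eX eW m (f ≫ g⟦m⟧') = trn ι eX eY m f ≫ (trn₀ ι eY eW g)⟦m⟧' := by
  rw [trn, trn, trn₀]
  have h2 := (ι.commShiftIso m).hom.naturality g
  dsimp only [Functor.comp_map] at h2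
  simp only [Functor.map_comp, Category.assoc]
  rw [reassoc_of% h2]
  congr 3
  rw [← Functor.map_comp_assoc, Iso.hom_inv_id]
  simp

end trn

/-! ## Transfer of a twist datum -/

/-- transfer as a linear map -/
noncomputable def trnL {k : Type w} [Field k] {T : Type u} [Category.{v} T] [Preadditive T]
    [Linear k T] [HasShift T ℤ] {K : Type u'} [Category.{v'} K] [Preadditive K] [Linear k K]
    [HasShift K ℤ] (ι : T ⥤ K) [ι.Additive] [ι.Linear k] [ι.CommShift ℤ]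
    {X Y : T} {X' Y' : K} (eX : ι.obj X ≅ X') (eY : ι.obj Y ≅ Y') (m : ℤ) :
    (X ⟶ Y⟦m⟧) →ₗ[k] (X' ⟶ Y'⟦m⟧) where
  toFun f := trn ι eX eY m f
  map_add' f g := by
    rw [trn, trn, trn, Functor.map_add, Preadditive.add_comp, Preadditive.comp_add]
  map_smul' a f := by
    rw [trn, trn, Functor.map_smul, Linear.smul_comp, Linear.comp_smul]
    rfl

section datum

variable {k : Type w} [Field k] {T : Type u} [Category.{v} T] [Preadditive T] [Linear k T]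
  [HasZeroObject T] [HasShift T ℤ] [∀ n : ℤ, (shiftFunctor T n).Additive]
  [∀ n : ℤ, (shiftFunctor T n).Linear k] [Pretriangulated T]
  {K : Type u'} [Category.{v'} K] [Preadditive K] [Linear k K]
  [HasZeroObject K] [HasShift K ℤ] [∀ n : ℤ, (shiftFunctor K n).Additive]
  [∀ n : ℤ, (shiftFunctor K n).Linear k] [Pretriangulated K]
  (ι : T ⥤ K) [ι.Full] [ι.Faithful] [ι.Additive] [ι.Linear k] [ι.CommShift ℤ]

/-- transfer of a fibre triangle -/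
theorem trn_triangle [ι.IsTriangulated] {M X Y : T} {X' Y' : K} (eX : ι.obj X ≅ X')
    (eY : ι.obj Y ≅ Y') (m : ℤ) (u : M ⟶ X) (b : X ⟶ Y⟦m⟧) (w : Y⟦m⟧ ⟶ M⟦(1 : ℤ)⟧)
    (h : Triangle.mk u b w ∈ distTriang T) :
    ∃ w' : Y'⟦m⟧ ⟶ (ι.obj M)⟦(1 : ℤ)⟧,
      Triangle.mk (ι.map u ≫ eX.hom) (trn ι eX eY m b) w' ∈ distTriang K := by
  have h1 := ι.map_distinguished _ h
  let e : ι.obj (Y⟦m⟧) ≅ Y'⟦m⟧ := (ι.commShiftIso m).app Y ≪≫ (shiftFunctor K m).mapIso eY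
  refine ⟨e.inv ≫ ι.map w ≫ (ι.commShiftIso (1 : ℤ)).hom.app M, ?_⟩
  refine isomorphic_distinguished _ h1 _ ?_
  refine Triangle.isoMk _ _ (Iso.refl _) eX.symm e.symm ?_ ?_ ?_
  · show (ι.map u ≫ eX.hom) ≫ eX.inv = 𝟙 (ι.obj M) ≫ ι.map u
    rw [Category.assoc, eX.hom_inv_id, Category.comp_id, Category.id_comp]
  · show (eX.inv ≫ ι.map b ≫ (ι.commShiftIso m).hom.app Y ≫ eY.hom⟦m⟧') ≫
      (eY.inv⟦m⟧' ≫ (ι.commShiftIso m).inv.app Y) = eX.inv ≫ ι.map b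
    simp only [Category.assoc]
    rw [← Functor.map_comp_assoc, eY.hom_inv_id, CategoryTheory.Functor.map_id, Category.id_comp,
      Iso.hom_inv_id_app]
    simp
  · show (e.inv ≫ ι.map w ≫ (ι.commShiftIso (1 : ℤ)).hom.app M) ≫ (𝟙 (ι.obj M))⟦(1 : ℤ)⟧' =
      e.inv ≫ (ι.map w ≫ (ι.commShiftIso (1 : ℤ)).hom.app M)
    rw [CategoryTheory.Functor.map_id]
    exact Category.comp_id _

open scoped Classical in
/-- Transfer of a twist datum. -/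
noncomputable def mkDatum {n : ℕ} (E : Fin n → T) (I : Fin n → Prop)
    (int : ∀ l, ¬ I l → (∀ j, I j → l < j) ∨ (∀ j, I j → j < l)) (C : T)
    (mem : ∀ P : ObjectProperty T, P.IsTriangulated → P.IsStableUnderRetracts →
      (∀ i, I i → P (E i)) → P C)
    {C' : K} (eC : ι.obj C ≅ C') {P' : Fin n → K} (eP : ∀ i, I i → (ι.obj (E i) ≅ P' i))
    (end_C : ∀ f : C' ⟶ C', ∃ a : k, f = a • 𝟙 _)
    (hom_neg : ∀ m : ℤ, m < 0 → ∀ f : C' ⟶ C'⟦m⟧, f = 0)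
    (hom_one : ∀ f : C' ⟶ C'⟦(1 : ℤ)⟧, f = 0)
    (tr : (C' ⟶ C'⟦(3 : ℤ)⟧) →ₗ[k] k)
    (a : ∀ i, P' i ⟶ C')
    (b : ∀ i, C' ⟶ (P' i)⟦(3 : ℤ)⟧)
    (ha : ∀ i (f : P' i ⟶ C'), ∃ c : k, f = c • a i)
    (ha' : ∀ i (m : ℤ), m ≠ 0 → ∀ f : P' i ⟶ C'⟦m⟧, f = 0)
    (hb : ∀ i (f : C' ⟶ (P' i)⟦(3 : ℤ)⟧), ∃ c : k, f = c • b i)
    (hb' : ∀ i (m : ℤ), m ≠ 3 → ∀ f : C' ⟶ (P' i)⟦m⟧, f = 0)
    (hab : ∀ i, tr (b i ≫ (a i)⟦(3 : ℤ)⟧') ≠ 0) : TwistDatum k E where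
  I := I
  int := int
  C := C
  mem := mem
  end_C f := by
    obtain ⟨c, hc⟩ := end_C (trn₀ ι eC eC f)
    refine ⟨c, trn₀_inj ι eC eC ?_⟩
    rw [hc, trn₀_smul, trn₀, CategoryTheory.Functor.map_id]
    simp
  hom_neg m hm := eq_zero_of_trn ι eC eC (hom_neg m hm)
  hom_one := eq_zero_of_trn ι eC eC hom_one
  tr := tr.comp (trnL ι eC eC 3)
  a i := if h : I i then untrn₀ ι (eP i h) eC (a i) else 0
  b i := if h : I i then untrn ι eC (eP i h) 3 (b i) else 0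
  ha i hi f := by
    obtain ⟨c, hc⟩ := ha i (trn₀ ι (eP i hi) eC f)
    refine ⟨c, trn₀_inj ι (eP i hi) eC ?_⟩
    rw [hc, dif_pos hi, trn₀_smul, trn₀_untrn₀]
  ha' i hi m hm := eq_zero_of_trn ι (eP i hi) eC (ha' i m hm)
  hb i hi f := by
    obtain ⟨c, hc⟩ := hb i (trn ι eC (eP i hi) 3 f)
    refine ⟨c, trn_inj ι eC (eP i hi) ?_⟩
    rw [hc, dif_pos hi, trn_smul, trn_untrn]
  hb' i hi m hm := eq_zero_of_trn ι eC (eP i hi) (hb' i m hm)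
  hab i hi := by
    show tr (trn ι eC eC 3 _) ≠ 0
    rw [dif_pos hi, dif_pos hi, trn_comp ι eC (eP i hi) eC, trn_untrn, trn₀_untrn₀]
    exact hab i

end datum

end Lens
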