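import Mathlib
import Pool.Agent.Lens.Defs
import Pool.Agent.Lens.MatInst

/-!
# Bounded complexes of finite direct sums, given by finite data

`Tw 𝓐` : a finite index set with a degree function, an object of `𝓐` for every index and a matrix
`D` of degree `1` with `D ^ 2 = 0`; `A.toCpx` is the associated complex over `Mat_ 𝓐`, `A.toK` its
image in the homotopy category; `Coc A B m` : the cocycle matrices of degree `m` from `A` to `B`.
-/

open CategoryTheory CategoryTheory.Limits CategoryTheory.Pretriangulated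

namespace Lens

universe w v u

/-- A bounded complex of finite direct sums of objects of `𝓐`, given by a finite index set with a
degree function and a matrix. -/
structure Tw (𝓐 : Type u) [Category.{v} 𝓐] [Preadditive 𝓐] where
  ι : Type
  [fin : Fintype ι]
  deg : ι → ℤ
  P : ι → 𝓐
  D : ∀ i j, P i ⟶ P j
  D_deg : ∀ i j, deg j ≠ deg i + 1 → D i j = 0
  D_D : ∀ i j, ∑ l, D i l ≫ D l j = 0

attribute [instance] Tw.fin

namespace Tw

variable {𝓐 : Type u} [Category.{v} 𝓐] [Preadditive 𝓐]

/-- one object in degree `0` -/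
def single (X : 𝓐) : Tw 𝓐 where
  ι := Unit
  deg _ := 0
  P _ := X
  D _ _ := 0
  D_deg _ _ _ := rfl
  D_D _ _ := by simp

/-- A sum over the indices of degree `m` is a sum over all indices, if the other terms vanish. -/
theorem sum_subtype_deg {M : Type*} [AddCommMonoid M] (A : Tw 𝓐) (m : ℤ)
    [Fintype {i : A.ι // A.deg i = m}] (g : A.ι → M)
    (hg : ∀ i, A.deg i ≠ m → g i = 0) :
    ∑ l : {i : A.ι // A.deg i = m}, g l.1 = ∑ l, g l := by
  classical
  rw [← Finset.sum_subset (Finset.subset_univ (Finset.univ.filter fun i => A.deg i = m))]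
  · exact (Finset.sum_subtype _ (by simp) g).symm
  · intro i _ hi
    exact hg i (by simpa using hi)

open scoped Classical in
/-- the term of degree `m` -/
noncomputable def obj (A : Tw 𝓐) (m : ℤ) : Mat_ 𝓐 :=
  ⟨{i : A.ι // A.deg i = m}, fun i => A.P i.1⟩

/-- the differential -/
noncomputable def dif (A : Tw 𝓐) (m m' : ℤ) : A.obj m ⟶ A.obj m' :=
  fun (i : {i : A.ι // A.deg i = m}) (j : {i : A.ι // A.deg i = m'}) => A.D i.1 j.1

/-- the complex -/
noncomputable def toCpx (A : Tw 𝓐) : CochainComplex (Mat_ 𝓐) ℤ where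
  X m := A.obj m
  d m m' := A.dif m m'
  shape m m' h := by
    funext i j
    exact A.D_deg _ _ (fun h' => h (by rw [ComplexShape.up_Rel, ← i.2, ← j.2, h']))
  d_comp_d' m m' m'' h _ := by
    classical
    funext i j
    rw [Mat_.comp_apply]
    refine (A.sum_subtype_deg m' (fun l => A.D i.1 l ≫ A.D l j.1) fun l hl => ?_).trans
      (A.D_D i.1 j.1)
    rw [A.D_deg i.1 l, zero_comp]
    rw [i.2]
    intro h'
    exact hl (h'.trans h)

/-- the object of the homotopy category -/
noncomputable abbrev toK (A : Tw 𝓐) : HomotopyCategory (Mat_ 𝓐) (ComplexShape.up ℤ) :=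
  (HomotopyCategory.quotient _ _).obj A.toCpx

/-- cocycle matrices of degree `m` -/
structure Coc (A B : Tw 𝓐) (m : ℤ) where
  f : ∀ i j, A.P i ⟶ B.P j
  deg : ∀ i j, B.deg j ≠ A.deg i + m → f i j = 0
  coc : ∀ i j, ∑ l, f i l ≫ B.D l j = m.negOnePow • ∑ l, A.D i l ≫ f l j

end Tw

end Lens
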