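import Pool.Agent.Lens.Defs

/-!
# Spherical-like objects in an interval of a sequence, and the twisted sequence
-/

open CategoryTheory CategoryTheory.Limits CategoryTheory.Pretriangulated

namespace Lens

universe w v u

/-- Data of a 3-spherical-like object in an interval `I` of a sequence `E`. -/
structure TwistDatum (k : Type w) [Field k] {T : Type u} [Category.{v} T] [Preadditive T]
    [Linear k T] [HasZeroObject T] [HasShift T ℤ] [∀ n : ℤ, (shiftFunctor T n).Additive]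
    [Pretriangulated T] {n : ℕ} (E : Fin n → T) where
  I : Fin n → Prop
  int : ∀ l, ¬ I l → (∀ j, I j → l < j) ∨ (∀ j, I j → j < l)
  C : T
  mem : ∀ P : ObjectProperty T, P.IsTriangulated → P.IsStableUnderRetracts →
    (∀ i, I i → P (E i)) → P C
  end_C : ∀ f : C ⟶ C, ∃ a : k, f = a • 𝟙 C
  hom_neg : ∀ m : ℤ, m < 0 → ∀ f : C ⟶ C⟦m⟧, f = 0
  hom_one : ∀ f : C ⟶ C⟦(1 : ℤ)⟧, f = 0
  tr : (C ⟶ C⟦(3 : ℤ)⟧) →ₗ[k] k
  a : ∀ i, E i ⟶ C
  b : ∀ i, C ⟶ (E i)⟦(3 : ℤ)⟧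
  ha : ∀ i, I i → ∀ f : E i ⟶ C, ∃ c : k, f = c • a i
  ha' : ∀ i, I i → ∀ m : ℤ, m ≠ 0 → ∀ f : E i ⟶ C⟦m⟧, f = 0
  hb : ∀ i, I i → ∀ f : C ⟶ (E i)⟦(3 : ℤ)⟧, ∃ c : k, f = c • b i
  hb' : ∀ i, I i → ∀ m : ℤ, m ≠ 3 → ∀ f : C ⟶ (E i)⟦m⟧, f = 0
  hab : ∀ i, I i → tr (b i ≫ (a i)⟦(3 : ℤ)⟧') ≠ 0

section

variable {k : Type w} [Field k] {T : Type u} [Category.{v} T] [Preadditive T] [Linear k T]
  [HasZeroObject T] [HasShift T ℤ] [∀ n : ℤ, (shiftFunctor T n).Additive] [Pretriangulated T]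

/-- thick closure of the interval -/
def TwistDatum.Thick {n : ℕ} {E : Fin n → T} (D : TwistDatum k E) (X : T) : Prop :=
  ∀ P : ObjectProperty T, P.IsTriangulated → P.IsStableUnderRetracts →
    (∀ i, D.I i → P (E i)) → P X

/-- `E'` is the twist of `E` along the datum `D`: outside the interval nothing changes, inside
`E' i → C → (E i)⟦3⟧ → (E' i)⟦1⟧` is distinguished. -/
structure TwistDatum.IsTwist {n : ℕ} {E : Fin n → T} (D : TwistDatum k E)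
    (E' : Fin n → T) : Prop where
  out : ∀ i, ¬ D.I i → E' i = E i
  tri : ∀ i, D.I i → ∃ (u : E' i ⟶ D.C) (w : (E i)⟦(3 : ℤ)⟧ ⟶ (E' i)⟦(1 : ℤ)⟧),
    Triangle.mk u (D.b i) w ∈ distTriang T

end

end Lens
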